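import Pool.Agent.N997.TF.Defs

/-!
A verified checker for certificates that all Tate classes of one degree and one residue class of the
characteristic are relations.
-/

namespace Pool.Agent.N997.TF

section lists

variable {M : Type*} [AddCommGroup M]

/-- Linear combination of a list. -/
def lc : List ℤ → List M → M
  | c :: cs, v :: vs => c • v + lc cs vs
  | _, _ => 0

/-- The same for integers (for fast evaluation). -/
def li : List ℤ → List ℤ → ℤ
  | c :: cs, v :: vs => c * v + li cs vs
  | _, _ => 0

theorem lc_eq_li (l l' : List ℤ) : lc l l' = li l l' := by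
  induction l generalizing l' with
  | nil => simp [lc, li]
  | cons a l ih =>
    cases l' with
    | nil => simp [lc, li]
    | cons b l' => simp [lc, li, ih]

theorem lc_nil (vs : List M) : lc [] vs = 0 := by cases vs <;> simp [lc]

theorem lc_nil' (cs : List ℤ) : lc cs ([] : List M) = 0 := by cases cs <;> simp [lc]

/-- `r + k v`, padded by zeros. -/
def addm : List ℤ → ℤ → List ℤ → List ℤ
  | [], k, v => v.map (k * ·)
  | a :: r, _, [] => a :: r
  | a :: r, k, b :: v => (a + k * b) :: addm r k v

theorem lc_smul (k : ℤ) (v : List ℤ) (vs : List M) : lc (v.map (k * ·)) vs = k • lc v vs := by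
  induction v generalizing vs with
  | nil => simp [lc_nil]
  | cons a v ih =>
    cases vs with
    | nil => simp [lc_nil']
    | cons b vs => simp [lc, ih, mul_smul]

theorem lc_addm (r : List ℤ) (k : ℤ) (v : List ℤ) (vs : List M) :
    lc (addm r k v) vs = lc r vs + k • lc v vs := by
  induction r generalizing v vs with
  | nil => simp [addm, lc_nil, lc_smul]
  | cons a r ih =>
    cases v with
    | nil => simp [addm, lc_nil]
    | cons b v =>
      cases vs with
      | nil => simp [lc_nil']
      | cons c vs =>
        simp only [addm, lc, ih, add_smul, mul_smul, smul_add]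
        abel

/-- All entries vanish. -/
def allZero (l : List ℤ) : Bool := l.all fun a => a == 0

theorem lc_allZero {l : List ℤ} (h : allZero l = true) (vs : List M) : lc l vs = 0 := by
  induction l generalizing vs with
  | nil => exact lc_nil vs
  | cons a l ih =>
    simp only [allZero, List.all_cons, Bool.and_eq_true, beq_iff_eq] at h
    cases vs with
    | nil => exact lc_nil' _
    | cons b vs =>
      have := ih (by simpa [allZero] using h.2) vs
      simp [lc, h.1, this]

theorem lc_unit (pre l : List M) (b : M) :
    lc (List.replicate pre.length (0 : ℤ) ++ 1 :: List.replicate l.length 0) (pre ++ b :: l) = b := by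
  induction pre with
  | nil =>
    have h : allZero (List.replicate l.length (0 : ℤ)) = true := by
      simp [allZero]
    simp [lc, lc_allZero h]
  | cons a pre ih =>
    simp only [List.length_cons, List.replicate_succ, List.cons_append, lc, zero_smul, zero_add]
    exact ih

end lists

/-- Entry of a table. -/
def getL : List (List ℤ) → ℕ → List ℤ
  | [], _ => []
  | a :: _, 0 => a
  | _ :: l, n + 1 => getL l n

/-- The kinds of relations in a certificate. -/
inductive Rel where
  | two (x y : List ℕ)
  | one (x : List ℕ)
  | hd (q a : ℕ)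
  | dup (a : ℕ)

/-- A certificate. -/
structure Cert where
  hs : List ℕ
  us : List ℕ
  B : List ℕ
  C : List (List ℤ)
  om : List ℕ
  T : List ℕ
  Ms : List (List ℤ)
  D : ℤ
  chain : List (ℕ × List (ℤ × Rel))

/-- The Stickelberger weights. -/
def w (m f : ℕ) (hs : List ℕ) (t a : ℕ) : ℤ :=
  ((2 * (hs.map fun h => t * h * a % m).sum : ℕ) : ℤ) - ((f * m : ℕ) : ℤ)

def terms (m : ℕ) : Rel → List (ℤ × ℕ)
  | .two x y => (x ++ y).map fun a => (1, a)
  | .one x => x.map fun a => (1, a)
  | .hd q a => ((List.range q).map fun i => ((1 : ℤ), (a + i * (m / q)) % m)) ++ [(-1, q * a % m)]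
  | .dup a => [(1, a), (1, (a + m / 2) % m), (-1, 2 * a % m), (-1, m / 2)]

/-- One residue, or three residues with sum zero. -/
def piece (m : ℕ) (x : List ℕ) : Bool :=
  (x.all fun a => decide (0 < a) && decide (a < m)) &&
    (x.length == 1 || (x.length == 3 && x.sum % m == 0))

def valid (m : ℕ) (om : List ℕ) : Rel → Bool
  | .two x y => piece m x && piece m y
  | .one x => piece m x && !om.isEmpty
  | .hd q a => [3, 5, 7, 11, 13, 17, 19, 23, 29, 31, 37, 41, 43, 47].contains q && (m % q == 0) &&
      !(q * a % m == 0)
  | .dup a => (m % 2 == 0) && !(2 * a % m == 0)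

def tot (C : List (List ℤ)) : List (ℤ × ℕ) → List ℤ
  | [] => []
  | (k, y) :: l => addm (tot C l) k (getL C y)

def coefSum (p : ℕ) : List (ℤ × ℕ) → ℤ
  | [] => 0
  | (k, y) :: l => (if y = p then k else 0) + coefSum p l

def comb (m : ℕ) : List (ℤ × Rel) → List (ℤ × ℕ)
  | [] => []
  | (n, r) :: l => (terms m r).map (fun q => (n * q.1, q.2)) ++ comb m l

def chkChain (m : ℕ) (C : List (List ℤ)) (om : List ℕ) :
    List ℕ → List (ℕ × List (ℤ × Rel)) → Bool
  | known, [] => (List.range m).all fun a => a == 0 || known.contains a
  | known, (p, rs) :: l =>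
    (rs.all fun q => valid m om q.2 && allZero (tot C (terms m q.2))) &&
      (((comb m rs).all fun y => y.2 == p || (known.contains y.2 ||
        coefSum y.2 (comb m rs) == 0)) &&
      ((coefSum p (comb m rs) == 1 || coefSum p (comb m rs) == -1) &&
        chkChain m C om (p :: known) l))

def chkB (C : List (List ℤ)) : ℕ → List ℕ → Bool
  | _, [] => true
  | i, b :: l => (getL C b == List.replicate i 0 ++ 1 :: List.replicate l.length 0) &&
      chkB C (i + 1) l

/-- The order of the residue class. -/
def chkOrd (m x : ℕ) (hs : List ℕ) : Bool :=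
  decide (0 < hs.length) && ((hs == (List.range hs.length).map fun j => x ^ j % m) &&
    ((x ^ hs.length % m == 1) &&
      ((List.range hs.length).all fun j => j == 0 || !(x ^ j % m == 1))))

/-- The checker. -/
def chk (m x : ℕ) (c : Cert) : Bool :=
  decide (2 ≤ m) && (chkOrd m x c.hs &&
  (((List.range m).all fun t => !(Nat.gcd t m == 1) || c.us.contains t) &&
  ((c.us.all fun t => (List.range m).all fun a => a == 0 ||
      w m c.hs.length c.hs t a == li (getL c.C a) (c.B.map fun b => w m c.hs.length c.hs t b)) &&
  (((List.range m).all fun a => a == 0 ||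
      c.Ms.map (fun row => li row (c.T.map fun t => w m c.hs.length c.hs t a)) ==
        (getL c.C a).map (fun y => c.D * y)) &&
  (!(c.D == 0) &&
  ((c.T.all fun t => (Nat.gcd t m == 1) && decide (t < m)) &&
  (chkB c.C 0 c.B &&
  ((c.B.all fun b => decide (0 < b) && decide (b < m)) &&
  ((c.om.isEmpty || (piece m c.om && allZero (tot c.C (c.om.map fun a => (1, a))))) &&
    chkChain m c.C c.om (c.B ++ (if c.om.length = 1 then c.om else [])) c.chain)))))))))

end Pool.Agent.N997.TF
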