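import Pool.Agent.N997.TF.PP3

/-!
Prime powers, fourth part: the theorem.
-/

set_option linter.unusedSectionVars false

namespace Pool.Agent.N997.TF

open Pool.Agent.H916R2 Finset

section

variable {m : ℕ} [NeZero m]

theorem val_add_neg {a : ZMod m} (h : a ≠ 0) : a.val + (-a).val = m := by
  rw [ZMod.neg_val, if_neg h]
  have := ZMod.val_lt a
  omega

theorem tunit {t : ℕ} (ht : t.Coprime m) : IsUnit (t : ZMod m) := (ZMod.isUnit_iff_coprime t m).mpr ht

theorem term_ne {x v : (ZMod m)ˣ} (hm : 1 < m) {t : ℕ} (ht : t.Coprime m) (j : ℕ) :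
    (t : ZMod m) * (x : ZMod m) ^ j * (v : ZMod m) ≠ 0 := by
  haveI : Fact (1 < m) := ⟨hm⟩
  have h1 : IsUnit ((t : ZMod m) * (x : ZMod m) ^ j * (v : ZMod m)) :=
    ((tunit ht).mul (x.isUnit.pow j)).mul v.isUnit
  exact h1.ne_zero

/-- The pairs `v, - x ^ i v`. -/
theorem tate_pair (hm : 1 < m) (x v : (ZMod m)ˣ) (i : ℕ) :
    IsTate m (x : ZMod m) ({(v : ZMod m)} + {-((x : ZMod m) ^ i * v)}) := by
  intro t ht
  simp only [Multiset.map_add, Multiset.map_singleton, Multiset.sum_add, Multiset.sum_singleton,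
    Multiset.card_add, Multiset.card_singleton, sum_add_distrib]
  have h1 := shift (x : ZMod m) (fun z => (-((t : ZMod m) * z * v)).val) i
  have h2 : ∑ j ∈ range (orderOf (x : ZMod m)),
      ((t : ZMod m) * (x : ZMod m) ^ j * -((x : ZMod m) ^ i * v)).val =
      ∑ j ∈ range (orderOf (x : ZMod m)), (-((t : ZMod m) * (x : ZMod m) ^ j * v)).val := by
    rw [h1]
    refine sum_congr rfl fun j _ => ?_
    congr 1
    ring
  rw [h2, ← sum_add_distrib, sum_congr rfl fun j _ => val_add_neg (term_ne hm ht j), sum_const,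
    card_range, smul_eq_mul]
  ring

/-- If `-1` is a power of `x` then all pairs of units are Tate. -/
theorem tate_units (hm : 1 < m) {x : (ZMod m)ˣ} {i : ℕ} (hi : (x : ZMod m) ^ i = -1)
    (u v : (ZMod m)ˣ) : IsTate m (x : ZMod m) ({(u : ZMod m)} + {(v : ZMod m)}) := by
  intro t ht
  simp only [Multiset.map_add, Multiset.map_singleton, Multiset.sum_add, Multiset.sum_singleton,
    Multiset.card_add, Multiset.card_singleton, sum_add_distrib]
  have key : ∀ w : (ZMod m)ˣ, 2 * ∑ j ∈ range (orderOf (x : ZMod m)),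
      ((t : ZMod m) * (x : ZMod m) ^ j * w).val = orderOf (x : ZMod m) * m := by
    intro w
    have h1 := shift (x : ZMod m) (fun z => ((t : ZMod m) * z * w).val) i
    have h2 : ∑ j ∈ range (orderOf (x : ZMod m)),
        ((t : ZMod m) * ((x : ZMod m) ^ i * (x : ZMod m) ^ j) * w).val =
        ∑ j ∈ range (orderOf (x : ZMod m)), (-((t : ZMod m) * (x : ZMod m) ^ j * w)).val := by
      refine sum_congr rfl fun j _ => ?_
      congr 1
      rw [hi]; ring
    rw [h2] at h1
    rw [two_mul]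
    conv_lhs => rw [h1]
    rw [← h1]
    conv_lhs => arg 2; rw [h1]
    rw [← sum_add_distrib, sum_congr rfl fun j _ => val_add_neg (term_ne hm ht j), sum_const,
      card_range, smul_eq_mul]
  have h1 := key u
  have h2 := key v
  have h3 : 2 * (∑ j ∈ range (orderOf (x : ZMod m)), ((t : ZMod m) * (x : ZMod m) ^ j * u).val +
      ∑ j ∈ range (orderOf (x : ZMod m)), ((t : ZMod m) * (x : ZMod m) ^ j * v).val) =
      orderOf (x : ZMod m) * m + orderOf (x : ZMod m) * m := by
    rw [mul_add, h1, h2]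
  rw [h3]
  ring

theorem piece_unit (hm : 1 < m) (v : (ZMod m)ˣ) : CurvePiece m {(v : ZMod m)} := by
  haveI : Fact (1 < m) := ⟨hm⟩
  refine ⟨?_, Or.inl (by simp)⟩
  rw [Multiset.mem_singleton]
  exact fun h => v.ne_zero h.symm

end

theorem full_prime_pow {q k m : ℕ} [NeZero m] (hq : q.Prime) (hq2 : q ≠ 2) (hm : m = q ^ (k + 1))
    (x : (ZMod m)ˣ) {s : Multiset (ZMod m)} (h0 : (0 : ZMod m) ∉ s)
    (he : Even (Multiset.card s)) (hT : IsTate m (x : ZMod m) s) :
    cls s ∈ Relations m (x : ZMod m) := by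
  classical
  have hm1 : 1 < m := by rw [hm]; exact Nat.one_lt_pow (by omega) hq.one_lt
  obtain ⟨N, hN⟩ := expand hq hm
  set e : ZMod m → Quo m (x : ZMod m) := fun a => pr m (x : ZMod m) (Pi.single a 1) with hedef
  have hsum : ∀ s : Multiset (ZMod m), pr m (x : ZMod m) (cls s) = (s.map e).sum := pr_cls _
  have hdist : ∀ b : ZMod m, (q : ZMod m) * b ≠ 0 →
      ∑ i ∈ range q, e (b + ((i * (m / q) : ℕ) : ZMod m)) = e ((q : ZMod m) * b) := by
    intro b hb
    have h1 : pr m (x : ZMod m) (cls ((Multiset.range q).map fun i =>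
        b + ((i * (m / q) : ℕ) : ZMod m)) - cls {(q : ZMod m) * b}) = 0 :=
      pr_base (Or.inr (Or.inl ⟨q, b, hq, hq2, by rw [hm]; exact dvd_pow_self q (by omega), hb, rfl⟩))
    rw [map_sub, hsum, hsum, Multiset.map_singleton, Multiset.sum_singleton, Multiset.map_map,
      sub_eq_zero] at h1
    rw [← h1]
    rfl
  have hexp := hN _ e hdist
  rw [← pr_eq_zero, hsum, sum_expand hexp h0]
  set n : (ZMod m)ˣ → ℤ := fun v => (s.map fun a => N a v).sum with hn
  have hpair : ∀ (v : (ZMod m)ˣ) (i : ℕ), e v + e (-((x : ZMod m) ^ i * v)) = 0 := by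
    intro v i
    have h1 : pr m (x : ZMod m) (cls ({(v : ZMod m)} + {-((x : ZMod m) ^ i * v)})) = 0 := by
      refine pr_base (Or.inl ⟨_, _, piece_unit hm1 v, ?_, tate_pair hm1 x v i, rfl⟩)
      have := piece_unit hm1 (-(x ^ i * v))
      push_cast at this
      exact this
    rw [hsum] at h1
    simpa using h1
  have hneg : ∀ v : (ZMod m)ˣ, e (-(v : ZMod m)) = - e v := by
    intro v
    have := hpair v 0
    rw [pow_zero, one_mul] at this
    exact (neg_eq_of_add_eq_zero_right this).symm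
  have hpow : ∀ (v : (ZMod m)ˣ) (i : ℕ), e (((v * x ^ i : (ZMod m)ˣ)) : ZMod m) = e v := by
    intro v i
    have h1 := hpair v i
    have h2 := hneg (v * x ^ i)
    have h3 : (-((x : ZMod m) ^ i * v)) = -((v * x ^ i : (ZMod m)ˣ) : ZMod m) := by
      push_cast; ring
    rw [h3, h2] at h1
    exact (sub_eq_zero.mp (by rw [sub_eq_add_neg]; exact h1)).symm
  by_cases hH : ∃ i : ℕ, (x : ZMod m) ^ i = -1
  · obtain ⟨i, hi⟩ := hH
    have huv : ∀ u v : (ZMod m)ˣ, e u + e v = 0 := by
      intro u v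
      have h1 : pr m (x : ZMod m) (cls ({(u : ZMod m)} + {(v : ZMod m)})) = 0 :=
        pr_base (Or.inl ⟨_, _, piece_unit hm1 u, piece_unit hm1 v, tate_units hm1 hi u v, rfl⟩)
      rw [hsum] at h1
      simpa using h1
    have h1 : ∀ v : (ZMod m)ˣ, e v = e ((1 : (ZMod m)ˣ) : ZMod m) := by
      intro v
      have h2 := huv v 1
      have h3 := huv 1 1
      have h4 : e v + e ((1 : (ZMod m)ˣ) : ZMod m) =
          e ((1 : (ZMod m)ˣ) : ZMod m) + e ((1 : (ZMod m)ˣ) : ZMod m) := by rw [h2, h3]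
      exact add_right_cancel h4
    rw [sum_congr rfl fun v _ => by rw [h1 v], ← Finset.sum_smul]
    have hpar : Even (∑ v : (ZMod m)ˣ, n v) := by
      have h2 := sum_expand (c := fun _ : ZMod m => (1 : ZMod 2)) (hN (ZMod 2) (fun _ => 1) (by
        intro b _
        rw [sum_const, card_range, nsmul_eq_mul, mul_one]
        have hqo : q % 2 = 1 := by
          rcases hq.eq_two_or_odd with h | h
          · exact absurd h hq2
          · exact h
        have : (q : ZMod 2) = ((1 : ℕ) : ZMod 2) := by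
          rw [ZMod.natCast_eq_natCast_iff']
          omega
        rw [this, Nat.cast_one])) h0
      have h3 : (s.map fun _ : ZMod m => (1 : ZMod 2)).sum = 0 := by
        rw [Multiset.map_const', Multiset.sum_replicate, nsmul_eq_mul, mul_one]
        obtain ⟨r, hr⟩ := he
        rw [hr]
        have : ((r + r : ℕ) : ZMod 2) = ((0 : ℕ) : ZMod 2) := by
          rw [ZMod.natCast_eq_natCast_iff']
          omega
        rw [this, Nat.cast_zero]
      rw [h3] at h2
      have h4 : ((∑ v : (ZMod m)ˣ, n v : ℤ) : ZMod 2) = 0 := by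
        rw [h2, Int.cast_sum]
        refine sum_congr rfl fun v _ => ?_
        simp [hn]
      rw [ZMod.intCast_zmod_eq_zero_iff_dvd] at h4
      exact (even_iff_two_dvd).mpr (by exact_mod_cast h4)
    obtain ⟨r, hr⟩ := hpar
    rw [hr, add_smul, ← smul_add, huv 1 1, smul_zero]
  · have hchar : ∀ χ : DirichletCharacter ℂ m, χ x = 1 → χ.Odd →
        ∑ v : (ZMod m)ˣ, (n v : ℂ) * (χ v)⁻¹ = 0 := fun χ hx ho => char_sum hq hm hN h0 hT χ hx ho
    have hsymm := coset_symm hchar
    set E : (ZMod m)ˣ ⧸ Subgroup.zpowers x → Quo m (x : ZMod m) :=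
      fun O => e ((O.out : (ZMod m)ˣ) : ZMod m) with hE
    have hEmk : ∀ v : (ZMod m)ˣ, E (QuotientGroup.mk v) = e v := by
      intro v
      have h1 : (QuotientGroup.mk v : (ZMod m)ˣ ⧸ Subgroup.zpowers x) =
          QuotientGroup.mk ((QuotientGroup.mk v : (ZMod m)ˣ ⧸ Subgroup.zpowers x).out) := by
        rw [QuotientGroup.out_eq']
      obtain ⟨j, hj⟩ := mk_eq_iff.mp h1
      simp only [hE]
      rw [hj, hpow]
    have hstep : ∑ v : (ZMod m)ˣ, n v • e v =
        ∑ O : (ZMod m)ˣ ⧸ Subgroup.zpowers x, cosetSum x n O • E O := by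
      have h1 : ∀ O : (ZMod m)ˣ ⧸ Subgroup.zpowers x, cosetSum x n O • E O =
          ∑ v : (ZMod m)ˣ, (if (QuotientGroup.mk v : (ZMod m)ˣ ⧸ Subgroup.zpowers x) = O
            then n v • E O else 0) := by
        intro O
        simp only [cosetSum, Finset.sum_smul]
        refine sum_congr rfl fun v _ => ?_
        split_ifs <;> simp
      rw [sum_congr rfl fun O _ => h1 O, sum_comm]
      refine sum_congr rfl fun v _ => ?_
      rw [sum_ite_eq, if_pos (mem_univ _), hEmk]
    rw [hstep]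
    have hmulneg : ∀ u : (ZMod m)ˣ, (QuotientGroup.mk (-1) : (ZMod m)ˣ ⧸ Subgroup.zpowers x) *
        QuotientGroup.mk u = QuotientGroup.mk (-u) := by
      intro u
      rw [← QuotientGroup.mk_mul]
      congr 1
      simp
    refine Finset.sum_involution
      (fun O _ => (QuotientGroup.mk (-1) : (ZMod m)ˣ ⧸ Subgroup.zpowers x) * O) ?_ ?_ ?_ ?_
    · intro O _
      obtain ⟨u, rfl⟩ := QuotientGroup.mk_surjective O
      rw [hmulneg, ← hsymm u, hEmk, hEmk, Units.val_neg, hneg, smul_neg, add_neg_cancel]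
    · intro O _ _ h1
      obtain ⟨u, rfl⟩ := QuotientGroup.mk_surjective O
      rw [hmulneg] at h1
      obtain ⟨j, hj⟩ := mk_eq_iff.mp h1.symm
      apply hH
      refine ⟨j, ?_⟩
      have h2 : x ^ j = -1 := by
        have : u * x ^ j = u * (-1) := by rw [← hj]; simp
        exact mul_left_cancel this
      have h3 := congrArg (fun z : (ZMod m)ˣ => (z : ZMod m)) h2
      simpa using h3
    · intro O _; exact mem_univ _
    · intro O _
      rw [← mul_assoc, ← QuotientGroup.mk_mul]
      simp only [mul_neg, mul_one, neg_neg, QuotientGroup.mk_one]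
      exact one_mul O

end Pool.Agent.N997.TF
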