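import Pool.Agent.N997.TF.Sound3
import Pool.Agent.N997.TF.PP4

/-!
Doubling of the modulus: from `ZMod M` to `ZMod (2 M)`, for odd `M`.
-/

namespace Pool.Agent.N997.TF

open Finset

variable {M : ℕ}

theorem modEq_two_mul {a b : ℕ} (h : a ≡ b [MOD M]) : 2 * a ≡ 2 * b [MOD (2 * M)] :=
  Nat.ModEq.mul_left' 2 h

/-- Doubling. -/
def dbl (M : ℕ) [NeZero M] : ZMod M →+ ZMod (2 * M) where
  toFun b := ((2 * b.val : ℕ) : ZMod (2 * M))
  map_zero' := by simp
  map_add' a b := by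
    rw [← Nat.cast_add, ZMod.natCast_eq_natCast_iff, ← mul_add]
    refine modEq_two_mul ?_
    rw [← ZMod.natCast_eq_natCast_iff]
    simp

theorem dbl_nat [NeZero M] (n : ℕ) : dbl M (n : ZMod M) = ((2 * n : ℕ) : ZMod (2 * M)) := by
  change ((2 * (n : ZMod M).val : ℕ) : ZMod (2 * M)) = _
  rw [ZMod.natCast_eq_natCast_iff]
  refine modEq_two_mul ?_
  rw [← ZMod.natCast_eq_natCast_iff]
  simp

theorem val_dbl [NeZero M] (b : ZMod M) : (dbl M b).val = 2 * b.val := by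
  change ((2 * b.val : ℕ) : ZMod (2 * M)).val = _
  rw [ZMod.val_natCast]
  exact Nat.mod_eq_of_lt (by have := ZMod.val_lt b; omega)

theorem nat_mul_dbl [NeZero M] (c : ℕ) (b : ZMod M) :
    (c : ZMod (2 * M)) * dbl M b = dbl M ((c : ZMod M) * b) := by
  conv_rhs => rw [← ZMod.natCast_zmod_val b, ← Nat.cast_mul, dbl_nat]
  conv_lhs => rw [← ZMod.natCast_zmod_val b, dbl_nat]
  push_cast
  ring

theorem dbl_eq_zero [NeZero M] {b : ZMod M} (h : dbl M b = 0) : b = 0 := by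
  have h1 := val_dbl b
  rw [h, ZMod.val_zero] at h1
  exact (ZMod.val_eq_zero b).mp (by omega)

theorem exists_dbl [NeZero M] {c : ZMod (2 * M)} (h : Even c.val) : ∃ b : ZMod M, dbl M b = c := by
  haveI : NeZero (2 * M) := ⟨Nat.mul_ne_zero (by norm_num) (NeZero.ne M)⟩
  obtain ⟨r, hr⟩ := h
  refine ⟨(r : ZMod M), ?_⟩
  rw [dbl_nat, ← ZMod.natCast_zmod_val c, hr, ← two_mul]

section order

variable {p : ℕ} (hM : Odd M) (hp : p.Coprime (2 * M))
include hM hp

theorem pow_eq_one_iff' (n : ℕ) :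
    (p : ZMod (2 * M)) ^ n = 1 ↔ (p : ZMod M) ^ n = 1 := by
  have h2 : p ^ n ≡ 1 [MOD 2] := by
    have h1 : p.Coprime 2 := Nat.Coprime.coprime_mul_right_right hp
    have : Odd p := by
      rw [← Nat.not_even_iff_odd]
      intro h
      have := Nat.dvd_gcd (even_iff_two_dvd.mp h) (dvd_refl 2)
      rw [h1] at this
      omega
    have h3 : Odd (p ^ n) := this.pow
    rcases h3 with ⟨r, hr⟩
    unfold Nat.ModEq
    omega
  have hc : Nat.Coprime 2 M := by
    rw [Nat.coprime_two_left]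
    exact hM
  have key := Nat.modEq_and_modEq_iff_modEq_mul (a := p ^ n) (b := 1) hc
  have e1 : (p : ZMod (2 * M)) ^ n = 1 ↔ p ^ n ≡ 1 [MOD 2 * M] := by
    rw [← ZMod.natCast_eq_natCast_iff]; push_cast; rfl
  have e2 : (p : ZMod M) ^ n = 1 ↔ p ^ n ≡ 1 [MOD M] := by
    rw [← ZMod.natCast_eq_natCast_iff]; push_cast; rfl
  rw [e1, e2, ← key]
  exact ⟨fun h => h.2, fun h => ⟨h2, h⟩⟩

theorem order_dbl : orderOf (p : ZMod (2 * M)) = orderOf (p : ZMod M) :=
  orderOf_eq_orderOf_iff.mpr (pow_eq_one_iff' hM hp)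

theorem Wz_dbl [NeZero M] (t : ℕ) (b : ZMod M) :
    Wz (p : ZMod (2 * M)) t (dbl M b) = 2 * Wz (p : ZMod M) t b := by
  unfold Wz
  rw [order_dbl hM hp]
  have h1 : ∀ j : ℕ, (((t : ZMod (2 * M)) * (p : ZMod (2 * M)) ^ j * dbl M b).val : ℤ) =
      2 * (((t : ZMod M) * (p : ZMod M) ^ j * b).val : ℤ) := by
    intro j
    have h2 : (t : ZMod (2 * M)) * (p : ZMod (2 * M)) ^ j * dbl M b =
        dbl M ((t : ZMod M) * (p : ZMod M) ^ j * b) := by
      have := nat_mul_dbl (t * p ^ j) b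
      push_cast at this
      exact this
    rw [h2, val_dbl]
    push_cast
    ring
  rw [sum_congr rfl fun j _ => h1 j, ← mul_sum]
  push_cast
  ring

end order

end Pool.Agent.N997.TF
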