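import Pool.Agent.N997.TF.Dbl

/-!
Doubling of the modulus, second part: the relations and the weights.
-/

namespace Pool.Agent.N997.TF

open Finset

section general

variable {m : ℕ} [NeZero m]

theorem term_ne_zero {p t : ℕ} (hp : p.Coprime m) (ht : t.Coprime m) (j : ℕ) {a : ZMod m}
    (ha : a ≠ 0) : (t : ZMod m) * (p : ZMod m) ^ j * a ≠ 0 := by
  intro h
  have h1 : IsUnit ((t : ZMod m) * (p : ZMod m) ^ j) := (tunit ht).mul ((tunit hp).pow j)
  exact ha ((h1.mul_right_eq_zero).mp h)

theorem Wz_neg {p t : ℕ} (hp : p.Coprime m) (ht : t.Coprime m) {a : ZMod m} (ha : a ≠ 0) :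
    Wz (p : ZMod m) t (-a) = - Wz (p : ZMod m) t a := by
  have h1 : ∑ j ∈ range (orderOf (p : ZMod m)), (((t : ZMod m) * (p : ZMod m) ^ j * a).val : ℤ) +
      ∑ j ∈ range (orderOf (p : ZMod m)), (((t : ZMod m) * (p : ZMod m) ^ j * (-a)).val : ℤ) =
      orderOf (p : ZMod m) * m := by
    rw [← sum_add_distrib]
    rw [sum_congr rfl fun j _ => ?_]
    · rw [sum_const, card_range, nsmul_eq_mul]
    · have h2 := val_add_neg (term_ne_zero hp ht j ha)
      rw [mul_neg]
      exact_mod_cast h2
  unfold Wz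
  linarith

theorem Wz_neg_one {p t i : ℕ} (hp : p.Coprime m) (ht : t.Coprime m) (hi : (p : ZMod m) ^ i = -1)
    {a : ZMod m} (ha : a ≠ 0) : Wz (p : ZMod m) t a = 0 := by
  have h1 := shift (p : ZMod m) (fun z => (((t : ZMod m) * z * a).val : ℕ)) i
  have h2 : ∑ j ∈ range (orderOf (p : ZMod m)),
      ((t : ZMod m) * ((p : ZMod m) ^ i * (p : ZMod m) ^ j) * a).val =
      ∑ j ∈ range (orderOf (p : ZMod m)), ((t : ZMod m) * (p : ZMod m) ^ j * (-a)).val := by
    refine sum_congr rfl fun j _ => ?_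
    congr 1
    rw [hi]; ring
  rw [h2] at h1
  have h3 : Wz (p : ZMod m) t (-a) = Wz (p : ZMod m) t a := by
    unfold Wz
    congr 2
    exact_mod_cast h1.symm
  have h4 := Wz_neg hp ht ha
  linarith

theorem piece_one {a : ZMod m} (ha : a ≠ 0) : CurvePiece m {a} := by
  refine ⟨?_, Or.inl (by simp)⟩
  rw [Multiset.mem_singleton]
  exact fun h => ha h.symm

/-- Two residues with weights of sum zero. -/
theorem pair_zero {p : ℕ} {a b : ZMod m} (ha : a ≠ 0) (hb : b ≠ 0)
    (h : ∀ t : ℕ, t.Coprime m → Wz (p : ZMod m) t a + Wz (p : ZMod m) t b = 0) :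
    pr m (p : ZMod m) (Pi.single a 1) + pr m (p : ZMod m) (Pi.single b 1) = 0 := by
  have h1 : pr m (p : ZMod m) (cls ({a} + {b})) = 0 := by
    refine pr_base (Or.inl ⟨_, _, piece_one ha, piece_one hb, ?_, rfl⟩)
    rw [isTate_iff]
    intro t ht
    simpa using h t ht
  rw [pr_cls] at h1
  simpa using h1

end general

section dbl

variable {M p : ℕ} [NeZero M] (hM : Odd M) (hp : p.Coprime (2 * M))
include hM hp

theorem coprime_two_mul {t : ℕ} (h2 : Odd t) (ht : t.Coprime M) : t.Coprime (2 * M) :=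
  Nat.Coprime.mul_right (by rw [Nat.coprime_two_right]; exact h2) ht

/-- Transport of the Tate condition down. -/
theorem isTate_down {s : Multiset (ZMod M)}
    (h : ∀ t : ℕ, t.Coprime (2 * M) → (s.map fun b => Wz (p : ZMod (2 * M)) t (dbl M b)).sum = 0) :
    IsTate M (p : ZMod M) s := by
  rw [isTate_iff]
  have key : ∀ t : ℕ, t.Coprime (2 * M) → (s.map (Wz (p : ZMod M) t)).sum = 0 := by
    intro t ht
    have h1 := h t ht
    rw [Multiset.map_congr rfl fun b _ => Wz_dbl hM hp t b, Multiset.sum_map_mul_left] at h1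
    have h2 : (s.map fun i => Wz (p : ZMod M) t i).sum = 0 := by
      rcases mul_eq_zero.mp h1 with h3 | h3
      · norm_num at h3
      · exact h3
    exact h2
  intro t ht
  rcases Nat.even_or_odd t with he | ho
  · have h1 : Odd (t + M) := he.add_odd hM
    have h2 : (t + M).Coprime M := by
      rw [Nat.coprime_add_self_left]; exact ht
    have h3 := key (t + M) (coprime_two_mul hM hp h1 h2)
    have h4 : Wz (p : ZMod M) (t + M) = Wz (p : ZMod M) t := by
      funext a
      unfold Wz
      have : ((t + M : ℕ) : ZMod M) = (t : ZMod M) := by simp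
      rw [this]
    rwa [h4] at h3
  · exact key t (coprime_two_mul hM hp ho ht)

/-- Transport of the Tate condition up. -/
theorem isTate_up {s : Multiset (ZMod M)} (h : IsTate M (p : ZMod M) s) :
    IsTate (2 * M) (p : ZMod (2 * M)) (s.map (dbl M)) := by
  rw [isTate_iff] at h ⊢
  intro t ht
  have h1 := h t (Nat.Coprime.coprime_mul_left_right ht)
  rw [Multiset.map_map]
  simp only [Function.comp_def]
  rw [Multiset.map_congr rfl fun b _ => Wz_dbl hM hp t b, Multiset.sum_map_mul_left]
  have h2 : (s.map fun i => Wz (p : ZMod M) t i).sum = 0 := h1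
  rw [h2, mul_zero]

omit hM hp in
theorem piece_up {s : Multiset (ZMod M)} (h : CurvePiece M s) :
    CurvePiece (2 * M) (s.map (dbl M)) := by
  refine ⟨?_, ?_⟩
  · rw [Multiset.mem_map]
    rintro ⟨b, hb, hb0⟩
    exact h.1 (dbl_eq_zero hb0 ▸ hb)
  · rw [Multiset.card_map]
    rcases h.2 with h1 | ⟨h1, h2⟩
    · exact Or.inl h1
    · refine Or.inr ⟨h1, ?_⟩
      rw [← map_multiset_sum, h2, map_zero]

/-- The transport of functions. -/
noncomputable def up (M p : ℕ) [NeZero M] : (ZMod M → ℤ) →+ Quo (2 * M) (p : ZMod (2 * M)) where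
  toFun f := ∑ b, f b • pr (2 * M) (p : ZMod (2 * M)) (Pi.single (dbl M b) 1)
  map_zero' := by simp
  map_add' f g := by simp [add_smul, sum_add_distrib]

omit hM hp in
theorem up_single (b : ZMod M) :
    up M p (Pi.single b 1) = pr (2 * M) (p : ZMod (2 * M)) (Pi.single (dbl M b) 1) := by
  change ∑ c, (Pi.single b 1 : ZMod M → ℤ) c • _ = _
  rw [Finset.sum_eq_single b]
  · simp
  · intro c _ hc
    simp [Pi.single_eq_of_ne hc]
  · simp

omit hM hp in
theorem up_cls (s : Multiset (ZMod M)) :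
    up M p (cls s) = pr (2 * M) (p : ZMod (2 * M)) (cls (s.map (dbl M))) := by
  rw [pr_cls, Multiset.map_map]
  induction s using Multiset.induction_on with
  | empty => simp [cls_zero]
  | cons a s ih => rw [cls_cons, map_add, ih, up_single, Multiset.map_cons, Multiset.sum_cons]; rfl

theorem up_base {f : ZMod M → ℤ} (h : f ∈ Base M (p : ZMod M)) : up M p f = 0 := by
  rcases h with ⟨s, s', hs, hs', hT, rfl⟩ | ⟨q, a, hq, hq2, hqM, ha, rfl⟩ | ⟨a, h2, _⟩
  · rw [up_cls]
    refine pr_base (Or.inl ⟨_, _, piece_up hs, piece_up hs', ?_, ?_⟩)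
    · rw [← Multiset.map_add]
      exact isTate_up hM hp hT
    · rw [← Multiset.map_add]
  · rw [map_sub, up_cls, up_cls, ← map_sub]
    refine pr_base (Or.inr (Or.inl ⟨q, dbl M a, hq, hq2, Dvd.dvd.mul_left hqM 2, ?_, ?_⟩))
    · rw [nat_mul_dbl]
      exact fun h => ha (dbl_eq_zero h)
    · rw [Multiset.map_map, Multiset.map_singleton, nat_mul_dbl]
      congr 2
      refine Multiset.map_congr rfl fun i _ => ?_
      simp only [Function.comp_def]
      rw [map_add, dbl_nat, Nat.mul_div_assoc 2 hqM]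
      congr 2
      ring
  · exact absurd (even_iff_two_dvd.mpr h2) (Nat.not_even_iff_odd.mpr hM)

theorem up_relations {f : ZMod M → ℤ} (h : f ∈ Relations M (p : ZMod M)) : up M p f = 0 := by
  have h1 : Relations M (p : ZMod M) ≤ (up M p).ker := by
    unfold Relations
    rw [AddSubgroup.closure_le]
    intro f hf
    exact up_base hM hp hf
  exact h1 h

end dbl

end Pool.Agent.N997.TF
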