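import Pool.Agent.N997.TF.Dbl2

/-!
Doubling of the modulus, third part: the theorem.
-/

namespace Pool.Agent.N997.TF

open Finset

section

variable {M : ℕ} [NeZero M]

theorem half_ne : ((M : ℕ) : ZMod (2 * M)) ≠ 0 := by
  have h0 : 0 < M := Nat.pos_of_ne_zero (NeZero.ne M)
  exact cast_ne_zero h0 (by omega)

theorem val_half : ((M : ℕ) : ZMod (2 * M)).val = M := by
  have h0 : 0 < M := Nat.pos_of_ne_zero (NeZero.ne M)
  rw [ZMod.val_natCast]
  exact Nat.mod_eq_of_lt (by omega)

theorem two_mul_half : (2 : ZMod (2 * M)) * ((M : ℕ) : ZMod (2 * M)) = 0 := by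
  have : ((2 * M : ℕ) : ZMod (2 * M)) = 0 := ZMod.natCast_self _
  push_cast at this
  exact this

theorem odd_mul_half {u : ℕ} (hu : Odd u) :
    (u : ZMod (2 * M)) * ((M : ℕ) : ZMod (2 * M)) = ((M : ℕ) : ZMod (2 * M)) := by
  obtain ⟨r, rfl⟩ := hu
  push_cast
  rw [add_mul, one_mul, mul_comm (2 : ZMod (2 * M)) (r : ZMod (2 * M)), mul_assoc, two_mul_half]
  simp

theorem val_add_half' (c : ZMod (2 * M)) :
    (c + ((M : ℕ) : ZMod (2 * M))).val = (c.val + M) % (2 * M) := by
  rw [ZMod.val_add, val_half]

theorem val_add_half (c : ZMod (2 * M)) :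
    c.val + (c + ((M : ℕ) : ZMod (2 * M))).val = (2 * c).val + M := by
  haveI : NeZero (2 * M) := ⟨Nat.mul_ne_zero (by norm_num) (NeZero.ne M)⟩
  have h1 : c.val < 2 * M := ZMod.val_lt c
  have h2 : (2 * c).val = (2 * c.val) % (2 * M) := by
    conv_lhs => rw [← ZMod.natCast_zmod_val c]
    have : (2 : ZMod (2 * M)) * ((c.val : ℕ) : ZMod (2 * M)) = ((2 * c.val : ℕ) : ZMod (2 * M)) := by
      push_cast; ring
    rw [this, ZMod.val_natCast]
  rw [val_add_half', h2]
  rcases Nat.lt_or_ge c.val M with h | h
  · rw [Nat.mod_eq_of_lt (by omega), Nat.mod_eq_of_lt (by omega)]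
    omega
  · rw [Nat.mod_eq_sub_mod (by omega), Nat.mod_eq_of_lt (a := c.val + M - 2 * M) (by omega),
      Nat.mod_eq_sub_mod (by omega), Nat.mod_eq_of_lt (a := 2 * c.val - 2 * M) (by omega)]
    omega

theorem two_mul_eq_zero {a : ZMod (2 * M)} (h : 2 * a = 0) :
    a = 0 ∨ a = ((M : ℕ) : ZMod (2 * M)) := by
  haveI : NeZero (2 * M) := ⟨Nat.mul_ne_zero (by norm_num) (NeZero.ne M)⟩
  have h1 := val_add_half a
  rw [h, ZMod.val_zero, val_add_half'] at h1
  have h2 : a.val < 2 * M := ZMod.val_lt a
  rcases Nat.lt_or_ge a.val M with h3 | h3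
  · rw [Nat.mod_eq_of_lt (by omega)] at h1
    left
    exact (ZMod.val_eq_zero a).mp (by omega)
  · rw [Nat.mod_eq_sub_mod (by omega), Nat.mod_eq_of_lt (by omega)] at h1
    right
    rw [← ZMod.natCast_zmod_val a]
    congr 1
    omega

theorem odd_of_coprime {u : ℕ} (h : u.Coprime (2 * M)) : Odd u := by
  have h1 : u.Coprime 2 := Nat.Coprime.coprime_mul_right_right h
  rwa [Nat.coprime_two_right] at h1

variable {p t : ℕ} (hp : p.Coprime (2 * M)) (ht : t.Coprime (2 * M))
include hp ht

theorem Wz_half : Wz (p : ZMod (2 * M)) t ((M : ℕ) : ZMod (2 * M)) = 0 := by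
  have h1 : ∀ j : ℕ, (((t : ZMod (2 * M)) * (p : ZMod (2 * M)) ^ j * ((M : ℕ) : ZMod (2 * M))).val : ℤ)
      = M := by
    intro j
    have h2 := odd_mul_half (M := M) ((odd_of_coprime ht).mul ((odd_of_coprime hp).pow (n := j)))
    push_cast at h2
    rw [h2, val_half]
  unfold Wz
  rw [sum_congr rfl fun j _ => h1 j, sum_const, card_range, nsmul_eq_mul]
  push_cast
  ring

theorem Wz_two (a : ZMod (2 * M)) :
    Wz (p : ZMod (2 * M)) t a + Wz (p : ZMod (2 * M)) t (a + ((M : ℕ) : ZMod (2 * M))) =
      Wz (p : ZMod (2 * M)) t (2 * a) := by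
  have h1 : ∀ j : ℕ, (((t : ZMod (2 * M)) * (p : ZMod (2 * M)) ^ j * a).val : ℤ) +
      (((t : ZMod (2 * M)) * (p : ZMod (2 * M)) ^ j * (a + ((M : ℕ) : ZMod (2 * M)))).val : ℤ) =
      (((t : ZMod (2 * M)) * (p : ZMod (2 * M)) ^ j * (2 * a)).val : ℤ) + M := by
    intro j
    have h2 := odd_mul_half (M := M) ((odd_of_coprime ht).mul ((odd_of_coprime hp).pow (n := j)))
    push_cast at h2
    rw [mul_add, h2]
    have h3 := val_add_half ((t : ZMod (2 * M)) * (p : ZMod (2 * M)) ^ j * a)
    have h4 : (t : ZMod (2 * M)) * (p : ZMod (2 * M)) ^ j * (2 * a) =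
      2 * ((t : ZMod (2 * M)) * (p : ZMod (2 * M)) ^ j * a) := by ring
    rw [h4]
    exact_mod_cast h3
  have h5 := Finset.sum_congr (rfl : range (orderOf (p : ZMod (2 * M))) = _) fun j _ => h1 j
  rw [sum_add_distrib, sum_add_distrib, sum_const, card_range, nsmul_eq_mul] at h5
  unfold Wz
  push_cast at h5 ⊢
  linarith

end

theorem full_dbl {M p : ℕ} [NeZero M] (hM : Odd M) (hp : p.Coprime (2 * M))
    (hfull : ∀ s : Multiset (ZMod M), (0 : ZMod M) ∉ s → Even (Multiset.card s) →
      IsTate M (p : ZMod M) s → cls s ∈ Relations M (p : ZMod M))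
    (hord : (∃ i : ℕ, (p : ZMod (2 * M)) ^ i = -1) ∨ Odd (orderOf (p : ZMod (2 * M))))
    {s : Multiset (ZMod (2 * M))} (h0 : (0 : ZMod (2 * M)) ∉ s) (he : Even (Multiset.card s))
    (hT : IsTate (2 * M) (p : ZMod (2 * M)) s) :
    cls s ∈ Relations (2 * M) (p : ZMod (2 * M)) := by
  classical
  haveI : NeZero (2 * M) := ⟨Nat.mul_ne_zero (by norm_num) (NeZero.ne M)⟩
  set e : ZMod (2 * M) → Quo (2 * M) (p : ZMod (2 * M)) :=
    fun a => pr (2 * M) (p : ZMod (2 * M)) (Pi.single a 1) with hedef
  set H : ZMod (2 * M) := ((M : ℕ) : ZMod (2 * M)) with hH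
  have hHne : H ≠ 0 := half_ne
  have hHH : e H + e H = 0 := pair_zero hHne hHne fun t ht => by
    rw [Wz_half hp ht, add_zero]
  have heven : ∀ n : ℕ, Even n → n • e H = 0 := by
    rintro n ⟨r, rfl⟩
    rw [add_smul, ← smul_add, hHH, smul_zero]
  rw [← pr_eq_zero, pr_cls]
  rcases hord with ⟨i, hi⟩ | hodd
  · have h1 : ∀ a : ZMod (2 * M), a ≠ 0 → e a = e H := by
      intro a ha
      have h2 : e a + e H = 0 := pair_zero ha hHne fun t ht => by
        rw [Wz_neg_one hp ht hi ha, Wz_neg_one hp ht hi hHne, add_zero]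
      exact add_right_cancel (h2.trans hHH.symm)
    rw [Multiset.map_congr rfl fun a ha => h1 a (fun h => h0 (h ▸ ha)), Multiset.map_const',
      Multiset.sum_replicate]
    exact heven _ he
  · have hneg : ∀ a : ZMod (2 * M), a ≠ 0 → e (-a) = - e a := by
      intro a ha
      have h1 : e a + e (-a) = 0 := pair_zero ha (neg_ne_zero.mpr ha) fun t ht => by
        rw [Wz_neg hp ht ha, add_neg_cancel]
      exact (neg_eq_of_add_eq_zero_right h1).symm
    have hrel : ∀ a : ZMod (2 * M), 2 * a ≠ 0 → e a + e (a + H) = e (2 * a) + e H := by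
      intro a ha
      have h1 : pr (2 * M) (p : ZMod (2 * M)) (cls {a, a + ((2 * M / 2 : ℕ) : ZMod (2 * M))} -
          cls {2 * a, ((2 * M / 2 : ℕ) : ZMod (2 * M))}) = 0 :=
        pr_base (Or.inr (Or.inr ⟨a, Dvd.intro _ rfl, ha, rfl⟩))
      have h2 : 2 * M / 2 = M := by omega
      rw [map_sub, pr_cls, pr_cls, sub_eq_zero, h2] at h1
      simpa using h1
    -- one residue
    have hone : ∀ a : ZMod (2 * M), a ≠ 0 → ∃ (T : Multiset (ZMod M)) (n : ℕ), (0 : ZMod M) ∉ T ∧
        e a = up M p (cls T) + n • e H ∧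
        (∀ t : ℕ, t.Coprime (2 * M) → Wz (p : ZMod (2 * M)) t a =
          (T.map fun b => Wz (p : ZMod (2 * M)) t (dbl M b)).sum) ∧
        (Multiset.card T + n) % 2 = 1 := by
      intro a ha
      rcases Nat.even_or_odd a.val with hev | hod
      · obtain ⟨b, hb⟩ := exists_dbl hev
        refine ⟨{b}, 0, ?_, ?_, ?_, by simp⟩
        · rw [Multiset.mem_singleton]
          rintro rfl
          exact ha (by rw [← hb, map_zero])
        · rw [up_cls, pr_cls]
          simp [hb, hedef]
        · intro t _
          simp [hb]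
      · by_cases haH : a = H
        · refine ⟨0, 1, by simp, ?_, ?_, by simp⟩
          · rw [haH, cls_zero, map_zero]
            simp
          · intro t ht
            rw [haH, Wz_half hp ht]
            simp
        · have h2a : 2 * a ≠ 0 := by
            intro h
            rcases two_mul_eq_zero h with h1 | h1
            · exact ha h1
            · exact haH h1
          have haH' : a + H ≠ 0 := by
            intro h
            have h1 : 2 * (a + H) = 2 * a := by
              rw [mul_add, hH, two_mul_half, add_zero]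
            rw [h, mul_zero] at h1
            exact h2a h1.symm
          have hev : Even (a + H).val := by
            rw [hH, val_add_half']
            have h1 : a.val < 2 * M := ZMod.val_lt a
            rcases Nat.lt_or_ge (a.val + M) (2 * M) with h3 | h3
            · rw [Nat.mod_eq_of_lt h3]
              exact hod.add_odd hM
            · rw [Nat.mod_eq_sub_mod h3, Nat.mod_eq_of_lt (by omega)]
              exact (Nat.even_sub h3).mpr
                ⟨fun _ => even_two_mul M, fun _ => hod.add_odd hM⟩
          obtain ⟨b, hb⟩ := exists_dbl hev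
          have hb1 : dbl M ((a.val : ℕ) : ZMod M) = 2 * a := by
            rw [dbl_nat]
            push_cast
            rw [ZMod.natCast_zmod_val]
          have hb2 : dbl M (-b) = -(a + H) := by rw [map_neg, hb]
          refine ⟨{((a.val : ℕ) : ZMod M), -b}, 1, ?_, ?_, ?_, by simp⟩
          · intro h
            simp only [Multiset.insert_eq_cons, Multiset.mem_cons, Multiset.mem_singleton] at h
            rcases h with h | h
            · exact h2a (by rw [← hb1, ← h, map_zero])
            · exact haH' (neg_eq_zero.mp (by rw [← hb2, ← h, map_zero]))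
          · rw [up_cls, pr_cls]
            have h1 := hrel a h2a
            have h2 := hneg (a + H) haH'
            simp only [Multiset.insert_eq_cons, Multiset.map_cons, Multiset.map_singleton,
              Multiset.sum_cons, Multiset.sum_singleton, hb1, hb2]
            change e a = e (2 * a) + e (-(a + H)) + 1 • e H
            rw [h2, one_smul, eq_comm]
            have h3 : e (2 * a) + -e (a + H) + e H = e (2 * a) + e H - e (a + H) := by abel
            rw [h3, ← h1]
            abel
          · intro t ht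
            simp only [Multiset.insert_eq_cons, Multiset.map_cons, Multiset.map_singleton,
              Multiset.sum_cons, Multiset.sum_singleton, hb1, hb2]
            rw [Wz_neg hp ht haH', ← Wz_two hp ht a, hH]
            ring
    -- all residues
    have hall : ∀ s : Multiset (ZMod (2 * M)), (0 : ZMod (2 * M)) ∉ s →
        ∃ (T : Multiset (ZMod M)) (n : ℕ), (0 : ZMod M) ∉ T ∧
        (s.map e).sum = up M p (cls T) + n • e H ∧
        (∀ t : ℕ, t.Coprime (2 * M) → (s.map (Wz (p : ZMod (2 * M)) t)).sum =
          (T.map fun b => Wz (p : ZMod (2 * M)) t (dbl M b)).sum) ∧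
        (Multiset.card T + n) % 2 = Multiset.card s % 2 := by
      intro s
      induction s using Multiset.induction_on with
      | empty =>
        intro _
        exact ⟨0, 0, by simp, by simp [cls_zero], fun t _ => by simp, by simp⟩
      | cons a s ih =>
        intro hs
        rw [Multiset.mem_cons, not_or] at hs
        obtain ⟨T, n, c1, c2, c3, c4⟩ := ih hs.2
        obtain ⟨T', n', d1, d2, d3, d4⟩ := hone a (fun h => hs.1 h.symm)
        refine ⟨T' + T, n' + n, ?_, ?_, ?_, ?_⟩
        · rw [Multiset.mem_add, not_or]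
          exact ⟨d1, c1⟩
        · rw [Multiset.map_cons, Multiset.sum_cons, c2, d2, add_smul, up_cls, up_cls, up_cls,
            pr_cls, pr_cls, pr_cls, Multiset.map_add, Multiset.map_add, Multiset.sum_add]
          abel
        · intro t ht
          rw [Multiset.map_cons, Multiset.sum_cons, c3 t ht, d3 t ht, Multiset.map_add,
            Multiset.sum_add]
        · rw [Multiset.card_add, Multiset.card_cons]
          omega
    obtain ⟨T, n, c1, c2, c3, c4⟩ := hall s h0
    have hTT : IsTate M (p : ZMod M) T := by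
      refine isTate_down hM hp fun t ht => ?_
      rw [← c3 t ht]
      exact (isTate_iff _ _).mp hT t ht
    have hTe : Even (Multiset.card T) := by
      have h1 := hTT 1 (Nat.coprime_one_left M)
      have h2 : Even (orderOf (p : ZMod M) * M * Multiset.card T) := by
        rw [← h1]
        exact even_two_mul _
      rw [← order_dbl hM hp] at h2
      rcases Nat.even_mul.mp h2 with h3 | h3
      · exact absurd h3 (Nat.not_even_iff_odd.mpr (hodd.mul hM))
      · exact h3
    have hn : Even n := by
      rw [Nat.even_iff] at hTe he ⊢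
      omega
    change (s.map e).sum = 0
    rw [c2, heven n hn, add_zero]
    exact up_relations hM hp (hfull T c1 hTe hTT)

end Pool.Agent.N997.TF
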