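import Pool.Agent.N997.TF.Dbl3

/-!
Twice a power of an odd prime.
-/

namespace Pool.Agent.N997.TF

open Finset

theorem order_or {q k M p : ℕ} [NeZero M] (hq : q.Prime) (hq2 : q ≠ 2) (hMq : M = q ^ (k + 1))
    (hM : Odd M) (hp : p.Coprime (2 * M)) :
    (∃ i : ℕ, (p : ZMod (2 * M)) ^ i = -1) ∨ Odd (orderOf (p : ZMod (2 * M))) := by
  rcases Nat.even_or_odd (orderOf (p : ZMod (2 * M))) with hev | hod
  · left
    obtain ⟨r, hr⟩ := hev
    haveI : NeZero (2 * M) := ⟨Nat.mul_ne_zero (by norm_num) (NeZero.ne M)⟩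
    have hpos : 0 < orderOf (p : ZMod (2 * M)) := by
      rw [orderOf_pos_iff]
      have h1 : IsOfFinOrder (ZMod.unitOfCoprime p hp) := isOfFinOrder_of_finite _
      rw [← ZMod.coe_unitOfCoprime p hp]
      exact Units.isOfFinOrder_val.mpr h1
    refine ⟨r, ?_⟩
    have h1 : (p : ZMod (2 * M)) ^ (r + r) = 1 := by rw [← hr, pow_orderOf_eq_one]
    have h2 : (p : ZMod (2 * M)) ^ r ≠ 1 := by
      intro h
      have := Nat.le_of_dvd (by omega) (orderOf_dvd_of_pow_eq_one h)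
      omega
    rw [ne_eq, pow_eq_one_iff' hM hp] at h2
    rw [pow_eq_one_iff' hM hp] at h1
    have h3 : ((q : ℤ) ^ (k + 1)) ∣ ((p : ℤ) ^ r - 1) * ((p : ℤ) ^ r + 1) := by
      have h4 : (((p : ℤ) ^ (r + r) - 1 : ℤ) : ZMod M) = 0 := by
        push_cast
        rw [h1, sub_self]
      rw [ZMod.intCast_zmod_eq_zero_iff_dvd, hMq] at h4
      have h5 : ((p : ℤ) ^ r - 1) * ((p : ℤ) ^ r + 1) = (p : ℤ) ^ (r + r) - 1 := by ring
      rw [h5]
      exact_mod_cast h4
    have hqp : Prime (q : ℤ) := Nat.prime_iff_prime_int.mp hq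
    have h6 : ((q : ℤ) ^ (k + 1)) ∣ ((p : ℤ) ^ r + 1) := by
      by_cases h : (q : ℤ) ∣ ((p : ℤ) ^ r - 1)
      · exfalso
        have h7 : ¬ (q : ℤ) ∣ ((p : ℤ) ^ r + 1) := by
          intro h8
          have h9 := dvd_sub h8 h
          have h10 : (p : ℤ) ^ r + 1 - ((p : ℤ) ^ r - 1) = 2 := by ring
          rw [h10] at h9
          have h11 : q ∣ 2 := by exact_mod_cast h9
          exact hq2 ((Nat.prime_dvd_prime_iff_eq hq Nat.prime_two).mp h11)
        have h8 : IsCoprime ((q : ℤ) ^ (k + 1)) ((p : ℤ) ^ r + 1) :=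
          ((Prime.coprime_iff_not_dvd hqp).mpr h7).pow_left
        have h9 := h8.dvd_of_dvd_mul_right h3
        apply h2
        have h10 : (((p : ℤ) ^ r - 1 : ℤ) : ZMod M) = 0 := by
          rw [ZMod.intCast_zmod_eq_zero_iff_dvd, hMq]
          exact_mod_cast h9
        push_cast at h10
        exact sub_eq_zero.mp h10
      · have h8 : IsCoprime ((q : ℤ) ^ (k + 1)) ((p : ℤ) ^ r - 1) :=
          ((Prime.coprime_iff_not_dvd hqp).mpr h).pow_left
        exact h8.dvd_of_dvd_mul_left h3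
    have h7 : M ∣ p ^ r + 1 := by
      rw [hMq]
      exact_mod_cast h6
    have h8 : 2 ∣ p ^ r + 1 := by
      have h9 : Odd (p ^ r) := (odd_of_coprime hp).pow
      exact even_iff_two_dvd.mp (h9.add_odd odd_one)
    have h9 : 2 * M ∣ p ^ r + 1 :=
      Nat.Coprime.mul_dvd_of_dvd_of_dvd (by rw [Nat.coprime_two_left]; exact hM) h8 h7
    have h10 : ((p ^ r + 1 : ℕ) : ZMod (2 * M)) = 0 := (ZMod.natCast_eq_zero_iff _ _).mpr h9
    push_cast at h10
    exact eq_neg_of_add_eq_zero_left h10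
  · exact Or.inr hod

theorem full_two_prime_pow {q k p : ℕ} (hq : q.Prime) (hq2 : q ≠ 2)
    (hp : p.Coprime (2 * q ^ (k + 1))) {s : Multiset (ZMod (2 * q ^ (k + 1)))}
    (h0 : (0 : ZMod (2 * q ^ (k + 1))) ∉ s) (he : Even (Multiset.card s))
    (hT : IsTate (2 * q ^ (k + 1)) (p : ZMod (2 * q ^ (k + 1))) s) :
    cls s ∈ Relations (2 * q ^ (k + 1)) (p : ZMod (2 * q ^ (k + 1))) := by
  haveI : NeZero (q ^ (k + 1)) := ⟨pow_ne_zero _ hq.ne_zero⟩
  have hM : Odd (q ^ (k + 1)) := by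
    rcases hq.eq_two_or_odd' with h | h
    · exact absurd h hq2
    · exact h.pow
  have hpM : p.Coprime (q ^ (k + 1)) := Nat.Coprime.coprime_mul_left_right hp
  refine full_dbl hM hp ?_ (order_or hq hq2 rfl hM hp) h0 he hT
  intro s0 h0' he' hT'
  have h := full_prime_pow hq hq2 rfl (ZMod.unitOfCoprime p hpM) (s := s0) h0' he'
    (by rwa [ZMod.coe_unitOfCoprime])
  rwa [ZMod.coe_unitOfCoprime] at h

end Pool.Agent.N997.TF
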