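import Mathlib

/-!
Products of Gauss sums over finite fields of characteristic `p`: the algebraic relations which come
from the theorem of Tate for products of two curves and from the product formula of Hasse and
Davenport.
-/

namespace Pool.Agent.N997.TF

/-- The multiset `s` of residues modulo `m` as an integer valued function. -/
def cls {m : ℕ} (s : Multiset (ZMod m)) : ZMod m → ℤ := fun a => (s.count a : ℤ)

/-- For every unit `t` the average of the representatives in `{0, ..., m - 1}` of `t x ^ j a`
(`a ∈ s`, `j` less than the order of `x`) is `m / 2`. -/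
def IsTate (m : ℕ) (x : ZMod m) (s : Multiset (ZMod m)) : Prop :=
  ∀ t : ℕ, t.Coprime m →
    2 * (∑ j ∈ Finset.range (orderOf x), (s.map fun a => ((t : ZMod m) * x ^ j * a).val).sum) =
      orderOf x * m * Multiset.card s

/-- One nonzero residue, or three nonzero residues with sum zero. -/
def CurvePiece (m : ℕ) (s : Multiset (ZMod m)) : Prop :=
  (0 : ZMod m) ∉ s ∧ (Multiset.card s = 1 ∨ Multiset.card s = 3 ∧ s.sum = 0)

/-- The relations: Tate unions of two curve pieces, and the product formulas. -/
def Base (m : ℕ) (x : ZMod m) : Set (ZMod m → ℤ) :=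
  {f | (∃ s s' : Multiset (ZMod m), CurvePiece m s ∧ CurvePiece m s' ∧ IsTate m x (s + s') ∧
        f = cls (s + s')) ∨
    (∃ (q : ℕ) (a : ZMod m), q.Prime ∧ q ≠ 2 ∧ q ∣ m ∧ (q : ZMod m) * a ≠ 0 ∧
        f = cls ((Multiset.range q).map fun i => a + ((i * (m / q) : ℕ) : ZMod m)) -
          cls {(q : ZMod m) * a}) ∨
    (∃ a : ZMod m, 2 ∣ m ∧ 2 * a ≠ 0 ∧
        f = cls {a, a + ((m / 2 : ℕ) : ZMod m)} - cls {2 * a, ((m / 2 : ℕ) : ZMod m)})}

/-- The subgroup generated by the relations. -/
def Relations (m : ℕ) (x : ZMod m) : AddSubgroup (ZMod m → ℤ) := AddSubgroup.closure (Base m x)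

end Pool.Agent.N997.TF
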