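import Pool.Agent.N997.TF.Same

/-!
Degree 10: certificates.
-/

set_option maxRecDepth 100000

namespace Pool.Agent.N997.TF

def c10_1 : Cert :=
  ⟨[1],[1,3,7,9],[1,2],[[],[1,0],[0,1],[-1,2],[1,-1],[0,0],[-1,1],[1,-2],[0,-1],[-1,0]],[5],[1,3],[[-1,-3],[-2,4]],20,[(9,[(1,.two [1] [9])]),(8,[(1,.two [2] [8])]),(3,[(1,.two [1,1,8] [3,8,9])]),(7,[(1,.two [1,2,7] [2,9,9])]),(6,[(1,.dup 1)]),(4,[(1,.dup 2)])]⟩

theorem k10_1 : chk 10 1 c10_1 = true := by decide +kernel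

def c10_3 : Cert :=
  ⟨[1,3,9,7],[1,3,7,9],[],[[],[],[],[],[],[],[],[],[],[]],[1],[],[],1,[(2,[(1,.one [2])]),(3,[(1,.one [3])]),(4,[(1,.one [4])]),(5,[(1,.one [5])]),(6,[(1,.one [6])]),(7,[(1,.one [7])]),(8,[(1,.one [8])]),(9,[(1,.one [9])])]⟩

theorem k10_3 : chk 10 3 c10_3 = true := by decide +kernel

def c10_9 : Cert :=
  ⟨[1,9],[1,3,7,9],[],[[],[],[],[],[],[],[],[],[],[]],[1],[],[],1,[(2,[(1,.one [2])]),(3,[(1,.one [3])]),(4,[(1,.one [4])]),(5,[(1,.one [5])]),(6,[(1,.one [6])]),(7,[(1,.one [7])]),(8,[(1,.one [8])]),(9,[(1,.one [9])])]⟩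

theorem k10_9 : chk 10 9 c10_9 = true := by decide +kernel

theorem all10 : ∀ x < 10, x.Coprime 10 → Full 10 x := by
  intro x hx hc
  interval_cases x
  · exact absurd hc (by decide)
  · exact full_of_chk k10_1
  · exact absurd hc (by decide)
  · exact full_of_chk k10_3
  · exact absurd hc (by decide)
  · exact absurd hc (by decide)
  · exact absurd hc (by decide)
  · exact full_same 3 3 k10_3 (by decide) (by decide)
  · exact absurd hc (by decide)
  · exact full_of_chk k10_9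

end Pool.Agent.N997.TF
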