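import Pool.Agent.N997.TF.Same

/-!
Degree 11: certificates.
-/

set_option maxRecDepth 100000

namespace Pool.Agent.N997.TF

def c11_1 : Cert :=
  ⟨[1],[1,2,3,4,5,6,7,8,9,10],[1,2,3,4,5],[[],[1,0,0,0,0],[0,1,0,0,0],[0,0,1,0,0],[0,0,0,1,0],[0,0,0,0,1],[0,0,0,0,-1],[0,0,0,-1,0],[0,0,-1,0,0],[0,-1,0,0,0],[-1,0,0,0,0]],[],[1,2,3,4,5],[[-1,-1,-1,0,-1],[-1,0,1,1,1],[-1,1,1,-1,0],[0,1,-1,-1,1],[-1,1,0,1,-1]],22,[(10,[(1,.two [1] [10])]),(9,[(1,.two [2] [9])]),(8,[(1,.two [3] [8])]),(7,[(1,.two [4] [7])]),(6,[(1,.two [5] [6])])]⟩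

theorem k11_1 : chk 11 1 c11_1 = true := by decide +kernel

def c11_2 : Cert :=
  ⟨[1,2,4,8,5,10,9,7,3,6],[1,2,3,4,5,6,7,8,9,10],[],[[],[],[],[],[],[],[],[],[],[],[]],[1],[],[],1,[(2,[(1,.one [2])]),(3,[(1,.one [3])]),(4,[(1,.one [4])]),(5,[(1,.one [5])]),(6,[(1,.one [6])]),(7,[(1,.one [7])]),(8,[(1,.one [8])]),(9,[(1,.one [9])]),(10,[(1,.one [10])])]⟩

theorem k11_2 : chk 11 2 c11_2 = true := by decide +kernel

def c11_3 : Cert :=
  ⟨[1,3,9,5,4],[1,2,3,4,5,6,7,8,9,10],[1],[[],[1],[-1],[1],[1],[1],[-1],[-1],[-1],[1],[-1]],[],[1],[[-1]],11,[(2,[(1,.two [1] [2])]),(6,[(1,.two [1] [6])]),(7,[(1,.two [1] [7])]),(8,[(1,.two [1] [8])]),(10,[(1,.two [1] [10])]),(3,[(1,.two [3] [2])]),(4,[(1,.two [4] [2])]),(5,[(1,.two [5] [2])]),(9,[(1,.two [9] [2])])]⟩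

theorem k11_3 : chk 11 3 c11_3 = true := by decide +kernel

def c11_10 : Cert :=
  ⟨[1,10],[1,2,3,4,5,6,7,8,9,10],[],[[],[],[],[],[],[],[],[],[],[],[]],[1],[],[],1,[(2,[(1,.one [2])]),(3,[(1,.one [3])]),(4,[(1,.one [4])]),(5,[(1,.one [5])]),(6,[(1,.one [6])]),(7,[(1,.one [7])]),(8,[(1,.one [8])]),(9,[(1,.one [9])]),(10,[(1,.one [10])])]⟩

theorem k11_10 : chk 11 10 c11_10 = true := by decide +kernel

theorem all11 : ∀ x < 11, x.Coprime 11 → Full 11 x := by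
  intro x hx hc
  interval_cases x
  · exact absurd hc (by decide)
  · exact full_of_chk k11_1
  · exact full_of_chk k11_2
  · exact full_of_chk k11_3
  · exact full_same 4 4 k11_3 (by decide) (by decide)
  · exact full_same 3 2 k11_3 (by decide) (by decide)
  · exact full_same 9 9 k11_2 (by decide) (by decide)
  · exact full_same 7 3 k11_2 (by decide) (by decide)
  · exact full_same 3 7 k11_2 (by decide) (by decide)
  · exact full_same 2 3 k11_3 (by decide) (by decide)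
  · exact full_of_chk k11_10

end Pool.Agent.N997.TF
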