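import Pool.Agent.N997.TF.Same

/-!
Degree 12: certificates.
-/

set_option maxRecDepth 100000

namespace Pool.Agent.N997.TF

def c12_1 : Cert :=
  ⟨[1],[1,5,7,11],[1,3],[[],[1,0],[2,-2],[0,1],[1,-1],[-1,2],[0,0],[1,-2],[-1,1],[0,-1],[-2,2],[-1,0]],[6],[1,5],[[-3,3],[1,-5]],24,[(11,[(1,.two [1] [11])]),(9,[(1,.two [3] [9])]),(10,[(1,.two [1,1,10] [6,9,9])]),(5,[(1,.two [1,5,6] [6,9,9])]),(2,[(1,.two [2,5,5] [6,9,9])]),(7,[(1,.two [3,3,6] [6,7,11])]),(4,[(1,.two [1,1,10] [4,9,11])]),(8,[(1,.two [1,1,10] [7,8,9])])]⟩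

theorem k12_1 : chk 12 1 c12_1 = true := by decide +kernel

def c12_5 : Cert :=
  ⟨[1,5],[1,5,7,11],[1],[[],[1],[0],[1],[0],[1],[0],[-1],[0],[-1],[0],[-1]],[2],[1],[[-1]],12,[(4,[(1,.one [4])]),(6,[(1,.one [6])]),(8,[(1,.one [8])]),(10,[(1,.one [10])]),(7,[(1,.two [1] [7])]),(9,[(1,.two [1] [9])]),(11,[(1,.two [1] [11])]),(3,[(1,.two [3] [7])]),(5,[(1,.two [5] [7])])]⟩

theorem k12_5 : chk 12 5 c12_5 = true := by decide +kernel

def c12_7 : Cert :=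
  ⟨[1,7],[1,5,7,11],[1],[[],[1],[2],[0],[1],[-1],[0],[1],[-1],[0],[-2],[-1]],[3],[1],[[-1]],8,[(6,[(1,.one [6])]),(9,[(1,.one [9])]),(5,[(1,.two [1] [5])]),(8,[(1,.two [1] [8])]),(11,[(1,.two [1] [11])]),(4,[(1,.two [4] [5])]),(7,[(1,.two [7] [5])]),(10,[(1,.one [1,1,10])]),(2,[(1,.one [2,5,5])])]⟩

theorem k12_7 : chk 12 7 c12_7 = true := by decide +kernel

def c12_11 : Cert :=
  ⟨[1,11],[1,5,7,11],[],[[],[],[],[],[],[],[],[],[],[],[],[]],[1],[],[],1,[(2,[(1,.one [2])]),(3,[(1,.one [3])]),(4,[(1,.one [4])]),(5,[(1,.one [5])]),(6,[(1,.one [6])]),(7,[(1,.one [7])]),(8,[(1,.one [8])]),(9,[(1,.one [9])]),(10,[(1,.one [10])]),(11,[(1,.one [11])])]⟩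

theorem k12_11 : chk 12 11 c12_11 = true := by decide +kernel

theorem all12 : ∀ x < 12, x.Coprime 12 → Full 12 x := by
  intro x hx hc
  interval_cases x
  · exact absurd hc (by decide)
  · exact full_of_chk k12_1
  · exact absurd hc (by decide)
  · exact absurd hc (by decide)
  · exact absurd hc (by decide)
  · exact full_of_chk k12_5
  · exact absurd hc (by decide)
  · exact full_of_chk k12_7
  · exact absurd hc (by decide)
  · exact absurd hc (by decide)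
  · exact absurd hc (by decide)
  · exact full_of_chk k12_11

end Pool.Agent.N997.TF
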