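import Pool.Agent.N997.TF.Same

/-!
Degree 13: certificates.
-/

set_option maxRecDepth 100000

namespace Pool.Agent.N997.TF

def c13_1 : Cert :=
  ⟨[1],[1,2,3,4,5,6,7,8,9,10,11,12],[1,2,3,4,5,6],[[],[1,0,0,0,0,0],[0,1,0,0,0,0],[0,0,1,0,0,0],[0,0,0,1,0,0],[0,0,0,0,1,0],[0,0,0,0,0,1],[0,0,0,0,0,-1],[0,0,0,0,-1,0],[0,0,0,-1,0,0],[0,0,-1,0,0,0],[0,-1,0,0,0,0],[-1,0,0,0,0,0]],[],[1,2,3,4,5,6],[[-1,0,-1,-1,-1,0],[0,-1,0,1,1,1],[-1,0,1,1,0,-1],[-1,1,1,-1,0,0],[-1,1,0,0,1,-1],[0,1,-1,0,-1,1]],26,[(12,[(1,.two [1] [12])]),(11,[(1,.two [2] [11])]),(10,[(1,.two [3] [10])]),(9,[(1,.two [4] [9])]),(8,[(1,.two [5] [8])]),(7,[(1,.two [6] [7])])]⟩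

theorem k13_1 : chk 13 1 c13_1 = true := by decide +kernel

def c13_2 : Cert :=
  ⟨[1,2,4,8,3,6,12,11,9,5,10,7],[1,2,3,4,5,6,7,8,9,10,11,12],[],[[],[],[],[],[],[],[],[],[],[],[],[],[]],[1],[],[],1,[(2,[(1,.one [2])]),(3,[(1,.one [3])]),(4,[(1,.one [4])]),(5,[(1,.one [5])]),(6,[(1,.one [6])]),(7,[(1,.one [7])]),(8,[(1,.one [8])]),(9,[(1,.one [9])]),(10,[(1,.one [10])]),(11,[(1,.one [11])]),(12,[(1,.one [12])])]⟩

theorem k13_2 : chk 13 2 c13_2 = true := by decide +kernel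

def c13_3 : Cert :=
  ⟨[1,3,9],[1,2,3,4,5,6,7,8,9,10,11,12],[1,2],[[],[1,0],[0,1],[1,0],[-1,0],[0,1],[0,1],[0,-1],[0,-1],[1,0],[-1,0],[0,-1],[-1,0]],[],[1,2],[[-1,-1],[-1,1]],26,[(4,[(1,.two [1] [4])]),(10,[(1,.two [1] [10])]),(12,[(1,.two [1] [12])]),(3,[(1,.two [3] [4])]),(9,[(1,.two [9] [4])]),(7,[(1,.two [2] [7])]),(8,[(1,.two [2] [8])]),(11,[(1,.two [2] [11])]),(5,[(1,.two [5] [7])]),(6,[(1,.two [6] [7])])]⟩

theorem k13_3 : chk 13 3 c13_3 = true := by decide +kernel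

def c13_4 : Cert :=
  ⟨[1,4,3,12,9,10],[1,2,3,4,5,6,7,8,9,10,11,12],[],[[],[],[],[],[],[],[],[],[],[],[],[],[]],[1],[],[],1,[(2,[(1,.one [2])]),(3,[(1,.one [3])]),(4,[(1,.one [4])]),(5,[(1,.one [5])]),(6,[(1,.one [6])]),(7,[(1,.one [7])]),(8,[(1,.one [8])]),(9,[(1,.one [9])]),(10,[(1,.one [10])]),(11,[(1,.one [11])]),(12,[(1,.one [12])])]⟩

theorem k13_4 : chk 13 4 c13_4 = true := by decide +kernel

def c13_5 : Cert :=
  ⟨[1,5,12,8],[1,2,3,4,5,6,7,8,9,10,11,12],[],[[],[],[],[],[],[],[],[],[],[],[],[],[]],[1],[],[],1,[(2,[(1,.one [2])]),(3,[(1,.one [3])]),(4,[(1,.one [4])]),(5,[(1,.one [5])]),(6,[(1,.one [6])]),(7,[(1,.one [7])]),(8,[(1,.one [8])]),(9,[(1,.one [9])]),(10,[(1,.one [10])]),(11,[(1,.one [11])]),(12,[(1,.one [12])])]⟩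

theorem k13_5 : chk 13 5 c13_5 = true := by decide +kernel

def c13_12 : Cert :=
  ⟨[1,12],[1,2,3,4,5,6,7,8,9,10,11,12],[],[[],[],[],[],[],[],[],[],[],[],[],[],[]],[1],[],[],1,[(2,[(1,.one [2])]),(3,[(1,.one [3])]),(4,[(1,.one [4])]),(5,[(1,.one [5])]),(6,[(1,.one [6])]),(7,[(1,.one [7])]),(8,[(1,.one [8])]),(9,[(1,.one [9])]),(10,[(1,.one [10])]),(11,[(1,.one [11])]),(12,[(1,.one [12])])]⟩

theorem k13_12 : chk 13 12 c13_12 = true := by decide +kernel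

theorem all13 : ∀ x < 13, x.Coprime 13 → Full 13 x := by
  intro x hx hc
  interval_cases x
  · exact absurd hc (by decide)
  · exact full_of_chk k13_1
  · exact full_of_chk k13_2
  · exact full_of_chk k13_3
  · exact full_of_chk k13_4
  · exact full_of_chk k13_5
  · exact full_same 5 5 k13_2 (by decide) (by decide)
  · exact full_same 11 11 k13_2 (by decide) (by decide)
  · exact full_same 3 3 k13_5 (by decide) (by decide)
  · exact full_same 2 2 k13_3 (by decide) (by decide)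
  · exact full_same 5 5 k13_4 (by decide) (by decide)
  · exact full_same 7 7 k13_2 (by decide) (by decide)
  · exact full_of_chk k13_12

end Pool.Agent.N997.TF
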