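import Pool.Agent.N997.TF.Same

/-!
Degree 14: certificates.
-/

set_option maxRecDepth 100000

namespace Pool.Agent.N997.TF

def c14_1 : Cert :=
  ⟨[1],[1,3,5,9,11,13],[1,2,3],[[],[1,0,0],[0,1,0],[0,0,1],[-1,1,1],[1,0,-1],[1,-1,0],[0,0,0],[-1,1,0],[-1,0,1],[1,-1,-1],[0,0,-1],[0,-1,0],[-1,0,0]],[7],[1,3,5],[[0,-3,-1],[-2,2,2],[-1,2,-1]],28,[(13,[(1,.two [1] [13])]),(12,[(1,.two [2] [12])]),(11,[(1,.two [3] [11])]),(8,[(1,.dup 1)]),(4,[(1,.dup 4)]),(6,[(1,.dup 6)]),(9,[(1,.two [1,1,12] [8,9,11])]),(10,[(1,.two [1,3,10] [2,13,13])]),(5,[(1,.two [3,5,6] [2,13,13])])]⟩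

theorem k14_1 : chk 14 1 c14_1 = true := by decide +kernel

def c14_3 : Cert :=
  ⟨[1,3,9,13,11,5],[1,3,5,9,11,13],[],[[],[],[],[],[],[],[],[],[],[],[],[],[],[]],[1],[],[],1,[(2,[(1,.one [2])]),(3,[(1,.one [3])]),(4,[(1,.one [4])]),(5,[(1,.one [5])]),(6,[(1,.one [6])]),(7,[(1,.one [7])]),(8,[(1,.one [8])]),(9,[(1,.one [9])]),(10,[(1,.one [10])]),(11,[(1,.one [11])]),(12,[(1,.one [12])]),(13,[(1,.one [13])])]⟩

theorem k14_3 : chk 14 3 c14_3 = true := by decide +kernel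

def c14_9 : Cert :=
  ⟨[1,9,11],[1,3,5,9,11,13],[2],[[],[0],[1],[0],[1],[0],[-1],[0],[1],[0],[-1],[0],[-1],[0]],[1],[1],[[-1]],14,[(3,[(1,.one [3])]),(5,[(1,.one [5])]),(7,[(1,.one [7])]),(9,[(1,.one [9])]),(11,[(1,.one [11])]),(13,[(1,.one [13])]),(6,[(1,.two [2] [6])]),(10,[(1,.two [2] [10])]),(12,[(1,.two [2] [12])]),(4,[(1,.two [4] [6])]),(8,[(1,.two [8] [6])])]⟩

theorem k14_9 : chk 14 9 c14_9 = true := by decide +kernel

def c14_13 : Cert :=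
  ⟨[1,13],[1,3,5,9,11,13],[],[[],[],[],[],[],[],[],[],[],[],[],[],[],[]],[1],[],[],1,[(2,[(1,.one [2])]),(3,[(1,.one [3])]),(4,[(1,.one [4])]),(5,[(1,.one [5])]),(6,[(1,.one [6])]),(7,[(1,.one [7])]),(8,[(1,.one [8])]),(9,[(1,.one [9])]),(10,[(1,.one [10])]),(11,[(1,.one [11])]),(12,[(1,.one [12])]),(13,[(1,.one [13])])]⟩

theorem k14_13 : chk 14 13 c14_13 = true := by decide +kernel

theorem all14 : ∀ x < 14, x.Coprime 14 → Full 14 x := by
  intro x hx hc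
  interval_cases x
  · exact absurd hc (by decide)
  · exact full_of_chk k14_1
  · exact absurd hc (by decide)
  · exact full_of_chk k14_3
  · exact absurd hc (by decide)
  · exact full_same 5 5 k14_3 (by decide) (by decide)
  · exact absurd hc (by decide)
  · exact absurd hc (by decide)
  · exact absurd hc (by decide)
  · exact full_of_chk k14_9
  · exact absurd hc (by decide)
  · exact full_same 2 2 k14_9 (by decide) (by decide)
  · exact absurd hc (by decide)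
  · exact full_of_chk k14_13

end Pool.Agent.N997.TF
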