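import Pool.Agent.N997.TF.Same

/-!
Degree 15: certificates.
-/

set_option maxRecDepth 100000

namespace Pool.Agent.N997.TF

def c15_1 : Cert :=
  ⟨[1],[1,2,4,7,8,11,13,14],[1,2,3,4],[[],[1,0,0,0],[0,1,0,0],[0,0,1,0],[0,0,0,1],[0,-1,1,1],[-1,0,1,1],[-1,-1,2,1],[1,1,-2,-1],[1,0,-1,-1],[0,1,-1,-1],[0,0,0,-1],[0,0,-1,0],[0,-1,0,0],[-1,0,0,0]],[],[1,2,4,7],[[0,-2,-1,-1],[1,-2,1,2],[-3,3,1,-1],[-2,3,-1,0]],30,[(14,[(1,.two [1] [14])]),(13,[(1,.two [2] [13])]),(12,[(1,.two [3] [12])]),(11,[(1,.two [4] [11])]),(6,[(1,.hd 3 1)]),(7,[(1,.hd 3 2)]),(9,[(1,.hd 3 4)]),(10,[(1,.two [1,1,13] [6,10,14])]),(5,[(1,.two [1,5,9] [2,14,14])]),(8,[(1,.two [1,6,8] [6,11,13])])]⟩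

theorem k15_1 : chk 15 1 c15_1 = true := by decide +kernel

def c15_2 : Cert :=
  ⟨[1,2,4,8],[1,2,4,7,8,11,13,14],[1],[[],[1],[1],[0],[1],[0],[0],[-1],[1],[0],[0],[-1],[0],[-1],[-1]],[3],[1],[[-1]],30,[(5,[(1,.one [5])]),(6,[(1,.one [6])]),(9,[(1,.one [9])]),(10,[(1,.one [10])]),(12,[(1,.one [12])]),(7,[(1,.two [1] [7])]),(11,[(1,.two [1] [11])]),(13,[(1,.two [1] [13])]),(14,[(1,.two [1] [14])]),(2,[(1,.two [2] [7])]),(4,[(1,.two [4] [7])]),(8,[(1,.two [8] [7])])]⟩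

theorem k15_2 : chk 15 2 c15_2 = true := by decide +kernel

def c15_4 : Cert :=
  ⟨[1,4],[1,2,4,7,8,11,13,14],[1,2],[[],[1,0],[0,1],[0,0],[1,0],[1,-1],[0,0],[0,-1],[0,1],[0,0],[-1,1],[-1,0],[0,0],[0,-1],[-1,0]],[3],[1,2],[[-2,1],[1,-2]],30,[(6,[(1,.one [6])]),(9,[(1,.one [9])]),(12,[(1,.one [12])]),(11,[(1,.two [1] [11])]),(14,[(1,.two [1] [14])]),(4,[(1,.two [4] [11])]),(7,[(1,.two [2] [7])]),(13,[(1,.two [2] [13])]),(8,[(1,.two [8] [7])]),(10,[(1,.two [1,1,13] [6,10,14])]),(5,[(1,.two [1,5,9] [2,14,14])])]⟩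

theorem k15_4 : chk 15 4 c15_4 = true := by decide +kernel

def c15_7 : Cert :=
  ⟨[1,7,4,13],[1,2,4,7,8,11,13,14],[1],[[],[1],[-1],[0],[1],[2],[0],[1],[-1],[0],[-2],[-1],[0],[1],[-1]],[3],[1],[[-1]],10,[(6,[(1,.one [6])]),(9,[(1,.one [9])]),(12,[(1,.one [12])]),(2,[(1,.two [1] [2])]),(8,[(1,.two [1] [8])]),(11,[(1,.two [1] [11])]),(14,[(1,.two [1] [14])]),(4,[(1,.two [4] [2])]),(7,[(1,.two [7] [2])]),(13,[(1,.two [13] [2])]),(10,[(1,.one [1,4,10])]),(5,[(1,.one [2,5,8])])]⟩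

theorem k15_7 : chk 15 7 c15_7 = true := by decide +kernel

def c15_11 : Cert :=
  ⟨[1,11],[1,2,4,7,8,11,13,14],[1,2],[[],[1,0],[0,1],[1,1],[-1,0],[0,0],[-1,1],[0,1],[0,-1],[1,-1],[0,0],[1,0],[-1,-1],[0,-1],[-1,0]],[5],[1,2],[[-1,-2],[-2,1]],30,[(10,[(1,.one [10])]),(4,[(1,.two [1] [4])]),(14,[(1,.two [1] [14])]),(11,[(1,.two [11] [4])]),(8,[(1,.two [2] [8])]),(13,[(1,.two [2] [13])]),(7,[(1,.two [7] [8])]),(12,[(1,.one [1,2,12])]),(6,[(1,.one [1,6,8])]),(9,[(1,.one [2,4,9])]),(3,[(1,.one [3,4,8])])]⟩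

theorem k15_11 : chk 15 11 c15_11 = true := by decide +kernel

def c15_14 : Cert :=
  ⟨[1,14],[1,2,4,7,8,11,13,14],[],[[],[],[],[],[],[],[],[],[],[],[],[],[],[],[]],[1],[],[],1,[(2,[(1,.one [2])]),(3,[(1,.one [3])]),(4,[(1,.one [4])]),(5,[(1,.one [5])]),(6,[(1,.one [6])]),(7,[(1,.one [7])]),(8,[(1,.one [8])]),(9,[(1,.one [9])]),(10,[(1,.one [10])]),(11,[(1,.one [11])]),(12,[(1,.one [12])]),(13,[(1,.one [13])]),(14,[(1,.one [14])])]⟩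

theorem k15_14 : chk 15 14 c15_14 = true := by decide +kernel

theorem all15 : ∀ x < 15, x.Coprime 15 → Full 15 x := by
  intro x hx hc
  interval_cases x
  · exact absurd hc (by decide)
  · exact full_of_chk k15_1
  · exact full_of_chk k15_2
  · exact absurd hc (by decide)
  · exact full_of_chk k15_4
  · exact absurd hc (by decide)
  · exact absurd hc (by decide)
  · exact full_of_chk k15_7
  · exact full_same 3 3 k15_2 (by decide) (by decide)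
  · exact absurd hc (by decide)
  · exact absurd hc (by decide)
  · exact full_of_chk k15_11
  · exact absurd hc (by decide)
  · exact full_same 3 3 k15_7 (by decide) (by decide)
  · exact full_of_chk k15_14

end Pool.Agent.N997.TF
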