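import Pool.Agent.N997.TF.Same

/-!
Degree 16: certificates.
-/

set_option maxRecDepth 100000

namespace Pool.Agent.N997.TF

def c16_1 : Cert :=
  ⟨[1],[1,3,5,7,9,11,13,15],[1,2,3,4],[[],[1,0,0,0],[0,1,0,0],[0,0,1,0],[0,0,0,1],[0,-1,1,1],[0,1,0,-1],[1,-1,0,0],[0,0,0,0],[-1,1,0,0],[0,-1,0,1],[0,1,-1,-1],[0,0,0,-1],[0,0,-1,0],[0,-1,0,0],[-1,0,0,0]],[8],[1,3,5,7],[[-1,-1,-1,-1],[0,-1,1,2],[-1,1,1,-1],[-1,2,-1,0]],32,[(15,[(1,.two [1] [15])]),(14,[(1,.two [2] [14])]),(13,[(1,.two [3] [13])]),(12,[(1,.two [4] [12])]),(9,[(1,.dup 1)]),(10,[(1,.dup 2)]),(5,[(1,.dup 5)]),(6,[(1,.dup 6)]),(7,[(1,.dup 7)]),(11,[(1,.two [2,3,11] [4,14,14])])]⟩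

theorem k16_1 : chk 16 1 c16_1 = true := by decide +kernel

def c16_3 : Cert :=
  ⟨[1,3,9,11],[1,3,5,7,9,11,13,15],[1],[[],[1],[2],[1],[0],[-1],[2],[-1],[0],[1],[-2],[1],[0],[-1],[-2],[-1]],[4],[1],[[-1]],16,[(8,[(1,.one [8])]),(12,[(1,.one [12])]),(5,[(1,.two [1] [5])]),(7,[(1,.two [1] [7])]),(13,[(1,.two [1] [13])]),(15,[(1,.two [1] [15])]),(3,[(1,.two [3] [5])]),(9,[(1,.two [9] [5])]),(11,[(1,.two [11] [5])]),(14,[(1,.one [1,1,14])]),(2,[(1,.one [2,7,7])]),(10,[(1,.one [3,3,10])]),(6,[(1,.one [5,5,6])])]⟩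

theorem k16_3 : chk 16 3 c16_3 = true := by decide +kernel

def c16_5 : Cert :=
  ⟨[1,5,9,13],[1,3,5,7,9,11,13,15],[1],[[],[1],[2],[-1],[4],[1],[-2],[-1],[0],[1],[2],[-1],[-4],[1],[-2],[-1]],[8],[1],[[-1]],8,[(3,[(1,.two [1] [3])]),(7,[(1,.two [1] [7])]),(11,[(1,.two [1] [11])]),(15,[(1,.two [1] [15])]),(5,[(1,.two [5] [3])]),(9,[(1,.two [9] [3])]),(13,[(1,.two [13] [3])]),(14,[(1,.one [1,1,14])]),(2,[(1,.one [2,7,7])]),(10,[(1,.one [3,3,10])]),(4,[(1,.one [4,14,14])]),(6,[(1,.one [5,5,6])]),(12,[(1,.one [10,10,12])])]⟩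

theorem k16_5 : chk 16 5 c16_5 = true := by decide +kernel

def c16_7 : Cert :=
  ⟨[1,7],[1,3,5,7,9,11,13,15],[1,3],[[],[1,0],[0,0],[0,1],[0,0],[0,1],[0,0],[1,0],[0,0],[-1,0],[0,0],[0,-1],[0,0],[0,-1],[0,0],[-1,0]],[2],[1,3],[[-1,-1],[-1,1]],32,[(4,[(1,.one [4])]),(6,[(1,.one [6])]),(8,[(1,.one [8])]),(10,[(1,.one [10])]),(12,[(1,.one [12])]),(14,[(1,.one [14])]),(9,[(1,.two [1] [9])]),(15,[(1,.two [1] [15])]),(7,[(1,.two [7] [9])]),(11,[(1,.two [3] [11])]),(13,[(1,.two [3] [13])]),(5,[(1,.two [5] [11])])]⟩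

theorem k16_7 : chk 16 7 c16_7 = true := by decide +kernel

def c16_9 : Cert :=
  ⟨[1,9],[1,3,5,7,9,11,13,15],[1,3],[[],[1,0],[2,0],[0,1],[2,-2],[0,-1],[0,2],[-1,0],[0,0],[1,0],[0,-2],[0,1],[-2,2],[0,-1],[-2,0],[-1,0]],[8],[1,3],[[-3,1],[1,-3]],32,[(7,[(1,.two [1] [7])]),(15,[(1,.two [1] [15])]),(9,[(1,.two [9] [7])]),(5,[(1,.two [3] [5])]),(13,[(1,.two [3] [13])]),(11,[(1,.two [11] [5])]),(14,[(1,.one [1,1,14])]),(2,[(1,.one [2,7,7])]),(10,[(1,.one [3,3,10])]),(6,[(1,.one [5,5,6])]),(4,[(1,.dup 2)]),(12,[(1,.dup 6)])]⟩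

theorem k16_9 : chk 16 9 c16_9 = true := by decide +kernel

def c16_15 : Cert :=
  ⟨[1,15],[1,3,5,7,9,11,13,15],[],[[],[],[],[],[],[],[],[],[],[],[],[],[],[],[],[]],[1],[],[],1,[(2,[(1,.one [2])]),(3,[(1,.one [3])]),(4,[(1,.one [4])]),(5,[(1,.one [5])]),(6,[(1,.one [6])]),(7,[(1,.one [7])]),(8,[(1,.one [8])]),(9,[(1,.one [9])]),(10,[(1,.one [10])]),(11,[(1,.one [11])]),(12,[(1,.one [12])]),(13,[(1,.one [13])]),(14,[(1,.one [14])]),(15,[(1,.one [15])])]⟩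

theorem k16_15 : chk 16 15 c16_15 = true := by decide +kernel

theorem all16 : ∀ x < 16, x.Coprime 16 → Full 16 x := by
  intro x hx hc
  interval_cases x
  · exact absurd hc (by decide)
  · exact full_of_chk k16_1
  · exact absurd hc (by decide)
  · exact full_of_chk k16_3
  · exact absurd hc (by decide)
  · exact full_of_chk k16_5
  · exact absurd hc (by decide)
  · exact full_of_chk k16_7
  · exact absurd hc (by decide)
  · exact full_of_chk k16_9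
  · exact absurd hc (by decide)
  · exact full_same 3 3 k16_3 (by decide) (by decide)
  · exact absurd hc (by decide)
  · exact full_same 3 3 k16_5 (by decide) (by decide)
  · exact absurd hc (by decide)
  · exact full_of_chk k16_15

end Pool.Agent.N997.TF
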