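import Pool.Agent.N997.TF.Same

/-!
Degree 17: certificates.
-/

set_option maxRecDepth 100000

namespace Pool.Agent.N997.TF

def c17_1 : Cert :=
  ⟨[1],[1,2,3,4,5,6,7,8,9,10,11,12,13,14,15,16],[1,2,3,4,5,6,7,8],[[],[1,0,0,0,0,0,0,0],[0,1,0,0,0,0,0,0],[0,0,1,0,0,0,0,0],[0,0,0,1,0,0,0,0],[0,0,0,0,1,0,0,0],[0,0,0,0,0,1,0,0],[0,0,0,0,0,0,1,0],[0,0,0,0,0,0,0,1],[0,0,0,0,0,0,0,-1],[0,0,0,0,0,0,-1,0],[0,0,0,0,0,-1,0,0],[0,0,0,0,-1,0,0,0],[0,0,0,-1,0,0,0,0],[0,0,-1,0,0,0,0,0],[0,-1,0,0,0,0,0,0],[-1,0,0,0,0,0,0,0]],[],[1,2,3,4,5,6,7,8],[[0,-1,-1,0,-1,0,-1,0],[-1,0,0,0,1,1,1,0],[-1,0,0,1,1,0,0,-1],[0,0,1,0,-1,-1,0,1],[-1,1,1,-1,0,0,0,0],[0,1,0,-1,0,-1,0,1],[-1,1,0,0,0,0,1,-1],[0,0,-1,1,0,1,-1,0]],34,[(16,[(1,.two [1] [16])]),(15,[(1,.two [2] [15])]),(14,[(1,.two [3] [14])]),(13,[(1,.two [4] [13])]),(12,[(1,.two [5] [12])]),(11,[(1,.two [6] [11])]),(10,[(1,.two [7] [10])]),(9,[(1,.two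 [8] [9])])]⟩

theorem k17_1 : chk 17 1 c17_1 = true := by decide +kernel

def c17_2 : Cert :=
  ⟨[1,2,4,8,16,15,13,9],[1,2,3,4,5,6,7,8,9,10,11,12,13,14,15,16],[],[[],[],[],[],[],[],[],[],[],[],[],[],[],[],[],[],[]],[1],[],[],1,[(2,[(1,.one [2])]),(3,[(1,.one [3])]),(4,[(1,.one [4])]),(5,[(1,.one [5])]),(6,[(1,.one [6])]),(7,[(1,.one [7])]),(8,[(1,.one [8])]),(9,[(1,.one [9])]),(10,[(1,.one [10])]),(11,[(1,.one [11])]),(12,[(1,.one [12])]),(13,[(1,.one [13])]),(14,[(1,.one [14])]),(15,[(1,.one [15])]),(16,[(1,.one [16])])]⟩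

theorem k17_2 : chk 17 2 c17_2 = true := by decide +kernel

def c17_3 : Cert :=
  ⟨[1,3,9,10,13,5,15,11,16,14,8,7,4,12,2,6],[1,2,3,4,5,6,7,8,9,10,11,12,13,14,15,16],[],[[],[],[],[],[],[],[],[],[],[],[],[],[],[],[],[],[]],[1],[],[],1,[(2,[(1,.one [2])]),(3,[(1,.one [3])]),(4,[(1,.one [4])]),(5,[(1,.one [5])]),(6,[(1,.one [6])]),(7,[(1,.one [7])]),(8,[(1,.one [8])]),(9,[(1,.one [9])]),(10,[(1,.one [10])]),(11,[(1,.one [11])]),(12,[(1,.one [12])]),(13,[(1,.one [13])]),(14,[(1,.one [14])]),(15,[(1,.one [15])]),(16,[(1,.one [16])])]⟩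

theorem k17_3 : chk 17 3 c17_3 = true := by decide +kernel

def c17_4 : Cert :=
  ⟨[1,4,16,13],[1,2,3,4,5,6,7,8,9,10,11,12,13,14,15,16],[],[[],[],[],[],[],[],[],[],[],[],[],[],[],[],[],[],[]],[1],[],[],1,[(2,[(1,.one [2])]),(3,[(1,.one [3])]),(4,[(1,.one [4])]),(5,[(1,.one [5])]),(6,[(1,.one [6])]),(7,[(1,.one [7])]),(8,[(1,.one [8])]),(9,[(1,.one [9])]),(10,[(1,.one [10])]),(11,[(1,.one [11])]),(12,[(1,.one [12])]),(13,[(1,.one [13])]),(14,[(1,.one [14])]),(15,[(1,.one [15])]),(16,[(1,.one [16])])]⟩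

theorem k17_4 : chk 17 4 c17_4 = true := by decide +kernel

def c17_16 : Cert :=
  ⟨[1,16],[1,2,3,4,5,6,7,8,9,10,11,12,13,14,15,16],[],[[],[],[],[],[],[],[],[],[],[],[],[],[],[],[],[],[]],[1],[],[],1,[(2,[(1,.one [2])]),(3,[(1,.one [3])]),(4,[(1,.one [4])]),(5,[(1,.one [5])]),(6,[(1,.one [6])]),(7,[(1,.one [7])]),(8,[(1,.one [8])]),(9,[(1,.one [9])]),(10,[(1,.one [10])]),(11,[(1,.one [11])]),(12,[(1,.one [12])]),(13,[(1,.one [13])]),(14,[(1,.one [14])]),(15,[(1,.one [15])]),(16,[(1,.one [16])])]⟩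

theorem k17_16 : chk 17 16 c17_16 = true := by decide +kernel

theorem all17 : ∀ x < 17, x.Coprime 17 → Full 17 x := by
  intro x hx hc
  interval_cases x
  · exact absurd hc (by decide)
  · exact full_of_chk k17_1
  · exact full_of_chk k17_2
  · exact full_of_chk k17_3
  · exact full_of_chk k17_4
  · exact full_same 5 13 k17_3 (by decide) (by decide)
  · exact full_same 15 15 k17_3 (by decide) (by decide)
  · exact full_same 11 3 k17_3 (by decide) (by decide)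
  · exact full_same 3 3 k17_2 (by decide) (by decide)
  · exact full_same 7 7 k17_2 (by decide) (by decide)
  · exact full_same 3 11 k17_3 (by decide) (by decide)
  · exact full_same 7 7 k17_3 (by decide) (by decide)
  · exact full_same 13 5 k17_3 (by decide) (by decide)
  · exact full_same 3 3 k17_4 (by decide) (by decide)
  · exact full_same 9 9 k17_3 (by decide) (by decide)
  · exact full_same 5 5 k17_2 (by decide) (by decide)
  · exact full_of_chk k17_16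

end Pool.Agent.N997.TF
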