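import Pool.Agent.N997.TF.Same

/-!
Degree 18: certificates.
-/

set_option maxRecDepth 100000

namespace Pool.Agent.N997.TF

def c18_1 : Cert :=
  ⟨[1],[1,5,7,11,13,17],[1,2,4],[[],[1,0,0],[0,1,0],[2,0,-2],[0,0,1],[-1,1,1],[1,0,-1],[0,1,-1],[1,-1,0],[0,0,0],[-1,1,0],[0,-1,1],[-1,0,1],[1,-1,-1],[0,0,-1],[-2,0,2],[0,-1,0],[-1,0,0]],[9],[1,5,7],[[-2,1,-3],[-1,1,2],[1,-3,2]],36,[(17,[(1,.two [1] [17])]),(16,[(1,.two [2] [16])]),(14,[(1,.two [4] [14])]),(10,[(1,.dup 1)]),(11,[(1,.dup 2)]),(5,[(1,.dup 5)]),(7,[(1,.dup 7)]),(8,[(1,.dup 8)]),(6,[(1,.hd 3 2)]),(12,[(1,.hd 3 4)]),(15,[(1,.hd 3 5)]),(13,[(1,.two [1,4,13] [2,17,17])]),(3,[(1,.two [3,4,11] [2,17,17])])]⟩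

theorem k18_1 : chk 18 1 c18_1 = true := by decide +kernel

def c18_5 : Cert :=
  ⟨[1,5,7,17,13,11],[1,5,7,11,13,17],[],[[],[],[],[],[],[],[],[],[],[],[],[],[],[],[],[],[],[]],[1],[],[],1,[(2,[(1,.one [2])]),(3,[(1,.one [3])]),(4,[(1,.one [4])]),(5,[(1,.one [5])]),(6,[(1,.one [6])]),(7,[(1,.one [7])]),(8,[(1,.one [8])]),(9,[(1,.one [9])]),(10,[(1,.one [10])]),(11,[(1,.one [11])]),(12,[(1,.one [12])]),(13,[(1,.one [13])]),(14,[(1,.one [14])]),(15,[(1,.one [15])]),(16,[(1,.one [16])]),(17,[(1,.one [17])])]⟩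

theorem k18_5 : chk 18 5 c18_5 = true := by decide +kernel

def c18_7 : Cert :=
  ⟨[1,7,13],[1,5,7,11,13,17],[2],[[],[2],[1],[6],[-1],[-2],[3],[2],[1],[0],[-1],[-2],[-3],[2],[1],[-6],[-1],[-2]],[9],[1],[[-1]],6,[(4,[(1,.two [2] [4])]),(10,[(1,.two [2] [10])]),(16,[(1,.two [2] [16])]),(8,[(1,.two [8] [4])]),(14,[(1,.two [14] [4])]),(6,[(1,.two [6] [4,4,10])]),(12,[(1,.two [2,2,14] [12])]),(5,[(1,.two [6] [4,5,9])]),(17,[(1,.two [6] [5,14,17])]),(7,[(1,.two [6] [7,12,17])]),(15,[(1,.two [6] [7,14,15])]),(11,[(1,.two [6] [8,11,17])]),(13,[(1,.two [6] [8,13,15])]),(1,[(1,.two [1,4,13] [12])]),(3,[(1,.two [3,4,11] [12])])]⟩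

theorem k18_7 : chk 18 7 c18_7 = true := by decide +kernel

def c18_17 : Cert :=
  ⟨[1,17],[1,5,7,11,13,17],[],[[],[],[],[],[],[],[],[],[],[],[],[],[],[],[],[],[],[]],[1],[],[],1,[(2,[(1,.one [2])]),(3,[(1,.one [3])]),(4,[(1,.one [4])]),(5,[(1,.one [5])]),(6,[(1,.one [6])]),(7,[(1,.one [7])]),(8,[(1,.one [8])]),(9,[(1,.one [9])]),(10,[(1,.one [10])]),(11,[(1,.one [11])]),(12,[(1,.one [12])]),(13,[(1,.one [13])]),(14,[(1,.one [14])]),(15,[(1,.one [15])]),(16,[(1,.one [16])]),(17,[(1,.one [17])])]⟩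

theorem k18_17 : chk 18 17 c18_17 = true := by decide +kernel

theorem all18 : ∀ x < 18, x.Coprime 18 → Full 18 x := by
  intro x hx hc
  interval_cases x
  · exact absurd hc (by decide)
  · exact full_of_chk k18_1
  · exact absurd hc (by decide)
  · exact absurd hc (by decide)
  · exact absurd hc (by decide)
  · exact full_of_chk k18_5
  · exact absurd hc (by decide)
  · exact full_of_chk k18_7
  · exact absurd hc (by decide)
  · exact absurd hc (by decide)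
  · exact absurd hc (by decide)
  · exact full_same 5 5 k18_5 (by decide) (by decide)
  · exact absurd hc (by decide)
  · exact full_same 2 2 k18_7 (by decide) (by decide)
  · exact absurd hc (by decide)
  · exact absurd hc (by decide)
  · exact absurd hc (by decide)
  · exact full_of_chk k18_17

end Pool.Agent.N997.TF
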