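import Pool.Agent.N997.TF.Same

/-!
Degree 20: certificates.
-/

set_option maxRecDepth 100000

namespace Pool.Agent.N997.TF

def c20_1 : Cert :=
  ⟨[1],[1,3,7,9,11,13,17,19],[1,2,3,5],[[],[1,0,0,0],[0,1,0,0],[0,0,1,0],[-1,1,1,0],[0,0,0,1],[-2,1,2,0],[2,-1,-1,0],[1,0,-1,0],[1,-1,0,0],[0,0,0,0],[-1,1,0,0],[-1,0,1,0],[-2,1,1,0],[2,-1,-2,0],[0,0,0,-1],[1,-1,-1,0],[0,0,-1,0],[0,-1,0,0],[-1,0,0,0]],[10],[1,3,7,9],[[0,-3,1,-2],[-1,1,0,2],[-1,2,-2,1],[-1,1,1,-1]],40,[(19,[(1,.two [1] [19])]),(18,[(1,.two [2] [18])]),(17,[(1,.two [3] [17])]),(15,[(1,.two [5] [15])]),(6,[(1,.two [1,1,18] [6,17,17])]),(14,[(1,.two [3,3,14] [2,19,19])]),(11,[(1,.dup 1)]),(13,[(1,.dup 3)]),(7,[(1,.dup 7)]),(9,[(1,.dup 9)]),(4,[(1,.two [1,1,18] [4,17,19])]),(8,[(1,.two [1,1,18] [8,13,19])]),(12,[(1,.two [1,1,18] [11,12,17])]),(16,[(1,.two [1,1,18] [11,13,16])])]⟩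

theorem k20_1 : chk 20 1 c20_1 = true := by decide +kernel

def c20_3 : Cert :=
  ⟨[1,3,9,7],[1,3,7,9,11,13,17,19],[1],[[],[1],[0],[1],[0],[0],[0],[1],[0],[1],[0],[-1],[0],[-1],[0],[0],[0],[-1],[0],[-1]],[2],[1],[[-1]],40,[(4,[(1,.one [4])]),(5,[(1,.one [5])]),(6,[(1,.one [6])]),(8,[(1,.one [8])]),(10,[(1,.one [10])]),(12,[(1,.one [12])]),(14,[(1,.one [14])]),(15,[(1,.one [15])]),(16,[(1,.one [16])]),(18,[(1,.one [18])]),(11,[(1,.two [1] [11])]),(13,[(1,.two [1] [13])]),(17,[(1,.two [1] [17])]),(19,[(1,.two [1] [19])]),(3,[(1,.two [3] [11])]),(7,[(1,.two [7] [11])]),(9,[(1,.two [9] [11])])]⟩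

theorem k20_3 : chk 20 3 c20_3 = true := by decide +kernel

def c20_9 : Cert :=
  ⟨[1,9],[1,3,7,9,11,13,17,19],[1,5],[[],[1,0],[0,0],[1,0],[0,0],[0,1],[0,0],[1,0],[0,0],[1,0],[0,0],[-1,0],[0,0],[-1,0],[0,0],[0,-1],[0,0],[-1,0],[0,0],[-1,0]],[2],[1,3],[[-1,-1],[-1,1]],40,[(4,[(1,.one [4])]),(6,[(1,.one [6])]),(8,[(1,.one [8])]),(10,[(1,.one [10])]),(12,[(1,.one [12])]),(14,[(1,.one [14])]),(16,[(1,.one [16])]),(18,[(1,.one [18])]),(11,[(1,.two [1] [11])]),(13,[(1,.two [1] [13])]),(17,[(1,.two [1] [17])]),(19,[(1,.two [1] [19])]),(3,[(1,.two [3] [11])]),(7,[(1,.two [7] [11])]),(9,[(1,.two [9] [11])]),(15,[(1,.two [5] [15])])]⟩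

theorem k20_9 : chk 20 9 c20_9 = true := by decide +kernel

def c20_11 : Cert :=
  ⟨[1,11],[1,3,7,9,11,13,17,19],[1,3],[[],[1,0],[2,0],[0,1],[1,1],[0,0],[0,2],[0,-1],[1,-1],[-1,0],[0,0],[1,0],[-1,1],[0,1],[0,-2],[0,0],[-1,-1],[0,-1],[-2,0],[-1,0]],[5],[1,3],[[-2,-1],[-1,2]],40,[(10,[(1,.one [10])]),(15,[(1,.one [15])]),(9,[(1,.two [1] [9])]),(19,[(1,.two [1] [19])]),(11,[(1,.two [11] [9])]),(7,[(1,.two [3] [7])]),(17,[(1,.two [3] [17])]),(13,[(1,.two [13] [7])]),(18,[(1,.one [1,1,18])]),(2,[(1,.one [2,9,9])]),(14,[(1,.one [3,3,14])]),(6,[(1,.one [6,7,7])]),(16,[(1,.one [1,3,16])]),(12,[(1,.one [1,7,12])]),(8,[(1,.one [3,8,9])]),(4,[(1,.one [4,7,9])])]⟩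

theorem k20_11 : chk 20 11 c20_11 = true := by decide +kernel

def c20_13 : Cert :=
  ⟨[1,13,9,17],[1,3,7,9,11,13,17,19],[5],[[],[0],[0],[0],[0],[1],[0],[0],[0],[0],[0],[0],[0],[0],[0],[-1],[0],[0],[0],[0]],[1],[1],[[-1]],40,[(2,[(1,.one [2])]),(3,[(1,.one [3])]),(4,[(1,.one [4])]),(6,[(1,.one [6])]),(7,[(1,.one [7])]),(8,[(1,.one [8])]),(9,[(1,.one [9])]),(10,[(1,.one [10])]),(11,[(1,.one [11])]),(12,[(1,.one [12])]),(13,[(1,.one [13])]),(14,[(1,.one [14])]),(16,[(1,.one [16])]),(17,[(1,.one [17])]),(18,[(1,.one [18])]),(19,[(1,.one [19])]),(15,[(1,.two [5] [15])])]⟩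

theorem k20_13 : chk 20 13 c20_13 = true := by decide +kernel

def c20_19 : Cert :=
  ⟨[1,19],[1,3,7,9,11,13,17,19],[],[[],[],[],[],[],[],[],[],[],[],[],[],[],[],[],[],[],[],[],[]],[1],[],[],1,[(2,[(1,.one [2])]),(3,[(1,.one [3])]),(4,[(1,.one [4])]),(5,[(1,.one [5])]),(6,[(1,.one [6])]),(7,[(1,.one [7])]),(8,[(1,.one [8])]),(9,[(1,.one [9])]),(10,[(1,.one [10])]),(11,[(1,.one [11])]),(12,[(1,.one [12])]),(13,[(1,.one [13])]),(14,[(1,.one [14])]),(15,[(1,.one [15])]),(16,[(1,.one [16])]),(17,[(1,.one [17])]),(18,[(1,.one [18])]),(19,[(1,.one [19])])]⟩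

theorem k20_19 : chk 20 19 c20_19 = true := by decide +kernel

theorem all20 : ∀ x < 20, x.Coprime 20 → Full 20 x := by
  intro x hx hc
  interval_cases x
  · exact absurd hc (by decide)
  · exact full_of_chk k20_1
  · exact absurd hc (by decide)
  · exact full_of_chk k20_3
  · exact absurd hc (by decide)
  · exact absurd hc (by decide)
  · exact absurd hc (by decide)
  · exact full_same 3 3 k20_3 (by decide) (by decide)
  · exact absurd hc (by decide)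
  · exact full_of_chk k20_9
  · exact absurd hc (by decide)
  · exact full_of_chk k20_11
  · exact absurd hc (by decide)
  · exact full_of_chk k20_13
  · exact absurd hc (by decide)
  · exact absurd hc (by decide)
  · exact absurd hc (by decide)
  · exact full_same 3 3 k20_13 (by decide) (by decide)
  · exact absurd hc (by decide)
  · exact full_of_chk k20_19

end Pool.Agent.N997.TF
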