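import Pool.Agent.N997.TF.Same

/-!
Degree 21: certificates.
-/

set_option maxRecDepth 100000

namespace Pool.Agent.N997.TF

def c21_1 : Cert :=
  ⟨[1],[1,2,4,5,8,10,11,13,16,17,19,20],[1,2,3,5,6,7],[[],[1,0,0,0,0,0],[0,1,0,0,0,0],[0,0,1,0,0,0],[-1,1,1,0,0,0],[0,0,0,1,0,0],[0,0,0,0,1,0],[0,0,0,0,0,1],[-1,0,1,0,1,0],[0,-1,0,1,1,0],[-1,0,0,1,1,0],[1,0,0,-1,-1,0],[0,1,0,-1,-1,0],[1,0,-1,0,-1,0],[0,0,0,0,0,-1],[0,0,0,0,-1,0],[0,0,0,-1,0,0],[1,-1,-1,0,0,0],[0,0,-1,0,0,0],[0,-1,0,0,0,0],[-1,0,0,0,0,0]],[],[1,2,4,5,8,10],[[0,-1,-1,-1,0,-1],[0,-1,0,1,1,1],[-1,0,1,1,-1,0],[-1,1,1,-1,0,0],[-1,2,0,-1,-1,1],[-1,1,-1,1,1,-1]],42,[(20,[(1,.two [1] [20])]),(19,[(1,.two [2] [19])]),(18,[(1,.two [3] [18])]),(16,[(1,.two [5] [16])]),(15,[(1,.two [6] [15])]),(14,[(1,.two [7] [14])]),(8,[(1,.hd 3 1)]),(9,[(1,.hd 3 2)]),(12,[(1,.hd 3 5)]),(13,[(1,.hd 3 6)]),(4,[(1,.two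 [1,1,19] [4,18,20])]),(10,[(1,.two [1,1,19] [10,12,20])]),(17,[(1,.two [1,3,17] [2,20,20])]),(11,[(1,.two [1,9,11] [2,20,20])])]⟩

theorem k21_1 : chk 21 1 c21_1 = true := by decide +kernel

def c21_2 : Cert :=
  ⟨[1,2,4,8,16,11],[1,2,4,5,8,10,11,13,16,17,19,20],[1],[[],[1],[1],[1],[1],[-1],[1],[0],[1],[-1],[-1],[1],[1],[-1],[0],[-1],[1],[-1],[-1],[-1],[-1]],[7],[1],[[-1]],42,[(14,[(1,.one [14])]),(5,[(1,.two [1] [5])]),(9,[(1,.two [1] [9])]),(10,[(1,.two [1] [10])]),(13,[(1,.two [1] [13])]),(15,[(1,.two [1] [15])]),(17,[(1,.two [1] [17])]),(18,[(1,.two [1] [18])]),(19,[(1,.two [1] [19])]),(20,[(1,.two [1] [20])]),(2,[(1,.two [2] [5])]),(3,[(1,.two [3] [5])]),(4,[(1,.two [4] [5])]),(6,[(1,.two [6] [5])]),(8,[(1,.two [8] [5])]),(11,[(1,.two [11] [5])]),(12,[(1,.two [12] [5])]),(16,[(1,.two [16] [5])])]⟩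

theorem k21_2 : chk 21 2 c21_2 = true := by decide +kernel

def c21_4 : Cert :=
  ⟨[1,4,16],[1,2,4,5,8,10,11,13,16,17,19,20],[1,7],[[],[1,0],[1,0],[1,0],[1,0],[-1,0],[1,0],[0,1],[1,0],[-1,0],[-1,0],[1,0],[1,0],[-1,0],[0,-1],[-1,0],[1,0],[-1,0],[-1,0],[-1,0],[-1,0]],[],[1,2],[[-1,-1],[-1,1]],42,[(5,[(1,.two [1] [5])]),(9,[(1,.two [1] [9])]),(10,[(1,.two [1] [10])]),(13,[(1,.two [1] [13])]),(15,[(1,.two [1] [15])]),(17,[(1,.two [1] [17])]),(18,[(1,.two [1] [18])]),(19,[(1,.two [1] [19])]),(20,[(1,.two [1] [20])]),(2,[(1,.two [2] [5])]),(3,[(1,.two [3] [5])]),(4,[(1,.two [4] [5])]),(6,[(1,.two [6] [5])]),(8,[(1,.two [8] [5])]),(11,[(1,.two [11] [5])]),(12,[(1,.two [12] [5])]),(16,[(1,.two [16] [5])]),(14,[(1,.two [7] [14])])]⟩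

theorem k21_4 : chk 21 4 c21_4 = true := by decide +kernel

def c21_5 : Cert :=
  ⟨[1,5,4,20,16,17],[1,2,4,5,8,10,11,13,16,17,19,20],[],[[],[],[],[],[],[],[],[],[],[],[],[],[],[],[],[],[],[],[],[],[]],[1],[],[],1,[(2,[(1,.one [2])]),(3,[(1,.one [3])]),(4,[(1,.one [4])]),(5,[(1,.one [5])]),(6,[(1,.one [6])]),(7,[(1,.one [7])]),(8,[(1,.one [8])]),(9,[(1,.one [9])]),(10,[(1,.one [10])]),(11,[(1,.one [11])]),(12,[(1,.one [12])]),(13,[(1,.one [13])]),(14,[(1,.one [14])]),(15,[(1,.one [15])]),(16,[(1,.one [16])]),(17,[(1,.one [17])]),(18,[(1,.one [18])]),(19,[(1,.one [19])]),(20,[(1,.one [20])])]⟩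

theorem k21_5 : chk 21 5 c21_5 = true := by decide +kernel

def c21_8 : Cert :=
  ⟨[1,8],[1,2,4,5,8,10,11,13,16,17,19,20],[1,2,3],[[],[1,0,0],[0,1,0],[0,0,1],[-1,1,1],[0,-1,0],[2,0,-1],[0,0,0],[1,0,0],[2,-2,-1],[1,-1,-1],[-1,1,1],[-2,2,1],[-1,0,0],[0,0,0],[-2,0,1],[0,1,0],[1,-1,-1],[0,0,-1],[0,-1,0],[-1,0,0]],[7],[1,2,4],[[-2,3,-1],[1,-2,-1],[0,-2,1]],42,[(14,[(1,.one [14])]),(13,[(1,.two [1] [13])]),(20,[(1,.two [1] [20])]),(8,[(1,.two [8] [13])]),(5,[(1,.two [2] [5])]),(19,[(1,.two [2] [19])]),(16,[(1,.two [16] [5])]),(18,[(1,.two [3] [18])]),(15,[(1,.hd 3 1)]),(12,[(1,.hd 3 5)]),(6,[(1,.hd 3 6)]),(4,[(1,.two [1,1,19] [4,18,20])]),(10,[(1,.two [1,1,19] [10,12,20])]),(11,[(1,.two [1,1,19] [11,13,18])]),(17,[(1,.two [1,1,19] [12,13,17])]),(9,[(1,.two [1,9,11] [2,20,20])])]⟩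

theorem k21_8 : chk 21 8 c21_8 = true := by decide +kernel

def c21_10 : Cert :=
  ⟨[1,10,16,13,4,19],[1,2,4,5,8,10,11,13,16,17,19,20],[7],[[],[0],[0],[0],[0],[0],[0],[1],[0],[0],[0],[0],[0],[0],[-1],[0],[0],[0],[0],[0],[0]],[1],[1],[[-1]],42,[(2,[(1,.one [2])]),(3,[(1,.one [3])]),(4,[(1,.one [4])]),(5,[(1,.one [5])]),(6,[(1,.one [6])]),(8,[(1,.one [8])]),(9,[(1,.one [9])]),(10,[(1,.one [10])]),(11,[(1,.one [11])]),(12,[(1,.one [12])]),(13,[(1,.one [13])]),(15,[(1,.one [15])]),(16,[(1,.one [16])]),(17,[(1,.one [17])]),(18,[(1,.one [18])]),(19,[(1,.one [19])]),(20,[(1,.one [20])]),(14,[(1,.two [7] [14])])]⟩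

theorem k21_10 : chk 21 10 c21_10 = true := by decide +kernel

def c21_13 : Cert :=
  ⟨[1,13],[1,2,4,5,8,10,11,13,16,17,19,20],[1,2,7],[[],[1,0,0],[0,1,0],[0,0,0],[-1,1,0],[0,1,0],[0,0,0],[0,0,1],[-1,0,0],[0,0,0],[-1,1,0],[1,-1,0],[0,0,0],[1,0,0],[0,0,-1],[0,0,0],[0,-1,0],[1,-1,0],[0,0,0],[0,-1,0],[-1,0,0]],[3],[1,2,4],[[0,-1,-1],[-1,0,1],[-1,1,-1]],42,[(6,[(1,.one [6])]),(9,[(1,.one [9])]),(12,[(1,.one [12])]),(15,[(1,.one [15])]),(18,[(1,.one [18])]),(8,[(1,.two [1] [8])]),(20,[(1,.two [1] [20])]),(13,[(1,.two [13] [8])]),(16,[(1,.two [2] [16])]),(19,[(1,.two [2] [19])]),(5,[(1,.two [5] [16])]),(14,[(1,.two [7] [14])]),(4,[(1,.one [1,4,16])]),(11,[(1,.one [2,8,11])]),(17,[(1,.one [5,17,20])]),(10,[(1,.one [10,13,19])])]⟩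

theorem k21_13 : chk 21 13 c21_13 = true := by decide +kernel

def c21_20 : Cert :=
  ⟨[1,20],[1,2,4,5,8,10,11,13,16,17,19,20],[],[[],[],[],[],[],[],[],[],[],[],[],[],[],[],[],[],[],[],[],[],[]],[1],[],[],1,[(2,[(1,.one [2])]),(3,[(1,.one [3])]),(4,[(1,.one [4])]),(5,[(1,.one [5])]),(6,[(1,.one [6])]),(7,[(1,.one [7])]),(8,[(1,.one [8])]),(9,[(1,.one [9])]),(10,[(1,.one [10])]),(11,[(1,.one [11])]),(12,[(1,.one [12])]),(13,[(1,.one [13])]),(14,[(1,.one [14])]),(15,[(1,.one [15])]),(16,[(1,.one [16])]),(17,[(1,.one [17])]),(18,[(1,.one [18])]),(19,[(1,.one [19])]),(20,[(1,.one [20])])]⟩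

theorem k21_20 : chk 21 20 c21_20 = true := by decide +kernel

theorem all21 : ∀ x < 21, x.Coprime 21 → Full 21 x := by
  intro x hx hc
  interval_cases x
  · exact absurd hc (by decide)
  · exact full_of_chk k21_1
  · exact full_of_chk k21_2
  · exact absurd hc (by decide)
  · exact full_of_chk k21_4
  · exact full_of_chk k21_5
  · exact absurd hc (by decide)
  · exact absurd hc (by decide)
  · exact full_of_chk k21_8
  · exact absurd hc (by decide)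
  · exact full_of_chk k21_10
  · exact full_same 5 5 k21_2 (by decide) (by decide)
  · exact absurd hc (by decide)
  · exact full_of_chk k21_13
  · exact absurd hc (by decide)
  · exact absurd hc (by decide)
  · exact full_same 2 2 k21_4 (by decide) (by decide)
  · exact full_same 5 5 k21_5 (by decide) (by decide)
  · exact absurd hc (by decide)
  · exact full_same 5 5 k21_10 (by decide) (by decide)
  · exact full_of_chk k21_20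

end Pool.Agent.N997.TF
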