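import Pool.Agent.N997.TF.Same

/-!
Degree 22: certificates.
-/

set_option maxRecDepth 100000

namespace Pool.Agent.N997.TF

def c22_1 : Cert :=
  ⟨[1],[1,3,5,7,9,13,15,17,19,21],[1,2,3,4,5],[[],[1,0,0,0,0],[0,1,0,0,0],[0,0,1,0,0],[0,0,0,1,0],[0,0,0,0,1],[-1,1,0,0,1],[-1,1,-1,1,1],[1,-1,1,0,-1],[0,1,0,-1,0],[1,-1,0,0,0],[0,0,0,0,0],[-1,1,0,0,0],[0,-1,0,1,0],[-1,1,-1,0,1],[1,-1,1,-1,-1],[1,-1,0,0,-1],[0,0,0,0,-1],[0,0,0,-1,0],[0,0,-1,0,0],[0,-1,0,0,0],[-1,0,0,0,0]],[11],[1,3,5,7,9],[[0,-2,0,-1,-1],[-1,1,-1,1,2],[0,-1,1,1,-1],[-1,1,1,-1,0],[-1,2,-1,0,0]],44,[(21,[(1,.two [1] [21])]),(20,[(1,.two [2] [20])]),(19,[(1,.two [3] [19])]),(18,[(1,.two [4] [18])]),(17,[(1,.two [5] [17])]),(12,[(1,.dup 1)]),(13,[(1,.dup 2)]),(6,[(1,.dup 6)]),(9,[(1,.dup 9)]),(10,[(1,.dup 10)]),(16,[(1,.two [1,5,16] [2,21,21])]),(7,[(1,.two [3,3,16] [7,18,19])]),(14,[(1,.two [3,3,16] [11,14,19])]),(15,[(1,.two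 [3,4,15] [6,19,19])]),(8,[(1,.two [3,8,11] [6,19,19])])]⟩

theorem k22_1 : chk 22 1 c22_1 = true := by decide +kernel

def c22_3 : Cert :=
  ⟨[1,3,9,5,15],[1,3,5,7,9,13,15,17,19,21],[2],[[],[2],[1],[2],[-1],[2],[1],[-2],[1],[2],[1],[0],[-1],[-2],[-1],[2],[-1],[-2],[1],[-2],[-1],[-2]],[11],[1],[[-1]],22,[(4,[(1,.two [2] [4])]),(12,[(1,.two [2] [12])]),(14,[(1,.two [2] [14])]),(16,[(1,.two [2] [16])]),(20,[(1,.two [2] [20])]),(6,[(1,.two [6] [4])]),(8,[(1,.two [8] [4])]),(10,[(1,.two [10] [4])]),(18,[(1,.two [18] [4])]),(1,[(1,.dup 1)]),(13,[(1,.dup 2)]),(3,[(1,.dup 3)]),(15,[(1,.dup 4)]),(5,[(1,.dup 5)]),(17,[(1,.dup 6)]),(7,[(1,.dup 7)]),(19,[(1,.dup 8)]),(9,[(1,.dup 9)]),(21,[(1,.dup 10)])]⟩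

theorem k22_3 : chk 22 3 c22_3 = true := by decide +kernel

def c22_7 : Cert :=
  ⟨[1,7,5,13,3,21,15,17,9,19],[1,3,5,7,9,13,15,17,19,21],[],[[],[],[],[],[],[],[],[],[],[],[],[],[],[],[],[],[],[],[],[],[],[]],[1],[],[],1,[(2,[(1,.one [2])]),(3,[(1,.one [3])]),(4,[(1,.one [4])]),(5,[(1,.one [5])]),(6,[(1,.one [6])]),(7,[(1,.one [7])]),(8,[(1,.one [8])]),(9,[(1,.one [9])]),(10,[(1,.one [10])]),(11,[(1,.one [11])]),(12,[(1,.one [12])]),(13,[(1,.one [13])]),(14,[(1,.one [14])]),(15,[(1,.one [15])]),(16,[(1,.one [16])]),(17,[(1,.one [17])]),(18,[(1,.one [18])]),(19,[(1,.one [19])]),(20,[(1,.one [20])]),(21,[(1,.one [21])])]⟩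

theorem k22_7 : chk 22 7 c22_7 = true := by decide +kernel

def c22_21 : Cert :=
  ⟨[1,21],[1,3,5,7,9,13,15,17,19,21],[],[[],[],[],[],[],[],[],[],[],[],[],[],[],[],[],[],[],[],[],[],[],[]],[1],[],[],1,[(2,[(1,.one [2])]),(3,[(1,.one [3])]),(4,[(1,.one [4])]),(5,[(1,.one [5])]),(6,[(1,.one [6])]),(7,[(1,.one [7])]),(8,[(1,.one [8])]),(9,[(1,.one [9])]),(10,[(1,.one [10])]),(11,[(1,.one [11])]),(12,[(1,.one [12])]),(13,[(1,.one [13])]),(14,[(1,.one [14])]),(15,[(1,.one [15])]),(16,[(1,.one [16])]),(17,[(1,.one [17])]),(18,[(1,.one [18])]),(19,[(1,.one [19])]),(20,[(1,.one [20])]),(21,[(1,.one [21])])]⟩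

theorem k22_21 : chk 22 21 c22_21 = true := by decide +kernel

theorem all22 : ∀ x < 22, x.Coprime 22 → Full 22 x := by
  intro x hx hc
  interval_cases x
  · exact absurd hc (by decide)
  · exact full_of_chk k22_1
  · exact absurd hc (by decide)
  · exact full_of_chk k22_3
  · exact absurd hc (by decide)
  · exact full_same 3 2 k22_3 (by decide) (by decide)
  · exact absurd hc (by decide)
  · exact full_of_chk k22_7
  · exact absurd hc (by decide)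
  · exact full_same 2 3 k22_3 (by decide) (by decide)
  · exact absurd hc (by decide)
  · exact absurd hc (by decide)
  · exact absurd hc (by decide)
  · exact full_same 3 7 k22_7 (by decide) (by decide)
  · exact absurd hc (by decide)
  · exact full_same 4 4 k22_3 (by decide) (by decide)
  · exact absurd hc (by decide)
  · exact full_same 7 3 k22_7 (by decide) (by decide)
  · exact absurd hc (by decide)
  · exact full_same 9 9 k22_7 (by decide) (by decide)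
  · exact absurd hc (by decide)
  · exact full_of_chk k22_21

end Pool.Agent.N997.TF
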