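import Pool.Agent.N997.TF.Same

/-!
Degree 23: certificates.
-/

set_option maxRecDepth 100000

namespace Pool.Agent.N997.TF

def c23_1 : Cert :=
  ⟨[1],[1,2,3,4,5,6,7,8,9,10,11,12,13,14,15,16,17,18,19,20,21,22],[1,2,3,4,5,6,7,8,9,10,11],[[],[1,0,0,0,0,0,0,0,0,0,0],[0,1,0,0,0,0,0,0,0,0,0],[0,0,1,0,0,0,0,0,0,0,0],[0,0,0,1,0,0,0,0,0,0,0],[0,0,0,0,1,0,0,0,0,0,0],[0,0,0,0,0,1,0,0,0,0,0],[0,0,0,0,0,0,1,0,0,0,0],[0,0,0,0,0,0,0,1,0,0,0],[0,0,0,0,0,0,0,0,1,0,0],[0,0,0,0,0,0,0,0,0,1,0],[0,0,0,0,0,0,0,0,0,0,1],[0,0,0,0,0,0,0,0,0,0,-1],[0,0,0,0,0,0,0,0,0,-1,0],[0,0,0,0,0,0,0,0,-1,0,0],[0,0,0,0,0,0,0,-1,0,0,0],[0,0,0,0,0,0,-1,0,0,0,0],[0,0,0,0,0,-1,0,0,0,0,0],[0,0,0,0,-1,0,0,0,0,0,0],[0,0,0,-1,0,0,0,0,0,0,0],[0,0,-1,0,0,0,0,0,0,0,0],[0,-1,0,0,0,0,0,0,0,0,0],[-1,0,0,0,0,0,0,0,0,0,0]],[],[1,2,3,4,5,6,7,8,9,10,11],[[-1,-1,-1,-1,-2,-1,-2,-1,-1,1,-2],[-1,-1,-1,-1,1,2,1,2,2,1,1],[-1,-1,-1,2,1,2,1,-1,-1,-2,1],[-1,-1,2,2,1,-1,-2,-1,-1,1,1],[-2,1,1,1,-1,-2,2,1,1,-1,-1],[-1,2,2,-1,-2,-1,1,-1,-1,1,1],[-2,1,1,-2,2,1,-1,1,1,-1,-1],[-1,2,-1,-1,1,-1,1,2,-1,-2,1],[-1,2,-1,-1,1,-1,1,-1,2,1,-2],[1,1,-2,1,-1,1,-1,-2,1,-1,2],[-2,1,1,1,-1,1,-1,1,-2,2,-1]],138,[(22,[(1,.two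 [1] [22])]),(21,[(1,.two [2] [21])]),(20,[(1,.two [3] [20])]),(19,[(1,.two [4] [19])]),(18,[(1,.two [5] [18])]),(17,[(1,.two [6] [17])]),(16,[(1,.two [7] [16])]),(15,[(1,.two [8] [15])]),(14,[(1,.two [9] [14])]),(13,[(1,.two [10] [13])]),(12,[(1,.two [11] [12])])]⟩

theorem k23_1 : chk 23 1 c23_1 = true := by decide +kernel

def c23_2 : Cert :=
  ⟨[1,2,4,8,16,9,18,13,3,6,12],[1,2,3,4,5,6,7,8,9,10,11,12,13,14,15,16,17,18,19,20,21,22],[1],[[],[1],[1],[1],[1],[-1],[1],[-1],[1],[1],[-1],[-1],[1],[1],[-1],[-1],[1],[-1],[1],[-1],[-1],[-1],[-1]],[],[1],[[-1]],69,[(5,[(1,.two [1] [5])]),(7,[(1,.two [1] [7])]),(10,[(1,.two [1] [10])]),(11,[(1,.two [1] [11])]),(14,[(1,.two [1] [14])]),(15,[(1,.two [1] [15])]),(17,[(1,.two [1] [17])]),(19,[(1,.two [1] [19])]),(20,[(1,.two [1] [20])]),(21,[(1,.two [1] [21])]),(22,[(1,.two [1] [22])]),(2,[(1,.two [2] [5])]),(3,[(1,.two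 [3] [5])]),(4,[(1,.two [4] [5])]),(6,[(1,.two [6] [5])]),(8,[(1,.two [8] [5])]),(9,[(1,.two [9] [5])]),(12,[(1,.two [12] [5])]),(13,[(1,.two [13] [5])]),(16,[(1,.two [16] [5])]),(18,[(1,.two [18] [5])])]⟩

theorem k23_2 : chk 23 2 c23_2 = true := by decide +kernel

def c23_5 : Cert :=
  ⟨[1,5,2,10,4,20,8,17,16,11,9,22,18,21,13,19,3,15,6,7,12,14],[1,2,3,4,5,6,7,8,9,10,11,12,13,14,15,16,17,18,19,20,21,22],[],[[],[],[],[],[],[],[],[],[],[],[],[],[],[],[],[],[],[],[],[],[],[],[]],[1],[],[],1,[(2,[(1,.one [2])]),(3,[(1,.one [3])]),(4,[(1,.one [4])]),(5,[(1,.one [5])]),(6,[(1,.one [6])]),(7,[(1,.one [7])]),(8,[(1,.one [8])]),(9,[(1,.one [9])]),(10,[(1,.one [10])]),(11,[(1,.one [11])]),(12,[(1,.one [12])]),(13,[(1,.one [13])]),(14,[(1,.one [14])]),(15,[(1,.one [15])]),(16,[(1,.one [16])]),(17,[(1,.one [17])]),(18,[(1,.one [18])]),(19,[(1,.one [19])]),(20,[(1,.one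 [20])]),(21,[(1,.one [21])]),(22,[(1,.one [22])])]⟩

theorem k23_5 : chk 23 5 c23_5 = true := by decide +kernel

def c23_22 : Cert :=
  ⟨[1,22],[1,2,3,4,5,6,7,8,9,10,11,12,13,14,15,16,17,18,19,20,21,22],[],[[],[],[],[],[],[],[],[],[],[],[],[],[],[],[],[],[],[],[],[],[],[],[]],[1],[],[],1,[(2,[(1,.one [2])]),(3,[(1,.one [3])]),(4,[(1,.one [4])]),(5,[(1,.one [5])]),(6,[(1,.one [6])]),(7,[(1,.one [7])]),(8,[(1,.one [8])]),(9,[(1,.one [9])]),(10,[(1,.one [10])]),(11,[(1,.one [11])]),(12,[(1,.one [12])]),(13,[(1,.one [13])]),(14,[(1,.one [14])]),(15,[(1,.one [15])]),(16,[(1,.one [16])]),(17,[(1,.one [17])]),(18,[(1,.one [18])]),(19,[(1,.one [19])]),(20,[(1,.one [20])]),(21,[(1,.one [21])]),(22,[(1,.one [22])])]⟩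

theorem k23_22 : chk 23 22 c23_22 = true := by decide +kernel

theorem all23 : ∀ x < 23, x.Coprime 23 → Full 23 x := by
  intro x hx hc
  interval_cases x
  · exact absurd hc (by decide)
  · exact full_of_chk k23_1
  · exact full_of_chk k23_2
  · exact full_same 8 7 k23_2 (by decide) (by decide)
  · exact full_same 2 6 k23_2 (by decide) (by decide)
  · exact full_of_chk k23_5
  · exact full_same 9 5 k23_2 (by decide) (by decide)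
  · exact full_same 19 7 k23_5 (by decide) (by decide)
  · exact full_same 3 4 k23_2 (by decide) (by decide)
  · exact full_same 5 9 k23_2 (by decide) (by decide)
  · exact full_same 3 15 k23_5 (by decide) (by decide)
  · exact full_same 9 5 k23_5 (by decide) (by decide)
  · exact full_same 10 10 k23_2 (by decide) (by decide)
  · exact full_same 7 8 k23_2 (by decide) (by decide)
  · exact full_same 21 21 k23_5 (by decide) (by decide)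
  · exact full_same 17 13 k23_5 (by decide) (by decide)
  · exact full_same 4 3 k23_2 (by decide) (by decide)
  · exact full_same 7 19 k23_5 (by decide) (by decide)
  · exact full_same 6 2 k23_2 (by decide) (by decide)
  · exact full_same 15 3 k23_5 (by decide) (by decide)
  · exact full_same 5 9 k23_5 (by decide) (by decide)
  · exact full_same 13 17 k23_5 (by decide) (by decide)
  · exact full_of_chk k23_22

end Pool.Agent.N997.TF
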