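import Pool.Agent.N997.TF.Same

/-!
Degree 24: certificates.
-/

set_option maxRecDepth 100000

namespace Pool.Agent.N997.TF

def c24_1 : Cert :=
  ⟨[1],[1,5,7,11,13,17,19,23],[1,2,3,5],[[],[1,0,0,0],[0,1,0,0],[0,0,1,0],[2,0,0,-2],[0,0,0,1],[-1,1,0,1],[2,-1,0,-1],[1,0,0,-1],[1,-1,1,-1],[-2,1,0,2],[1,-1,0,0],[0,0,0,0],[-1,1,0,0],[2,-1,0,-2],[-1,1,-1,1],[-1,0,0,1],[-2,1,0,1],[1,-1,0,-1],[0,0,0,-1],[-2,0,0,2],[0,0,-1,0],[0,-1,0,0],[-1,0,0,0]],[12],[1,5,7,11],[[-2,2,-3,-1],[0,-1,1,2],[-1,1,1,-1],[1,-3,2,0]],48,[(23,[(1,.two [1] [23])]),(22,[(1,.two [2] [22])]),(21,[(1,.two [3] [21])]),(19,[(1,.two [5] [19])]),(10,[(1,.two [1,1,22] [10,19,19])]),(14,[(1,.two [5,5,14] [2,23,23])]),(13,[(1,.dup 1)]),(4,[(1,.dup 2)]),(17,[(1,.dup 5)]),(7,[(1,.dup 7)]),(20,[(1,.dup 10)]),(11,[(1,.dup 11)]),(9,[(1,.hd 3 1)]),(15,[(1,.hd 3 5)]),(6,[(1,.two [1,1,22] [6,19,23])]),(8,[(1,.two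 [1,1,22] [8,17,23])]),(16,[(1,.two [1,1,22] [13,16,19])]),(18,[(1,.two [1,1,22] [13,17,18])])]⟩

theorem k24_1 : chk 24 1 c24_1 = true := by decide +kernel

def c24_5 : Cert :=
  ⟨[1,5],[1,5,7,11,13,17,19,23],[1,3],[[],[1,0],[0,2],[0,1],[0,0],[1,0],[0,2],[1,-2],[0,0],[0,-1],[0,2],[1,-2],[0,0],[-1,2],[0,-2],[0,1],[0,0],[-1,2],[0,-2],[-1,0],[0,0],[0,-1],[0,-2],[-1,0]],[4],[1,7],[[-1,-1],[-1,3]],48,[(8,[(1,.one [8])]),(12,[(1,.one [12])]),(16,[(1,.one [16])]),(20,[(1,.one [20])]),(19,[(1,.two [1] [19])]),(23,[(1,.two [1] [23])]),(5,[(1,.two [5] [19])]),(9,[(1,.two [3] [9])]),(21,[(1,.two [3] [21])]),(15,[(1,.two [15] [9])]),(18,[(1,.one [3,3,18])]),(6,[(1,.one [6,9,9])]),(2,[(1,.two [4] [2,4,18])]),(14,[(1,.two [4] [4,6,14])]),(22,[(1,.two [20] [6,20,22])]),(10,[(1,.two [20] [10,18,20])]),(13,[(1,.dup 1)]),(17,[(1,.dup 5)]),(7,[(1,.dup 7)]),(11,[(1,.dup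 11)])]⟩

theorem k24_5 : chk 24 5 c24_5 = true := by decide +kernel

def c24_7 : Cert :=
  ⟨[1,7],[1,5,7,11,13,17,19,23],[1,2],[[],[1,0],[0,1],[0,0],[0,2],[1,-1],[0,0],[1,0],[0,1],[0,0],[0,-1],[1,-1],[0,0],[-1,1],[0,1],[0,0],[0,-1],[-1,0],[0,0],[-1,1],[0,-2],[0,0],[0,-1],[-1,0]],[3],[1,5],[[-1,-1],[-1,2]],48,[(6,[(1,.one [6])]),(9,[(1,.one [9])]),(12,[(1,.one [12])]),(15,[(1,.one [15])]),(18,[(1,.one [18])]),(21,[(1,.one [21])]),(17,[(1,.two [1] [17])]),(23,[(1,.two [1] [23])]),(7,[(1,.two [7] [17])]),(10,[(1,.two [2] [10])]),(16,[(1,.two [2] [16])]),(22,[(1,.two [2] [22])]),(8,[(1,.two [8] [10])]),(14,[(1,.two [14] [10])]),(20,[(1,.one [2,2,20])]),(4,[(1,.one [4,10,10])]),(13,[(1,.one [1,10,13])]),(5,[(1,.one [2,5,17])]),(19,[(1,.one [7,19,22])]),(11,[(1,.one [11,14,23])])]⟩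

theorem k24_7 : chk 24 7 c24_7 = true := by decide +kernel

def c24_11 : Cert :=
  ⟨[1,11],[1,5,7,11,13,17,19,23],[1,3],[[],[1,0],[0,0],[0,1],[0,0],[1,0],[0,0],[1,0],[0,0],[0,1],[0,0],[1,0],[0,0],[-1,0],[0,0],[0,-1],[0,0],[-1,0],[0,0],[-1,0],[0,0],[0,-1],[0,0],[-1,0]],[2],[1,5],[[-1,-1],[-1,1]],48,[(4,[(1,.one [4])]),(6,[(1,.one [6])]),(8,[(1,.one [8])]),(10,[(1,.one [10])]),(12,[(1,.one [12])]),(14,[(1,.one [14])]),(16,[(1,.one [16])]),(18,[(1,.one [18])]),(20,[(1,.one [20])]),(22,[(1,.one [22])]),(13,[(1,.two [1] [13])]),(17,[(1,.two [1] [17])]),(19,[(1,.two [1] [19])]),(23,[(1,.two [1] [23])]),(5,[(1,.two [5] [13])]),(7,[(1,.two [7] [13])]),(11,[(1,.two [11] [13])]),(15,[(1,.two [3] [15])]),(21,[(1,.two [3] [21])]),(9,[(1,.two [9] [15])])]⟩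

theorem k24_11 : chk 24 11 c24_11 = true := by decide +kernel

def c24_13 : Cert :=
  ⟨[1,13],[1,5,7,11,13,17,19,23],[1,3],[[],[1,0],[2,0],[0,1],[4,-4],[-1,2],[0,2],[1,-2],[2,-2],[0,-1],[-2,4],[-1,0],[0,0],[1,0],[2,-4],[0,1],[-2,2],[-1,2],[0,-2],[1,-2],[-4,4],[0,-1],[-2,0],[-1,0]],[12],[1,5],[[-3,3],[1,-5]],48,[(11,[(1,.two [1] [11])]),(23,[(1,.two [1] [23])]),(13,[(1,.two [13] [11])]),(9,[(1,.two [3] [9])]),(21,[(1,.two [3] [21])]),(15,[(1,.two [15] [9])]),(22,[(1,.one [1,1,22])]),(2,[(1,.one [2,11,11])]),(18,[(1,.one [3,3,18])]),(6,[(1,.one [6,9,9])]),(5,[(1,.one [1,5,18])]),(7,[(1,.one [5,7,12])]),(8,[(1,.one [5,8,11])]),(19,[(1,.one [6,19,23])]),(17,[(1,.one [8,17,23])]),(16,[(1,.one [13,16,19])]),(14,[(1,.two [1,1,22] [5,5,14])]),(10,[(1,.two [1,1,22] [7,7,10])]),(4,[(1,.two [1,4,19] [16,16,16])]),(20,[(1,.two [4,4,16] [12,16,20])])]⟩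

theorem k24_13 : chk 24 13 c24_13 = true := by decide +kernel

def c24_17 : Cert :=
  ⟨[1,17],[1,5,7,11,13,17,19,23],[1,3],[[],[1,0],[2,0],[0,1],[0,0],[1,0],[2,0],[-1,0],[0,0],[-2,1],[2,0],[-1,0],[0,0],[1,0],[-2,0],[2,-1],[0,0],[1,0],[-2,0],[-1,0],[0,0],[0,-1],[-2,0],[-1,0]],[4],[1,5],[[-1,-3],[-1,1]],48,[(8,[(1,.one [8])]),(12,[(1,.one [12])]),(16,[(1,.one [16])]),(20,[(1,.one [20])]),(7,[(1,.two [1] [7])]),(11,[(1,.two [1] [11])]),(19,[(1,.two [1] [19])]),(23,[(1,.two [1] [23])]),(5,[(1,.two [5] [7])]),(13,[(1,.two [13] [7])]),(17,[(1,.two [17] [7])]),(21,[(1,.two [3] [21])]),(22,[(1,.one [1,1,22])]),(2,[(1,.one [2,11,11])]),(14,[(1,.one [5,5,14])]),(10,[(1,.one [7,7,10])]),(18,[(1,.two [4] [2,4,18])]),(6,[(1,.two [4] [4,6,14])]),(15,[(1,.dup 3)]),(9,[(1,.dup 9)])]⟩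

theorem k24_17 : chk 24 17 c24_17 = true := by decide +kernel

def c24_19 : Cert :=
  ⟨[1,19],[1,5,7,11,13,17,19,23],[1,3],[[],[1,0],[2,0],[0,1],[4,0],[-1,0],[0,0],[1,0],[2,0],[0,1],[-2,0],[-1,0],[0,0],[1,0],[2,0],[0,-1],[-2,0],[-1,0],[0,0],[1,0],[-4,0],[0,-1],[-2,0],[-1,0]],[6],[1,7],[[-3,-3],[-1,1]],48,[(12,[(1,.one [12])]),(18,[(1,.one [18])]),(5,[(1,.two [1] [5])]),(11,[(1,.two [1] [11])]),(17,[(1,.two [1] [17])]),(23,[(1,.two [1] [23])]),(7,[(1,.two [7] [5])]),(13,[(1,.two [13] [5])]),(19,[(1,.two [19] [5])]),(15,[(1,.two [3] [15])]),(21,[(1,.two [3] [21])]),(9,[(1,.two [9] [15])]),(22,[(1,.one [1,1,22])]),(2,[(1,.one [2,11,11])]),(4,[(1,.one [4,22,22])]),(14,[(1,.one [5,5,14])]),(10,[(1,.one [7,7,10])]),(20,[(1,.one [14,14,20])]),(16,[(1,.two [6] [2,6,16])]),(8,[(1,.two [6] [6,8,10])])]⟩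

theorem k24_19 : chk 24 19 c24_19 = true := by decide +kernel

def c24_23 : Cert :=
  ⟨[1,23],[1,5,7,11,13,17,19,23],[],[[],[],[],[],[],[],[],[],[],[],[],[],[],[],[],[],[],[],[],[],[],[],[],[]],[1],[],[],1,[(2,[(1,.one [2])]),(3,[(1,.one [3])]),(4,[(1,.one [4])]),(5,[(1,.one [5])]),(6,[(1,.one [6])]),(7,[(1,.one [7])]),(8,[(1,.one [8])]),(9,[(1,.one [9])]),(10,[(1,.one [10])]),(11,[(1,.one [11])]),(12,[(1,.one [12])]),(13,[(1,.one [13])]),(14,[(1,.one [14])]),(15,[(1,.one [15])]),(16,[(1,.one [16])]),(17,[(1,.one [17])]),(18,[(1,.one [18])]),(19,[(1,.one [19])]),(20,[(1,.one [20])]),(21,[(1,.one [21])]),(22,[(1,.one [22])]),(23,[(1,.one [23])])]⟩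

theorem k24_23 : chk 24 23 c24_23 = true := by decide +kernel

theorem all24 : ∀ x < 24, x.Coprime 24 → Full 24 x := by
  intro x hx hc
  interval_cases x
  · exact absurd hc (by decide)
  · exact full_of_chk k24_1
  · exact absurd hc (by decide)
  · exact absurd hc (by decide)
  · exact absurd hc (by decide)
  · exact full_of_chk k24_5
  · exact absurd hc (by decide)
  · exact full_of_chk k24_7
  · exact absurd hc (by decide)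
  · exact absurd hc (by decide)
  · exact absurd hc (by decide)
  · exact full_of_chk k24_11
  · exact absurd hc (by decide)
  · exact full_of_chk k24_13
  · exact absurd hc (by decide)
  · exact absurd hc (by decide)
  · exact absurd hc (by decide)
  · exact full_of_chk k24_17
  · exact absurd hc (by decide)
  · exact full_of_chk k24_19
  · exact absurd hc (by decide)
  · exact absurd hc (by decide)
  · exact absurd hc (by decide)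
  · exact full_of_chk k24_23

end Pool.Agent.N997.TF
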