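import Pool.Agent.N997.TF.Same

/-!
Degree 25: certificates.
-/

set_option maxRecDepth 100000

namespace Pool.Agent.N997.TF

def c25_1 : Cert :=
  ⟨[1],[1,2,3,4,6,7,8,9,11,12,13,14,16,17,18,19,21,22,23,24],[1,2,3,4,5,6,7,8,9,10],[[],[1,0,0,0,0,0,0,0,0,0],[0,1,0,0,0,0,0,0,0,0],[0,0,1,0,0,0,0,0,0,0],[0,0,0,1,0,0,0,0,0,0],[0,0,0,0,1,0,0,0,0,0],[0,0,0,0,0,1,0,0,0,0],[0,0,0,0,0,0,1,0,0,0],[0,0,0,0,0,0,0,1,0,0],[0,0,0,0,0,0,0,0,1,0],[0,0,0,0,0,0,0,0,0,1],[-1,0,0,1,1,-1,0,0,1,0],[0,-1,1,0,0,0,-1,1,0,1],[0,1,-1,0,0,0,1,-1,0,-1],[1,0,0,-1,-1,1,0,0,-1,0],[0,0,0,0,0,0,0,0,0,-1],[0,0,0,0,0,0,0,0,-1,0],[0,0,0,0,0,0,0,-1,0,0],[0,0,0,0,0,0,-1,0,0,0],[0,0,0,0,0,-1,0,0,0,0],[0,0,0,0,-1,0,0,0,0,0],[0,0,0,-1,0,0,0,0,0,0],[0,0,-1,0,0,0,0,0,0,0],[0,-1,0,0,0,0,0,0,0,0],[-1,0,0,0,0,0,0,0,0,0]],[],[1,2,3,4,6,7,8,9,11,12],[[0,0,0,-1,-1,-1,0,-1,-1,1],[0,-1,0,0,0,1,0,1,1,0],[0,0,-1,0,1,0,1,0,-1,0],[-1,0,0,1,1,0,-1,0,1,-1],[-1,0,0,1,0,0,0,1,0,-1],[0,0,1,0,-1,0,0,-1,0,1],[-1,0,1,0,0,1,-1,0,1,-1],[0,1,0,-1,0,-1,1,0,-1,1],[-1,1,0,0,0,0,0,0,1,-1],[0,1,-1,0,0,0,0,0,-1,1]],50,[(24,[(1,.two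 [1] [24])]),(23,[(1,.two [2] [23])]),(22,[(1,.two [3] [22])]),(21,[(1,.two [4] [21])]),(20,[(1,.two [5] [20])]),(19,[(1,.two [6] [19])]),(18,[(1,.two [7] [18])]),(17,[(1,.two [8] [17])]),(16,[(1,.two [9] [16])]),(15,[(1,.two [10] [15])]),(11,[(1,.hd 5 1)]),(12,[(1,.hd 5 2)]),(13,[(1,.hd 5 3)]),(14,[(1,.hd 5 4)])]⟩

theorem k25_1 : chk 25 1 c25_1 = true := by decide +kernel

def c25_2 : Cert :=
  ⟨[1,2,4,8,16,7,14,3,6,12,24,23,21,17,9,18,11,22,19,13],[1,2,3,4,6,7,8,9,11,12,13,14,16,17,18,19,21,22,23,24],[],[[],[],[],[],[],[],[],[],[],[],[],[],[],[],[],[],[],[],[],[],[],[],[],[],[]],[1],[],[],1,[(2,[(1,.one [2])]),(3,[(1,.one [3])]),(4,[(1,.one [4])]),(5,[(1,.one [5])]),(6,[(1,.one [6])]),(7,[(1,.one [7])]),(8,[(1,.one [8])]),(9,[(1,.one [9])]),(10,[(1,.one [10])]),(11,[(1,.one [11])]),(12,[(1,.one [12])]),(13,[(1,.one [13])]),(14,[(1,.one [14])]),(15,[(1,.one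 [15])]),(16,[(1,.one [16])]),(17,[(1,.one [17])]),(18,[(1,.one [18])]),(19,[(1,.one [19])]),(20,[(1,.one [20])]),(21,[(1,.one [21])]),(22,[(1,.one [22])]),(23,[(1,.one [23])]),(24,[(1,.one [24])])]⟩

theorem k25_2 : chk 25 2 c25_2 = true := by decide +kernel

def c25_4 : Cert :=
  ⟨[1,4,16,14,6,24,21,9,11,19],[1,2,3,4,6,7,8,9,11,12,13,14,16,17,18,19,21,22,23,24],[],[[],[],[],[],[],[],[],[],[],[],[],[],[],[],[],[],[],[],[],[],[],[],[],[],[]],[1],[],[],1,[(2,[(1,.one [2])]),(3,[(1,.one [3])]),(4,[(1,.one [4])]),(5,[(1,.one [5])]),(6,[(1,.one [6])]),(7,[(1,.one [7])]),(8,[(1,.one [8])]),(9,[(1,.one [9])]),(10,[(1,.one [10])]),(11,[(1,.one [11])]),(12,[(1,.one [12])]),(13,[(1,.one [13])]),(14,[(1,.one [14])]),(15,[(1,.one [15])]),(16,[(1,.one [16])]),(17,[(1,.one [17])]),(18,[(1,.one [18])]),(19,[(1,.one [19])]),(20,[(1,.one [20])]),(21,[(1,.one [21])]),(22,[(1,.one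 [22])]),(23,[(1,.one [23])]),(24,[(1,.one [24])])]⟩

theorem k25_4 : chk 25 4 c25_4 = true := by decide +kernel

def c25_6 : Cert :=
  ⟨[1,6,11,16,21],[1,2,3,4,6,7,8,9,11,12,13,14,16,17,18,19,21,22,23,24],[1,2],[[],[1,0],[0,1],[0,-1],[-1,0],[5,0],[1,0],[0,1],[0,-1],[-1,0],[0,5],[1,0],[0,1],[0,-1],[-1,0],[0,-5],[1,0],[0,1],[0,-1],[-1,0],[-5,0],[1,0],[0,1],[0,-1],[-1,0]],[],[1,2],[[-3,-1],[-1,3]],50,[(4,[(1,.two [1] [4])]),(9,[(1,.two [1] [9])]),(14,[(1,.two [1] [14])]),(19,[(1,.two [1] [19])]),(24,[(1,.two [1] [24])]),(6,[(1,.two [6] [4])]),(11,[(1,.two [11] [4])]),(16,[(1,.two [16] [4])]),(21,[(1,.two [21] [4])]),(3,[(1,.two [2] [3])]),(8,[(1,.two [2] [8])]),(13,[(1,.two [2] [13])]),(18,[(1,.two [2] [18])]),(23,[(1,.two [2] [23])]),(7,[(1,.two [7] [3])]),(12,[(1,.two [12] [3])]),(17,[(1,.two [17] [3])]),(22,[(1,.two [22] [3])]),(5,[(1,.hd 5 1)]),(10,[(1,.hd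 5 2)]),(15,[(1,.hd 5 3)]),(20,[(1,.hd 5 4)])]⟩

theorem k25_6 : chk 25 6 c25_6 = true := by decide +kernel

def c25_7 : Cert :=
  ⟨[1,7,24,18],[1,2,3,4,6,7,8,9,11,12,13,14,16,17,18,19,21,22,23,24],[],[[],[],[],[],[],[],[],[],[],[],[],[],[],[],[],[],[],[],[],[],[],[],[],[],[]],[1],[],[],1,[(2,[(1,.one [2])]),(3,[(1,.one [3])]),(4,[(1,.one [4])]),(5,[(1,.one [5])]),(6,[(1,.one [6])]),(7,[(1,.one [7])]),(8,[(1,.one [8])]),(9,[(1,.one [9])]),(10,[(1,.one [10])]),(11,[(1,.one [11])]),(12,[(1,.one [12])]),(13,[(1,.one [13])]),(14,[(1,.one [14])]),(15,[(1,.one [15])]),(16,[(1,.one [16])]),(17,[(1,.one [17])]),(18,[(1,.one [18])]),(19,[(1,.one [19])]),(20,[(1,.one [20])]),(21,[(1,.one [21])]),(22,[(1,.one [22])]),(23,[(1,.one [23])]),(24,[(1,.one [24])])]⟩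

theorem k25_7 : chk 25 7 c25_7 = true := by decide +kernel

def c25_24 : Cert :=
  ⟨[1,24],[1,2,3,4,6,7,8,9,11,12,13,14,16,17,18,19,21,22,23,24],[],[[],[],[],[],[],[],[],[],[],[],[],[],[],[],[],[],[],[],[],[],[],[],[],[],[]],[1],[],[],1,[(2,[(1,.one [2])]),(3,[(1,.one [3])]),(4,[(1,.one [4])]),(5,[(1,.one [5])]),(6,[(1,.one [6])]),(7,[(1,.one [7])]),(8,[(1,.one [8])]),(9,[(1,.one [9])]),(10,[(1,.one [10])]),(11,[(1,.one [11])]),(12,[(1,.one [12])]),(13,[(1,.one [13])]),(14,[(1,.one [14])]),(15,[(1,.one [15])]),(16,[(1,.one [16])]),(17,[(1,.one [17])]),(18,[(1,.one [18])]),(19,[(1,.one [19])]),(20,[(1,.one [20])]),(21,[(1,.one [21])]),(22,[(1,.one [22])]),(23,[(1,.one [23])]),(24,[(1,.one [24])])]⟩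

theorem k25_24 : chk 25 24 c25_24 = true := by decide +kernel

theorem all25 : ∀ x < 25, x.Coprime 25 → Full 25 x := by
  intro x hx hc
  interval_cases x
  · exact absurd hc (by decide)
  · exact full_of_chk k25_1
  · exact full_of_chk k25_2
  · exact full_same 7 3 k25_2 (by decide) (by decide)
  · exact full_of_chk k25_4
  · exact absurd hc (by decide)
  · exact full_of_chk k25_6
  · exact full_of_chk k25_7
  · exact full_same 3 7 k25_2 (by decide) (by decide)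
  · exact full_same 7 3 k25_4 (by decide) (by decide)
  · exact absurd hc (by decide)
  · exact full_same 2 3 k25_6 (by decide) (by decide)
  · exact full_same 9 9 k25_2 (by decide) (by decide)
  · exact full_same 19 19 k25_2 (by decide) (by decide)
  · exact full_same 3 7 k25_4 (by decide) (by decide)
  · exact absurd hc (by decide)
  · exact full_same 3 2 k25_6 (by decide) (by decide)
  · exact full_same 13 17 k25_2 (by decide) (by decide)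
  · exact full_same 3 3 k25_7 (by decide) (by decide)
  · exact full_same 9 9 k25_4 (by decide) (by decide)
  · exact absurd hc (by decide)
  · exact full_same 4 4 k25_6 (by decide) (by decide)
  · exact full_same 17 13 k25_2 (by decide) (by decide)
  · exact full_same 11 11 k25_2 (by decide) (by decide)
  · exact full_of_chk k25_24

end Pool.Agent.N997.TF
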