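import Pool.Agent.N997.TF.Same

/-!
Degree 26: certificates.
-/

set_option maxRecDepth 100000

namespace Pool.Agent.N997.TF

def c26_1 : Cert :=
  ⟨[1],[1,3,5,7,9,11,15,17,19,21,23,25],[1,2,3,4,5,6],[[],[1,0,0,0,0,0],[0,1,0,0,0,0],[0,0,1,0,0,0],[0,0,0,1,0,0],[0,0,0,0,1,0],[0,0,0,0,0,1],[-1,1,0,0,0,1],[0,0,-1,0,1,1],[0,0,1,1,-1,-1],[0,0,1,0,0,-1],[0,1,0,-1,0,0],[1,-1,0,0,0,0],[0,0,0,0,0,0],[-1,1,0,0,0,0],[0,-1,0,1,0,0],[0,0,-1,0,0,1],[0,0,-1,-1,1,1],[0,0,1,0,-1,-1],[1,-1,0,0,0,-1],[0,0,0,0,0,-1],[0,0,0,0,-1,0],[0,0,0,-1,0,0],[0,0,-1,0,0,0],[0,-1,0,0,0,0],[-1,0,0,0,0,0]],[13],[1,3,5,7,9,11],[[0,-1,-1,-1,0,-1],[-1,0,0,1,1,1],[0,-1,1,1,-1,0],[0,0,1,-1,-1,1],[-1,1,0,0,1,-1],[-1,2,-1,0,0,0]],52,[(25,[(1,.two [1] [25])]),(24,[(1,.two [2] [24])]),(23,[(1,.two [3] [23])]),(22,[(1,.two [4] [22])]),(21,[(1,.two [5] [21])]),(20,[(1,.two [6] [20])]),(14,[(1,.dup 1)]),(15,[(1,.dup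 2)]),(16,[(1,.dup 3)]),(7,[(1,.dup 7)]),(8,[(1,.dup 8)]),(10,[(1,.dup 10)]),(11,[(1,.dup 11)]),(12,[(1,.dup 12)]),(19,[(1,.two [1,6,19] [2,25,25])]),(9,[(1,.two [2,9,15] [8,22,22])]),(17,[(1,.two [4,9,13] [13,17,22])]),(18,[(1,.two [4,9,13] [17,17,18])])]⟩

theorem k26_1 : chk 26 1 c26_1 = true := by decide +kernel

def c26_3 : Cert :=
  ⟨[1,3,9],[1,3,5,7,9,11,15,17,19,21,23,25],[1,2],[[],[1,0],[0,1],[1,0],[1,-1],[1,-2],[0,1],[-1,2],[0,-1],[1,0],[1,-1],[-1,2],[1,-1],[0,0],[-1,1],[1,-2],[-1,1],[-1,0],[0,1],[1,-2],[0,-1],[-1,2],[-1,1],[-1,0],[0,-1],[-1,0]],[13],[1,5],[[-1,1],[0,-2]],52,[(17,[(1,.two [1] [17])]),(23,[(1,.two [1] [23])]),(25,[(1,.two [1] [25])]),(3,[(1,.two [3] [17])]),(9,[(1,.two [9] [17])]),(8,[(1,.two [2] [8])]),(20,[(1,.two [2] [20])]),(24,[(1,.two [2] [24])]),(6,[(1,.two [6] [8])]),(18,[(1,.two [18] [8])]),(11,[(1,.two [1,1,24] [11,17,24])]),(19,[(1,.two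 [1,6,19] [6,23,23])]),(15,[(1,.two [2,9,15] [2,25,25])]),(7,[(1,.two [3,3,20] [7,20,25])]),(5,[(1,.two [3,5,18] [17,17,18])]),(21,[(1,.two [8,9,9] [8,21,23])]),(14,[(1,.dup 1)]),(4,[(1,.dup 2)]),(16,[(1,.dup 3)]),(10,[(1,.dup 5)]),(12,[(1,.dup 6)]),(22,[(1,.dup 9)])]⟩

theorem k26_3 : chk 26 3 c26_3 = true := by decide +kernel

def c26_5 : Cert :=
  ⟨[1,5,25,21],[1,3,5,7,9,11,15,17,19,21,23,25],[],[[],[],[],[],[],[],[],[],[],[],[],[],[],[],[],[],[],[],[],[],[],[],[],[],[],[]],[1],[],[],1,[(2,[(1,.one [2])]),(3,[(1,.one [3])]),(4,[(1,.one [4])]),(5,[(1,.one [5])]),(6,[(1,.one [6])]),(7,[(1,.one [7])]),(8,[(1,.one [8])]),(9,[(1,.one [9])]),(10,[(1,.one [10])]),(11,[(1,.one [11])]),(12,[(1,.one [12])]),(13,[(1,.one [13])]),(14,[(1,.one [14])]),(15,[(1,.one [15])]),(16,[(1,.one [16])]),(17,[(1,.one [17])]),(18,[(1,.one [18])]),(19,[(1,.one [19])]),(20,[(1,.one [20])]),(21,[(1,.one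 [21])]),(22,[(1,.one [22])]),(23,[(1,.one [23])]),(24,[(1,.one [24])]),(25,[(1,.one [25])])]⟩

theorem k26_5 : chk 26 5 c26_5 = true := by decide +kernel

def c26_7 : Cert :=
  ⟨[1,7,23,5,9,11,25,19,3,21,17,15],[1,3,5,7,9,11,15,17,19,21,23,25],[],[[],[],[],[],[],[],[],[],[],[],[],[],[],[],[],[],[],[],[],[],[],[],[],[],[],[]],[1],[],[],1,[(2,[(1,.one [2])]),(3,[(1,.one [3])]),(4,[(1,.one [4])]),(5,[(1,.one [5])]),(6,[(1,.one [6])]),(7,[(1,.one [7])]),(8,[(1,.one [8])]),(9,[(1,.one [9])]),(10,[(1,.one [10])]),(11,[(1,.one [11])]),(12,[(1,.one [12])]),(13,[(1,.one [13])]),(14,[(1,.one [14])]),(15,[(1,.one [15])]),(16,[(1,.one [16])]),(17,[(1,.one [17])]),(18,[(1,.one [18])]),(19,[(1,.one [19])]),(20,[(1,.one [20])]),(21,[(1,.one [21])]),(22,[(1,.one [22])]),(23,[(1,.one [23])]),(24,[(1,.one [24])]),(25,[(1,.one [25])])]⟩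

theorem k26_7 : chk 26 7 c26_7 = true := by decide +kernel

def c26_17 : Cert :=
  ⟨[1,17,3,25,9,23],[1,3,5,7,9,11,15,17,19,21,23,25],[],[[],[],[],[],[],[],[],[],[],[],[],[],[],[],[],[],[],[],[],[],[],[],[],[],[],[]],[1],[],[],1,[(2,[(1,.one [2])]),(3,[(1,.one [3])]),(4,[(1,.one [4])]),(5,[(1,.one [5])]),(6,[(1,.one [6])]),(7,[(1,.one [7])]),(8,[(1,.one [8])]),(9,[(1,.one [9])]),(10,[(1,.one [10])]),(11,[(1,.one [11])]),(12,[(1,.one [12])]),(13,[(1,.one [13])]),(14,[(1,.one [14])]),(15,[(1,.one [15])]),(16,[(1,.one [16])]),(17,[(1,.one [17])]),(18,[(1,.one [18])]),(19,[(1,.one [19])]),(20,[(1,.one [20])]),(21,[(1,.one [21])]),(22,[(1,.one [22])]),(23,[(1,.one [23])]),(24,[(1,.one [24])]),(25,[(1,.one [25])])]⟩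

theorem k26_17 : chk 26 17 c26_17 = true := by decide +kernel

def c26_25 : Cert :=
  ⟨[1,25],[1,3,5,7,9,11,15,17,19,21,23,25],[],[[],[],[],[],[],[],[],[],[],[],[],[],[],[],[],[],[],[],[],[],[],[],[],[],[],[]],[1],[],[],1,[(2,[(1,.one [2])]),(3,[(1,.one [3])]),(4,[(1,.one [4])]),(5,[(1,.one [5])]),(6,[(1,.one [6])]),(7,[(1,.one [7])]),(8,[(1,.one [8])]),(9,[(1,.one [9])]),(10,[(1,.one [10])]),(11,[(1,.one [11])]),(12,[(1,.one [12])]),(13,[(1,.one [13])]),(14,[(1,.one [14])]),(15,[(1,.one [15])]),(16,[(1,.one [16])]),(17,[(1,.one [17])]),(18,[(1,.one [18])]),(19,[(1,.one [19])]),(20,[(1,.one [20])]),(21,[(1,.one [21])]),(22,[(1,.one [22])]),(23,[(1,.one [23])]),(24,[(1,.one [24])]),(25,[(1,.one [25])])]⟩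

theorem k26_25 : chk 26 25 c26_25 = true := by decide +kernel

theorem all26 : ∀ x < 26, x.Coprime 26 → Full 26 x := by
  intro x hx hc
  interval_cases x
  · exact absurd hc (by decide)
  · exact full_of_chk k26_1
  · exact absurd hc (by decide)
  · exact full_of_chk k26_3
  · exact absurd hc (by decide)
  · exact full_of_chk k26_5
  · exact absurd hc (by decide)
  · exact full_of_chk k26_7
  · exact absurd hc (by decide)
  · exact full_same 2 2 k26_3 (by decide) (by decide)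
  · exact absurd hc (by decide)
  · exact full_same 5 5 k26_7 (by decide) (by decide)
  · exact absurd hc (by decide)
  · exact absurd hc (by decide)
  · exact absurd hc (by decide)
  · exact full_same 11 11 k26_7 (by decide) (by decide)
  · exact absurd hc (by decide)
  · exact full_of_chk k26_17
  · exact absurd hc (by decide)
  · exact full_same 7 7 k26_7 (by decide) (by decide)
  · exact absurd hc (by decide)
  · exact full_same 3 3 k26_5 (by decide) (by decide)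
  · exact absurd hc (by decide)
  · exact full_same 5 5 k26_17 (by decide) (by decide)
  · exact absurd hc (by decide)
  · exact full_of_chk k26_25

end Pool.Agent.N997.TF
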