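import Pool.Agent.N997.TF.Same

/-!
Degree 27: certificates.
-/

set_option maxRecDepth 100000

namespace Pool.Agent.N997.TF

def c27_1 : Cert :=
  ⟨[1],[1,2,4,5,7,8,10,11,13,14,16,17,19,20,22,23,25,26],[1,2,3,4,5,6,7,8,9],[[],[1,0,0,0,0,0,0,0,0],[0,1,0,0,0,0,0,0,0],[0,0,1,0,0,0,0,0,0],[0,0,0,1,0,0,0,0,0],[0,0,0,0,1,0,0,0,0],[0,0,0,0,0,1,0,0,0],[0,0,0,0,0,0,1,0,0],[0,0,0,0,0,0,0,1,0],[0,0,0,0,0,0,0,0,1],[-1,0,1,0,0,0,0,1,0],[0,-1,0,0,0,1,1,0,0],[0,0,-1,0,0,1,0,0,1],[0,0,-1,-1,1,1,0,0,1],[0,0,1,1,-1,-1,0,0,-1],[0,0,1,0,0,-1,0,0,-1],[0,1,0,0,0,-1,-1,0,0],[1,0,-1,0,0,0,0,-1,0],[0,0,0,0,0,0,0,0,-1],[0,0,0,0,0,0,0,-1,0],[0,0,0,0,0,0,-1,0,0],[0,0,0,0,0,-1,0,0,0],[0,0,0,0,-1,0,0,0,0],[0,0,0,-1,0,0,0,0,0],[0,0,-1,0,0,0,0,0,0],[0,-1,0,0,0,0,0,0,0],[-1,0,0,0,0,0,0,0,0]],[],[1,2,4,5,7,8,10,11,13],[[0,-1,0,-1,-1,0,0,0,-1],[0,-1,0,0,0,1,1,1,0],[0,0,-1,1,1,0,-1,-1,1],[0,0,0,1,0,-1,-1,0,1],[-1,0,1,0,0,0,1,0,-1],[-1,1,1,-1,0,0,0,0,0],[-1,1,0,0,1,-1,0,0,0],[0,1,-1,0,0,0,0,-1,1],[-1,1,0,0,-1,1,0,1,-1]],54,[(26,[(1,.two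 [1] [26])]),(25,[(1,.two [2] [25])]),(24,[(1,.two [3] [24])]),(23,[(1,.two [4] [23])]),(22,[(1,.two [5] [22])]),(21,[(1,.two [6] [21])]),(20,[(1,.two [7] [20])]),(19,[(1,.two [8] [19])]),(18,[(1,.two [9] [18])]),(10,[(1,.hd 3 1)]),(11,[(1,.hd 3 2)]),(12,[(1,.hd 3 3)]),(13,[(1,.hd 3 4)]),(15,[(1,.hd 3 6)]),(16,[(1,.hd 3 7)]),(17,[(1,.hd 3 8)]),(14,[(1,.two [1,12,14] [5,23,26])])]⟩

theorem k27_1 : chk 27 1 c27_1 = true := by decide +kernel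

def c27_2 : Cert :=
  ⟨[1,2,4,8,16,5,10,20,13,26,25,23,19,11,22,17,7,14],[1,2,4,5,7,8,10,11,13,14,16,17,19,20,22,23,25,26],[],[[],[],[],[],[],[],[],[],[],[],[],[],[],[],[],[],[],[],[],[],[],[],[],[],[],[],[]],[1],[],[],1,[(2,[(1,.one [2])]),(3,[(1,.one [3])]),(4,[(1,.one [4])]),(5,[(1,.one [5])]),(6,[(1,.one [6])]),(7,[(1,.one [7])]),(8,[(1,.one [8])]),(9,[(1,.one [9])]),(10,[(1,.one [10])]),(11,[(1,.one [11])]),(12,[(1,.one [12])]),(13,[(1,.one [13])]),(14,[(1,.one [14])]),(15,[(1,.one [15])]),(16,[(1,.one [16])]),(17,[(1,.one [17])]),(18,[(1,.one [18])]),(19,[(1,.one [19])]),(20,[(1,.one [20])]),(21,[(1,.one [21])]),(22,[(1,.one [22])]),(23,[(1,.one [23])]),(24,[(1,.one [24])]),(25,[(1,.one [25])]),(26,[(1,.one [26])])]⟩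

theorem k27_2 : chk 27 2 c27_2 = true := by decide +kernel

def c27_4 : Cert :=
  ⟨[1,4,16,10,13,25,19,22,7],[1,2,4,5,7,8,10,11,13,14,16,17,19,20,22,23,25,26],[1],[[],[1],[-1],[3],[1],[-1],[-3],[1],[-1],[9],[1],[-1],[3],[1],[-1],[-3],[1],[-1],[-9],[1],[-1],[3],[1],[-1],[-3],[1],[-1]],[],[1],[[-1]],9,[(2,[(1,.two [1] [2])]),(5,[(1,.two [1] [5])]),(8,[(1,.two [1] [8])]),(11,[(1,.two [1] [11])]),(14,[(1,.two [1] [14])]),(17,[(1,.two [1] [17])]),(20,[(1,.two [1] [20])]),(23,[(1,.two [1] [23])]),(26,[(1,.two [1] [26])]),(4,[(1,.two [4] [2])]),(7,[(1,.two [7] [2])]),(10,[(1,.two [10] [2])]),(13,[(1,.two [13] [2])]),(16,[(1,.two [16] [2])]),(19,[(1,.two [19] [2])]),(22,[(1,.two [22] [2])]),(25,[(1,.two [25] [2])]),(3,[(1,.two [3] [2,2,23])]),(12,[(1,.two [12] [2,2,23])]),(21,[(1,.two [21] [2,2,23])]),(6,[(1,.two [1,1,25] [6])]),(15,[(1,.two [1,1,25] [15])]),(24,[(1,.two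 [1,1,25] [24])]),(9,[(1,.two [9] [6,6,15])]),(18,[(1,.two [3,3,21] [18])])]⟩

theorem k27_4 : chk 27 4 c27_4 = true := by decide +kernel

def c27_8 : Cert :=
  ⟨[1,8,10,26,19,17],[1,2,4,5,7,8,10,11,13,14,16,17,19,20,22,23,25,26],[],[[],[],[],[],[],[],[],[],[],[],[],[],[],[],[],[],[],[],[],[],[],[],[],[],[],[],[]],[1],[],[],1,[(2,[(1,.one [2])]),(3,[(1,.one [3])]),(4,[(1,.one [4])]),(5,[(1,.one [5])]),(6,[(1,.one [6])]),(7,[(1,.one [7])]),(8,[(1,.one [8])]),(9,[(1,.one [9])]),(10,[(1,.one [10])]),(11,[(1,.one [11])]),(12,[(1,.one [12])]),(13,[(1,.one [13])]),(14,[(1,.one [14])]),(15,[(1,.one [15])]),(16,[(1,.one [16])]),(17,[(1,.one [17])]),(18,[(1,.one [18])]),(19,[(1,.one [19])]),(20,[(1,.one [20])]),(21,[(1,.one [21])]),(22,[(1,.one [22])]),(23,[(1,.one [23])]),(24,[(1,.one [24])]),(25,[(1,.one [25])]),(26,[(1,.one [26])])]⟩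

theorem k27_8 : chk 27 8 c27_8 = true := by decide +kernel

def c27_10 : Cert :=
  ⟨[1,10,19],[1,2,4,5,7,8,10,11,13,14,16,17,19,20,22,23,25,26],[1,2,4],[[],[1,0,0],[0,1,0],[3,0,0],[0,0,1],[0,0,-1],[0,3,0],[0,-1,0],[-1,0,0],[3,-3,3],[1,0,0],[0,1,0],[0,0,3],[0,0,1],[0,0,-1],[0,0,-3],[0,-1,0],[-1,0,0],[-3,3,-3],[1,0,0],[0,1,0],[0,-3,0],[0,0,1],[0,0,-1],[-3,0,0],[0,-1,0],[-1,0,0]],[],[1,2,4],[[-3,1,-2],[1,-2,3],[-2,3,-1]],54,[(8,[(1,.two [1] [8])]),(17,[(1,.two [1] [17])]),(26,[(1,.two [1] [26])]),(10,[(1,.two [10] [8])]),(19,[(1,.two [19] [8])]),(7,[(1,.two [2] [7])]),(16,[(1,.two [2] [16])]),(25,[(1,.two [2] [25])]),(11,[(1,.two [11] [7])]),(20,[(1,.two [20] [7])]),(5,[(1,.two [4] [5])]),(14,[(1,.two [4] [14])]),(23,[(1,.two [4] [23])]),(13,[(1,.two [13] [5])]),(22,[(1,.two [22] [5])]),(24,[(1,.two [1,1,25] [1,2,24])]),(3,[(1,.two [3,7,17] [17,17,20])]),(12,[(1,.two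 [1,12,14] [14,14,26])]),(15,[(1,.two [1,13,13] [13,15,26])]),(21,[(1,.two [2,2,23] [2,4,21])]),(6,[(1,.two [5,6,16] [16,16,22])]),(9,[(1,.hd 3 3)]),(18,[(1,.hd 3 6)])]⟩

theorem k27_10 : chk 27 10 c27_10 = true := by decide +kernel

def c27_26 : Cert :=
  ⟨[1,26],[1,2,4,5,7,8,10,11,13,14,16,17,19,20,22,23,25,26],[],[[],[],[],[],[],[],[],[],[],[],[],[],[],[],[],[],[],[],[],[],[],[],[],[],[],[],[]],[1],[],[],1,[(2,[(1,.one [2])]),(3,[(1,.one [3])]),(4,[(1,.one [4])]),(5,[(1,.one [5])]),(6,[(1,.one [6])]),(7,[(1,.one [7])]),(8,[(1,.one [8])]),(9,[(1,.one [9])]),(10,[(1,.one [10])]),(11,[(1,.one [11])]),(12,[(1,.one [12])]),(13,[(1,.one [13])]),(14,[(1,.one [14])]),(15,[(1,.one [15])]),(16,[(1,.one [16])]),(17,[(1,.one [17])]),(18,[(1,.one [18])]),(19,[(1,.one [19])]),(20,[(1,.one [20])]),(21,[(1,.one [21])]),(22,[(1,.one [22])]),(23,[(1,.one [23])]),(24,[(1,.one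 [24])]),(25,[(1,.one [25])]),(26,[(1,.one [26])])]⟩

theorem k27_26 : chk 27 26 c27_26 = true := by decide +kernel

theorem all27 : ∀ x < 27, x.Coprime 27 → Full 27 x := by
  intro x hx hc
  interval_cases x
  · exact absurd hc (by decide)
  · exact full_of_chk k27_1
  · exact full_of_chk k27_2
  · exact absurd hc (by decide)
  · exact full_of_chk k27_4
  · exact full_same 5 11 k27_2 (by decide) (by decide)
  · exact absurd hc (by decide)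
  · exact full_same 8 8 k27_4 (by decide) (by decide)
  · exact full_of_chk k27_8
  · exact absurd hc (by decide)
  · exact full_of_chk k27_10
  · exact full_same 13 7 k27_2 (by decide) (by decide)
  · exact absurd hc (by decide)
  · exact full_same 4 7 k27_4 (by decide) (by decide)
  · exact full_same 17 17 k27_2 (by decide) (by decide)
  · exact absurd hc (by decide)
  · exact full_same 2 5 k27_4 (by decide) (by decide)
  · exact full_same 5 5 k27_8 (by decide) (by decide)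
  · exact absurd hc (by decide)
  · exact full_same 2 2 k27_10 (by decide) (by decide)
  · exact full_same 7 13 k27_2 (by decide) (by decide)
  · exact absurd hc (by decide)
  · exact full_same 7 4 k27_4 (by decide) (by decide)
  · exact full_same 11 5 k27_2 (by decide) (by decide)
  · exact absurd hc (by decide)
  · exact full_same 5 2 k27_4 (by decide) (by decide)
  · exact full_of_chk k27_26

end Pool.Agent.N997.TF
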