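import Pool.Agent.N997.TF.Same

/-!
Degree 28: certificates.
-/

set_option maxRecDepth 100000

namespace Pool.Agent.N997.TF

def c28_1 : Cert :=
  ⟨[1],[1,3,5,9,11,13,15,17,19,23,25,27],[1,2,3,4,5,6],[[],[1,0,0,0,0,0],[0,1,0,0,0,0],[0,0,1,0,0,0],[0,0,0,1,0,0],[0,0,0,0,1,0],[0,0,0,0,0,1],[1,-1,-1,0,1,1],[0,-1,0,1,0,1],[0,-1,0,0,1,1],[0,1,0,0,0,-1],[0,0,1,0,0,-1],[0,1,0,-1,0,0],[1,-1,0,0,0,0],[0,0,0,0,0,0],[-1,1,0,0,0,0],[0,-1,0,1,0,0],[0,0,-1,0,0,1],[0,-1,0,0,0,1],[0,1,0,0,-1,-1],[0,1,0,-1,0,-1],[-1,1,1,0,-1,-1],[0,0,0,0,0,-1],[0,0,0,0,-1,0],[0,0,0,-1,0,0],[0,0,-1,0,0,0],[0,-1,0,0,0,0],[-1,0,0,0,0,0]],[14],[1,3,5,9,11,13],[[-1,0,-1,-1,0,-1],[1,-2,0,1,1,1],[0,-1,1,1,-1,0],[-1,1,1,-1,-1,1],[-1,1,0,0,1,-1],[-1,2,-1,0,0,0]],56,[(27,[(1,.two [1] [27])]),(26,[(1,.two [2] [26])]),(25,[(1,.two [3] [25])]),(24,[(1,.two [4] [24])]),(23,[(1,.two [5] [23])]),(22,[(1,.two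 [6] [22])]),(15,[(1,.dup 1)]),(16,[(1,.dup 2)]),(17,[(1,.dup 3)]),(8,[(1,.dup 8)]),(11,[(1,.dup 11)]),(12,[(1,.dup 12)]),(13,[(1,.dup 13)]),(18,[(1,.two [2,2,24] [16,18,22])]),(20,[(1,.two [2,6,20] [4,26,26])]),(10,[(1,.two [6,10,12] [4,26,26])]),(9,[(1,.two [4,4,20] [9,23,24])]),(19,[(1,.two [4,5,19] [8,24,24])]),(21,[(1,.two [1,2,25] [9,21,26])]),(7,[(1,.two [2,7,19] [3,26,27])])]⟩

theorem k28_1 : chk 28 1 c28_1 = true := by decide +kernel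

def c28_3 : Cert :=
  ⟨[1,3,9,27,25,19],[1,3,5,9,11,13,15,17,19,23,25,27],[],[[],[],[],[],[],[],[],[],[],[],[],[],[],[],[],[],[],[],[],[],[],[],[],[],[],[],[],[]],[1],[],[],1,[(2,[(1,.one [2])]),(3,[(1,.one [3])]),(4,[(1,.one [4])]),(5,[(1,.one [5])]),(6,[(1,.one [6])]),(7,[(1,.one [7])]),(8,[(1,.one [8])]),(9,[(1,.one [9])]),(10,[(1,.one [10])]),(11,[(1,.one [11])]),(12,[(1,.one [12])]),(13,[(1,.one [13])]),(14,[(1,.one [14])]),(15,[(1,.one [15])]),(16,[(1,.one [16])]),(17,[(1,.one [17])]),(18,[(1,.one [18])]),(19,[(1,.one [19])]),(20,[(1,.one [20])]),(21,[(1,.one [21])]),(22,[(1,.one [22])]),(23,[(1,.one [23])]),(24,[(1,.one [24])]),(25,[(1,.one [25])]),(26,[(1,.one [26])]),(27,[(1,.one [27])])]⟩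

theorem k28_3 : chk 28 3 c28_3 = true := by decide +kernel

def c28_5 : Cert :=
  ⟨[1,5,25,13,9,17],[1,3,5,9,11,13,15,17,19,23,25,27],[1],[[],[1],[0],[-1],[0],[1],[0],[3],[0],[1],[0],[-1],[0],[1],[0],[-1],[0],[1],[0],[-1],[0],[-3],[0],[-1],[0],[1],[0],[-1]],[2],[1],[[-1]],28,[(4,[(1,.one [4])]),(6,[(1,.one [6])]),(8,[(1,.one [8])]),(10,[(1,.one [10])]),(12,[(1,.one [12])]),(14,[(1,.one [14])]),(16,[(1,.one [16])]),(18,[(1,.one [18])]),(20,[(1,.one [20])]),(22,[(1,.one [22])]),(24,[(1,.one [24])]),(26,[(1,.one [26])]),(3,[(1,.two [1] [3])]),(11,[(1,.two [1] [11])]),(15,[(1,.two [1] [15])]),(19,[(1,.two [1] [19])]),(23,[(1,.two [1] [23])]),(27,[(1,.two [1] [27])]),(5,[(1,.two [5] [3])]),(9,[(1,.two [9] [3])]),(13,[(1,.two [13] [3])]),(17,[(1,.two [17] [3])]),(25,[(1,.two [25] [3])]),(21,[(1,.two [1,1,26] [1,6,21])]),(7,[(1,.two [2,7,19] [2,27,27])])]⟩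

theorem k28_5 : chk 28 5 c28_5 = true := by decide +kernel

def c28_9 : Cert :=
  ⟨[1,9,25],[1,3,5,9,11,13,15,17,19,23,25,27],[1,4],[[],[1,0],[0,0],[-1,0],[0,1],[1,0],[0,0],[3,0],[0,1],[1,0],[0,0],[-1,0],[0,-1],[1,0],[0,0],[-1,0],[0,1],[1,0],[0,0],[-1,0],[0,-1],[-3,0],[0,0],[-1,0],[0,-1],[1,0],[0,0],[-1,0]],[2],[1,5],[[-2,-2],[-1,1]],56,[(6,[(1,.one [6])]),(10,[(1,.one [10])]),(14,[(1,.one [14])]),(18,[(1,.one [18])]),(22,[(1,.one [22])]),(26,[(1,.one [26])]),(3,[(1,.two [1] [3])]),(11,[(1,.two [1] [11])]),(15,[(1,.two [1] [15])]),(19,[(1,.two [1] [19])]),(23,[(1,.two [1] [23])]),(27,[(1,.two [1] [27])]),(5,[(1,.two [5] [3])]),(9,[(1,.two [9] [3])]),(13,[(1,.two [13] [3])]),(17,[(1,.two [17] [3])]),(25,[(1,.two [25] [3])]),(12,[(1,.two [4] [12])]),(20,[(1,.two [4] [20])]),(24,[(1,.two [4] [24])]),(8,[(1,.two [8] [12])]),(16,[(1,.two [16] [12])]),(21,[(1,.two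 [1,1,26] [1,6,21])]),(7,[(1,.two [2,7,19] [2,27,27])])]⟩

theorem k28_9 : chk 28 9 c28_9 = true := by decide +kernel

def c28_11 : Cert :=
  ⟨[1,11,9,15,25,23],[1,3,5,9,11,13,15,17,19,23,25,27],[4],[[],[0],[0],[0],[1],[0],[0],[0],[1],[0],[0],[0],[-1],[0],[0],[0],[1],[0],[0],[0],[-1],[0],[0],[0],[-1],[0],[0],[0]],[1],[1],[[-1]],56,[(2,[(1,.one [2])]),(3,[(1,.one [3])]),(5,[(1,.one [5])]),(6,[(1,.one [6])]),(7,[(1,.one [7])]),(9,[(1,.one [9])]),(10,[(1,.one [10])]),(11,[(1,.one [11])]),(13,[(1,.one [13])]),(14,[(1,.one [14])]),(15,[(1,.one [15])]),(17,[(1,.one [17])]),(18,[(1,.one [18])]),(19,[(1,.one [19])]),(21,[(1,.one [21])]),(22,[(1,.one [22])]),(23,[(1,.one [23])]),(25,[(1,.one [25])]),(26,[(1,.one [26])]),(27,[(1,.one [27])]),(12,[(1,.two [4] [12])]),(20,[(1,.two [4] [20])]),(24,[(1,.two [4] [24])]),(8,[(1,.two [8] [12])]),(16,[(1,.two [16] [12])])]⟩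

theorem k28_11 : chk 28 11 c28_11 = true := by decide +kernel

def c28_13 : Cert :=
  ⟨[1,13],[1,3,5,9,11,13,15,17,19,23,25,27],[1,3,5],[[],[1,0,0],[0,0,0],[0,1,0],[0,0,0],[0,0,1],[0,0,0],[1,-1,1],[0,0,0],[0,0,1],[0,0,0],[0,1,0],[0,0,0],[1,0,0],[0,0,0],[-1,0,0],[0,0,0],[0,-1,0],[0,0,0],[0,0,-1],[0,0,0],[-1,1,-1],[0,0,0],[0,0,-1],[0,0,0],[0,-1,0],[0,0,0],[-1,0,0]],[2],[1,3,5],[[-1,0,-1],[0,-1,1],[-1,1,0]],56,[(4,[(1,.one [4])]),(6,[(1,.one [6])]),(8,[(1,.one [8])]),(10,[(1,.one [10])]),(12,[(1,.one [12])]),(14,[(1,.one [14])]),(16,[(1,.one [16])]),(18,[(1,.one [18])]),(20,[(1,.one [20])]),(22,[(1,.one [22])]),(24,[(1,.one [24])]),(26,[(1,.one [26])]),(15,[(1,.two [1] [15])]),(27,[(1,.two [1] [27])]),(13,[(1,.two [13] [15])]),(17,[(1,.two [3] [17])]),(25,[(1,.two [3] [25])]),(11,[(1,.two [11] [17])]),(19,[(1,.two [5] [19])]),(23,[(1,.two [5] [23])]),(9,[(1,.two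 [9] [19])]),(21,[(1,.two [1,2,25] [2,5,21])]),(7,[(1,.two [2,7,19] [2,5,21])])]⟩

theorem k28_13 : chk 28 13 c28_13 = true := by decide +kernel

def c28_15 : Cert :=
  ⟨[1,15],[1,3,5,9,11,13,15,17,19,23,25,27],[1,3,4],[[],[1,0,0],[2,0,0],[0,1,0],[0,0,1],[1,-1,0],[0,2,0],[0,0,0],[-2,2,1],[-1,1,0],[2,-2,0],[0,-1,0],[2,0,-1],[-1,0,0],[0,0,0],[1,0,0],[-2,0,1],[0,1,0],[-2,2,0],[1,-1,0],[2,-2,-1],[0,0,0],[0,-2,0],[-1,1,0],[0,0,-1],[0,-1,0],[-2,0,0],[-1,0,0]],[7],[1,3,5],[[0,-3,-1],[-1,2,-1],[-1,1,1]],56,[(14,[(1,.one [14])]),(21,[(1,.one [21])]),(13,[(1,.two [1] [13])]),(27,[(1,.two [1] [27])]),(15,[(1,.two [15] [13])]),(11,[(1,.two [3] [11])]),(25,[(1,.two [3] [25])]),(17,[(1,.two [17] [11])]),(24,[(1,.two [4] [24])]),(26,[(1,.one [1,1,26])]),(2,[(1,.one [2,13,13])]),(22,[(1,.one [3,3,22])]),(6,[(1,.one [6,11,11])]),(16,[(1,.dup 2)]),(8,[(1,.dup 8)]),(12,[(1,.dup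 12)]),(18,[(1,.two [1,2,25] [13,18,25])]),(10,[(1,.two [1,10,17] [13,17,26])]),(20,[(1,.two [1,7,20] [7,8,13])]),(23,[(1,.two [1,2,25] [7,23,26])]),(9,[(1,.two [1,2,25] [9,21,26])]),(5,[(1,.two [2,5,21] [3,26,27])]),(19,[(1,.two [2,7,19] [3,26,27])])]⟩

theorem k28_15 : chk 28 15 c28_15 = true := by decide +kernel

def c28_27 : Cert :=
  ⟨[1,27],[1,3,5,9,11,13,15,17,19,23,25,27],[],[[],[],[],[],[],[],[],[],[],[],[],[],[],[],[],[],[],[],[],[],[],[],[],[],[],[],[],[]],[1],[],[],1,[(2,[(1,.one [2])]),(3,[(1,.one [3])]),(4,[(1,.one [4])]),(5,[(1,.one [5])]),(6,[(1,.one [6])]),(7,[(1,.one [7])]),(8,[(1,.one [8])]),(9,[(1,.one [9])]),(10,[(1,.one [10])]),(11,[(1,.one [11])]),(12,[(1,.one [12])]),(13,[(1,.one [13])]),(14,[(1,.one [14])]),(15,[(1,.one [15])]),(16,[(1,.one [16])]),(17,[(1,.one [17])]),(18,[(1,.one [18])]),(19,[(1,.one [19])]),(20,[(1,.one [20])]),(21,[(1,.one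 [21])]),(22,[(1,.one [22])]),(23,[(1,.one [23])]),(24,[(1,.one [24])]),(25,[(1,.one [25])]),(26,[(1,.one [26])]),(27,[(1,.one [27])])]⟩

theorem k28_27 : chk 28 27 c28_27 = true := by decide +kernel

theorem all28 : ∀ x < 28, x.Coprime 28 → Full 28 x := by
  intro x hx hc
  interval_cases x
  · exact absurd hc (by decide)
  · exact full_of_chk k28_1
  · exact absurd hc (by decide)
  · exact full_of_chk k28_3
  · exact absurd hc (by decide)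
  · exact full_of_chk k28_5
  · exact absurd hc (by decide)
  · exact absurd hc (by decide)
  · exact absurd hc (by decide)
  · exact full_of_chk k28_9
  · exact absurd hc (by decide)
  · exact full_of_chk k28_11
  · exact absurd hc (by decide)
  · exact full_of_chk k28_13
  · exact absurd hc (by decide)
  · exact full_of_chk k28_15
  · exact absurd hc (by decide)
  · exact full_same 5 5 k28_5 (by decide) (by decide)
  · exact absurd hc (by decide)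
  · exact full_same 5 5 k28_3 (by decide) (by decide)
  · exact absurd hc (by decide)
  · exact absurd hc (by decide)
  · exact absurd hc (by decide)
  · exact full_same 5 5 k28_11 (by decide) (by decide)
  · exact absurd hc (by decide)
  · exact full_same 2 2 k28_9 (by decide) (by decide)
  · exact absurd hc (by decide)
  · exact full_of_chk k28_27

end Pool.Agent.N997.TF
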