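import Pool.Agent.N997.TF.Same

/-!
Degree 29: certificates.
-/

set_option maxRecDepth 100000

namespace Pool.Agent.N997.TF

def c29_1 : Cert :=
  ⟨[1],[1,2,3,4,5,6,7,8,9,10,11,12,13,14,15,16,17,18,19,20,21,22,23,24,25,26,27,28],[1,2,3,4,5,6,7,8,9,10,11,12,13,14],[[],[1,0,0,0,0,0,0,0,0,0,0,0,0,0],[0,1,0,0,0,0,0,0,0,0,0,0,0,0],[0,0,1,0,0,0,0,0,0,0,0,0,0,0],[0,0,0,1,0,0,0,0,0,0,0,0,0,0],[0,0,0,0,1,0,0,0,0,0,0,0,0,0],[0,0,0,0,0,1,0,0,0,0,0,0,0,0],[0,0,0,0,0,0,1,0,0,0,0,0,0,0],[0,0,0,0,0,0,0,1,0,0,0,0,0,0],[0,0,0,0,0,0,0,0,1,0,0,0,0,0],[0,0,0,0,0,0,0,0,0,1,0,0,0,0],[0,0,0,0,0,0,0,0,0,0,1,0,0,0],[0,0,0,0,0,0,0,0,0,0,0,1,0,0],[0,0,0,0,0,0,0,0,0,0,0,0,1,0],[0,0,0,0,0,0,0,0,0,0,0,0,0,1],[0,0,0,0,0,0,0,0,0,0,0,0,0,-1],[0,0,0,0,0,0,0,0,0,0,0,0,-1,0],[0,0,0,0,0,0,0,0,0,0,0,-1,0,0],[0,0,0,0,0,0,0,0,0,0,-1,0,0,0],[0,0,0,0,0,0,0,0,0,-1,0,0,0,0],[0,0,0,0,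0,0,0,0,-1,0,0,0,0,0],[0,0,0,0,0,0,0,-1,0,0,0,0,0,0],[0,0,0,0,0,0,-1,0,0,0,0,0,0,0],[0,0,0,0,0,-1,0,0,0,0,0,0,0,0],[0,0,0,0,-1,0,0,0,0,0,0,0,0,0],[0,0,0,-1,0,0,0,0,0,0,0,0,0,0],[0,0,-1,0,0,0,0,0,0,0,0,0,0,0],[0,-1,0,0,0,0,0,0,0,0,0,0,0,0],[-1,0,0,0,0,0,0,0,0,0,0,0,0,0]],[],[1,2,3,4,5,6,7,8,9,10,11,12,13,14],[[0,-1,-1,0,-1,0,-1,-1,-1,0,-1,0,-1,0],[-1,0,0,-1,0,0,0,1,1,1,1,1,1,0],[-1,0,-1,0,0,1,1,1,1,0,0,-1,0,-1],[0,-1,0,1,1,1,0,-1,-1,-1,0,0,0,1],[-1,0,0,1,0,0,0,-1,1,1,1,-1,-1,0],[0,0,1,1,0,-1,-1,0,0,-1,-1,0,1,1],[-1,0,1,0,0,-1,1,1,-1,0,0,1,0,-1],[-1,1,1,-1,-1,0,1,0,0,1,0,-1,0,0],[-1,1,1,-1,1,0,-1,0,0,-1,0,1,0,0],[0,1,0,-1,1,-1,0,1,-1,-1,0,0,0,1],[-1,1,0,0,1,-1,0,0,0,0,-1,1,1,-1],[0,1,-1,0,-1,0,1,-1,1,0,1,0,-1,0],[-1,1,0,0,-1,1,0,0,0,0,1,-1,1,-1],[0,0,-1,1,0,1,-1,0,0,1,-1,0,-1,1]],116,[(28,[(1,.two [1] [28])]),(27,[(1,.two [2] [27])]),(26,[(1,.two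 [3] [26])]),(25,[(1,.two [4] [25])]),(24,[(1,.two [5] [24])]),(23,[(1,.two [6] [23])]),(22,[(1,.two [7] [22])]),(21,[(1,.two [8] [21])]),(20,[(1,.two [9] [20])]),(19,[(1,.two [10] [19])]),(18,[(1,.two [11] [18])]),(17,[(1,.two [12] [17])]),(16,[(1,.two [13] [16])]),(15,[(1,.two [14] [15])])]⟩

theorem k29_1 : chk 29 1 c29_1 = true := by decide +kernel

def c29_2 : Cert :=
  ⟨[1,2,4,8,16,3,6,12,24,19,9,18,7,14,28,27,25,21,13,26,23,17,5,10,20,11,22,15],[1,2,3,4,5,6,7,8,9,10,11,12,13,14,15,16,17,18,19,20,21,22,23,24,25,26,27,28],[],[[],[],[],[],[],[],[],[],[],[],[],[],[],[],[],[],[],[],[],[],[],[],[],[],[],[],[],[],[]],[1],[],[],1,[(2,[(1,.one [2])]),(3,[(1,.one [3])]),(4,[(1,.one [4])]),(5,[(1,.one [5])]),(6,[(1,.one [6])]),(7,[(1,.one [7])]),(8,[(1,.one [8])]),(9,[(1,.one [9])]),(10,[(1,.one [10])]),(11,[(1,.one [11])]),(12,[(1,.one [12])]),(13,[(1,.one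 [13])]),(14,[(1,.one [14])]),(15,[(1,.one [15])]),(16,[(1,.one [16])]),(17,[(1,.one [17])]),(18,[(1,.one [18])]),(19,[(1,.one [19])]),(20,[(1,.one [20])]),(21,[(1,.one [21])]),(22,[(1,.one [22])]),(23,[(1,.one [23])]),(24,[(1,.one [24])]),(25,[(1,.one [25])]),(26,[(1,.one [26])]),(27,[(1,.one [27])]),(28,[(1,.one [28])])]⟩

theorem k29_2 : chk 29 2 c29_2 = true := by decide +kernel

def c29_4 : Cert :=
  ⟨[1,4,16,6,24,9,7,28,25,13,23,5,20,22],[1,2,3,4,5,6,7,8,9,10,11,12,13,14,15,16,17,18,19,20,21,22,23,24,25,26,27,28],[],[[],[],[],[],[],[],[],[],[],[],[],[],[],[],[],[],[],[],[],[],[],[],[],[],[],[],[],[],[]],[1],[],[],1,[(2,[(1,.one [2])]),(3,[(1,.one [3])]),(4,[(1,.one [4])]),(5,[(1,.one [5])]),(6,[(1,.one [6])]),(7,[(1,.one [7])]),(8,[(1,.one [8])]),(9,[(1,.one [9])]),(10,[(1,.one [10])]),(11,[(1,.one [11])]),(12,[(1,.one [12])]),(13,[(1,.one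 [13])]),(14,[(1,.one [14])]),(15,[(1,.one [15])]),(16,[(1,.one [16])]),(17,[(1,.one [17])]),(18,[(1,.one [18])]),(19,[(1,.one [19])]),(20,[(1,.one [20])]),(21,[(1,.one [21])]),(22,[(1,.one [22])]),(23,[(1,.one [23])]),(24,[(1,.one [24])]),(25,[(1,.one [25])]),(26,[(1,.one [26])]),(27,[(1,.one [27])]),(28,[(1,.one [28])])]⟩

theorem k29_4 : chk 29 4 c29_4 = true := by decide +kernel

def c29_7 : Cert :=
  ⟨[1,7,20,24,23,16,25],[1,2,3,4,5,6,7,8,9,10,11,12,13,14,15,16,17,18,19,20,21,22,23,24,25,26,27,28],[1,2],[[],[1,0],[0,1],[0,1],[-1,0],[-1,0],[-1,0],[1,0],[0,-1],[-1,0],[0,-1],[0,1],[0,-1],[-1,0],[0,1],[0,-1],[1,0],[0,1],[0,-1],[0,1],[1,0],[0,1],[-1,0],[1,0],[1,0],[1,0],[0,-1],[0,-1],[-1,0]],[],[1,2],[[1,-1],[-1,-1]],58,[(8,[(1,.two [2] [8])]),(10,[(1,.two [2] [10])]),(12,[(1,.two [2] [12])]),(15,[(1,.two [2] [15])]),(18,[(1,.two [2] [18])]),(26,[(1,.two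 [2] [26])]),(27,[(1,.two [2] [27])]),(3,[(1,.two [3] [8])]),(11,[(1,.two [11] [8])]),(14,[(1,.two [14] [8])]),(17,[(1,.two [17] [8])]),(19,[(1,.two [19] [8])]),(21,[(1,.two [21] [8])]),(4,[(1,.two [4] [1])]),(7,[(1,.two [4] [7])]),(16,[(1,.two [4] [16])]),(20,[(1,.two [4] [20])]),(23,[(1,.two [4] [23])]),(24,[(1,.two [4] [24])]),(25,[(1,.two [4] [25])]),(5,[(1,.two [5] [1])]),(6,[(1,.two [6] [1])]),(9,[(1,.two [9] [1])]),(13,[(1,.two [13] [1])]),(22,[(1,.two [22] [1])]),(28,[(1,.two [28] [1])])]⟩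

theorem k29_7 : chk 29 7 c29_7 = true := by decide +kernel

def c29_12 : Cert :=
  ⟨[1,12,28,17],[1,2,3,4,5,6,7,8,9,10,11,12,13,14,15,16,17,18,19,20,21,22,23,24,25,26,27,28],[],[[],[],[],[],[],[],[],[],[],[],[],[],[],[],[],[],[],[],[],[],[],[],[],[],[],[],[],[],[]],[1],[],[],1,[(2,[(1,.one [2])]),(3,[(1,.one [3])]),(4,[(1,.one [4])]),(5,[(1,.one [5])]),(6,[(1,.one [6])]),(7,[(1,.one [7])]),(8,[(1,.one [8])]),(9,[(1,.one [9])]),(10,[(1,.one [10])]),(11,[(1,.one [11])]),(12,[(1,.one [12])]),(13,[(1,.one [13])]),(14,[(1,.one [14])]),(15,[(1,.one [15])]),(16,[(1,.one [16])]),(17,[(1,.one [17])]),(18,[(1,.one [18])]),(19,[(1,.one [19])]),(20,[(1,.one [20])]),(21,[(1,.one [21])]),(22,[(1,.one [22])]),(23,[(1,.one [23])]),(24,[(1,.one [24])]),(25,[(1,.one [25])]),(26,[(1,.one [26])]),(27,[(1,.one [27])]),(28,[(1,.one [28])])]⟩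

theorem k29_12 : chk 29 12 c29_12 = true := by decide +kernel

def c29_28 : Cert :=
  ⟨[1,28],[1,2,3,4,5,6,7,8,9,10,11,12,13,14,15,16,17,18,19,20,21,22,23,24,25,26,27,28],[],[[],[],[],[],[],[],[],[],[],[],[],[],[],[],[],[],[],[],[],[],[],[],[],[],[],[],[],[],[]],[1],[],[],1,[(2,[(1,.one [2])]),(3,[(1,.one [3])]),(4,[(1,.one [4])]),(5,[(1,.one [5])]),(6,[(1,.one [6])]),(7,[(1,.one [7])]),(8,[(1,.one [8])]),(9,[(1,.one [9])]),(10,[(1,.one [10])]),(11,[(1,.one [11])]),(12,[(1,.one [12])]),(13,[(1,.one [13])]),(14,[(1,.one [14])]),(15,[(1,.one [15])]),(16,[(1,.one [16])]),(17,[(1,.one [17])]),(18,[(1,.one [18])]),(19,[(1,.one [19])]),(20,[(1,.one [20])]),(21,[(1,.one [21])]),(22,[(1,.one [22])]),(23,[(1,.one [23])]),(24,[(1,.one [24])]),(25,[(1,.one [25])]),(26,[(1,.one [26])]),(27,[(1,.one [27])]),(28,[(1,.one [28])])]⟩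

theorem k29_28 : chk 29 28 c29_28 = true := by decide +kernel

theorem all29 : ∀ x < 29, x.Coprime 29 → Full 29 x := by
  intro x hx hc
  interval_cases x
  · exact absurd hc (by decide)
  · exact full_of_chk k29_1
  · exact full_of_chk k29_2
  · exact full_same 5 17 k29_2 (by decide) (by decide)
  · exact full_of_chk k29_4
  · exact full_same 11 9 k29_4 (by decide) (by decide)
  · exact full_same 3 5 k29_4 (by decide) (by decide)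
  · exact full_of_chk k29_7
  · exact full_same 3 19 k29_2 (by decide) (by decide)
  · exact full_same 5 3 k29_4 (by decide) (by decide)
  · exact full_same 23 11 k29_2 (by decide) (by decide)
  · exact full_same 25 9 k29_2 (by decide) (by decide)
  · exact full_of_chk k29_12
  · exact full_same 9 11 k29_4 (by decide) (by decide)
  · exact full_same 13 13 k29_2 (by decide) (by decide)
  · exact full_same 27 27 k29_2 (by decide) (by decide)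
  · exact full_same 5 3 k29_7 (by decide) (by decide)
  · exact full_same 3 3 k29_12 (by decide) (by decide)
  · exact full_same 11 23 k29_2 (by decide) (by decide)
  · exact full_same 9 25 k29_2 (by decide) (by decide)
  · exact full_same 2 4 k29_7 (by decide) (by decide)
  · exact full_same 17 5 k29_2 (by decide) (by decide)
  · exact full_same 13 13 k29_4 (by decide) (by decide)
  · exact full_same 4 2 k29_7 (by decide) (by decide)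
  · exact full_same 3 5 k29_7 (by decide) (by decide)
  · exact full_same 6 6 k29_7 (by decide) (by decide)
  · exact full_same 19 3 k29_2 (by decide) (by decide)
  · exact full_same 15 15 k29_2 (by decide) (by decide)
  · exact full_of_chk k29_28

end Pool.Agent.N997.TF
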