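import Pool.Agent.N997.TF.Same

/-!
Degree 3: certificates.
-/

set_option maxRecDepth 100000

namespace Pool.Agent.N997.TF

def c3_1 : Cert :=
  ⟨[1],[1,2],[1],[[],[1],[-1]],[],[1],[[-1]],1,[(2,[(1,.two [1] [2])])]⟩

theorem k3_1 : chk 3 1 c3_1 = true := by decide +kernel

def c3_2 : Cert :=
  ⟨[1,2],[1,2],[],[[],[],[]],[1],[],[],1,[(2,[(1,.one [2])])]⟩

theorem k3_2 : chk 3 2 c3_2 = true := by decide +kernel

theorem all3 : ∀ x < 3, x.Coprime 3 → Full 3 x := by
  intro x hx hc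
  interval_cases x
  · exact absurd hc (by decide)
  · exact full_of_chk k3_1
  · exact full_of_chk k3_2

end Pool.Agent.N997.TF
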