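import Pool.Agent.N997.TF.Same

/-!
Degree 30: certificates.
-/

set_option maxRecDepth 100000

namespace Pool.Agent.N997.TF

def c30_1 : Cert :=
  ⟨[1],[1,7,11,13,17,19,23,29],[1,2,3,6],[[],[1,0,0,0],[0,1,0,0],[0,0,1,0],[-1,1,1,0],[2,0,0,-2],[0,0,0,1],[1,0,1,-2],[0,1,1,-2],[0,0,-1,2],[1,0,0,-1],[-1,0,0,2],[0,0,1,-1],[1,0,-1,0],[1,-1,0,0],[0,0,0,0],[-1,1,0,0],[-1,0,1,0],[0,0,-1,1],[1,0,0,-2],[-1,0,0,1],[0,0,1,-2],[0,-1,-1,2],[-1,0,-1,2],[0,0,0,-1],[-2,0,0,2],[1,-1,-1,0],[0,0,-1,0],[0,-1,0,0],[-1,0,0,0]],[15],[1,7,11,13],[[-1,-2,1,-2],[-1,1,1,1],[-1,2,0,-1],[1,-1,-3,3]],60,[(29,[(1,.two [1] [29])]),(28,[(1,.two [2] [28])]),(27,[(1,.two [3] [27])]),(24,[(1,.two [6] [24])]),(9,[(1,.two [3,3,24] [9,24,27])]),(21,[(1,.two [3,6,21] [6,27,27])]),(16,[(1,.dup 1)]),(18,[(1,.dup 3)]),(12,[(1,.dup 6)]),(14,[(1,.dup 14)]),(11,[(1,.hd 3 1)]),(22,[(1,.hd 3 2)]),(4,[(1,.hd 3 4)]),(26,[(1,.hd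 3 6)]),(8,[(1,.hd 3 8)]),(19,[(1,.hd 3 9)]),(23,[(1,.two [1,1,28] [8,23,29])]),(25,[(1,.two [1,1,28] [8,25,27])]),(17,[(1,.two [1,1,28] [16,17,27])]),(20,[(1,.two [1,1,28] [16,20,24])]),(7,[(1,.two [1,7,22] [2,29,29])]),(5,[(1,.two [3,5,22] [2,29,29])]),(13,[(1,.two [3,13,14] [2,29,29])]),(10,[(1,.two [6,10,14] [2,29,29])])]⟩

theorem k30_1 : chk 30 1 c30_1 = true := by decide +kernel

def c30_7 : Cert :=
  ⟨[1,7,19,13],[1,7,11,13,17,19,23,29],[2],[[],[2],[1],[0],[-1],[4],[0],[2],[1],[0],[2],[-2],[0],[2],[1],[0],[-1],[-2],[0],[2],[-2],[0],[-1],[-2],[0],[-4],[1],[0],[-1],[-2]],[3],[1],[[-1]],20,[(6,[(1,.one [6])]),(9,[(1,.one [9])]),(12,[(1,.one [12])]),(15,[(1,.one [15])]),(18,[(1,.one [18])]),(21,[(1,.one [21])]),(24,[(1,.one [24])]),(27,[(1,.one [27])]),(4,[(1,.two [2] [4])]),(16,[(1,.two [2] [16])]),(22,[(1,.two [2] [22])]),(28,[(1,.two [2] [28])]),(8,[(1,.two [8]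 [4])]),(14,[(1,.two [14] [4])]),(26,[(1,.two [26] [4])]),(20,[(1,.one [2,8,20])]),(7,[(1,.one [3,7,20])]),(10,[(1,.one [4,10,16])]),(17,[(1,.one [6,7,17])]),(11,[(1,.one [7,11,12])]),(29,[(1,.one [7,24,29])]),(23,[(1,.one [10,23,27])]),(19,[(1,.one [12,19,29])]),(13,[(1,.one [13,18,29])]),(1,[(1,.two [3] [1,6,23])]),(25,[(1,.two [1,1,28] [1,4,25])]),(5,[(1,.two [2,5,23] [2,29,29])])]⟩

theorem k30_7 : chk 30 7 c30_7 = true := by decide +kernel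

def c30_11 : Cert :=
  ⟨[1,11],[1,7,11,13,17,19,23,29],[1,2],[[],[1,0],[0,1],[2,-2],[1,-1],[0,0],[1,0],[1,-2],[0,-1],[0,2],[0,0],[1,0],[1,-2],[-1,2],[1,-1],[0,0],[-1,1],[1,-2],[-1,2],[-1,0],[0,0],[0,-2],[0,1],[-1,2],[-1,0],[0,0],[-1,1],[-2,2],[0,-1],[-1,0]],[5],[1,7],[[-2,1],[1,-3]],60,[(10,[(1,.one [10])]),(15,[(1,.one [15])]),(20,[(1,.one [20])]),(25,[(1,.one [25])]),(19,[(1,.two [1] [19])]),(24,[(1,.two [1] [24])]),(29,[(1,.two [1] [29])]),(6,[(1,.two [6] [19])]),(11,[(1,.two [11] [19])]),(8,[(1,.two [2] [8])]),(28,[(1,.two [2] [28])]),(22,[(1,.two [22] [8])]),(4,[(1,.one [2,4,24])]),(18,[(1,.one [4,8,18])]),(16,[(1,.one [4,10,16])]),(7,[(1,.one [5,7,18])]),(26,[(1,.one [6,26,28])]),(13,[(1,.one [7,10,13])]),(12,[(1,.one [12,22,26])]),(23,[(1,.one [12,23,25])]),(14,[(1,.one [14,18,28])]),(17,[(1,.one [17,18,25])]),(27,[(1,.two [1,1,28] [5,27,28])]),(3,[(1,.two [1,3,26]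 [8,26,26])]),(21,[(1,.two [2,2,26] [2,7,21])]),(9,[(1,.two [5,9,16] [7,7,16])])]⟩

theorem k30_11 : chk 30 11 c30_11 = true := by decide +kernel

def c30_17 : Cert :=
  ⟨[1,17,19,23],[1,7,11,13,17,19,23,29],[2],[[],[0],[1],[0],[1],[0],[0],[0],[1],[0],[0],[0],[0],[0],[-1],[0],[1],[0],[0],[0],[0],[0],[-1],[0],[0],[0],[-1],[0],[-1],[0]],[1],[1],[[-1]],60,[(3,[(1,.one [3])]),(5,[(1,.one [5])]),(6,[(1,.one [6])]),(7,[(1,.one [7])]),(9,[(1,.one [9])]),(10,[(1,.one [10])]),(11,[(1,.one [11])]),(12,[(1,.one [12])]),(13,[(1,.one [13])]),(15,[(1,.one [15])]),(17,[(1,.one [17])]),(18,[(1,.one [18])]),(19,[(1,.one [19])]),(20,[(1,.one [20])]),(21,[(1,.one [21])]),(23,[(1,.one [23])]),(24,[(1,.one [24])]),(25,[(1,.one [25])]),(27,[(1,.one [27])]),(29,[(1,.one [29])]),(14,[(1,.two [2] [14])]),(22,[(1,.two [2] [22])]),(26,[(1,.two [2] [26])]),(28,[(1,.two [2] [28])]),(4,[(1,.two [4]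 [14])]),(8,[(1,.two [8] [14])]),(16,[(1,.two [16] [14])])]⟩

theorem k30_17 : chk 30 17 c30_17 = true := by decide +kernel

def c30_19 : Cert :=
  ⟨[1,19],[1,7,11,13,17,19,23,29],[1,2],[[],[1,0],[0,1],[0,0],[-1,1],[2,0],[0,0],[1,0],[0,1],[0,0],[1,0],[-1,0],[0,0],[1,0],[1,-1],[0,0],[-1,1],[-1,0],[0,0],[1,0],[-1,0],[0,0],[0,-1],[-1,0],[0,0],[-2,0],[1,-1],[0,0],[0,-1],[-1,0]],[3],[1,7],[[-1,-2],[-1,1]],60,[(6,[(1,.one [6])]),(9,[(1,.one [9])]),(12,[(1,.one [12])]),(15,[(1,.one [15])]),(18,[(1,.one [18])]),(21,[(1,.one [21])]),(24,[(1,.one [24])]),(27,[(1,.one [27])]),(11,[(1,.two [1] [11])]),(17,[(1,.two [1] [17])]),(20,[(1,.two [1] [20])]),(23,[(1,.two [1] [23])]),(29,[(1,.two [1] [29])]),(7,[(1,.two [7] [11])]),(10,[(1,.two [10] [11])]),(13,[(1,.two [13] [11])]),(19,[(1,.two [19] [11])]),(22,[(1,.two [2] [22])]),(28,[(1,.two [2] [28])]),(8,[(1,.two [8] [22])]),(5,[(1,.two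 [1,5,24] [20,20,20])]),(25,[(1,.two [5,5,20] [15,20,25])]),(16,[(1,.dup 1)]),(4,[(1,.dup 2)]),(14,[(1,.dup 7)]),(26,[(1,.dup 11)])]⟩

theorem k30_19 : chk 30 19 c30_19 = true := by decide +kernel

def c30_29 : Cert :=
  ⟨[1,29],[1,7,11,13,17,19,23,29],[],[[],[],[],[],[],[],[],[],[],[],[],[],[],[],[],[],[],[],[],[],[],[],[],[],[],[],[],[],[],[]],[1],[],[],1,[(2,[(1,.one [2])]),(3,[(1,.one [3])]),(4,[(1,.one [4])]),(5,[(1,.one [5])]),(6,[(1,.one [6])]),(7,[(1,.one [7])]),(8,[(1,.one [8])]),(9,[(1,.one [9])]),(10,[(1,.one [10])]),(11,[(1,.one [11])]),(12,[(1,.one [12])]),(13,[(1,.one [13])]),(14,[(1,.one [14])]),(15,[(1,.one [15])]),(16,[(1,.one [16])]),(17,[(1,.one [17])]),(18,[(1,.one [18])]),(19,[(1,.one [19])]),(20,[(1,.one [20])]),(21,[(1,.one [21])]),(22,[(1,.one [22])]),(23,[(1,.one [23])]),(24,[(1,.one [24])]),(25,[(1,.one [25])]),(26,[(1,.one [26])]),(27,[(1,.one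 [27])]),(28,[(1,.one [28])]),(29,[(1,.one [29])])]⟩

theorem k30_29 : chk 30 29 c30_29 = true := by decide +kernel

theorem all30 : ∀ x < 30, x.Coprime 30 → Full 30 x := by
  intro x hx hc
  interval_cases x
  · exact absurd hc (by decide)
  · exact full_of_chk k30_1
  · exact absurd hc (by decide)
  · exact absurd hc (by decide)
  · exact absurd hc (by decide)
  · exact absurd hc (by decide)
  · exact absurd hc (by decide)
  · exact full_of_chk k30_7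
  · exact absurd hc (by decide)
  · exact absurd hc (by decide)
  · exact absurd hc (by decide)
  · exact full_of_chk k30_11
  · exact absurd hc (by decide)
  · exact full_same 3 3 k30_7 (by decide) (by decide)
  · exact absurd hc (by decide)
  · exact absurd hc (by decide)
  · exact absurd hc (by decide)
  · exact full_of_chk k30_17
  · exact absurd hc (by decide)
  · exact full_of_chk k30_19
  · exact absurd hc (by decide)
  · exact absurd hc (by decide)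
  · exact absurd hc (by decide)
  · exact full_same 3 3 k30_17 (by decide) (by decide)
  · exact absurd hc (by decide)
  · exact absurd hc (by decide)
  · exact absurd hc (by decide)
  · exact absurd hc (by decide)
  · exact absurd hc (by decide)
  · exact full_of_chk k30_29

end Pool.Agent.N997.TF
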