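import Pool.Agent.N997.TF.Same

/-!
Degree 31: certificates.
-/

set_option maxRecDepth 100000

namespace Pool.Agent.N997.TF

def c31_1 : Cert :=
  ⟨[1],[1,2,3,4,5,6,7,8,9,10,11,12,13,14,15,16,17,18,19,20,21,22,23,24,25,26,27,28,29,30],[1,2,3,4,5,6,7,8,9,10,11,12,13,14,15],[[],[1,0,0,0,0,0,0,0,0,0,0,0,0,0,0],[0,1,0,0,0,0,0,0,0,0,0,0,0,0,0],[0,0,1,0,0,0,0,0,0,0,0,0,0,0,0],[0,0,0,1,0,0,0,0,0,0,0,0,0,0,0],[0,0,0,0,1,0,0,0,0,0,0,0,0,0,0],[0,0,0,0,0,1,0,0,0,0,0,0,0,0,0],[0,0,0,0,0,0,1,0,0,0,0,0,0,0,0],[0,0,0,0,0,0,0,1,0,0,0,0,0,0,0],[0,0,0,0,0,0,0,0,1,0,0,0,0,0,0],[0,0,0,0,0,0,0,0,0,1,0,0,0,0,0],[0,0,0,0,0,0,0,0,0,0,1,0,0,0,0],[0,0,0,0,0,0,0,0,0,0,0,1,0,0,0],[0,0,0,0,0,0,0,0,0,0,0,0,1,0,0],[0,0,0,0,0,0,0,0,0,0,0,0,0,1,0],[0,0,0,0,0,0,0,0,0,0,0,0,0,0,1],[0,0,0,0,0,0,0,0,0,0,0,0,0,0,-1],[0,0,0,0,0,0,0,0,0,0,0,0,0,-1,0],[0,0,0,0,0,0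,0,0,0,0,0,0,-1,0,0],[0,0,0,0,0,0,0,0,0,0,0,-1,0,0,0],[0,0,0,0,0,0,0,0,0,0,-1,0,0,0,0],[0,0,0,0,0,0,0,0,0,-1,0,0,0,0,0],[0,0,0,0,0,0,0,0,-1,0,0,0,0,0,0],[0,0,0,0,0,0,0,-1,0,0,0,0,0,0,0],[0,0,0,0,0,0,-1,0,0,0,0,0,0,0,0],[0,0,0,0,0,-1,0,0,0,0,0,0,0,0,0],[0,0,0,0,-1,0,0,0,0,0,0,0,0,0,0],[0,0,0,-1,0,0,0,0,0,0,0,0,0,0,0],[0,0,-1,0,0,0,0,0,0,0,0,0,0,0,0],[0,-1,0,0,0,0,0,0,0,0,0,0,0,0,0],[-1,0,0,0,0,0,0,0,0,0,0,0,0,0,0]],[],[1,2,3,4,5,6,7,8,9,10,11,12,13,14,15],[[-1,-1,-2,-1,-4,-2,-7,-1,-4,-4,-5,-2,-5,2,1],[-1,-1,-2,-1,-4,-2,2,-1,5,5,4,7,4,2,1],[-2,-2,-4,-2,1,5,4,7,1,1,-1,-4,-1,-5,2],[-1,-1,-2,-1,5,7,2,-1,-4,-4,-5,-2,4,2,1],[-4,-4,1,5,2,1,-1,-4,2,2,7,1,-2,-1,-5],[-2,-2,5,7,1,-4,-5,-2,1,1,-1,-4,-1,4,2],[-7,2,4,2,-1,-5,5,2,-1,-1,1,4,1,-4,-2],[-1,-1,7,-1,-4,-2,2,-1,-4,5,4,-2,-5,2,1],[-4,5,1,-4,2,1,-1,-4,2,2,-2,1,7,-1,-5],[-4,5,1,-4,2,1,-1,5,2,-7,-2,1,-2,-1,4],[-5,4,-1,-5,7,-1,1,4,-2,-2,2,-1,2,1,-4],[-2,7,-4,-2,1,-4,4,-2,1,1,-1,5,-1,-5,2],[-5,4,-1,4,-2,-1,1,-5,7,-2,2,-1,2,1,-4],[2,2,-5,2,-1,4,-4,2,-1,-1,1,-5,1,-4,7],[1,1,2,1,-5,2,-2,1,-5,4,-4,2,-4,7,-1]],558,[(30,[(1,.two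 [1] [30])]),(29,[(1,.two [2] [29])]),(28,[(1,.two [3] [28])]),(27,[(1,.two [4] [27])]),(26,[(1,.two [5] [26])]),(25,[(1,.two [6] [25])]),(24,[(1,.two [7] [24])]),(23,[(1,.two [8] [23])]),(22,[(1,.two [9] [22])]),(21,[(1,.two [10] [21])]),(20,[(1,.two [11] [20])]),(19,[(1,.two [12] [19])]),(18,[(1,.two [13] [18])]),(17,[(1,.two [14] [17])]),(16,[(1,.two [15] [16])])]⟩

theorem k31_1 : chk 31 1 c31_1 = true := by decide +kernel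

def c31_2 : Cert :=
  ⟨[1,2,4,8,16],[1,2,3,4,5,6,7,8,9,10,11,12,13,14,15,16,17,18,19,20,21,22,23,24,25,26,27,28,29,30],[1,3,5],[[],[1,0,0],[1,0,0],[0,1,0],[1,0,0],[0,0,1],[0,1,0],[0,-1,0],[1,0,0],[0,0,1],[0,0,1],[0,0,-1],[0,1,0],[0,0,-1],[0,-1,0],[-1,0,0],[1,0,0],[0,1,0],[0,0,1],[0,-1,0],[0,0,1],[0,0,-1],[0,0,-1],[-1,0,0],[0,1,0],[0,-1,0],[0,0,-1],[-1,0,0],[0,-1,0],[-1,0,0],[-1,0,0]],[],[1,3,5],[[-5,-1,-2],[-1,-2,5],[-2,5,1]],558,[(15,[(1,.two [1] [15])]),(23,[(1,.two [1] [23])]),(27,[(1,.two [1] [27])]),(29,[(1,.two [1] [29])]),(30,[(1,.two [1] [30])]),(2,[(1,.two [2] [15])]),(4,[(1,.two [4] [15])]),(8,[(1,.two [8] [15])]),(16,[(1,.two [16] [15])]),(7,[(1,.two [3] [7])]),(14,[(1,.two [3] [14])]),(19,[(1,.two [3] [19])]),(25,[(1,.two [3] [25])]),(28,[(1,.two [3] [28])]),(6,[(1,.two [6] [7])]),(12,[(1,.two [12] [7])]),(17,[(1,.two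 [17] [7])]),(24,[(1,.two [24] [7])]),(11,[(1,.two [5] [11])]),(13,[(1,.two [5] [13])]),(21,[(1,.two [5] [21])]),(22,[(1,.two [5] [22])]),(26,[(1,.two [5] [26])]),(9,[(1,.two [9] [11])]),(10,[(1,.two [10] [11])]),(18,[(1,.two [18] [11])]),(20,[(1,.two [20] [11])])]⟩

theorem k31_2 : chk 31 2 c31_2 = true := by decide +kernel

def c31_3 : Cert :=
  ⟨[1,3,9,27,19,26,16,17,20,29,25,13,8,24,10,30,28,22,4,12,5,15,14,11,2,6,18,23,7,21],[1,2,3,4,5,6,7,8,9,10,11,12,13,14,15,16,17,18,19,20,21,22,23,24,25,26,27,28,29,30],[],[[],[],[],[],[],[],[],[],[],[],[],[],[],[],[],[],[],[],[],[],[],[],[],[],[],[],[],[],[],[],[]],[1],[],[],1,[(2,[(1,.one [2])]),(3,[(1,.one [3])]),(4,[(1,.one [4])]),(5,[(1,.one [5])]),(6,[(1,.one [6])]),(7,[(1,.one [7])]),(8,[(1,.one [8])]),(9,[(1,.one [9])]),(10,[(1,.one [10])]),(11,[(1,.one [11])]),(12,[(1,.one [12])]),(13,[(1,.one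 [13])]),(14,[(1,.one [14])]),(15,[(1,.one [15])]),(16,[(1,.one [16])]),(17,[(1,.one [17])]),(18,[(1,.one [18])]),(19,[(1,.one [19])]),(20,[(1,.one [20])]),(21,[(1,.one [21])]),(22,[(1,.one [22])]),(23,[(1,.one [23])]),(24,[(1,.one [24])]),(25,[(1,.one [25])]),(26,[(1,.one [26])]),(27,[(1,.one [27])]),(28,[(1,.one [28])]),(29,[(1,.one [29])]),(30,[(1,.one [30])])]⟩

theorem k31_3 : chk 31 3 c31_3 = true := by decide +kernel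

def c31_5 : Cert :=
  ⟨[1,5,25],[1,2,3,4,5,6,7,8,9,10,11,12,13,14,15,16,17,18,19,20,21,22,23,24,25,26,27,28,29,30],[1,2,3,4,8],[[],[1,0,0,0,0],[0,1,0,0,0],[0,0,1,0,0],[0,0,0,1,0],[1,0,0,0,0],[-1,0,0,0,0],[0,0,0,1,0],[0,0,0,0,1],[0,0,0,0,1],[0,1,0,0,0],[0,0,0,-1,0],[0,-1,0,0,0],[0,0,1,0,0],[0,0,0,0,1],[0,0,1,0,0],[0,0,-1,0,0],[0,0,0,0,-1],[0,0,-1,0,0],[0,1,0,0,0],[0,0,0,1,0],[0,-1,0,0,0],[0,0,0,0,-1],[0,0,0,0,-1],[0,0,0,-1,0],[1,0,0,0,0],[-1,0,0,0,0],[0,0,0,-1,0],[0,0,-1,0,0],[0,-1,0,0,0],[-1,0,0,0,0]],[],[1,2,3,4,8],[[-1,-1,-2,-1,-1],[-1,-1,1,-1,2],[-2,1,-1,1,1],[-1,-1,1,2,-1],[-1,2,1,-1,-1]],186,[(6,[(1,.two [1] [6])]),(26,[(1,.two [1] [26])]),(30,[(1,.two [1] [30])]),(5,[(1,.two [5] [6])]),(25,[(1,.two [25] [6])]),(12,[(1,.two [2] [12])]),(21,[(1,.two [2] [21])]),(29,[(1,.two [2] [29])]),(10,[(1,.two [10] [12])]),(19,[(1,.two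 [19] [12])]),(16,[(1,.two [3] [16])]),(18,[(1,.two [3] [18])]),(28,[(1,.two [3] [28])]),(13,[(1,.two [13] [16])]),(15,[(1,.two [15] [16])]),(11,[(1,.two [4] [11])]),(24,[(1,.two [4] [24])]),(27,[(1,.two [4] [27])]),(7,[(1,.two [7] [11])]),(20,[(1,.two [20] [11])]),(17,[(1,.two [8] [17])]),(22,[(1,.two [8] [22])]),(23,[(1,.two [8] [23])]),(9,[(1,.two [9] [17])]),(14,[(1,.two [14] [17])])]⟩

theorem k31_5 : chk 31 5 c31_5 = true := by decide +kernel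

def c31_6 : Cert :=
  ⟨[1,6,5,30,25,26],[1,2,3,4,5,6,7,8,9,10,11,12,13,14,15,16,17,18,19,20,21,22,23,24,25,26,27,28,29,30],[],[[],[],[],[],[],[],[],[],[],[],[],[],[],[],[],[],[],[],[],[],[],[],[],[],[],[],[],[],[],[],[]],[1],[],[],1,[(2,[(1,.one [2])]),(3,[(1,.one [3])]),(4,[(1,.one [4])]),(5,[(1,.one [5])]),(6,[(1,.one [6])]),(7,[(1,.one [7])]),(8,[(1,.one [8])]),(9,[(1,.one [9])]),(10,[(1,.one [10])]),(11,[(1,.one [11])]),(12,[(1,.one [12])]),(13,[(1,.one [13])]),(14,[(1,.one [14])]),(15,[(1,.one [15])]),(16,[(1,.one [16])]),(17,[(1,.one [17])]),(18,[(1,.one [18])]),(19,[(1,.one [19])]),(20,[(1,.one [20])]),(21,[(1,.one [21])]),(22,[(1,.one [22])]),(23,[(1,.one [23])]),(24,[(1,.one [24])]),(25,[(1,.one [25])]),(26,[(1,.one [26])]),(27,[(1,.one [27])]),(28,[(1,.one [28])]),(29,[(1,.one [29])]),(30,[(1,.one [30])])]⟩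

theorem k31_6 : chk 31 6 c31_6 = true := by decide +kernel

def c31_7 : Cert :=
  ⟨[1,7,18,2,14,5,4,28,10,8,25,20,16,19,9],[1,2,3,4,5,6,7,8,9,10,11,12,13,14,15,16,17,18,19,20,21,22,23,24,25,26,27,28,29,30],[1],[[],[1],[1],[-1],[1],[1],[-1],[1],[1],[1],[1],[-1],[-1],[-1],[1],[-1],[1],[-1],[1],[1],[1],[-1],[-1],[-1],[-1],[1],[-1],[-1],[1],[-1],[-1]],[],[1],[[-1]],93,[(3,[(1,.two [1] [3])]),(6,[(1,.two [1] [6])]),(11,[(1,.two [1] [11])]),(12,[(1,.two [1] [12])]),(13,[(1,.two [1] [13])]),(15,[(1,.two [1] [15])]),(17,[(1,.two [1] [17])]),(21,[(1,.two [1] [21])]),(22,[(1,.two [1] [22])]),(23,[(1,.two [1] [23])]),(24,[(1,.two [1] [24])]),(26,[(1,.two [1] [26])]),(27,[(1,.two [1] [27])]),(29,[(1,.two [1] [29])]),(30,[(1,.two [1] [30])]),(2,[(1,.two [2] [3])]),(4,[(1,.two [4] [3])]),(5,[(1,.two [5] [3])]),(7,[(1,.two [7] [3])]),(8,[(1,.two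 [8] [3])]),(9,[(1,.two [9] [3])]),(10,[(1,.two [10] [3])]),(14,[(1,.two [14] [3])]),(16,[(1,.two [16] [3])]),(18,[(1,.two [18] [3])]),(19,[(1,.two [19] [3])]),(20,[(1,.two [20] [3])]),(25,[(1,.two [25] [3])]),(28,[(1,.two [28] [3])])]⟩

theorem k31_7 : chk 31 7 c31_7 = true := by decide +kernel

def c31_15 : Cert :=
  ⟨[1,15,8,27,2,30,16,23,4,29],[1,2,3,4,5,6,7,8,9,10,11,12,13,14,15,16,17,18,19,20,21,22,23,24,25,26,27,28,29,30],[],[[],[],[],[],[],[],[],[],[],[],[],[],[],[],[],[],[],[],[],[],[],[],[],[],[],[],[],[],[],[],[]],[1],[],[],1,[(2,[(1,.one [2])]),(3,[(1,.one [3])]),(4,[(1,.one [4])]),(5,[(1,.one [5])]),(6,[(1,.one [6])]),(7,[(1,.one [7])]),(8,[(1,.one [8])]),(9,[(1,.one [9])]),(10,[(1,.one [10])]),(11,[(1,.one [11])]),(12,[(1,.one [12])]),(13,[(1,.one [13])]),(14,[(1,.one [14])]),(15,[(1,.one [15])]),(16,[(1,.one [16])]),(17,[(1,.one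 [17])]),(18,[(1,.one [18])]),(19,[(1,.one [19])]),(20,[(1,.one [20])]),(21,[(1,.one [21])]),(22,[(1,.one [22])]),(23,[(1,.one [23])]),(24,[(1,.one [24])]),(25,[(1,.one [25])]),(26,[(1,.one [26])]),(27,[(1,.one [27])]),(28,[(1,.one [28])]),(29,[(1,.one [29])]),(30,[(1,.one [30])])]⟩

theorem k31_15 : chk 31 15 c31_15 = true := by decide +kernel

def c31_30 : Cert :=
  ⟨[1,30],[1,2,3,4,5,6,7,8,9,10,11,12,13,14,15,16,17,18,19,20,21,22,23,24,25,26,27,28,29,30],[],[[],[],[],[],[],[],[],[],[],[],[],[],[],[],[],[],[],[],[],[],[],[],[],[],[],[],[],[],[],[],[]],[1],[],[],1,[(2,[(1,.one [2])]),(3,[(1,.one [3])]),(4,[(1,.one [4])]),(5,[(1,.one [5])]),(6,[(1,.one [6])]),(7,[(1,.one [7])]),(8,[(1,.one [8])]),(9,[(1,.one [9])]),(10,[(1,.one [10])]),(11,[(1,.one [11])]),(12,[(1,.one [12])]),(13,[(1,.one [13])]),(14,[(1,.one [14])]),(15,[(1,.one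 [15])]),(16,[(1,.one [16])]),(17,[(1,.one [17])]),(18,[(1,.one [18])]),(19,[(1,.one [19])]),(20,[(1,.one [20])]),(21,[(1,.one [21])]),(22,[(1,.one [22])]),(23,[(1,.one [23])]),(24,[(1,.one [24])]),(25,[(1,.one [25])]),(26,[(1,.one [26])]),(27,[(1,.one [27])]),(28,[(1,.one [28])]),(29,[(1,.one [29])]),(30,[(1,.one [30])])]⟩

theorem k31_30 : chk 31 30 c31_30 = true := by decide +kernel

theorem all31 : ∀ x < 31, x.Coprime 31 → Full 31 x := by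
  intro x hx hc
  interval_cases x
  · exact absurd hc (by decide)
  · exact full_of_chk k31_1
  · exact full_of_chk k31_2
  · exact full_of_chk k31_3
  · exact full_same 2 3 k31_2 (by decide) (by decide)
  · exact full_of_chk k31_5
  · exact full_of_chk k31_6
  · exact full_of_chk k31_7
  · exact full_same 3 2 k31_2 (by decide) (by decide)
  · exact full_same 14 14 k31_7 (by decide) (by decide)
  · exact full_same 8 2 k31_7 (by decide) (by decide)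
  · exact full_same 23 17 k31_3 (by decide) (by decide)
  · exact full_same 19 19 k31_3 (by decide) (by decide)
  · exact full_same 11 11 k31_3 (by decide) (by decide)
  · exact full_same 4 4 k31_7 (by decide) (by decide)
  · exact full_of_chk k31_15
  · exact full_same 4 4 k31_2 (by decide) (by decide)
  · exact full_same 7 13 k31_3 (by decide) (by decide)
  · exact full_same 2 8 k31_7 (by decide) (by decide)
  · exact full_same 13 7 k31_7 (by decide) (by decide)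
  · exact full_same 11 11 k31_7 (by decide) (by decide)
  · exact full_same 29 29 k31_3 (by decide) (by decide)
  · exact full_same 17 23 k31_3 (by decide) (by decide)
  · exact full_same 7 3 k31_15 (by decide) (by decide)
  · exact full_same 13 7 k31_3 (by decide) (by decide)
  · exact full_same 2 2 k31_5 (by decide) (by decide)
  · exact full_same 5 5 k31_6 (by decide) (by decide)
  · exact full_same 3 7 k31_15 (by decide) (by decide)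
  · exact full_same 7 13 k31_7 (by decide) (by decide)
  · exact full_same 9 9 k31_15 (by decide) (by decide)
  · exact full_of_chk k31_30

end Pool.Agent.N997.TF
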