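import Pool.Agent.N997.TF.Same

/-!
Degree 32: certificates.
-/

set_option maxRecDepth 100000

namespace Pool.Agent.N997.TF

def c32_1 : Cert :=
  ⟨[1],[1,3,5,7,9,11,13,15,17,19,21,23,25,27,29,31],[1,2,3,4,5,6,7,8],[[],[1,0,0,0,0,0,0,0],[0,1,0,0,0,0,0,0],[0,0,1,0,0,0,0,0],[0,0,0,1,0,0,0,0],[0,0,0,0,1,0,0,0],[0,0,0,0,0,1,0,0],[0,0,0,0,0,0,1,0],[0,0,0,0,0,0,0,1],[0,-1,0,1,0,0,1,0],[0,0,0,-1,0,1,0,1],[0,0,0,1,1,-1,0,-1],[0,0,0,1,0,0,0,-1],[0,0,1,0,0,-1,0,0],[0,1,0,-1,0,0,0,0],[1,-1,0,0,0,0,0,0],[0,0,0,0,0,0,0,0],[-1,1,0,0,0,0,0,0],[0,-1,0,1,0,0,0,0],[0,0,-1,0,0,1,0,0],[0,0,0,-1,0,0,0,1],[0,0,0,-1,-1,1,0,1],[0,0,0,1,0,-1,0,-1],[0,1,0,-1,0,0,-1,0],[0,0,0,0,0,0,0,-1],[0,0,0,0,0,0,-1,0],[0,0,0,0,0,-1,0,0],[0,0,0,0,-1,0,0,0],[0,0,0,-1,0,0,0,0],[0,0,-1,0,0,0,0,0],[0,-1,0,0,0,0,0,0],[-1,0,0,0,0,0,0,0]],[16],[1,3,5,7,9,11,13,15],[[0,0,-1,-1,-1,-1,0,0],[0,-1,0,0,1,1,0,1],[0,-1,0,1,1,0,-1,0],[-1,0,1,1,-1,0,1,-1],[-1,0,1,0,0,1,0,-1],[0,1,0,-1,0,-1,0,1],[-1,1,0,0,0,0,1,-1],[0,1,-1,0,0,0,-1,1]],64,[(31,[(1,.two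 [1] [31])]),(30,[(1,.two [2] [30])]),(29,[(1,.two [3] [29])]),(28,[(1,.two [4] [28])]),(27,[(1,.two [5] [27])]),(26,[(1,.two [6] [26])]),(25,[(1,.two [7] [25])]),(24,[(1,.two [8] [24])]),(17,[(1,.dup 1)]),(18,[(1,.dup 2)]),(19,[(1,.dup 3)]),(20,[(1,.dup 4)]),(9,[(1,.dup 9)]),(10,[(1,.dup 10)]),(12,[(1,.dup 12)]),(13,[(1,.dup 13)]),(14,[(1,.dup 14)]),(15,[(1,.dup 15)]),(23,[(1,.two [2,7,23] [4,30,30])]),(22,[(1,.two [4,6,22] [8,28,28])]),(21,[(1,.two [5,6,21] [12,26,26])]),(11,[(1,.two [6,6,20] [11,26,27])])]⟩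

theorem k32_1 : chk 32 1 c32_1 = true := by decide +kernel

def c32_3 : Cert :=
  ⟨[1,3,9,27,17,19,25,11],[1,3,5,7,9,11,13,15,17,19,21,23,25,27,29,31],[1],[[],[1],[2],[1],[4],[-1],[2],[-1],[0],[1],[-2],[1],[4],[-1],[-2],[-1],[0],[1],[2],[1],[-4],[-1],[2],[-1],[0],[1],[-2],[1],[-4],[-1],[-2],[-1]],[8],[1],[[-1]],32,[(16,[(1,.one [16])]),(24,[(1,.one [24])]),(5,[(1,.two [1] [5])]),(7,[(1,.two [1] [7])]),(13,[(1,.two [1] [13])]),(15,[(1,.two [1] [15])]),(21,[(1,.two [1] [21])]),(23,[(1,.two [1] [23])]),(29,[(1,.two [1] [29])]),(31,[(1,.two [1] [31])]),(3,[(1,.two [3] [5])]),(9,[(1,.two [9] [5])]),(11,[(1,.two [11] [5])]),(17,[(1,.two [17] [5])]),(19,[(1,.two [19] [5])]),(25,[(1,.two [25] [5])]),(27,[(1,.two [27] [5])]),(30,[(1,.one [1,1,30])]),(2,[(1,.one [2,15,15])]),(26,[(1,.one [3,3,26])]),(4,[(1,.one [4,30,30])]),(22,[(1,.one [5,5,22])]),(6,[(1,.one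 [6,13,13])]),(18,[(1,.one [7,7,18])]),(14,[(1,.one [9,9,14])]),(10,[(1,.one [10,11,11])]),(12,[(1,.one [12,26,26])]),(28,[(1,.one [18,18,28])]),(20,[(1,.one [20,22,22])])]⟩

theorem k32_3 : chk 32 3 c32_3 = true := by decide +kernel

def c32_5 : Cert :=
  ⟨[1,5,25,29,17,21,9,13],[1,3,5,7,9,11,13,15,17,19,21,23,25,27,29,31],[1],[[],[1],[2],[-1],[4],[1],[-2],[-1],[8],[1],[2],[-1],[-4],[1],[-2],[-1],[0],[1],[2],[-1],[4],[1],[-2],[-1],[-8],[1],[2],[-1],[-4],[1],[-2],[-1]],[16],[1],[[-1]],16,[(3,[(1,.two [1] [3])]),(7,[(1,.two [1] [7])]),(11,[(1,.two [1] [11])]),(15,[(1,.two [1] [15])]),(19,[(1,.two [1] [19])]),(23,[(1,.two [1] [23])]),(27,[(1,.two [1] [27])]),(31,[(1,.two [1] [31])]),(5,[(1,.two [5] [3])]),(9,[(1,.two [9] [3])]),(13,[(1,.two [13] [3])]),(17,[(1,.two [17] [3])]),(21,[(1,.two [21] [3])]),(25,[(1,.two [25] [3])]),(29,[(1,.two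 [29] [3])]),(30,[(1,.one [1,1,30])]),(2,[(1,.one [2,15,15])]),(26,[(1,.one [3,3,26])]),(4,[(1,.one [4,30,30])]),(22,[(1,.one [5,5,22])]),(6,[(1,.one [6,13,13])]),(18,[(1,.one [7,7,18])]),(14,[(1,.one [9,9,14])]),(10,[(1,.one [10,11,11])]),(12,[(1,.one [12,26,26])]),(28,[(1,.one [18,18,28])]),(20,[(1,.one [20,22,22])]),(24,[(1,.two [16] [4,4,24])]),(8,[(1,.two [16] [8,12,12])])]⟩

theorem k32_5 : chk 32 5 c32_5 = true := by decide +kernel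

def c32_7 : Cert :=
  ⟨[1,7,17,23],[1,3,5,7,9,11,13,15,17,19,21,23,25,27,29,31],[1,3],[[],[1,0],[2,0],[0,1],[0,0],[0,1],[0,2],[1,0],[0,0],[-1,0],[0,2],[0,-1],[0,0],[0,-1],[2,0],[-1,0],[0,0],[1,0],[-2,0],[0,1],[0,0],[0,1],[0,-2],[1,0],[0,0],[-1,0],[0,-2],[0,-1],[0,0],[0,-1],[-2,0],[-1,0]],[4],[1,3],[[-1,-1],[-1,1]],64,[(8,[(1,.one [8])]),(12,[(1,.one [12])]),(16,[(1,.one [16])]),(20,[(1,.one [20])]),(24,[(1,.one [24])]),(28,[(1,.one [28])]),(9,[(1,.two [1] [9])]),(15,[(1,.two [1] [15])]),(25,[(1,.two [1] [25])]),(31,[(1,.two [1] [31])]),(7,[(1,.two [7] [9])]),(17,[(1,.two [17] [9])]),(23,[(1,.two [23] [9])]),(11,[(1,.two [3] [11])]),(13,[(1,.two [3] [13])]),(27,[(1,.two [3] [27])]),(29,[(1,.two [3] [29])]),(5,[(1,.two [5] [11])]),(19,[(1,.two [19] [11])]),(21,[(1,.two [21] [11])]),(30,[(1,.one [1,1,30])]),(2,[(1,.one [2,15,15])]),(26,[(1,.one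 [3,3,26])]),(22,[(1,.one [5,5,22])]),(6,[(1,.one [6,13,13])]),(18,[(1,.one [7,7,18])]),(14,[(1,.one [9,9,14])]),(10,[(1,.one [10,11,11])])]⟩

theorem k32_7 : chk 32 7 c32_7 = true := by decide +kernel

def c32_9 : Cert :=
  ⟨[1,9,17,25],[1,3,5,7,9,11,13,15,17,19,21,23,25,27,29,31],[1,3],[[],[1,0],[2,0],[0,1],[4,0],[0,-1],[0,2],[-1,0],[4,-4],[1,0],[0,-2],[0,1],[0,4],[0,-1],[-2,0],[-1,0],[0,0],[1,0],[2,0],[0,1],[0,-4],[0,-1],[0,2],[-1,0],[-4,4],[1,0],[0,-2],[0,1],[-4,0],[0,-1],[-2,0],[-1,0]],[16],[1,3],[[-3,1],[1,-3]],64,[(7,[(1,.two [1] [7])]),(15,[(1,.two [1] [15])]),(23,[(1,.two [1] [23])]),(31,[(1,.two [1] [31])]),(9,[(1,.two [9] [7])]),(17,[(1,.two [17] [7])]),(25,[(1,.two [25] [7])]),(5,[(1,.two [3] [5])]),(13,[(1,.two [3] [13])]),(21,[(1,.two [3] [21])]),(29,[(1,.two [3] [29])]),(11,[(1,.two [11] [5])]),(19,[(1,.two [19] [5])]),(27,[(1,.two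 [27] [5])]),(30,[(1,.one [1,1,30])]),(2,[(1,.one [2,15,15])]),(26,[(1,.one [3,3,26])]),(4,[(1,.one [4,30,30])]),(22,[(1,.one [5,5,22])]),(6,[(1,.one [6,13,13])]),(18,[(1,.one [7,7,18])]),(14,[(1,.one [9,9,14])]),(10,[(1,.one [10,11,11])]),(12,[(1,.one [12,26,26])]),(28,[(1,.one [18,18,28])]),(20,[(1,.one [20,22,22])]),(8,[(1,.dup 4)]),(24,[(1,.dup 12)])]⟩

theorem k32_9 : chk 32 9 c32_9 = true := by decide +kernel

def c32_15 : Cert :=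
  ⟨[1,15],[1,3,5,7,9,11,13,15,17,19,21,23,25,27,29,31],[1,3,5,7],[[],[1,0,0,0],[0,0,0,0],[0,1,0,0],[0,0,0,0],[0,0,1,0],[0,0,0,0],[0,0,0,1],[0,0,0,0],[0,0,0,1],[0,0,0,0],[0,0,1,0],[0,0,0,0],[0,1,0,0],[0,0,0,0],[1,0,0,0],[0,0,0,0],[-1,0,0,0],[0,0,0,0],[0,-1,0,0],[0,0,0,0],[0,0,-1,0],[0,0,0,0],[0,0,0,-1],[0,0,0,0],[0,0,0,-1],[0,0,0,0],[0,0,-1,0],[0,0,0,0],[0,-1,0,0],[0,0,0,0],[-1,0,0,0]],[2],[1,3,5,7],[[0,0,-1,-1],[0,-1,0,1],[-1,0,1,0],[-1,1,0,0]],64,[(4,[(1,.one [4])]),(6,[(1,.one [6])]),(8,[(1,.one [8])]),(10,[(1,.one [10])]),(12,[(1,.one [12])]),(14,[(1,.one [14])]),(16,[(1,.one [16])]),(18,[(1,.one [18])]),(20,[(1,.one [20])]),(22,[(1,.one [22])]),(24,[(1,.one [24])]),(26,[(1,.one [26])]),(28,[(1,.one [28])]),(30,[(1,.one [30])]),(17,[(1,.two [1] [17])]),(31,[(1,.two [1] [31])]),(15,[(1,.two [15] [17])]),(19,[(1,.two [3] [19])]),(29,[(1,.two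 [3] [29])]),(13,[(1,.two [13] [19])]),(21,[(1,.two [5] [21])]),(27,[(1,.two [5] [27])]),(11,[(1,.two [11] [21])]),(23,[(1,.two [7] [23])]),(25,[(1,.two [7] [25])]),(9,[(1,.two [9] [23])])]⟩

theorem k32_15 : chk 32 15 c32_15 = true := by decide +kernel

def c32_17 : Cert :=
  ⟨[1,17],[1,3,5,7,9,11,13,15,17,19,21,23,25,27,29,31],[1,3,7,5],[[],[1,0,0,0],[2,0,0,0],[0,1,0,0],[2,0,-2,0],[0,0,0,1],[0,2,0,0],[0,0,1,0],[2,-2,-2,2],[0,0,-1,0],[0,0,0,2],[0,0,0,-1],[0,2,0,-2],[0,-1,0,0],[0,0,2,0],[-1,0,0,0],[0,0,0,0],[1,0,0,0],[0,0,-2,0],[0,1,0,0],[0,-2,0,2],[0,0,0,1],[0,0,0,-2],[0,0,1,0],[-2,2,2,-2],[0,0,-1,0],[0,-2,0,0],[0,0,0,-1],[-2,0,2,0],[0,-1,0,0],[-2,0,0,0],[-1,0,0,0]],[16],[1,3,5,7],[[-2,0,-1,1],[0,-1,2,-1],[1,-1,0,-2],[-1,2,-1,0]],64,[(15,[(1,.two [1] [15])]),(31,[(1,.two [1] [31])]),(17,[(1,.two [17] [15])]),(13,[(1,.two [3] [13])]),(29,[(1,.two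 [3] [29])]),(19,[(1,.two [19] [13])]),(11,[(1,.two [5] [11])]),(27,[(1,.two [5] [27])]),(21,[(1,.two [21] [11])]),(9,[(1,.two [7] [9])]),(25,[(1,.two [7] [25])]),(23,[(1,.two [23] [9])]),(30,[(1,.one [1,1,30])]),(2,[(1,.one [2,15,15])]),(26,[(1,.one [3,3,26])]),(22,[(1,.one [5,5,22])]),(6,[(1,.one [6,13,13])]),(18,[(1,.one [7,7,18])]),(14,[(1,.one [9,9,14])]),(10,[(1,.one [10,11,11])]),(4,[(1,.dup 2)]),(12,[(1,.dup 6)]),(20,[(1,.dup 10)]),(28,[(1,.dup 14)]),(8,[(1,.two [2,12,18] [8,28,28])]),(24,[(1,.two [2,12,18] [20,20,24])])]⟩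

theorem k32_17 : chk 32 17 c32_17 = true := by decide +kernel

def c32_31 : Cert :=
  ⟨[1,31],[1,3,5,7,9,11,13,15,17,19,21,23,25,27,29,31],[],[[],[],[],[],[],[],[],[],[],[],[],[],[],[],[],[],[],[],[],[],[],[],[],[],[],[],[],[],[],[],[],[]],[1],[],[],1,[(2,[(1,.one [2])]),(3,[(1,.one [3])]),(4,[(1,.one [4])]),(5,[(1,.one [5])]),(6,[(1,.one [6])]),(7,[(1,.one [7])]),(8,[(1,.one [8])]),(9,[(1,.one [9])]),(10,[(1,.one [10])]),(11,[(1,.one [11])]),(12,[(1,.one [12])]),(13,[(1,.one [13])]),(14,[(1,.one [14])]),(15,[(1,.one [15])]),(16,[(1,.one [16])]),(17,[(1,.one [17])]),(18,[(1,.one [18])]),(19,[(1,.one [19])]),(20,[(1,.one [20])]),(21,[(1,.one [21])]),(22,[(1,.one [22])]),(23,[(1,.one [23])]),(24,[(1,.one [24])]),(25,[(1,.one [25])]),(26,[(1,.one [26])]),(27,[(1,.one [27])]),(28,[(1,.one [28])]),(29,[(1,.one [29])]),(30,[(1,.one [30])]),(31,[(1,.one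 [31])])]⟩

theorem k32_31 : chk 32 31 c32_31 = true := by decide +kernel

theorem all32 : ∀ x < 32, x.Coprime 32 → Full 32 x := by
  intro x hx hc
  interval_cases x
  · exact absurd hc (by decide)
  · exact full_of_chk k32_1
  · exact absurd hc (by decide)
  · exact full_of_chk k32_3
  · exact absurd hc (by decide)
  · exact full_of_chk k32_5
  · exact absurd hc (by decide)
  · exact full_of_chk k32_7
  · exact absurd hc (by decide)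
  · exact full_of_chk k32_9
  · exact absurd hc (by decide)
  · exact full_same 7 7 k32_3 (by decide) (by decide)
  · exact absurd hc (by decide)
  · exact full_same 7 7 k32_5 (by decide) (by decide)
  · exact absurd hc (by decide)
  · exact full_of_chk k32_15
  · exact absurd hc (by decide)
  · exact full_of_chk k32_17
  · exact absurd hc (by decide)
  · exact full_same 5 5 k32_3 (by decide) (by decide)
  · exact absurd hc (by decide)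
  · exact full_same 5 5 k32_5 (by decide) (by decide)
  · exact absurd hc (by decide)
  · exact full_same 3 3 k32_7 (by decide) (by decide)
  · exact absurd hc (by decide)
  · exact full_same 3 3 k32_9 (by decide) (by decide)
  · exact absurd hc (by decide)
  · exact full_same 3 3 k32_3 (by decide) (by decide)
  · exact absurd hc (by decide)
  · exact full_same 3 3 k32_5 (by decide) (by decide)
  · exact absurd hc (by decide)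
  · exact full_of_chk k32_31

end Pool.Agent.N997.TF
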