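import Pool.Agent.N997.TF.Same

/-!
Degree 4: certificates.
-/

set_option maxRecDepth 100000

namespace Pool.Agent.N997.TF

def c4_1 : Cert :=
  ⟨[1],[1,3],[1],[[],[1],[0],[-1]],[2],[1],[[-1]],2,[(3,[(1,.two [1] [3])])]⟩

theorem k4_1 : chk 4 1 c4_1 = true := by decide +kernel

def c4_3 : Cert :=
  ⟨[1,3],[1,3],[],[[],[],[],[]],[1],[],[],1,[(2,[(1,.one [2])]),(3,[(1,.one [3])])]⟩

theorem k4_3 : chk 4 3 c4_3 = true := by decide +kernel

theorem all4 : ∀ x < 4, x.Coprime 4 → Full 4 x := by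
  intro x hx hc
  interval_cases x
  · exact absurd hc (by decide)
  · exact full_of_chk k4_1
  · exact absurd hc (by decide)
  · exact full_of_chk k4_3

end Pool.Agent.N997.TF
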