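import Pool.Agent.N997.TF.Same

/-!
Degree 5: certificates.
-/

set_option maxRecDepth 100000

namespace Pool.Agent.N997.TF

def c5_1 : Cert :=
  ⟨[1],[1,2,3,4],[1,2],[[],[1,0],[0,1],[0,-1],[-1,0]],[],[1,2],[[-3,-1],[-1,3]],10,[(4,[(1,.two [1] [4])]),(3,[(1,.two [2] [3])])]⟩

theorem k5_1 : chk 5 1 c5_1 = true := by decide +kernel

def c5_2 : Cert :=
  ⟨[1,2,4,3],[1,2,3,4],[],[[],[],[],[],[]],[1],[],[],1,[(2,[(1,.one [2])]),(3,[(1,.one [3])]),(4,[(1,.one [4])])]⟩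

theorem k5_2 : chk 5 2 c5_2 = true := by decide +kernel

def c5_4 : Cert :=
  ⟨[1,4],[1,2,3,4],[],[[],[],[],[],[]],[1],[],[],1,[(2,[(1,.one [2])]),(3,[(1,.one [3])]),(4,[(1,.one [4])])]⟩

theorem k5_4 : chk 5 4 c5_4 = true := by decide +kernel

theorem all5 : ∀ x < 5, x.Coprime 5 → Full 5 x := by
  intro x hx hc
  interval_cases x
  · exact absurd hc (by decide)
  · exact full_of_chk k5_1
  · exact full_of_chk k5_2
  · exact full_same 3 3 k5_2 (by decide) (by decide)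
  · exact full_of_chk k5_4

end Pool.Agent.N997.TF
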