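import Pool.Agent.N997.TF.Same

/-!
Degree 6: certificates.
-/

set_option maxRecDepth 100000

namespace Pool.Agent.N997.TF

def c6_1 : Cert :=
  ⟨[1],[1,5],[2],[[],[2],[1],[0],[-1],[-2]],[3],[1],[[-1]],2,[(4,[(1,.two [2] [4])]),(1,[(1,.two [1,2,3] [4,4,4])]),(5,[(1,.two [2,2,2] [3,4,5])])]⟩

theorem k6_1 : chk 6 1 c6_1 = true := by decide +kernel

def c6_5 : Cert :=
  ⟨[1,5],[1,5],[],[[],[],[],[],[],[]],[1],[],[],1,[(2,[(1,.one [2])]),(3,[(1,.one [3])]),(4,[(1,.one [4])]),(5,[(1,.one [5])])]⟩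

theorem k6_5 : chk 6 5 c6_5 = true := by decide +kernel

theorem all6 : ∀ x < 6, x.Coprime 6 → Full 6 x := by
  intro x hx hc
  interval_cases x
  · exact absurd hc (by decide)
  · exact full_of_chk k6_1
  · exact absurd hc (by decide)
  · exact absurd hc (by decide)
  · exact absurd hc (by decide)
  · exact full_of_chk k6_5

end Pool.Agent.N997.TF
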