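import Pool.Agent.N997.TF.Same

/-!
Degree 7: certificates.
-/

set_option maxRecDepth 100000

namespace Pool.Agent.N997.TF

def c7_1 : Cert :=
  ⟨[1],[1,2,3,4,5,6],[1,2,3],[[],[1,0,0],[0,1,0],[0,0,1],[0,0,-1],[0,-1,0],[-1,0,0]],[],[1,2,3],[[-2,-1,-1],[-1,1,2],[-1,2,-1]],14,[(6,[(1,.two [1] [6])]),(5,[(1,.two [2] [5])]),(4,[(1,.two [3] [4])])]⟩

theorem k7_1 : chk 7 1 c7_1 = true := by decide +kernel

def c7_2 : Cert :=
  ⟨[1,2,4],[1,2,3,4,5,6],[1],[[],[1],[1],[-1],[1],[-1],[-1]],[],[1],[[-1]],7,[(3,[(1,.two [1] [3])]),(5,[(1,.two [1] [5])]),(6,[(1,.two [1] [6])]),(2,[(1,.two [2] [3])]),(4,[(1,.two [4] [3])])]⟩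

theorem k7_2 : chk 7 2 c7_2 = true := by decide +kernel

def c7_3 : Cert :=
  ⟨[1,3,2,6,4,5],[1,2,3,4,5,6],[],[[],[],[],[],[],[],[]],[1],[],[],1,[(2,[(1,.one [2])]),(3,[(1,.one [3])]),(4,[(1,.one [4])]),(5,[(1,.one [5])]),(6,[(1,.one [6])])]⟩

theorem k7_3 : chk 7 3 c7_3 = true := by decide +kernel

def c7_6 : Cert :=
  ⟨[1,6],[1,2,3,4,5,6],[],[[],[],[],[],[],[],[]],[1],[],[],1,[(2,[(1,.one [2])]),(3,[(1,.one [3])]),(4,[(1,.one [4])]),(5,[(1,.one [5])]),(6,[(1,.one [6])])]⟩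

theorem k7_6 : chk 7 6 c7_6 = true := by decide +kernel

theorem all7 : ∀ x < 7, x.Coprime 7 → Full 7 x := by
  intro x hx hc
  interval_cases x
  · exact absurd hc (by decide)
  · exact full_of_chk k7_1
  · exact full_of_chk k7_2
  · exact full_of_chk k7_3
  · exact full_same 2 2 k7_2 (by decide) (by decide)
  · exact full_same 5 5 k7_3 (by decide) (by decide)
  · exact full_of_chk k7_6

end Pool.Agent.N997.TF
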