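import Pool.Agent.N997.TF.Same

/-!
Degree 8: certificates.
-/

set_option maxRecDepth 100000

namespace Pool.Agent.N997.TF

def c8_1 : Cert :=
  ⟨[1],[1,3,5,7],[1,2],[[],[1,0],[0,1],[1,-1],[0,0],[-1,1],[0,-1],[-1,0]],[4],[1,3],[[-2,-2],[-1,3]],16,[(7,[(1,.two [1] [7])]),(6,[(1,.two [2] [6])]),(5,[(1,.dup 1)]),(3,[(1,.dup 3)])]⟩

theorem k8_1 : chk 8 1 c8_1 = true := by decide +kernel

def c8_3 : Cert :=
  ⟨[1,3],[1,3,5,7],[1],[[],[1],[0],[1],[0],[-1],[0],[-1]],[2],[1],[[-1]],8,[(4,[(1,.one [4])]),(6,[(1,.one [6])]),(5,[(1,.two [1] [5])]),(7,[(1,.two [1] [7])]),(3,[(1,.two [3] [5])])]⟩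

theorem k8_3 : chk 8 3 c8_3 = true := by decide +kernel

def c8_5 : Cert :=
  ⟨[1,5],[1,3,5,7],[1],[[],[1],[2],[-1],[0],[1],[-2],[-1]],[4],[1],[[-1]],4,[(3,[(1,.two [1] [3])]),(7,[(1,.two [1] [7])]),(5,[(1,.two [5] [3])]),(6,[(1,.one [1,1,6])]),(2,[(1,.one [2,3,3])])]⟩

theorem k8_5 : chk 8 5 c8_5 = true := by decide +kernel

def c8_7 : Cert :=
  ⟨[1,7],[1,3,5,7],[],[[],[],[],[],[],[],[],[]],[1],[],[],1,[(2,[(1,.one [2])]),(3,[(1,.one [3])]),(4,[(1,.one [4])]),(5,[(1,.one [5])]),(6,[(1,.one [6])]),(7,[(1,.one [7])])]⟩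

theorem k8_7 : chk 8 7 c8_7 = true := by decide +kernel

theorem all8 : ∀ x < 8, x.Coprime 8 → Full 8 x := by
  intro x hx hc
  interval_cases x
  · exact absurd hc (by decide)
  · exact full_of_chk k8_1
  · exact absurd hc (by decide)
  · exact full_of_chk k8_3
  · exact absurd hc (by decide)
  · exact full_of_chk k8_5
  · exact absurd hc (by decide)
  · exact full_of_chk k8_7

end Pool.Agent.N997.TF
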