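import Pool.Agent.N997.TF.Same

/-!
Degree 9: certificates.
-/

set_option maxRecDepth 100000

namespace Pool.Agent.N997.TF

def c9_1 : Cert :=
  ⟨[1],[1,2,4,5,7,8],[1,2,3],[[],[1,0,0],[0,1,0],[0,0,1],[-1,1,1],[1,-1,-1],[0,0,-1],[0,-1,0],[-1,0,0]],[],[1,2,4],[[-1,-2,-1],[-1,1,2],[-2,3,-1]],18,[(8,[(1,.two [1] [8])]),(7,[(1,.two [2] [7])]),(6,[(1,.two [3] [6])]),(4,[(1,.hd 3 1)]),(5,[(1,.hd 3 2)])]⟩

theorem k9_1 : chk 9 1 c9_1 = true := by decide +kernel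

def c9_2 : Cert :=
  ⟨[1,2,4,8,7,5],[1,2,4,5,7,8],[],[[],[],[],[],[],[],[],[],[]],[1],[],[],1,[(2,[(1,.one [2])]),(3,[(1,.one [3])]),(4,[(1,.one [4])]),(5,[(1,.one [5])]),(6,[(1,.one [6])]),(7,[(1,.one [7])]),(8,[(1,.one [8])])]⟩

theorem k9_2 : chk 9 2 c9_2 = true := by decide +kernel

def c9_4 : Cert :=
  ⟨[1,4,7],[1,2,4,5,7,8],[1],[[],[1],[-1],[3],[1],[-1],[-3],[1],[-1]],[],[1],[[-1]],3,[(2,[(1,.two [1] [2])]),(5,[(1,.two [1] [5])]),(8,[(1,.two [1] [8])]),(4,[(1,.two [4] [2])]),(7,[(1,.two [7] [2])]),(3,[(1,.two [3] [2,2,5])]),(6,[(1,.two [1,1,7] [6])])]⟩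

theorem k9_4 : chk 9 4 c9_4 = true := by decide +kernel

def c9_8 : Cert :=
  ⟨[1,8],[1,2,4,5,7,8],[],[[],[],[],[],[],[],[],[],[]],[1],[],[],1,[(2,[(1,.one [2])]),(3,[(1,.one [3])]),(4,[(1,.one [4])]),(5,[(1,.one [5])]),(6,[(1,.one [6])]),(7,[(1,.one [7])]),(8,[(1,.one [8])])]⟩

theorem k9_8 : chk 9 8 c9_8 = true := by decide +kernel

theorem all9 : ∀ x < 9, x.Coprime 9 → Full 9 x := by
  intro x hx hc
  interval_cases x
  · exact absurd hc (by decide)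
  · exact full_of_chk k9_1
  · exact full_of_chk k9_2
  · exact absurd hc (by decide)
  · exact full_of_chk k9_4
  · exact full_same 5 5 k9_2 (by decide) (by decide)
  · exact absurd hc (by decide)
  · exact full_same 2 2 k9_4 (by decide) (by decide)
  · exact full_of_chk k9_8

end Pool.Agent.N997.TF
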