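import Pool.Agent.N997.TF.M2
import Pool.Agent.N997.TF.M3
import Pool.Agent.N997.TF.M4
import Pool.Agent.N997.TF.M5
import Pool.Agent.N997.TF.M6
import Pool.Agent.N997.TF.M7
import Pool.Agent.N997.TF.M8
import Pool.Agent.N997.TF.M9
import Pool.Agent.N997.TF.M10
import Pool.Agent.N997.TF.M11
import Pool.Agent.N997.TF.M12
import Pool.Agent.N997.TF.M13
import Pool.Agent.N997.TF.M14
import Pool.Agent.N997.TF.M15
import Pool.Agent.N997.TF.M16
import Pool.Agent.N997.TF.M17
import Pool.Agent.N997.TF.M18
import Pool.Agent.N997.TF.M19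
import Pool.Agent.N997.TF.M20
import Pool.Agent.N997.TF.M21
import Pool.Agent.N997.TF.M22
import Pool.Agent.N997.TF.M23
import Pool.Agent.N997.TF.M24
import Pool.Agent.N997.TF.M25
import Pool.Agent.N997.TF.M26
import Pool.Agent.N997.TF.M27
import Pool.Agent.N997.TF.M28
import Pool.Agent.N997.TF.M29
import Pool.Agent.N997.TF.M30
import Pool.Agent.N997.TF.M31
import Pool.Agent.N997.TF.M32

/-!
All degrees up to 32 and all characteristics.
-/

namespace Pool.Agent.N997.TF

theorem full_le (m x : ℕ) (hm : 2 ≤ m) (hm' : m ≤ 32) (hx : x < m) (hc : x.Coprime m) :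
    Full m x := by
  interval_cases m
  · exact all2 x hx hc
  · exact all3 x hx hc
  · exact all4 x hx hc
  · exact all5 x hx hc
  · exact all6 x hx hc
  · exact all7 x hx hc
  · exact all8 x hx hc
  · exact all9 x hx hc
  · exact all10 x hx hc
  · exact all11 x hx hc
  · exact all12 x hx hc
  · exact all13 x hx hc
  · exact all14 x hx hc
  · exact all15 x hx hc
  · exact all16 x hx hc
  · exact all17 x hx hc
  · exact all18 x hx hc
  · exact all19 x hx hc
  · exact all20 x hx hc
  · exact all21 x hx hc
  · exact all22 x hx hc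
  · exact all23 x hx hc
  · exact all24 x hx hc
  · exact all25 x hx hc
  · exact all26 x hx hc
  · exact all27 x hx hc
  · exact all28 x hx hc
  · exact all29 x hx hc
  · exact all30 x hx hc
  · exact all31 x hx hc
  · exact all32 x hx hc

theorem full_32 (m p : ℕ) (hm : 2 ≤ m) (hm' : m ≤ 32) (hp : p.Coprime m) : Full m p := by
  have hc : (p % m).Coprime m := by
    unfold Nat.Coprime at hp ⊢
    rw [← Nat.gcd_rec, Nat.gcd_comm]
    exact hp
  have h := full_le m (p % m) hm hm' (Nat.mod_lt _ (by omega)) hc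
  unfold Full at h ⊢
  rwa [ZMod.natCast_mod] at h

end Pool.Agent.N997.TF
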