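import Pool.Agent.N997.TF.Same

/-!
Degree 34: certificates.
-/

set_option maxRecDepth 100000

namespace Pool.Agent.N997.TF

def c34_1 : Cert :=
  ⟨[1],[1,3,5,7,9,11,13,15,19,21,23,25,27,29,31,33],[1,2,3,4,5,6,7,8],[[],[1,0,0,0,0,0,0,0],[0,1,0,0,0,0,0,0],[0,0,1,0,0,0,0,0],[0,0,0,1,0,0,0,0],[0,0,0,0,1,0,0,0],[0,0,0,0,0,1,0,0],[0,0,0,0,0,0,1,0],[0,0,0,0,0,0,0,1],[-1,1,0,0,0,0,0,1],[0,0,-1,0,0,1,1,0],[0,0,-1,0,-1,2,1,0],[0,0,1,0,1,-1,-1,0],[0,0,0,1,0,0,0,-1],[0,0,1,0,0,-1,0,0],[0,1,0,-1,0,0,0,0],[1,-1,0,0,0,0,0,0],[0,0,0,0,0,0,0,0],[-1,1,0,0,0,0,0,0],[0,-1,0,1,0,0,0,0],[0,0,-1,0,0,1,0,0],[0,0,0,-1,0,0,0,1],[0,0,-1,0,-1,1,1,0],[0,0,1,0,1,-2,-1,0],[0,0,1,0,0,-1,-1,0],[1,-1,0,0,0,0,0,-1],[0,0,0,0,0,0,0,-1],[0,0,0,0,0,0,-1,0],[0,0,0,0,0,-1,0,0],[0,0,0,0,-1,0,0,0],[0,0,0,-1,0,0,0,0],[0,0,-1,0,0,0,0,0],[0,-1,0,0,0,0,0,0],[-1,0,0,0,0,0,0,0]],[17],[1,3,5,7,9,11,13,15],[[0,-1,0,-1,0,-1,-1,0],[0,0,-1,0,0,1,1,1],[0,-1,0,1,0,1,0,-1],[-1,0,1,1,0,-1,0,0],[0,0,0,0,-1,1,1,-1],[-1,1,1,-1,1,-1,-1,1],[-1,1,0,0,1,-1,0,0],[0,1,-1,0,-1,1,0,0]],68,[(33,[(1,.two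 [1] [33])]),(32,[(1,.two [2] [32])]),(31,[(1,.two [3] [31])]),(30,[(1,.two [4] [30])]),(29,[(1,.two [5] [29])]),(28,[(1,.two [6] [28])]),(27,[(1,.two [7] [27])]),(26,[(1,.two [8] [26])]),(18,[(1,.dup 1)]),(19,[(1,.dup 2)]),(20,[(1,.dup 3)]),(21,[(1,.dup 4)]),(9,[(1,.dup 9)]),(10,[(1,.dup 10)]),(13,[(1,.dup 13)]),(14,[(1,.dup 14)]),(15,[(1,.dup 15)]),(16,[(1,.dup 16)]),(25,[(1,.two [1,8,25] [2,33,33])]),(24,[(1,.two [3,7,24] [6,31,31])]),(11,[(1,.two [5,5,24] [11,28,29])]),(22,[(1,.two [5,5,24] [17,22,29])]),(23,[(1,.two [5,6,23] [10,29,29])]),(12,[(1,.two [5,12,17] [10,29,29])])]⟩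

theorem k34_1 : chk 34 1 c34_1 = true := by decide +kernel

def c34_3 : Cert :=
  ⟨[1,3,9,27,13,5,15,11,33,31,25,7,21,29,19,23],[1,3,5,7,9,11,13,15,19,21,23,25,27,29,31,33],[],[[],[],[],[],[],[],[],[],[],[],[],[],[],[],[],[],[],[],[],[],[],[],[],[],[],[],[],[],[],[],[],[],[],[]],[1],[],[],1,[(2,[(1,.one [2])]),(3,[(1,.one [3])]),(4,[(1,.one [4])]),(5,[(1,.one [5])]),(6,[(1,.one [6])]),(7,[(1,.one [7])]),(8,[(1,.one [8])]),(9,[(1,.one [9])]),(10,[(1,.one [10])]),(11,[(1,.one [11])]),(12,[(1,.one [12])]),(13,[(1,.one [13])]),(14,[(1,.one [14])]),(15,[(1,.one [15])]),(16,[(1,.one [16])]),(17,[(1,.one [17])]),(18,[(1,.one [18])]),(19,[(1,.one [19])]),(20,[(1,.one [20])]),(21,[(1,.one [21])]),(22,[(1,.one [22])]),(23,[(1,.one [23])]),(24,[(1,.one [24])]),(25,[(1,.one [25])]),(26,[(1,.one [26])]),(27,[(1,.one [27])]),(28,[(1,.one [28])]),(29,[(1,.one [29])]),(30,[(1,.one [30])]),(31,[(1,.one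 [31])]),(32,[(1,.one [32])]),(33,[(1,.one [33])])]⟩

theorem k34_3 : chk 34 3 c34_3 = true := by decide +kernel

def c34_9 : Cert :=
  ⟨[1,9,13,15,33,25,21,19],[1,3,5,7,9,11,13,15,19,21,23,25,27,29,31,33],[],[[],[],[],[],[],[],[],[],[],[],[],[],[],[],[],[],[],[],[],[],[],[],[],[],[],[],[],[],[],[],[],[],[],[]],[1],[],[],1,[(2,[(1,.one [2])]),(3,[(1,.one [3])]),(4,[(1,.one [4])]),(5,[(1,.one [5])]),(6,[(1,.one [6])]),(7,[(1,.one [7])]),(8,[(1,.one [8])]),(9,[(1,.one [9])]),(10,[(1,.one [10])]),(11,[(1,.one [11])]),(12,[(1,.one [12])]),(13,[(1,.one [13])]),(14,[(1,.one [14])]),(15,[(1,.one [15])]),(16,[(1,.one [16])]),(17,[(1,.one [17])]),(18,[(1,.one [18])]),(19,[(1,.one [19])]),(20,[(1,.one [20])]),(21,[(1,.one [21])]),(22,[(1,.one [22])]),(23,[(1,.one [23])]),(24,[(1,.one [24])]),(25,[(1,.one [25])]),(26,[(1,.one [26])]),(27,[(1,.one [27])]),(28,[(1,.one [28])]),(29,[(1,.one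 [29])]),(30,[(1,.one [30])]),(31,[(1,.one [31])]),(32,[(1,.one [32])]),(33,[(1,.one [33])])]⟩

theorem k34_9 : chk 34 9 c34_9 = true := by decide +kernel

def c34_13 : Cert :=
  ⟨[1,13,33,21],[1,3,5,7,9,11,13,15,19,21,23,25,27,29,31,33],[],[[],[],[],[],[],[],[],[],[],[],[],[],[],[],[],[],[],[],[],[],[],[],[],[],[],[],[],[],[],[],[],[],[],[]],[1],[],[],1,[(2,[(1,.one [2])]),(3,[(1,.one [3])]),(4,[(1,.one [4])]),(5,[(1,.one [5])]),(6,[(1,.one [6])]),(7,[(1,.one [7])]),(8,[(1,.one [8])]),(9,[(1,.one [9])]),(10,[(1,.one [10])]),(11,[(1,.one [11])]),(12,[(1,.one [12])]),(13,[(1,.one [13])]),(14,[(1,.one [14])]),(15,[(1,.one [15])]),(16,[(1,.one [16])]),(17,[(1,.one [17])]),(18,[(1,.one [18])]),(19,[(1,.one [19])]),(20,[(1,.one [20])]),(21,[(1,.one [21])]),(22,[(1,.one [22])]),(23,[(1,.one [23])]),(24,[(1,.one [24])]),(25,[(1,.one [25])]),(26,[(1,.one [26])]),(27,[(1,.one [27])]),(28,[(1,.one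 [28])]),(29,[(1,.one [29])]),(30,[(1,.one [30])]),(31,[(1,.one [31])]),(32,[(1,.one [32])]),(33,[(1,.one [33])])]⟩

theorem k34_13 : chk 34 13 c34_13 = true := by decide +kernel

def c34_33 : Cert :=
  ⟨[1,33],[1,3,5,7,9,11,13,15,19,21,23,25,27,29,31,33],[],[[],[],[],[],[],[],[],[],[],[],[],[],[],[],[],[],[],[],[],[],[],[],[],[],[],[],[],[],[],[],[],[],[],[]],[1],[],[],1,[(2,[(1,.one [2])]),(3,[(1,.one [3])]),(4,[(1,.one [4])]),(5,[(1,.one [5])]),(6,[(1,.one [6])]),(7,[(1,.one [7])]),(8,[(1,.one [8])]),(9,[(1,.one [9])]),(10,[(1,.one [10])]),(11,[(1,.one [11])]),(12,[(1,.one [12])]),(13,[(1,.one [13])]),(14,[(1,.one [14])]),(15,[(1,.one [15])]),(16,[(1,.one [16])]),(17,[(1,.one [17])]),(18,[(1,.one [18])]),(19,[(1,.one [19])]),(20,[(1,.one [20])]),(21,[(1,.one [21])]),(22,[(1,.one [22])]),(23,[(1,.one [23])]),(24,[(1,.one [24])]),(25,[(1,.one [25])]),(26,[(1,.one [26])]),(27,[(1,.one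 [27])]),(28,[(1,.one [28])]),(29,[(1,.one [29])]),(30,[(1,.one [30])]),(31,[(1,.one [31])]),(32,[(1,.one [32])]),(33,[(1,.one [33])])]⟩

theorem k34_33 : chk 34 33 c34_33 = true := by decide +kernel

theorem all34 : ∀ x < 34, x.Coprime 34 → Full 34 x := by
  intro x hx hc
  interval_cases x
  · exact absurd hc (by decide)
  · exact full_of_chk k34_1
  · exact absurd hc (by decide)
  · exact full_of_chk k34_3
  · exact absurd hc (by decide)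
  · exact full_same 5 13 k34_3 (by decide) (by decide)
  · exact absurd hc (by decide)
  · exact full_same 11 3 k34_3 (by decide) (by decide)
  · exact absurd hc (by decide)
  · exact full_of_chk k34_9
  · exact absurd hc (by decide)
  · exact full_same 7 7 k34_3 (by decide) (by decide)
  · exact absurd hc (by decide)
  · exact full_of_chk k34_13
  · exact absurd hc (by decide)
  · exact full_same 3 3 k34_9 (by decide) (by decide)
  · exact absurd hc (by decide)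
  · exact absurd hc (by decide)
  · exact absurd hc (by decide)
  · exact full_same 7 7 k34_9 (by decide) (by decide)
  · exact absurd hc (by decide)
  · exact full_same 3 3 k34_13 (by decide) (by decide)
  · exact absurd hc (by decide)
  · exact full_same 15 15 k34_3 (by decide) (by decide)
  · exact absurd hc (by decide)
  · exact full_same 5 5 k34_9 (by decide) (by decide)
  · exact absurd hc (by decide)
  · exact full_same 3 11 k34_3 (by decide) (by decide)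
  · exact absurd hc (by decide)
  · exact full_same 13 5 k34_3 (by decide) (by decide)
  · exact absurd hc (by decide)
  · exact full_same 9 9 k34_3 (by decide) (by decide)
  · exact absurd hc (by decide)
  · exact full_of_chk k34_33

end Pool.Agent.N997.TF
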