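import Pool.Agent.N997.TF.Same

/-!
Degree 36: certificates.
-/

set_option maxRecDepth 100000

namespace Pool.Agent.N997.TF

def c36_1 : Cert :=
  ⟨[1],[1,5,7,11,13,17,19,23,25,29,31,35],[1,2,3,4,5,8],[[],[1,0,0,0,0,0],[0,1,0,0,0,0],[0,0,1,0,0,0],[0,0,0,1,0,0],[0,0,0,0,1,0],[0,2,0,0,0,-2],[1,1,-1,0,1,-2],[0,0,0,0,0,1],[0,-1,1,0,0,1],[0,-1,0,1,0,1],[1,1,-1,-1,1,-1],[0,1,0,0,0,-1],[0,1,0,-1,1,-1],[0,0,0,1,0,-1],[0,-2,1,0,0,2],[0,1,0,-1,0,0],[1,-1,0,0,0,0],[0,0,0,0,0,0],[-1,1,0,0,0,0],[0,-1,0,1,0,0],[0,2,-1,0,0,-2],[0,0,0,-1,0,1],[0,-1,0,1,-1,1],[0,-1,0,0,0,1],[-1,-1,1,1,-1,1],[0,1,0,-1,0,-1],[0,1,-1,0,0,-1],[0,0,0,0,0,-1],[-1,-1,1,0,-1,2],[0,-2,0,0,0,2],[0,0,0,0,-1,0],[0,0,0,-1,0,0],[0,0,-1,0,0,0],[0,-1,0,0,0,0],[-1,0,0,0,0,0]],[18],[1,5,7,11,13,17],[[-1,0,-1,-1,0,-1],[-1,2,-2,1,1,1],[0,-1,1,1,-1,0],[0,0,1,-1,-1,1],[-1,1,0,0,1,-1],[1,-3,2,0,0,0]],72,[(35,[(1,.two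 [1] [35])]),(34,[(1,.two [2] [34])]),(33,[(1,.two [3] [33])]),(32,[(1,.two [4] [32])]),(31,[(1,.two [5] [31])]),(28,[(1,.two [8] [28])]),(19,[(1,.dup 1)]),(20,[(1,.dup 2)]),(22,[(1,.dup 4)]),(10,[(1,.dup 10)]),(14,[(1,.dup 14)]),(16,[(1,.dup 16)]),(17,[(1,.dup 17)]),(12,[(1,.hd 3 4)]),(24,[(1,.hd 3 8)]),(30,[(1,.hd 3 10)]),(26,[(1,.two [2,8,26] [4,34,34])]),(6,[(1,.two [6,8,22] [4,34,34])]),(23,[(1,.two [5,8,23] [16,28,28])]),(13,[(1,.two [8,8,20] [13,28,31])]),(27,[(1,.two [3,6,27] [12,30,30])]),(15,[(1,.two [3,6,27] [15,27,30])]),(9,[(1,.two [6,6,24] [9,30,33])]),(21,[(1,.two [6,9,21] [9,30,33])]),(25,[(1,.two [1,2,33] [13,25,34])]),(11,[(1,.two [2,11,23] [3,34,35])]),(29,[(1,.two [1,6,29] [5,33,34])]),(7,[(1,.two [1,6,29] [7,30,35])])]⟩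

theorem k36_1 : chk 36 1 c36_1 = true := by decide +kernel

def c36_5 : Cert :=
  ⟨[1,5,25,17,13,29],[1,5,7,11,13,17,19,23,25,29,31,35],[1],[[],[1],[0],[3],[0],[1],[0],[-1],[0],[3],[0],[-1],[0],[1],[0],[3],[0],[1],[0],[-1],[0],[-3],[0],[-1],[0],[1],[0],[-3],[0],[1],[0],[-1],[0],[-3],[0],[-1]],[2],[1],[[-1]],36,[(4,[(1,.one [4])]),(6,[(1,.one [6])]),(8,[(1,.one [8])]),(10,[(1,.one [10])]),(12,[(1,.one [12])]),(14,[(1,.one [14])]),(16,[(1,.one [16])]),(18,[(1,.one [18])]),(20,[(1,.one [20])]),(22,[(1,.one [22])]),(24,[(1,.one [24])]),(26,[(1,.one [26])]),(28,[(1,.one [28])]),(30,[(1,.one [30])]),(32,[(1,.one [32])]),(34,[(1,.one [34])]),(7,[(1,.two [1] [7])]),(11,[(1,.two [1] [11])]),(19,[(1,.two [1] [19])]),(23,[(1,.two [1] [23])]),(31,[(1,.two [1] [31])]),(35,[(1,.two [1] [35])]),(5,[(1,.two [5] [7])]),(13,[(1,.two [13] [7])]),(17,[(1,.two [17] [7])]),(25,[(1,.two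 [25] [7])]),(29,[(1,.two [29] [7])]),(33,[(1,.two [1,1,34] [1,2,33])]),(27,[(1,.two [1,1,34] [1,8,27])]),(21,[(1,.two [1,1,34] [1,14,21])]),(3,[(1,.two [2,3,31] [2,35,35])]),(15,[(1,.two [2,15,19] [2,35,35])]),(9,[(1,.two [4,9,23] [23,23,26])])]⟩

theorem k36_5 : chk 36 5 c36_5 = true := by decide +kernel

def c36_7 : Cert :=
  ⟨[1,7,13,19,25,31],[1,5,7,11,13,17,19,23,25,29,31,35],[1],[[],[1],[2],[3],[1],[-1],[6],[1],[-1],[0],[-2],[-1],[3],[1],[2],[-3],[1],[-1],[0],[1],[-1],[3],[-2],[-1],[-3],[1],[2],[0],[1],[-1],[-6],[1],[-1],[-3],[-2],[-1]],[9],[1],[[-1]],24,[(18,[(1,.one [18])]),(27,[(1,.one [27])]),(5,[(1,.two [1] [5])]),(8,[(1,.two [1] [8])]),(11,[(1,.two [1] [11])]),(17,[(1,.two [1] [17])]),(20,[(1,.two [1] [20])]),(23,[(1,.two [1] [23])]),(29,[(1,.two [1] [29])]),(32,[(1,.two [1] [32])]),(35,[(1,.two [1] [35])]),(4,[(1,.two [4] [5])]),(7,[(1,.two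 [7] [5])]),(13,[(1,.two [13] [5])]),(16,[(1,.two [16] [5])]),(19,[(1,.two [19] [5])]),(25,[(1,.two [25] [5])]),(28,[(1,.two [28] [5])]),(31,[(1,.two [31] [5])]),(34,[(1,.one [1,1,34])]),(2,[(1,.one [2,17,17])]),(26,[(1,.one [5,5,26])]),(22,[(1,.one [7,7,22])]),(10,[(1,.one [10,13,13])]),(14,[(1,.one [11,11,14])]),(3,[(1,.two [3] [4,34,34])]),(12,[(1,.two [12] [4,34,34])]),(21,[(1,.two [21] [4,34,34])]),(15,[(1,.two [2,2,32] [15])]),(24,[(1,.two [2,2,32] [24])]),(33,[(1,.two [2,2,32] [33])]),(30,[(1,.two [9] [3,3,30])]),(6,[(1,.two [9] [6,15,15])])]⟩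

theorem k36_7 : chk 36 7 c36_7 = true := by decide +kernel

def c36_11 : Cert :=
  ⟨[1,11,13,35,25,23],[1,5,7,11,13,17,19,23,25,29,31,35],[],[[],[],[],[],[],[],[],[],[],[],[],[],[],[],[],[],[],[],[],[],[],[],[],[],[],[],[],[],[],[],[],[],[],[],[],[]],[1],[],[],1,[(2,[(1,.one [2])]),(3,[(1,.one [3])]),(4,[(1,.one [4])]),(5,[(1,.one [5])]),(6,[(1,.one [6])]),(7,[(1,.one [7])]),(8,[(1,.one [8])]),(9,[(1,.one [9])]),(10,[(1,.one [10])]),(11,[(1,.one [11])]),(12,[(1,.one [12])]),(13,[(1,.one [13])]),(14,[(1,.one [14])]),(15,[(1,.one [15])]),(16,[(1,.one [16])]),(17,[(1,.one [17])]),(18,[(1,.one [18])]),(19,[(1,.one [19])]),(20,[(1,.one [20])]),(21,[(1,.one [21])]),(22,[(1,.one [22])]),(23,[(1,.one [23])]),(24,[(1,.one [24])]),(25,[(1,.one [25])]),(26,[(1,.one [26])]),(27,[(1,.one [27])]),(28,[(1,.one [28])]),(29,[(1,.one [29])]),(30,[(1,.one [30])]),(31,[(1,.one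 [31])]),(32,[(1,.one [32])]),(33,[(1,.one [33])]),(34,[(1,.one [34])]),(35,[(1,.one [35])])]⟩

theorem k36_11 : chk 36 11 c36_11 = true := by decide +kernel

def c36_13 : Cert :=
  ⟨[1,13,25],[1,5,7,11,13,17,19,23,25,29,31,35],[1,4],[[],[1,0],[0,2],[3,0],[0,1],[1,-2],[0,6],[-1,2],[0,-1],[3,-3],[0,-2],[-1,0],[0,3],[1,0],[0,2],[3,-6],[0,1],[1,-2],[0,0],[-1,2],[0,-1],[-3,6],[0,-2],[-1,0],[0,-3],[1,0],[0,2],[-3,3],[0,1],[1,-2],[0,-6],[-1,2],[0,-1],[-3,0],[0,-2],[-1,0]],[18],[1,5],[[-2,-2],[-1,5]],72,[(11,[(1,.two [1] [11])]),(23,[(1,.two [1] [23])]),(35,[(1,.two [1] [35])]),(13,[(1,.two [13] [11])]),(25,[(1,.two [25] [11])]),(8,[(1,.two [4] [8])]),(20,[(1,.two [4] [20])]),(32,[(1,.two [4] [32])]),(16,[(1,.two [16] [8])]),(28,[(1,.two [28] [8])]),(12,[(1,.two [12] [8,8,20])]),(24,[(1,.two [4,4,28] [24])]),(5,[(1,.two [12] [5,8,23])]),(10,[(1,.two [12]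 [8,10,18])]),(17,[(1,.two [12] [8,11,17])]),(29,[(1,.two [12] [8,29,35])]),(34,[(1,.two [12] [10,28,34])]),(14,[(1,.two [12] [14,24,34])]),(30,[(1,.two [12] [14,28,30])]),(22,[(1,.two [12] [16,22,34])]),(26,[(1,.two [12] [16,26,30])]),(31,[(1,.two [12] [17,24,31])]),(19,[(1,.two [12] [19,24,29])]),(7,[(1,.two [1,7,28] [24])]),(2,[(1,.two [2,8,26] [24])]),(6,[(1,.two [6,8,22] [24])]),(33,[(1,.two [1,1,34] [1,2,33])]),(27,[(1,.two [1,1,34] [1,8,27])]),(21,[(1,.two [1,1,34] [17,21,34])]),(15,[(1,.two [2,15,19] [2,35,35])]),(3,[(1,.two [3,10,23] [10,31,31])]),(9,[(1,.two [4,9,23] [23,23,26])])]⟩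

theorem k36_13 : chk 36 13 c36_13 = true := by decide +kernel

def c36_17 : Cert :=
  ⟨[1,17],[1,5,7,11,13,17,19,23,25,29,31,35],[1,3,5],[[],[1,0,0],[0,0,0],[0,1,0],[0,0,0],[0,0,1],[0,0,0],[1,-1,1],[0,0,0],[0,1,0],[0,0,0],[1,-1,1],[0,0,0],[0,0,1],[0,0,0],[0,1,0],[0,0,0],[1,0,0],[0,0,0],[-1,0,0],[0,0,0],[0,-1,0],[0,0,0],[0,0,-1],[0,0,0],[-1,1,-1],[0,0,0],[0,-1,0],[0,0,0],[-1,1,-1],[0,0,0],[0,0,-1],[0,0,0],[0,-1,0],[0,0,0],[-1,0,0]],[2],[1,5,7],[[-1,0,-1],[0,-1,1],[-1,1,0]],72,[(4,[(1,.one [4])]),(6,[(1,.one [6])]),(8,[(1,.one [8])]),(10,[(1,.one [10])]),(12,[(1,.one [12])]),(14,[(1,.one [14])]),(16,[(1,.one [16])]),(18,[(1,.one [18])]),(20,[(1,.one [20])]),(22,[(1,.one [22])]),(24,[(1,.one [24])]),(26,[(1,.one [26])]),(28,[(1,.one [28])]),(30,[(1,.one [30])]),(32,[(1,.one [32])]),(34,[(1,.one [34])]),(19,[(1,.two [1] [19])]),(35,[(1,.two [1] [35])]),(17,[(1,.two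 [17] [19])]),(21,[(1,.two [3] [21])]),(27,[(1,.two [3] [27])]),(33,[(1,.two [3] [33])]),(9,[(1,.two [9] [21])]),(15,[(1,.two [15] [21])]),(23,[(1,.two [5] [23])]),(31,[(1,.two [5] [31])]),(13,[(1,.two [13] [23])]),(25,[(1,.hd 3 1)]),(29,[(1,.hd 3 5)]),(7,[(1,.hd 3 7)]),(11,[(1,.hd 3 11)])]⟩

theorem k36_17 : chk 36 17 c36_17 = true := by decide +kernel

def c36_19 : Cert :=
  ⟨[1,19],[1,5,7,11,13,17,19,23,25,29,31,35],[1,5,4],[[],[1,0,0],[2,0,0],[0,-2,1],[0,0,1],[0,1,0],[0,-4,2],[-1,-1,1],[2,2,-1],[0,0,0],[0,2,0],[1,1,-1],[0,-2,1],[0,-1,0],[-2,-2,2],[0,2,-1],[2,0,-1],[-1,0,0],[0,0,0],[1,0,0],[-2,0,1],[0,-2,1],[2,2,-2],[0,1,0],[0,2,-1],[-1,-1,1],[0,-2,0],[0,0,0],[-2,-2,1],[1,1,-1],[0,4,-2],[0,-1,0],[0,0,-1],[0,2,-1],[-2,0,0],[-1,0,0]],[9],[1,5,7],[[-1,-2,-1],[1,-3,2],[-1,2,0]],72,[(18,[(1,.one [18])]),(27,[(1,.one [27])]),(17,[(1,.two [1] [17])]),(35,[(1,.two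 [1] [35])]),(19,[(1,.two [19] [17])]),(32,[(1,.two [4] [32])]),(13,[(1,.two [5] [13])]),(31,[(1,.two [5] [31])]),(23,[(1,.two [23] [13])]),(34,[(1,.one [1,1,34])]),(2,[(1,.one [2,17,17])]),(26,[(1,.one [5,5,26])]),(10,[(1,.one [10,13,13])]),(20,[(1,.dup 2)]),(28,[(1,.dup 10)]),(14,[(1,.dup 14)]),(16,[(1,.dup 16)]),(6,[(1,.hd 3 2)]),(12,[(1,.hd 3 4)]),(15,[(1,.two [1,1,34] [9,12,15])]),(33,[(1,.two [1,1,34] [12,27,33])]),(21,[(1,.two [1,1,34] [18,21,33])]),(24,[(1,.two [1,1,34] [21,24,27])]),(3,[(1,.two [1,17,18] [3,15,18])]),(30,[(1,.two [1,17,18] [21,21,30])]),(8,[(1,.two [1,8,27] [17,27,28])]),(22,[(1,.two [5,9,22] [3,5,28])]),(7,[(1,.two [1,2,33] [7,31,34])]),(25,[(1,.two [1,2,33] [13,25,34])]),(29,[(1,.two [2,5,29] [3,34,35])]),(11,[(1,.two [2,11,23] [3,34,35])])]⟩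

theorem k36_19 : chk 36 19 c36_19 = true := by decide +kernel

def c36_35 : Cert :=
  ⟨[1,35],[1,5,7,11,13,17,19,23,25,29,31,35],[],[[],[],[],[],[],[],[],[],[],[],[],[],[],[],[],[],[],[],[],[],[],[],[],[],[],[],[],[],[],[],[],[],[],[],[],[]],[1],[],[],1,[(2,[(1,.one [2])]),(3,[(1,.one [3])]),(4,[(1,.one [4])]),(5,[(1,.one [5])]),(6,[(1,.one [6])]),(7,[(1,.one [7])]),(8,[(1,.one [8])]),(9,[(1,.one [9])]),(10,[(1,.one [10])]),(11,[(1,.one [11])]),(12,[(1,.one [12])]),(13,[(1,.one [13])]),(14,[(1,.one [14])]),(15,[(1,.one [15])]),(16,[(1,.one [16])]),(17,[(1,.one [17])]),(18,[(1,.one [18])]),(19,[(1,.one [19])]),(20,[(1,.one [20])]),(21,[(1,.one [21])]),(22,[(1,.one [22])]),(23,[(1,.one [23])]),(24,[(1,.one [24])]),(25,[(1,.one [25])]),(26,[(1,.one [26])]),(27,[(1,.one [27])]),(28,[(1,.one [28])]),(29,[(1,.one [29])]),(30,[(1,.one [30])]),(31,[(1,.one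 [31])]),(32,[(1,.one [32])]),(33,[(1,.one [33])]),(34,[(1,.one [34])]),(35,[(1,.one [35])])]⟩

theorem k36_35 : chk 36 35 c36_35 = true := by decide +kernel

theorem all36 : ∀ x < 36, x.Coprime 36 → Full 36 x := by
  intro x hx hc
  interval_cases x
  · exact absurd hc (by decide)
  · exact full_of_chk k36_1
  · exact absurd hc (by decide)
  · exact absurd hc (by decide)
  · exact absurd hc (by decide)
  · exact full_of_chk k36_5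
  · exact absurd hc (by decide)
  · exact full_of_chk k36_7
  · exact absurd hc (by decide)
  · exact absurd hc (by decide)
  · exact absurd hc (by decide)
  · exact full_of_chk k36_11
  · exact absurd hc (by decide)
  · exact full_of_chk k36_13
  · exact absurd hc (by decide)
  · exact absurd hc (by decide)
  · exact absurd hc (by decide)
  · exact full_of_chk k36_17
  · exact absurd hc (by decide)
  · exact full_of_chk k36_19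
  · exact absurd hc (by decide)
  · exact absurd hc (by decide)
  · exact absurd hc (by decide)
  · exact full_same 5 5 k36_11 (by decide) (by decide)
  · exact absurd hc (by decide)
  · exact full_same 2 2 k36_13 (by decide) (by decide)
  · exact absurd hc (by decide)
  · exact absurd hc (by decide)
  · exact absurd hc (by decide)
  · exact full_same 5 5 k36_5 (by decide) (by decide)
  · exact absurd hc (by decide)
  · exact full_same 5 5 k36_7 (by decide) (by decide)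
  · exact absurd hc (by decide)
  · exact absurd hc (by decide)
  · exact absurd hc (by decide)
  · exact full_of_chk k36_35

end Pool.Agent.N997.TF
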