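import Pool.Agent.N997.TF.Same

/-!
Degree 38: certificates.
-/

set_option maxRecDepth 100000

namespace Pool.Agent.N997.TF

def c38_1 : Cert :=
  ⟨[1],[1,3,5,7,9,11,13,15,17,21,23,25,27,29,31,33,35,37],[1,2,3,4,5,6,7,8,9],[[],[1,0,0,0,0,0,0,0,0],[0,1,0,0,0,0,0,0,0],[0,0,1,0,0,0,0,0,0],[0,0,0,1,0,0,0,0,0],[0,0,0,0,1,0,0,0,0],[0,0,0,0,0,1,0,0,0],[0,0,0,0,0,0,1,0,0],[0,0,0,0,0,0,0,1,0],[0,0,0,0,0,0,0,0,1],[-1,1,0,0,0,0,0,0,1],[0,0,-1,0,0,1,0,1,0],[-1,1,0,0,-1,0,1,0,1],[1,-1,0,0,1,1,-1,0,-1],[1,-1,0,0,1,0,0,0,-1],[0,0,0,1,0,0,0,-1,0],[0,0,1,0,0,-1,0,0,0],[0,1,0,-1,0,0,0,0,0],[1,-1,0,0,0,0,0,0,0],[0,0,0,0,0,0,0,0,0],[-1,1,0,0,0,0,0,0,0],[0,-1,0,1,0,0,0,0,0],[0,0,-1,0,0,1,0,0,0],[0,0,0,-1,0,0,0,1,0],[-1,1,0,0,-1,0,0,0,1],[-1,1,0,0,-1,-1,1,0,1],[1,-1,0,0,1,0,-1,0,-1],[0,0,1,0,0,-1,0,-1,0],[1,-1,0,0,0,0,0,0,-1],[0,0,0,0,0,0,0,0,-1],[0,0,0,0,0,0,0,-1,0],[0,0,0,0,0,0,-1,0,0],[0,0,0,0,0,-1,0,0,0],[0,0,0,0,-1,0,0,0,0],[0,0,0,-1,0,0,0,0,0],[0,0,-1,0,0,0,0,0,0],[0,-1,0,0,0,0,0,0,0],[-1,0,0,0,0,0,0,0,0]],[19],[1,3,5,7,9,11,13,15,17],[[0,-1,0,0,-1,-1,0,-1,0],[0,0,-1,-1,1,1,0,2,0],[0,-1,0,0,1,1,0,0,-1],[0,0,0,1,0,-1,-1,0,1],[-1,0,1,1,-1,0,1,-1,0],[-1,1,1,0,-1,0,0,-1,1],[0,0,0,-1,1,0,0,1,-1],[-1,1,0,0,0,0,1,-1,0],[0,1,-1,0,0,0,-1,1,0]],76,[(37,[(1,.two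 [1] [37])]),(36,[(1,.two [2] [36])]),(35,[(1,.two [3] [35])]),(34,[(1,.two [4] [34])]),(33,[(1,.two [5] [33])]),(32,[(1,.two [6] [32])]),(31,[(1,.two [7] [31])]),(30,[(1,.two [8] [30])]),(29,[(1,.two [9] [29])]),(20,[(1,.dup 1)]),(21,[(1,.dup 2)]),(22,[(1,.dup 3)]),(23,[(1,.dup 4)]),(10,[(1,.dup 10)]),(11,[(1,.dup 11)]),(15,[(1,.dup 15)]),(16,[(1,.dup 16)]),(17,[(1,.dup 17)]),(18,[(1,.dup 18)]),(28,[(1,.two [1,9,28] [2,37,37])]),(27,[(1,.two [3,8,27] [6,35,35])]),(12,[(1,.two [5,5,28] [12,31,33])]),(24,[(1,.two [5,5,28] [19,24,33])]),(26,[(1,.two [5,7,26] [10,33,33])]),(14,[(1,.two [5,14,19] [10,33,33])]),(25,[(1,.two [6,7,25] [14,31,31])]),(13,[(1,.two [7,7,24] [13,31,32])])]⟩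

theorem k38_1 : chk 38 1 c38_1 = true := by decide +kernel

def c38_3 : Cert :=
  ⟨[1,3,9,27,5,15,7,21,25,37,35,29,11,33,23,31,17,13],[1,3,5,7,9,11,13,15,17,21,23,25,27,29,31,33,35,37],[],[[],[],[],[],[],[],[],[],[],[],[],[],[],[],[],[],[],[],[],[],[],[],[],[],[],[],[],[],[],[],[],[],[],[],[],[],[],[]],[1],[],[],1,[(2,[(1,.one [2])]),(3,[(1,.one [3])]),(4,[(1,.one [4])]),(5,[(1,.one [5])]),(6,[(1,.one [6])]),(7,[(1,.one [7])]),(8,[(1,.one [8])]),(9,[(1,.one [9])]),(10,[(1,.one [10])]),(11,[(1,.one [11])]),(12,[(1,.one [12])]),(13,[(1,.one [13])]),(14,[(1,.one [14])]),(15,[(1,.one [15])]),(16,[(1,.one [16])]),(17,[(1,.one [17])]),(18,[(1,.one [18])]),(19,[(1,.one [19])]),(20,[(1,.one [20])]),(21,[(1,.one [21])]),(22,[(1,.one [22])]),(23,[(1,.one [23])]),(24,[(1,.one [24])]),(25,[(1,.one [25])]),(26,[(1,.one [26])]),(27,[(1,.one [27])]),(28,[(1,.one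 [28])]),(29,[(1,.one [29])]),(30,[(1,.one [30])]),(31,[(1,.one [31])]),(32,[(1,.one [32])]),(33,[(1,.one [33])]),(34,[(1,.one [34])]),(35,[(1,.one [35])]),(36,[(1,.one [36])]),(37,[(1,.one [37])])]⟩

theorem k38_3 : chk 38 3 c38_3 = true := by decide +kernel

def c38_5 : Cert :=
  ⟨[1,5,25,11,17,9,7,35,23],[1,3,5,7,9,11,13,15,17,21,23,25,27,29,31,33,35,37],[2],[[],[2],[1],[-2],[-1],[2],[-1],[2],[1],[2],[1],[2],[1],[-2],[1],[-2],[-1],[2],[1],[0],[-1],[-2],[1],[2],[-1],[2],[-1],[-2],[-1],[-2],[-1],[-2],[1],[-2],[1],[2],[-1],[-2]],[19],[1],[[-1]],38,[(4,[(1,.two [2] [4])]),(6,[(1,.two [2] [6])]),(16,[(1,.two [2] [16])]),(20,[(1,.two [2] [20])]),(24,[(1,.two [2] [24])]),(26,[(1,.two [2] [26])]),(28,[(1,.two [2] [28])]),(30,[(1,.two [2] [30])]),(36,[(1,.two [2] [36])]),(8,[(1,.two [8] [4])]),(10,[(1,.two [10] [4])]),(12,[(1,.two [12] [4])]),(14,[(1,.two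 [14] [4])]),(18,[(1,.two [18] [4])]),(22,[(1,.two [22] [4])]),(32,[(1,.two [32] [4])]),(34,[(1,.two [34] [4])]),(1,[(1,.dup 1)]),(21,[(1,.dup 2)]),(3,[(1,.dup 3)]),(23,[(1,.dup 4)]),(5,[(1,.dup 5)]),(25,[(1,.dup 6)]),(7,[(1,.dup 7)]),(27,[(1,.dup 8)]),(9,[(1,.dup 9)]),(29,[(1,.dup 10)]),(11,[(1,.dup 11)]),(31,[(1,.dup 12)]),(13,[(1,.dup 13)]),(33,[(1,.dup 14)]),(15,[(1,.dup 15)]),(35,[(1,.dup 16)]),(17,[(1,.dup 17)]),(37,[(1,.dup 18)])]⟩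

theorem k38_5 : chk 38 5 c38_5 = true := by decide +kernel

def c38_7 : Cert :=
  ⟨[1,7,11],[1,3,5,7,9,11,13,15,17,21,23,25,27,29,31,33,35,37],[1,2,3],[[],[1,0,0],[0,1,0],[0,0,1],[0,1,1],[0,0,-1],[0,1,1],[1,0,0],[1,-1,0],[1,-2,-1],[0,-1,-1],[1,0,0],[1,-1,0],[-1,2,1],[0,1,0],[-1,2,1],[0,-1,0],[0,0,-1],[1,-1,0],[0,0,0],[-1,1,0],[0,0,1],[0,1,0],[1,-2,-1],[0,-1,0],[1,-2,-1],[-1,1,0],[-1,0,0],[0,1,1],[-1,2,1],[-1,1,0],[-1,0,0],[0,-1,-1],[0,0,1],[0,-1,-1],[0,0,-1],[0,-1,0],[-1,0,0]],[19],[1,3,9],[[-1,1,0],[0,-2,0],[0,-1,1]],76,[(27,[(1,.two [1] [27])]),(31,[(1,.two [1] [31])]),(37,[(1,.two [1] [37])]),(7,[(1,.two [7] [27])]),(11,[(1,.two [11] [27])]),(16,[(1,.two [2] [16])]),(24,[(1,.two [2] [24])]),(36,[(1,.two [2] [36])]),(14,[(1,.two [14] [16])]),(22,[(1,.two [22] [16])]),(5,[(1,.two [5] [3])]),(21,[(1,.two [5] [21])]),(33,[(1,.two [5] [33])]),(17,[(1,.two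 [17] [3])]),(35,[(1,.two [35] [3])]),(20,[(1,.dup 1)]),(4,[(1,.dup 2)]),(6,[(1,.dup 3)]),(10,[(1,.dup 5)]),(26,[(1,.dup 7)]),(8,[(1,.dup 8)]),(29,[(1,.dup 10)]),(30,[(1,.dup 11)]),(12,[(1,.dup 12)]),(28,[(1,.dup 14)]),(32,[(1,.dup 16)]),(34,[(1,.dup 17)]),(18,[(1,.dup 18)]),(23,[(1,.two [12,29,35] [23,24,29])]),(25,[(1,.two [22,25,29] [23,24,29])]),(13,[(1,.two [1,13,24] [1,10,27])]),(9,[(1,.two [4,7,27] [2,9,27])]),(15,[(1,.two [7,15,16] [7,32,37])])]⟩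

theorem k38_7 : chk 38 7 c38_7 = true := by decide +kernel

def c38_27 : Cert :=
  ⟨[1,27,7,37,11,31],[1,3,5,7,9,11,13,15,17,21,23,25,27,29,31,33,35,37],[],[[],[],[],[],[],[],[],[],[],[],[],[],[],[],[],[],[],[],[],[],[],[],[],[],[],[],[],[],[],[],[],[],[],[],[],[],[],[]],[1],[],[],1,[(2,[(1,.one [2])]),(3,[(1,.one [3])]),(4,[(1,.one [4])]),(5,[(1,.one [5])]),(6,[(1,.one [6])]),(7,[(1,.one [7])]),(8,[(1,.one [8])]),(9,[(1,.one [9])]),(10,[(1,.one [10])]),(11,[(1,.one [11])]),(12,[(1,.one [12])]),(13,[(1,.one [13])]),(14,[(1,.one [14])]),(15,[(1,.one [15])]),(16,[(1,.one [16])]),(17,[(1,.one [17])]),(18,[(1,.one [18])]),(19,[(1,.one [19])]),(20,[(1,.one [20])]),(21,[(1,.one [21])]),(22,[(1,.one [22])]),(23,[(1,.one [23])]),(24,[(1,.one [24])]),(25,[(1,.one [25])]),(26,[(1,.one [26])]),(27,[(1,.one [27])]),(28,[(1,.one [28])]),(29,[(1,.one [29])]),(30,[(1,.one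 [30])]),(31,[(1,.one [31])]),(32,[(1,.one [32])]),(33,[(1,.one [33])]),(34,[(1,.one [34])]),(35,[(1,.one [35])]),(36,[(1,.one [36])]),(37,[(1,.one [37])])]⟩

theorem k38_27 : chk 38 27 c38_27 = true := by decide +kernel

def c38_37 : Cert :=
  ⟨[1,37],[1,3,5,7,9,11,13,15,17,21,23,25,27,29,31,33,35,37],[],[[],[],[],[],[],[],[],[],[],[],[],[],[],[],[],[],[],[],[],[],[],[],[],[],[],[],[],[],[],[],[],[],[],[],[],[],[],[]],[1],[],[],1,[(2,[(1,.one [2])]),(3,[(1,.one [3])]),(4,[(1,.one [4])]),(5,[(1,.one [5])]),(6,[(1,.one [6])]),(7,[(1,.one [7])]),(8,[(1,.one [8])]),(9,[(1,.one [9])]),(10,[(1,.one [10])]),(11,[(1,.one [11])]),(12,[(1,.one [12])]),(13,[(1,.one [13])]),(14,[(1,.one [14])]),(15,[(1,.one [15])]),(16,[(1,.one [16])]),(17,[(1,.one [17])]),(18,[(1,.one [18])]),(19,[(1,.one [19])]),(20,[(1,.one [20])]),(21,[(1,.one [21])]),(22,[(1,.one [22])]),(23,[(1,.one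 [23])]),(24,[(1,.one [24])]),(25,[(1,.one [25])]),(26,[(1,.one [26])]),(27,[(1,.one [27])]),(28,[(1,.one [28])]),(29,[(1,.one [29])]),(30,[(1,.one [30])]),(31,[(1,.one [31])]),(32,[(1,.one [32])]),(33,[(1,.one [33])]),(34,[(1,.one [34])]),(35,[(1,.one [35])]),(36,[(1,.one [36])]),(37,[(1,.one [37])])]⟩

theorem k38_37 : chk 38 37 c38_37 = true := by decide +kernel

theorem all38 : ∀ x < 38, x.Coprime 38 → Full 38 x := by
  intro x hx hc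
  interval_cases x
  · exact absurd hc (by decide)
  · exact full_of_chk k38_1
  · exact absurd hc (by decide)
  · exact full_of_chk k38_3
  · exact absurd hc (by decide)
  · exact full_of_chk k38_5
  · exact absurd hc (by decide)
  · exact full_of_chk k38_7
  · exact absurd hc (by decide)
  · exact full_same 5 2 k38_5 (by decide) (by decide)
  · exact absurd hc (by decide)
  · exact full_same 2 2 k38_7 (by decide) (by decide)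
  · exact absurd hc (by decide)
  · exact full_same 17 17 k38_3 (by decide) (by decide)
  · exact absurd hc (by decide)
  · exact full_same 5 11 k38_3 (by decide) (by decide)
  · exact absurd hc (by decide)
  · exact full_same 4 7 k38_5 (by decide) (by decide)
  · exact absurd hc (by decide)
  · exact absurd hc (by decide)
  · exact absurd hc (by decide)
  · exact full_same 7 13 k38_3 (by decide) (by decide)
  · exact absurd hc (by decide)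
  · exact full_same 8 8 k38_5 (by decide) (by decide)
  · exact absurd hc (by decide)
  · exact full_same 2 5 k38_5 (by decide) (by decide)
  · exact absurd hc (by decide)
  · exact full_of_chk k38_27
  · exact absurd hc (by decide)
  · exact full_same 11 5 k38_3 (by decide) (by decide)
  · exact absurd hc (by decide)
  · exact full_same 5 5 k38_27 (by decide) (by decide)
  · exact absurd hc (by decide)
  · exact full_same 13 7 k38_3 (by decide) (by decide)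
  · exact absurd hc (by decide)
  · exact full_same 7 4 k38_5 (by decide) (by decide)
  · exact absurd hc (by decide)
  · exact full_of_chk k38_37

end Pool.Agent.N997.TF
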