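import Pool.Agent.N997.TF.Same

/-!
Degree 39: certificates.
-/

set_option maxRecDepth 100000

namespace Pool.Agent.N997.TF

def c39_1 : Cert :=
  ⟨[1],[1,2,4,5,7,8,10,11,14,16,17,19,20,22,23,25,28,29,31,32,34,35,37,38],[1,2,3,4,5,6,7,8,9,10,11,13],[[],[1,0,0,0,0,0,0,0,0,0,0,0],[0,1,0,0,0,0,0,0,0,0,0,0],[0,0,1,0,0,0,0,0,0,0,0,0],[0,0,0,1,0,0,0,0,0,0,0,0],[0,0,0,0,1,0,0,0,0,0,0,0],[0,0,0,0,0,1,0,0,0,0,0,0],[0,0,0,0,0,0,1,0,0,0,0,0],[0,0,0,0,0,0,0,1,0,0,0,0],[0,0,0,0,0,0,0,0,1,0,0,0],[0,0,0,0,0,0,0,0,0,1,0,0],[0,0,0,0,0,0,0,0,0,0,1,0],[1,-1,-1,1,-1,0,1,0,0,1,0,0],[0,0,0,0,0,0,0,0,0,0,0,1],[0,-1,0,1,-1,0,1,0,0,1,0,0],[0,-1,0,0,0,1,0,0,0,0,1,0],[0,0,-1,0,0,0,0,0,1,1,0,0],[1,-1,-1,0,-1,0,1,0,1,1,0,0],[0,-1,0,0,-1,1,0,1,0,0,1,0],[0,-1,0,0,-1,0,1,1,0,0,1,0],[0,1,0,0,1,0,-1,-1,0,0,-1,0],[0,1,0,0,1,-1,0,-1,0,0,-1,0],[-1,1,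1,0,1,0,-1,0,-1,-1,0,0],[0,0,1,0,0,0,0,0,-1,-1,0,0],[0,1,0,0,0,-1,0,0,0,0,-1,0],[0,1,0,-1,1,0,-1,0,0,-1,0,0],[0,0,0,0,0,0,0,0,0,0,0,-1],[-1,1,1,-1,1,0,-1,0,0,-1,0,0],[0,0,0,0,0,0,0,0,0,0,-1,0],[0,0,0,0,0,0,0,0,0,-1,0,0],[0,0,0,0,0,0,0,0,-1,0,0,0],[0,0,0,0,0,0,0,-1,0,0,0,0],[0,0,0,0,0,0,-1,0,0,0,0,0],[0,0,0,0,0,-1,0,0,0,0,0,0],[0,0,0,0,-1,0,0,0,0,0,0,0],[0,0,0,-1,0,0,0,0,0,0,0,0],[0,0,-1,0,0,0,0,0,0,0,0,0],[0,-1,0,0,0,0,0,0,0,0,0,0],[-1,0,0,0,0,0,0,0,0,0,0,0]],[],[1,2,4,5,7,8,10,11,14,16,17,19],[[-1,1,-1,-1,-1,-1,-1,-1,-1,1,-1,-1],[2,-4,0,0,0,0,0,2,2,0,2,0],[0,-2,0,0,0,2,2,0,0,-2,0,0],[-1,1,-1,1,1,1,-1,-1,-1,1,-1,1],[1,-3,1,1,1,-1,-1,1,1,-1,1,-1],[-1,1,1,1,-1,-1,1,-1,-1,-1,1,1],[-2,2,0,0,0,0,0,0,0,2,-2,0],[-1,1,1,-1,-1,1,1,-1,1,-1,-1,1],[-1,1,1,-1,1,-1,-1,1,-1,1,1,-1],[-1,3,-1,-1,1,-1,-1,1,-1,1,-1,1],[-2,2,0,0,0,0,2,-2,0,0,0,0],[-1,1,-1,1,-1,1,-1,1,1,-1,1,-1]],156,[(38,[(1,.two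 [1] [38])]),(37,[(1,.two [2] [37])]),(36,[(1,.two [3] [36])]),(35,[(1,.two [4] [35])]),(34,[(1,.two [5] [34])]),(33,[(1,.two [6] [33])]),(32,[(1,.two [7] [32])]),(31,[(1,.two [8] [31])]),(30,[(1,.two [9] [30])]),(29,[(1,.two [10] [29])]),(28,[(1,.two [11] [28])]),(26,[(1,.two [13] [26])]),(15,[(1,.hd 3 2)]),(16,[(1,.hd 3 3)]),(18,[(1,.hd 3 5)]),(19,[(1,.hd 3 6)]),(23,[(1,.hd 3 10)]),(24,[(1,.hd 3 11)]),(21,[(1,.two [1,6,32] [19,21,38])]),(20,[(1,.two [1,18,20] [7,33,38])]),(22,[(1,.two [1,16,22] [7,34,37])]),(14,[(1,.two [1,16,22] [14,29,35])]),(17,[(1,.two [1,16,22] [17,23,38])]),(25,[(1,.two [4,10,25] [7,34,37])]),(27,[(1,.two [4,5,30] [17,27,34])]),(12,[(1,.two [5,12,22] [9,34,35])])]⟩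

theorem k39_1 : chk 39 1 c39_1 = true := by decide +kernel

def c39_2 : Cert :=
  ⟨[1,2,4,8,16,32,25,11,22,5,10,20],[1,2,4,5,7,8,10,11,14,16,17,19,20,22,23,25,28,29,31,32,34,35,37,38],[1],[[],[1],[1],[0],[1],[1],[0],[-1],[1],[0],[1],[1],[0],[0],[-1],[0],[1],[-1],[0],[-1],[1],[0],[1],[-1],[0],[1],[0],[0],[-1],[-1],[0],[-1],[1],[0],[-1],[-1],[0],[-1],[-1]],[3],[1],[[-1]],156,[(6,[(1,.one [6])]),(9,[(1,.one [9])]),(12,[(1,.one [12])]),(13,[(1,.one [13])]),(15,[(1,.one [15])]),(18,[(1,.one [18])]),(21,[(1,.one [21])]),(24,[(1,.one [24])]),(26,[(1,.one [26])]),(27,[(1,.one [27])]),(30,[(1,.one [30])]),(33,[(1,.one [33])]),(36,[(1,.one [36])]),(7,[(1,.two [1] [7])]),(14,[(1,.two [1] [14])]),(17,[(1,.two [1] [17])]),(19,[(1,.two [1] [19])]),(23,[(1,.two [1] [23])]),(28,[(1,.two [1] [28])]),(29,[(1,.two [1] [29])]),(31,[(1,.two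 [1] [31])]),(34,[(1,.two [1] [34])]),(35,[(1,.two [1] [35])]),(37,[(1,.two [1] [37])]),(38,[(1,.two [1] [38])]),(2,[(1,.two [2] [7])]),(4,[(1,.two [4] [7])]),(5,[(1,.two [5] [7])]),(8,[(1,.two [8] [7])]),(10,[(1,.two [10] [7])]),(11,[(1,.two [11] [7])]),(16,[(1,.two [16] [7])]),(20,[(1,.two [20] [7])]),(22,[(1,.two [22] [7])]),(25,[(1,.two [25] [7])]),(32,[(1,.two [32] [7])])]⟩

theorem k39_2 : chk 39 2 c39_2 = true := by decide +kernel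

def c39_4 : Cert :=
  ⟨[1,4,16,25,22,10],[1,2,4,5,7,8,10,11,14,16,17,19,20,22,23,25,28,29,31,32,34,35,37,38],[1,13],[[],[1,0],[1,0],[0,0],[1,0],[1,0],[0,0],[-1,0],[1,0],[0,0],[1,0],[1,0],[0,0],[0,1],[-1,0],[0,0],[1,0],[-1,0],[0,0],[-1,0],[1,0],[0,0],[1,0],[-1,0],[0,0],[1,0],[0,-1],[0,0],[-1,0],[-1,0],[0,0],[-1,0],[1,0],[0,0],[-1,0],[-1,0],[0,0],[-1,0],[-1,0]],[3],[1,2],[[-1,-1],[-1,1]],156,[(6,[(1,.one [6])]),(9,[(1,.one [9])]),(12,[(1,.one [12])]),(15,[(1,.one [15])]),(18,[(1,.one [18])]),(21,[(1,.one [21])]),(24,[(1,.one [24])]),(27,[(1,.one [27])]),(30,[(1,.one [30])]),(33,[(1,.one [33])]),(36,[(1,.one [36])]),(7,[(1,.two [1] [7])]),(14,[(1,.two [1] [14])]),(17,[(1,.two [1] [17])]),(19,[(1,.two [1] [19])]),(23,[(1,.two [1] [23])]),(28,[(1,.two [1] [28])]),(29,[(1,.two [1] [29])]),(31,[(1,.two [1] [31])]),(34,[(1,.two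 [1] [34])]),(35,[(1,.two [1] [35])]),(37,[(1,.two [1] [37])]),(38,[(1,.two [1] [38])]),(2,[(1,.two [2] [7])]),(4,[(1,.two [4] [7])]),(5,[(1,.two [5] [7])]),(8,[(1,.two [8] [7])]),(10,[(1,.two [10] [7])]),(11,[(1,.two [11] [7])]),(16,[(1,.two [16] [7])]),(20,[(1,.two [20] [7])]),(22,[(1,.two [22] [7])]),(25,[(1,.two [25] [7])]),(32,[(1,.two [32] [7])]),(26,[(1,.two [13] [26])])]⟩

theorem k39_4 : chk 39 4 c39_4 = true := by decide +kernel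

def c39_5 : Cert :=
  ⟨[1,5,25,8],[1,2,4,5,7,8,10,11,14,16,17,19,20,22,23,25,28,29,31,32,34,35,37,38],[1,2,4],[[],[1,0,0],[0,1,0],[0,0,0],[0,0,1],[1,0,0],[0,0,0],[0,0,-1],[1,0,0],[0,0,0],[0,1,0],[0,1,0],[0,0,0],[0,0,0],[-1,0,0],[0,0,0],[0,1,0],[0,0,-1],[0,0,0],[0,0,-1],[0,0,1],[0,0,0],[0,0,1],[0,-1,0],[0,0,0],[1,0,0],[0,0,0],[0,0,0],[0,-1,0],[0,-1,0],[0,0,0],[-1,0,0],[0,0,1],[0,0,0],[-1,0,0],[0,0,-1],[0,0,0],[0,-1,0],[-1,0,0]],[3],[1,2,4],[[-1,-1,1],[-1,1,-1],[1,-1,-1]],156,[(6,[(1,.one [6])]),(9,[(1,.one [9])]),(12,[(1,.one [12])]),(13,[(1,.one [13])]),(15,[(1,.one [15])]),(18,[(1,.one [18])]),(21,[(1,.one [21])]),(24,[(1,.one [24])]),(26,[(1,.one [26])]),(27,[(1,.one [27])]),(30,[(1,.one [30])]),(33,[(1,.one [33])]),(36,[(1,.one [36])]),(14,[(1,.two [1] [14])]),(31,[(1,.two [1] [31])]),(34,[(1,.two [1] [34])]),(38,[(1,.two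 [1] [38])]),(5,[(1,.two [5] [14])]),(8,[(1,.two [8] [14])]),(25,[(1,.two [25] [14])]),(23,[(1,.two [2] [23])]),(28,[(1,.two [2] [28])]),(29,[(1,.two [2] [29])]),(37,[(1,.two [2] [37])]),(10,[(1,.two [10] [23])]),(11,[(1,.two [11] [23])]),(16,[(1,.two [16] [23])]),(7,[(1,.two [4] [7])]),(17,[(1,.two [4] [17])]),(19,[(1,.two [4] [19])]),(35,[(1,.two [4] [35])]),(20,[(1,.two [20] [7])]),(22,[(1,.two [22] [7])]),(32,[(1,.two [32] [7])])]⟩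

theorem k39_5 : chk 39 5 c39_5 = true := by decide +kernel

def c39_7 : Cert :=
  ⟨[1,7,10,31,22,37,25,19,16,34,4,28],[1,2,4,5,7,8,10,11,14,16,17,19,20,22,23,25,28,29,31,32,34,35,37,38],[13],[[],[0],[0],[0],[0],[0],[0],[0],[0],[0],[0],[0],[0],[1],[0],[0],[0],[0],[0],[0],[0],[0],[0],[0],[0],[0],[-1],[0],[0],[0],[0],[0],[0],[0],[0],[0],[0],[0],[0]],[1],[1],[[-1]],156,[(2,[(1,.one [2])]),(3,[(1,.one [3])]),(4,[(1,.one [4])]),(5,[(1,.one [5])]),(6,[(1,.one [6])]),(7,[(1,.one [7])]),(8,[(1,.one [8])]),(9,[(1,.one [9])]),(10,[(1,.one [10])]),(11,[(1,.one [11])]),(12,[(1,.one [12])]),(14,[(1,.one [14])]),(15,[(1,.one [15])]),(16,[(1,.one [16])]),(17,[(1,.one [17])]),(18,[(1,.one [18])]),(19,[(1,.one [19])]),(20,[(1,.one [20])]),(21,[(1,.one [21])]),(22,[(1,.one [22])]),(23,[(1,.one [23])]),(24,[(1,.one [24])]),(25,[(1,.one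 [25])]),(27,[(1,.one [27])]),(28,[(1,.one [28])]),(29,[(1,.one [29])]),(30,[(1,.one [30])]),(31,[(1,.one [31])]),(32,[(1,.one [32])]),(33,[(1,.one [33])]),(34,[(1,.one [34])]),(35,[(1,.one [35])]),(36,[(1,.one [36])]),(37,[(1,.one [37])]),(38,[(1,.one [38])]),(26,[(1,.two [13] [26])])]⟩

theorem k39_7 : chk 39 7 c39_7 = true := by decide +kernel

def c39_14 : Cert :=
  ⟨[1,14],[1,2,4,5,7,8,10,11,14,16,17,19,20,22,23,25,28,29,31,32,34,35,37,38],[1,2,3,4,5,6],[[],[1,0,0,0,0,0],[0,1,0,0,0,0],[0,0,1,0,0,0],[0,0,0,1,0,0],[0,0,0,0,1,0],[0,0,0,0,0,1],[0,1,0,0,1,0],[0,0,0,0,-1,0],[-2,0,1,2,0,0],[1,0,0,-1,0,0],[0,-1,0,0,0,0],[2,0,-1,0,0,0],[0,0,0,0,0,0],[1,0,0,0,0,0],[0,-2,0,0,0,1],[-1,0,0,1,0,0],[0,0,0,1,0,0],[0,-2,0,0,-2,1],[0,-1,0,0,-1,0],[0,1,0,0,1,0],[0,2,0,0,2,-1],[0,0,0,-1,0,0],[1,0,0,-1,0,0],[0,2,0,0,0,-1],[-1,0,0,0,0,0],[0,0,0,0,0,0],[-2,0,1,0,0,0],[0,1,0,0,0,0],[-1,0,0,1,0,0],[2,0,-1,-2,0,0],[0,0,0,0,1,0],[0,-1,0,0,-1,0],[0,0,0,0,0,-1],[0,0,0,0,-1,0],[0,0,0,-1,0,0],[0,0,-1,0,0,0],[0,-1,0,0,0,0],[-1,0,0,0,0,0]],[13],[1,2,4,5,7,10],[[0,2,-4,0,-2,0],[2,-4,0,0,0,-2],[-1,-1,1,-1,1,1],[-2,0,2,0,2,-2],[0,-2,0,2,2,-2],[-1,1,1,1,-1,1]],156,[(26,[(1,.one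 [26])]),(25,[(1,.two [1] [25])]),(38,[(1,.two [1] [38])]),(14,[(1,.two [14] [25])]),(11,[(1,.two [2] [11])]),(37,[(1,.two [2] [37])]),(28,[(1,.two [28] [11])]),(36,[(1,.two [3] [36])]),(22,[(1,.two [4] [22])]),(35,[(1,.two [4] [35])]),(17,[(1,.two [17] [22])]),(8,[(1,.two [5] [8])]),(34,[(1,.two [5] [34])]),(31,[(1,.two [31] [8])]),(33,[(1,.two [6] [33])]),(16,[(1,.one [1,16,22])]),(32,[(1,.one [2,5,32])]),(10,[(1,.one [4,10,25])]),(7,[(1,.one [7,34,37])]),(20,[(1,.one [8,11,20])]),(29,[(1,.one [14,29,35])]),(23,[(1,.one [17,23,38])]),(19,[(1,.one [19,28,31])]),(27,[(1,.hd 3 1)]),(15,[(1,.hd 3 2)]),(9,[(1,.hd 3 3)]),(18,[(1,.hd 3 5)]),(21,[(1,.hd 3 7)]),(24,[(1,.hd 3 8)]),(30,[(1,.hd 3 10)]),(12,[(1,.hd 3 12)])]⟩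

theorem k39_14 : chk 39 14 c39_14 = true := by decide +kernel

def c39_16 : Cert :=
  ⟨[1,16,22],[1,2,4,5,7,8,10,11,14,16,17,19,20,22,23,25,28,29,31,32,34,35,37,38],[1,3,6,13],[[],[1,0,0,0],[1,0,0,0],[0,1,0,0],[1,0,0,0],[1,0,0,0],[0,0,1,0],[-1,0,0,0],[1,0,0,0],[0,1,0,0],[1,0,0,0],[1,0,0,0],[0,-1,0,0],[0,0,0,1],[-1,0,0,0],[0,0,1,0],[1,0,0,0],[-1,0,0,0],[0,0,1,0],[-1,0,0,0],[1,0,0,0],[0,0,-1,0],[1,0,0,0],[-1,0,0,0],[0,0,-1,0],[1,0,0,0],[0,0,0,-1],[0,1,0,0],[-1,0,0,0],[-1,0,0,0],[0,-1,0,0],[-1,0,0,0],[1,0,0,0],[0,0,-1,0],[-1,0,0,0],[-1,0,0,0],[0,-1,0,0],[-1,0,0,0],[-1,0,0,0]],[],[1,2,4,8],[[-1,-1,-1,-1],[-1,-1,1,1],[-1,1,1,-1],[-1,1,-1,1]],156,[(7,[(1,.two [1] [7])]),(14,[(1,.two [1] [14])]),(17,[(1,.two [1] [17])]),(19,[(1,.two [1] [19])]),(23,[(1,.two [1] [23])]),(28,[(1,.two [1] [28])]),(29,[(1,.two [1] [29])]),(31,[(1,.two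 [1] [31])]),(34,[(1,.two [1] [34])]),(35,[(1,.two [1] [35])]),(37,[(1,.two [1] [37])]),(38,[(1,.two [1] [38])]),(2,[(1,.two [2] [7])]),(4,[(1,.two [4] [7])]),(5,[(1,.two [5] [7])]),(8,[(1,.two [8] [7])]),(10,[(1,.two [10] [7])]),(11,[(1,.two [11] [7])]),(16,[(1,.two [16] [7])]),(20,[(1,.two [20] [7])]),(22,[(1,.two [22] [7])]),(25,[(1,.two [25] [7])]),(32,[(1,.two [32] [7])]),(12,[(1,.two [3] [12])]),(30,[(1,.two [3] [30])]),(36,[(1,.two [3] [36])]),(9,[(1,.two [9] [12])]),(27,[(1,.two [27] [12])]),(21,[(1,.two [6] [21])]),(24,[(1,.two [6] [24])]),(33,[(1,.two [6] [33])]),(15,[(1,.two [15] [21])]),(18,[(1,.two [18] [21])]),(26,[(1,.two [13] [26])])]⟩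

theorem k39_16 : chk 39 16 c39_16 = true := by decide +kernel

def c39_17 : Cert :=
  ⟨[1,17,16,38,22,23],[1,2,4,5,7,8,10,11,14,16,17,19,20,22,23,25,28,29,31,32,34,35,37,38],[],[[],[],[],[],[],[],[],[],[],[],[],[],[],[],[],[],[],[],[],[],[],[],[],[],[],[],[],[],[],[],[],[],[],[],[],[],[],[],[]],[1],[],[],1,[(2,[(1,.one [2])]),(3,[(1,.one [3])]),(4,[(1,.one [4])]),(5,[(1,.one [5])]),(6,[(1,.one [6])]),(7,[(1,.one [7])]),(8,[(1,.one [8])]),(9,[(1,.one [9])]),(10,[(1,.one [10])]),(11,[(1,.one [11])]),(12,[(1,.one [12])]),(13,[(1,.one [13])]),(14,[(1,.one [14])]),(15,[(1,.one [15])]),(16,[(1,.one [16])]),(17,[(1,.one [17])]),(18,[(1,.one [18])]),(19,[(1,.one [19])]),(20,[(1,.one [20])]),(21,[(1,.one [21])]),(22,[(1,.one [22])]),(23,[(1,.one [23])]),(24,[(1,.one [24])]),(25,[(1,.one [25])]),(26,[(1,.one [26])]),(27,[(1,.one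 [27])]),(28,[(1,.one [28])]),(29,[(1,.one [29])]),(30,[(1,.one [30])]),(31,[(1,.one [31])]),(32,[(1,.one [32])]),(33,[(1,.one [33])]),(34,[(1,.one [34])]),(35,[(1,.one [35])]),(36,[(1,.one [36])]),(37,[(1,.one [37])]),(38,[(1,.one [38])])]⟩

theorem k39_17 : chk 39 17 c39_17 = true := by decide +kernel

def c39_25 : Cert :=
  ⟨[1,25],[1,2,4,5,7,8,10,11,14,16,17,19,20,22,23,25,28,29,31,32,34,35,37,38],[1,2,4,5,7,13],[[],[1,0,0,0,0,0],[0,1,0,0,0,0],[0,0,0,0,0,0],[0,0,1,0,0,0],[0,0,0,1,0,0],[0,0,0,0,0,0],[0,0,0,0,1,0],[0,0,0,1,0,0],[0,0,0,0,0,0],[-1,1,-1,1,-1,0],[0,1,0,0,0,0],[0,0,0,0,0,0],[0,0,0,0,0,1],[-1,0,0,0,0,0],[0,0,0,0,0,0],[-1,1,-1,1,-1,0],[0,0,-1,0,0,0],[0,0,0,0,0,0],[0,0,0,0,1,0],[0,0,0,0,-1,0],[0,0,0,0,0,0],[0,0,1,0,0,0],[1,-1,1,-1,1,0],[0,0,0,0,0,0],[1,0,0,0,0,0],[0,0,0,0,0,-1],[0,0,0,0,0,0],[0,-1,0,0,0,0],[1,-1,1,-1,1,0],[0,0,0,0,0,0],[0,0,0,-1,0,0],[0,0,0,0,-1,0],[0,0,0,0,0,0],[0,0,0,-1,0,0],[0,0,-1,0,0,0],[0,0,0,0,0,0],[0,-1,0,0,0,0],[-1,0,0,0,0,0]],[3],[1,2,4,5,7,10],[[0,-2,0,0,-2,0],[-1,1,-1,-1,1,1],[0,-2,0,2,0,0],[-1,1,1,-1,1,-1],[-1,-1,1,1,-1,1],[-1,1,-1,1,-1,-1]],156,[(6,[(1,.one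 [6])]),(9,[(1,.one [9])]),(12,[(1,.one [12])]),(15,[(1,.one [15])]),(18,[(1,.one [18])]),(21,[(1,.one [21])]),(24,[(1,.one [24])]),(27,[(1,.one [27])]),(30,[(1,.one [30])]),(33,[(1,.one [33])]),(36,[(1,.one [36])]),(14,[(1,.two [1] [14])]),(38,[(1,.two [1] [38])]),(25,[(1,.two [25] [14])]),(28,[(1,.two [2] [28])]),(37,[(1,.two [2] [37])]),(11,[(1,.two [11] [28])]),(17,[(1,.two [4] [17])]),(35,[(1,.two [4] [35])]),(22,[(1,.two [22] [17])]),(31,[(1,.two [5] [31])]),(34,[(1,.two [5] [34])]),(8,[(1,.two [8] [31])]),(20,[(1,.two [7] [20])]),(32,[(1,.two [7] [32])]),(19,[(1,.two [19] [20])]),(26,[(1,.two [13] [26])]),(16,[(1,.two [1,16,22] [7,34,37])]),(29,[(1,.two [1,16,22] [14,29,35])]),(23,[(1,.two [1,16,22] [17,23,38])]),(10,[(1,.two [4,10,25] [7,34,37])])]⟩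

theorem k39_25 : chk 39 25 c39_25 = true := by decide +kernel

def c39_29 : Cert :=
  ⟨[1,29,22,14,16,35],[1,2,4,5,7,8,10,11,14,16,17,19,20,22,23,25,28,29,31,32,34,35,37,38],[3,6],[[],[0,0],[0,0],[1,0],[0,0],[0,0],[0,1],[0,0],[0,0],[1,0],[0,0],[0,0],[-1,0],[0,0],[0,0],[0,1],[0,0],[0,0],[0,1],[0,0],[0,0],[0,-1],[0,0],[0,0],[0,-1],[0,0],[0,0],[1,0],[0,0],[0,0],[-1,0],[0,0],[0,0],[0,-1],[0,0],[0,0],[-1,0],[0,0],[0,0]],[1],[1,2],[[-1,-1],[-1,1]],156,[(2,[(1,.one [2])]),(4,[(1,.one [4])]),(5,[(1,.one [5])]),(7,[(1,.one [7])]),(8,[(1,.one [8])]),(10,[(1,.one [10])]),(11,[(1,.one [11])]),(13,[(1,.one [13])]),(14,[(1,.one [14])]),(16,[(1,.one [16])]),(17,[(1,.one [17])]),(19,[(1,.one [19])]),(20,[(1,.one [20])]),(22,[(1,.one [22])]),(23,[(1,.one [23])]),(25,[(1,.one [25])]),(26,[(1,.one [26])]),(28,[(1,.one [28])]),(29,[(1,.one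 [29])]),(31,[(1,.one [31])]),(32,[(1,.one [32])]),(34,[(1,.one [34])]),(35,[(1,.one [35])]),(37,[(1,.one [37])]),(38,[(1,.one [38])]),(12,[(1,.two [3] [12])]),(30,[(1,.two [3] [30])]),(36,[(1,.two [3] [36])]),(9,[(1,.two [9] [12])]),(27,[(1,.two [27] [12])]),(21,[(1,.two [6] [21])]),(24,[(1,.two [6] [24])]),(33,[(1,.two [6] [33])]),(15,[(1,.two [15] [21])]),(18,[(1,.two [18] [21])])]⟩

theorem k39_29 : chk 39 29 c39_29 = true := by decide +kernel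

def c39_31 : Cert :=
  ⟨[1,31,25,34],[1,2,4,5,7,8,10,11,14,16,17,19,20,22,23,25,28,29,31,32,34,35,37,38],[1,2,13],[[],[1,0,0],[0,1,0],[0,0,0],[-1,1,0],[-1,0,0],[0,0,0],[-1,1,0],[-1,0,0],[0,0,0],[0,-1,0],[0,1,0],[0,0,0],[0,0,1],[-1,0,0],[0,0,0],[0,-1,0],[1,-1,0],[0,0,0],[-1,1,0],[1,-1,0],[0,0,0],[-1,1,0],[0,1,0],[0,0,0],[1,0,0],[0,0,-1],[0,0,0],[0,-1,0],[0,1,0],[0,0,0],[1,0,0],[1,-1,0],[0,0,0],[1,0,0],[1,-1,0],[0,0,0],[0,-1,0],[-1,0,0]],[3],[1,2,4],[[2,0,-2],[-2,-2,0],[-1,1,-1]],156,[(6,[(1,.one [6])]),(9,[(1,.one [9])]),(12,[(1,.one [12])]),(15,[(1,.one [15])]),(18,[(1,.one [18])]),(21,[(1,.one [21])]),(24,[(1,.one [24])]),(27,[(1,.one [27])]),(30,[(1,.one [30])]),(33,[(1,.one [33])]),(36,[(1,.one [36])]),(10,[(1,.two [2] [10])]),(16,[(1,.two [2] [16])]),(28,[(1,.two [2] [28])]),(37,[(1,.two [2] [37])]),(11,[(1,.two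 [11] [10])]),(23,[(1,.two [23] [10])]),(29,[(1,.two [29] [10])]),(5,[(1,.two [5] [1])]),(25,[(1,.two [5] [25])]),(31,[(1,.two [5] [31])]),(34,[(1,.two [5] [34])]),(8,[(1,.two [8] [1])]),(14,[(1,.two [14] [1])]),(38,[(1,.two [38] [1])]),(26,[(1,.two [13] [26])]),(22,[(1,.one [1,16,22])]),(32,[(1,.one [2,5,32])]),(4,[(1,.one [3,4,32])]),(20,[(1,.one [4,15,20])]),(17,[(1,.one [4,17,18])]),(7,[(1,.one [7,12,20])]),(35,[(1,.one [7,35,36])]),(19,[(1,.one [19,24,35])])]⟩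

theorem k39_31 : chk 39 31 c39_31 = true := by decide +kernel

def c39_38 : Cert :=
  ⟨[1,38],[1,2,4,5,7,8,10,11,14,16,17,19,20,22,23,25,28,29,31,32,34,35,37,38],[],[[],[],[],[],[],[],[],[],[],[],[],[],[],[],[],[],[],[],[],[],[],[],[],[],[],[],[],[],[],[],[],[],[],[],[],[],[],[],[]],[1],[],[],1,[(2,[(1,.one [2])]),(3,[(1,.one [3])]),(4,[(1,.one [4])]),(5,[(1,.one [5])]),(6,[(1,.one [6])]),(7,[(1,.one [7])]),(8,[(1,.one [8])]),(9,[(1,.one [9])]),(10,[(1,.one [10])]),(11,[(1,.one [11])]),(12,[(1,.one [12])]),(13,[(1,.one [13])]),(14,[(1,.one [14])]),(15,[(1,.one [15])]),(16,[(1,.one [16])]),(17,[(1,.one [17])]),(18,[(1,.one [18])]),(19,[(1,.one [19])]),(20,[(1,.one [20])]),(21,[(1,.one [21])]),(22,[(1,.one [22])]),(23,[(1,.one [23])]),(24,[(1,.one [24])]),(25,[(1,.one [25])]),(26,[(1,.one [26])]),(27,[(1,.one [27])]),(28,[(1,.one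 [28])]),(29,[(1,.one [29])]),(30,[(1,.one [30])]),(31,[(1,.one [31])]),(32,[(1,.one [32])]),(33,[(1,.one [33])]),(34,[(1,.one [34])]),(35,[(1,.one [35])]),(36,[(1,.one [36])]),(37,[(1,.one [37])]),(38,[(1,.one [38])])]⟩

theorem k39_38 : chk 39 38 c39_38 = true := by decide +kernel

theorem all39 : ∀ x < 39, x.Coprime 39 → Full 39 x := by
  intro x hx hc
  interval_cases x
  · exact absurd hc (by decide)
  · exact full_of_chk k39_1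
  · exact full_of_chk k39_2
  · exact absurd hc (by decide)
  · exact full_of_chk k39_4
  · exact full_of_chk k39_5
  · exact absurd hc (by decide)
  · exact full_of_chk k39_7
  · exact full_same 3 3 k39_5 (by decide) (by decide)
  · exact absurd hc (by decide)
  · exact full_same 5 5 k39_4 (by decide) (by decide)
  · exact full_same 7 7 k39_2 (by decide) (by decide)
  · exact absurd hc (by decide)
  · exact absurd hc (by decide)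
  · exact full_of_chk k39_14
  · exact absurd hc (by decide)
  · exact full_of_chk k39_16
  · exact full_of_chk k39_17
  · exact absurd hc (by decide)
  · exact full_same 7 7 k39_7 (by decide) (by decide)
  · exact full_same 11 11 k39_2 (by decide) (by decide)
  · exact absurd hc (by decide)
  · exact full_same 2 2 k39_16 (by decide) (by decide)
  · exact full_same 5 5 k39_17 (by decide) (by decide)
  · exact absurd hc (by decide)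
  · exact full_of_chk k39_25
  · exact absurd hc (by decide)
  · exact absurd hc (by decide)
  · exact full_same 11 11 k39_7 (by decide) (by decide)
  · exact full_of_chk k39_29
  · exact absurd hc (by decide)
  · exact full_of_chk k39_31
  · exact full_same 5 5 k39_2 (by decide) (by decide)
  · exact absurd hc (by decide)
  · exact full_same 3 3 k39_31 (by decide) (by decide)
  · exact full_same 5 5 k39_29 (by decide) (by decide)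
  · exact absurd hc (by decide)
  · exact full_same 5 5 k39_7 (by decide) (by decide)
  · exact full_of_chk k39_38

end Pool.Agent.N997.TF
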