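import Pool.Agent.N997.TF.Same

/-!
Degree 40: certificates.
-/

set_option maxRecDepth 100000

namespace Pool.Agent.N997.TF

def c40_1 : Cert :=
  ⟨[1],[1,3,7,9,11,13,17,19,21,23,27,29,31,33,37,39],[1,2,3,4,5,6,7,9],[[],[1,0,0,0,0,0,0,0],[0,1,0,0,0,0,0,0],[0,0,1,0,0,0,0,0],[0,0,0,1,0,0,0,0],[0,0,0,0,1,0,0,0],[0,0,0,0,0,1,0,0],[0,0,0,0,0,0,1,0],[0,-1,0,1,0,1,0,0],[0,0,0,0,0,0,0,1],[-1,0,-1,0,2,1,1,-1],[0,-1,0,1,0,0,0,1],[0,-2,0,1,0,2,0,0],[0,-2,0,1,0,1,1,0],[0,2,0,-1,0,-1,0,0],[1,0,1,0,-1,-1,-1,1],[0,1,0,0,0,-1,0,0],[0,0,1,0,0,-1,0,0],[0,1,0,-1,0,0,0,0],[1,-1,0,0,0,0,0,0],[0,0,0,0,0,0,0,0],[-1,1,0,0,0,0,0,0],[0,-1,0,1,0,0,0,0],[0,0,-1,0,0,1,0,0],[0,-1,0,0,0,1,0,0],[-1,0,-1,0,1,1,1,-1],[0,-2,0,1,0,1,0,0],[0,2,0,-1,0,-1,-1,0],[0,2,0,-1,0,-2,0,0],[0,1,0,-1,0,0,0,-1],[1,0,1,0,-2,-1,-1,1],[0,0,0,0,0,0,0,-1],[0,1,0,-1,0,-1,0,0],[0,0,0,0,0,0,-1,0],[0,0,0,0,0,-1,0,0],[0,0,0,0,-1,0,0,0],[0,0,0,-1,0,0,0,0],[0,0,-1,0,0,0,0,0],[0,-1,0,0,0,0,0,0],[-1,0,0,0,0,0,0,0]],[20],[1,3,7,9,11,13,17,19],[[0,-1,-1,0,-1,0,0,-1],[1,-2,1,-1,1,0,1,1],[0,-1,0,1,0,1,0,-1],[-1,1,0,1,-1,0,0,0],[-1,1,1,-1,1,-1,-1,1],[-1,2,-1,0,0,0,-1,1],[-1,1,0,0,1,-1,0,0],[0,0,0,0,-1,1,1,-1]],80,[(39,[(1,.two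 [1] [39])]),(38,[(1,.two [2] [38])]),(37,[(1,.two [3] [37])]),(36,[(1,.two [4] [36])]),(35,[(1,.two [5] [35])]),(34,[(1,.two [6] [34])]),(33,[(1,.two [7] [33])]),(31,[(1,.two [9] [31])]),(12,[(1,.two [2,2,36] [12,34,34])]),(28,[(1,.two [6,6,28] [4,38,38])]),(21,[(1,.dup 1)]),(22,[(1,.dup 2)]),(23,[(1,.dup 3)]),(26,[(1,.dup 6)]),(11,[(1,.dup 11)]),(13,[(1,.dup 13)]),(14,[(1,.dup 14)]),(17,[(1,.dup 17)]),(18,[(1,.dup 18)]),(19,[(1,.dup 19)]),(8,[(1,.two [2,2,36] [8,34,38])]),(16,[(1,.two [2,2,36] [16,26,38])]),(24,[(1,.two [2,2,36] [22,24,34])]),(32,[(1,.two [2,2,36] [22,26,32])]),(29,[(1,.two [2,9,29] [4,38,38])]),(27,[(1,.two [6,7,27] [4,38,38])]),(25,[(1,.hd 5 1)]),(15,[(1,.hd 5 3)]),(10,[(1,.dup 5)]),(30,[(1,.dup 15)])]⟩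

theorem k40_1 : chk 40 1 c40_1 = true := by decide +kernel

def c40_3 : Cert :=
  ⟨[1,3,9,27],[1,3,7,9,11,13,17,19,21,23,27,29,31,33,37,39],[1,2],[[],[1,0],[0,1],[1,0],[0,0],[2,-1],[0,1],[-1,1],[0,0],[1,0],[0,0],[1,-1],[0,0],[-1,0],[0,1],[2,-1],[0,0],[1,-1],[0,1],[1,-1],[0,0],[-1,1],[0,-1],[-1,1],[0,0],[-2,1],[0,-1],[1,0],[0,0],[-1,1],[0,0],[-1,0],[0,0],[1,-1],[0,-1],[-2,1],[0,0],[-1,0],[0,-1],[-1,0]],[4],[1,7],[[-1,1],[0,-1]],80,[(8,[(1,.one [8])]),(10,[(1,.one [10])]),(12,[(1,.one [12])]),(16,[(1,.one [16])]),(20,[(1,.one [20])]),(24,[(1,.one [24])]),(28,[(1,.one [28])]),(30,[(1,.one [30])]),(32,[(1,.one [32])]),(36,[(1,.one [36])]),(13,[(1,.two [1] [13])]),(31,[(1,.two [1] [31])]),(37,[(1,.two [1] [37])]),(39,[(1,.two [1] [39])]),(3,[(1,.two [3] [13])]),(9,[(1,.two [9] [13])]),(27,[(1,.two [27] [13])]),(22,[(1,.two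 [2] [22])]),(26,[(1,.two [2] [26])]),(34,[(1,.two [2] [34])]),(38,[(1,.two [2] [38])]),(6,[(1,.two [6] [22])]),(14,[(1,.two [14] [22])]),(18,[(1,.two [18] [22])]),(5,[(1,.two [5] [2,39,39])]),(15,[(1,.two [15] [2,39,39])]),(25,[(1,.two [1,1,38] [25])]),(35,[(1,.two [1,1,38] [35])]),(11,[(1,.two [1] [4,11,25])]),(33,[(1,.two [1] [12,33,35])]),(17,[(1,.two [1] [17,28,35])]),(19,[(1,.two [1] [19,25,36])]),(21,[(1,.two [4,15,21] [13])]),(7,[(1,.two [5,7,28] [13])]),(23,[(1,.two [5,12,23] [13])]),(29,[(1,.two [15,29,36] [13])])]⟩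

theorem k40_3 : chk 40 3 c40_3 = true := by decide +kernel

def c40_7 : Cert :=
  ⟨[1,7,9,23],[1,3,7,9,11,13,17,19,21,23,27,29,31,33,37,39],[1,2],[[],[1,0],[0,1],[-1,1],[0,0],[0,0],[0,1],[1,0],[0,0],[1,0],[0,0],[1,-1],[0,0],[1,-1],[0,1],[0,0],[0,0],[-1,0],[0,1],[1,-1],[0,0],[-1,1],[0,-1],[1,0],[0,0],[0,0],[0,-1],[-1,1],[0,0],[-1,1],[0,0],[-1,0],[0,0],[-1,0],[0,-1],[0,0],[0,0],[1,-1],[0,-1],[-1,0]],[4],[1,3],[[-1,1],[0,-1]],80,[(5,[(1,.one [5])]),(8,[(1,.one [8])]),(10,[(1,.one [10])]),(12,[(1,.one [12])]),(15,[(1,.one [15])]),(16,[(1,.one [16])]),(20,[(1,.one [20])]),(24,[(1,.one [24])]),(25,[(1,.one [25])]),(28,[(1,.one [28])]),(30,[(1,.one [30])]),(32,[(1,.one [32])]),(35,[(1,.one [35])]),(36,[(1,.one [36])]),(17,[(1,.two [1] [17])]),(31,[(1,.two [1] [31])]),(33,[(1,.two [1] [33])]),(39,[(1,.two [1] [39])]),(7,[(1,.two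 [7] [17])]),(9,[(1,.two [9] [17])]),(23,[(1,.two [23] [17])]),(22,[(1,.two [2] [22])]),(26,[(1,.two [2] [26])]),(34,[(1,.two [2] [34])]),(38,[(1,.two [2] [38])]),(6,[(1,.two [6] [22])]),(14,[(1,.two [14] [22])]),(18,[(1,.two [18] [22])]),(3,[(1,.two [1] [3,15,22])]),(27,[(1,.two [1] [15,27,38])]),(21,[(1,.two [1] [21,25,34])]),(29,[(1,.two [1] [25,26,29])]),(13,[(1,.two [2,13,25] [17])]),(19,[(1,.two [6,15,19] [17])]),(11,[(1,.two [11,14,15] [17])]),(37,[(1,.two [18,25,37] [17])])]⟩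

theorem k40_7 : chk 40 7 c40_7 = true := by decide +kernel

def c40_9 : Cert :=
  ⟨[1,9],[1,3,7,9,11,13,17,19,21,23,27,29,31,33,37,39],[1,2,3,5],[[],[1,0,0,0],[0,1,0,0],[0,0,1,0],[0,0,0,0],[0,0,0,1],[0,1,0,0],[0,1,-1,0],[0,0,0,0],[1,0,0,0],[-2,2,-2,2],[1,-1,0,0],[0,0,0,0],[0,0,-1,0],[0,1,0,0],[2,-2,2,-1],[0,0,0,0],[0,-1,1,0],[0,1,0,0],[1,-1,0,0],[0,0,0,0],[-1,1,0,0],[0,-1,0,0],[0,1,-1,0],[0,0,0,0],[-2,2,-2,1],[0,-1,0,0],[0,0,1,0],[0,0,0,0],[-1,1,0,0],[2,-2,2,-2],[-1,0,0,0],[0,0,0,0],[0,-1,1,0],[0,-1,0,0],[0,0,0,-1],[0,0,0,0],[0,0,-1,0],[0,-1,0,0],[-1,0,0,0]],[4],[1,3,7,11],[[0,-1,-1,-2],[-1,1,0,2],[1,-2,0,-1],[-1,1,1,1]],80,[(8,[(1,.one [8])]),(12,[(1,.one [12])]),(16,[(1,.one [16])]),(20,[(1,.one [20])]),(24,[(1,.one [24])]),(28,[(1,.one [28])]),(32,[(1,.one [32])]),(36,[(1,.one [36])]),(31,[(1,.two [1] [31])]),(39,[(1,.two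 [1] [39])]),(9,[(1,.two [9] [31])]),(22,[(1,.two [2] [22])]),(26,[(1,.two [2] [26])]),(34,[(1,.two [2] [34])]),(38,[(1,.two [2] [38])]),(6,[(1,.two [6] [22])]),(14,[(1,.two [14] [22])]),(18,[(1,.two [18] [22])]),(13,[(1,.two [3] [13])]),(37,[(1,.two [3] [37])]),(27,[(1,.two [27] [13])]),(35,[(1,.two [5] [35])]),(21,[(1,.dup 1)]),(23,[(1,.dup 3)]),(7,[(1,.dup 7)]),(29,[(1,.dup 9)]),(11,[(1,.dup 11)]),(33,[(1,.dup 13)]),(17,[(1,.dup 17)]),(19,[(1,.dup 19)]),(25,[(1,.hd 5 1)]),(15,[(1,.hd 5 3)]),(10,[(1,.dup 5)]),(30,[(1,.dup 15)])]⟩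

theorem k40_9 : chk 40 9 c40_9 = true := by decide +kernel

def c40_11 : Cert :=
  ⟨[1,11],[1,3,7,9,11,13,17,19,21,23,27,29,31,33,37,39],[1,2,3,5],[[],[1,0,0,0],[0,1,0,0],[0,0,1,0],[0,2,0,0],[0,0,0,1],[2,-1,2,-2],[0,0,-1,0],[2,0,2,-2],[1,-1,0,0],[0,0,0,0],[1,0,0,0],[4,-2,4,-4],[2,-1,1,-2],[-2,1,-2,2],[0,0,0,1],[-2,2,-2,2],[-2,1,-1,2],[0,-1,0,0],[1,-1,0,0],[0,0,0,0],[-1,1,0,0],[0,1,0,0],[2,-1,1,-2],[2,-2,2,-2],[0,0,0,-1],[2,-1,2,-2],[-2,1,-1,2],[-4,2,-4,4],[-1,0,0,0],[0,0,0,0],[-1,1,0,0],[-2,0,-2,2],[0,0,1,0],[-2,1,-2,2],[0,0,0,-1],[0,-2,0,0],[0,0,-1,0],[0,-1,0,0],[-1,0,0,0]],[10],[1,3,9,13],[[-2,3,0,1],[0,-2,1,-1],[-1,2,1,2],[1,-3,-1,-1]],80,[(20,[(1,.one [20])]),(30,[(1,.one [30])]),(29,[(1,.two [1] [29])]),(39,[(1,.two [1] [39])]),(11,[(1,.two [11] [29])]),(18,[(1,.two [2] [18])]),(38,[(1,.two [2] [38])]),(22,[(1,.two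 [22] [18])]),(7,[(1,.two [3] [7])]),(37,[(1,.two [3] [37])]),(33,[(1,.two [33] [7])]),(25,[(1,.two [5] [25])]),(35,[(1,.two [5] [35])]),(15,[(1,.two [15] [25])]),(36,[(1,.one [2,2,36])]),(4,[(1,.one [4,18,18])]),(21,[(1,.one [1,18,21])]),(9,[(1,.one [2,9,29])]),(31,[(1,.one [11,31,38])]),(19,[(1,.one [19,22,39])]),(17,[(1,.hd 5 1)]),(27,[(1,.hd 5 3)]),(13,[(1,.hd 5 5)]),(23,[(1,.hd 5 7)]),(14,[(1,.one [3,14,23])]),(6,[(1,.one [6,7,27])]),(16,[(1,.one [6,16,18])]),(8,[(1,.one [8,14,18])]),(34,[(1,.one [8,34,38])]),(26,[(1,.one [16,26,38])]),(24,[(1,.one [22,24,34])]),(32,[(1,.one [22,26,32])]),(28,[(1,.two [2,2,36] [6,6,28])]),(12,[(1,.two [2,2,36] [12,14,14])])]⟩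

theorem k40_11 : chk 40 11 c40_11 = true := by decide +kernel

def c40_13 : Cert :=
  ⟨[1,13,9,37],[1,3,7,9,11,13,17,19,21,23,27,29,31,33,37,39],[1,5],[[],[1,0],[0,0],[-1,0],[0,0],[0,1],[0,0],[1,0],[0,0],[1,0],[0,2],[1,0],[0,0],[1,0],[0,0],[0,-1],[0,0],[-1,0],[0,0],[1,0],[0,0],[-1,0],[0,0],[1,0],[0,0],[0,1],[0,0],[-1,0],[0,0],[-1,0],[0,-2],[-1,0],[0,0],[-1,0],[0,0],[0,-1],[0,0],[1,0],[0,0],[-1,0]],[2],[1,7],[[-1,-1],[-1,1]],80,[(4,[(1,.one [4])]),(6,[(1,.one [6])]),(8,[(1,.one [8])]),(12,[(1,.one [12])]),(14,[(1,.one [14])]),(16,[(1,.one [16])]),(18,[(1,.one [18])]),(20,[(1,.one [20])]),(22,[(1,.one [22])]),(24,[(1,.one [24])]),(26,[(1,.one [26])]),(28,[(1,.one [28])]),(32,[(1,.one [32])]),(34,[(1,.one [34])]),(36,[(1,.one [36])]),(38,[(1,.one [38])]),(3,[(1,.two [1] [3])]),(17,[(1,.two [1] [17])]),(21,[(1,.two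 [1] [21])]),(27,[(1,.two [1] [27])]),(29,[(1,.two [1] [29])]),(31,[(1,.two [1] [31])]),(33,[(1,.two [1] [33])]),(39,[(1,.two [1] [39])]),(7,[(1,.two [7] [3])]),(9,[(1,.two [9] [3])]),(11,[(1,.two [11] [3])]),(13,[(1,.two [13] [3])]),(19,[(1,.two [19] [3])]),(23,[(1,.two [23] [3])]),(37,[(1,.two [37] [3])]),(15,[(1,.two [5] [15])]),(35,[(1,.two [5] [35])]),(25,[(1,.two [25] [15])]),(30,[(1,.one [5,5,30])]),(10,[(1,.one [10,15,15])])]⟩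

theorem k40_13 : chk 40 13 c40_13 = true := by decide +kernel

def c40_17 : Cert :=
  ⟨[1,17,9,33],[1,3,7,9,11,13,17,19,21,23,27,29,31,33,37,39],[1,5],[[],[1,0],[0,0],[1,0],[0,0],[0,1],[0,0],[-1,0],[0,0],[1,0],[-4,2],[1,0],[0,0],[-1,0],[0,0],[4,-1],[0,0],[1,0],[0,0],[1,0],[0,0],[-1,0],[0,0],[-1,0],[0,0],[-4,1],[0,0],[1,0],[0,0],[-1,0],[4,-2],[-1,0],[0,0],[1,0],[0,0],[0,-1],[0,0],[-1,0],[0,0],[-1,0]],[2],[1,3],[[1,-3],[-1,1]],80,[(4,[(1,.one [4])]),(6,[(1,.one [6])]),(8,[(1,.one [8])]),(12,[(1,.one [12])]),(14,[(1,.one [14])]),(16,[(1,.one [16])]),(18,[(1,.one [18])]),(20,[(1,.one [20])]),(22,[(1,.one [22])]),(24,[(1,.one [24])]),(26,[(1,.one [26])]),(28,[(1,.one [28])]),(32,[(1,.one [32])]),(34,[(1,.one [34])]),(36,[(1,.one [36])]),(38,[(1,.one [38])]),(7,[(1,.two [1] [7])]),(13,[(1,.two [1] [13])]),(21,[(1,.two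 [1] [21])]),(23,[(1,.two [1] [23])]),(29,[(1,.two [1] [29])]),(31,[(1,.two [1] [31])]),(37,[(1,.two [1] [37])]),(39,[(1,.two [1] [39])]),(3,[(1,.two [3] [7])]),(9,[(1,.two [9] [7])]),(11,[(1,.two [11] [7])]),(17,[(1,.two [17] [7])]),(19,[(1,.two [19] [7])]),(27,[(1,.two [27] [7])]),(33,[(1,.two [33] [7])]),(35,[(1,.two [5] [35])]),(25,[(1,.hd 5 1)]),(15,[(1,.hd 5 3)]),(10,[(1,.dup 5)]),(30,[(1,.dup 15)])]⟩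

theorem k40_17 : chk 40 17 c40_17 = true := by decide +kernel

def c40_19 : Cert :=
  ⟨[1,19],[1,3,7,9,11,13,17,19,21,23,27,29,31,33,37,39],[1,3,5,7],[[],[1,0,0,0],[0,0,0,0],[0,1,0,0],[0,0,0,0],[0,0,1,0],[0,0,0,0],[0,0,0,1],[0,0,0,0],[-1,-1,2,1],[0,0,0,0],[-1,-1,2,1],[0,0,0,0],[0,0,0,1],[0,0,0,0],[0,0,1,0],[0,0,0,0],[0,1,0,0],[0,0,0,0],[1,0,0,0],[0,0,0,0],[-1,0,0,0],[0,0,0,0],[0,-1,0,0],[0,0,0,0],[0,0,-1,0],[0,0,0,0],[0,0,0,-1],[0,0,0,0],[1,1,-2,-1],[0,0,0,0],[1,1,-2,-1],[0,0,0,0],[0,0,0,-1],[0,0,0,0],[0,0,-1,0],[0,0,0,0],[0,-1,0,0],[0,0,0,0],[-1,0,0,0]],[2],[1,3,7,9],[[0,-1,-1,0],[0,-1,0,1],[-1,1,1,-1],[-1,1,0,0]],80,[(4,[(1,.one [4])]),(6,[(1,.one [6])]),(8,[(1,.one [8])]),(10,[(1,.one [10])]),(12,[(1,.one [12])]),(14,[(1,.one [14])]),(16,[(1,.one [16])]),(18,[(1,.one [18])]),(20,[(1,.one [20])]),(22,[(1,.one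 [22])]),(24,[(1,.one [24])]),(26,[(1,.one [26])]),(28,[(1,.one [28])]),(30,[(1,.one [30])]),(32,[(1,.one [32])]),(34,[(1,.one [34])]),(36,[(1,.one [36])]),(38,[(1,.one [38])]),(21,[(1,.two [1] [21])]),(39,[(1,.two [1] [39])]),(19,[(1,.two [19] [21])]),(23,[(1,.two [3] [23])]),(37,[(1,.two [3] [37])]),(17,[(1,.two [17] [23])]),(25,[(1,.two [5] [25])]),(35,[(1,.two [5] [35])]),(15,[(1,.two [15] [25])]),(27,[(1,.two [7] [27])]),(33,[(1,.two [7] [33])]),(13,[(1,.two [13] [27])]),(9,[(1,.hd 5 1)]),(11,[(1,.hd 5 3)]),(29,[(1,.hd 5 5)]),(31,[(1,.hd 5 7)])]⟩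

theorem k40_19 : chk 40 19 c40_19 = true := by decide +kernel

def c40_21 : Cert :=
  ⟨[1,21],[1,3,7,9,11,13,17,19,21,23,27,29,31,33,37,39],[1,3,7,5],[[],[1,0,0,0],[2,0,0,0],[0,1,0,0],[4,-2,-2,0],[0,0,0,1],[0,2,0,0],[0,0,1,0],[2,0,-2,0],[-1,1,1,0],[0,0,0,2],[1,-1,-1,0],[0,2,-2,0],[0,0,-1,0],[0,0,2,0],[0,0,0,-1],[2,-2,0,0],[0,-1,0,0],[-2,2,2,0],[-1,0,0,0],[0,0,0,0],[1,0,0,0],[2,-2,-2,0],[0,1,0,0],[-2,2,0,0],[0,0,0,1],[0,0,-2,0],[0,0,1,0],[0,-2,2,0],[-1,1,1,0],[0,0,0,-2],[1,-1,-1,0],[-2,0,2,0],[0,0,-1,0],[0,-2,0,0],[0,0,0,-1],[-4,2,2,0],[0,-1,0,0],[-2,0,0,0],[-1,0,0,0]],[20],[1,3,7,9],[[-2,-1,1,2],[0,1,-2,-1],[1,-1,0,-2],[-1,1,1,-1]],80,[(19,[(1,.two [1] [19])]),(39,[(1,.two [1] [39])]),(21,[(1,.two [21] [19])]),(17,[(1,.two [3] [17])]),(37,[(1,.two [3] [37])]),(23,[(1,.two [23] [17])]),(15,[(1,.two [5] [15])]),(35,[(1,.two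 [5] [35])]),(25,[(1,.two [25] [15])]),(13,[(1,.two [7] [13])]),(33,[(1,.two [7] [33])]),(27,[(1,.two [27] [13])]),(38,[(1,.one [1,1,38])]),(2,[(1,.one [2,19,19])]),(34,[(1,.one [3,3,34])]),(30,[(1,.one [5,5,30])]),(6,[(1,.one [6,17,17])]),(26,[(1,.one [7,7,26])]),(10,[(1,.one [10,15,15])]),(14,[(1,.one [13,13,14])]),(12,[(1,.dup 6)]),(28,[(1,.dup 14)]),(18,[(1,.hd 5 2)]),(22,[(1,.hd 5 6)]),(24,[(1,.two [1,2,37] [19,24,37])]),(16,[(1,.two [1,16,23] [19,23,38])]),(36,[(1,.two [1,3,36] [1,17,22])]),(4,[(1,.two [3,18,19] [4,17,19])]),(32,[(1,.two [1,7,32] [1,13,26])]),(8,[(1,.two [7,14,19] [8,13,19])]),(9,[(1,.two [1,2,37] [9,33,38])]),(11,[(1,.two [1,2,37] [11,33,36])]),(29,[(1,.two [1,2,37] [13,29,38])]),(31,[(1,.two [1,2,37] [13,31,36])])]⟩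

theorem k40_21 : chk 40 21 c40_21 = true := by decide +kernel

def c40_29 : Cert :=
  ⟨[1,29],[1,3,7,9,11,13,17,19,21,23,27,29,31,33,37,39],[1,2,3,5],[[],[1,0,0,0],[0,1,0,0],[0,0,1,0],[0,0,0,0],[0,0,0,1],[0,1,0,0],[0,0,1,0],[0,0,0,0],[-1,1,0,0],[0,0,0,2],[-1,0,0,0],[0,0,0,0],[0,-1,1,0],[0,1,0,0],[0,0,0,-1],[0,0,0,0],[0,-1,1,0],[0,1,0,0],[1,-1,0,0],[0,0,0,0],[-1,1,0,0],[0,-1,0,0],[0,1,-1,0],[0,0,0,0],[0,0,0,1],[0,-1,0,0],[0,1,-1,0],[0,0,0,0],[1,0,0,0],[0,0,0,-2],[1,-1,0,0],[0,0,0,0],[0,0,-1,0],[0,-1,0,0],[0,0,0,-1],[0,0,0,0],[0,0,-1,0],[0,-1,0,0],[-1,0,0,0]],[4],[1,3,9,13],[[0,-1,0,-1],[0,0,-1,1],[-1,0,1,0],[-1,1,-1,-1]],80,[(8,[(1,.one [8])]),(12,[(1,.one [12])]),(16,[(1,.one [16])]),(20,[(1,.one [20])]),(24,[(1,.one [24])]),(28,[(1,.one [28])]),(32,[(1,.one [32])]),(36,[(1,.one [36])]),(11,[(1,.two [1] [11])]),(39,[(1,.two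 [1] [39])]),(29,[(1,.two [29] [11])]),(22,[(1,.two [2] [22])]),(26,[(1,.two [2] [26])]),(34,[(1,.two [2] [34])]),(38,[(1,.two [2] [38])]),(6,[(1,.two [6] [22])]),(14,[(1,.two [14] [22])]),(18,[(1,.two [18] [22])]),(33,[(1,.two [3] [33])]),(37,[(1,.two [3] [37])]),(7,[(1,.two [7] [33])]),(15,[(1,.two [5] [15])]),(35,[(1,.two [5] [35])]),(25,[(1,.two [25] [15])]),(30,[(1,.one [5,5,30])]),(10,[(1,.one [10,15,15])]),(21,[(1,.dup 1)]),(23,[(1,.dup 3)]),(27,[(1,.dup 7)]),(9,[(1,.dup 9)]),(31,[(1,.dup 11)]),(13,[(1,.dup 13)]),(17,[(1,.dup 17)]),(19,[(1,.dup 19)])]⟩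

theorem k40_29 : chk 40 29 c40_29 = true := by decide +kernel

def c40_31 : Cert :=
  ⟨[1,31],[1,3,7,9,11,13,17,19,21,23,27,29,31,33,37,39],[1,2,3,6],[[],[1,0,0,0],[0,1,0,0],[0,0,1,0],[0,2,0,0],[0,0,0,0],[0,0,0,1],[0,0,1,-1],[0,1,0,1],[-1,0,0,0],[0,0,0,0],[-1,1,0,0],[0,0,0,2],[0,0,1,0],[0,0,0,-1],[0,0,0,0],[0,1,0,-1],[0,0,1,-1],[0,-1,0,0],[1,-1,0,0],[0,0,0,0],[-1,1,0,0],[0,1,0,0],[0,0,-1,1],[0,-1,0,1],[0,0,0,0],[0,0,0,1],[0,0,-1,0],[0,0,0,-2],[1,-1,0,0],[0,0,0,0],[1,0,0,0],[0,-1,0,-1],[0,0,-1,1],[0,0,0,-1],[0,0,0,0],[0,-2,0,0],[0,0,-1,0],[0,-1,0,0],[-1,0,0,0]],[5],[1,3,7,11],[[0,-1,-1,0],[-1,0,1,-1],[-1,0,0,1],[0,1,-1,-1]],80,[(10,[(1,.one [10])]),(15,[(1,.one [15])]),(20,[(1,.one [20])]),(25,[(1,.one [25])]),(30,[(1,.one [30])]),(35,[(1,.one [35])]),(9,[(1,.two [1] [9])]),(39,[(1,.two [1] [39])]),(31,[(1,.two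 [31] [9])]),(18,[(1,.two [2] [18])]),(38,[(1,.two [2] [38])]),(22,[(1,.two [22] [18])]),(27,[(1,.two [3] [27])]),(37,[(1,.two [3] [37])]),(13,[(1,.two [13] [27])]),(14,[(1,.two [6] [14])]),(34,[(1,.two [6] [34])]),(26,[(1,.two [26] [14])]),(36,[(1,.one [2,2,36])]),(4,[(1,.one [4,18,18])]),(28,[(1,.one [6,6,28])]),(12,[(1,.one [12,14,14])]),(21,[(1,.one [1,18,21])]),(32,[(1,.one [2,6,32])]),(29,[(1,.one [2,9,29])]),(24,[(1,.one [2,14,24])]),(23,[(1,.one [3,14,23])]),(7,[(1,.one [6,7,27])]),(16,[(1,.one [6,16,18])]),(8,[(1,.one [8,14,18])]),(11,[(1,.one [11,31,38])]),(33,[(1,.one [13,33,34])]),(17,[(1,.one [17,26,37])]),(19,[(1,.one [19,22,39])])]⟩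

theorem k40_31 : chk 40 31 c40_31 = true := by decide +kernel

def c40_39 : Cert :=
  ⟨[1,39],[1,3,7,9,11,13,17,19,21,23,27,29,31,33,37,39],[],[[],[],[],[],[],[],[],[],[],[],[],[],[],[],[],[],[],[],[],[],[],[],[],[],[],[],[],[],[],[],[],[],[],[],[],[],[],[],[],[]],[1],[],[],1,[(2,[(1,.one [2])]),(3,[(1,.one [3])]),(4,[(1,.one [4])]),(5,[(1,.one [5])]),(6,[(1,.one [6])]),(7,[(1,.one [7])]),(8,[(1,.one [8])]),(9,[(1,.one [9])]),(10,[(1,.one [10])]),(11,[(1,.one [11])]),(12,[(1,.one [12])]),(13,[(1,.one [13])]),(14,[(1,.one [14])]),(15,[(1,.one [15])]),(16,[(1,.one [16])]),(17,[(1,.one [17])]),(18,[(1,.one [18])]),(19,[(1,.one [19])]),(20,[(1,.one [20])]),(21,[(1,.one [21])]),(22,[(1,.one [22])]),(23,[(1,.one [23])]),(24,[(1,.one [24])]),(25,[(1,.one [25])]),(26,[(1,.one [26])]),(27,[(1,.one [27])]),(28,[(1,.one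 [28])]),(29,[(1,.one [29])]),(30,[(1,.one [30])]),(31,[(1,.one [31])]),(32,[(1,.one [32])]),(33,[(1,.one [33])]),(34,[(1,.one [34])]),(35,[(1,.one [35])]),(36,[(1,.one [36])]),(37,[(1,.one [37])]),(38,[(1,.one [38])]),(39,[(1,.one [39])])]⟩

theorem k40_39 : chk 40 39 c40_39 = true := by decide +kernel

theorem all40 : ∀ x < 40, x.Coprime 40 → Full 40 x := by
  intro x hx hc
  interval_cases x
  · exact absurd hc (by decide)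
  · exact full_of_chk k40_1
  · exact absurd hc (by decide)
  · exact full_of_chk k40_3
  · exact absurd hc (by decide)
  · exact absurd hc (by decide)
  · exact absurd hc (by decide)
  · exact full_of_chk k40_7
  · exact absurd hc (by decide)
  · exact full_of_chk k40_9
  · exact absurd hc (by decide)
  · exact full_of_chk k40_11
  · exact absurd hc (by decide)
  · exact full_of_chk k40_13
  · exact absurd hc (by decide)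
  · exact absurd hc (by decide)
  · exact absurd hc (by decide)
  · exact full_of_chk k40_17
  · exact absurd hc (by decide)
  · exact full_of_chk k40_19
  · exact absurd hc (by decide)
  · exact full_of_chk k40_21
  · exact absurd hc (by decide)
  · exact full_same 3 3 k40_7 (by decide) (by decide)
  · exact absurd hc (by decide)
  · exact absurd hc (by decide)
  · exact absurd hc (by decide)
  · exact full_same 3 3 k40_3 (by decide) (by decide)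
  · exact absurd hc (by decide)
  · exact full_of_chk k40_29
  · exact absurd hc (by decide)
  · exact full_of_chk k40_31
  · exact absurd hc (by decide)
  · exact full_same 3 3 k40_17 (by decide) (by decide)
  · exact absurd hc (by decide)
  · exact absurd hc (by decide)
  · exact absurd hc (by decide)
  · exact full_same 3 3 k40_13 (by decide) (by decide)
  · exact absurd hc (by decide)
  · exact full_of_chk k40_39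

end Pool.Agent.N997.TF
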