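import Pool.Agent.N997.TF.Same

/-!
Degree 42: certificates.
-/

set_option maxRecDepth 100000

namespace Pool.Agent.N997.TF

def c42_1 : Cert :=
  ⟨[1],[1,5,11,13,17,19,23,25,29,31,37,41],[1,2,3,4,14,9],[[],[1,0,0,0,0,0],[0,1,0,0,0,0],[0,0,1,0,0,0],[0,0,0,1,0,0],[0,-1,1,1,0,0],[-1,0,1,1,0,0],[0,0,0,0,2,0],[-1,-1,1,2,0,0],[0,0,0,0,0,1],[2,0,0,-1,0,-1],[1,1,0,-1,0,-1],[-1,0,0,1,0,1],[1,0,0,0,0,-1],[0,0,0,0,1,0],[0,0,1,0,0,-1],[-2,-1,1,2,0,1],[1,1,-1,-1,0,0],[1,0,0,-1,0,0],[0,1,0,-1,0,0],[1,-1,0,0,0,0],[0,0,0,0,0,0],[-1,1,0,0,0,0],[0,-1,0,1,0,0],[-1,0,0,1,0,0],[-1,-1,1,1,0,0],[2,1,-1,-2,0,-1],[0,0,-1,0,0,1],[0,0,0,0,-1,0],[-1,0,0,0,0,1],[1,0,0,-1,0,-1],[-1,-1,0,1,0,1],[-2,0,0,1,0,1],[0,0,0,0,0,-1],[1,1,-1,-2,0,0],[0,0,0,0,-2,0],[1,0,-1,-1,0,0],[0,1,-1,-1,0,0],[0,0,0,-1,0,0],[0,0,-1,0,0,0],[0,-1,0,0,0,0],[-1,0,0,0,0,0]],[21],[1,5,11,13,17,19],[[0,-2,1,-2,-1,0],[0,-1,1,0,1,1],[-1,1,0,1,-1,0],[-1,2,-2,1,0,0],[-1,1,1,-1,1,-1],[0,0,-1,1,1,-1]],84,[(41,[(1,.two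 [1] [41])]),(40,[(1,.two [2] [40])]),(39,[(1,.two [3] [39])]),(38,[(1,.two [4] [38])]),(33,[(1,.two [9] [33])]),(28,[(1,.two [14] [28])]),(7,[(1,.two [7,14,21] [28,28,28])]),(35,[(1,.two [14,14,14] [21,28,35])]),(22,[(1,.dup 1)]),(23,[(1,.dup 2)]),(19,[(1,.dup 19)]),(20,[(1,.dup 20)]),(24,[(1,.two [1,1,40] [19,24,41])]),(32,[(1,.two [1,1,40] [19,32,33])]),(29,[(1,.two [1,1,40] [22,29,33])]),(30,[(1,.two [1,1,40] [22,30,32])]),(18,[(1,.two [1,18,23] [2,41,41])]),(11,[(1,.two [2,20,20] [11,32,41])]),(10,[(1,.two [9,10,23] [2,41,41])]),(13,[(1,.two [9,13,20] [2,41,41])]),(12,[(1,.two [10,12,20] [2,41,41])]),(8,[(1,.two [1,2,39] [8,38,38])]),(37,[(1,.two [1,4,37] [8,38,38])]),(17,[(1,.two [1,17,24] [8,38,38])]),(36,[(1,.two [2,4,36] [8,38,38])]),(27,[(1,.two [2,13,27] [8,38,38])]),(34,[(1,.two [4,4,34] [3,40,41])]),(5,[(1,.two [4,4,34] [5,38,41])]),(6,[(1,.two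 [4,4,34] [6,38,40])]),(15,[(1,.two [4,4,34] [15,29,40])]),(31,[(1,.two [4,4,34] [15,31,38])]),(16,[(1,.two [4,4,34] [16,30,38])]),(25,[(1,.two [4,4,34] [18,25,41])]),(26,[(1,.two [4,12,26] [8,38,38])])]⟩

theorem k42_1 : chk 42 1 c42_1 = true := by decide +kernel

def c42_5 : Cert :=
  ⟨[1,5,25,41,37,17],[1,5,11,13,17,19,23,25,29,31,37,41],[],[[],[],[],[],[],[],[],[],[],[],[],[],[],[],[],[],[],[],[],[],[],[],[],[],[],[],[],[],[],[],[],[],[],[],[],[],[],[],[],[],[],[]],[1],[],[],1,[(2,[(1,.one [2])]),(3,[(1,.one [3])]),(4,[(1,.one [4])]),(5,[(1,.one [5])]),(6,[(1,.one [6])]),(7,[(1,.one [7])]),(8,[(1,.one [8])]),(9,[(1,.one [9])]),(10,[(1,.one [10])]),(11,[(1,.one [11])]),(12,[(1,.one [12])]),(13,[(1,.one [13])]),(14,[(1,.one [14])]),(15,[(1,.one [15])]),(16,[(1,.one [16])]),(17,[(1,.one [17])]),(18,[(1,.one [18])]),(19,[(1,.one [19])]),(20,[(1,.one [20])]),(21,[(1,.one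 [21])]),(22,[(1,.one [22])]),(23,[(1,.one [23])]),(24,[(1,.one [24])]),(25,[(1,.one [25])]),(26,[(1,.one [26])]),(27,[(1,.one [27])]),(28,[(1,.one [28])]),(29,[(1,.one [29])]),(30,[(1,.one [30])]),(31,[(1,.one [31])]),(32,[(1,.one [32])]),(33,[(1,.one [33])]),(34,[(1,.one [34])]),(35,[(1,.one [35])]),(36,[(1,.one [36])]),(37,[(1,.one [37])]),(38,[(1,.one [38])]),(39,[(1,.one [39])]),(40,[(1,.one [40])]),(41,[(1,.one [41])])]⟩

theorem k42_5 : chk 42 5 c42_5 = true := by decide +kernel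

def c42_11 : Cert :=
  ⟨[1,11,37,29,25,23],[1,5,11,13,17,19,23,25,29,31,37,41],[2],[[],[0],[1],[0],[1],[0],[1],[0],[1],[0],[-1],[0],[1],[0],[0],[0],[1],[0],[-1],[0],[-1],[0],[1],[0],[1],[0],[-1],[0],[0],[0],[-1],[0],[1],[0],[-1],[0],[-1],[0],[-1],[0],[-1],[0]],[1],[1],[[-1]],84,[(3,[(1,.one [3])]),(5,[(1,.one [5])]),(7,[(1,.one [7])]),(9,[(1,.one [9])]),(11,[(1,.one [11])]),(13,[(1,.one [13])]),(14,[(1,.one [14])]),(15,[(1,.one [15])]),(17,[(1,.one [17])]),(19,[(1,.one [19])]),(21,[(1,.one [21])]),(23,[(1,.one [23])]),(25,[(1,.one [25])]),(27,[(1,.one [27])]),(28,[(1,.one [28])]),(29,[(1,.one [29])]),(31,[(1,.one [31])]),(33,[(1,.one [33])]),(35,[(1,.one [35])]),(37,[(1,.one [37])]),(39,[(1,.one [39])]),(41,[(1,.one [41])]),(10,[(1,.two [2] [10])]),(18,[(1,.two [2] [18])]),(20,[(1,.two [2] [20])]),(26,[(1,.two [2] [26])]),(30,[(1,.two [2] [30])]),(34,[(1,.two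 [2] [34])]),(36,[(1,.two [2] [36])]),(38,[(1,.two [2] [38])]),(40,[(1,.two [2] [40])]),(4,[(1,.two [4] [10])]),(6,[(1,.two [6] [10])]),(8,[(1,.two [8] [10])]),(12,[(1,.two [12] [10])]),(16,[(1,.two [16] [10])]),(22,[(1,.two [22] [10])]),(24,[(1,.two [24] [10])]),(32,[(1,.two [32] [10])])]⟩

theorem k42_11 : chk 42 11 c42_11 = true := by decide +kernel

def c42_13 : Cert :=
  ⟨[1,13],[1,5,11,13,17,19,23,25,29,31,37,41],[1,2,14],[[],[1,0,0],[0,1,0],[0,0,0],[1,0,0],[1,-1,0],[0,0,0],[0,0,2],[1,-1,0],[0,0,0],[1,0,0],[0,1,0],[0,0,0],[1,0,0],[0,0,1],[0,0,0],[0,-1,0],[0,1,0],[0,0,0],[-1,1,0],[1,-1,0],[0,0,0],[-1,1,0],[1,-1,0],[0,0,0],[0,-1,0],[0,1,0],[0,0,0],[0,0,-1],[-1,0,0],[0,0,0],[0,-1,0],[-1,0,0],[0,0,0],[-1,1,0],[0,0,-2],[0,0,0],[-1,1,0],[-1,0,0],[0,0,0],[0,-1,0],[-1,0,0]],[3],[1,5,11],[[-1,0,-1],[0,-1,1],[-1,1,1]],84,[(6,[(1,.one [6])]),(9,[(1,.one [9])]),(12,[(1,.one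 [12])]),(15,[(1,.one [15])]),(18,[(1,.one [18])]),(21,[(1,.one [21])]),(24,[(1,.one [24])]),(27,[(1,.one [27])]),(30,[(1,.one [30])]),(33,[(1,.one [33])]),(36,[(1,.one [36])]),(39,[(1,.one [39])]),(29,[(1,.two [1] [29])]),(32,[(1,.two [1] [32])]),(38,[(1,.two [1] [38])]),(41,[(1,.two [1] [41])]),(4,[(1,.two [4] [29])]),(10,[(1,.two [10] [29])]),(13,[(1,.two [13] [29])]),(16,[(1,.two [2] [16])]),(25,[(1,.two [2] [25])]),(31,[(1,.two [2] [31])]),(40,[(1,.two [2] [40])]),(11,[(1,.two [11] [16])]),(17,[(1,.two [17] [16])]),(26,[(1,.two [26] [16])]),(28,[(1,.two [14] [28])]),(8,[(1,.one [2,8,32])]),(22,[(1,.one [4,16,22])]),(5,[(1,.one [5,15,22])]),(19,[(1,.one [5,18,19])]),(37,[(1,.one [8,37,39])]),(34,[(1,.one [10,34,40])]),(20,[(1,.one [20,26,38])]),(23,[(1,.one [22,23,39])]),(7,[(1,.two [7,14,21] [28,28,28])]),(35,[(1,.two [14,14,14] [21,28,35])])]⟩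

theorem k42_13 : chk 42 13 c42_13 = true := by decide +kernel

def c42_19 : Cert :=
  ⟨[1,19,25,13,37,31],[1,5,11,13,17,19,23,25,29,31,37,41],[14],[[],[0],[0],[0],[0],[0],[0],[2],[0],[0],[0],[0],[0],[0],[1],[0],[0],[0],[0],[0],[0],[0],[0],[0],[0],[0],[0],[0],[-1],[0],[0],[0],[0],[0],[0],[-2],[0],[0],[0],[0],[0],[0]],[1],[1],[[-1]],84,[(2,[(1,.one [2])]),(3,[(1,.one [3])]),(4,[(1,.one [4])]),(5,[(1,.one [5])]),(6,[(1,.one [6])]),(8,[(1,.one [8])]),(9,[(1,.one [9])]),(10,[(1,.one [10])]),(11,[(1,.one [11])]),(12,[(1,.one [12])]),(13,[(1,.one [13])]),(15,[(1,.one [15])]),(16,[(1,.one [16])]),(17,[(1,.one [17])]),(18,[(1,.one [18])]),(19,[(1,.one [19])]),(20,[(1,.one [20])]),(21,[(1,.one [21])]),(22,[(1,.one [22])]),(23,[(1,.one [23])]),(24,[(1,.one [24])]),(25,[(1,.one [25])]),(26,[(1,.one [26])]),(27,[(1,.one [27])]),(29,[(1,.one [29])]),(30,[(1,.one [30])]),(31,[(1,.one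 [31])]),(32,[(1,.one [32])]),(33,[(1,.one [33])]),(34,[(1,.one [34])]),(36,[(1,.one [36])]),(37,[(1,.one [37])]),(38,[(1,.one [38])]),(39,[(1,.one [39])]),(40,[(1,.one [40])]),(41,[(1,.one [41])]),(28,[(1,.two [14] [28])]),(7,[(1,.two [7,14,21] [28,28,28])]),(35,[(1,.two [14,14,14] [21,28,35])])]⟩

theorem k42_19 : chk 42 19 c42_19 = true := by decide +kernel

def c42_25 : Cert :=
  ⟨[1,25,37],[1,5,11,13,17,19,23,25,29,31,37,41],[2,14],[[],[0,0],[1,0],[0,0],[1,0],[0,0],[1,0],[0,2],[1,0],[0,0],[-1,0],[0,0],[1,0],[0,0],[0,1],[0,0],[1,0],[0,0],[-1,0],[0,0],[-1,0],[0,0],[1,0],[0,0],[1,0],[0,0],[-1,0],[0,0],[0,-1],[0,0],[-1,0],[0,0],[1,0],[0,0],[-1,0],[0,-2],[-1,0],[0,0],[-1,0],[0,0],[-1,0],[0,0]],[1],[1,11],[[-1,-1],[-1,1]],84,[(3,[(1,.one [3])]),(5,[(1,.one [5])]),(9,[(1,.one [9])]),(11,[(1,.one [11])]),(13,[(1,.one [13])]),(15,[(1,.one [15])]),(17,[(1,.one [17])]),(19,[(1,.one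 [19])]),(21,[(1,.one [21])]),(23,[(1,.one [23])]),(25,[(1,.one [25])]),(27,[(1,.one [27])]),(29,[(1,.one [29])]),(31,[(1,.one [31])]),(33,[(1,.one [33])]),(37,[(1,.one [37])]),(39,[(1,.one [39])]),(41,[(1,.one [41])]),(10,[(1,.two [2] [10])]),(18,[(1,.two [2] [18])]),(20,[(1,.two [2] [20])]),(26,[(1,.two [2] [26])]),(30,[(1,.two [2] [30])]),(34,[(1,.two [2] [34])]),(36,[(1,.two [2] [36])]),(38,[(1,.two [2] [38])]),(40,[(1,.two [2] [40])]),(4,[(1,.two [4] [10])]),(6,[(1,.two [6] [10])]),(8,[(1,.two [8] [10])]),(12,[(1,.two [12] [10])]),(16,[(1,.two [16] [10])]),(22,[(1,.two [22] [10])]),(24,[(1,.two [24] [10])]),(32,[(1,.two [32] [10])]),(28,[(1,.two [14] [28])]),(7,[(1,.two [7,14,21] [28,28,28])]),(35,[(1,.two [14,14,14] [21,28,35])])]⟩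

theorem k42_25 : chk 42 25 c42_25 = true := by decide +kernel

def c42_29 : Cert :=
  ⟨[1,29],[1,5,11,13,17,19,23,25,29,31,37,41],[1,2,4],[[],[1,0,0],[0,1,0],[0,2,-2],[0,0,1],[0,1,-1],[-1,2,-1],[0,0,0],[-1,1,0],[2,0,0],[0,0,-1],[-1,1,-1],[1,0,1],[-1,0,0],[0,0,0],[-2,2,-2],[0,1,0],[1,-1,1],[1,0,-1],[0,1,-1],[1,-1,0],[0,0,0],[-1,1,0],[0,-1,1],[-1,0,1],[-1,1,-1],[0,-1,0],[2,-2,2],[0,0,0],[1,0,0],[-1,0,-1],[1,-1,1],[0,0,1],[-2,0,0],[1,-1,0],[0,0,0],[1,-2,1],[0,-1,1],[0,0,-1],[0,-2,2],[0,-1,0],[-1,0,0]],[7],[1,5,11],[[0,-2,-1],[-2,1,1],[1,0,-2]],84,[(14,[(1,.one [14])]),(21,[(1,.one [21])]),(28,[(1,.one [28])]),(35,[(1,.one [35])]),(13,[(1,.two [1] [13])]),(41,[(1,.two [1] [41])]),(29,[(1,.two [29] [13])]),(26,[(1,.two [2] [26])]),(40,[(1,.two [2] [40])]),(16,[(1,.two [16] [26])]),(10,[(1,.two [4] [10])]),(38,[(1,.two [4] [38])]),(32,[(1,.two [32] [10])]),(39,[(1,.two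 [2,2,38] [7,38,39])]),(3,[(1,.two [3,4,35] [4,40,40])]),(22,[(1,.dup 1)]),(23,[(1,.dup 2)]),(5,[(1,.dup 5)]),(8,[(1,.dup 8)]),(11,[(1,.dup 11)]),(34,[(1,.dup 13)]),(37,[(1,.dup 16)]),(17,[(1,.dup 17)]),(19,[(1,.dup 19)]),(20,[(1,.dup 20)]),(15,[(1,.hd 3 1)]),(33,[(1,.hd 3 5)]),(25,[(1,.hd 3 11)]),(27,[(1,.hd 3 13)]),(31,[(1,.two [1,13,28] [25,28,31])]),(30,[(1,.two [1,1,40] [4,8,30])]),(24,[(1,.two [1,1,40] [5,13,24])]),(6,[(1,.two [1,1,40] [6,13,23])]),(36,[(1,.two [1,5,36] [1,8,33])]),(18,[(1,.two [1,18,23] [1,8,33])]),(9,[(1,.two [7,9,26] [2,7,33])]),(12,[(1,.two [10,12,20] [2,41,41])])]⟩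

theorem k42_29 : chk 42 29 c42_29 = true := by decide +kernel

def c42_41 : Cert :=
  ⟨[1,41],[1,5,11,13,17,19,23,25,29,31,37,41],[],[[],[],[],[],[],[],[],[],[],[],[],[],[],[],[],[],[],[],[],[],[],[],[],[],[],[],[],[],[],[],[],[],[],[],[],[],[],[],[],[],[],[]],[1],[],[],1,[(2,[(1,.one [2])]),(3,[(1,.one [3])]),(4,[(1,.one [4])]),(5,[(1,.one [5])]),(6,[(1,.one [6])]),(7,[(1,.one [7])]),(8,[(1,.one [8])]),(9,[(1,.one [9])]),(10,[(1,.one [10])]),(11,[(1,.one [11])]),(12,[(1,.one [12])]),(13,[(1,.one [13])]),(14,[(1,.one [14])]),(15,[(1,.one [15])]),(16,[(1,.one [16])]),(17,[(1,.one [17])]),(18,[(1,.one [18])]),(19,[(1,.one [19])]),(20,[(1,.one [20])]),(21,[(1,.one [21])]),(22,[(1,.one [22])]),(23,[(1,.one [23])]),(24,[(1,.one [24])]),(25,[(1,.one [25])]),(26,[(1,.one [26])]),(27,[(1,.one [27])]),(28,[(1,.one [28])]),(29,[(1,.one [29])]),(30,[(1,.one [30])]),(31,[(1,.one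 [31])]),(32,[(1,.one [32])]),(33,[(1,.one [33])]),(34,[(1,.one [34])]),(35,[(1,.one [35])]),(36,[(1,.one [36])]),(37,[(1,.one [37])]),(38,[(1,.one [38])]),(39,[(1,.one [39])]),(40,[(1,.one [40])]),(41,[(1,.one [41])])]⟩

theorem k42_41 : chk 42 41 c42_41 = true := by decide +kernel

theorem all42 : ∀ x < 42, x.Coprime 42 → Full 42 x := by
  intro x hx hc
  interval_cases x
  · exact absurd hc (by decide)
  · exact full_of_chk k42_1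
  · exact absurd hc (by decide)
  · exact absurd hc (by decide)
  · exact absurd hc (by decide)
  · exact full_of_chk k42_5
  · exact absurd hc (by decide)
  · exact absurd hc (by decide)
  · exact absurd hc (by decide)
  · exact absurd hc (by decide)
  · exact absurd hc (by decide)
  · exact full_of_chk k42_11
  · exact absurd hc (by decide)
  · exact full_of_chk k42_13
  · exact absurd hc (by decide)
  · exact absurd hc (by decide)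
  · exact absurd hc (by decide)
  · exact full_same 5 5 k42_5 (by decide) (by decide)
  · exact absurd hc (by decide)
  · exact full_of_chk k42_19
  · exact absurd hc (by decide)
  · exact absurd hc (by decide)
  · exact absurd hc (by decide)
  · exact full_same 5 5 k42_11 (by decide) (by decide)
  · exact absurd hc (by decide)
  · exact full_of_chk k42_25
  · exact absurd hc (by decide)
  · exact absurd hc (by decide)
  · exact absurd hc (by decide)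
  · exact full_of_chk k42_29
  · exact absurd hc (by decide)
  · exact full_same 5 5 k42_19 (by decide) (by decide)
  · exact absurd hc (by decide)
  · exact absurd hc (by decide)
  · exact absurd hc (by decide)
  · exact absurd hc (by decide)
  · exact absurd hc (by decide)
  · exact full_same 2 2 k42_25 (by decide) (by decide)
  · exact absurd hc (by decide)
  · exact absurd hc (by decide)
  · exact absurd hc (by decide)
  · exact full_of_chk k42_41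

end Pool.Agent.N997.TF
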