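import Pool.Agent.N997.TF.Same

/-!
Degree 45: certificates.
-/

set_option maxRecDepth 100000

namespace Pool.Agent.N997.TF

def c45_1 : Cert :=
  ⟨[1],[1,2,4,7,8,11,13,14,16,17,19,22,23,26,28,29,31,32,34,37,38,41,43,44],[1,2,3,4,5,6,7,8,9,10,11,12],[[],[1,0,0,0,0,0,0,0,0,0,0,0],[0,1,0,0,0,0,0,0,0,0,0,0],[0,0,1,0,0,0,0,0,0,0,0,0],[0,0,0,1,0,0,0,0,0,0,0,0],[0,0,0,0,1,0,0,0,0,0,0,0],[0,0,0,0,0,1,0,0,0,0,0,0],[0,0,0,0,0,0,1,0,0,0,0,0],[0,0,0,0,0,0,0,1,0,0,0,0],[0,0,0,0,0,0,0,0,1,0,0,0],[0,0,0,0,0,0,0,0,0,1,0,0],[0,0,0,0,0,0,0,0,0,0,1,0],[0,0,0,0,0,0,0,0,0,0,0,1],[1,1,0,-1,-1,-1,0,-1,0,1,1,1],[1,1,-1,0,-1,-1,-1,0,1,0,1,1],[0,0,0,0,0,-1,0,0,1,0,0,1],[0,1,0,0,-1,-1,-1,0,1,0,1,1],[1,0,0,-1,-1,0,0,-1,0,1,1,1],[0,0,-1,0,0,0,0,0,1,0,0,1],[0,0,0,-1,0,0,0,0,0,0,1,1],[0,0,0,0,-1,-1,0,0,1,1,0,1],[0,0,-1,0,0,-1,0,0,2,0,0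,1],[0,0,-1,0,0,-1,-1,1,2,0,0,1],[0,0,1,0,0,1,1,-1,-2,0,0,-1],[0,0,1,0,0,1,0,0,-2,0,0,-1],[0,0,0,0,1,1,0,0,-1,-1,0,-1],[0,0,0,1,0,0,0,0,0,0,-1,-1],[0,0,1,0,0,0,0,0,-1,0,0,-1],[-1,0,0,1,1,0,0,1,0,-1,-1,-1],[0,-1,0,0,1,1,1,0,-1,0,-1,-1],[0,0,0,0,0,1,0,0,-1,0,0,-1],[-1,-1,1,0,1,1,1,0,-1,0,-1,-1],[-1,-1,0,1,1,1,0,1,0,-1,-1,-1],[0,0,0,0,0,0,0,0,0,0,0,-1],[0,0,0,0,0,0,0,0,0,0,-1,0],[0,0,0,0,0,0,0,0,0,-1,0,0],[0,0,0,0,0,0,0,0,-1,0,0,0],[0,0,0,0,0,0,0,-1,0,0,0,0],[0,0,0,0,0,0,-1,0,0,0,0,0],[0,0,0,0,0,-1,0,0,0,0,0,0],[0,0,0,0,-1,0,0,0,0,0,0,0],[0,0,0,-1,0,0,0,0,0,0,0,0],[0,0,-1,0,0,0,0,0,0,0,0,0],[0,-1,0,0,0,0,0,0,0,0,0,0],[-1,0,0,0,0,0,0,0,0,0,0,0]],[],[1,2,4,7,8,11,13,14,16,17,19,22],[[-1,1,-1,0,0,-1,0,-1,0,-1,0,0],[-1,1,-1,0,0,0,1,0,1,0,1,0],[0,-1,0,0,0,1,1,0,0,0,0,-1],[1,-1,0,0,1,0,-1,0,-1,0,0,1],[1,-2,1,0,0,0,-1,1,0,1,-1,0],[1,-2,1,1,-1,0,0,0,0,0,0,0],[0,-1,1,0,-1,1,0,0,0,1,0,-1],[1,-1,1,-1,0,0,-1,1,0,0,-1,1],[-1,2,0,-1,1,-1,-1,1,-1,0,0,1],[-1,1,0,0,0,0,1,-1,0,0,0,0],[-2,2,-1,1,0,0,1,-1,1,-1,1,-1],[-2,3,-1,0,0,0,0,0,0,0,0,0]],90,[(44,[(1,.two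 [1] [44])]),(43,[(1,.two [2] [43])]),(42,[(1,.two [3] [42])]),(41,[(1,.two [4] [41])]),(40,[(1,.two [5] [40])]),(39,[(1,.two [6] [39])]),(38,[(1,.two [7] [38])]),(37,[(1,.two [8] [37])]),(36,[(1,.two [9] [36])]),(35,[(1,.two [10] [35])]),(34,[(1,.two [11] [34])]),(33,[(1,.two [12] [33])]),(18,[(1,.hd 3 3)]),(19,[(1,.hd 3 4)]),(21,[(1,.hd 3 6)]),(22,[(1,.hd 3 7)]),(26,[(1,.hd 3 11)]),(27,[(1,.hd 3 12)]),(30,[(1,.two [3,3,39] [18,30,42])]),(15,[(1,.two [3,15,27] [6,42,42])]),(24,[(1,.two [3,18,24] [18,33,39])]),(20,[(1,.two [5,5,35] [20,30,40])]),(25,[(1,.two [5,15,25] [10,40,40])]),(23,[(1,.two [1,21,23] [8,38,44])]),(28,[(1,.hd 5 1)]),(29,[(1,.hd 5 2)]),(16,[(1,.hd 5 7)]),(17,[(1,.hd 5 8)]),(31,[(1,.hd 3 1)]),(32,[(1,.hd 3 2)]),(13,[(1,.hd 3 13)]),(14,[(1,.hd 3 14)])]⟩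

theorem k45_1 : chk 45 1 c45_1 = true := by decide +kernel

def c45_2 : Cert :=
  ⟨[1,2,4,8,16,32,19,38,31,17,34,23],[1,2,4,7,8,11,13,14,16,17,19,22,23,26,28,29,31,32,34,37,38,41,43,44],[1],[[],[1],[1],[3],[1],[0],[3],[-1],[1],[0],[0],[-1],[3],[-1],[-1],[0],[1],[1],[0],[1],[0],[-3],[-1],[1],[3],[0],[-1],[0],[-1],[-1],[0],[1],[1],[-3],[1],[0],[0],[-1],[1],[-3],[0],[-1],[-3],[-1],[-1]],[5],[1],[[-1]],90,[(9,[(1,.one [9])]),(10,[(1,.one [10])]),(15,[(1,.one [15])]),(18,[(1,.one [18])]),(20,[(1,.one [20])]),(25,[(1,.one [25])]),(27,[(1,.one [27])]),(30,[(1,.one [30])]),(35,[(1,.one [35])]),(36,[(1,.one [36])]),(40,[(1,.one [40])]),(7,[(1,.two [1] [7])]),(11,[(1,.two [1] [11])]),(13,[(1,.two [1] [13])]),(14,[(1,.two [1] [14])]),(22,[(1,.two [1] [22])]),(26,[(1,.two [1] [26])]),(28,[(1,.two [1] [28])]),(29,[(1,.two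 [1] [29])]),(37,[(1,.two [1] [37])]),(41,[(1,.two [1] [41])]),(43,[(1,.two [1] [43])]),(44,[(1,.two [1] [44])]),(2,[(1,.two [2] [7])]),(4,[(1,.two [4] [7])]),(8,[(1,.two [8] [7])]),(16,[(1,.two [16] [7])]),(17,[(1,.two [17] [7])]),(19,[(1,.two [19] [7])]),(23,[(1,.two [23] [7])]),(31,[(1,.two [31] [7])]),(32,[(1,.two [32] [7])]),(34,[(1,.two [34] [7])]),(38,[(1,.two [38] [7])]),(42,[(1,.two [1] [1,2,42])]),(21,[(1,.two [1] [1,21,23])]),(39,[(1,.two [2] [2,4,39])]),(33,[(1,.two [4] [4,8,33])]),(3,[(1,.two [3,13,29] [13])]),(6,[(1,.two [6,11,28] [11])]),(12,[(1,.two [7,12,26] [7])]),(24,[(1,.two [7,14,24] [7])])]⟩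

theorem k45_2 : chk 45 2 c45_2 = true := by decide +kernel

def c45_4 : Cert :=
  ⟨[1,4,16,19,31,34],[1,2,4,7,8,11,13,14,16,17,19,22,23,26,28,29,31,32,34,37,38,41,43,44],[1,2],[[],[1,0],[0,1],[3,0],[1,0],[1,-1],[0,3],[0,-1],[0,1],[0,0],[-1,1],[-1,0],[3,0],[0,-1],[-1,0],[3,-3],[1,0],[0,1],[0,0],[1,0],[1,-1],[0,-3],[0,-1],[0,1],[0,3],[-1,1],[-1,0],[0,0],[0,-1],[-1,0],[-3,3],[1,0],[0,1],[-3,0],[1,0],[1,-1],[0,0],[0,-1],[0,1],[0,-3],[-1,1],[-1,0],[-3,0],[0,-1],[-1,0]],[9],[1,2],[[-2,1],[1,-2]],90,[(18,[(1,.one [18])]),(27,[(1,.one [27])]),(36,[(1,.one [36])]),(11,[(1,.two [1] [11])]),(14,[(1,.two [1] [14])]),(26,[(1,.two [1] [26])]),(29,[(1,.two [1] [29])]),(41,[(1,.two [1] [41])]),(44,[(1,.two [1] [44])]),(4,[(1,.two [4] [11])]),(16,[(1,.two [16] [11])]),(19,[(1,.two [19] [11])]),(31,[(1,.two [31] [11])]),(34,[(1,.two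 [34] [11])]),(7,[(1,.two [2] [7])]),(13,[(1,.two [2] [13])]),(22,[(1,.two [2] [22])]),(28,[(1,.two [2] [28])]),(37,[(1,.two [2] [37])]),(43,[(1,.two [2] [43])]),(8,[(1,.two [8] [7])]),(17,[(1,.two [17] [7])]),(23,[(1,.two [23] [7])]),(32,[(1,.two [32] [7])]),(38,[(1,.two [38] [7])]),(42,[(1,.two [1,1,43] [1,2,42])]),(3,[(1,.two [3,13,29] [29,29,32])]),(33,[(1,.two [4,4,37] [4,8,33])]),(12,[(1,.two [7,12,26] [26,26,38])]),(39,[(1,.two [2,2,41] [2,4,39])]),(6,[(1,.two [6,11,28] [28,28,34])]),(24,[(1,.two [7,14,24] [7,7,31])]),(21,[(1,.two [8,8,29] [8,16,21])]),(10,[(1,.two [1,1,43] [9,10,26])]),(25,[(1,.two [1,1,43] [9,11,25])]),(40,[(1,.two [1,1,43] [9,40,41])]),(35,[(1,.two [1,9,35] [1,2,42])]),(5,[(1,.two [4,5,36] [2,44,44])]),(20,[(1,.two [9,16,20] [2,44,44])]),(30,[(1,.two [3,3,39] [18,30,42])]),(15,[(1,.two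 [3,15,27] [6,42,42])])]⟩

theorem k45_4 : chk 45 4 c45_4 = true := by decide +kernel

def c45_7 : Cert :=
  ⟨[1,7,4,28,16,22,19,43,31,37,34,13],[1,2,4,7,8,11,13,14,16,17,19,22,23,26,28,29,31,32,34,37,38,41,43,44],[1],[[],[1],[-1],[3],[1],[2],[-3],[1],[-1],[0],[-2],[-1],[3],[1],[-1],[6],[1],[-1],[0],[1],[2],[3],[1],[-1],[-3],[-2],[-1],[0],[1],[-1],[-6],[1],[-1],[-3],[1],[2],[0],[1],[-1],[3],[-2],[-1],[-3],[1],[-1]],[9],[1],[[-1]],30,[(18,[(1,.one [18])]),(27,[(1,.one [27])]),(36,[(1,.one [36])]),(2,[(1,.two [1] [2])]),(8,[(1,.two [1] [8])]),(11,[(1,.two [1] [11])]),(14,[(1,.two [1] [14])]),(17,[(1,.two [1] [17])]),(23,[(1,.two [1] [23])]),(26,[(1,.two [1] [26])]),(29,[(1,.two [1] [29])]),(32,[(1,.two [1] [32])]),(38,[(1,.two [1] [38])]),(41,[(1,.two [1] [41])]),(44,[(1,.two [1] [44])]),(4,[(1,.two [4] [2])]),(7,[(1,.two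 [7] [2])]),(13,[(1,.two [13] [2])]),(16,[(1,.two [16] [2])]),(19,[(1,.two [19] [2])]),(22,[(1,.two [22] [2])]),(28,[(1,.two [28] [2])]),(31,[(1,.two [31] [2])]),(34,[(1,.two [34] [2])]),(37,[(1,.two [37] [2])]),(43,[(1,.two [43] [2])]),(3,[(1,.two [3] [2,2,41])]),(12,[(1,.two [12] [2,2,41])]),(21,[(1,.two [21] [2,2,41])]),(39,[(1,.two [39] [2,2,41])]),(6,[(1,.two [1,1,43] [6])]),(24,[(1,.two [1,1,43] [24])]),(33,[(1,.two [1,1,43] [33])]),(42,[(1,.two [1,1,43] [42])]),(40,[(1,.one [1,4,40])]),(10,[(1,.one [1,10,34])]),(25,[(1,.one [1,19,25])]),(20,[(1,.one [1,20,24])]),(5,[(1,.one [2,5,38])]),(35,[(1,.one [2,8,35])]),(30,[(1,.one [3,12,30])]),(15,[(1,.one [6,15,24])])]⟩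

theorem k45_7 : chk 45 7 c45_7 = true := by decide +kernel

def c45_8 : Cert :=
  ⟨[1,8,19,17],[1,2,4,7,8,11,13,14,16,17,19,22,23,26,28,29,31,32,34,37,38,41,43,44],[1,2,3],[[],[1,0,0],[0,1,0],[0,0,1],[-1,-1,1],[0,0,0],[0,0,1],[0,-1,0],[1,0,0],[0,0,0],[0,0,0],[0,-1,0],[0,0,1],[1,1,-1],[1,1,-1],[0,0,0],[0,1,0],[1,0,0],[0,0,0],[1,0,0],[0,0,0],[0,0,-1],[1,1,-1],[-1,-1,1],[0,0,1],[0,0,0],[-1,0,0],[0,0,0],[-1,0,0],[0,-1,0],[0,0,0],[-1,-1,1],[-1,-1,1],[0,0,-1],[0,1,0],[0,0,0],[0,0,0],[-1,0,0],[0,1,0],[0,0,-1],[0,0,0],[1,1,-1],[0,0,-1],[0,-1,0],[-1,0,0]],[5],[1,2,4],[[-1,1,0],[0,1,-1],[0,-1,0]],90,[(9,[(1,.one [9])]),(10,[(1,.one [10])]),(15,[(1,.one [15])]),(18,[(1,.one [18])]),(20,[(1,.one [20])]),(25,[(1,.one [25])]),(27,[(1,.one [27])]),(30,[(1,.one [30])]),(35,[(1,.one [35])]),(36,[(1,.one [36])]),(40,[(1,.one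 [40])]),(26,[(1,.two [1] [26])]),(28,[(1,.two [1] [28])]),(37,[(1,.two [1] [37])]),(44,[(1,.two [1] [44])]),(8,[(1,.two [8] [26])]),(17,[(1,.two [17] [26])]),(19,[(1,.two [19] [26])]),(7,[(1,.two [2] [7])]),(11,[(1,.two [2] [11])]),(29,[(1,.two [2] [29])]),(43,[(1,.two [2] [43])]),(16,[(1,.two [16] [7])]),(34,[(1,.two [34] [7])]),(38,[(1,.two [38] [7])]),(21,[(1,.two [3] [21])]),(33,[(1,.two [3] [33])]),(39,[(1,.two [3] [39])]),(42,[(1,.two [3] [42])]),(6,[(1,.two [6] [21])]),(12,[(1,.two [12] [21])]),(24,[(1,.two [24] [21])]),(4,[(1,.two [1] [2,4,39])]),(13,[(1,.two [1] [4,13,28])]),(32,[(1,.two [1] [16,32,42])]),(31,[(1,.two [1] [21,31,38])]),(22,[(1,.two [1] [22,31,37])]),(23,[(1,.two [1] [23,33,34])]),(14,[(1,.two [8] [14,32,44])]),(41,[(1,.two [8] [23,26,41])])]⟩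

theorem k45_8 : chk 45 8 c45_8 = true := by decide +kernel

def c45_11 : Cert :=
  ⟨[1,11,31,26,16,41],[1,2,4,7,8,11,13,14,16,17,19,22,23,26,28,29,31,32,34,37,38,41,43,44],[1,2],[[],[1,0],[0,1],[3,0],[-1,0],[0,0],[0,3],[0,1],[0,-1],[3,3],[0,0],[1,0],[-3,0],[0,-1],[-1,0],[0,0],[1,0],[0,1],[-3,3],[-1,0],[0,0],[0,3],[0,1],[0,-1],[0,-3],[0,0],[1,0],[3,-3],[0,-1],[-1,0],[0,0],[1,0],[0,1],[3,0],[-1,0],[0,0],[-3,-3],[0,1],[0,-1],[0,-3],[0,0],[1,0],[-3,0],[0,-1],[-1,0]],[5],[1,2],[[-1,-2],[-2,1]],90,[(10,[(1,.one [10])]),(15,[(1,.one [15])]),(20,[(1,.one [20])]),(25,[(1,.one [25])]),(30,[(1,.one [30])]),(35,[(1,.one [35])]),(40,[(1,.one [40])]),(4,[(1,.two [1] [4])]),(14,[(1,.two [1] [14])]),(19,[(1,.two [1] [19])]),(29,[(1,.two [1] [29])]),(34,[(1,.two [1] [34])]),(44,[(1,.two [1] [44])]),(11,[(1,.two [11] [4])]),(16,[(1,.two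 [16] [4])]),(26,[(1,.two [26] [4])]),(31,[(1,.two [31] [4])]),(41,[(1,.two [41] [4])]),(8,[(1,.two [2] [8])]),(13,[(1,.two [2] [13])]),(23,[(1,.two [2] [23])]),(28,[(1,.two [2] [28])]),(38,[(1,.two [2] [38])]),(43,[(1,.two [2] [43])]),(7,[(1,.two [7] [8])]),(17,[(1,.two [17] [8])]),(22,[(1,.two [22] [8])]),(32,[(1,.two [32] [8])]),(37,[(1,.two [37] [8])]),(42,[(1,.two [1,1,43] [1,2,42])]),(12,[(1,.two [1,1,43] [1,12,32])]),(3,[(1,.two [3,4,38] [4,4,37])]),(33,[(1,.two [4,8,33] [4,4,37])]),(6,[(1,.two [1,6,38] [14,38,38])]),(21,[(1,.two [1,21,23] [23,23,44])]),(24,[(1,.two [1,22,22] [22,24,44])]),(39,[(1,.two [1,22,22] [22,29,39])]),(36,[(1,.two [3,6,36] [3,12,30])]),(18,[(1,.two [3,6,36] [3,18,24])]),(27,[(1,.two [3,6,36] [6,12,27])]),(9,[(1,.two [3,12,30] [9,12,24])])]⟩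

theorem k45_11 : chk 45 11 c45_11 = true := by decide +kernel

def c45_14 : Cert :=
  ⟨[1,14,16,44,31,29],[1,2,4,7,8,11,13,14,16,17,19,22,23,26,28,29,31,32,34,37,38,41,43,44],[],[[],[],[],[],[],[],[],[],[],[],[],[],[],[],[],[],[],[],[],[],[],[],[],[],[],[],[],[],[],[],[],[],[],[],[],[],[],[],[],[],[],[],[],[],[]],[1],[],[],1,[(2,[(1,.one [2])]),(3,[(1,.one [3])]),(4,[(1,.one [4])]),(5,[(1,.one [5])]),(6,[(1,.one [6])]),(7,[(1,.one [7])]),(8,[(1,.one [8])]),(9,[(1,.one [9])]),(10,[(1,.one [10])]),(11,[(1,.one [11])]),(12,[(1,.one [12])]),(13,[(1,.one [13])]),(14,[(1,.one [14])]),(15,[(1,.one [15])]),(16,[(1,.one [16])]),(17,[(1,.one [17])]),(18,[(1,.one [18])]),(19,[(1,.one [19])]),(20,[(1,.one [20])]),(21,[(1,.one [21])]),(22,[(1,.one [22])]),(23,[(1,.one [23])]),(24,[(1,.one [24])]),(25,[(1,.one [25])]),(26,[(1,.one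 [26])]),(27,[(1,.one [27])]),(28,[(1,.one [28])]),(29,[(1,.one [29])]),(30,[(1,.one [30])]),(31,[(1,.one [31])]),(32,[(1,.one [32])]),(33,[(1,.one [33])]),(34,[(1,.one [34])]),(35,[(1,.one [35])]),(36,[(1,.one [36])]),(37,[(1,.one [37])]),(38,[(1,.one [38])]),(39,[(1,.one [39])]),(40,[(1,.one [40])]),(41,[(1,.one [41])]),(42,[(1,.one [42])]),(43,[(1,.one [43])]),(44,[(1,.one [44])])]⟩

theorem k45_14 : chk 45 14 c45_14 = true := by decide +kernel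

def c45_16 : Cert :=
  ⟨[1,16,31],[1,2,4,7,8,11,13,14,16,17,19,22,23,26,28,29,31,32,34,37,38,41,43,44],[1,2,4,5],[[],[1,0,0,0],[0,1,0,0],[3,0,0,0],[0,0,1,0],[0,0,0,1],[0,3,0,0],[-1,1,-1,2],[1,-1,1,-2],[0,3,-3,3],[0,0,0,-1],[0,0,-1,0],[0,0,3,0],[0,-1,0,0],[-1,0,0,0],[0,0,0,3],[1,0,0,0],[0,1,0,0],[-3,3,0,3],[0,0,1,0],[0,0,0,1],[-3,3,-3,6],[-1,1,-1,2],[1,-1,1,-2],[3,-3,3,-6],[0,0,0,-1],[0,0,-1,0],[3,-3,0,-3],[0,-1,0,0],[-1,0,0,0],[0,0,0,-3],[1,0,0,0],[0,1,0,0],[0,0,-3,0],[0,0,1,0],[0,0,0,1],[0,-3,3,-3],[-1,1,-1,2],[1,-1,1,-2],[0,-3,0,0],[0,0,0,-1],[0,0,-1,0],[-3,0,0,0],[0,-1,0,0],[-1,0,0,0]],[],[1,2,4,7],[[0,-2,-1,-1],[-2,1,2,1],[1,0,-2,1],[-3,3,1,-1]],90,[(14,[(1,.two [1] [14])]),(29,[(1,.two [1] [29])]),(44,[(1,.two [1] [44])]),(16,[(1,.two [16] [14])]),(31,[(1,.two [31] [14])]),(13,[(1,.two [2] [13])]),(28,[(1,.two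 [2] [28])]),(43,[(1,.two [2] [43])]),(17,[(1,.two [17] [13])]),(32,[(1,.two [32] [13])]),(11,[(1,.two [4] [11])]),(26,[(1,.two [4] [26])]),(41,[(1,.two [4] [41])]),(19,[(1,.two [19] [11])]),(34,[(1,.two [34] [11])]),(10,[(1,.two [5] [10])]),(25,[(1,.two [5] [25])]),(40,[(1,.two [5] [40])]),(20,[(1,.two [20] [10])]),(35,[(1,.two [35] [10])]),(15,[(1,.two [15] [10,10,25])]),(30,[(1,.two [5,5,35] [30])]),(42,[(1,.two [1,1,43] [1,2,42])]),(3,[(1,.two [3,13,29] [29,29,32])]),(39,[(1,.two [2,2,41] [2,4,39])]),(6,[(1,.two [6,11,28] [28,28,34])]),(12,[(1,.hd 3 4)]),(33,[(1,.hd 3 11)]),(7,[(1,.two [1,4,40] [7,40,43])]),(37,[(1,.two [1,4,40] [13,37,40])]),(22,[(1,.two [1,4,40] [22,28,40])]),(38,[(1,.two [2,5,38] [5,11,29])]),(8,[(1,.two [2,8,35] [11,35,44])]),(23,[(1,.two [2,20,23] [11,14,20])]),(24,[(1,.two [1,7,37]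 [7,14,24])]),(21,[(1,.two [1,21,23] [8,8,29])]),(18,[(1,.two [3,3,39] [18,30,42])]),(27,[(1,.two [3,15,27] [6,42,42])]),(36,[(1,.two [3,21,21] [24,30,36])]),(9,[(1,.two [9,15,21] [24,24,42])])]⟩

theorem k45_16 : chk 45 16 c45_16 = true := by decide +kernel

def c45_19 : Cert :=
  ⟨[1,19],[1,2,4,7,8,11,13,14,16,17,19,22,23,26,28,29,31,32,34,37,38,41,43,44],[1,2,3,4,5,8],[[],[1,0,0,0,0,0],[0,1,0,0,0,0],[0,0,1,0,0,0],[0,0,0,1,0,0],[0,0,0,0,1,0],[2,2,-1,2,-1,0],[0,-1,0,0,0,0],[0,0,0,0,0,1],[0,0,0,0,0,0],[-2,0,0,0,1,2],[1,0,-1,1,0,0],[0,0,1,0,0,0],[-2,-1,1,-2,1,1],[0,0,0,-1,0,0],[-2,-2,2,-2,1,0],[-1,0,1,-1,0,0],[0,0,0,0,0,1],[0,0,0,0,0,0],[1,0,0,0,0,0],[-4,-2,2,-2,1,2],[-2,-2,1,-2,1,0],[-2,-1,1,-2,1,1],[2,1,-1,2,-1,-1],[2,2,-1,2,-1,0],[4,2,-2,2,-1,-2],[-1,0,0,0,0,0],[0,0,0,0,0,0],[0,0,0,0,0,-1],[1,0,-1,1,0,0],[2,2,-2,2,-1,0],[0,0,0,1,0,0],[2,1,-1,2,-1,-1],[0,0,-1,0,0,0],[-1,0,1,-1,0,0],[2,0,0,0,-1,-2],[0,0,0,0,0,0],[0,0,0,0,0,-1],[0,1,0,0,0,0],[-2,-2,1,-2,1,0],[0,0,0,0,-1,0],[0,0,0,-1,0,0],[0,0,-1,0,0,0],[0,-1,0,0,0,0],[-1,0,0,0,0,0]],[9],[1,2,4,8,11,13],[[1,-3,0,-2,-1,-1],[1,-2,0,-1,-1,1],[-1,2,-1,1,1,0],[1,-3,1,-1,0,0],[-1,1,0,1,0,0],[-1,1,1,0,0,1]],90,[(18,[(1,.one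 [18])]),(27,[(1,.one [27])]),(36,[(1,.one [36])]),(26,[(1,.two [1] [26])]),(44,[(1,.two [1] [44])]),(19,[(1,.two [19] [26])]),(7,[(1,.two [2] [7])]),(43,[(1,.two [2] [43])]),(38,[(1,.two [38] [7])]),(33,[(1,.two [3] [33])]),(42,[(1,.two [3] [42])]),(12,[(1,.two [12] [33])]),(14,[(1,.two [4] [14])]),(41,[(1,.two [4] [41])]),(31,[(1,.two [31] [14])]),(40,[(1,.two [5] [40])]),(28,[(1,.two [8] [28])]),(37,[(1,.two [8] [37])]),(17,[(1,.two [17] [28])]),(16,[(1,.hd 3 1)]),(34,[(1,.hd 3 4)]),(11,[(1,.hd 3 11)]),(29,[(1,.hd 3 14)]),(10,[(1,.hd 5 1)]),(20,[(1,.hd 5 2)]),(35,[(1,.hd 5 8)]),(25,[(1,.two [20] [25])]),(15,[(1,.hd 3 5)]),(30,[(1,.hd 3 10)]),(39,[(1,.two [3,3,39] [18,30,42])]),(6,[(1,.two [3,15,27] [6,42,42])]),(24,[(1,.two [3,15,27] [24,33,33])]),(21,[(1,.two [12,12,21] [18,30,42])]),(13,[(1,.two [1,7,37]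 [6,13,26])]),(22,[(1,.two [1,7,37] [22,24,44])]),(23,[(1,.two [1,21,23] [2,17,26])]),(32,[(1,.two [19,32,39] [2,17,26])])]⟩

theorem k45_19 : chk 45 19 c45_19 = true := by decide +kernel

def c45_26 : Cert :=
  ⟨[1,26],[1,2,4,7,8,11,13,14,16,17,19,22,23,26,28,29,31,32,34,37,38,41,43,44],[1,2,3,4,6,8],[[],[1,0,0,0,0,0],[0,1,0,0,0,0],[0,0,1,0,0,0],[0,0,0,1,0,0],[0,0,0,0,0,0],[0,0,0,0,1,0],[0,1,0,0,0,0],[0,0,0,0,0,1],[0,0,1,0,1,0],[0,0,0,0,0,0],[-1,0,1,1,0,0],[0,0,-1,0,0,0],[0,1,0,0,-1,-1],[0,0,0,1,0,0],[0,0,0,0,0,0],[-1,0,1,1,0,0],[0,0,0,0,0,-1],[0,0,-1,0,1,0],[-1,0,0,0,0,0],[0,0,0,0,0,0],[0,0,0,0,1,0],[0,-1,0,0,1,1],[0,1,0,0,-1,-1],[0,0,0,0,-1,0],[0,0,0,0,0,0],[1,0,0,0,0,0],[0,0,1,0,-1,0],[0,0,0,0,0,1],[1,0,-1,-1,0,0],[0,0,0,0,0,0],[0,0,0,-1,0,0],[0,-1,0,0,1,1],[0,0,1,0,0,0],[1,0,-1,-1,0,0],[0,0,0,0,0,0],[0,0,-1,0,-1,0],[0,0,0,0,0,-1],[0,-1,0,0,0,0],[0,0,0,0,-1,0],[0,0,0,0,0,0],[0,0,0,-1,0,0],[0,0,-1,0,0,0],[0,-1,0,0,0,0],[-1,0,0,0,0,0]],[5],[1,2,4,8,11,13],[[1,-1,0,0,-1,-1],[-1,0,0,-1,1,1],[-1,0,0,1,0,1],[-1,1,-1,1,0,0],[0,0,1,0,-1,-1],[1,-1,1,0,0,-1]],90,[(10,[(1,.one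 [10])]),(15,[(1,.one [15])]),(20,[(1,.one [20])]),(25,[(1,.one [25])]),(30,[(1,.one [30])]),(35,[(1,.one [35])]),(40,[(1,.one [40])]),(19,[(1,.two [1] [19])]),(44,[(1,.two [1] [44])]),(26,[(1,.two [26] [19])]),(38,[(1,.two [2] [38])]),(43,[(1,.two [2] [43])]),(7,[(1,.two [7] [38])]),(12,[(1,.two [3] [12])]),(42,[(1,.two [3] [42])]),(33,[(1,.two [33] [12])]),(31,[(1,.two [4] [31])]),(41,[(1,.two [4] [41])]),(14,[(1,.two [14] [31])]),(24,[(1,.two [6] [24])]),(39,[(1,.two [6] [39])]),(21,[(1,.two [21] [24])]),(17,[(1,.two [8] [17])]),(37,[(1,.two [8] [37])]),(28,[(1,.two [28] [17])]),(36,[(1,.one [3,6,36])]),(18,[(1,.one [3,18,24])]),(27,[(1,.one [6,12,27])]),(9,[(1,.one [9,12,24])]),(16,[(1,.hd 3 1)]),(32,[(1,.hd 3 2)]),(34,[(1,.hd 3 4)]),(22,[(1,.hd 3 7)]),(23,[(1,.hd 3 8)]),(11,[(1,.hd 3 11)]),(13,[(1,.hd 3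 13)]),(29,[(1,.hd 3 14)])]⟩

theorem k45_26 : chk 45 26 c45_26 = true := by decide +kernel

def c45_28 : Cert :=
  ⟨[1,28,19,37],[1,2,4,7,8,11,13,14,16,17,19,22,23,26,28,29,31,32,34,37,38,41,43,44],[1,2,3],[[],[1,0,0],[0,1,0],[0,0,1],[-1,1,1],[0,4,2],[0,0,-1],[0,-1,0],[-1,0,0],[0,0,0],[-4,4,2],[0,1,0],[0,0,1],[-1,1,1],[1,-1,-1],[0,0,2],[0,-1,0],[-1,0,0],[0,0,0],[1,0,0],[-4,0,2],[0,0,1],[-1,1,1],[1,-1,-1],[0,0,-1],[4,0,-2],[-1,0,0],[0,0,0],[1,0,0],[0,1,0],[0,0,-2],[-1,1,1],[1,-1,-1],[0,0,-1],[0,-1,0],[4,-4,-2],[0,0,0],[1,0,0],[0,1,0],[0,0,1],[0,-4,-2],[1,-1,-1],[0,0,-1],[0,-1,0],[-1,0,0]],[9],[1,2,4],[[1,-1,-2],[-2,-1,1],[-2,1,0]],90,[(18,[(1,.one [18])]),(27,[(1,.one [27])]),(36,[(1,.one [36])]),(8,[(1,.two [1] [8])]),(17,[(1,.two [1] [17])]),(26,[(1,.two [1] [26])]),(44,[(1,.two [1] [44])]),(19,[(1,.two [19]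 [8])]),(28,[(1,.two [28] [8])]),(37,[(1,.two [37] [8])]),(7,[(1,.two [2] [7])]),(16,[(1,.two [2] [16])]),(34,[(1,.two [2] [34])]),(43,[(1,.two [2] [43])]),(11,[(1,.two [11] [7])]),(29,[(1,.two [29] [7])]),(38,[(1,.two [38] [7])]),(6,[(1,.two [3] [6])]),(24,[(1,.two [3] [24])]),(33,[(1,.two [3] [33])]),(42,[(1,.two [3] [42])]),(12,[(1,.two [12] [6])]),(21,[(1,.two [21] [6])]),(39,[(1,.two [39] [6])]),(30,[(1,.one [3,12,30])]),(15,[(1,.one [6,15,24])]),(31,[(1,.hd 3 1)]),(32,[(1,.hd 3 2)]),(4,[(1,.hd 3 4)]),(22,[(1,.hd 3 7)]),(23,[(1,.hd 3 8)]),(41,[(1,.hd 3 11)]),(13,[(1,.hd 3 13)]),(14,[(1,.hd 3 14)]),(40,[(1,.hd 3 5),(-1,.two [10] [35]),(1,.hd 5 4),(1,.hd 5 1)]),(35,[(1,.two [5] [40]),(-1,.hd 3 5),(-1,.hd 5 4)]),(25,[(1,.hd 5 2),(1,.two [10] [35]),(-1,.two [20] [25]),(1,.two [5] [40]),(-1,.hd 3 5),(-1,.hd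 5 4)]),(20,[(1,.hd 5 2),(1,.two [10] [35]),(1,.two [5] [40]),(-1,.hd 3 5),(-1,.hd 5 4)]),(10,[(1,.two [10] [35]),(1,.two [5] [40]),(-1,.hd 3 5),(-1,.hd 5 4)]),(5,[(1,.two [5] [40]),(-1,.hd 3 5),(1,.two [10] [35]),(-1,.hd 5 4),(-1,.hd 5 1)])]⟩

theorem k45_28 : chk 45 28 c45_28 = true := by decide +kernel

def c45_44 : Cert :=
  ⟨[1,44],[1,2,4,7,8,11,13,14,16,17,19,22,23,26,28,29,31,32,34,37,38,41,43,44],[],[[],[],[],[],[],[],[],[],[],[],[],[],[],[],[],[],[],[],[],[],[],[],[],[],[],[],[],[],[],[],[],[],[],[],[],[],[],[],[],[],[],[],[],[],[]],[1],[],[],1,[(2,[(1,.one [2])]),(3,[(1,.one [3])]),(4,[(1,.one [4])]),(5,[(1,.one [5])]),(6,[(1,.one [6])]),(7,[(1,.one [7])]),(8,[(1,.one [8])]),(9,[(1,.one [9])]),(10,[(1,.one [10])]),(11,[(1,.one [11])]),(12,[(1,.one [12])]),(13,[(1,.one [13])]),(14,[(1,.one [14])]),(15,[(1,.one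 [15])]),(16,[(1,.one [16])]),(17,[(1,.one [17])]),(18,[(1,.one [18])]),(19,[(1,.one [19])]),(20,[(1,.one [20])]),(21,[(1,.one [21])]),(22,[(1,.one [22])]),(23,[(1,.one [23])]),(24,[(1,.one [24])]),(25,[(1,.one [25])]),(26,[(1,.one [26])]),(27,[(1,.one [27])]),(28,[(1,.one [28])]),(29,[(1,.one [29])]),(30,[(1,.one [30])]),(31,[(1,.one [31])]),(32,[(1,.one [32])]),(33,[(1,.one [33])]),(34,[(1,.one [34])]),(35,[(1,.one [35])]),(36,[(1,.one [36])]),(37,[(1,.one [37])]),(38,[(1,.one [38])]),(39,[(1,.one [39])]),(40,[(1,.one [40])]),(41,[(1,.one [41])]),(42,[(1,.one [42])]),(43,[(1,.one [43])]),(44,[(1,.one [44])])]⟩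

theorem k45_44 : chk 45 44 c45_44 = true := by decide +kernel

theorem all45 : ∀ x < 45, x.Coprime 45 → Full 45 x := by
  intro x hx hc
  interval_cases x
  · exact absurd hc (by decide)
  · exact full_of_chk k45_1
  · exact full_of_chk k45_2
  · exact absurd hc (by decide)
  · exact full_of_chk k45_4
  · exact absurd hc (by decide)
  · exact absurd hc (by decide)
  · exact full_of_chk k45_7
  · exact full_of_chk k45_8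
  · exact absurd hc (by decide)
  · exact absurd hc (by decide)
  · exact full_of_chk k45_11
  · exact absurd hc (by decide)
  · exact full_same 11 11 k45_7 (by decide) (by decide)
  · exact full_of_chk k45_14
  · exact absurd hc (by decide)
  · exact full_of_chk k45_16
  · exact full_same 3 3 k45_8 (by decide) (by decide)
  · exact absurd hc (by decide)
  · exact full_of_chk k45_19
  · exact absurd hc (by decide)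
  · exact absurd hc (by decide)
  · exact full_same 5 5 k45_7 (by decide) (by decide)
  · exact full_same 11 11 k45_2 (by decide) (by decide)
  · exact absurd hc (by decide)
  · exact absurd hc (by decide)
  · exact full_of_chk k45_26
  · exact absurd hc (by decide)
  · exact full_of_chk k45_28
  · exact full_same 5 5 k45_14 (by decide) (by decide)
  · exact absurd hc (by decide)
  · exact full_same 2 2 k45_16 (by decide) (by decide)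
  · exact full_same 5 5 k45_2 (by decide) (by decide)
  · exact absurd hc (by decide)
  · exact full_same 5 5 k45_4 (by decide) (by decide)
  · exact absurd hc (by decide)
  · exact absurd hc (by decide)
  · exact full_same 3 3 k45_28 (by decide) (by decide)
  · exact full_same 7 7 k45_2 (by decide) (by decide)
  · exact absurd hc (by decide)
  · exact absurd hc (by decide)
  · exact full_same 5 5 k45_11 (by decide) (by decide)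
  · exact absurd hc (by decide)
  · exact full_same 7 7 k45_7 (by decide) (by decide)
  · exact full_of_chk k45_44

end Pool.Agent.N997.TF
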