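import Pool.Agent.N997.TF.Same

/-!
Degree 46: certificates.
-/

set_option maxRecDepth 100000

namespace Pool.Agent.N997.TF

def c46_1 : Cert :=
  ⟨[1],[1,3,5,7,9,11,13,15,17,19,21,25,27,29,31,33,35,37,39,41,43,45],[1,2,3,4,5,6,7,8,9,10,11],[[],[1,0,0,0,0,0,0,0,0,0,0],[0,1,0,0,0,0,0,0,0,0,0],[0,0,1,0,0,0,0,0,0,0,0],[0,0,0,1,0,0,0,0,0,0,0],[0,0,0,0,1,0,0,0,0,0,0],[0,0,0,0,0,1,0,0,0,0,0],[0,0,0,0,0,0,1,0,0,0,0],[0,0,0,0,0,0,0,1,0,0,0],[0,0,0,0,0,0,0,0,1,0,0],[0,0,0,0,0,0,0,0,0,1,0],[0,0,0,0,0,0,0,0,0,0,1],[-1,1,0,0,0,0,0,0,0,0,1],[0,0,-1,0,0,1,0,0,0,1,0],[0,0,0,0,-1,0,0,0,1,1,0],[0,0,0,0,-1,0,-1,1,1,1,0],[0,0,0,0,1,0,1,0,-1,-1,0],[1,-1,0,0,0,1,0,0,0,0,-1],[0,0,0,0,1,0,0,0,0,-1,0],[0,0,0,1,0,0,0,-1,0,0,0],[0,0,1,0,0,-1,0,0,0,0,0],[0,1,0,-1,0,0,0,0,0,0,0],[1,-1,0,0,0,0,0,0,0,0,0],[0,0,0,0,0,0,0,0,0,0,0],[-1,1,0,0,0,0,0,0,0,0,0],[0,-1,0,1,0,0,0,0,0,0,0],[0,0,-1,0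,0,1,0,0,0,0,0],[0,0,0,-1,0,0,0,1,0,0,0],[0,0,0,0,-1,0,0,0,0,1,0],[-1,1,0,0,0,-1,0,0,0,0,1],[0,0,0,0,-1,0,-1,0,1,1,0],[0,0,0,0,1,0,1,-1,-1,-1,0],[0,0,0,0,1,0,0,0,-1,-1,0],[0,0,1,0,0,-1,0,0,0,-1,0],[1,-1,0,0,0,0,0,0,0,0,-1],[0,0,0,0,0,0,0,0,0,0,-1],[0,0,0,0,0,0,0,0,0,-1,0],[0,0,0,0,0,0,0,0,-1,0,0],[0,0,0,0,0,0,0,-1,0,0,0],[0,0,0,0,0,0,-1,0,0,0,0],[0,0,0,0,0,-1,0,0,0,0,0],[0,0,0,0,-1,0,0,0,0,0,0],[0,0,0,-1,0,0,0,0,0,0,0],[0,0,-1,0,0,0,0,0,0,0,0],[0,-1,0,0,0,0,0,0,0,0,0],[-1,0,0,0,0,0,0,0,0,0,0]],[23],[1,3,5,7,9,11,13,15,17,19,21],[[-1,-1,1,-2,-1,-2,-1,-2,-2,-2,1],[0,0,-3,0,0,0,0,3,3,3,0],[1,-2,-1,-1,1,2,1,2,-1,-1,-1],[-1,-1,1,1,2,1,-1,-2,-2,1,1],[0,-3,0,3,0,0,0,0,3,0,-3],[-2,1,2,2,-2,-1,1,-1,-1,-1,2],[-1,-1,1,1,-1,1,2,-2,1,1,-2],[-1,2,1,-2,-1,1,-1,1,1,-2,1],[-1,2,1,-2,2,-2,-1,1,-2,1,1],[-2,4,-1,-1,1,-1,1,-1,-1,-1,2],[-1,2,-2,1,-1,1,-1,1,1,1,-2]],276,[(45,[(1,.two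 [1] [45])]),(44,[(1,.two [2] [44])]),(43,[(1,.two [3] [43])]),(42,[(1,.two [4] [42])]),(41,[(1,.two [5] [41])]),(40,[(1,.two [6] [40])]),(39,[(1,.two [7] [39])]),(38,[(1,.two [8] [38])]),(37,[(1,.two [9] [37])]),(36,[(1,.two [10] [36])]),(35,[(1,.two [11] [35])]),(24,[(1,.dup 1)]),(25,[(1,.dup 2)]),(26,[(1,.dup 3)]),(27,[(1,.dup 4)]),(28,[(1,.dup 5)]),(12,[(1,.dup 12)]),(13,[(1,.dup 13)]),(14,[(1,.dup 14)]),(18,[(1,.dup 18)]),(19,[(1,.dup 19)]),(20,[(1,.dup 20)]),(21,[(1,.dup 21)]),(22,[(1,.dup 22)]),(34,[(1,.two [1,11,34] [2,45,45])]),(33,[(1,.two [3,10,33] [6,43,43])]),(17,[(1,.two [3,17,26] [12,40,40])]),(29,[(1,.two [6,6,34] [20,29,43])]),(32,[(1,.two [5,9,32] [10,41,41])]),(15,[(1,.two [7,7,32] [15,38,39])]),(30,[(1,.two [7,7,32] [23,30,39])]),(31,[(1,.two [7,8,31] [14,39,39])]),(16,[(1,.two [7,16,23] [14,39,39])])]⟩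

theorem k46_1 : chk 46 1 c46_1 = true := by decide +kernel

def c46_3 : Cert :=
  ⟨[1,3,9,27,35,13,39,25,29,41,31],[1,3,5,7,9,11,13,15,17,19,21,25,27,29,31,33,35,37,39,41,43,45],[2],[[],[0],[1],[0],[1],[0],[1],[0],[1],[0],[-1],[0],[1],[0],[-1],[0],[1],[0],[1],[0],[-1],[0],[-1],[0],[1],[0],[1],[0],[-1],[0],[-1],[0],[1],[0],[-1],[0],[1],[0],[-1],[0],[-1],[0],[-1],[0],[-1],[0]],[1],[1],[[-1]],138,[(3,[(1,.one [3])]),(5,[(1,.one [5])]),(7,[(1,.one [7])]),(9,[(1,.one [9])]),(11,[(1,.one [11])]),(13,[(1,.one [13])]),(15,[(1,.one [15])]),(17,[(1,.one [17])]),(19,[(1,.one [19])]),(21,[(1,.one [21])]),(23,[(1,.one [23])]),(25,[(1,.one [25])]),(27,[(1,.one [27])]),(29,[(1,.one [29])]),(31,[(1,.one [31])]),(33,[(1,.one [33])]),(35,[(1,.one [35])]),(37,[(1,.one [37])]),(39,[(1,.one [39])]),(41,[(1,.one [41])]),(43,[(1,.one [43])]),(45,[(1,.one [45])]),(10,[(1,.two [2] [10])]),(14,[(1,.two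 [2] [14])]),(20,[(1,.two [2] [20])]),(22,[(1,.two [2] [22])]),(28,[(1,.two [2] [28])]),(30,[(1,.two [2] [30])]),(34,[(1,.two [2] [34])]),(38,[(1,.two [2] [38])]),(40,[(1,.two [2] [40])]),(42,[(1,.two [2] [42])]),(44,[(1,.two [2] [44])]),(4,[(1,.two [4] [10])]),(6,[(1,.two [6] [10])]),(8,[(1,.two [8] [10])]),(12,[(1,.two [12] [10])]),(16,[(1,.two [16] [10])]),(18,[(1,.two [18] [10])]),(24,[(1,.two [24] [10])]),(26,[(1,.two [26] [10])]),(32,[(1,.two [32] [10])]),(36,[(1,.two [36] [10])])]⟩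

theorem k46_3 : chk 46 3 c46_3 = true := by decide +kernel

def c46_5 : Cert :=
  ⟨[1,5,25,33,27,43,31,17,39,11,9,45,41,21,13,19,3,15,29,7,35,37],[1,3,5,7,9,11,13,15,17,19,21,25,27,29,31,33,35,37,39,41,43,45],[],[[],[],[],[],[],[],[],[],[],[],[],[],[],[],[],[],[],[],[],[],[],[],[],[],[],[],[],[],[],[],[],[],[],[],[],[],[],[],[],[],[],[],[],[],[],[]],[1],[],[],1,[(2,[(1,.one [2])]),(3,[(1,.one [3])]),(4,[(1,.one [4])]),(5,[(1,.one [5])]),(6,[(1,.one [6])]),(7,[(1,.one [7])]),(8,[(1,.one [8])]),(9,[(1,.one [9])]),(10,[(1,.one [10])]),(11,[(1,.one [11])]),(12,[(1,.one [12])]),(13,[(1,.one [13])]),(14,[(1,.one [14])]),(15,[(1,.one [15])]),(16,[(1,.one [16])]),(17,[(1,.one [17])]),(18,[(1,.one [18])]),(19,[(1,.one [19])]),(20,[(1,.one [20])]),(21,[(1,.one [21])]),(22,[(1,.one [22])]),(23,[(1,.one [23])]),(24,[(1,.one [24])]),(25,[(1,.one [25])]),(26,[(1,.one [26])]),(27,[(1,.one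 [27])]),(28,[(1,.one [28])]),(29,[(1,.one [29])]),(30,[(1,.one [30])]),(31,[(1,.one [31])]),(32,[(1,.one [32])]),(33,[(1,.one [33])]),(34,[(1,.one [34])]),(35,[(1,.one [35])]),(36,[(1,.one [36])]),(37,[(1,.one [37])]),(38,[(1,.one [38])]),(39,[(1,.one [39])]),(40,[(1,.one [40])]),(41,[(1,.one [41])]),(42,[(1,.one [42])]),(43,[(1,.one [43])]),(44,[(1,.one [44])]),(45,[(1,.one [45])])]⟩

theorem k46_5 : chk 46 5 c46_5 = true := by decide +kernel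

def c46_45 : Cert :=
  ⟨[1,45],[1,3,5,7,9,11,13,15,17,19,21,25,27,29,31,33,35,37,39,41,43,45],[],[[],[],[],[],[],[],[],[],[],[],[],[],[],[],[],[],[],[],[],[],[],[],[],[],[],[],[],[],[],[],[],[],[],[],[],[],[],[],[],[],[],[],[],[],[],[]],[1],[],[],1,[(2,[(1,.one [2])]),(3,[(1,.one [3])]),(4,[(1,.one [4])]),(5,[(1,.one [5])]),(6,[(1,.one [6])]),(7,[(1,.one [7])]),(8,[(1,.one [8])]),(9,[(1,.one [9])]),(10,[(1,.one [10])]),(11,[(1,.one [11])]),(12,[(1,.one [12])]),(13,[(1,.one [13])]),(14,[(1,.one [14])]),(15,[(1,.one [15])]),(16,[(1,.one [16])]),(17,[(1,.one [17])]),(18,[(1,.one [18])]),(19,[(1,.one [19])]),(20,[(1,.one [20])]),(21,[(1,.one [21])]),(22,[(1,.one [22])]),(23,[(1,.one [23])]),(24,[(1,.one [24])]),(25,[(1,.one [25])]),(26,[(1,.one [26])]),(27,[(1,.one [27])]),(28,[(1,.one [28])]),(29,[(1,.one [29])]),(30,[(1,.one [30])]),(31,[(1,.one [31])]),(32,[(1,.one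 [32])]),(33,[(1,.one [33])]),(34,[(1,.one [34])]),(35,[(1,.one [35])]),(36,[(1,.one [36])]),(37,[(1,.one [37])]),(38,[(1,.one [38])]),(39,[(1,.one [39])]),(40,[(1,.one [40])]),(41,[(1,.one [41])]),(42,[(1,.one [42])]),(43,[(1,.one [43])]),(44,[(1,.one [44])]),(45,[(1,.one [45])])]⟩

theorem k46_45 : chk 46 45 c46_45 = true := by decide +kernel

theorem all46 : ∀ x < 46, x.Coprime 46 → Full 46 x := by
  intro x hx hc
  interval_cases x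
  · exact absurd hc (by decide)
  · exact full_of_chk k46_1
  · exact absurd hc (by decide)
  · exact full_of_chk k46_3
  · exact absurd hc (by decide)
  · exact full_of_chk k46_5
  · exact absurd hc (by decide)
  · exact full_same 19 7 k46_5 (by decide) (by decide)
  · exact absurd hc (by decide)
  · exact full_same 2 6 k46_3 (by decide) (by decide)
  · exact absurd hc (by decide)
  · exact full_same 9 5 k46_5 (by decide) (by decide)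
  · exact absurd hc (by decide)
  · exact full_same 5 9 k46_3 (by decide) (by decide)
  · exact absurd hc (by decide)
  · exact full_same 17 13 k46_5 (by decide) (by decide)
  · exact absurd hc (by decide)
  · exact full_same 7 19 k46_5 (by decide) (by decide)
  · exact absurd hc (by decide)
  · exact full_same 15 3 k46_5 (by decide) (by decide)
  · exact absurd hc (by decide)
  · exact full_same 13 17 k46_5 (by decide) (by decide)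
  · exact absurd hc (by decide)
  · exact absurd hc (by decide)
  · exact absurd hc (by decide)
  · exact full_same 7 8 k46_3 (by decide) (by decide)
  · exact absurd hc (by decide)
  · exact full_same 3 4 k46_3 (by decide) (by decide)
  · exact absurd hc (by decide)
  · exact full_same 8 7 k46_3 (by decide) (by decide)
  · exact absurd hc (by decide)
  · exact full_same 10 10 k46_3 (by decide) (by decide)
  · exact absurd hc (by decide)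
  · exact full_same 3 15 k46_5 (by decide) (by decide)
  · exact absurd hc (by decide)
  · exact full_same 4 3 k46_3 (by decide) (by decide)
  · exact absurd hc (by decide)
  · exact full_same 21 21 k46_5 (by decide) (by decide)
  · exact absurd hc (by decide)
  · exact full_same 6 2 k46_3 (by decide) (by decide)
  · exact absurd hc (by decide)
  · exact full_same 9 5 k46_3 (by decide) (by decide)
  · exact absurd hc (by decide)
  · exact full_same 5 9 k46_5 (by decide) (by decide)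
  · exact absurd hc (by decide)
  · exact full_of_chk k46_45

end Pool.Agent.N997.TF
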