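import Pool.Agent.N997.TF.Same

/-!
Degree 48: certificates.
-/

set_option maxRecDepth 100000

namespace Pool.Agent.N997.TF

def c48_1 : Cert :=
  ⟨[1],[1,5,7,11,13,17,19,23,25,29,31,35,37,41,43,47],[1,2,3,4,5,6,7,10],[[],[1,0,0,0,0,0,0,0],[0,1,0,0,0,0,0,0],[0,0,1,0,0,0,0,0],[0,0,0,1,0,0,0,0],[0,0,0,0,1,0,0,0],[0,0,0,0,0,1,0,0],[0,0,0,0,0,0,1,0],[0,2,0,0,0,0,0,-2],[1,-1,-1,0,0,1,1,0],[0,0,0,0,0,0,0,1],[-1,2,2,-1,1,-1,-1,-1],[0,-1,0,1,0,0,0,1],[-1,1,2,0,1,-1,-1,-1],[0,2,0,-1,0,0,0,-1],[1,-2,-1,1,0,0,1,1],[0,1,0,0,0,0,0,-1],[0,-2,0,1,0,0,1,1],[0,1,0,-1,0,1,0,-1],[0,0,0,0,1,0,0,-1],[0,-2,0,1,0,0,0,2],[0,0,1,0,0,-1,0,0],[0,1,0,-1,0,0,0,0],[1,-1,0,0,0,0,0,0],[0,0,0,0,0,0,0,0],[-1,1,0,0,0,0,0,0],[0,-1,0,1,0,0,0,0],[0,0,-1,0,0,1,0,0],[0,2,0,-1,0,0,0,-2],[0,0,0,0,-1,0,0,1],[0,-1,0,1,0,-1,0,1],[0,2,0,-1,0,0,-1,-1],[0,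-1,0,0,0,0,0,1],[-1,2,1,-1,0,0,-1,-1],[0,-2,0,1,0,0,0,1],[1,-1,-2,0,-1,1,1,1],[0,1,0,-1,0,0,0,-1],[1,-2,-2,1,-1,1,1,1],[0,0,0,0,0,0,0,-1],[-1,1,1,0,0,-1,-1,0],[0,-2,0,0,0,0,0,2],[0,0,0,0,0,0,-1,0],[0,0,0,0,0,-1,0,0],[0,0,0,0,-1,0,0,0],[0,0,0,-1,0,0,0,0],[0,0,-1,0,0,0,0,0],[0,-1,0,0,0,0,0,0],[-1,0,0,0,0,0,0,0]],[24],[1,5,7,11,13,17,19,23],[[0,0,-1,-1,-1,-1,0,0],[-1,0,0,0,1,3,-2,1],[-1,-1,1,1,1,1,-1,-1],[0,0,0,1,-1,-1,1,0],[-1,0,1,0,0,1,0,-1],[0,1,0,-1,0,-1,0,1],[0,1,-1,0,0,-1,1,0],[1,-1,0,0,0,-2,2,0]],96,[(47,[(1,.two [1] [47])]),(46,[(1,.two [2] [46])]),(45,[(1,.two [3] [45])]),(44,[(1,.two [4] [44])]),(43,[(1,.two [5] [43])]),(42,[(1,.two [6] [42])]),(41,[(1,.two [7] [41])]),(38,[(1,.two [10] [38])]),(20,[(1,.two [2,2,44] [20,38,38])]),(28,[(1,.two [10,10,28] [4,46,46])]),(25,[(1,.dup 1)]),(26,[(1,.dup 2)]),(27,[(1,.dup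 3)]),(8,[(1,.dup 4)]),(29,[(1,.dup 5)]),(34,[(1,.dup 10)]),(14,[(1,.dup 14)]),(17,[(1,.dup 17)]),(19,[(1,.dup 19)]),(40,[(1,.dup 20)]),(21,[(1,.dup 21)]),(22,[(1,.dup 22)]),(23,[(1,.dup 23)]),(33,[(1,.hd 3 1)]),(18,[(1,.hd 3 2)]),(39,[(1,.hd 3 7)]),(9,[(1,.hd 3 9)]),(30,[(1,.hd 3 10)]),(11,[(1,.hd 3 11)]),(13,[(1,.hd 3 13)]),(12,[(1,.two [2,2,44] [12,38,46])]),(37,[(1,.two [2,2,44] [13,37,46])]),(16,[(1,.two [2,2,44] [16,34,46])]),(32,[(1,.two [2,2,44] [26,32,38])]),(36,[(1,.two [2,2,44] [26,34,36])]),(35,[(1,.two [2,11,35] [4,46,46])]),(31,[(1,.two [7,10,31] [4,46,46])]),(15,[(1,.two [6,6,36] [15,39,42])])]⟩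

theorem k48_1 : chk 48 1 c48_1 = true := by decide +kernel

def c48_5 : Cert :=
  ⟨[1,5,25,29],[1,5,7,11,13,17,19,23,25,29,31,35,37,41,43,47],[1,3],[[],[1,0],[2,0],[0,1],[0,4],[1,0],[0,2],[1,-2],[0,0],[0,-1],[2,0],[1,-2],[0,4],[-1,2],[2,-4],[0,1],[0,0],[-1,2],[0,-2],[-1,0],[0,4],[0,-1],[2,-4],[-1,0],[0,0],[1,0],[-2,4],[0,1],[0,-4],[1,0],[0,2],[1,-2],[0,0],[0,-1],[-2,4],[1,-2],[0,-4],[-1,2],[-2,0],[0,1],[0,0],[-1,2],[0,-2],[-1,0],[0,-4],[0,-1],[-2,0],[-1,0]],[8],[1,7],[[-1,-1],[-1,3]],96,[(16,[(1,.one [16])]),(24,[(1,.one [24])]),(32,[(1,.one [32])]),(40,[(1,.one [40])]),(19,[(1,.two [1] [19])]),(23,[(1,.two [1] [23])]),(43,[(1,.two [1] [43])]),(47,[(1,.two [1] [47])]),(5,[(1,.two [5] [19])]),(25,[(1,.two [25] [19])]),(29,[(1,.two [29] [19])]),(9,[(1,.two [3] [9])]),(21,[(1,.two [3] [21])]),(33,[(1,.two [3] [33])]),(45,[(1,.two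 [3] [45])]),(15,[(1,.two [15] [9])]),(27,[(1,.two [27] [9])]),(39,[(1,.two [39] [9])]),(46,[(1,.one [1,1,46])]),(2,[(1,.one [2,23,23])]),(42,[(1,.one [3,3,42])]),(38,[(1,.one [5,5,38])]),(6,[(1,.one [6,21,21])]),(30,[(1,.one [9,9,30])]),(10,[(1,.one [10,19,19])]),(12,[(1,.one [12,42,42])]),(18,[(1,.one [15,15,18])]),(36,[(1,.one [30,30,36])]),(4,[(1,.two [8] [4,8,36])]),(28,[(1,.two [8] [8,12,28])]),(44,[(1,.two [40] [12,40,44])]),(20,[(1,.two [40] [20,36,40])]),(7,[(1,.two [4] [7,18,23])]),(11,[(1,.two [4] [11,18,19])]),(41,[(1,.two [4] [11,41,44])]),(31,[(1,.two [4] [18,31,47])]),(35,[(1,.two [4] [18,35,43])]),(37,[(1,.two [4] [28,31,37])]),(13,[(1,.two [12] [7,13,28])]),(17,[(1,.two [12] [17,35,44])]),(34,[(1,.two [1,1,46] [7,7,34])]),(26,[(1,.two [1,1,46] [11,11,26])]),(22,[(1,.two [1,1,46] [13,13,22])]),(14,[(1,.two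 [1,1,46] [14,17,17])])]⟩

theorem k48_5 : chk 48 5 c48_5 = true := by decide +kernel

def c48_7 : Cert :=
  ⟨[1,7],[1,5,7,11,13,17,19,23,25,29,31,35,37,41,43,47],[1,2,3,5],[[],[1,0,0,0],[0,1,0,0],[0,0,1,0],[2,0,-2,-2],[0,0,0,1],[0,0,0,0],[1,0,0,0],[4,0,-4,-4],[2,-1,-1,0],[-2,1,2,2],[-2,1,2,1],[0,0,0,0],[0,0,0,-1],[0,1,0,0],[2,-1,-1,0],[2,0,-2,-2],[1,-1,0,0],[0,0,0,0],[2,-1,-2,-1],[-2,0,2,2],[0,0,1,0],[-2,1,2,2],[1,-1,0,0],[0,0,0,0],[-1,1,0,0],[2,-1,-2,-2],[0,0,-1,0],[2,0,-2,-2],[-2,1,2,1],[0,0,0,0],[-1,1,0,0],[-2,0,2,2],[-2,1,1,0],[0,-1,0,0],[0,0,0,1],[0,0,0,0],[2,-1,-2,-1],[2,-1,-2,-2],[-2,1,1,0],[-4,0,4,4],[-1,0,0,0],[0,0,0,0],[0,0,0,-1],[-2,0,2,2],[0,0,-1,0],[0,-1,0,0],[-1,0,0,0]],[6],[1,5,11,17],[[-2,3,1,0],[0,-1,0,1],[1,-3,-1,-1],[1,-2,-2,-1]],96,[(12,[(1,.one [12])]),(18,[(1,.one [18])]),(24,[(1,.one [24])]),(30,[(1,.one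 [30])]),(36,[(1,.one [36])]),(42,[(1,.one [42])]),(41,[(1,.two [1] [41])]),(47,[(1,.two [1] [47])]),(7,[(1,.two [7] [41])]),(34,[(1,.two [2] [34])]),(46,[(1,.two [2] [46])]),(14,[(1,.two [14] [34])]),(27,[(1,.two [3] [27])]),(45,[(1,.two [3] [45])]),(21,[(1,.two [21] [27])]),(13,[(1,.two [5] [13])]),(43,[(1,.two [5] [43])]),(35,[(1,.two [35] [13])]),(25,[(1,.dup 1)]),(31,[(1,.dup 7)]),(17,[(1,.dup 17)]),(23,[(1,.dup 23)]),(33,[(1,.hd 3 1)]),(39,[(1,.hd 3 7)]),(9,[(1,.hd 3 9)]),(11,[(1,.hd 3 11)]),(29,[(1,.hd 3 13)]),(15,[(1,.hd 3 15)]),(19,[(1,.two [3,18,27] [11,18,19])]),(37,[(1,.two [5,13,30] [29,30,37])]),(44,[(1,.two [2,2,44] [13,37,46])]),(16,[(1,.two [2,2,44] [16,34,46])]),(38,[(1,.two [2,2,44] [17,38,41])]),(26,[(1,.two [2,2,44] [23,26,47])]),(32,[(1,.two [2,2,44] [26,32,38])]),(10,[(1,.two [2,10,36] [26,26,44])]),(28,[(1,.two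 [2,10,36] [28,34,34])]),(4,[(1,.two [2,11,35] [4,46,46])]),(20,[(1,.two [2,11,35] [20,38,38])]),(22,[(1,.two [2,22,24] [4,46,46])]),(40,[(1,.two [2,6,40] [4,6,38])]),(8,[(1,.two [2,6,40] [6,8,34])])]⟩

theorem k48_7 : chk 48 7 c48_7 = true := by decide +kernel

def c48_11 : Cert :=
  ⟨[1,11,25,35],[1,5,7,11,13,17,19,23,25,29,31,35,37,41,43,47],[1,3],[[],[1,0],[2,0],[0,1],[0,0],[1,0],[0,2],[1,0],[0,0],[0,1],[2,0],[1,0],[0,0],[-1,0],[2,0],[0,-1],[0,0],[-1,0],[0,2],[-1,0],[0,0],[0,-1],[2,0],[-1,0],[0,0],[1,0],[-2,0],[0,1],[0,0],[1,0],[0,-2],[1,0],[0,0],[0,1],[-2,0],[1,0],[0,0],[-1,0],[-2,0],[0,-1],[0,0],[-1,0],[0,-2],[-1,0],[0,0],[0,-1],[-2,0],[-1,0]],[4],[1,5],[[-1,-1],[-1,1]],96,[(8,[(1,.one [8])]),(12,[(1,.one [12])]),(16,[(1,.one [16])]),(20,[(1,.one [20])]),(24,[(1,.one [24])]),(28,[(1,.one [28])]),(32,[(1,.one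 [32])]),(36,[(1,.one [36])]),(40,[(1,.one [40])]),(44,[(1,.one [44])]),(13,[(1,.two [1] [13])]),(17,[(1,.two [1] [17])]),(19,[(1,.two [1] [19])]),(23,[(1,.two [1] [23])]),(37,[(1,.two [1] [37])]),(41,[(1,.two [1] [41])]),(43,[(1,.two [1] [43])]),(47,[(1,.two [1] [47])]),(5,[(1,.two [5] [13])]),(7,[(1,.two [7] [13])]),(11,[(1,.two [11] [13])]),(25,[(1,.two [25] [13])]),(29,[(1,.two [29] [13])]),(31,[(1,.two [31] [13])]),(35,[(1,.two [35] [13])]),(15,[(1,.two [3] [15])]),(21,[(1,.two [3] [21])]),(39,[(1,.two [3] [39])]),(45,[(1,.two [3] [45])]),(9,[(1,.two [9] [15])]),(27,[(1,.two [27] [15])]),(33,[(1,.two [33] [15])]),(46,[(1,.one [1,1,46])]),(2,[(1,.one [2,23,23])]),(42,[(1,.one [3,3,42])]),(38,[(1,.one [5,5,38])]),(6,[(1,.one [6,21,21])]),(34,[(1,.one [7,7,34])]),(30,[(1,.one [9,9,30])]),(10,[(1,.one [10,19,19])]),(26,[(1,.one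 [11,11,26])]),(22,[(1,.one [13,13,22])]),(14,[(1,.one [14,17,17])]),(18,[(1,.one [15,15,18])])]⟩

theorem k48_11 : chk 48 11 c48_11 = true := by decide +kernel

def c48_13 : Cert :=
  ⟨[1,13,25,37],[1,5,7,11,13,17,19,23,25,29,31,35,37,41,43,47],[1,3],[[],[1,0],[2,0],[0,1],[4,0],[-1,2],[0,2],[1,-2],[8,-8],[0,-1],[-2,4],[-1,0],[0,4],[1,0],[2,-4],[0,1],[4,-4],[-1,2],[0,-2],[1,-2],[-4,8],[0,-1],[-2,0],[-1,0],[0,0],[1,0],[2,0],[0,1],[4,-8],[-1,2],[0,2],[1,-2],[-4,4],[0,-1],[-2,4],[-1,0],[0,-4],[1,0],[2,-4],[0,1],[-8,8],[-1,2],[0,-2],[1,-2],[-4,0],[0,-1],[-2,0],[-1,0]],[24],[1,5],[[-3,3],[1,-5]],96,[(11,[(1,.two [1] [11])]),(23,[(1,.two [1] [23])]),(35,[(1,.two [1] [35])]),(47,[(1,.two [1] [47])]),(13,[(1,.two [13] [11])]),(25,[(1,.two [25] [11])]),(37,[(1,.two [37] [11])]),(9,[(1,.two [3] [9])]),(21,[(1,.two [3] [21])]),(33,[(1,.two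 [3] [33])]),(45,[(1,.two [3] [45])]),(15,[(1,.two [15] [9])]),(27,[(1,.two [27] [9])]),(39,[(1,.two [39] [9])]),(46,[(1,.one [1,1,46])]),(2,[(1,.one [2,23,23])]),(42,[(1,.one [3,3,42])]),(4,[(1,.one [4,46,46])]),(6,[(1,.one [6,21,21])]),(30,[(1,.one [9,9,30])]),(26,[(1,.one [11,11,26])]),(12,[(1,.one [12,42,42])]),(22,[(1,.one [13,13,22])]),(18,[(1,.one [15,15,18])]),(44,[(1,.one [26,26,44])]),(36,[(1,.one [30,30,36])]),(5,[(1,.one [1,5,42])]),(29,[(1,.one [1,18,29])]),(10,[(1,.one [2,10,36])]),(14,[(1,.one [5,14,29])]),(19,[(1,.one [5,19,24])]),(7,[(1,.one [6,7,35])]),(31,[(1,.one [6,11,31])]),(43,[(1,.one [6,43,47])]),(17,[(1,.one [7,17,24])]),(16,[(1,.one [10,16,22])]),(38,[(1,.one [12,38,46])]),(41,[(1,.one [13,41,42])]),(34,[(1,.one [16,34,46])]),(32,[(1,.one [26,32,38])]),(28,[(1,.two [1,1,46] [10,10,28])]),(20,[(1,.two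 [1,1,46] [14,14,20])]),(8,[(1,.two [2,8,38] [32,32,32])]),(40,[(1,.two [8,8,32] [24,32,40])])]⟩

theorem k48_13 : chk 48 13 c48_13 = true := by decide +kernel

def c48_17 : Cert :=
  ⟨[1,17],[1,5,7,11,13,17,19,23,25,29,31,35,37,41,43,47],[1,2,3,5],[[],[1,0,0,0],[0,1,0,0],[0,0,1,0],[0,2,0,0],[0,0,0,1],[-2,0,2,2],[1,-1,0,0],[0,0,0,0],[0,-2,1,2],[0,1,0,0],[0,0,0,-1],[0,2,0,0],[0,1,0,-1],[0,-1,0,0],[2,0,-1,0],[0,0,0,0],[1,0,0,0],[-2,-2,2,2],[0,-1,0,1],[0,2,0,0],[2,0,-1,-2],[0,-1,0,0],[1,-1,0,0],[0,0,0,0],[-1,1,0,0],[0,1,0,0],[-2,0,1,2],[0,-2,0,0],[0,1,0,-1],[2,2,-2,-2],[-1,0,0,0],[0,0,0,0],[-2,0,1,0],[0,1,0,0],[0,-1,0,1],[0,-2,0,0],[0,0,0,1],[0,-1,0,0],[0,2,-1,-2],[0,0,0,0],[-1,1,0,0],[2,0,-2,-2],[0,0,0,-1],[0,-2,0,0],[0,0,-1,0],[0,-1,0,0],[-1,0,0,0]],[8],[1,5,7,13],[[0,-1,-2,-1],[0,-2,1,-1],[-1,1,1,1],[-1,2,1,0]],96,[(16,[(1,.one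 [16])]),(24,[(1,.one [24])]),(32,[(1,.one [32])]),(40,[(1,.one [40])]),(31,[(1,.two [1] [31])]),(47,[(1,.two [1] [47])]),(17,[(1,.two [17] [31])]),(14,[(1,.two [2] [14])]),(22,[(1,.two [2] [22])]),(38,[(1,.two [2] [38])]),(46,[(1,.two [2] [46])]),(10,[(1,.two [10] [14])]),(26,[(1,.two [26] [14])]),(34,[(1,.two [34] [14])]),(45,[(1,.two [3] [45])]),(11,[(1,.two [5] [11])]),(43,[(1,.two [5] [43])]),(37,[(1,.two [37] [11])]),(44,[(1,.one [2,2,44])]),(4,[(1,.one [4,22,22])]),(28,[(1,.one [10,10,28])]),(20,[(1,.one [14,14,20])]),(36,[(1,.two [8] [4,8,36])]),(12,[(1,.two [8] [8,12,28])]),(25,[(1,.one [1,22,25])]),(35,[(1,.one [2,11,35])]),(29,[(1,.one [5,14,29])]),(7,[(1,.one [7,10,31])]),(13,[(1,.one [13,37,46])]),(41,[(1,.one [17,38,41])]),(19,[(1,.one [19,34,43])]),(23,[(1,.one [23,26,47])]),(33,[(1,.hd 3 1)]),(9,[(1,.hd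 3 3)]),(27,[(1,.hd 3 9)]),(39,[(1,.hd 3 13)]),(15,[(1,.hd 3 15)]),(21,[(1,.two [2,21,25] [9,14,25])]),(42,[(1,.two [3,3,42] [24,27,45])]),(6,[(1,.two [3,21,24] [6,45,45])]),(18,[(1,.two [3,18,27] [12,42,42])]),(30,[(1,.two [6,6,36] [21,30,45])])]⟩

theorem k48_17 : chk 48 17 c48_17 = true := by decide +kernel

def c48_19 : Cert :=
  ⟨[1,19,25,43],[1,5,7,11,13,17,19,23,25,29,31,35,37,41,43,47],[1,3],[[],[1,0],[2,0],[0,1],[4,0],[-1,0],[0,2],[1,0],[8,0],[0,1],[-2,0],[-1,0],[0,0],[1,0],[2,0],[0,-1],[4,0],[-1,0],[0,2],[1,0],[-4,0],[0,-1],[-2,0],[-1,0],[0,0],[1,0],[2,0],[0,1],[4,0],[-1,0],[0,-2],[1,0],[-4,0],[0,1],[-2,0],[-1,0],[0,0],[1,0],[2,0],[0,-1],[-8,0],[-1,0],[0,-2],[1,0],[-4,0],[0,-1],[-2,0],[-1,0]],[12],[1,7],[[-3,-3],[-1,1]],96,[(24,[(1,.one [24])]),(36,[(1,.one [36])]),(5,[(1,.two [1] [5])]),(11,[(1,.two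 [1] [11])]),(17,[(1,.two [1] [17])]),(23,[(1,.two [1] [23])]),(29,[(1,.two [1] [29])]),(35,[(1,.two [1] [35])]),(41,[(1,.two [1] [41])]),(47,[(1,.two [1] [47])]),(7,[(1,.two [7] [5])]),(13,[(1,.two [13] [5])]),(19,[(1,.two [19] [5])]),(25,[(1,.two [25] [5])]),(31,[(1,.two [31] [5])]),(37,[(1,.two [37] [5])]),(43,[(1,.two [43] [5])]),(15,[(1,.two [3] [15])]),(21,[(1,.two [3] [21])]),(39,[(1,.two [3] [39])]),(45,[(1,.two [3] [45])]),(9,[(1,.two [9] [15])]),(27,[(1,.two [27] [15])]),(33,[(1,.two [33] [15])]),(46,[(1,.one [1,1,46])]),(2,[(1,.one [2,23,23])]),(42,[(1,.one [3,3,42])]),(4,[(1,.one [4,46,46])]),(38,[(1,.one [5,5,38])]),(6,[(1,.one [6,21,21])]),(34,[(1,.one [7,7,34])]),(30,[(1,.one [9,9,30])]),(10,[(1,.one [10,19,19])]),(26,[(1,.one [11,11,26])]),(22,[(1,.one [13,13,22])]),(14,[(1,.one [14,17,17])]),(18,[(1,.one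 [15,15,18])]),(20,[(1,.one [20,38,38])]),(44,[(1,.one [26,26,44])]),(28,[(1,.one [28,34,34])]),(40,[(1,.two [12] [4,4,40])]),(32,[(1,.two [12] [4,12,32])]),(8,[(1,.two [12] [8,20,20])]),(16,[(1,.two [12] [12,16,20])])]⟩

theorem k48_19 : chk 48 19 c48_19 = true := by decide +kernel

def c48_23 : Cert :=
  ⟨[1,23],[1,5,7,11,13,17,19,23,25,29,31,35,37,41,43,47],[1,3,5,7],[[],[1,0,0,0],[0,0,0,0],[0,1,0,0],[0,0,0,0],[0,0,1,0],[0,0,0,0],[0,0,0,1],[0,0,0,0],[1,-1,0,1],[0,0,0,0],[-1,2,1,-1],[0,0,0,0],[-1,2,1,-1],[0,0,0,0],[1,-1,0,1],[0,0,0,0],[0,0,0,1],[0,0,0,0],[0,0,1,0],[0,0,0,0],[0,1,0,0],[0,0,0,0],[1,0,0,0],[0,0,0,0],[-1,0,0,0],[0,0,0,0],[0,-1,0,0],[0,0,0,0],[0,0,-1,0],[0,0,0,0],[0,0,0,-1],[0,0,0,0],[-1,1,0,-1],[0,0,0,0],[1,-2,-1,1],[0,0,0,0],[1,-2,-1,1],[0,0,0,0],[-1,1,0,-1],[0,0,0,0],[0,0,0,-1],[0,0,0,0],[0,0,-1,0],[0,0,0,0],[0,-1,0,0],[0,0,0,0],[-1,0,0,0]],[2],[1,5,7,11],[[0,0,-1,-1],[-1,-1,1,1],[-1,0,1,0],[0,1,-1,0]],96,[(4,[(1,.one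 [4])]),(6,[(1,.one [6])]),(8,[(1,.one [8])]),(10,[(1,.one [10])]),(12,[(1,.one [12])]),(14,[(1,.one [14])]),(16,[(1,.one [16])]),(18,[(1,.one [18])]),(20,[(1,.one [20])]),(22,[(1,.one [22])]),(24,[(1,.one [24])]),(26,[(1,.one [26])]),(28,[(1,.one [28])]),(30,[(1,.one [30])]),(32,[(1,.one [32])]),(34,[(1,.one [34])]),(36,[(1,.one [36])]),(38,[(1,.one [38])]),(40,[(1,.one [40])]),(42,[(1,.one [42])]),(44,[(1,.one [44])]),(46,[(1,.one [46])]),(25,[(1,.two [1] [25])]),(47,[(1,.two [1] [47])]),(23,[(1,.two [23] [25])]),(27,[(1,.two [3] [27])]),(45,[(1,.two [3] [45])]),(21,[(1,.two [21] [27])]),(29,[(1,.two [5] [29])]),(43,[(1,.two [5] [43])]),(19,[(1,.two [19] [29])]),(31,[(1,.two [7] [31])]),(41,[(1,.two [7] [41])]),(17,[(1,.two [17] [31])]),(33,[(1,.hd 3 1)]),(39,[(1,.hd 3 7)]),(9,[(1,.hd 3 9)]),(11,[(1,.hd 3 11)]),(13,[(1,.hd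 3 13)]),(15,[(1,.hd 3 15)]),(37,[(1,.two [2,2,44] [13,37,46])]),(35,[(1,.two [2,4,42] [2,11,35])])]⟩

theorem k48_23 : chk 48 23 c48_23 = true := by decide +kernel

def c48_25 : Cert :=
  ⟨[1,25],[1,5,7,11,13,17,19,23,25,29,31,35,37,41,43,47],[1,3,7,5],[[],[1,0,0,0],[2,0,0,0],[0,1,0,0],[4,0,-2,-2],[0,0,0,1],[0,2,0,0],[0,0,1,0],[4,0,0,-4],[-1,1,1,0],[0,0,0,2],[-1,0,1,1],[2,0,-2,0],[1,0,-1,-1],[0,0,2,0],[1,-1,-1,0],[2,0,0,-2],[0,0,-1,0],[-2,2,2,0],[0,0,0,-1],[0,0,-2,2],[0,-1,0,0],[-2,0,2,2],[-1,0,0,0],[0,0,0,0],[1,0,0,0],[2,0,-2,-2],[0,1,0,0],[0,0,2,-2],[0,0,0,1],[2,-2,-2,0],[0,0,1,0],[-2,0,0,2],[-1,1,1,0],[0,0,-2,0],[-1,0,1,1],[-2,0,2,0],[1,0,-1,-1],[0,0,0,-2],[1,-1,-1,0],[-4,0,0,4],[0,0,-1,0],[0,-2,0,0],[0,0,0,-1],[-4,0,2,2],[0,-1,0,0],[-2,0,0,0],[-1,0,0,0]],[24],[1,5,7,11],[[-2,0,-1,3],[-1,1,1,-1],[0,1,-1,-2],[1,-2,1,-2]],96,[(23,[(1,.two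 [1] [23])]),(47,[(1,.two [1] [47])]),(25,[(1,.two [25] [23])]),(21,[(1,.two [3] [21])]),(45,[(1,.two [3] [45])]),(27,[(1,.two [27] [21])]),(19,[(1,.two [5] [19])]),(43,[(1,.two [5] [43])]),(29,[(1,.two [29] [19])]),(17,[(1,.two [7] [17])]),(41,[(1,.two [7] [41])]),(31,[(1,.two [31] [17])]),(46,[(1,.one [1,1,46])]),(2,[(1,.one [2,23,23])]),(42,[(1,.one [3,3,42])]),(38,[(1,.one [5,5,38])]),(6,[(1,.one [6,21,21])]),(34,[(1,.one [7,7,34])]),(10,[(1,.one [10,19,19])]),(14,[(1,.one [14,17,17])]),(20,[(1,.dup 10)]),(28,[(1,.dup 14)]),(33,[(1,.hd 3 1)]),(18,[(1,.hd 3 2)]),(22,[(1,.hd 3 6)]),(39,[(1,.hd 3 7)]),(9,[(1,.hd 3 9)]),(11,[(1,.hd 3 11)]),(13,[(1,.hd 3 13)]),(30,[(1,.hd 3 14)]),(15,[(1,.hd 3 15)]),(26,[(1,.two [1,23,24] [11,11,26])]),(44,[(1,.two [1,3,44] [1,21,26])]),(4,[(1,.two [3,22,23] [4,21,23])]),(32,[(1,.two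 [7,9,32] [7,15,26])]),(16,[(1,.two [9,17,22] [15,16,17])]),(36,[(1,.two [3,6,39] [21,36,39])]),(12,[(1,.two [3,12,33] [21,33,42])]),(37,[(1,.two [2,2,44] [13,37,46])]),(35,[(1,.two [2,11,35] [4,46,46])]),(8,[(1,.two [2,12,34] [8,44,44])]),(40,[(1,.two [2,12,34] [28,28,40])])]⟩

theorem k48_25 : chk 48 25 c48_25 = true := by decide +kernel

def c48_31 : Cert :=
  ⟨[1,31],[1,5,7,11,13,17,19,23,25,29,31,35,37,41,43,47],[1,2,4,5],[[],[1,0,0,0],[0,1,0,0],[0,0,0,0],[0,0,1,0],[0,0,0,1],[0,0,0,0],[-1,1,0,0],[0,0,2,0],[0,0,0,0],[0,1,-1,0],[0,0,0,1],[0,0,0,0],[0,-1,1,1],[0,1,0,0],[0,0,0,0],[0,0,1,0],[-1,0,0,0],[0,0,0,0],[0,-1,1,1],[0,0,-1,0],[0,0,0,0],[0,1,-1,0],[1,-1,0,0],[0,0,0,0],[-1,1,0,0],[0,-1,1,0],[0,0,0,0],[0,0,1,0],[0,1,-1,-1],[0,0,0,0],[1,0,0,0],[0,0,-1,0],[0,0,0,0],[0,-1,0,0],[0,1,-1,-1],[0,0,0,0],[0,0,0,-1],[0,-1,1,0],[0,0,0,0],[0,0,-2,0],[1,-1,0,0],[0,0,0,0],[0,0,0,-1],[0,0,-1,0],[0,0,0,0],[0,-1,0,0],[-1,0,0,0]],[3],[1,5,7,13],[[0,-1,0,-1],[0,0,-1,1],[-1,1,0,-1],[-1,0,1,0]],96,[(6,[(1,.one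 [6])]),(9,[(1,.one [9])]),(12,[(1,.one [12])]),(15,[(1,.one [15])]),(18,[(1,.one [18])]),(21,[(1,.one [21])]),(24,[(1,.one [24])]),(27,[(1,.one [27])]),(30,[(1,.one [30])]),(33,[(1,.one [33])]),(36,[(1,.one [36])]),(39,[(1,.one [39])]),(42,[(1,.one [42])]),(45,[(1,.one [45])]),(17,[(1,.two [1] [17])]),(47,[(1,.two [1] [47])]),(31,[(1,.two [31] [17])]),(34,[(1,.two [2] [34])]),(46,[(1,.two [2] [46])]),(14,[(1,.two [14] [34])]),(20,[(1,.two [4] [20])]),(32,[(1,.two [4] [32])]),(44,[(1,.two [4] [44])]),(16,[(1,.two [16] [20])]),(28,[(1,.two [28] [20])]),(37,[(1,.two [5] [37])]),(43,[(1,.two [5] [43])]),(11,[(1,.two [11] [37])]),(40,[(1,.one [4,4,40])]),(8,[(1,.one [8,20,20])]),(26,[(1,.one [2,20,26])]),(10,[(1,.one [4,10,34])]),(38,[(1,.one [14,38,44])]),(22,[(1,.one [22,28,46])]),(25,[(1,.dup 1)]),(29,[(1,.dup 5)]),(7,[(1,.dup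 7)]),(35,[(1,.dup 11)]),(13,[(1,.dup 13)]),(41,[(1,.dup 17)]),(19,[(1,.dup 19)]),(23,[(1,.dup 23)])]⟩

theorem k48_31 : chk 48 31 c48_31 = true := by decide +kernel

def c48_41 : Cert :=
  ⟨[1,41],[1,5,7,11,13,17,19,23,25,29,31,35,37,41,43,47],[1,2,3,5],[[],[1,0,0,0],[0,1,0,0],[0,0,1,0],[0,2,0,0],[0,0,0,1],[0,0,2,0],[-1,0,0,0],[0,0,0,0],[0,-1,1,0],[0,1,0,0],[0,-1,0,1],[0,2,0,0],[0,0,0,1],[0,-1,0,0],[0,1,-1,0],[0,0,0,0],[-1,1,0,0],[0,-2,2,0],[0,-1,0,1],[0,2,0,0],[0,0,-1,0],[0,-1,0,0],[1,-1,0,0],[0,0,0,0],[-1,1,0,0],[0,1,0,0],[0,0,1,0],[0,-2,0,0],[0,1,0,-1],[0,2,-2,0],[1,-1,0,0],[0,0,0,0],[0,-1,1,0],[0,1,0,0],[0,0,0,-1],[0,-2,0,0],[0,1,0,-1],[0,-1,0,0],[0,1,-1,0],[0,0,0,0],[1,0,0,0],[0,0,-2,0],[0,0,0,-1],[0,-2,0,0],[0,0,-1,0],[0,-1,0,0],[-1,0,0,0]],[8],[1,5,11,17],[[0,-1,-1,0],[0,-1,2,-1],[-1,1,-1,-1],[-1,0,0,1]],96,[(16,[(1,.one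 [16])]),(24,[(1,.one [24])]),(32,[(1,.one [32])]),(40,[(1,.one [40])]),(7,[(1,.two [1] [7])]),(47,[(1,.two [1] [47])]),(41,[(1,.two [41] [7])]),(14,[(1,.two [2] [14])]),(22,[(1,.two [2] [22])]),(38,[(1,.two [2] [38])]),(46,[(1,.two [2] [46])]),(10,[(1,.two [10] [14])]),(26,[(1,.two [26] [14])]),(34,[(1,.two [34] [14])]),(21,[(1,.two [3] [21])]),(45,[(1,.two [3] [45])]),(27,[(1,.two [27] [21])]),(35,[(1,.two [5] [35])]),(43,[(1,.two [5] [43])]),(13,[(1,.two [13] [35])]),(44,[(1,.one [2,2,44])]),(42,[(1,.one [3,3,42])]),(4,[(1,.one [4,22,22])]),(6,[(1,.one [6,21,21])]),(28,[(1,.one [10,10,28])]),(20,[(1,.one [14,14,20])]),(36,[(1,.two [8] [4,8,36])]),(12,[(1,.two [8] [8,12,28])]),(25,[(1,.one [1,22,25])]),(11,[(1,.one [2,11,35])]),(29,[(1,.one [5,14,29])]),(31,[(1,.one [7,10,31])]),(37,[(1,.one [13,37,46])]),(17,[(1,.one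 [17,38,41])]),(19,[(1,.one [19,34,43])]),(23,[(1,.one [23,26,47])]),(30,[(1,.dup 6)]),(18,[(1,.dup 18)]),(33,[(1,.hd 3 1)]),(9,[(1,.hd 3 3)]),(15,[(1,.hd 3 5)]),(39,[(1,.hd 3 7)])]⟩

theorem k48_41 : chk 48 41 c48_41 = true := by decide +kernel

def c48_47 : Cert :=
  ⟨[1,47],[1,5,7,11,13,17,19,23,25,29,31,35,37,41,43,47],[],[[],[],[],[],[],[],[],[],[],[],[],[],[],[],[],[],[],[],[],[],[],[],[],[],[],[],[],[],[],[],[],[],[],[],[],[],[],[],[],[],[],[],[],[],[],[],[],[]],[1],[],[],1,[(2,[(1,.one [2])]),(3,[(1,.one [3])]),(4,[(1,.one [4])]),(5,[(1,.one [5])]),(6,[(1,.one [6])]),(7,[(1,.one [7])]),(8,[(1,.one [8])]),(9,[(1,.one [9])]),(10,[(1,.one [10])]),(11,[(1,.one [11])]),(12,[(1,.one [12])]),(13,[(1,.one [13])]),(14,[(1,.one [14])]),(15,[(1,.one [15])]),(16,[(1,.one [16])]),(17,[(1,.one [17])]),(18,[(1,.one [18])]),(19,[(1,.one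 [19])]),(20,[(1,.one [20])]),(21,[(1,.one [21])]),(22,[(1,.one [22])]),(23,[(1,.one [23])]),(24,[(1,.one [24])]),(25,[(1,.one [25])]),(26,[(1,.one [26])]),(27,[(1,.one [27])]),(28,[(1,.one [28])]),(29,[(1,.one [29])]),(30,[(1,.one [30])]),(31,[(1,.one [31])]),(32,[(1,.one [32])]),(33,[(1,.one [33])]),(34,[(1,.one [34])]),(35,[(1,.one [35])]),(36,[(1,.one [36])]),(37,[(1,.one [37])]),(38,[(1,.one [38])]),(39,[(1,.one [39])]),(40,[(1,.one [40])]),(41,[(1,.one [41])]),(42,[(1,.one [42])]),(43,[(1,.one [43])]),(44,[(1,.one [44])]),(45,[(1,.one [45])]),(46,[(1,.one [46])]),(47,[(1,.one [47])])]⟩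

theorem k48_47 : chk 48 47 c48_47 = true := by decide +kernel

theorem all48 : ∀ x < 48, x.Coprime 48 → Full 48 x := by
  intro x hx hc
  interval_cases x
  · exact absurd hc (by decide)
  · exact full_of_chk k48_1
  · exact absurd hc (by decide)
  · exact absurd hc (by decide)
  · exact absurd hc (by decide)
  · exact full_of_chk k48_5
  · exact absurd hc (by decide)
  · exact full_of_chk k48_7
  · exact absurd hc (by decide)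
  · exact absurd hc (by decide)
  · exact absurd hc (by decide)
  · exact full_of_chk k48_11
  · exact absurd hc (by decide)
  · exact full_of_chk k48_13
  · exact absurd hc (by decide)
  · exact absurd hc (by decide)
  · exact absurd hc (by decide)
  · exact full_of_chk k48_17
  · exact absurd hc (by decide)
  · exact full_of_chk k48_19
  · exact absurd hc (by decide)
  · exact absurd hc (by decide)
  · exact absurd hc (by decide)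
  · exact full_of_chk k48_23
  · exact absurd hc (by decide)
  · exact full_of_chk k48_25
  · exact absurd hc (by decide)
  · exact absurd hc (by decide)
  · exact absurd hc (by decide)
  · exact full_same 3 3 k48_5 (by decide) (by decide)
  · exact absurd hc (by decide)
  · exact full_of_chk k48_31
  · exact absurd hc (by decide)
  · exact absurd hc (by decide)
  · exact absurd hc (by decide)
  · exact full_same 3 3 k48_11 (by decide) (by decide)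
  · exact absurd hc (by decide)
  · exact full_same 3 3 k48_13 (by decide) (by decide)
  · exact absurd hc (by decide)
  · exact absurd hc (by decide)
  · exact absurd hc (by decide)
  · exact full_of_chk k48_41
  · exact absurd hc (by decide)
  · exact full_same 3 3 k48_19 (by decide) (by decide)
  · exact absurd hc (by decide)
  · exact absurd hc (by decide)
  · exact absurd hc (by decide)
  · exact full_of_chk k48_47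

end Pool.Agent.N997.TF
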