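import Pool.Agent.N997.TF.Same

/-!
Degree 50: certificates.
-/

set_option maxRecDepth 100000

namespace Pool.Agent.N997.TF

def c50_1 : Cert :=
  ⟨[1],[1,3,7,9,11,13,17,19,21,23,27,29,31,33,37,39,41,43,47,49],[1,2,3,4,5,6,7,8,9,11],[[],[1,0,0,0,0,0,0,0,0,0],[0,1,0,0,0,0,0,0,0,0],[0,0,1,0,0,0,0,0,0,0],[0,0,0,1,0,0,0,0,0,0],[0,0,0,0,1,0,0,0,0,0],[0,0,0,0,0,1,0,0,0,0],[0,0,0,0,0,0,1,0,0,0],[0,0,0,0,0,0,0,1,0,0],[0,0,0,0,0,0,0,0,1,0],[-1,1,0,-1,1,1,-1,0,1,0],[0,0,0,0,0,0,0,0,0,1],[-1,0,0,-1,1,1,0,1,1,-1],[-2,1,0,-1,1,1,0,1,1,-1],[0,0,-1,0,0,1,0,0,0,1],[-2,2,0,-2,1,2,-2,0,2,0],[0,0,-1,0,0,1,-1,0,1,1],[0,0,1,0,0,-1,1,1,-1,-1],[0,0,1,0,0,-1,1,0,0,-1],[1,0,0,1,-1,0,0,-1,-1,1],[1,-1,0,1,0,-1,1,0,-1,0],[0,0,0,1,0,0,0,-1,0,0],[0,0,1,0,0,-1,0,0,0,0],[0,1,0,-1,0,0,0,0,0,0],[1,-1,0,0,0,0,0,0,0,0],[0,0,0,0,0,0,0,0,0,0],[-1,1,0,0,0,0,0,0,0,0],[0,-1,0,1,0,0,0,0,0,0],[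0,0,-1,0,0,1,0,0,0,0],[0,0,0,-1,0,0,0,1,0,0],[-1,1,0,-1,0,1,-1,0,1,0],[-1,0,0,-1,1,0,0,1,1,-1],[0,0,-1,0,0,1,-1,0,0,1],[0,0,-1,0,0,1,-1,-1,1,1],[0,0,1,0,0,-1,1,0,-1,-1],[2,-2,0,2,-1,-2,2,0,-2,0],[0,0,1,0,0,-1,0,0,0,-1],[2,-1,0,1,-1,-1,0,-1,-1,1],[1,0,0,1,-1,-1,0,-1,-1,1],[0,0,0,0,0,0,0,0,0,-1],[1,-1,0,1,-1,-1,1,0,-1,0],[0,0,0,0,0,0,0,0,-1,0],[0,0,0,0,0,0,0,-1,0,0],[0,0,0,0,0,0,-1,0,0,0],[0,0,0,0,0,-1,0,0,0,0],[0,0,0,0,-1,0,0,0,0,0],[0,0,0,-1,0,0,0,0,0,0],[0,0,-1,0,0,0,0,0,0,0],[0,-1,0,0,0,0,0,0,0,0],[-1,0,0,0,0,0,0,0,0,0]],[25],[1,3,7,9,11,13,17,19,21,23],[[1,-2,0,0,-1,-1,0,-1,1,-1],[-1,1,-1,0,0,1,0,1,0,1],[0,-1,0,0,1,1,0,0,-1,0],[1,-2,1,1,0,-1,0,-1,1,0],[-1,1,0,0,0,0,0,1,-1,0],[-1,2,0,0,-1,0,-1,0,0,1],[0,-1,1,-1,1,0,1,0,0,-1],[-1,1,0,-1,1,0,1,0,-1,0],[-1,2,-1,0,0,0,-1,1,0,0],[0,0,0,1,-1,0,0,-1,1,0]],100,[(49,[(1,.two [1] [49])]),(48,[(1,.two [2] [48])]),(47,[(1,.two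 [3] [47])]),(46,[(1,.two [4] [46])]),(45,[(1,.two [5] [45])]),(44,[(1,.two [6] [44])]),(43,[(1,.two [7] [43])]),(42,[(1,.two [8] [42])]),(41,[(1,.two [9] [41])]),(39,[(1,.two [11] [39])]),(26,[(1,.dup 1)]),(27,[(1,.dup 2)]),(28,[(1,.dup 3)]),(29,[(1,.dup 4)]),(14,[(1,.dup 14)]),(21,[(1,.dup 21)]),(22,[(1,.dup 22)]),(23,[(1,.dup 23)]),(24,[(1,.dup 24)]),(36,[(1,.two [3,11,36] [6,47,47])]),(16,[(1,.two [7,7,36] [16,41,43])]),(32,[(1,.two [7,7,36] [25,32,43])]),(34,[(1,.two [7,9,34] [14,43,43])]),(18,[(1,.two [7,18,25] [14,43,43])]),(33,[(1,.two [8,9,33] [18,41,41])]),(17,[(1,.two [9,9,32] [17,41,42])]),(31,[(1,.hd 5 1)]),(20,[(1,.hd 5 4)]),(30,[(1,.hd 5 6)]),(19,[(1,.hd 5 9)]),(10,[(1,.dup 5)]),(12,[(1,.dup 6)]),(35,[(1,.dup 10)]),(37,[(1,.dup 12)]),(38,[(1,.dup 19)]),(40,[(1,.dup 20)]),(15,[(1,.hd 5 5)]),(13,[(1,.two [1,1,48] [13,38,49])])]⟩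

theorem k50_1 : chk 50 1 c50_1 = true := by decide +kernel

def c50_3 : Cert :=
  ⟨[1,3,9,27,31,43,29,37,11,33,49,47,41,23,19,7,21,13,39,17],[1,3,7,9,11,13,17,19,21,23,27,29,31,33,37,39,41,43,47,49],[],[[],[],[],[],[],[],[],[],[],[],[],[],[],[],[],[],[],[],[],[],[],[],[],[],[],[],[],[],[],[],[],[],[],[],[],[],[],[],[],[],[],[],[],[],[],[],[],[],[],[]],[1],[],[],1,[(2,[(1,.one [2])]),(3,[(1,.one [3])]),(4,[(1,.one [4])]),(5,[(1,.one [5])]),(6,[(1,.one [6])]),(7,[(1,.one [7])]),(8,[(1,.one [8])]),(9,[(1,.one [9])]),(10,[(1,.one [10])]),(11,[(1,.one [11])]),(12,[(1,.one [12])]),(13,[(1,.one [13])]),(14,[(1,.one [14])]),(15,[(1,.one [15])]),(16,[(1,.one [16])]),(17,[(1,.one [17])]),(18,[(1,.one [18])]),(19,[(1,.one [19])]),(20,[(1,.one [20])]),(21,[(1,.one [21])]),(22,[(1,.one [22])]),(23,[(1,.one [23])]),(24,[(1,.one [24])]),(25,[(1,.one [25])]),(26,[(1,.one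 [26])]),(27,[(1,.one [27])]),(28,[(1,.one [28])]),(29,[(1,.one [29])]),(30,[(1,.one [30])]),(31,[(1,.one [31])]),(32,[(1,.one [32])]),(33,[(1,.one [33])]),(34,[(1,.one [34])]),(35,[(1,.one [35])]),(36,[(1,.one [36])]),(37,[(1,.one [37])]),(38,[(1,.one [38])]),(39,[(1,.one [39])]),(40,[(1,.one [40])]),(41,[(1,.one [41])]),(42,[(1,.one [42])]),(43,[(1,.one [43])]),(44,[(1,.one [44])]),(45,[(1,.one [45])]),(46,[(1,.one [46])]),(47,[(1,.one [47])]),(48,[(1,.one [48])]),(49,[(1,.one [49])])]⟩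

theorem k50_3 : chk 50 3 c50_3 = true := by decide +kernel

def c50_7 : Cert :=
  ⟨[1,7,49,43],[1,3,7,9,11,13,17,19,21,23,27,29,31,33,37,39,41,43,47,49],[],[[],[],[],[],[],[],[],[],[],[],[],[],[],[],[],[],[],[],[],[],[],[],[],[],[],[],[],[],[],[],[],[],[],[],[],[],[],[],[],[],[],[],[],[],[],[],[],[],[],[]],[1],[],[],1,[(2,[(1,.one [2])]),(3,[(1,.one [3])]),(4,[(1,.one [4])]),(5,[(1,.one [5])]),(6,[(1,.one [6])]),(7,[(1,.one [7])]),(8,[(1,.one [8])]),(9,[(1,.one [9])]),(10,[(1,.one [10])]),(11,[(1,.one [11])]),(12,[(1,.one [12])]),(13,[(1,.one [13])]),(14,[(1,.one [14])]),(15,[(1,.one [15])]),(16,[(1,.one [16])]),(17,[(1,.one [17])]),(18,[(1,.one [18])]),(19,[(1,.one [19])]),(20,[(1,.one [20])]),(21,[(1,.one [21])]),(22,[(1,.one [22])]),(23,[(1,.one [23])]),(24,[(1,.one [24])]),(25,[(1,.one [25])]),(26,[(1,.one [26])]),(27,[(1,.one [27])]),(28,[(1,.one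 [28])]),(29,[(1,.one [29])]),(30,[(1,.one [30])]),(31,[(1,.one [31])]),(32,[(1,.one [32])]),(33,[(1,.one [33])]),(34,[(1,.one [34])]),(35,[(1,.one [35])]),(36,[(1,.one [36])]),(37,[(1,.one [37])]),(38,[(1,.one [38])]),(39,[(1,.one [39])]),(40,[(1,.one [40])]),(41,[(1,.one [41])]),(42,[(1,.one [42])]),(43,[(1,.one [43])]),(44,[(1,.one [44])]),(45,[(1,.one [45])]),(46,[(1,.one [46])]),(47,[(1,.one [47])]),(48,[(1,.one [48])]),(49,[(1,.one [49])])]⟩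

theorem k50_7 : chk 50 7 c50_7 = true := by decide +kernel

def c50_9 : Cert :=
  ⟨[1,9,31,29,11,49,41,19,21,39],[1,3,7,9,11,13,17,19,21,23,27,29,31,33,37,39,41,43,47,49],[],[[],[],[],[],[],[],[],[],[],[],[],[],[],[],[],[],[],[],[],[],[],[],[],[],[],[],[],[],[],[],[],[],[],[],[],[],[],[],[],[],[],[],[],[],[],[],[],[],[],[]],[1],[],[],1,[(2,[(1,.one [2])]),(3,[(1,.one [3])]),(4,[(1,.one [4])]),(5,[(1,.one [5])]),(6,[(1,.one [6])]),(7,[(1,.one [7])]),(8,[(1,.one [8])]),(9,[(1,.one [9])]),(10,[(1,.one [10])]),(11,[(1,.one [11])]),(12,[(1,.one [12])]),(13,[(1,.one [13])]),(14,[(1,.one [14])]),(15,[(1,.one [15])]),(16,[(1,.one [16])]),(17,[(1,.one [17])]),(18,[(1,.one [18])]),(19,[(1,.one [19])]),(20,[(1,.one [20])]),(21,[(1,.one [21])]),(22,[(1,.one [22])]),(23,[(1,.one [23])]),(24,[(1,.one [24])]),(25,[(1,.one [25])]),(26,[(1,.one [26])]),(27,[(1,.one [27])]),(28,[(1,.one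 [28])]),(29,[(1,.one [29])]),(30,[(1,.one [30])]),(31,[(1,.one [31])]),(32,[(1,.one [32])]),(33,[(1,.one [33])]),(34,[(1,.one [34])]),(35,[(1,.one [35])]),(36,[(1,.one [36])]),(37,[(1,.one [37])]),(38,[(1,.one [38])]),(39,[(1,.one [39])]),(40,[(1,.one [40])]),(41,[(1,.one [41])]),(42,[(1,.one [42])]),(43,[(1,.one [43])]),(44,[(1,.one [44])]),(45,[(1,.one [45])]),(46,[(1,.one [46])]),(47,[(1,.one [47])]),(48,[(1,.one [48])]),(49,[(1,.one [49])])]⟩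

theorem k50_9 : chk 50 9 c50_9 = true := by decide +kernel

def c50_11 : Cert :=
  ⟨[1,11,21,31,41],[1,3,7,9,11,13,17,19,21,23,27,29,31,33,37,39,41,43,47,49],[1,2],[[],[1,0],[0,1],[-1,2],[1,-1],[5,0],[-1,1],[1,-2],[0,-1],[-1,0],[0,5],[1,0],[0,1],[-1,2],[1,-1],[-5,10],[-1,1],[1,-2],[0,-1],[-1,0],[5,-5],[1,0],[0,1],[-1,2],[1,-1],[0,0],[-1,1],[1,-2],[0,-1],[-1,0],[-5,5],[1,0],[0,1],[-1,2],[1,-1],[5,-10],[-1,1],[1,-2],[0,-1],[-1,0],[0,-5],[1,0],[0,1],[-1,2],[1,-1],[-5,0],[-1,1],[1,-2],[0,-1],[-1,0]],[25],[1,3],[[-1,-3],[-2,4]],100,[(9,[(1,.two [1] [9])]),(19,[(1,.two [1] [19])]),(29,[(1,.two [1] [29])]),(39,[(1,.two [1] [39])]),(49,[(1,.two [1] [49])]),(11,[(1,.two [11] [9])]),(21,[(1,.two [21] [9])]),(31,[(1,.two [31] [9])]),(41,[(1,.two [41] [9])]),(8,[(1,.two [2] [8])]),(18,[(1,.two [2] [18])]),(28,[(1,.two [2] [28])]),(38,[(1,.two [2] [38])]),(48,[(1,.two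 [2] [48])]),(12,[(1,.two [12] [8])]),(22,[(1,.two [22] [8])]),(32,[(1,.two [32] [8])]),(42,[(1,.two [42] [8])]),(3,[(1,.two [1,1,48] [3,48,49])]),(43,[(1,.two [1,1,48] [9,43,48])]),(13,[(1,.two [1,1,48] [13,39,48])]),(33,[(1,.two [1,1,48] [19,33,48])]),(23,[(1,.two [1,1,48] [23,29,48])]),(47,[(1,.two [1,2,47] [2,49,49])]),(7,[(1,.two [1,7,42] [29,29,42])]),(37,[(1,.two [1,12,37] [12,19,19])]),(17,[(1,.two [1,17,32] [9,9,32])]),(27,[(1,.two [1,22,27] [22,39,39])]),(26,[(1,.dup 1)]),(4,[(1,.dup 2)]),(6,[(1,.dup 3)]),(14,[(1,.dup 7)]),(16,[(1,.dup 8)]),(34,[(1,.dup 9)]),(36,[(1,.dup 11)]),(24,[(1,.dup 12)]),(44,[(1,.dup 19)]),(46,[(1,.dup 21)]),(5,[(1,.hd 5 1)]),(10,[(1,.hd 5 2)]),(15,[(1,.hd 5 3)]),(20,[(1,.hd 5 4)]),(30,[(1,.hd 5 6)]),(35,[(1,.hd 5 7)]),(40,[(1,.hd 5 8)]),(45,[(1,.hd 5 9)])]⟩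

theorem k50_11 : chk 50 11 c50_11 = true := by decide +kernel

def c50_49 : Cert :=
  ⟨[1,49],[1,3,7,9,11,13,17,19,21,23,27,29,31,33,37,39,41,43,47,49],[],[[],[],[],[],[],[],[],[],[],[],[],[],[],[],[],[],[],[],[],[],[],[],[],[],[],[],[],[],[],[],[],[],[],[],[],[],[],[],[],[],[],[],[],[],[],[],[],[],[],[]],[1],[],[],1,[(2,[(1,.one [2])]),(3,[(1,.one [3])]),(4,[(1,.one [4])]),(5,[(1,.one [5])]),(6,[(1,.one [6])]),(7,[(1,.one [7])]),(8,[(1,.one [8])]),(9,[(1,.one [9])]),(10,[(1,.one [10])]),(11,[(1,.one [11])]),(12,[(1,.one [12])]),(13,[(1,.one [13])]),(14,[(1,.one [14])]),(15,[(1,.one [15])]),(16,[(1,.one [16])]),(17,[(1,.one [17])]),(18,[(1,.one [18])]),(19,[(1,.one [19])]),(20,[(1,.one [20])]),(21,[(1,.one [21])]),(22,[(1,.one [22])]),(23,[(1,.one [23])]),(24,[(1,.one [24])]),(25,[(1,.one [25])]),(26,[(1,.one [26])]),(27,[(1,.one [27])]),(28,[(1,.one [28])]),(29,[(1,.one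 [29])]),(30,[(1,.one [30])]),(31,[(1,.one [31])]),(32,[(1,.one [32])]),(33,[(1,.one [33])]),(34,[(1,.one [34])]),(35,[(1,.one [35])]),(36,[(1,.one [36])]),(37,[(1,.one [37])]),(38,[(1,.one [38])]),(39,[(1,.one [39])]),(40,[(1,.one [40])]),(41,[(1,.one [41])]),(42,[(1,.one [42])]),(43,[(1,.one [43])]),(44,[(1,.one [44])]),(45,[(1,.one [45])]),(46,[(1,.one [46])]),(47,[(1,.one [47])]),(48,[(1,.one [48])]),(49,[(1,.one [49])])]⟩

theorem k50_49 : chk 50 49 c50_49 = true := by decide +kernel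

theorem all50 : ∀ x < 50, x.Coprime 50 → Full 50 x := by
  intro x hx hc
  interval_cases x
  · exact absurd hc (by decide)
  · exact full_of_chk k50_1
  · exact absurd hc (by decide)
  · exact full_of_chk k50_3
  · exact absurd hc (by decide)
  · exact absurd hc (by decide)
  · exact absurd hc (by decide)
  · exact full_of_chk k50_7
  · exact absurd hc (by decide)
  · exact full_of_chk k50_9
  · exact absurd hc (by decide)
  · exact full_of_chk k50_11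
  · exact absurd hc (by decide)
  · exact full_same 17 13 k50_3 (by decide) (by decide)
  · exact absurd hc (by decide)
  · exact absurd hc (by decide)
  · exact absurd hc (by decide)
  · exact full_same 19 19 k50_3 (by decide) (by decide)
  · exact absurd hc (by decide)
  · exact full_same 7 3 k50_9 (by decide) (by decide)
  · exact absurd hc (by decide)
  · exact full_same 2 3 k50_11 (by decide) (by decide)
  · exact absurd hc (by decide)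
  · exact full_same 13 17 k50_3 (by decide) (by decide)
  · exact absurd hc (by decide)
  · exact absurd hc (by decide)
  · exact absurd hc (by decide)
  · exact full_same 3 7 k50_3 (by decide) (by decide)
  · exact absurd hc (by decide)
  · exact full_same 3 7 k50_9 (by decide) (by decide)
  · exact absurd hc (by decide)
  · exact full_same 3 2 k50_11 (by decide) (by decide)
  · exact absurd hc (by decide)
  · exact full_same 9 9 k50_3 (by decide) (by decide)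
  · exact absurd hc (by decide)
  · exact absurd hc (by decide)
  · exact absurd hc (by decide)
  · exact full_same 7 3 k50_3 (by decide) (by decide)
  · exact absurd hc (by decide)
  · exact full_same 9 9 k50_9 (by decide) (by decide)
  · exact absurd hc (by decide)
  · exact full_same 4 4 k50_11 (by decide) (by decide)
  · exact absurd hc (by decide)
  · exact full_same 3 3 k50_7 (by decide) (by decide)
  · exact absurd hc (by decide)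
  · exact absurd hc (by decide)
  · exact absurd hc (by decide)
  · exact full_same 11 11 k50_3 (by decide) (by decide)
  · exact absurd hc (by decide)
  · exact full_of_chk k50_49

end Pool.Agent.N997.TF
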