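import Pool.Agent.N997.TF.Same

/-!
Degree 54: certificates.
-/

set_option maxRecDepth 100000

namespace Pool.Agent.N997.TF

def c54_1 : Cert :=
  ⟨[1],[1,5,7,11,13,17,19,23,25,29,31,35,37,41,43,47,49,53],[1,2,3,4,5,6,7,8,11],[[],[1,0,0,0,0,0,0,0,0],[0,1,0,0,0,0,0,0,0],[0,0,1,0,0,0,0,0,0],[0,0,0,1,0,0,0,0,0],[0,0,0,0,1,0,0,0,0],[0,0,0,0,0,1,0,0,0],[0,0,0,0,0,0,1,0,0],[0,0,0,0,0,0,0,1,0],[0,2,2,-2,0,-2,2,0,-2],[1,-1,-1,0,0,1,0,1,0],[0,0,0,0,0,0,0,0,1],[0,-1,0,1,0,1,-1,0,1],[0,1,1,0,1,-2,1,-1,-1],[-1,2,1,0,1,-2,1,-1,-1],[0,-1,-1,1,0,2,-1,0,1],[1,-1,-1,0,-1,1,0,1,1],[0,1,0,0,1,-1,0,0,-1],[0,1,1,-1,0,-1,1,0,-1],[-1,1,1,0,1,-1,0,0,-1],[1,-2,-1,0,-1,2,0,1,1],[0,1,0,-1,0,0,1,0,-1],[-1,1,1,0,1,-1,0,-1,0],[0,0,0,1,0,0,0,-1,0],[0,0,1,0,0,-1,0,0,0],[0,1,0,-1,0,0,0,0,0],[1,-1,0,0,0,0,0,0,0],[0,0,0,0,0,0,0,0,0],[-1,1,0,0,0,0,0,0,0],[0,-1,0,1,0,0,0,0,0],[0,0,-1,0,0,1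,0,0,0],[0,0,0,-1,0,0,0,1,0],[1,-1,-1,0,-1,1,0,1,0],[0,-1,0,1,0,0,-1,0,1],[-1,2,1,0,1,-2,0,-1,-1],[1,-1,-1,0,-1,1,0,0,1],[0,-1,-1,1,0,1,-1,0,1],[0,-1,0,0,-1,1,0,0,1],[-1,1,1,0,1,-1,0,-1,-1],[0,1,1,-1,0,-2,1,0,-1],[1,-2,-1,0,-1,2,-1,1,1],[0,-1,-1,0,-1,2,-1,1,1],[0,1,0,-1,0,-1,1,0,-1],[0,0,0,0,0,0,0,0,-1],[-1,1,1,0,0,-1,0,-1,0],[0,-2,-2,2,0,2,-2,0,2],[0,0,0,0,0,0,0,-1,0],[0,0,0,0,0,0,-1,0,0],[0,0,0,0,0,-1,0,0,0],[0,0,0,0,-1,0,0,0,0],[0,0,0,-1,0,0,0,0,0],[0,0,-1,0,0,0,0,0,0],[0,-1,0,0,0,0,0,0,0],[-1,0,0,0,0,0,0,0,0]],[27],[1,5,7,11,13,17,19,23,25],[[0,0,-1,-1,0,-1,-1,0,0],[-1,0,0,2,-2,1,1,1,0],[-1,0,0,2,-1,1,0,0,-1],[0,-1,1,0,1,-1,0,-1,1],[-1,0,1,1,-1,0,1,-1,0],[1,0,0,-3,2,0,-1,0,1],[-1,1,0,1,-1,0,0,1,-1],[0,1,-1,-1,1,0,0,0,0],[1,-1,0,-2,2,0,0,0,0]],108,[(53,[(1,.two [1] [53])]),(52,[(1,.two [2] [52])]),(51,[(1,.two [3] [51])]),(50,[(1,.two [4] [50])]),(49,[(1,.two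 [5] [49])]),(48,[(1,.two [6] [48])]),(47,[(1,.two [7] [47])]),(46,[(1,.two [8] [46])]),(43,[(1,.two [11] [43])]),(28,[(1,.dup 1)]),(29,[(1,.dup 2)]),(30,[(1,.dup 3)]),(31,[(1,.dup 4)]),(23,[(1,.dup 23)]),(24,[(1,.dup 24)]),(25,[(1,.dup 25)]),(26,[(1,.dup 26)]),(21,[(1,.hd 3 7)]),(44,[(1,.hd 3 8)]),(10,[(1,.hd 3 10)]),(33,[(1,.hd 3 11)]),(36,[(1,.two [3,3,48] [21,36,51])]),(42,[(1,.two [3,3,48] [30,36,42])]),(18,[(1,.two [3,18,33] [6,51,51])]),(15,[(1,.two [6,24,24] [15,42,51])]),(45,[(1,.two [6,24,24] [21,42,45])]),(12,[(1,.two [12,18,24] [6,51,51])]),(9,[(1,.two [12,12,30] [9,48,51])]),(39,[(1,.two [12,12,30] [18,39,51])]),(16,[(1,.two [5,5,44] [16,43,49])]),(32,[(1,.two [5,5,44] [27,32,49])]),(38,[(1,.two [5,11,38] [10,49,49])]),(22,[(1,.two [5,22,27] [10,49,49])]),(35,[(1,.two [8,11,35] [22,43,43])]),(19,[(1,.two [11,11,32] [19,43,46])]),(37,[(1,.two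 [1,2,51] [19,37,52])]),(17,[(1,.two [2,17,35] [3,52,53])]),(41,[(1,.two [1,7,46] [19,41,48])]),(13,[(1,.two [6,13,35] [8,47,53])]),(14,[(1,.two [1,12,41] [14,42,52])]),(40,[(1,.two [2,12,40] [13,42,53])]),(20,[(1,.two [1,20,33] [28,38,42])]),(34,[(1,.two [12,16,26] [21,34,53])])]⟩

theorem k54_1 : chk 54 1 c54_1 = true := by decide +kernel

def c54_5 : Cert :=
  ⟨[1,5,25,17,31,47,19,41,43,53,49,29,37,23,7,35,13,11],[1,5,7,11,13,17,19,23,25,29,31,35,37,41,43,47,49,53],[],[[],[],[],[],[],[],[],[],[],[],[],[],[],[],[],[],[],[],[],[],[],[],[],[],[],[],[],[],[],[],[],[],[],[],[],[],[],[],[],[],[],[],[],[],[],[],[],[],[],[],[],[],[],[]],[1],[],[],1,[(2,[(1,.one [2])]),(3,[(1,.one [3])]),(4,[(1,.one [4])]),(5,[(1,.one [5])]),(6,[(1,.one [6])]),(7,[(1,.one [7])]),(8,[(1,.one [8])]),(9,[(1,.one [9])]),(10,[(1,.one [10])]),(11,[(1,.one [11])]),(12,[(1,.one [12])]),(13,[(1,.one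 [13])]),(14,[(1,.one [14])]),(15,[(1,.one [15])]),(16,[(1,.one [16])]),(17,[(1,.one [17])]),(18,[(1,.one [18])]),(19,[(1,.one [19])]),(20,[(1,.one [20])]),(21,[(1,.one [21])]),(22,[(1,.one [22])]),(23,[(1,.one [23])]),(24,[(1,.one [24])]),(25,[(1,.one [25])]),(26,[(1,.one [26])]),(27,[(1,.one [27])]),(28,[(1,.one [28])]),(29,[(1,.one [29])]),(30,[(1,.one [30])]),(31,[(1,.one [31])]),(32,[(1,.one [32])]),(33,[(1,.one [33])]),(34,[(1,.one [34])]),(35,[(1,.one [35])]),(36,[(1,.one [36])]),(37,[(1,.one [37])]),(38,[(1,.one [38])]),(39,[(1,.one [39])]),(40,[(1,.one [40])]),(41,[(1,.one [41])]),(42,[(1,.one [42])]),(43,[(1,.one [43])]),(44,[(1,.one [44])]),(45,[(1,.one [45])]),(46,[(1,.one [46])]),(47,[(1,.one [47])]),(48,[(1,.one [48])]),(49,[(1,.one [49])]),(50,[(1,.one [50])]),(51,[(1,.one [51])]),(52,[(1,.one [52])]),(53,[(1,.one [53])])]⟩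

theorem k54_5 : chk 54 5 c54_5 = true := by decide +kernel

def c54_7 : Cert :=
  ⟨[1,7,49,19,25,13,37,43,31],[1,5,7,11,13,17,19,23,25,29,31,35,37,41,43,47,49,53],[2],[[],[2],[1],[6],[-1],[-2],[3],[2],[1],[18],[-1],[-2],[-3],[2],[1],[-6],[-1],[-2],[9],[2],[1],[6],[-1],[-2],[3],[2],[1],[0],[-1],[-2],[-3],[2],[1],[-6],[-1],[-2],[-9],[2],[1],[6],[-1],[-2],[3],[2],[1],[-18],[-1],[-2],[-3],[2],[1],[-6],[-1],[-2]],[27],[1],[[-1]],18,[(4,[(1,.two [2] [4])]),(10,[(1,.two [2] [10])]),(16,[(1,.two [2] [16])]),(22,[(1,.two [2] [22])]),(28,[(1,.two [2] [28])]),(34,[(1,.two [2] [34])]),(40,[(1,.two [2] [40])]),(46,[(1,.two [2] [46])]),(52,[(1,.two [2] [52])]),(8,[(1,.two [8] [4])]),(14,[(1,.two [14] [4])]),(20,[(1,.two [20] [4])]),(26,[(1,.two [26] [4])]),(32,[(1,.two [32] [4])]),(38,[(1,.two [38] [4])]),(44,[(1,.two [44] [4])]),(50,[(1,.two [50] [4])]),(6,[(1,.two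 [6] [4,4,46])]),(24,[(1,.two [24] [4,4,46])]),(42,[(1,.two [42] [4,4,46])]),(12,[(1,.two [2,2,50] [12])]),(30,[(1,.two [2,2,50] [30])]),(48,[(1,.two [2,2,50] [48])]),(18,[(1,.two [18] [12,12,30])]),(36,[(1,.two [6,6,42] [36])]),(23,[(1,.two [6] [4,23,27])]),(5,[(1,.two [6] [5,22,27])]),(53,[(1,.two [6] [5,50,53])]),(7,[(1,.two [6] [7,48,53])]),(51,[(1,.two [6] [7,50,51])]),(47,[(1,.two [6] [8,47,53])]),(49,[(1,.two [6] [8,49,51])]),(17,[(1,.two [6] [10,17,27])]),(11,[(1,.two [6] [11,16,27])]),(25,[(1,.two [6] [12,17,25])]),(19,[(1,.two [6] [12,19,23])]),(43,[(1,.two [6] [12,43,53])]),(13,[(1,.two [6] [13,44,51])]),(15,[(1,.two [6] [14,15,25])]),(41,[(1,.two [6] [14,41,53])]),(35,[(1,.two [6] [20,35,53])]),(37,[(1,.two [6] [20,37,51])]),(33,[(1,.two [6] [25,33,50])]),(29,[(1,.two [6] [26,29,53])]),(31,[(1,.two [6] [26,31,51])]),(1,[(1,.two [24] [1,2,51])]),(3,[(1,.two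 [3,4,47] [12])]),(39,[(1,.two [4,11,39] [12])]),(21,[(1,.two [4,21,29] [12])]),(45,[(1,.two [18] [3,6,45])]),(9,[(1,.two [9,12,33] [36])])]⟩

theorem k54_7 : chk 54 7 c54_7 = true := by decide +kernel

def c54_17 : Cert :=
  ⟨[1,17,19,53,37,35],[1,5,7,11,13,17,19,23,25,29,31,35,37,41,43,47,49,53],[],[[],[],[],[],[],[],[],[],[],[],[],[],[],[],[],[],[],[],[],[],[],[],[],[],[],[],[],[],[],[],[],[],[],[],[],[],[],[],[],[],[],[],[],[],[],[],[],[],[],[],[],[],[],[]],[1],[],[],1,[(2,[(1,.one [2])]),(3,[(1,.one [3])]),(4,[(1,.one [4])]),(5,[(1,.one [5])]),(6,[(1,.one [6])]),(7,[(1,.one [7])]),(8,[(1,.one [8])]),(9,[(1,.one [9])]),(10,[(1,.one [10])]),(11,[(1,.one [11])]),(12,[(1,.one [12])]),(13,[(1,.one [13])]),(14,[(1,.one [14])]),(15,[(1,.one [15])]),(16,[(1,.one [16])]),(17,[(1,.one [17])]),(18,[(1,.one [18])]),(19,[(1,.one [19])]),(20,[(1,.one [20])]),(21,[(1,.one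 [21])]),(22,[(1,.one [22])]),(23,[(1,.one [23])]),(24,[(1,.one [24])]),(25,[(1,.one [25])]),(26,[(1,.one [26])]),(27,[(1,.one [27])]),(28,[(1,.one [28])]),(29,[(1,.one [29])]),(30,[(1,.one [30])]),(31,[(1,.one [31])]),(32,[(1,.one [32])]),(33,[(1,.one [33])]),(34,[(1,.one [34])]),(35,[(1,.one [35])]),(36,[(1,.one [36])]),(37,[(1,.one [37])]),(38,[(1,.one [38])]),(39,[(1,.one [39])]),(40,[(1,.one [40])]),(41,[(1,.one [41])]),(42,[(1,.one [42])]),(43,[(1,.one [43])]),(44,[(1,.one [44])]),(45,[(1,.one [45])]),(46,[(1,.one [46])]),(47,[(1,.one [47])]),(48,[(1,.one [48])]),(49,[(1,.one [49])]),(50,[(1,.one [50])]),(51,[(1,.one [51])]),(52,[(1,.one [52])]),(53,[(1,.one [53])])]⟩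

theorem k54_17 : chk 54 17 c54_17 = true := by decide +kernel

def c54_19 : Cert :=
  ⟨[1,19,37],[1,5,7,11,13,17,19,23,25,29,31,35,37,41,43,47,49,53],[1,2,4],[[],[1,0,0],[0,1,0],[3,0,0],[0,0,1],[-1,1,1],[0,3,0],[0,1,-1],[1,-1,0],[6,0,-6],[-1,1,0],[0,-1,1],[0,0,3],[1,-1,-1],[0,0,-1],[-3,3,3],[0,-1,0],[-1,0,0],[3,0,-3],[1,0,0],[0,1,0],[0,3,-3],[0,0,1],[-1,1,1],[3,-3,0],[0,1,-1],[1,-1,0],[0,0,0],[-1,1,0],[0,-1,1],[-3,3,0],[1,-1,-1],[0,0,-1],[0,-3,3],[0,-1,0],[-1,0,0],[-3,0,3],[1,0,0],[0,1,0],[3,-3,-3],[0,0,1],[-1,1,1],[0,0,-3],[0,1,-1],[1,-1,0],[-6,0,6],[-1,1,0],[0,-1,1],[0,-3,0],[1,-1,-1],[0,0,-1],[-3,0,0],[0,-1,0],[-1,0,0]],[27],[1,5,7],[[-2,1,-3],[-1,1,2],[1,-3,2]],108,[(17,[(1,.two [1] [17])]),(35,[(1,.two [1] [35])]),(53,[(1,.two [1] [53])]),(19,[(1,.two [19] [17])]),(37,[(1,.two [37] [17])]),(16,[(1,.two [2] [16])]),(34,[(1,.two [2] [34])]),(52,[(1,.two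 [2] [52])]),(20,[(1,.two [20] [16])]),(38,[(1,.two [38] [16])]),(14,[(1,.two [4] [14])]),(32,[(1,.two [4] [32])]),(50,[(1,.two [4] [50])]),(22,[(1,.two [22] [14])]),(40,[(1,.two [40] [14])]),(51,[(1,.two [1,1,52] [1,2,51])]),(3,[(1,.two [3,16,35] [35,35,38])]),(48,[(1,.two [2,2,50] [2,4,48])]),(6,[(1,.two [6,14,34] [34,34,40])]),(28,[(1,.dup 1)]),(29,[(1,.dup 2)]),(30,[(1,.dup 3)]),(7,[(1,.dup 7)]),(8,[(1,.dup 8)]),(10,[(1,.dup 10)]),(11,[(1,.dup 11)]),(41,[(1,.dup 14)]),(43,[(1,.dup 16)]),(44,[(1,.dup 17)]),(46,[(1,.dup 19)]),(47,[(1,.dup 20)]),(49,[(1,.dup 22)]),(23,[(1,.dup 23)]),(24,[(1,.dup 24)]),(25,[(1,.dup 25)]),(26,[(1,.dup 26)]),(12,[(1,.hd 3 4)]),(21,[(1,.hd 3 7)]),(33,[(1,.hd 3 11)]),(36,[(1,.hd 3 12)]),(42,[(1,.hd 3 14)]),(18,[(1,.two [1,18,35] [1,17,36])]),(13,[(1,.two [13,18,23] [23,36,49])]),(31,[(1,.two [18,41,49] [31,36,41])]),(5,[(1,.two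 [1,1,52] [5,14,35])]),(39,[(1,.two [2,22,30] [22,39,47])]),(15,[(1,.two [7,15,32] [24,32,52])]),(45,[(1,.two [3,3,48] [21,42,45])]),(9,[(1,.two [9,12,33] [6,51,51])])]⟩

theorem k54_19 : chk 54 19 c54_19 = true := by decide +kernel

def c54_53 : Cert :=
  ⟨[1,53],[1,5,7,11,13,17,19,23,25,29,31,35,37,41,43,47,49,53],[],[[],[],[],[],[],[],[],[],[],[],[],[],[],[],[],[],[],[],[],[],[],[],[],[],[],[],[],[],[],[],[],[],[],[],[],[],[],[],[],[],[],[],[],[],[],[],[],[],[],[],[],[],[],[]],[1],[],[],1,[(2,[(1,.one [2])]),(3,[(1,.one [3])]),(4,[(1,.one [4])]),(5,[(1,.one [5])]),(6,[(1,.one [6])]),(7,[(1,.one [7])]),(8,[(1,.one [8])]),(9,[(1,.one [9])]),(10,[(1,.one [10])]),(11,[(1,.one [11])]),(12,[(1,.one [12])]),(13,[(1,.one [13])]),(14,[(1,.one [14])]),(15,[(1,.one [15])]),(16,[(1,.one [16])]),(17,[(1,.one [17])]),(18,[(1,.one [18])]),(19,[(1,.one [19])]),(20,[(1,.one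 [20])]),(21,[(1,.one [21])]),(22,[(1,.one [22])]),(23,[(1,.one [23])]),(24,[(1,.one [24])]),(25,[(1,.one [25])]),(26,[(1,.one [26])]),(27,[(1,.one [27])]),(28,[(1,.one [28])]),(29,[(1,.one [29])]),(30,[(1,.one [30])]),(31,[(1,.one [31])]),(32,[(1,.one [32])]),(33,[(1,.one [33])]),(34,[(1,.one [34])]),(35,[(1,.one [35])]),(36,[(1,.one [36])]),(37,[(1,.one [37])]),(38,[(1,.one [38])]),(39,[(1,.one [39])]),(40,[(1,.one [40])]),(41,[(1,.one [41])]),(42,[(1,.one [42])]),(43,[(1,.one [43])]),(44,[(1,.one [44])]),(45,[(1,.one [45])]),(46,[(1,.one [46])]),(47,[(1,.one [47])]),(48,[(1,.one [48])]),(49,[(1,.one [49])]),(50,[(1,.one [50])]),(51,[(1,.one [51])]),(52,[(1,.one [52])]),(53,[(1,.one [53])])]⟩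

theorem k54_53 : chk 54 53 c54_53 = true := by decide +kernel

theorem all54 : ∀ x < 54, x.Coprime 54 → Full 54 x := by
  intro x hx hc
  interval_cases x
  · exact absurd hc (by decide)
  · exact full_of_chk k54_1
  · exact absurd hc (by decide)
  · exact absurd hc (by decide)
  · exact absurd hc (by decide)
  · exact full_of_chk k54_5
  · exact absurd hc (by decide)
  · exact full_of_chk k54_7
  · exact absurd hc (by decide)
  · exact absurd hc (by decide)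
  · exact absurd hc (by decide)
  · exact full_same 17 17 k54_5 (by decide) (by decide)
  · exact absurd hc (by decide)
  · exact full_same 5 2 k54_7 (by decide) (by decide)
  · exact absurd hc (by decide)
  · exact absurd hc (by decide)
  · exact absurd hc (by decide)
  · exact full_of_chk k54_17
  · exact absurd hc (by decide)
  · exact full_of_chk k54_19
  · exact absurd hc (by decide)
  · exact absurd hc (by decide)
  · exact absurd hc (by decide)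
  · exact full_same 13 7 k54_5 (by decide) (by decide)
  · exact absurd hc (by decide)
  · exact full_same 4 7 k54_7 (by decide) (by decide)
  · exact absurd hc (by decide)
  · exact absurd hc (by decide)
  · exact absurd hc (by decide)
  · exact full_same 11 5 k54_5 (by decide) (by decide)
  · exact absurd hc (by decide)
  · exact full_same 8 8 k54_7 (by decide) (by decide)
  · exact absurd hc (by decide)
  · exact absurd hc (by decide)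
  · exact absurd hc (by decide)
  · exact full_same 5 5 k54_17 (by decide) (by decide)
  · exact absurd hc (by decide)
  · exact full_same 2 2 k54_19 (by decide) (by decide)
  · exact absurd hc (by decide)
  · exact absurd hc (by decide)
  · exact absurd hc (by decide)
  · exact full_same 7 13 k54_5 (by decide) (by decide)
  · exact absurd hc (by decide)
  · exact full_same 7 4 k54_7 (by decide) (by decide)
  · exact absurd hc (by decide)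
  · exact absurd hc (by decide)
  · exact absurd hc (by decide)
  · exact full_same 5 11 k54_5 (by decide) (by decide)
  · exact absurd hc (by decide)
  · exact full_same 2 5 k54_7 (by decide) (by decide)
  · exact absurd hc (by decide)
  · exact absurd hc (by decide)
  · exact absurd hc (by decide)
  · exact full_of_chk k54_53

end Pool.Agent.N997.TF
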