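import Pool.Agent.N997.TF.Same

/-!
Degree 58: certificates.
-/

set_option maxRecDepth 100000

namespace Pool.Agent.N997.TF

def c58_1 : Cert :=
  ⟨[1],[1,3,5,7,9,11,13,15,17,19,21,23,25,27,31,33,35,37,39,41,43,45,47,49,51,53,55,57],[1,2,3,4,5,6,7,8,9,10,11,12,13,14],[[],[1,0,0,0,0,0,0,0,0,0,0,0,0,0],[0,1,0,0,0,0,0,0,0,0,0,0,0,0],[0,0,1,0,0,0,0,0,0,0,0,0,0,0],[0,0,0,1,0,0,0,0,0,0,0,0,0,0],[0,0,0,0,1,0,0,0,0,0,0,0,0,0],[0,0,0,0,0,1,0,0,0,0,0,0,0,0],[0,0,0,0,0,0,1,0,0,0,0,0,0,0],[0,0,0,0,0,0,0,1,0,0,0,0,0,0],[0,0,0,0,0,0,0,0,1,0,0,0,0,0],[0,0,0,0,0,0,0,0,0,1,0,0,0,0],[0,0,0,0,0,0,0,0,0,0,1,0,0,0],[0,0,0,0,0,0,0,0,0,0,0,1,0,0],[0,0,0,0,0,0,0,0,0,0,0,0,1,0],[0,0,0,0,0,0,0,0,0,0,0,0,0,1],[-1,1,0,0,0,0,0,0,0,0,0,0,0,1],[0,0,-1,0,0,1,0,0,0,0,0,0,1,0],[0,0,0,0,-1,0,0,0,0,1,0,1,0,0],[0,0,0,0,0,0,-1,0,0,0,1,0,0,1],[0,0,0,0,0,0,-1,0,-1,1,1,0,0,1],[0,0,0,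0,0,0,1,0,1,0,-1,0,0,-1],[0,0,1,0,0,-1,0,1,0,0,0,0,-1,0],[0,0,0,0,0,0,1,0,0,0,0,0,0,-1],[0,0,0,0,0,1,0,0,0,0,0,-1,0,0],[0,0,0,0,1,0,0,0,0,-1,0,0,0,0],[0,0,0,1,0,0,0,-1,0,0,0,0,0,0],[0,0,1,0,0,-1,0,0,0,0,0,0,0,0],[0,1,0,-1,0,0,0,0,0,0,0,0,0,0],[1,-1,0,0,0,0,0,0,0,0,0,0,0,0],[0,0,0,0,0,0,0,0,0,0,0,0,0,0],[-1,1,0,0,0,0,0,0,0,0,0,0,0,0],[0,-1,0,1,0,0,0,0,0,0,0,0,0,0],[0,0,-1,0,0,1,0,0,0,0,0,0,0,0],[0,0,0,-1,0,0,0,1,0,0,0,0,0,0],[0,0,0,0,-1,0,0,0,0,1,0,0,0,0],[0,0,0,0,0,-1,0,0,0,0,0,1,0,0],[0,0,0,0,0,0,-1,0,0,0,0,0,0,1],[0,0,-1,0,0,1,0,-1,0,0,0,0,1,0],[0,0,0,0,0,0,-1,0,-1,0,1,0,0,1],[0,0,0,0,0,0,1,0,1,-1,-1,0,0,-1],[0,0,0,0,0,0,1,0,0,0,-1,0,0,-1],[0,0,0,0,1,0,0,0,0,-1,0,-1,0,0],[0,0,1,0,0,-1,0,0,0,0,0,0,-1,0],[1,-1,0,0,0,0,0,0,0,0,0,0,0,-1],[0,0,0,0,0,0,0,0,0,0,0,0,0,-1],[0,0,0,0,0,0,0,0,0,0,0,0,-1,0],[0,0,0,0,0,0,0,0,0,0,0,-1,0,0],[0,0,0,0,0,0,0,0,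0,0,-1,0,0,0],[0,0,0,0,0,0,0,0,0,-1,0,0,0,0],[0,0,0,0,0,0,0,0,-1,0,0,0,0,0],[0,0,0,0,0,0,0,-1,0,0,0,0,0,0],[0,0,0,0,0,0,-1,0,0,0,0,0,0,0],[0,0,0,0,0,-1,0,0,0,0,0,0,0,0],[0,0,0,0,-1,0,0,0,0,0,0,0,0,0],[0,0,0,-1,0,0,0,0,0,0,0,0,0,0],[0,0,-1,0,0,0,0,0,0,0,0,0,0,0],[0,-1,0,0,0,0,0,0,0,0,0,0,0,0],[-1,0,0,0,0,0,0,0,0,0,0,0,0,0]],[29],[1,3,5,7,9,11,13,15,17,19,21,23,25,27],[[0,-1,0,-1,0,-1,-1,-1,0,-1,0,-1,-1,0],[0,0,-1,0,-1,0,0,1,0,1,1,1,1,1],[0,-1,0,-1,0,1,1,1,0,1,0,-1,-1,0],[-1,0,0,0,1,1,1,0,-1,-1,-1,0,1,0],[0,-1,-1,1,1,1,-1,0,0,0,1,0,0,-1],[-1,0,0,2,1,-1,-1,0,1,-1,-1,0,1,0],[0,-1,1,1,-1,-1,1,0,0,0,-1,2,0,-1],[0,0,1,0,-1,0,0,-1,0,1,1,-1,-1,1],[0,0,1,0,-1,0,0,-1,0,1,-1,1,1,-1],[-1,1,1,-1,0,0,0,0,1,-1,0,0,-1,1],[-1,1,0,-1,1,0,0,1,-1,0,1,-1,0,0],[0,1,0,-1,0,-1,1,-1,0,1,0,1,-1,0],[-1,1,-1,1,0,0,0,0,1,-1,0,0,1,-1],[-1,2,-1,0,0,1,-1,1,-1,0,0,-1,0,1]],232,[(57,[(1,.two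 [1] [57])]),(56,[(1,.two [2] [56])]),(55,[(1,.two [3] [55])]),(54,[(1,.two [4] [54])]),(53,[(1,.two [5] [53])]),(52,[(1,.two [6] [52])]),(51,[(1,.two [7] [51])]),(50,[(1,.two [8] [50])]),(49,[(1,.two [9] [49])]),(48,[(1,.two [10] [48])]),(47,[(1,.two [11] [47])]),(46,[(1,.two [12] [46])]),(45,[(1,.two [13] [45])]),(44,[(1,.two [14] [44])]),(30,[(1,.dup 1)]),(31,[(1,.dup 2)]),(32,[(1,.dup 3)]),(33,[(1,.dup 4)]),(34,[(1,.dup 5)]),(35,[(1,.dup 6)]),(36,[(1,.dup 7)]),(15,[(1,.dup 15)]),(16,[(1,.dup 16)]),(17,[(1,.dup 17)]),(18,[(1,.dup 18)]),(22,[(1,.dup 22)]),(23,[(1,.dup 23)]),(24,[(1,.dup 24)]),(25,[(1,.dup 25)]),(26,[(1,.dup 26)]),(27,[(1,.dup 27)]),(28,[(1,.dup 28)]),(43,[(1,.two [1,14,43] [2,57,57])]),(42,[(1,.two [3,13,42] [6,55,55])]),(21,[(1,.two [4,21,33] [16,50,50])]),(37,[(1,.two [8,8,42] [25,37,54])]),(41,[(1,.two [5,12,41] [10,53,53])]),(40,[(1,.two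 [7,11,40] [14,51,51])]),(19,[(1,.two [9,9,40] [19,48,49])]),(38,[(1,.two [9,9,40] [29,38,49])]),(39,[(1,.two [9,10,39] [18,49,49])]),(20,[(1,.two [9,20,29] [18,49,49])])]⟩

theorem k58_1 : chk 58 1 c58_1 = true := by decide +kernel

def c58_3 : Cert :=
  ⟨[1,3,9,27,23,11,33,41,7,21,5,15,45,19,57,55,49,31,35,47,25,17,51,37,53,43,13,39],[1,3,5,7,9,11,13,15,17,19,21,23,25,27,31,33,35,37,39,41,43,45,47,49,51,53,55,57],[],[[],[],[],[],[],[],[],[],[],[],[],[],[],[],[],[],[],[],[],[],[],[],[],[],[],[],[],[],[],[],[],[],[],[],[],[],[],[],[],[],[],[],[],[],[],[],[],[],[],[],[],[],[],[],[],[],[],[]],[1],[],[],1,[(2,[(1,.one [2])]),(3,[(1,.one [3])]),(4,[(1,.one [4])]),(5,[(1,.one [5])]),(6,[(1,.one [6])]),(7,[(1,.one [7])]),(8,[(1,.one [8])]),(9,[(1,.one [9])]),(10,[(1,.one [10])]),(11,[(1,.one [11])]),(12,[(1,.one [12])]),(13,[(1,.one [13])]),(14,[(1,.one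 [14])]),(15,[(1,.one [15])]),(16,[(1,.one [16])]),(17,[(1,.one [17])]),(18,[(1,.one [18])]),(19,[(1,.one [19])]),(20,[(1,.one [20])]),(21,[(1,.one [21])]),(22,[(1,.one [22])]),(23,[(1,.one [23])]),(24,[(1,.one [24])]),(25,[(1,.one [25])]),(26,[(1,.one [26])]),(27,[(1,.one [27])]),(28,[(1,.one [28])]),(29,[(1,.one [29])]),(30,[(1,.one [30])]),(31,[(1,.one [31])]),(32,[(1,.one [32])]),(33,[(1,.one [33])]),(34,[(1,.one [34])]),(35,[(1,.one [35])]),(36,[(1,.one [36])]),(37,[(1,.one [37])]),(38,[(1,.one [38])]),(39,[(1,.one [39])]),(40,[(1,.one [40])]),(41,[(1,.one [41])]),(42,[(1,.one [42])]),(43,[(1,.one [43])]),(44,[(1,.one [44])]),(45,[(1,.one [45])]),(46,[(1,.one [46])]),(47,[(1,.one [47])]),(48,[(1,.one [48])]),(49,[(1,.one [49])]),(50,[(1,.one [50])]),(51,[(1,.one [51])]),(52,[(1,.one [52])]),(53,[(1,.one [53])]),(54,[(1,.one [54])]),(55,[(1,.one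 [55])]),(56,[(1,.one [56])]),(57,[(1,.one [57])])]⟩

theorem k58_3 : chk 58 3 c58_3 = true := by decide +kernel

def c58_5 : Cert :=
  ⟨[1,5,25,9,45,51,23,57,53,33,49,13,7,35],[1,3,5,7,9,11,13,15,17,19,21,23,25,27,31,33,35,37,39,41,43,45,47,49,51,53,55,57],[],[[],[],[],[],[],[],[],[],[],[],[],[],[],[],[],[],[],[],[],[],[],[],[],[],[],[],[],[],[],[],[],[],[],[],[],[],[],[],[],[],[],[],[],[],[],[],[],[],[],[],[],[],[],[],[],[],[],[]],[1],[],[],1,[(2,[(1,.one [2])]),(3,[(1,.one [3])]),(4,[(1,.one [4])]),(5,[(1,.one [5])]),(6,[(1,.one [6])]),(7,[(1,.one [7])]),(8,[(1,.one [8])]),(9,[(1,.one [9])]),(10,[(1,.one [10])]),(11,[(1,.one [11])]),(12,[(1,.one [12])]),(13,[(1,.one [13])]),(14,[(1,.one [14])]),(15,[(1,.one [15])]),(16,[(1,.one [16])]),(17,[(1,.one [17])]),(18,[(1,.one [18])]),(19,[(1,.one [19])]),(20,[(1,.one [20])]),(21,[(1,.one [21])]),(22,[(1,.one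 [22])]),(23,[(1,.one [23])]),(24,[(1,.one [24])]),(25,[(1,.one [25])]),(26,[(1,.one [26])]),(27,[(1,.one [27])]),(28,[(1,.one [28])]),(29,[(1,.one [29])]),(30,[(1,.one [30])]),(31,[(1,.one [31])]),(32,[(1,.one [32])]),(33,[(1,.one [33])]),(34,[(1,.one [34])]),(35,[(1,.one [35])]),(36,[(1,.one [36])]),(37,[(1,.one [37])]),(38,[(1,.one [38])]),(39,[(1,.one [39])]),(40,[(1,.one [40])]),(41,[(1,.one [41])]),(42,[(1,.one [42])]),(43,[(1,.one [43])]),(44,[(1,.one [44])]),(45,[(1,.one [45])]),(46,[(1,.one [46])]),(47,[(1,.one [47])]),(48,[(1,.one [48])]),(49,[(1,.one [49])]),(50,[(1,.one [50])]),(51,[(1,.one [51])]),(52,[(1,.one [52])]),(53,[(1,.one [53])]),(54,[(1,.one [54])]),(55,[(1,.one [55])]),(56,[(1,.one [56])]),(57,[(1,.one [57])])]⟩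

theorem k58_5 : chk 58 5 c58_5 = true := by decide +kernel

def c58_7 : Cert :=
  ⟨[1,7,49,53,23,45,25],[1,3,5,7,9,11,13,15,17,19,21,23,25,27,31,33,35,37,39,41,43,45,47,49,51,53,55,57],[1,2],[[],[1,0],[0,1],[1,-2],[1,-1],[-1,0],[1,-1],[1,0],[0,-1],[-1,0],[0,-1],[1,-2],[0,-1],[-1,0],[0,1],[-1,2],[-1,1],[1,-2],[0,-1],[1,-2],[-1,1],[1,-2],[1,-1],[1,0],[-1,1],[1,0],[0,-1],[-1,2],[1,-1],[0,0],[-1,1],[1,-2],[0,1],[-1,0],[1,-1],[-1,0],[-1,1],[-1,2],[1,-1],[-1,2],[0,1],[-1,2],[1,-1],[1,-2],[0,-1],[1,0],[0,1],[-1,2],[0,1],[1,0],[0,1],[-1,0],[-1,1],[1,0],[-1,1],[-1,2],[0,-1],[-1,0]],[29],[1,3],[[-1,-1],[2,0]],116,[(5,[(1,.two [1] [5])]),(9,[(1,.two [1] [9])]),(13,[(1,.two [1] [13])]),(33,[(1,.two [1] [33])]),(35,[(1,.two [1] [35])]),(51,[(1,.two [1] [51])]),(57,[(1,.two [1] [57])]),(7,[(1,.two [7] [5])]),(23,[(1,.two [23] [5])]),(25,[(1,.two [25] [5])]),(45,[(1,.two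 [45] [5])]),(49,[(1,.two [49] [5])]),(53,[(1,.two [53] [5])]),(8,[(1,.two [8] [2])]),(14,[(1,.two [8] [14])]),(32,[(1,.two [8] [32])]),(40,[(1,.two [8] [40])]),(46,[(1,.two [8] [46])]),(48,[(1,.two [8] [48])]),(50,[(1,.two [8] [50])]),(10,[(1,.two [10] [2])]),(12,[(1,.two [12] [2])]),(18,[(1,.two [18] [2])]),(26,[(1,.two [26] [2])]),(44,[(1,.two [44] [2])]),(56,[(1,.two [56] [2])]),(27,[(1,.two [8] [8,23,27])]),(55,[(1,.two [8] [8,53,55])]),(47,[(1,.two [10] [1,10,47])]),(41,[(1,.two [10] [7,10,41])]),(39,[(1,.two [12] [7,12,39])]),(15,[(1,.two [18] [15,18,25])]),(37,[(1,.two [26] [26,37,53])]),(43,[(1,.two [2,13,43] [2])]),(21,[(1,.two [2,21,35] [2])]),(3,[(1,.two [3,5,50] [50])]),(17,[(1,.two [9,17,32] [32])]),(11,[(1,.two [11,14,33] [14])]),(31,[(1,.two [13,14,31] [14])]),(19,[(1,.two [19,40,57] [40])]),(30,[(1,.dup 1)]),(4,[(1,.dup 2)]),(6,[(1,.dup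 3)]),(34,[(1,.dup 5)]),(36,[(1,.dup 7)]),(16,[(1,.dup 8)]),(38,[(1,.dup 9)]),(20,[(1,.dup 10)]),(22,[(1,.dup 11)]),(24,[(1,.dup 12)]),(42,[(1,.dup 13)]),(28,[(1,.dup 14)]),(52,[(1,.dup 23)]),(54,[(1,.dup 25)])]⟩

theorem k58_7 : chk 58 7 c58_7 = true := by decide +kernel

def c58_17 : Cert :=
  ⟨[1,17,57,41],[1,3,5,7,9,11,13,15,17,19,21,23,25,27,31,33,35,37,39,41,43,45,47,49,51,53,55,57],[],[[],[],[],[],[],[],[],[],[],[],[],[],[],[],[],[],[],[],[],[],[],[],[],[],[],[],[],[],[],[],[],[],[],[],[],[],[],[],[],[],[],[],[],[],[],[],[],[],[],[],[],[],[],[],[],[],[],[]],[1],[],[],1,[(2,[(1,.one [2])]),(3,[(1,.one [3])]),(4,[(1,.one [4])]),(5,[(1,.one [5])]),(6,[(1,.one [6])]),(7,[(1,.one [7])]),(8,[(1,.one [8])]),(9,[(1,.one [9])]),(10,[(1,.one [10])]),(11,[(1,.one [11])]),(12,[(1,.one [12])]),(13,[(1,.one [13])]),(14,[(1,.one [14])]),(15,[(1,.one [15])]),(16,[(1,.one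 [16])]),(17,[(1,.one [17])]),(18,[(1,.one [18])]),(19,[(1,.one [19])]),(20,[(1,.one [20])]),(21,[(1,.one [21])]),(22,[(1,.one [22])]),(23,[(1,.one [23])]),(24,[(1,.one [24])]),(25,[(1,.one [25])]),(26,[(1,.one [26])]),(27,[(1,.one [27])]),(28,[(1,.one [28])]),(29,[(1,.one [29])]),(30,[(1,.one [30])]),(31,[(1,.one [31])]),(32,[(1,.one [32])]),(33,[(1,.one [33])]),(34,[(1,.one [34])]),(35,[(1,.one [35])]),(36,[(1,.one [36])]),(37,[(1,.one [37])]),(38,[(1,.one [38])]),(39,[(1,.one [39])]),(40,[(1,.one [40])]),(41,[(1,.one [41])]),(42,[(1,.one [42])]),(43,[(1,.one [43])]),(44,[(1,.one [44])]),(45,[(1,.one [45])]),(46,[(1,.one [46])]),(47,[(1,.one [47])]),(48,[(1,.one [48])]),(49,[(1,.one [49])]),(50,[(1,.one [50])]),(51,[(1,.one [51])]),(52,[(1,.one [52])]),(53,[(1,.one [53])]),(54,[(1,.one [54])]),(55,[(1,.one [55])]),(56,[(1,.one [56])]),(57,[(1,.one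 [57])])]⟩

theorem k58_17 : chk 58 17 c58_17 = true := by decide +kernel

def c58_57 : Cert :=
  ⟨[1,57],[1,3,5,7,9,11,13,15,17,19,21,23,25,27,31,33,35,37,39,41,43,45,47,49,51,53,55,57],[],[[],[],[],[],[],[],[],[],[],[],[],[],[],[],[],[],[],[],[],[],[],[],[],[],[],[],[],[],[],[],[],[],[],[],[],[],[],[],[],[],[],[],[],[],[],[],[],[],[],[],[],[],[],[],[],[],[],[]],[1],[],[],1,[(2,[(1,.one [2])]),(3,[(1,.one [3])]),(4,[(1,.one [4])]),(5,[(1,.one [5])]),(6,[(1,.one [6])]),(7,[(1,.one [7])]),(8,[(1,.one [8])]),(9,[(1,.one [9])]),(10,[(1,.one [10])]),(11,[(1,.one [11])]),(12,[(1,.one [12])]),(13,[(1,.one [13])]),(14,[(1,.one [14])]),(15,[(1,.one [15])]),(16,[(1,.one [16])]),(17,[(1,.one [17])]),(18,[(1,.one [18])]),(19,[(1,.one [19])]),(20,[(1,.one [20])]),(21,[(1,.one [21])]),(22,[(1,.one [22])]),(23,[(1,.one [23])]),(24,[(1,.one [24])]),(25,[(1,.one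 [25])]),(26,[(1,.one [26])]),(27,[(1,.one [27])]),(28,[(1,.one [28])]),(29,[(1,.one [29])]),(30,[(1,.one [30])]),(31,[(1,.one [31])]),(32,[(1,.one [32])]),(33,[(1,.one [33])]),(34,[(1,.one [34])]),(35,[(1,.one [35])]),(36,[(1,.one [36])]),(37,[(1,.one [37])]),(38,[(1,.one [38])]),(39,[(1,.one [39])]),(40,[(1,.one [40])]),(41,[(1,.one [41])]),(42,[(1,.one [42])]),(43,[(1,.one [43])]),(44,[(1,.one [44])]),(45,[(1,.one [45])]),(46,[(1,.one [46])]),(47,[(1,.one [47])]),(48,[(1,.one [48])]),(49,[(1,.one [49])]),(50,[(1,.one [50])]),(51,[(1,.one [51])]),(52,[(1,.one [52])]),(53,[(1,.one [53])]),(54,[(1,.one [54])]),(55,[(1,.one [55])]),(56,[(1,.one [56])]),(57,[(1,.one [57])])]⟩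

theorem k58_57 : chk 58 57 c58_57 = true := by decide +kernel

theorem all58 : ∀ x < 58, x.Coprime 58 → Full 58 x := by
  intro x hx hc
  interval_cases x
  · exact absurd hc (by decide)
  · exact full_of_chk k58_1
  · exact absurd hc (by decide)
  · exact full_of_chk k58_3
  · exact absurd hc (by decide)
  · exact full_of_chk k58_5
  · exact absurd hc (by decide)
  · exact full_of_chk k58_7
  · exact absurd hc (by decide)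
  · exact full_same 3 5 k58_5 (by decide) (by decide)
  · exact absurd hc (by decide)
  · exact full_same 5 17 k58_3 (by decide) (by decide)
  · exact absurd hc (by decide)
  · exact full_same 11 9 k58_5 (by decide) (by decide)
  · exact absurd hc (by decide)
  · exact full_same 11 23 k58_3 (by decide) (by decide)
  · exact absurd hc (by decide)
  · exact full_of_chk k58_17
  · exact absurd hc (by decide)
  · exact full_same 13 13 k58_3 (by decide) (by decide)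
  · exact absurd hc (by decide)
  · exact full_same 9 25 k58_3 (by decide) (by decide)
  · exact absurd hc (by decide)
  · exact full_same 4 2 k58_7 (by decide) (by decide)
  · exact absurd hc (by decide)
  · exact full_same 6 6 k58_7 (by decide) (by decide)
  · exact absurd hc (by decide)
  · exact full_same 3 19 k58_3 (by decide) (by decide)
  · exact absurd hc (by decide)
  · exact absurd hc (by decide)
  · exact absurd hc (by decide)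
  · exact full_same 17 5 k58_3 (by decide) (by decide)
  · exact absurd hc (by decide)
  · exact full_same 9 11 k58_5 (by decide) (by decide)
  · exact absurd hc (by decide)
  · exact full_same 13 13 k58_5 (by decide) (by decide)
  · exact absurd hc (by decide)
  · exact full_same 23 11 k58_3 (by decide) (by decide)
  · exact absurd hc (by decide)
  · exact full_same 27 27 k58_3 (by decide) (by decide)
  · exact absurd hc (by decide)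
  · exact full_same 3 3 k58_17 (by decide) (by decide)
  · exact absurd hc (by decide)
  · exact full_same 25 9 k58_3 (by decide) (by decide)
  · exact absurd hc (by decide)
  · exact full_same 5 3 k58_7 (by decide) (by decide)
  · exact absurd hc (by decide)
  · exact full_same 19 3 k58_3 (by decide) (by decide)
  · exact absurd hc (by decide)
  · exact full_same 2 4 k58_7 (by decide) (by decide)
  · exact absurd hc (by decide)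
  · exact full_same 5 3 k58_5 (by decide) (by decide)
  · exact absurd hc (by decide)
  · exact full_same 3 5 k58_7 (by decide) (by decide)
  · exact absurd hc (by decide)
  · exact full_same 15 15 k58_3 (by decide) (by decide)
  · exact absurd hc (by decide)
  · exact full_of_chk k58_57

end Pool.Agent.N997.TF
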