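import Pool.Agent.N997.TF.Same

/-!
Degree 60: certificates.
-/

set_option maxRecDepth 100000

namespace Pool.Agent.N997.TF

def c60_1 : Cert :=
  ⟨[1],[1,7,11,13,17,19,23,29,31,37,41,43,47,49,53,59],[1,2,3,4,5,6,7,9],[[],[1,0,0,0,0,0,0,0],[0,1,0,0,0,0,0,0],[0,0,1,0,0,0,0,0],[0,0,0,1,0,0,0,0],[0,0,0,0,1,0,0,0],[0,0,0,0,0,1,0,0],[0,0,0,0,0,0,1,0],[0,-1,0,1,0,1,0,0],[0,0,0,0,0,0,0,1],[0,2,2,0,0,-2,0,-2],[1,-1,-1,0,0,1,0,1],[0,0,-1,0,0,1,0,1],[0,0,-1,0,0,0,1,1],[0,1,2,0,0,-1,0,-2],[0,-1,-1,0,1,1,0,1],[0,0,2,1,0,-1,0,-2],[0,-1,-1,0,0,1,1,1],[0,0,-2,0,0,1,0,2],[1,0,1,0,0,-1,0,-1],[0,1,1,0,0,-1,0,-1],[0,0,2,0,0,-1,0,-1],[0,-1,-2,0,0,2,0,2],[0,-1,-2,0,0,1,1,2],[0,0,1,0,0,0,0,-1],[0,-2,-2,0,1,2,0,2],[0,1,0,0,0,-1,0,0],[0,0,1,0,0,-1,0,0],[0,1,0,-1,0,0,0,0],[1,-1,0,0,0,0,0,0],[0,0,0,0,0,0,0,0],[-1,1,0,0,0,0,0,0],[0,-1,0,1,0,0,0,0]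,[0,0,-1,0,0,1,0,0],[0,-1,0,0,0,1,0,0],[0,2,2,0,-1,-2,0,-2],[0,0,-1,0,0,0,0,1],[0,1,2,0,0,-1,-1,-2],[0,1,2,0,0,-2,0,-2],[0,0,-2,0,0,1,0,1],[0,-1,-1,0,0,1,0,1],[-1,0,-1,0,0,1,0,1],[0,0,2,0,0,-1,0,-2],[0,1,1,0,0,-1,-1,-1],[0,0,-2,-1,0,1,0,2],[0,1,1,0,-1,-1,0,-1],[0,-1,-2,0,0,1,0,2],[0,0,1,0,0,0,-1,-1],[0,0,1,0,0,-1,0,-1],[-1,1,1,0,0,-1,0,-1],[0,-2,-2,0,0,2,0,2],[0,0,0,0,0,0,0,-1],[0,1,0,-1,0,-1,0,0],[0,0,0,0,0,0,-1,0],[0,0,0,0,0,-1,0,0],[0,0,0,0,-1,0,0,0],[0,0,0,-1,0,0,0,0],[0,0,-1,0,0,0,0,0],[0,-1,0,0,0,0,0,0],[-1,0,0,0,0,0,0,0]],[30],[1,7,11,13,17,19,23,29],[[-1,-1,-1,-1,-1,-1,-1,-1],[1,-3,1,-1,3,-1,1,3],[0,-2,4,-2,4,-2,-4,2],[-1,1,1,1,-1,-1,-1,1],[-1,1,1,-1,-1,1,1,-1],[-1,3,-3,1,-3,3,1,-1],[-1,1,-1,1,1,-1,1,-1],[-1,1,-3,3,-3,3,3,-3]],240,[(59,[(1,.two [1] [59])]),(58,[(1,.two [2] [58])]),(57,[(1,.two [3] [57])]),(56,[(1,.two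 [4] [56])]),(55,[(1,.two [5] [55])]),(54,[(1,.two [6] [54])]),(53,[(1,.two [7] [53])]),(51,[(1,.two [9] [51])]),(18,[(1,.two [3,3,54] [18,51,51])]),(42,[(1,.two [9,9,42] [6,57,57])]),(31,[(1,.dup 1)]),(32,[(1,.dup 2)]),(33,[(1,.dup 3)]),(39,[(1,.dup 9)]),(21,[(1,.dup 21)]),(27,[(1,.dup 27)]),(28,[(1,.dup 28)]),(29,[(1,.dup 29)]),(41,[(1,.hd 3 1)]),(22,[(1,.hd 3 2)]),(47,[(1,.hd 3 7)]),(49,[(1,.hd 3 9)]),(11,[(1,.hd 3 11)]),(13,[(1,.hd 3 13)]),(38,[(1,.hd 3 18)]),(19,[(1,.hd 3 19)]),(12,[(1,.two [1,1,58] [12,49,59])]),(20,[(1,.two [1,1,58] [20,41,59])]),(40,[(1,.two [1,1,58] [31,40,49])]),(48,[(1,.two [1,1,58] [31,41,48])]),(24,[(1,.two [1,18,41] [24,48,48])]),(36,[(1,.two [1,18,41] [36,42,42])]),(46,[(1,.two [2,12,46] [24,48,48])]),(44,[(1,.two [4,12,44] [24,48,48])]),(14,[(1,.two [12,12,36] [14,48,58])]),(16,[(1,.two [12,12,36]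 [16,48,56])]),(34,[(1,.two [12,12,36] [34,38,48])]),(26,[(1,.two [12,22,26] [24,48,48])]),(8,[(1,.two [2,2,56] [8,54,58])]),(50,[(1,.two [2,2,56] [16,50,54])]),(52,[(1,.two [2,6,52] [4,58,58])]),(10,[(1,.two [6,10,44] [4,58,58])]),(17,[(1,.two [4,4,52] [17,47,56])]),(43,[(1,.two [4,13,43] [8,56,56])]),(37,[(1,.two [7,16,37] [28,46,46])]),(23,[(1,.two [14,14,32] [23,44,53])]),(45,[(1,.two [5,5,50] [20,45,55])]),(35,[(1,.two [5,5,50] [30,35,55])]),(15,[(1,.two [5,15,40] [10,55,55])]),(25,[(1,.two [5,25,30] [10,55,55])])]⟩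

theorem k60_1 : chk 60 1 c60_1 = true := by decide +kernel

def c60_7 : Cert :=
  ⟨[1,7,49,43],[1,7,11,13,17,19,23,29,31,37,41,43,47,49,53,59],[1,3],[[],[1,0],[2,0],[0,1],[1,0],[2,0],[0,0],[1,0],[-1,0],[0,1],[4,0],[-1,0],[0,0],[1,0],[2,0],[0,0],[1,0],[-1,0],[0,0],[1,0],[2,0],[0,1],[-2,0],[-1,0],[0,0],[-2,0],[2,0],[0,1],[1,0],[-1,0],[0,0],[1,0],[-1,0],[0,-1],[-2,0],[2,0],[0,0],[1,0],[2,0],[0,-1],[-2,0],[-1,0],[0,0],[1,0],[-1,0],[0,0],[-2,0],[-1,0],[0,0],[1,0],[-4,0],[0,-1],[1,0],[-1,0],[0,0],[-2,0],[-1,0],[0,-1],[-2,0],[-1,0]],[6],[1,13],[[-3,-3],[-1,1]],240,[(12,[(1,.one [12])]),(15,[(1,.one [15])]),(18,[(1,.one [18])]),(24,[(1,.one [24])]),(30,[(1,.one [30])]),(36,[(1,.one [36])]),(42,[(1,.one [42])]),(45,[(1,.one [45])]),(48,[(1,.one [48])]),(54,[(1,.one [54])]),(8,[(1,.two [1] [8])]),(11,[(1,.two [1] [11])]),(17,[(1,.two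 [1] [17])]),(23,[(1,.two [1] [23])]),(29,[(1,.two [1] [29])]),(32,[(1,.two [1] [32])]),(41,[(1,.two [1] [41])]),(44,[(1,.two [1] [44])]),(47,[(1,.two [1] [47])]),(53,[(1,.two [1] [53])]),(56,[(1,.two [1] [56])]),(59,[(1,.two [1] [59])]),(4,[(1,.two [4] [8])]),(7,[(1,.two [7] [8])]),(13,[(1,.two [13] [8])]),(16,[(1,.two [16] [8])]),(19,[(1,.two [19] [8])]),(28,[(1,.two [28] [8])]),(31,[(1,.two [31] [8])]),(37,[(1,.two [37] [8])]),(43,[(1,.two [43] [8])]),(49,[(1,.two [49] [8])]),(52,[(1,.two [52] [8])]),(33,[(1,.two [3] [33])]),(39,[(1,.two [3] [39])]),(51,[(1,.two [3] [51])]),(57,[(1,.two [3] [57])]),(9,[(1,.two [9] [33])]),(21,[(1,.two [21] [33])]),(27,[(1,.two [27] [33])]),(58,[(1,.one [1,1,58])]),(2,[(1,.one [2,29,29])]),(46,[(1,.one [7,7,46])]),(38,[(1,.one [11,11,38])]),(34,[(1,.one [13,13,34])]),(14,[(1,.one [14,23,23])]),(26,[(1,.one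 [17,17,26])]),(22,[(1,.one [19,19,22])]),(40,[(1,.two [6] [6,14,40])]),(20,[(1,.two [6] [6,20,34])]),(5,[(1,.two [15] [5,15,40])]),(25,[(1,.two [15] [15,20,25])]),(50,[(1,.two [18] [5,5,50])]),(10,[(1,.two [18] [10,25,25])]),(55,[(1,.two [45] [20,45,55])]),(35,[(1,.two [45] [35,40,45])])]⟩

theorem k60_7 : chk 60 7 c60_7 = true := by decide +kernel

def c60_11 : Cert :=
  ⟨[1,11],[1,7,11,13,17,19,23,29,31,37,41,43,47,49,53,59],[1,2,3,7],[[],[1,0,0,0],[0,1,0,0],[0,0,1,0],[0,1,-1,0],[0,0,0,0],[0,0,2,0],[0,0,0,1],[0,0,1,0],[0,1,-1,0],[0,0,0,0],[1,0,0,0],[0,1,0,0],[0,1,-2,1],[0,-1,2,0],[0,0,0,0],[0,-1,1,0],[0,0,0,1],[0,2,-2,0],[1,-1,0,0],[0,0,0,0],[0,-1,1,0],[0,1,0,0],[0,1,-2,1],[0,-1,2,0],[0,0,0,0],[0,1,-2,0],[0,0,-1,0],[0,0,1,0],[1,-1,0,0],[0,0,0,0],[-1,1,0,0],[0,0,-1,0],[0,0,1,0],[0,-1,2,0],[0,0,0,0],[0,1,-2,0],[0,-1,2,-1],[0,-1,0,0],[0,1,-1,0],[0,0,0,0],[-1,1,0,0],[0,-2,2,0],[0,0,0,-1],[0,1,-1,0],[0,0,0,0],[0,1,-2,0],[0,-1,2,-1],[0,-1,0,0],[-1,0,0,0],[0,0,0,0],[0,-1,1,0],[0,0,-1,0],[0,0,0,-1],[0,0,-2,0],[0,0,0,0],[0,-1,1,0],[0,0,-1,0],[0,-1,0,0],[-1,0,0,0]],[5],[1,7,13,19],[[-1,-1,-1,-1],[-1,-1,3,1],[0,2,-4,2],[-1,1,1,-1]],240,[(10,[(1,.one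 [10])]),(15,[(1,.one [15])]),(20,[(1,.one [20])]),(25,[(1,.one [25])]),(30,[(1,.one [30])]),(35,[(1,.one [35])]),(40,[(1,.one [40])]),(45,[(1,.one [45])]),(50,[(1,.one [50])]),(55,[(1,.one [55])]),(49,[(1,.two [1] [49])]),(59,[(1,.two [1] [59])]),(11,[(1,.two [11] [49])]),(38,[(1,.two [2] [38])]),(48,[(1,.two [2] [48])]),(58,[(1,.two [2] [58])]),(12,[(1,.two [12] [38])]),(22,[(1,.two [22] [38])]),(27,[(1,.two [3] [27])]),(32,[(1,.two [3] [32])]),(52,[(1,.two [3] [52])]),(57,[(1,.two [3] [57])]),(8,[(1,.two [8] [27])]),(28,[(1,.two [28] [27])]),(33,[(1,.two [33] [27])]),(43,[(1,.two [7] [43])]),(53,[(1,.two [7] [53])]),(17,[(1,.two [17] [43])]),(54,[(1,.one [3,3,54])]),(6,[(1,.one [6,27,27])]),(9,[(1,.one [3,9,48])]),(4,[(1,.one [4,8,48])]),(16,[(1,.one [4,16,40])]),(21,[(1,.one [4,21,35])]),(24,[(1,.one [4,24,32])]),(39,[(1,.one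 [5,16,39])]),(36,[(1,.one [8,16,36])]),(56,[(1,.one [9,55,56])]),(14,[(1,.one [10,14,36])]),(26,[(1,.one [10,24,26])]),(51,[(1,.one [12,51,57])]),(44,[(1,.one [20,44,56])]),(46,[(1,.one [24,46,50])]),(34,[(1,.one [34,36,50])]),(42,[(1,.two [3,3,54] [9,9,42])]),(18,[(1,.two [3,3,54] [18,21,21])]),(31,[(1,.dup 1)]),(37,[(1,.dup 7)]),(41,[(1,.dup 11)]),(13,[(1,.dup 13)]),(47,[(1,.dup 17)]),(19,[(1,.dup 19)]),(23,[(1,.dup 23)]),(29,[(1,.dup 29)])]⟩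

theorem k60_11 : chk 60 11 c60_11 = true := by decide +kernel

def c60_13 : Cert :=
  ⟨[1,13,49,37],[1,7,11,13,17,19,23,29,31,37,41,43,47,49,53,59],[1,5],[[],[1,0],[2,0],[0,0],[1,0],[0,1],[0,0],[1,0],[-1,0],[0,0],[4,0],[-1,0],[0,0],[1,0],[2,0],[-2,1],[1,0],[-1,0],[0,0],[1,0],[2,0],[0,0],[-2,0],[-1,0],[0,0],[-4,1],[2,0],[0,0],[1,0],[-1,0],[0,0],[1,0],[-1,0],[0,0],[-2,0],[4,-1],[0,0],[1,0],[2,0],[0,0],[-2,0],[-1,0],[0,0],[1,0],[-1,0],[2,-1],[-2,0],[-1,0],[0,0],[1,0],[-4,0],[0,0],[1,0],[-1,0],[0,0],[0,-1],[-1,0],[0,0],[-2,0],[-1,0]],[3],[1,7],[[-1,-5],[-1,1]],240,[(6,[(1,.one [6])]),(9,[(1,.one [9])]),(12,[(1,.one [12])]),(18,[(1,.one [18])]),(21,[(1,.one [21])]),(24,[(1,.one [24])]),(27,[(1,.one [27])]),(30,[(1,.one [30])]),(33,[(1,.one [33])]),(36,[(1,.one [36])]),(39,[(1,.one [39])]),(42,[(1,.one [42])]),(48,[(1,.one [48])]),(51,[(1,.one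 [51])]),(54,[(1,.one [54])]),(57,[(1,.one [57])]),(8,[(1,.two [1] [8])]),(11,[(1,.two [1] [11])]),(17,[(1,.two [1] [17])]),(23,[(1,.two [1] [23])]),(29,[(1,.two [1] [29])]),(32,[(1,.two [1] [32])]),(41,[(1,.two [1] [41])]),(44,[(1,.two [1] [44])]),(47,[(1,.two [1] [47])]),(53,[(1,.two [1] [53])]),(56,[(1,.two [1] [56])]),(59,[(1,.two [1] [59])]),(4,[(1,.two [4] [8])]),(7,[(1,.two [7] [8])]),(13,[(1,.two [13] [8])]),(16,[(1,.two [16] [8])]),(19,[(1,.two [19] [8])]),(28,[(1,.two [28] [8])]),(31,[(1,.two [31] [8])]),(37,[(1,.two [37] [8])]),(43,[(1,.two [43] [8])]),(49,[(1,.two [49] [8])]),(52,[(1,.two [52] [8])]),(55,[(1,.two [5] [55])]),(58,[(1,.one [1,1,58])]),(2,[(1,.one [2,29,29])]),(46,[(1,.one [7,7,46])]),(38,[(1,.one [11,11,38])]),(34,[(1,.one [13,13,34])]),(14,[(1,.one [14,23,23])]),(26,[(1,.one [17,17,26])]),(22,[(1,.one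 [19,19,22])]),(40,[(1,.two [6] [6,14,40])]),(20,[(1,.two [6] [6,20,34])]),(15,[(1,.two [15] [1,4,55])]),(45,[(1,.two [15] [3,12,45])]),(35,[(1,.two [15] [3,22,35])]),(25,[(1,.two [2,25,33] [45])]),(50,[(1,.two [2,2,56] [2,8,50])]),(10,[(1,.two [4,10,46] [4,58,58])])]⟩

theorem k60_13 : chk 60 13 c60_13 = true := by decide +kernel

def c60_17 : Cert :=
  ⟨[1,17,49,53],[1,7,11,13,17,19,23,29,31,37,41,43,47,49,53,59],[4,5],[[],[0,0],[0,0],[0,0],[1,0],[0,1],[0,0],[0,0],[1,0],[0,0],[0,0],[0,0],[0,0],[0,0],[0,0],[0,1],[1,0],[0,0],[0,0],[0,0],[0,0],[0,0],[0,0],[0,0],[0,0],[0,1],[0,0],[0,0],[-1,0],[0,0],[0,0],[0,0],[1,0],[0,0],[0,0],[0,-1],[0,0],[0,0],[0,0],[0,0],[0,0],[0,0],[0,0],[0,0],[-1,0],[0,-1],[0,0],[0,0],[0,0],[0,0],[0,0],[0,0],[-1,0],[0,0],[0,0],[0,-1],[-1,0],[0,0],[0,0],[0,0]],[1],[1,13],[[-1,1],[-1,-1]],240,[(2,[(1,.one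 [2])]),(3,[(1,.one [3])]),(6,[(1,.one [6])]),(7,[(1,.one [7])]),(9,[(1,.one [9])]),(10,[(1,.one [10])]),(11,[(1,.one [11])]),(12,[(1,.one [12])]),(13,[(1,.one [13])]),(14,[(1,.one [14])]),(17,[(1,.one [17])]),(18,[(1,.one [18])]),(19,[(1,.one [19])]),(20,[(1,.one [20])]),(21,[(1,.one [21])]),(22,[(1,.one [22])]),(23,[(1,.one [23])]),(24,[(1,.one [24])]),(26,[(1,.one [26])]),(27,[(1,.one [27])]),(29,[(1,.one [29])]),(30,[(1,.one [30])]),(31,[(1,.one [31])]),(33,[(1,.one [33])]),(34,[(1,.one [34])]),(36,[(1,.one [36])]),(37,[(1,.one [37])]),(38,[(1,.one [38])]),(39,[(1,.one [39])]),(40,[(1,.one [40])]),(41,[(1,.one [41])]),(42,[(1,.one [42])]),(43,[(1,.one [43])]),(46,[(1,.one [46])]),(47,[(1,.one [47])]),(48,[(1,.one [48])]),(49,[(1,.one [49])]),(50,[(1,.one [50])]),(51,[(1,.one [51])]),(53,[(1,.one [53])]),(54,[(1,.one [54])]),(57,[(1,.one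 [57])]),(58,[(1,.one [58])]),(59,[(1,.one [59])]),(28,[(1,.two [4] [28])]),(44,[(1,.two [4] [44])]),(52,[(1,.two [4] [52])]),(56,[(1,.two [4] [56])]),(8,[(1,.two [8] [28])]),(16,[(1,.two [16] [28])]),(32,[(1,.two [32] [28])]),(35,[(1,.two [5] [35])]),(45,[(1,.two [5] [45])]),(55,[(1,.two [5] [55])]),(15,[(1,.two [15] [35])]),(25,[(1,.two [25] [35])])]⟩

theorem k60_17 : chk 60 17 c60_17 = true := by decide +kernel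

def c60_19 : Cert :=
  ⟨[1,19],[1,7,11,13,17,19,23,29,31,37,41,43,47,49,53,59],[1,2,4,7],[[],[1,0,0,0],[0,1,0,0],[0,0,0,0],[0,0,1,0],[0,1,0,0],[0,0,0,0],[0,0,0,1],[0,-1,1,0],[0,0,0,0],[0,2,0,0],[1,-1,0,0],[0,0,0,0],[0,0,0,1],[0,1,0,0],[0,0,0,0],[0,0,1,0],[0,-1,0,1],[0,0,0,0],[1,0,0,0],[0,1,0,0],[0,0,0,0],[0,-1,0,0],[0,-1,0,1],[0,0,0,0],[0,-1,0,0],[0,1,0,0],[0,0,0,0],[0,1,-1,0],[1,-1,0,0],[0,0,0,0],[-1,1,0,0],[0,-1,1,0],[0,0,0,0],[0,-1,0,0],[0,1,0,0],[0,0,0,0],[0,1,0,-1],[0,1,0,0],[0,0,0,0],[0,-1,0,0],[-1,0,0,0],[0,0,0,0],[0,1,0,-1],[0,0,-1,0],[0,0,0,0],[0,-1,0,0],[0,0,0,-1],[0,0,0,0],[-1,1,0,0],[0,-2,0,0],[0,0,0,0],[0,1,-1,0],[0,0,0,-1],[0,0,0,0],[0,-1,0,0],[0,0,-1,0],[0,0,0,0],[0,-1,0,0],[-1,0,0,0]],[3],[1,7,11,17],[[-1,-1,-1,-1],[0,-2,2,2],[-1,1,1,-1],[-1,1,-1,1]],240,[(6,[(1,.one [6])]),(9,[(1,.one [9])]),(12,[(1,.one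 [12])]),(15,[(1,.one [15])]),(18,[(1,.one [18])]),(21,[(1,.one [21])]),(24,[(1,.one [24])]),(27,[(1,.one [27])]),(30,[(1,.one [30])]),(33,[(1,.one [33])]),(36,[(1,.one [36])]),(39,[(1,.one [39])]),(42,[(1,.one [42])]),(45,[(1,.one [45])]),(48,[(1,.one [48])]),(51,[(1,.one [51])]),(54,[(1,.one [54])]),(57,[(1,.one [57])]),(41,[(1,.two [1] [41])]),(59,[(1,.two [1] [59])]),(19,[(1,.two [19] [41])]),(22,[(1,.two [2] [22])]),(25,[(1,.two [2] [25])]),(34,[(1,.two [2] [34])]),(40,[(1,.two [2] [40])]),(46,[(1,.two [2] [46])]),(55,[(1,.two [2] [55])]),(58,[(1,.two [2] [58])]),(5,[(1,.two [5] [22])]),(14,[(1,.two [14] [22])]),(20,[(1,.two [20] [22])]),(26,[(1,.two [26] [22])]),(35,[(1,.two [35] [22])]),(38,[(1,.two [38] [22])]),(44,[(1,.two [4] [44])]),(56,[(1,.two [4] [56])]),(16,[(1,.two [16] [44])]),(47,[(1,.two [7] [47])]),(53,[(1,.two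 [7] [53])]),(13,[(1,.two [13] [47])]),(50,[(1,.one [5,5,50])]),(10,[(1,.one [10,25,25])]),(49,[(1,.two [1,10,49] [40,40,40])]),(43,[(1,.two [7,10,43] [40,40,40])]),(37,[(1,.two [10,13,37] [40,40,40])]),(31,[(1,.two [10,19,31] [40,40,40])]),(11,[(1,.two [20,20,20] [11,50,59])]),(17,[(1,.two [20,20,20] [17,50,53])]),(23,[(1,.two [20,20,20] [23,47,50])]),(29,[(1,.two [20,20,20] [29,41,50])]),(8,[(1,.two [2,2,56] [2,8,50])]),(28,[(1,.two [10,22,28] [16,22,22])]),(52,[(1,.two [10,52,58] [4,58,58])]),(32,[(1,.two [38,38,44] [32,38,50])])]⟩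

theorem k60_19 : chk 60 19 c60_19 = true := by decide +kernel

def c60_23 : Cert :=
  ⟨[1,23,49,47],[1,7,11,13,17,19,23,29,31,37,41,43,47,49,53,59],[3,4],[[],[0,0],[0,0],[1,0],[0,1],[0,0],[0,0],[0,0],[0,1],[1,0],[0,0],[0,0],[0,0],[0,0],[0,0],[0,0],[0,1],[0,0],[0,0],[0,0],[0,0],[1,0],[0,0],[0,0],[0,0],[0,0],[0,0],[1,0],[0,-1],[0,0],[0,0],[0,0],[0,1],[-1,0],[0,0],[0,0],[0,0],[0,0],[0,0],[-1,0],[0,0],[0,0],[0,0],[0,0],[0,-1],[0,0],[0,0],[0,0],[0,0],[0,0],[0,0],[-1,0],[0,-1],[0,0],[0,0],[0,0],[0,-1],[-1,0],[0,0],[0,0]],[1],[1,7],[[-1,-1],[-1,1]],240,[(2,[(1,.one [2])]),(5,[(1,.one [5])]),(6,[(1,.one [6])]),(7,[(1,.one [7])]),(10,[(1,.one [10])]),(11,[(1,.one [11])]),(12,[(1,.one [12])]),(13,[(1,.one [13])]),(14,[(1,.one [14])]),(15,[(1,.one [15])]),(17,[(1,.one [17])]),(18,[(1,.one [18])]),(19,[(1,.one [19])]),(20,[(1,.one [20])]),(22,[(1,.one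 [22])]),(23,[(1,.one [23])]),(24,[(1,.one [24])]),(25,[(1,.one [25])]),(26,[(1,.one [26])]),(29,[(1,.one [29])]),(30,[(1,.one [30])]),(31,[(1,.one [31])]),(34,[(1,.one [34])]),(35,[(1,.one [35])]),(36,[(1,.one [36])]),(37,[(1,.one [37])]),(38,[(1,.one [38])]),(40,[(1,.one [40])]),(41,[(1,.one [41])]),(42,[(1,.one [42])]),(43,[(1,.one [43])]),(45,[(1,.one [45])]),(46,[(1,.one [46])]),(47,[(1,.one [47])]),(48,[(1,.one [48])]),(49,[(1,.one [49])]),(50,[(1,.one [50])]),(53,[(1,.one [53])]),(54,[(1,.one [54])]),(55,[(1,.one [55])]),(58,[(1,.one [58])]),(59,[(1,.one [59])]),(33,[(1,.two [3] [33])]),(39,[(1,.two [3] [39])]),(51,[(1,.two [3] [51])]),(57,[(1,.two [3] [57])]),(9,[(1,.two [9] [33])]),(21,[(1,.two [21] [33])]),(27,[(1,.two [27] [33])]),(28,[(1,.two [4] [28])]),(44,[(1,.two [4] [44])]),(52,[(1,.two [4] [52])]),(56,[(1,.two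 [4] [56])]),(8,[(1,.two [8] [28])]),(16,[(1,.two [16] [28])]),(32,[(1,.two [32] [28])])]⟩

theorem k60_23 : chk 60 23 c60_23 = true := by decide +kernel

def c60_29 : Cert :=
  ⟨[1,29],[1,7,11,13,17,19,23,29,31,37,41,43,47,49,53,59],[1,3,5,7],[[],[1,0,0,0],[0,0,0,0],[0,1,0,0],[0,0,0,0],[0,0,1,0],[0,0,0,0],[0,0,0,1],[0,0,0,0],[0,1,0,0],[0,0,0,0],[1,0,0,0],[0,0,0,0],[0,0,0,1],[0,0,0,0],[0,0,1,0],[0,0,0,0],[0,0,0,1],[0,0,0,0],[1,0,0,0],[0,0,0,0],[0,1,0,0],[0,0,0,0],[0,0,0,1],[0,0,0,0],[0,0,1,0],[0,0,0,0],[0,1,0,0],[0,0,0,0],[1,0,0,0],[0,0,0,0],[-1,0,0,0],[0,0,0,0],[0,-1,0,0],[0,0,0,0],[0,0,-1,0],[0,0,0,0],[0,0,0,-1],[0,0,0,0],[0,-1,0,0],[0,0,0,0],[-1,0,0,0],[0,0,0,0],[0,0,0,-1],[0,0,0,0],[0,0,-1,0],[0,0,0,0],[0,0,0,-1],[0,0,0,0],[-1,0,0,0],[0,0,0,0],[0,-1,0,0],[0,0,0,0],[0,0,0,-1],[0,0,0,0],[0,0,-1,0],[0,0,0,0],[0,-1,0,0],[0,0,0,0],[-1,0,0,0]],[2],[1,7,11,13],[[-1,-1,-1,-1],[-1,-1,1,1],[-1,1,1,-1],[-1,1,-1,1]],240,[(4,[(1,.one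 [4])]),(6,[(1,.one [6])]),(8,[(1,.one [8])]),(10,[(1,.one [10])]),(12,[(1,.one [12])]),(14,[(1,.one [14])]),(16,[(1,.one [16])]),(18,[(1,.one [18])]),(20,[(1,.one [20])]),(22,[(1,.one [22])]),(24,[(1,.one [24])]),(26,[(1,.one [26])]),(28,[(1,.one [28])]),(30,[(1,.one [30])]),(32,[(1,.one [32])]),(34,[(1,.one [34])]),(36,[(1,.one [36])]),(38,[(1,.one [38])]),(40,[(1,.one [40])]),(42,[(1,.one [42])]),(44,[(1,.one [44])]),(46,[(1,.one [46])]),(48,[(1,.one [48])]),(50,[(1,.one [50])]),(52,[(1,.one [52])]),(54,[(1,.one [54])]),(56,[(1,.one [56])]),(58,[(1,.one [58])]),(31,[(1,.two [1] [31])]),(41,[(1,.two [1] [41])]),(49,[(1,.two [1] [49])]),(59,[(1,.two [1] [59])]),(11,[(1,.two [11] [31])]),(19,[(1,.two [19] [31])]),(29,[(1,.two [29] [31])]),(33,[(1,.two [3] [33])]),(39,[(1,.two [3] [39])]),(51,[(1,.two [3] [51])]),(57,[(1,.two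 [3] [57])]),(9,[(1,.two [9] [33])]),(21,[(1,.two [21] [33])]),(27,[(1,.two [27] [33])]),(35,[(1,.two [5] [35])]),(45,[(1,.two [5] [45])]),(55,[(1,.two [5] [55])]),(15,[(1,.two [15] [35])]),(25,[(1,.two [25] [35])]),(37,[(1,.two [7] [37])]),(43,[(1,.two [7] [43])]),(47,[(1,.two [7] [47])]),(53,[(1,.two [7] [53])]),(13,[(1,.two [13] [37])]),(17,[(1,.two [17] [37])]),(23,[(1,.two [23] [37])])]⟩

theorem k60_29 : chk 60 29 c60_29 = true := by decide +kernel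

def c60_31 : Cert :=
  ⟨[1,31],[1,7,11,13,17,19,23,29,31,37,41,43,47,49,53,59],[1,3,4,5],[[],[1,0,0,0],[2,0,0,0],[0,1,0,0],[0,0,1,0],[0,0,0,1],[0,2,0,0],[-1,1,0,1],[-2,2,1,0],[2,-1,0,-1],[0,0,0,2],[1,0,0,-1],[2,0,0,-1],[1,-1,0,0],[-2,2,0,2],[0,0,0,0],[-4,2,1,2],[-1,1,0,0],[4,-2,0,-2],[-1,0,0,1],[0,0,0,1],[-2,1,0,1],[2,0,0,-2],[1,-1,0,-1],[-2,2,0,1],[0,0,0,-1],[2,-2,0,0],[0,-1,0,0],[2,0,-1,0],[-1,0,0,0],[0,0,0,0],[1,0,0,0],[-2,0,1,0],[0,1,0,0],[-2,2,0,0],[0,0,0,1],[2,-2,0,-1],[-1,1,0,1],[-2,0,0,2],[2,-1,0,-1],[0,0,0,-1],[1,0,0,-1],[-4,2,0,2],[1,-1,0,0],[4,-2,-1,-2],[0,0,0,0],[2,-2,0,-2],[-1,1,0,0],[-2,0,0,1],[-1,0,0,1],[0,0,0,-2],[-2,1,0,1],[2,-2,-1,0],[1,-1,0,-1],[0,-2,0,0],[0,0,0,-1],[0,0,-1,0],[0,-1,0,0],[-2,0,0,0],[-1,0,0,0]],[15],[1,7,11,13],[[0,-6,-4,2],[-2,4,0,-2],[-1,1,1,1],[-1,1,3,-3]],240,[(30,[(1,.one [30])]),(45,[(1,.one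 [45])]),(29,[(1,.two [1] [29])]),(59,[(1,.two [1] [59])]),(31,[(1,.two [31] [29])]),(27,[(1,.two [3] [27])]),(57,[(1,.two [3] [57])]),(33,[(1,.two [33] [27])]),(56,[(1,.two [4] [56])]),(25,[(1,.two [5] [25])]),(40,[(1,.two [5] [40])]),(55,[(1,.two [5] [55])]),(20,[(1,.two [20] [25])]),(35,[(1,.two [35] [25])]),(58,[(1,.one [1,1,58])]),(2,[(1,.one [2,29,29])]),(54,[(1,.one [3,3,54])]),(50,[(1,.one [5,5,50])]),(6,[(1,.one [6,27,27])]),(10,[(1,.one [10,25,25])]),(19,[(1,.one [1,19,40])]),(11,[(1,.one [11,19,30])]),(12,[(1,.one [12,19,29])]),(21,[(1,.one [12,21,27])]),(49,[(1,.one [12,49,59])]),(51,[(1,.one [12,51,57])]),(41,[(1,.one [20,41,59])]),(39,[(1,.one [30,39,51])]),(48,[(1,.one [31,41,48])]),(36,[(1,.one [33,36,51])]),(9,[(1,.two [15] [3,9,48])]),(24,[(1,.two [15] [9,24,27])]),(42,[(1,.two [1,1,58] [9,9,42])]),(38,[(1,.two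 [1,1,58] [11,11,38])]),(18,[(1,.two [1,1,58] [18,21,21])]),(22,[(1,.two [1,1,58] [19,19,22])]),(14,[(1,.two [10,14,36] [40,40,40])]),(26,[(1,.two [10,24,26] [40,40,40])]),(46,[(1,.two [20,20,20] [24,46,50])]),(34,[(1,.two [20,20,20] [34,36,50])]),(32,[(1,.dup 2)]),(8,[(1,.dup 4)]),(16,[(1,.dup 8)]),(52,[(1,.dup 26)]),(28,[(1,.dup 28)]),(44,[(1,.hd 3 4)]),(7,[(1,.two [1,2,57] [7,55,58])]),(47,[(1,.two [1,2,57] [15,47,58])]),(17,[(1,.two [1,2,57] [17,45,58])]),(23,[(1,.two [1,2,57] [23,42,55])]),(37,[(1,.two [1,2,57] [25,37,58])]),(53,[(1,.two [1,2,57] [25,42,53])]),(13,[(1,.two [2,13,45] [3,58,59])]),(43,[(1,.two [2,15,43] [3,58,59])])]⟩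

theorem k60_31 : chk 60 31 c60_31 = true := by decide +kernel

def c60_41 : Cert :=
  ⟨[1,41],[1,7,11,13,17,19,23,29,31,37,41,43,47,49,53,59],[1,3,4,5],[[],[1,0,0,0],[2,0,0,0],[0,1,0,0],[0,0,1,0],[0,0,0,1],[4,0,-2,0],[1,0,-1,0],[2,0,-1,0],[-2,1,2,0],[0,0,0,0],[1,0,0,0],[2,0,0,0],[-1,0,1,0],[2,0,-2,0],[0,0,0,1],[0,0,-1,0],[1,0,-1,0],[0,0,2,0],[-1,0,0,0],[0,0,0,0],[-2,1,0,0],[2,0,0,0],[-1,0,1,0],[2,0,-2,0],[0,0,0,1],[-2,0,2,0],[-4,1,2,0],[2,0,-1,0],[-1,0,0,0],[0,0,0,0],[1,0,0,0],[-2,0,1,0],[4,-1,-2,0],[2,0,-2,0],[0,0,0,-1],[-2,0,2,0],[1,0,-1,0],[-2,0,0,0],[2,-1,0,0],[0,0,0,0],[1,0,0,0],[0,0,-2,0],[-1,0,1,0],[0,0,1,0],[0,0,0,-1],[-2,0,2,0],[1,0,-1,0],[-2,0,0,0],[-1,0,0,0],[0,0,0,0],[2,-1,-2,0],[-2,0,1,0],[-1,0,1,0],[-4,0,2,0],[0,0,0,-1],[0,0,-1,0],[0,-1,0,0],[-2,0,0,0],[-1,0,0,0]],[10],[1,7,11,17],[[-2,4,-6,0],[-1,-1,1,1],[0,-4,2,-2],[-1,1,1,-1]],240,[(20,[(1,.one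 [20])]),(30,[(1,.one [30])]),(40,[(1,.one [40])]),(50,[(1,.one [50])]),(19,[(1,.two [1] [19])]),(29,[(1,.two [1] [29])]),(49,[(1,.two [1] [49])]),(59,[(1,.two [1] [59])]),(11,[(1,.two [11] [19])]),(31,[(1,.two [31] [19])]),(41,[(1,.two [41] [19])]),(57,[(1,.two [3] [57])]),(16,[(1,.two [4] [16])]),(56,[(1,.two [4] [56])]),(44,[(1,.two [44] [16])]),(35,[(1,.two [5] [35])]),(45,[(1,.two [5] [45])]),(55,[(1,.two [5] [55])]),(15,[(1,.two [15] [35])]),(25,[(1,.two [25] [35])]),(58,[(1,.one [1,1,58])]),(2,[(1,.one [2,29,29])]),(38,[(1,.one [11,11,38])]),(22,[(1,.one [19,19,22])]),(48,[(1,.two [10] [2,10,48])]),(12,[(1,.two [10] [10,12,38])]),(43,[(1,.one [1,16,43])]),(7,[(1,.one [4,7,49])]),(8,[(1,.one [4,8,48])]),(37,[(1,.one [4,19,37])]),(13,[(1,.one [7,13,40])]),(23,[(1,.one [7,23,30])]),(36,[(1,.one [8,16,36])]),(32,[(1,.one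 [8,20,32])]),(53,[(1,.one [8,53,59])]),(14,[(1,.one [10,14,36])]),(17,[(1,.one [11,17,32])]),(52,[(1,.one [12,52,56])]),(28,[(1,.one [13,19,28])]),(24,[(1,.one [13,23,24])]),(26,[(1,.one [14,20,26])]),(47,[(1,.one [20,47,53])]),(46,[(1,.one [24,46,50])]),(34,[(1,.one [34,36,50])]),(54,[(1,.two [2,2,56] [10,54,56])]),(6,[(1,.two [2,6,52] [16,52,52])]),(42,[(1,.two [4,4,52] [4,14,42])]),(18,[(1,.two [10,18,32] [14,14,32])]),(33,[(1,.dup 3)]),(27,[(1,.dup 27)]),(21,[(1,.hd 3 1)]),(9,[(1,.hd 3 3)]),(51,[(1,.hd 3 11)]),(39,[(1,.hd 3 13)])]⟩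

theorem k60_41 : chk 60 41 c60_41 = true := by decide +kernel

def c60_49 : Cert :=
  ⟨[1,49],[1,7,11,13,17,19,23,29,31,37,41,43,47,49,53,59],[1,3,4,5],[[],[1,0,0,0],[2,0,0,0],[0,1,0,0],[0,0,1,0],[0,0,0,1],[0,0,0,0],[1,0,0,0],[-2,0,1,0],[0,1,0,0],[4,0,0,0],[-1,0,0,0],[0,0,0,0],[1,0,0,0],[2,0,0,0],[-2,0,0,1],[0,0,1,0],[-1,0,0,0],[0,0,0,0],[1,0,0,0],[2,0,0,0],[0,1,0,0],[-2,0,0,0],[-1,0,0,0],[0,0,0,0],[-4,0,0,1],[2,0,0,0],[0,1,0,0],[2,0,-1,0],[-1,0,0,0],[0,0,0,0],[1,0,0,0],[-2,0,1,0],[0,-1,0,0],[-2,0,0,0],[4,0,0,-1],[0,0,0,0],[1,0,0,0],[2,0,0,0],[0,-1,0,0],[-2,0,0,0],[-1,0,0,0],[0,0,0,0],[1,0,0,0],[0,0,-1,0],[2,0,0,-1],[-2,0,0,0],[-1,0,0,0],[0,0,0,0],[1,0,0,0],[-4,0,0,0],[0,-1,0,0],[2,0,-1,0],[-1,0,0,0],[0,0,0,0],[0,0,0,-1],[0,0,-1,0],[0,-1,0,0],[-2,0,0,0],[-1,0,0,0]],[6],[1,7,13,19],[[0,-6,-2,-4],[-1,-1,1,1],[-1,1,1,-1],[-1,1,-1,1]],240,[(12,[(1,.one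 [12])]),(18,[(1,.one [18])]),(24,[(1,.one [24])]),(30,[(1,.one [30])]),(36,[(1,.one [36])]),(42,[(1,.one [42])]),(48,[(1,.one [48])]),(54,[(1,.one [54])]),(11,[(1,.two [1] [11])]),(17,[(1,.two [1] [17])]),(23,[(1,.two [1] [23])]),(29,[(1,.two [1] [29])]),(41,[(1,.two [1] [41])]),(47,[(1,.two [1] [47])]),(53,[(1,.two [1] [53])]),(59,[(1,.two [1] [59])]),(7,[(1,.two [7] [11])]),(13,[(1,.two [13] [11])]),(19,[(1,.two [19] [11])]),(31,[(1,.two [31] [11])]),(37,[(1,.two [37] [11])]),(43,[(1,.two [43] [11])]),(49,[(1,.two [49] [11])]),(33,[(1,.two [3] [33])]),(39,[(1,.two [3] [39])]),(51,[(1,.two [3] [51])]),(57,[(1,.two [3] [57])]),(9,[(1,.two [9] [33])]),(21,[(1,.two [21] [33])]),(27,[(1,.two [27] [33])]),(44,[(1,.two [4] [44])]),(56,[(1,.two [4] [56])]),(16,[(1,.two [16] [44])]),(55,[(1,.two [5] [55])]),(58,[(1,.one [1,1,58])]),(2,[(1,.one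 [2,29,29])]),(46,[(1,.one [7,7,46])]),(38,[(1,.one [11,11,38])]),(34,[(1,.one [13,13,34])]),(14,[(1,.one [14,23,23])]),(26,[(1,.one [17,17,26])]),(22,[(1,.one [19,19,22])]),(40,[(1,.two [6] [6,14,40])]),(20,[(1,.two [6] [6,20,34])]),(10,[(1,.two [1,10,49] [40,40,40])]),(45,[(1,.two [5,10,45] [40,40,40])]),(35,[(1,.two [5,20,35] [40,40,40])]),(25,[(1,.two [10,10,40] [25,40,55])]),(50,[(1,.two [10,10,40] [30,40,50])]),(15,[(1,.two [10,15,35] [40,40,40])]),(28,[(1,.two [4,10,46] [28,46,46])]),(8,[(1,.two [8,26,26] [26,44,50])]),(32,[(1,.two [8,26,26] [32,44,44])]),(52,[(1,.two [8,26,26] [34,34,52])])]⟩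

theorem k60_49 : chk 60 49 c60_49 = true := by decide +kernel

def c60_59 : Cert :=
  ⟨[1,59],[1,7,11,13,17,19,23,29,31,37,41,43,47,49,53,59],[],[[],[],[],[],[],[],[],[],[],[],[],[],[],[],[],[],[],[],[],[],[],[],[],[],[],[],[],[],[],[],[],[],[],[],[],[],[],[],[],[],[],[],[],[],[],[],[],[],[],[],[],[],[],[],[],[],[],[],[],[]],[1],[],[],1,[(2,[(1,.one [2])]),(3,[(1,.one [3])]),(4,[(1,.one [4])]),(5,[(1,.one [5])]),(6,[(1,.one [6])]),(7,[(1,.one [7])]),(8,[(1,.one [8])]),(9,[(1,.one [9])]),(10,[(1,.one [10])]),(11,[(1,.one [11])]),(12,[(1,.one [12])]),(13,[(1,.one [13])]),(14,[(1,.one [14])]),(15,[(1,.one [15])]),(16,[(1,.one [16])]),(17,[(1,.one [17])]),(18,[(1,.one [18])]),(19,[(1,.one [19])]),(20,[(1,.one [20])]),(21,[(1,.one [21])]),(22,[(1,.one [22])]),(23,[(1,.one [23])]),(24,[(1,.one [24])]),(25,[(1,.one [25])]),(26,[(1,.one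 [26])]),(27,[(1,.one [27])]),(28,[(1,.one [28])]),(29,[(1,.one [29])]),(30,[(1,.one [30])]),(31,[(1,.one [31])]),(32,[(1,.one [32])]),(33,[(1,.one [33])]),(34,[(1,.one [34])]),(35,[(1,.one [35])]),(36,[(1,.one [36])]),(37,[(1,.one [37])]),(38,[(1,.one [38])]),(39,[(1,.one [39])]),(40,[(1,.one [40])]),(41,[(1,.one [41])]),(42,[(1,.one [42])]),(43,[(1,.one [43])]),(44,[(1,.one [44])]),(45,[(1,.one [45])]),(46,[(1,.one [46])]),(47,[(1,.one [47])]),(48,[(1,.one [48])]),(49,[(1,.one [49])]),(50,[(1,.one [50])]),(51,[(1,.one [51])]),(52,[(1,.one [52])]),(53,[(1,.one [53])]),(54,[(1,.one [54])]),(55,[(1,.one [55])]),(56,[(1,.one [56])]),(57,[(1,.one [57])]),(58,[(1,.one [58])]),(59,[(1,.one [59])])]⟩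

theorem k60_59 : chk 60 59 c60_59 = true := by decide +kernel

theorem all60 : ∀ x < 60, x.Coprime 60 → Full 60 x := by
  intro x hx hc
  interval_cases x
  · exact absurd hc (by decide)
  · exact full_of_chk k60_1
  · exact absurd hc (by decide)
  · exact absurd hc (by decide)
  · exact absurd hc (by decide)
  · exact absurd hc (by decide)
  · exact absurd hc (by decide)
  · exact full_of_chk k60_7
  · exact absurd hc (by decide)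
  · exact absurd hc (by decide)
  · exact absurd hc (by decide)
  · exact full_of_chk k60_11
  · exact absurd hc (by decide)
  · exact full_of_chk k60_13
  · exact absurd hc (by decide)
  · exact absurd hc (by decide)
  · exact absurd hc (by decide)
  · exact full_of_chk k60_17
  · exact absurd hc (by decide)
  · exact full_of_chk k60_19
  · exact absurd hc (by decide)
  · exact absurd hc (by decide)
  · exact absurd hc (by decide)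
  · exact full_of_chk k60_23
  · exact absurd hc (by decide)
  · exact absurd hc (by decide)
  · exact absurd hc (by decide)
  · exact absurd hc (by decide)
  · exact absurd hc (by decide)
  · exact full_of_chk k60_29
  · exact absurd hc (by decide)
  · exact full_of_chk k60_31
  · exact absurd hc (by decide)
  · exact absurd hc (by decide)
  · exact absurd hc (by decide)
  · exact absurd hc (by decide)
  · exact absurd hc (by decide)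
  · exact full_same 3 3 k60_13 (by decide) (by decide)
  · exact absurd hc (by decide)
  · exact absurd hc (by decide)
  · exact absurd hc (by decide)
  · exact full_of_chk k60_41
  · exact absurd hc (by decide)
  · exact full_same 3 3 k60_7 (by decide) (by decide)
  · exact absurd hc (by decide)
  · exact absurd hc (by decide)
  · exact absurd hc (by decide)
  · exact full_same 3 3 k60_23 (by decide) (by decide)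
  · exact absurd hc (by decide)
  · exact full_of_chk k60_49
  · exact absurd hc (by decide)
  · exact absurd hc (by decide)
  · exact absurd hc (by decide)
  · exact full_same 3 3 k60_17 (by decide) (by decide)
  · exact absurd hc (by decide)
  · exact absurd hc (by decide)
  · exact absurd hc (by decide)
  · exact absurd hc (by decide)
  · exact absurd hc (by decide)
  · exact full_of_chk k60_59

end Pool.Agent.N997.TF
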