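import Pool.Agent.N997.TF.Same

/-!
Degree 62: certificates.
-/

set_option maxRecDepth 100000

namespace Pool.Agent.N997.TF

def c62_1 : Cert :=
  ⟨[1],[1,3,5,7,9,11,13,15,17,19,21,23,25,27,29,33,35,37,39,41,43,45,47,49,51,53,55,57,59,61],[1,2,3,4,5,6,7,8,9,10,11,12,13,14,15],[[],[1,0,0,0,0,0,0,0,0,0,0,0,0,0,0],[0,1,0,0,0,0,0,0,0,0,0,0,0,0,0],[0,0,1,0,0,0,0,0,0,0,0,0,0,0,0],[0,0,0,1,0,0,0,0,0,0,0,0,0,0,0],[0,0,0,0,1,0,0,0,0,0,0,0,0,0,0],[0,0,0,0,0,1,0,0,0,0,0,0,0,0,0],[0,0,0,0,0,0,1,0,0,0,0,0,0,0,0],[0,0,0,0,0,0,0,1,0,0,0,0,0,0,0],[0,0,0,0,0,0,0,0,1,0,0,0,0,0,0],[0,0,0,0,0,0,0,0,0,1,0,0,0,0,0],[0,0,0,0,0,0,0,0,0,0,1,0,0,0,0],[0,0,0,0,0,0,0,0,0,0,0,1,0,0,0],[0,0,0,0,0,0,0,0,0,0,0,0,1,0,0],[0,0,0,0,0,0,0,0,0,0,0,0,0,1,0],[0,0,0,0,0,0,0,0,0,0,0,0,0,0,1],[-1,1,0,0,0,0,0,0,0,0,0,0,0,0,1],[0,0,-1,0,0,1,0,0,0,0,0,0,0,1,0],[0,0,0,0,-1,0,0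,0,0,1,0,0,1,0,0],[0,0,0,0,0,0,-1,0,0,0,0,1,0,1,0],[0,0,0,0,-1,0,0,0,-1,1,1,0,1,0,0],[0,0,0,0,1,0,0,0,1,0,-1,0,-1,0,0],[0,0,0,0,1,0,0,0,1,-1,0,0,-1,0,0],[1,-1,0,0,0,0,0,1,0,0,0,0,0,0,-1],[0,0,0,0,0,0,1,0,0,0,0,0,0,-1,0],[0,0,0,0,0,1,0,0,0,0,0,-1,0,0,0],[0,0,0,0,1,0,0,0,0,-1,0,0,0,0,0],[0,0,0,1,0,0,0,-1,0,0,0,0,0,0,0],[0,0,1,0,0,-1,0,0,0,0,0,0,0,0,0],[0,1,0,-1,0,0,0,0,0,0,0,0,0,0,0],[1,-1,0,0,0,0,0,0,0,0,0,0,0,0,0],[0,0,0,0,0,0,0,0,0,0,0,0,0,0,0],[-1,1,0,0,0,0,0,0,0,0,0,0,0,0,0],[0,-1,0,1,0,0,0,0,0,0,0,0,0,0,0],[0,0,-1,0,0,1,0,0,0,0,0,0,0,0,0],[0,0,0,-1,0,0,0,1,0,0,0,0,0,0,0],[0,0,0,0,-1,0,0,0,0,1,0,0,0,0,0],[0,0,0,0,0,-1,0,0,0,0,0,1,0,0,0],[0,0,0,0,0,0,-1,0,0,0,0,0,0,1,0],[-1,1,0,0,0,0,0,-1,0,0,0,0,0,0,1],[0,0,0,0,-1,0,0,0,-1,1,0,0,1,0,0],[0,0,0,0,-1,0,0,0,-1,0,1,0,1,0,0],[0,0,0,0,1,0,0,0,1,-1,-1,0,-1,0,0],[0,0,0,0,0,0,1,0,0,0,0,-1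,0,-1,0],[0,0,0,0,1,0,0,0,0,-1,0,0,-1,0,0],[0,0,1,0,0,-1,0,0,0,0,0,0,0,-1,0],[1,-1,0,0,0,0,0,0,0,0,0,0,0,0,-1],[0,0,0,0,0,0,0,0,0,0,0,0,0,0,-1],[0,0,0,0,0,0,0,0,0,0,0,0,0,-1,0],[0,0,0,0,0,0,0,0,0,0,0,0,-1,0,0],[0,0,0,0,0,0,0,0,0,0,0,-1,0,0,0],[0,0,0,0,0,0,0,0,0,0,-1,0,0,0,0],[0,0,0,0,0,0,0,0,0,-1,0,0,0,0,0],[0,0,0,0,0,0,0,0,-1,0,0,0,0,0,0],[0,0,0,0,0,0,0,-1,0,0,0,0,0,0,0],[0,0,0,0,0,0,-1,0,0,0,0,0,0,0,0],[0,0,0,0,0,-1,0,0,0,0,0,0,0,0,0],[0,0,0,0,-1,0,0,0,0,0,0,0,0,0,0],[0,0,0,-1,0,0,0,0,0,0,0,0,0,0,0],[0,0,-1,0,0,0,0,0,0,0,0,0,0,0,0],[0,-1,0,0,0,0,0,0,0,0,0,0,0,0,0],[-1,0,0,0,0,0,0,0,0,0,0,0,0,0,0]],[31],[1,3,5,7,9,11,13,15,17,19,21,23,25,27,29],[[2,-5,-1,-4,-1,-8,1,-2,-5,-4,1,-2,-4,-2,-2],[-3,3,-3,-3,-3,3,-6,3,3,6,3,3,6,3,3],[2,-5,-1,-4,-1,1,1,7,4,5,1,-2,-4,-2,-2],[-1,-2,-4,2,5,4,4,1,-2,-7,-5,1,2,1,1],[-2,-4,1,4,1,8,-1,-7,-4,4,-1,2,4,-7,2],[-4,1,2,8,2,-2,-2,-5,1,-1,-2,-5,-1,4,4],[-2,-4,1,4,1,-1,-1,2,5,-5,-1,2,4,2,-7],[-1,-2,5,2,-4,-5,4,1,-2,2,4,1,-7,1,1],[-1,-2,5,2,-4,4,4,-8,-2,2,-5,1,2,1,1],[-2,5,1,-5,1,-1,-1,2,5,-5,-1,2,-5,2,2],[-4,1,2,-1,2,-2,-2,4,1,-1,7,-5,-1,4,-5],[-2,5,1,-5,1,-1,-1,2,-4,4,-1,2,4,-7,2],[-3,3,-3,-3,6,-6,3,3,3,-3,3,3,-3,3,-6],[-5,8,-2,1,-2,2,2,-4,-1,1,2,-4,1,-4,5],[-1,7,-4,2,-4,4,-5,1,-2,2,-5,1,2,1,1]],1116,[(61,[(1,.two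 [1] [61])]),(60,[(1,.two [2] [60])]),(59,[(1,.two [3] [59])]),(58,[(1,.two [4] [58])]),(57,[(1,.two [5] [57])]),(56,[(1,.two [6] [56])]),(55,[(1,.two [7] [55])]),(54,[(1,.two [8] [54])]),(53,[(1,.two [9] [53])]),(52,[(1,.two [10] [52])]),(51,[(1,.two [11] [51])]),(50,[(1,.two [12] [50])]),(49,[(1,.two [13] [49])]),(48,[(1,.two [14] [48])]),(47,[(1,.two [15] [47])]),(32,[(1,.dup 1)]),(33,[(1,.dup 2)]),(34,[(1,.dup 3)]),(35,[(1,.dup 4)]),(36,[(1,.dup 5)]),(37,[(1,.dup 6)]),(38,[(1,.dup 7)]),(16,[(1,.dup 16)]),(17,[(1,.dup 17)]),(18,[(1,.dup 18)]),(19,[(1,.dup 19)]),(24,[(1,.dup 24)]),(25,[(1,.dup 25)]),(26,[(1,.dup 26)]),(27,[(1,.dup 27)]),(28,[(1,.dup 28)]),(29,[(1,.dup 29)]),(30,[(1,.dup 30)]),(46,[(1,.two [1,15,46] [2,61,61])]),(45,[(1,.two [3,14,45] [6,59,59])]),(23,[(1,.two [4,23,35] [16,54,54])]),(39,[(1,.two [8,8,46] [27,39,58])]),(44,[(1,.two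 [5,13,44] [10,57,57])]),(43,[(1,.two [12,12,38] [25,43,56])]),(20,[(1,.two [9,9,44] [20,51,53])]),(40,[(1,.two [9,9,44] [31,40,53])]),(42,[(1,.two [9,11,42] [18,53,53])]),(22,[(1,.two [9,22,31] [18,53,53])]),(41,[(1,.two [10,11,41] [22,51,51])]),(21,[(1,.two [11,11,40] [21,51,52])])]⟩

theorem k62_1 : chk 62 1 c62_1 = true := by decide +kernel

def c62_3 : Cert :=
  ⟨[1,3,9,27,19,57,47,17,51,29,25,13,39,55,41,61,59,53,35,43,5,15,45,11,33,37,49,23,7,21],[1,3,5,7,9,11,13,15,17,19,21,23,25,27,29,33,35,37,39,41,43,45,47,49,51,53,55,57,59,61],[],[[],[],[],[],[],[],[],[],[],[],[],[],[],[],[],[],[],[],[],[],[],[],[],[],[],[],[],[],[],[],[],[],[],[],[],[],[],[],[],[],[],[],[],[],[],[],[],[],[],[],[],[],[],[],[],[],[],[],[],[],[],[]],[1],[],[],1,[(2,[(1,.one [2])]),(3,[(1,.one [3])]),(4,[(1,.one [4])]),(5,[(1,.one [5])]),(6,[(1,.one [6])]),(7,[(1,.one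 [7])]),(8,[(1,.one [8])]),(9,[(1,.one [9])]),(10,[(1,.one [10])]),(11,[(1,.one [11])]),(12,[(1,.one [12])]),(13,[(1,.one [13])]),(14,[(1,.one [14])]),(15,[(1,.one [15])]),(16,[(1,.one [16])]),(17,[(1,.one [17])]),(18,[(1,.one [18])]),(19,[(1,.one [19])]),(20,[(1,.one [20])]),(21,[(1,.one [21])]),(22,[(1,.one [22])]),(23,[(1,.one [23])]),(24,[(1,.one [24])]),(25,[(1,.one [25])]),(26,[(1,.one [26])]),(27,[(1,.one [27])]),(28,[(1,.one [28])]),(29,[(1,.one [29])]),(30,[(1,.one [30])]),(31,[(1,.one [31])]),(32,[(1,.one [32])]),(33,[(1,.one [33])]),(34,[(1,.one [34])]),(35,[(1,.one [35])]),(36,[(1,.one [36])]),(37,[(1,.one [37])]),(38,[(1,.one [38])]),(39,[(1,.one [39])]),(40,[(1,.one [40])]),(41,[(1,.one [41])]),(42,[(1,.one [42])]),(43,[(1,.one [43])]),(44,[(1,.one [44])]),(45,[(1,.one [45])]),(46,[(1,.one [46])]),(47,[(1,.one [47])]),(48,[(1,.one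 [48])]),(49,[(1,.one [49])]),(50,[(1,.one [50])]),(51,[(1,.one [51])]),(52,[(1,.one [52])]),(53,[(1,.one [53])]),(54,[(1,.one [54])]),(55,[(1,.one [55])]),(56,[(1,.one [56])]),(57,[(1,.one [57])]),(58,[(1,.one [58])]),(59,[(1,.one [59])]),(60,[(1,.one [60])]),(61,[(1,.one [61])])]⟩

theorem k62_3 : chk 62 3 c62_3 = true := by decide +kernel

def c62_5 : Cert :=
  ⟨[1,5,25],[1,3,5,7,9,11,13,15,17,19,21,23,25,27,29,33,35,37,39,41,43,45,47,49,51,53,55,57,59,61],[1,2,3,4,7],[[],[1,0,0,0,0],[0,1,0,0,0],[0,0,1,0,0],[0,0,0,1,0],[1,0,0,0,0],[1,-1,0,0,0],[0,0,0,0,1],[0,0,0,1,1],[-1,1,1,-1,-1],[0,1,0,0,0],[0,0,0,0,-1],[0,-1,0,0,0],[0,0,1,0,0],[0,0,0,1,1],[0,0,1,0,0],[-1,1,1,0,0],[1,-1,-1,1,1],[-1,1,1,0,0],[0,-1,0,1,0],[0,0,0,1,0],[0,1,0,-1,0],[0,0,0,-1,-1],[1,-1,-1,1,1],[0,0,0,-1,0],[1,0,0,0,0],[1,-1,0,0,0],[0,0,0,0,-1],[-1,1,1,0,0],[0,1,0,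-1,0],[1,-1,0,0,0],[0,0,0,0,0],[-1,1,0,0,0],[0,-1,0,1,0],[1,-1,-1,0,0],[0,0,0,0,1],[-1,1,0,0,0],[-1,0,0,0,0],[0,0,0,1,0],[-1,1,1,-1,-1],[0,0,0,1,1],[0,-1,0,1,0],[0,0,0,-1,0],[0,1,0,-1,0],[1,-1,-1,0,0],[-1,1,1,-1,-1],[1,-1,-1,0,0],[0,0,-1,0,0],[0,0,0,-1,-1],[0,0,-1,0,0],[0,1,0,0,0],[0,0,0,0,1],[0,-1,0,0,0],[1,-1,-1,1,1],[0,0,0,-1,-1],[0,0,0,0,-1],[-1,1,0,0,0],[-1,0,0,0,0],[0,0,0,-1,0],[0,0,-1,0,0],[0,-1,0,0,0],[-1,0,0,0,0]],[31],[1,3,7,9,19],[[-1,-2,2,2,-1],[0,0,-3,-3,0],[-1,1,-1,-1,2],[-2,2,1,1,-2],[-1,1,2,-1,-1]],372,[(37,[(1,.two [1] [37])]),(57,[(1,.two [1] [57])]),(61,[(1,.two [1] [61])]),(5,[(1,.two [5] [37])]),(25,[(1,.two [25] [37])]),(12,[(1,.two [2] [12])]),(52,[(1,.two [2] [52])]),(60,[(1,.two [2] [60])]),(10,[(1,.two [10] [12])]),(50,[(1,.two [50] [12])]),(47,[(1,.two [3] [47])]),(49,[(1,.two [3] [49])]),(59,[(1,.two [3]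 [59])]),(13,[(1,.two [13] [47])]),(15,[(1,.two [15] [47])]),(24,[(1,.two [4] [24])]),(42,[(1,.two [4] [42])]),(58,[(1,.two [4] [58])]),(20,[(1,.two [20] [24])]),(38,[(1,.two [38] [24])]),(11,[(1,.two [11] [7])]),(35,[(1,.two [11] [35])]),(51,[(1,.two [11] [51])]),(27,[(1,.two [27] [7])]),(55,[(1,.two [55] [7])]),(16,[(1,.two [16] [1,12,49])]),(34,[(1,.two [16] [4,24,34])]),(44,[(1,.two [16] [7,11,44])]),(46,[(1,.two [16] [20,46,58])]),(18,[(1,.two [18] [1,12,49])]),(28,[(1,.two [28] [1,12,49])]),(32,[(1,.dup 1)]),(33,[(1,.dup 2)]),(6,[(1,.dup 3)]),(8,[(1,.dup 4)]),(36,[(1,.dup 5)]),(14,[(1,.dup 7)]),(39,[(1,.dup 8)]),(41,[(1,.dup 10)]),(22,[(1,.dup 11)]),(43,[(1,.dup 12)]),(26,[(1,.dup 13)]),(45,[(1,.dup 14)]),(30,[(1,.dup 15)]),(19,[(1,.dup 19)]),(40,[(1,.dup 20)]),(21,[(1,.dup 21)]),(53,[(1,.dup 22)]),(48,[(1,.dup 24)]),(56,[(1,.dup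 25)]),(54,[(1,.dup 27)]),(29,[(1,.dup 29)]),(17,[(1,.two [6,17,39] [32,39,53])]),(23,[(1,.two [26,45,53] [23,45,56])]),(9,[(1,.two [9,13,40] [6,59,59])])]⟩

theorem k62_5 : chk 62 5 c62_5 = true := by decide +kernel

def c62_7 : Cert :=
  ⟨[1,7,49,33,45,5,35,59,41,39,25,51,47,19,9],[1,3,5,7,9,11,13,15,17,19,21,23,25,27,29,33,35,37,39,41,43,45,47,49,51,53,55,57,59,61],[2],[[],[0],[1],[0],[1],[0],[-1],[0],[1],[0],[1],[0],[-1],[0],[1],[0],[1],[0],[1],[0],[1],[0],[-1],[0],[-1],[0],[-1],[0],[1],[0],[-1],[0],[1],[0],[-1],[0],[1],[0],[1],[0],[1],[0],[-1],[0],[-1],[0],[-1],[0],[-1],[0],[1],[0],[-1],[0],[-1],[0],[1],[0],[-1],[0],[-1],[0]],[1],[1],[[-1]],186,[(3,[(1,.one [3])]),(5,[(1,.one [5])]),(7,[(1,.one [7])]),(9,[(1,.one [9])]),(11,[(1,.one [11])]),(13,[(1,.one [13])]),(15,[(1,.one [15])]),(17,[(1,.one [17])]),(19,[(1,.one [19])]),(21,[(1,.one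 [21])]),(23,[(1,.one [23])]),(25,[(1,.one [25])]),(27,[(1,.one [27])]),(29,[(1,.one [29])]),(31,[(1,.one [31])]),(33,[(1,.one [33])]),(35,[(1,.one [35])]),(37,[(1,.one [37])]),(39,[(1,.one [39])]),(41,[(1,.one [41])]),(43,[(1,.one [43])]),(45,[(1,.one [45])]),(47,[(1,.one [47])]),(49,[(1,.one [49])]),(51,[(1,.one [51])]),(53,[(1,.one [53])]),(55,[(1,.one [55])]),(57,[(1,.one [57])]),(59,[(1,.one [59])]),(61,[(1,.one [61])]),(6,[(1,.two [2] [6])]),(12,[(1,.two [2] [12])]),(22,[(1,.two [2] [22])]),(24,[(1,.two [2] [24])]),(26,[(1,.two [2] [26])]),(30,[(1,.two [2] [30])]),(34,[(1,.two [2] [34])]),(42,[(1,.two [2] [42])]),(44,[(1,.two [2] [44])]),(46,[(1,.two [2] [46])]),(48,[(1,.two [2] [48])]),(52,[(1,.two [2] [52])]),(54,[(1,.two [2] [54])]),(58,[(1,.two [2] [58])]),(60,[(1,.two [2] [60])]),(4,[(1,.two [4] [6])]),(8,[(1,.two [8] [6])]),(10,[(1,.two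 [10] [6])]),(14,[(1,.two [14] [6])]),(16,[(1,.two [16] [6])]),(18,[(1,.two [18] [6])]),(20,[(1,.two [20] [6])]),(28,[(1,.two [28] [6])]),(32,[(1,.two [32] [6])]),(36,[(1,.two [36] [6])]),(38,[(1,.two [38] [6])]),(40,[(1,.two [40] [6])]),(50,[(1,.two [50] [6])]),(56,[(1,.two [56] [6])])]⟩

theorem k62_7 : chk 62 7 c62_7 = true := by decide +kernel

def c62_15 : Cert :=
  ⟨[1,15,39,27,33,61,47,23,35,29],[1,3,5,7,9,11,13,15,17,19,21,23,25,27,29,33,35,37,39,41,43,45,47,49,51,53,55,57,59,61],[],[[],[],[],[],[],[],[],[],[],[],[],[],[],[],[],[],[],[],[],[],[],[],[],[],[],[],[],[],[],[],[],[],[],[],[],[],[],[],[],[],[],[],[],[],[],[],[],[],[],[],[],[],[],[],[],[],[],[],[],[],[],[]],[1],[],[],1,[(2,[(1,.one [2])]),(3,[(1,.one [3])]),(4,[(1,.one [4])]),(5,[(1,.one [5])]),(6,[(1,.one [6])]),(7,[(1,.one [7])]),(8,[(1,.one [8])]),(9,[(1,.one [9])]),(10,[(1,.one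 [10])]),(11,[(1,.one [11])]),(12,[(1,.one [12])]),(13,[(1,.one [13])]),(14,[(1,.one [14])]),(15,[(1,.one [15])]),(16,[(1,.one [16])]),(17,[(1,.one [17])]),(18,[(1,.one [18])]),(19,[(1,.one [19])]),(20,[(1,.one [20])]),(21,[(1,.one [21])]),(22,[(1,.one [22])]),(23,[(1,.one [23])]),(24,[(1,.one [24])]),(25,[(1,.one [25])]),(26,[(1,.one [26])]),(27,[(1,.one [27])]),(28,[(1,.one [28])]),(29,[(1,.one [29])]),(30,[(1,.one [30])]),(31,[(1,.one [31])]),(32,[(1,.one [32])]),(33,[(1,.one [33])]),(34,[(1,.one [34])]),(35,[(1,.one [35])]),(36,[(1,.one [36])]),(37,[(1,.one [37])]),(38,[(1,.one [38])]),(39,[(1,.one [39])]),(40,[(1,.one [40])]),(41,[(1,.one [41])]),(42,[(1,.one [42])]),(43,[(1,.one [43])]),(44,[(1,.one [44])]),(45,[(1,.one [45])]),(46,[(1,.one [46])]),(47,[(1,.one [47])]),(48,[(1,.one [48])]),(49,[(1,.one [49])]),(50,[(1,.one [50])]),(51,[(1,.one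 [51])]),(52,[(1,.one [52])]),(53,[(1,.one [53])]),(54,[(1,.one [54])]),(55,[(1,.one [55])]),(56,[(1,.one [56])]),(57,[(1,.one [57])]),(58,[(1,.one [58])]),(59,[(1,.one [59])]),(60,[(1,.one [60])]),(61,[(1,.one [61])])]⟩

theorem k62_15 : chk 62 15 c62_15 = true := by decide +kernel

def c62_33 : Cert :=
  ⟨[1,33,35,39,47],[1,3,5,7,9,11,13,15,17,19,21,23,25,27,29,33,35,37,39,41,43,45,47,49,51,53,55,57,59,61],[2,6,10],[[],[0,0,0],[1,0,0],[0,0,0],[1,0,0],[0,0,0],[0,1,0],[0,0,0],[1,0,0],[0,0,0],[0,0,1],[0,0,0],[0,1,0],[0,0,0],[0,-1,0],[0,0,0],[1,0,0],[0,0,0],[0,0,1],[0,0,0],[0,0,1],[0,0,0],[0,0,-1],[0,0,0],[0,1,0],[0,0,0],[0,0,-1],[0,0,0],[0,-1,0],[0,0,0],[-1,0,0],[0,0,0],[1,0,0],[0,0,0],[0,1,0],[0,0,0],[0,0,1],[0,0,0],[0,-1,0],[0,0,0],[0,0,1],[0,0,0],[0,0,-1],[0,0,0],[0,0,-1],[0,0,0],[-1,0,0],[0,0,0],[0,1,0],[0,0,0],[0,-1,0],[0,0,0],[0,0,-1],[0,0,0],[-1,0,0],[0,0,0],[0,-1,0],[0,0,0],[-1,0,0],[0,0,0],[-1,0,0],[0,0,0]],[1],[1,3,5],[[-5,-1,-2],[-1,-2,5],[-2,5,1]],1116,[(3,[(1,.one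 [3])]),(5,[(1,.one [5])]),(7,[(1,.one [7])]),(9,[(1,.one [9])]),(11,[(1,.one [11])]),(13,[(1,.one [13])]),(15,[(1,.one [15])]),(17,[(1,.one [17])]),(19,[(1,.one [19])]),(21,[(1,.one [21])]),(23,[(1,.one [23])]),(25,[(1,.one [25])]),(27,[(1,.one [27])]),(29,[(1,.one [29])]),(31,[(1,.one [31])]),(33,[(1,.one [33])]),(35,[(1,.one [35])]),(37,[(1,.one [37])]),(39,[(1,.one [39])]),(41,[(1,.one [41])]),(43,[(1,.one [43])]),(45,[(1,.one [45])]),(47,[(1,.one [47])]),(49,[(1,.one [49])]),(51,[(1,.one [51])]),(53,[(1,.one [53])]),(55,[(1,.one [55])]),(57,[(1,.one [57])]),(59,[(1,.one [59])]),(61,[(1,.one [61])]),(30,[(1,.two [2] [30])]),(46,[(1,.two [2] [46])]),(54,[(1,.two [2] [54])]),(58,[(1,.two [2] [58])]),(60,[(1,.two [2] [60])]),(4,[(1,.two [4] [30])]),(8,[(1,.two [8] [30])]),(16,[(1,.two [16] [30])]),(32,[(1,.two [32] [30])]),(14,[(1,.two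 [6] [14])]),(28,[(1,.two [6] [28])]),(38,[(1,.two [6] [38])]),(50,[(1,.two [6] [50])]),(56,[(1,.two [6] [56])]),(12,[(1,.two [12] [14])]),(24,[(1,.two [24] [14])]),(34,[(1,.two [34] [14])]),(48,[(1,.two [48] [14])]),(22,[(1,.two [10] [22])]),(26,[(1,.two [10] [26])]),(42,[(1,.two [10] [42])]),(44,[(1,.two [10] [44])]),(52,[(1,.two [10] [52])]),(18,[(1,.two [18] [22])]),(20,[(1,.two [20] [22])]),(36,[(1,.two [36] [22])]),(40,[(1,.two [40] [22])])]⟩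

theorem k62_33 : chk 62 33 c62_33 = true := by decide +kernel

def c62_37 : Cert :=
  ⟨[1,37,5,61,25,57],[1,3,5,7,9,11,13,15,17,19,21,23,25,27,29,33,35,37,39,41,43,45,47,49,51,53,55,57,59,61],[],[[],[],[],[],[],[],[],[],[],[],[],[],[],[],[],[],[],[],[],[],[],[],[],[],[],[],[],[],[],[],[],[],[],[],[],[],[],[],[],[],[],[],[],[],[],[],[],[],[],[],[],[],[],[],[],[],[],[],[],[],[],[]],[1],[],[],1,[(2,[(1,.one [2])]),(3,[(1,.one [3])]),(4,[(1,.one [4])]),(5,[(1,.one [5])]),(6,[(1,.one [6])]),(7,[(1,.one [7])]),(8,[(1,.one [8])]),(9,[(1,.one [9])]),(10,[(1,.one [10])]),(11,[(1,.one [11])]),(12,[(1,.one [12])]),(13,[(1,.one [13])]),(14,[(1,.one [14])]),(15,[(1,.one [15])]),(16,[(1,.one [16])]),(17,[(1,.one [17])]),(18,[(1,.one [18])]),(19,[(1,.one [19])]),(20,[(1,.one [20])]),(21,[(1,.one [21])]),(22,[(1,.one [22])]),(23,[(1,.one [23])]),(24,[(1,.one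 [24])]),(25,[(1,.one [25])]),(26,[(1,.one [26])]),(27,[(1,.one [27])]),(28,[(1,.one [28])]),(29,[(1,.one [29])]),(30,[(1,.one [30])]),(31,[(1,.one [31])]),(32,[(1,.one [32])]),(33,[(1,.one [33])]),(34,[(1,.one [34])]),(35,[(1,.one [35])]),(36,[(1,.one [36])]),(37,[(1,.one [37])]),(38,[(1,.one [38])]),(39,[(1,.one [39])]),(40,[(1,.one [40])]),(41,[(1,.one [41])]),(42,[(1,.one [42])]),(43,[(1,.one [43])]),(44,[(1,.one [44])]),(45,[(1,.one [45])]),(46,[(1,.one [46])]),(47,[(1,.one [47])]),(48,[(1,.one [48])]),(49,[(1,.one [49])]),(50,[(1,.one [50])]),(51,[(1,.one [51])]),(52,[(1,.one [52])]),(53,[(1,.one [53])]),(54,[(1,.one [54])]),(55,[(1,.one [55])]),(56,[(1,.one [56])]),(57,[(1,.one [57])]),(58,[(1,.one [58])]),(59,[(1,.one [59])]),(60,[(1,.one [60])]),(61,[(1,.one [61])])]⟩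

theorem k62_37 : chk 62 37 c62_37 = true := by decide +kernel

def c62_61 : Cert :=
  ⟨[1,61],[1,3,5,7,9,11,13,15,17,19,21,23,25,27,29,33,35,37,39,41,43,45,47,49,51,53,55,57,59,61],[],[[],[],[],[],[],[],[],[],[],[],[],[],[],[],[],[],[],[],[],[],[],[],[],[],[],[],[],[],[],[],[],[],[],[],[],[],[],[],[],[],[],[],[],[],[],[],[],[],[],[],[],[],[],[],[],[],[],[],[],[],[],[]],[1],[],[],1,[(2,[(1,.one [2])]),(3,[(1,.one [3])]),(4,[(1,.one [4])]),(5,[(1,.one [5])]),(6,[(1,.one [6])]),(7,[(1,.one [7])]),(8,[(1,.one [8])]),(9,[(1,.one [9])]),(10,[(1,.one [10])]),(11,[(1,.one [11])]),(12,[(1,.one [12])]),(13,[(1,.one [13])]),(14,[(1,.one [14])]),(15,[(1,.one [15])]),(16,[(1,.one [16])]),(17,[(1,.one [17])]),(18,[(1,.one [18])]),(19,[(1,.one [19])]),(20,[(1,.one [20])]),(21,[(1,.one [21])]),(22,[(1,.one [22])]),(23,[(1,.one [23])]),(24,[(1,.one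 [24])]),(25,[(1,.one [25])]),(26,[(1,.one [26])]),(27,[(1,.one [27])]),(28,[(1,.one [28])]),(29,[(1,.one [29])]),(30,[(1,.one [30])]),(31,[(1,.one [31])]),(32,[(1,.one [32])]),(33,[(1,.one [33])]),(34,[(1,.one [34])]),(35,[(1,.one [35])]),(36,[(1,.one [36])]),(37,[(1,.one [37])]),(38,[(1,.one [38])]),(39,[(1,.one [39])]),(40,[(1,.one [40])]),(41,[(1,.one [41])]),(42,[(1,.one [42])]),(43,[(1,.one [43])]),(44,[(1,.one [44])]),(45,[(1,.one [45])]),(46,[(1,.one [46])]),(47,[(1,.one [47])]),(48,[(1,.one [48])]),(49,[(1,.one [49])]),(50,[(1,.one [50])]),(51,[(1,.one [51])]),(52,[(1,.one [52])]),(53,[(1,.one [53])]),(54,[(1,.one [54])]),(55,[(1,.one [55])]),(56,[(1,.one [56])]),(57,[(1,.one [57])]),(58,[(1,.one [58])]),(59,[(1,.one [59])]),(60,[(1,.one [60])]),(61,[(1,.one [61])])]⟩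

theorem k62_61 : chk 62 61 c62_61 = true := by decide +kernel

theorem all62 : ∀ x < 62, x.Coprime 62 → Full 62 x := by
  intro x hx hc
  interval_cases x
  · exact absurd hc (by decide)
  · exact full_of_chk k62_1
  · exact absurd hc (by decide)
  · exact full_of_chk k62_3
  · exact absurd hc (by decide)
  · exact full_of_chk k62_5
  · exact absurd hc (by decide)
  · exact full_of_chk k62_7
  · exact absurd hc (by decide)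
  · exact full_same 14 14 k62_7 (by decide) (by decide)
  · exact absurd hc (by decide)
  · exact full_same 23 17 k62_3 (by decide) (by decide)
  · exact absurd hc (by decide)
  · exact full_same 11 11 k62_3 (by decide) (by decide)
  · exact absurd hc (by decide)
  · exact full_of_chk k62_15
  · exact absurd hc (by decide)
  · exact full_same 7 13 k62_3 (by decide) (by decide)
  · exact absurd hc (by decide)
  · exact full_same 13 7 k62_7 (by decide) (by decide)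
  · exact absurd hc (by decide)
  · exact full_same 29 29 k62_3 (by decide) (by decide)
  · exact absurd hc (by decide)
  · exact full_same 7 3 k62_15 (by decide) (by decide)
  · exact absurd hc (by decide)
  · exact full_same 2 2 k62_5 (by decide) (by decide)
  · exact absurd hc (by decide)
  · exact full_same 3 7 k62_15 (by decide) (by decide)
  · exact absurd hc (by decide)
  · exact full_same 9 9 k62_15 (by decide) (by decide)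
  · exact absurd hc (by decide)
  · exact absurd hc (by decide)
  · exact absurd hc (by decide)
  · exact full_of_chk k62_33
  · exact absurd hc (by decide)
  · exact full_same 2 3 k62_33 (by decide) (by decide)
  · exact absurd hc (by decide)
  · exact full_of_chk k62_37
  · exact absurd hc (by decide)
  · exact full_same 3 2 k62_33 (by decide) (by decide)
  · exact absurd hc (by decide)
  · exact full_same 8 2 k62_7 (by decide) (by decide)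
  · exact absurd hc (by decide)
  · exact full_same 19 19 k62_3 (by decide) (by decide)
  · exact absurd hc (by decide)
  · exact full_same 4 4 k62_7 (by decide) (by decide)
  · exact absurd hc (by decide)
  · exact full_same 4 4 k62_33 (by decide) (by decide)
  · exact absurd hc (by decide)
  · exact full_same 2 8 k62_7 (by decide) (by decide)
  · exact absurd hc (by decide)
  · exact full_same 11 11 k62_7 (by decide) (by decide)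
  · exact absurd hc (by decide)
  · exact full_same 17 23 k62_3 (by decide) (by decide)
  · exact absurd hc (by decide)
  · exact full_same 13 7 k62_3 (by decide) (by decide)
  · exact absurd hc (by decide)
  · exact full_same 5 5 k62_37 (by decide) (by decide)
  · exact absurd hc (by decide)
  · exact full_same 7 13 k62_7 (by decide) (by decide)
  · exact absurd hc (by decide)
  · exact full_of_chk k62_61

end Pool.Agent.N997.TF
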