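import Pool.Agent.N997.TF.Same

/-!
Degree 63: certificates.
-/

set_option maxRecDepth 100000

namespace Pool.Agent.N997.TF

def c63_1 : Cert :=
  ⟨[1],[1,2,4,5,8,10,11,13,16,17,19,20,22,23,25,26,29,31,32,34,37,38,40,41,43,44,46,47,50,52,53,55,58,59,61,62],[1,2,3,4,5,6,7,8,9,10,11,13,14,15,16,17,18,19],[[],[1,0,0,0,0,0,0,0,0,0,0,0,0,0,0,0,0,0],[0,1,0,0,0,0,0,0,0,0,0,0,0,0,0,0,0,0],[0,0,1,0,0,0,0,0,0,0,0,0,0,0,0,0,0,0],[0,0,0,1,0,0,0,0,0,0,0,0,0,0,0,0,0,0],[0,0,0,0,1,0,0,0,0,0,0,0,0,0,0,0,0,0],[0,0,0,0,0,1,0,0,0,0,0,0,0,0,0,0,0,0],[0,0,0,0,0,0,1,0,0,0,0,0,0,0,0,0,0,0],[0,0,0,0,0,0,0,1,0,0,0,0,0,0,0,0,0,0],[0,0,0,0,0,0,0,0,1,0,0,0,0,0,0,0,0,0],[0,0,0,0,0,0,0,0,0,1,0,0,0,0,0,0,0,0],[0,0,0,0,0,0,0,0,0,0,1,0,0,0,0,0,0,0],[0,0,-1,0,0,1,0,0,1,0,0,0,0,0,0,0,0,0],[0,0,0,0,0,0,0,0,0,0,0,1,0,0,0,0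,0,0],[0,0,0,0,0,0,0,0,0,0,0,0,1,0,0,0,0,0],[0,0,0,0,0,0,0,0,0,0,0,0,0,1,0,0,0,0],[0,0,0,0,0,0,0,0,0,0,0,0,0,0,1,0,0,0],[0,0,0,0,0,0,0,0,0,0,0,0,0,0,0,1,0,0],[0,0,0,0,0,0,0,0,0,0,0,0,0,0,0,0,1,0],[0,0,0,0,0,0,0,0,0,0,0,0,0,0,0,0,0,1],[0,-1,0,-1,0,1,1,1,0,0,-1,-1,1,0,1,1,-1,0],[-1,0,0,0,-1,0,2,1,0,-1,0,0,-1,1,1,1,0,-1],[-1,-1,1,-1,0,1,1,1,0,0,-1,-1,1,0,1,1,-1,0],[0,-1,0,0,0,1,0,0,0,0,0,0,0,0,0,0,0,1],[0,0,-1,0,0,0,0,0,1,0,0,0,0,0,0,0,1,0],[0,0,-1,-1,0,1,0,0,1,0,0,0,0,0,0,1,0,0],[0,0,0,0,-1,0,0,0,0,0,0,0,0,1,1,0,0,0],[0,0,0,0,0,-1,0,0,0,0,0,0,0,1,0,0,1,0],[-1,0,0,0,-1,0,1,1,0,-1,0,0,0,1,1,1,0,-1],[0,0,-1,0,0,0,0,-1,1,0,0,1,0,0,0,0,1,0],[0,0,-1,0,0,0,0,0,0,0,0,0,0,1,0,0,1,0],[0,0,-1,0,0,0,0,0,0,-1,1,0,0,1,0,0,1,0],[0,0,1,0,0,0,0,0,0,1,-1,0,0,-1,0,0,-1,0],[0,0,1,0,0,0,0,0,0,0,0,0,0,-1,0,0,-1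,0],[0,0,1,0,0,0,0,1,-1,0,0,-1,0,0,0,0,-1,0],[1,0,0,0,1,0,-1,-1,0,1,0,0,0,-1,-1,-1,0,1],[0,0,0,0,0,1,0,0,0,0,0,0,0,-1,0,0,-1,0],[0,0,0,0,1,0,0,0,0,0,0,0,0,-1,-1,0,0,0],[0,0,1,1,0,-1,0,0,-1,0,0,0,0,0,0,-1,0,0],[0,0,1,0,0,0,0,0,-1,0,0,0,0,0,0,0,-1,0],[0,1,0,0,0,-1,0,0,0,0,0,0,0,0,0,0,0,-1],[1,1,-1,1,0,-1,-1,-1,0,0,1,1,-1,0,-1,-1,1,0],[1,0,0,0,1,0,-2,-1,0,1,0,0,1,-1,-1,-1,0,1],[0,1,0,1,0,-1,-1,-1,0,0,1,1,-1,0,-1,-1,1,0],[0,0,0,0,0,0,0,0,0,0,0,0,0,0,0,0,0,-1],[0,0,0,0,0,0,0,0,0,0,0,0,0,0,0,0,-1,0],[0,0,0,0,0,0,0,0,0,0,0,0,0,0,0,-1,0,0],[0,0,0,0,0,0,0,0,0,0,0,0,0,0,-1,0,0,0],[0,0,0,0,0,0,0,0,0,0,0,0,0,-1,0,0,0,0],[0,0,0,0,0,0,0,0,0,0,0,0,-1,0,0,0,0,0],[0,0,0,0,0,0,0,0,0,0,0,-1,0,0,0,0,0,0],[0,0,1,0,0,-1,0,0,-1,0,0,0,0,0,0,0,0,0],[0,0,0,0,0,0,0,0,0,0,-1,0,0,0,0,0,0,0],[0,0,0,0,0,0,0,0,0,-1,0,0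,0,0,0,0,0,0],[0,0,0,0,0,0,0,0,-1,0,0,0,0,0,0,0,0,0],[0,0,0,0,0,0,0,-1,0,0,0,0,0,0,0,0,0,0],[0,0,0,0,0,0,-1,0,0,0,0,0,0,0,0,0,0,0],[0,0,0,0,0,-1,0,0,0,0,0,0,0,0,0,0,0,0],[0,0,0,0,-1,0,0,0,0,0,0,0,0,0,0,0,0,0],[0,0,0,-1,0,0,0,0,0,0,0,0,0,0,0,0,0,0],[0,0,-1,0,0,0,0,0,0,0,0,0,0,0,0,0,0,0],[0,-1,0,0,0,0,0,0,0,0,0,0,0,0,0,0,0,0],[-1,0,0,0,0,0,0,0,0,0,0,0,0,0,0,0,0,0]],[],[1,2,4,5,8,10,11,13,16,17,19,20,22,23,25,26,29,31],[[2,-5,2,-4,-5,3,-6,-1,2,-4,-1,-4,1,-3,1,-1,-3,-2],[2,-5,2,-4,-5,3,1,-1,2,3,-1,3,1,4,1,6,4,-2],[3,-4,-4,1,3,-6,5,2,3,1,2,1,-2,-1,-2,-5,-1,4],[1,-6,1,-2,1,5,4,3,1,-2,-4,-2,-3,2,-3,3,2,-1],[1,-6,1,-2,1,5,-3,3,1,-2,3,-2,4,2,4,-4,-5,-1],[-3,4,-3,6,4,-1,-5,-2,-3,-1,5,-1,2,-6,2,-2,1,3],[-6,8,-6,5,8,-9,4,-4,-6,5,-4,5,-3,2,-3,3,2,-1],[-3,4,-3,6,4,-8,2,-2,-3,-1,-2,6,2,1,-5,-2,1,3],[-4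,3,3,1,-4,1,-2,2,-4,1,2,1,-2,-1,5,2,-1,-3],[3,-4,3,1,-4,1,-2,2,3,1,2,-6,-2,-1,5,-5,-1,4],[-3,-3,4,-1,-3,6,2,-2,4,-1,-2,-1,2,1,-5,5,1,-4],[-2,-2,5,-3,-2,4,-1,1,-2,4,1,-3,-1,3,-1,1,3,-5],[1,1,1,-2,1,-2,-3,3,1,-2,3,-2,4,-5,4,-4,-5,6],[-6,8,1,-2,1,-2,4,-4,1,-2,-4,5,-3,2,-3,3,2,-1],[-4,10,-4,1,3,-6,5,-5,-4,1,2,1,-2,-1,-2,2,-1,4],[-5,9,-5,3,2,-4,1,-1,-5,3,-1,3,1,-3,1,-1,4,-2],[-4,3,3,-6,-4,8,-2,2,3,1,-5,1,-2,6,-2,2,-1,-3],[-1,-1,-1,2,-1,2,-4,4,6,-5,4,-5,3,-2,3,-3,-2,1]],882,[(62,[(1,.two [1] [62])]),(61,[(1,.two [2] [61])]),(60,[(1,.two [3] [60])]),(59,[(1,.two [4] [59])]),(58,[(1,.two [5] [58])]),(57,[(1,.two [6] [57])]),(56,[(1,.two [7] [56])]),(55,[(1,.two [8] [55])]),(54,[(1,.two [9] [54])]),(53,[(1,.two [10] [53])]),(52,[(1,.two [11] [52])]),(50,[(1,.two [13] [50])]),(49,[(1,.two [14] [49])]),(48,[(1,.two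 [15] [48])]),(47,[(1,.two [16] [47])]),(46,[(1,.two [17] [46])]),(45,[(1,.two [18] [45])]),(44,[(1,.two [19] [44])]),(23,[(1,.hd 3 2)]),(24,[(1,.hd 3 3)]),(26,[(1,.hd 3 5)]),(27,[(1,.hd 3 6)]),(29,[(1,.hd 3 8)]),(36,[(1,.hd 3 15)]),(37,[(1,.hd 3 16)]),(39,[(1,.hd 3 18)]),(40,[(1,.hd 3 19)]),(12,[(1,.two [3,3,57] [12,54,60])]),(30,[(1,.two [3,3,57] [30,36,60])]),(51,[(1,.two [3,9,51] [6,60,60])]),(33,[(1,.two [3,27,33] [6,60,60])]),(31,[(1,.two [1,10,52] [31,33,62])]),(32,[(1,.two [1,30,32] [11,53,62])]),(34,[(1,.two [1,29,33] [30,34,62])]),(25,[(1,.two [4,8,51] [25,46,55])]),(38,[(1,.two [8,17,38] [12,55,59])]),(28,[(1,.hd 7 1)]),(20,[(1,.hd 7 2)]),(22,[(1,.hd 7 4)]),(43,[(1,.hd 7 7)]),(35,[(1,.hd 7 8)]),(41,[(1,.two [22] [41])]),(21,[(1,.hd 3 7)]),(42,[(1,.hd 3 14)])]⟩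

theorem k63_1 : chk 63 1 c63_1 = true := by decide +kernel

def c63_2 : Cert :=
  ⟨[1,2,4,8,16,32],[1,2,4,5,8,10,11,13,16,17,19,20,22,23,25,26,29,31,32,34,37,38,40,41,43,44,46,47,50,52,53,55,58,59,61,62],[1,3,5],[[],[1,0,0],[1,0,0],[0,1,0],[1,0,0],[0,0,1],[0,1,0],[0,0,0],[1,0,0],[0,1,0],[0,0,1],[-1,1,1],[0,1,0],[1,-1,-1],[0,0,0],[0,-1,0],[1,0,0],[0,0,1],[0,1,0],[1,-1,-1],[0,0,1],[0,0,0],[-1,1,1],[0,0,-1],[0,1,0],[-1,1,1],[1,-1,-1],[0,-1,0],[0,0,0],[0,0,-1],[0,-1,0],[-1,0,0],[1,0,0],[0,1,0],[0,0,1],[0,0,0],[0,1,0],[-1,1,1],[1,-1,-1],[0,-1,0],[0,0,1],[1,-1,-1],[0,0,0],[0,0,-1],[-1,1,1],[0,-1,0],[0,0,-1],[-1,0,0],[0,1,0],[0,0,0],[-1,1,1],[0,-1,0],[1,-1,-1],[0,0,-1],[0,-1,0],[-1,0,0],[0,0,0],[0,-1,0],[0,0,-1],[-1,0,0],[0,-1,0],[-1,0,0],[-1,0,0]],[7],[1,5,11],[[-2,-3,-1],[-2,4,-1],[-1,2,3]],882,[(14,[(1,.one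 [14])]),(21,[(1,.one [21])]),(28,[(1,.one [28])]),(35,[(1,.one [35])]),(42,[(1,.one [42])]),(49,[(1,.one [49])]),(56,[(1,.one [56])]),(31,[(1,.two [1] [31])]),(47,[(1,.two [1] [47])]),(55,[(1,.two [1] [55])]),(59,[(1,.two [1] [59])]),(61,[(1,.two [1] [61])]),(62,[(1,.two [1] [62])]),(2,[(1,.two [2] [31])]),(4,[(1,.two [4] [31])]),(8,[(1,.two [8] [31])]),(16,[(1,.two [16] [31])]),(32,[(1,.two [32] [31])]),(15,[(1,.two [3] [15])]),(27,[(1,.two [3] [27])]),(30,[(1,.two [3] [30])]),(39,[(1,.two [3] [39])]),(45,[(1,.two [3] [45])]),(51,[(1,.two [3] [51])]),(54,[(1,.two [3] [54])]),(57,[(1,.two [3] [57])]),(60,[(1,.two [3] [60])]),(6,[(1,.two [6] [15])]),(9,[(1,.two [9] [15])]),(12,[(1,.two [12] [15])]),(18,[(1,.two [18] [15])]),(24,[(1,.two [24] [15])]),(33,[(1,.two [33] [15])]),(36,[(1,.two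 [36] [15])]),(48,[(1,.two [48] [15])]),(23,[(1,.two [5] [23])]),(29,[(1,.two [5] [29])]),(43,[(1,.two [5] [43])]),(46,[(1,.two [5] [46])]),(53,[(1,.two [5] [53])]),(58,[(1,.two [5] [58])]),(10,[(1,.two [10] [23])]),(17,[(1,.two [17] [23])]),(20,[(1,.two [20] [23])]),(34,[(1,.two [34] [23])]),(40,[(1,.two [40] [23])]),(11,[(1,.two [1] [11,57,58])]),(25,[(1,.two [1] [15,23,25])]),(22,[(1,.two [1] [22,51,53])]),(37,[(1,.two [1] [29,37,60])]),(50,[(1,.two [1] [30,46,50])]),(44,[(1,.two [1] [39,43,44])]),(26,[(1,.two [3,26,34] [31])]),(52,[(1,.two [5,6,52] [31])]),(41,[(1,.two [10,12,41] [31])]),(13,[(1,.two [13,17,33] [31])]),(19,[(1,.two [19,20,24] [31])]),(38,[(1,.two [38,40,48] [31])])]⟩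

theorem k63_2 : chk 63 2 c63_2 = true := by decide +kernel

def c63_4 : Cert :=
  ⟨[1,4,16],[1,2,4,5,8,10,11,13,16,17,19,20,22,23,25,26,29,31,32,34,37,38,40,41,43,44,46,47,50,52,53,55,58,59,61,62],[1,2,3,5,7,10],[[],[1,0,0,0,0,0],[0,1,0,0,0,0],[0,0,1,0,0,0],[1,0,0,0,0,0],[0,0,0,1,0,0],[0,0,1,0,0,0],[0,0,0,0,1,0],[0,1,0,0,0,0],[0,0,1,0,0,0],[0,0,0,0,0,1],[0,-1,1,0,0,1],[0,0,1,0,0,0],[0,1,-1,0,0,-1],[0,0,0,0,-1,0],[0,0,-1,0,0,0],[1,0,0,0,0,0],[0,0,0,1,0,0],[0,0,1,0,0,0],[0,1,-1,0,0,-1],[0,0,0,1,0,0],[0,0,0,0,3,0],[-1,0,1,1,0,0],[0,0,0,0,0,-1],[0,0,1,0,0,0],[-1,0,1,1,0,0],[1,0,-1,-1,0,0],[0,0,-1,0,0,0],[0,0,0,0,1,0],[0,0,0,0,0,-1],[0,0,-1,0,0,0],[0,-1,0,0,0,0],[0,1,0,0,0,0],[0,0,1,0,0,0],[0,0,0,0,0,1],[0,0,0,0,-1,0],[0,0,1,0,0,0],[-1,0,1,1,0,0],[1,0,-1,-1,0,0],[0,0,-1,0,0,0],[0,0,0,0,0,1]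,[1,0,-1,-1,0,0],[0,0,0,0,-3,0],[0,0,0,-1,0,0],[0,-1,1,0,0,1],[0,0,-1,0,0,0],[0,0,0,-1,0,0],[-1,0,0,0,0,0],[0,0,1,0,0,0],[0,0,0,0,1,0],[0,-1,1,0,0,1],[0,0,-1,0,0,0],[0,1,-1,0,0,-1],[0,0,0,0,0,-1],[0,0,-1,0,0,0],[0,-1,0,0,0,0],[0,0,0,0,-1,0],[0,0,-1,0,0,0],[0,0,0,-1,0,0],[-1,0,0,0,0,0],[0,0,-1,0,0,0],[0,-1,0,0,0,0],[-1,0,0,0,0,0]],[],[1,2,5,10,11,22],[[-1,-1,-5,2,3,-4],[-1,-1,2,-5,-4,3],[-2,-2,4,4,-1,-1],[-4,3,1,1,-2,5],[-7,7,7,-7,7,-7],[3,-4,1,1,5,-2]],882,[(47,[(1,.two [1] [47])]),(59,[(1,.two [1] [59])]),(62,[(1,.two [1] [62])]),(4,[(1,.two [4] [47])]),(16,[(1,.two [16] [47])]),(31,[(1,.two [2] [31])]),(55,[(1,.two [2] [55])]),(61,[(1,.two [2] [61])]),(8,[(1,.two [8] [31])]),(32,[(1,.two [32] [31])]),(15,[(1,.two [3] [15])]),(27,[(1,.two [3] [27])]),(30,[(1,.two [3] [30])]),(39,[(1,.two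 [3] [39])]),(45,[(1,.two [3] [45])]),(51,[(1,.two [3] [51])]),(54,[(1,.two [3] [54])]),(57,[(1,.two [3] [57])]),(60,[(1,.two [3] [60])]),(6,[(1,.two [6] [15])]),(9,[(1,.two [9] [15])]),(12,[(1,.two [12] [15])]),(18,[(1,.two [18] [15])]),(24,[(1,.two [24] [15])]),(33,[(1,.two [33] [15])]),(36,[(1,.two [36] [15])]),(48,[(1,.two [48] [15])]),(43,[(1,.two [5] [43])]),(46,[(1,.two [5] [46])]),(58,[(1,.two [5] [58])]),(17,[(1,.two [17] [43])]),(20,[(1,.two [20] [43])]),(14,[(1,.two [7] [14])]),(35,[(1,.two [7] [35])]),(56,[(1,.two [7] [56])]),(28,[(1,.two [28] [14])]),(49,[(1,.two [49] [14])]),(23,[(1,.two [10] [23])]),(29,[(1,.two [10] [29])]),(53,[(1,.two [10] [53])]),(34,[(1,.two [34] [23])]),(40,[(1,.two [40] [23])]),(21,[(1,.two [21] [14,14,35])]),(42,[(1,.two [7,7,49] [42])]),(22,[(1,.hd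 3 1)]),(44,[(1,.hd 3 2)]),(25,[(1,.hd 3 4)]),(26,[(1,.hd 3 5)]),(50,[(1,.hd 3 8)]),(52,[(1,.hd 3 10)]),(11,[(1,.hd 3 11)]),(13,[(1,.hd 3 13)]),(37,[(1,.hd 3 16)]),(38,[(1,.hd 3 17)]),(19,[(1,.hd 3 19)]),(41,[(1,.hd 3 20)])]⟩

theorem k63_4 : chk 63 4 c63_4 = true := by decide +kernel

def c63_5 : Cert :=
  ⟨[1,5,25,62,58,38],[1,2,4,5,8,10,11,13,16,17,19,20,22,23,25,26,29,31,32,34,37,38,40,41,43,44,46,47,50,52,53,55,58,59,61,62],[],[[],[],[],[],[],[],[],[],[],[],[],[],[],[],[],[],[],[],[],[],[],[],[],[],[],[],[],[],[],[],[],[],[],[],[],[],[],[],[],[],[],[],[],[],[],[],[],[],[],[],[],[],[],[],[],[],[],[],[],[],[],[],[]],[1],[],[],1,[(2,[(1,.one [2])]),(3,[(1,.one [3])]),(4,[(1,.one [4])]),(5,[(1,.one [5])]),(6,[(1,.one [6])]),(7,[(1,.one [7])]),(8,[(1,.one [8])]),(9,[(1,.one [9])]),(10,[(1,.one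 [10])]),(11,[(1,.one [11])]),(12,[(1,.one [12])]),(13,[(1,.one [13])]),(14,[(1,.one [14])]),(15,[(1,.one [15])]),(16,[(1,.one [16])]),(17,[(1,.one [17])]),(18,[(1,.one [18])]),(19,[(1,.one [19])]),(20,[(1,.one [20])]),(21,[(1,.one [21])]),(22,[(1,.one [22])]),(23,[(1,.one [23])]),(24,[(1,.one [24])]),(25,[(1,.one [25])]),(26,[(1,.one [26])]),(27,[(1,.one [27])]),(28,[(1,.one [28])]),(29,[(1,.one [29])]),(30,[(1,.one [30])]),(31,[(1,.one [31])]),(32,[(1,.one [32])]),(33,[(1,.one [33])]),(34,[(1,.one [34])]),(35,[(1,.one [35])]),(36,[(1,.one [36])]),(37,[(1,.one [37])]),(38,[(1,.one [38])]),(39,[(1,.one [39])]),(40,[(1,.one [40])]),(41,[(1,.one [41])]),(42,[(1,.one [42])]),(43,[(1,.one [43])]),(44,[(1,.one [44])]),(45,[(1,.one [45])]),(46,[(1,.one [46])]),(47,[(1,.one [47])]),(48,[(1,.one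 [48])]),(49,[(1,.one [49])]),(50,[(1,.one [50])]),(51,[(1,.one [51])]),(52,[(1,.one [52])]),(53,[(1,.one [53])]),(54,[(1,.one [54])]),(55,[(1,.one [55])]),(56,[(1,.one [56])]),(57,[(1,.one [57])]),(58,[(1,.one [58])]),(59,[(1,.one [59])]),(60,[(1,.one [60])]),(61,[(1,.one [61])]),(62,[(1,.one [62])])]⟩

theorem k63_5 : chk 63 5 c63_5 = true := by decide +kernel

def c63_8 : Cert :=
  ⟨[1,8],[1,2,4,5,8,10,11,13,16,17,19,20,22,23,25,26,29,31,32,34,37,38,40,41,43,44,46,47,50,52,53,55,58,59,61,62],[1,2,3,4,5,6,9,10,13],[[],[1,0,0,0,0,0,0,0,0],[0,1,0,0,0,0,0,0,0],[0,0,1,0,0,0,0,0,0],[0,0,0,1,0,0,0,0,0],[0,0,0,0,1,0,0,0,0],[0,0,0,0,0,1,0,0,0],[0,0,0,0,0,0,0,0,0],[1,0,0,0,0,0,0,0,0],[0,0,0,0,0,0,1,0,0],[0,0,0,0,0,0,0,1,0],[0,0,-1,-1,0,1,1,1,0],[0,0,-1,0,0,1,1,0,0],[0,0,0,0,0,0,0,0,1],[0,0,0,0,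0,0,0,0,0],[0,0,0,0,0,-1,0,0,0],[0,1,0,0,0,0,0,0,0],[0,0,0,0,0,0,0,1,0],[0,0,2,0,0,0,-1,0,0],[0,1,0,0,-1,-1,0,0,0],[1,0,-1,0,0,0,0,0,-1],[0,0,0,0,0,0,0,0,0],[0,0,0,0,0,0,0,0,-1],[0,0,0,0,-1,0,0,0,0],[0,0,1,0,0,0,0,0,0],[0,0,-1,-1,0,1,1,1,0],[0,1,0,0,-1,-1,0,0,0],[0,0,2,0,0,-2,-1,0,0],[0,0,0,0,0,0,0,0,0],[-1,0,1,0,0,0,0,0,1],[0,0,1,0,0,-1,-1,0,0],[0,0,0,-1,0,0,0,0,0],[0,0,0,1,0,0,0,0,0],[0,0,-1,0,0,1,1,0,0],[1,0,-1,0,0,0,0,0,-1],[0,0,0,0,0,0,0,0,0],[0,0,-2,0,0,2,1,0,0],[0,-1,0,0,1,1,0,0,0],[0,0,1,1,0,-1,-1,-1,0],[0,0,-1,0,0,0,0,0,0],[0,0,0,0,1,0,0,0,0],[0,0,0,0,0,0,0,0,1],[0,0,0,0,0,0,0,0,0],[-1,0,1,0,0,0,0,0,1],[0,-1,0,0,1,1,0,0,0],[0,0,-2,0,0,0,1,0,0],[0,0,0,0,0,0,0,-1,0],[0,-1,0,0,0,0,0,0,0],[0,0,0,0,0,1,0,0,0],[0,0,0,0,0,0,0,0,0],[0,0,0,0,0,0,0,0,-1],[0,0,1,0,0,-1,-1,0,0],[0,0,1,1,0,-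1,-1,-1,0],[0,0,0,0,0,0,0,-1,0],[0,0,0,0,0,0,-1,0,0],[-1,0,0,0,0,0,0,0,0],[0,0,0,0,0,0,0,0,0],[0,0,0,0,0,-1,0,0,0],[0,0,0,0,-1,0,0,0,0],[0,0,0,-1,0,0,0,0,0],[0,0,-1,0,0,0,0,0,0],[0,-1,0,0,0,0,0,0,0],[-1,0,0,0,0,0,0,0,0]],[7],[1,2,4,5,10,11,13,19,20],[[-1,-1,-1,2,-5,-4,-3,-3,2],[-3,4,-3,-1,-1,2,-2,5,-1],[-2,5,-2,-10,4,-1,8,-6,4],[4,-3,-3,-1,-1,2,5,-2,-1],[2,-5,2,-4,3,1,-1,-1,3],[1,-6,1,5,5,-3,-4,3,-2],[-3,-3,4,6,-1,2,-2,5,-1],[-5,2,2,3,3,1,-1,-1,-4],[-2,-2,5,-3,4,-1,1,1,-3]],882,[(14,[(1,.one [14])]),(21,[(1,.one [21])]),(28,[(1,.one [28])]),(35,[(1,.one [35])]),(42,[(1,.one [42])]),(49,[(1,.one [49])]),(56,[(1,.one [56])]),(55,[(1,.two [1] [55])]),(62,[(1,.two [1] [62])]),(8,[(1,.two [8] [55])]),(47,[(1,.two [2] [47])]),(61,[(1,.two [2] [61])]),(16,[(1,.two [16] [47])]),(39,[(1,.two [3] [39])]),(60,[(1,.two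 [3] [60])]),(24,[(1,.two [24] [39])]),(31,[(1,.two [4] [31])]),(59,[(1,.two [4] [59])]),(32,[(1,.two [32] [31])]),(23,[(1,.two [5] [23])]),(58,[(1,.two [5] [58])]),(40,[(1,.two [40] [23])]),(15,[(1,.two [6] [15])]),(57,[(1,.two [6] [57])]),(48,[(1,.two [48] [15])]),(54,[(1,.two [9] [54])]),(46,[(1,.two [10] [46])]),(53,[(1,.two [10] [53])]),(17,[(1,.two [17] [46])]),(22,[(1,.two [13] [22])]),(50,[(1,.two [13] [50])]),(41,[(1,.two [41] [22])]),(43,[(1,.hd 3 1)]),(44,[(1,.hd 3 2)]),(45,[(1,.hd 3 3)]),(26,[(1,.hd 3 5)]),(29,[(1,.hd 3 8)]),(34,[(1,.hd 3 13)]),(36,[(1,.hd 3 15)]),(37,[(1,.hd 3 16)]),(18,[(1,.hd 3 18)]),(19,[(1,.hd 3 19)]),(20,[(1,.hd 3 20)]),(27,[(1,.two [1,27,35] [35,36,55])]),(12,[(1,.two [3,3,57] [12,54,60])]),(30,[(1,.two [3,3,57] [30,36,60])]),(33,[(1,.two [3,3,57] [33,39,54])]),(51,[(1,.two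 [3,3,57] [36,39,51])]),(52,[(1,.two [1,10,52] [12,55,59])]),(25,[(1,.two [1,10,52] [25,46,55])]),(11,[(1,.two [1,30,32] [11,53,62])]),(38,[(1,.two [8,17,38] [11,53,62])])]⟩

theorem k63_8 : chk 63 8 c63_8 = true := by decide +kernel

def c63_10 : Cert :=
  ⟨[1,10,37,55,46,19],[1,2,4,5,8,10,11,13,16,17,19,20,22,23,25,26,29,31,32,34,37,38,40,41,43,44,46,47,50,52,53,55,58,59,61,62],[1,2,7],[[],[1,0,0],[0,1,0],[0,0,0],[-1,1,0],[1,-1,0],[0,0,0],[0,0,1],[-1,0,0],[0,0,0],[1,0,0],[0,1,0],[0,0,0],[-1,1,0],[0,6,-1],[0,0,0],[0,-1,0],[-1,0,0],[0,0,0],[1,0,0],[0,1,0],[-6,-6,3],[-1,1,0],[1,-1,0],[0,0,0],[0,-1,0],[-1,0,0],[0,0,0],[-6,0,1],[0,1,0],[0,0,0],[-1,1,0],[1,-1,0],[0,0,0],[0,-1,0],[6,0,-1],[0,0,0],[1,0,0],[0,1,0],[0,0,0],[-1,1,0],[1,-1,0],[6,6,-3],[0,-1,0],[-1,0,0],[0,0,0],[1,0,0],[0,1,0],[0,0,0],[0,-6,1],[1,-1,0],[0,0,0],[0,-1,0],[-1,0,0],[0,0,0],[1,0,0],[0,0,-1],[0,0,0],[-1,1,0],[1,-1,0],[0,0,0],[0,-1,0],[-1,0,0]],[3],[1,2,4],[[2,-3,1],[1,-2,3],[-1,1,-1]],126,[(6,[(1,.one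 [6])]),(9,[(1,.one [9])]),(12,[(1,.one [12])]),(15,[(1,.one [15])]),(18,[(1,.one [18])]),(24,[(1,.one [24])]),(27,[(1,.one [27])]),(30,[(1,.one [30])]),(33,[(1,.one [33])]),(36,[(1,.one [36])]),(39,[(1,.one [39])]),(45,[(1,.one [45])]),(48,[(1,.one [48])]),(51,[(1,.one [51])]),(54,[(1,.one [54])]),(57,[(1,.one [57])]),(60,[(1,.one [60])]),(8,[(1,.two [1] [8])]),(17,[(1,.two [1] [17])]),(26,[(1,.two [1] [26])]),(44,[(1,.two [1] [44])]),(53,[(1,.two [1] [53])]),(62,[(1,.two [1] [62])]),(10,[(1,.two [10] [8])]),(19,[(1,.two [19] [8])]),(37,[(1,.two [37] [8])]),(46,[(1,.two [46] [8])]),(55,[(1,.two [55] [8])]),(16,[(1,.two [2] [16])]),(25,[(1,.two [2] [25])]),(34,[(1,.two [2] [34])]),(43,[(1,.two [2] [43])]),(52,[(1,.two [2] [52])]),(61,[(1,.two [2] [61])]),(11,[(1,.two [11] [16])]),(20,[(1,.two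 [20] [16])]),(29,[(1,.two [29] [16])]),(38,[(1,.two [38] [16])]),(47,[(1,.two [47] [16])]),(56,[(1,.two [7] [56])]),(22,[(1,.hd 3 1)]),(23,[(1,.hd 3 2)]),(4,[(1,.hd 3 4)]),(5,[(1,.hd 3 5)]),(50,[(1,.hd 3 8)]),(31,[(1,.hd 3 10)]),(32,[(1,.hd 3 11)]),(13,[(1,.hd 3 13)]),(58,[(1,.hd 3 16)]),(59,[(1,.hd 3 17)]),(40,[(1,.hd 3 19)]),(41,[(1,.hd 3 20)]),(28,[(1,.hd 7 1)]),(14,[(1,.hd 7 2)]),(49,[(1,.hd 7 4)]),(35,[(1,.hd 7 5)]),(21,[(1,.hd 3 7)]),(42,[(1,.hd 3 14)])]⟩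

theorem k63_10 : chk 63 10 c63_10 = true := by decide +kernel

def c63_11 : Cert :=
  ⟨[1,11,58,8,25,23],[1,2,4,5,8,10,11,13,16,17,19,20,22,23,25,26,29,31,32,34,37,38,40,41,43,44,46,47,50,52,53,55,58,59,61,62],[1,2,3],[[],[1,0,0],[0,1,0],[0,0,1],[-1,-1,1],[-1,0,0],[0,0,1],[0,0,0],[1,0,0],[0,0,1],[0,-1,0],[1,0,0],[0,0,1],[0,-1,0],[0,0,0],[0,0,-1],[0,1,0],[0,-1,0],[0,0,1],[1,1,-1],[1,1,-1],[0,0,0],[0,1,0],[1,0,0],[0,0,1],[1,0,0],[1,1,-1],[0,0,-1],[0,0,0],[-1,-1,1],[0,0,-1],[1,1,-1],[-1,-1,1],[0,0,1],[1,1,-1],[0,0,0],[0,0,1],[-1,-1,1],[-1,0,0],[0,0,-1],[-1,0,0],[0,-1,0],[0,0,0],[-1,-1,1],[-1,-1,1],[0,0,-1],[0,1,0],[0,-1,0],[0,0,1],[0,0,0],[0,1,0],[0,0,-1],[-1,0,0],[0,1,0],[0,0,-1],[-1,0,0],[0,0,0],[0,0,-1],[1,0,0],[1,1,-1],[0,0,-1],[0,-1,0],[-1,0,0]],[7],[1,2,4],[[-1,1,0],[0,1,-1],[0,-1,0]],126,[(14,[(1,.one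 [14])]),(21,[(1,.one [21])]),(28,[(1,.one [28])]),(35,[(1,.one [35])]),(42,[(1,.one [42])]),(49,[(1,.one [49])]),(56,[(1,.one [56])]),(5,[(1,.two [1] [5])]),(38,[(1,.two [1] [38])]),(40,[(1,.two [1] [40])]),(52,[(1,.two [1] [52])]),(55,[(1,.two [1] [55])]),(62,[(1,.two [1] [62])]),(8,[(1,.two [8] [5])]),(11,[(1,.two [11] [5])]),(23,[(1,.two [23] [5])]),(25,[(1,.two [25] [5])]),(58,[(1,.two [58] [5])]),(10,[(1,.two [2] [10])]),(13,[(1,.two [2] [13])]),(17,[(1,.two [2] [17])]),(41,[(1,.two [2] [41])]),(47,[(1,.two [2] [47])]),(61,[(1,.two [2] [61])]),(16,[(1,.two [16] [10])]),(22,[(1,.two [22] [10])]),(46,[(1,.two [46] [10])]),(50,[(1,.two [50] [10])]),(53,[(1,.two [53] [10])]),(15,[(1,.two [3] [15])]),(27,[(1,.two [3] [27])]),(30,[(1,.two [3] [30])]),(39,[(1,.two [3] [39])]),(45,[(1,.two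 [3] [45])]),(51,[(1,.two [3] [51])]),(54,[(1,.two [3] [54])]),(57,[(1,.two [3] [57])]),(60,[(1,.two [3] [60])]),(6,[(1,.two [6] [15])]),(9,[(1,.two [9] [15])]),(12,[(1,.two [12] [15])]),(18,[(1,.two [18] [15])]),(24,[(1,.two [24] [15])]),(33,[(1,.two [33] [15])]),(36,[(1,.two [36] [15])]),(48,[(1,.two [48] [15])]),(4,[(1,.two [1] [2,4,57])]),(19,[(1,.two [1] [4,19,40])]),(32,[(1,.two [1] [15,16,32])]),(44,[(1,.two [1] [22,44,60])]),(29,[(1,.two [1] [29,46,51])]),(43,[(1,.two [1] [30,43,53])]),(31,[(1,.two [1] [31,43,52])]),(37,[(1,.two [1] [37,39,50])]),(26,[(1,.two [8] [5,26,32])]),(20,[(1,.two [8] [20,44,62])]),(59,[(1,.two [8] [29,38,59])]),(34,[(1,.two [8] [34,37,55])])]⟩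

theorem k63_11 : chk 63 11 c63_11 = true := by decide +kernel

def c63_13 : Cert :=
  ⟨[1,13,43,55,22,34],[1,2,4,5,8,10,11,13,16,17,19,20,22,23,25,26,29,31,32,34,37,38,40,41,43,44,46,47,50,52,53,55,58,59,61,62],[1,2,7],[[],[1,0,0],[0,1,0],[3,0,0],[-1,1,0],[0,1,0],[0,3,0],[0,0,1],[-1,0,0],[0,0,0],[-1,1,0],[1,-1,0],[-3,3,0],[1,0,0],[0,0,-1],[0,3,0],[0,-1,0],[1,-1,0],[0,0,0],[0,-1,0],[-1,0,0],[0,0,3],[1,0,0],[0,1,0],[-3,0,0],[-1,1,0],[0,1,0],[0,0,0],[0,0,1],[-1,0,0],[-3,3,0],[-1,1,0],[1,-1,0],[3,-3,0],[1,0,0],[0,0,-1],[0,0,0],[0,-1,0],[1,-1,0],[3,0,0],[0,-1,0],[-1,0,0],[0,0,-3],[1,0,0],[0,1,0],[0,0,0],[-1,1,0],[0,1,0],[0,-3,0],[0,0,1],[-1,0,0],[3,-3,0],[-1,1,0],[1,-1,0],[0,0,0],[1,0,0],[0,0,-1],[0,-3,0],[0,-1,0],[1,-1,0],[-3,0,0],[0,-1,0],[-1,0,0]],[9],[1,2,4],[[0,-1,-1],[-1,0,1],[-1,1,-1]],126,[(18,[(1,.one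 [18])]),(27,[(1,.one [27])]),(36,[(1,.one [36])]),(45,[(1,.one [45])]),(54,[(1,.one [54])]),(8,[(1,.two [1] [8])]),(20,[(1,.two [1] [20])]),(29,[(1,.two [1] [29])]),(41,[(1,.two [1] [41])]),(50,[(1,.two [1] [50])]),(62,[(1,.two [1] [62])]),(13,[(1,.two [13] [8])]),(22,[(1,.two [22] [8])]),(34,[(1,.two [34] [8])]),(43,[(1,.two [43] [8])]),(55,[(1,.two [55] [8])]),(16,[(1,.two [2] [16])]),(19,[(1,.two [2] [19])]),(37,[(1,.two [2] [37])]),(40,[(1,.two [2] [40])]),(58,[(1,.two [2] [58])]),(61,[(1,.two [2] [61])]),(5,[(1,.two [5] [16])]),(23,[(1,.two [23] [16])]),(26,[(1,.two [26] [16])]),(44,[(1,.two [44] [16])]),(47,[(1,.two [47] [16])]),(14,[(1,.two [7] [14])]),(35,[(1,.two [7] [35])]),(56,[(1,.two [7] [56])]),(28,[(1,.two [28] [14])]),(49,[(1,.two [49] [14])]),(21,[(1,.two [21] [14,14,35])]),(42,[(1,.two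 [7,7,49] [42])]),(4,[(1,.one [1,4,58])]),(46,[(1,.one [1,16,46])]),(25,[(1,.one [1,25,37])]),(53,[(1,.one [2,8,53])]),(11,[(1,.one [2,11,50])]),(32,[(1,.one [2,29,32])]),(17,[(1,.one [5,17,41])]),(38,[(1,.one [5,20,38])]),(59,[(1,.one [5,59,62])]),(10,[(1,.one [10,13,40])]),(31,[(1,.one [13,19,31])]),(52,[(1,.one [13,52,61])]),(60,[(1,.two [1,1,61] [1,2,60])]),(12,[(1,.two [1,1,61] [12,53,61])]),(51,[(1,.two [2,10,51] [2,62,62])]),(3,[(1,.two [3,19,41] [41,41,44])]),(33,[(1,.two [4,26,33] [26,50,50])]),(39,[(1,.two [8,16,39] [8,8,47])]),(24,[(1,.two [13,13,37] [13,24,26])]),(30,[(1,.two [13,13,37] [30,37,59])]),(57,[(1,.two [1,31,31] [1,5,57])]),(48,[(1,.two [4,4,55] [23,48,55])]),(6,[(1,.two [6,16,41] [11,11,41])]),(15,[(1,.two [8,15,40] [8,59,59])])]⟩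

theorem k63_13 : chk 63 13 c63_13 = true := by decide +kernel

def c63_17 : Cert :=
  ⟨[1,17,37,62,46,26],[1,2,4,5,8,10,11,13,16,17,19,20,22,23,25,26,29,31,32,34,37,38,40,41,43,44,46,47,50,52,53,55,58,59,61,62],[],[[],[],[],[],[],[],[],[],[],[],[],[],[],[],[],[],[],[],[],[],[],[],[],[],[],[],[],[],[],[],[],[],[],[],[],[],[],[],[],[],[],[],[],[],[],[],[],[],[],[],[],[],[],[],[],[],[],[],[],[],[],[],[]],[1],[],[],1,[(2,[(1,.one [2])]),(3,[(1,.one [3])]),(4,[(1,.one [4])]),(5,[(1,.one [5])]),(6,[(1,.one [6])]),(7,[(1,.one [7])]),(8,[(1,.one [8])]),(9,[(1,.one [9])]),(10,[(1,.one [10])]),(11,[(1,.one [11])]),(12,[(1,.one [12])]),(13,[(1,.one [13])]),(14,[(1,.one [14])]),(15,[(1,.one [15])]),(16,[(1,.one [16])]),(17,[(1,.one [17])]),(18,[(1,.one [18])]),(19,[(1,.one [19])]),(20,[(1,.one [20])]),(21,[(1,.one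 [21])]),(22,[(1,.one [22])]),(23,[(1,.one [23])]),(24,[(1,.one [24])]),(25,[(1,.one [25])]),(26,[(1,.one [26])]),(27,[(1,.one [27])]),(28,[(1,.one [28])]),(29,[(1,.one [29])]),(30,[(1,.one [30])]),(31,[(1,.one [31])]),(32,[(1,.one [32])]),(33,[(1,.one [33])]),(34,[(1,.one [34])]),(35,[(1,.one [35])]),(36,[(1,.one [36])]),(37,[(1,.one [37])]),(38,[(1,.one [38])]),(39,[(1,.one [39])]),(40,[(1,.one [40])]),(41,[(1,.one [41])]),(42,[(1,.one [42])]),(43,[(1,.one [43])]),(44,[(1,.one [44])]),(45,[(1,.one [45])]),(46,[(1,.one [46])]),(47,[(1,.one [47])]),(48,[(1,.one [48])]),(49,[(1,.one [49])]),(50,[(1,.one [50])]),(51,[(1,.one [51])]),(52,[(1,.one [52])]),(53,[(1,.one [53])]),(54,[(1,.one [54])]),(55,[(1,.one [55])]),(56,[(1,.one [56])]),(57,[(1,.one [57])]),(58,[(1,.one [58])]),(59,[(1,.one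 [59])]),(60,[(1,.one [60])]),(61,[(1,.one [61])]),(62,[(1,.one [62])])]⟩

theorem k63_17 : chk 63 17 c63_17 = true := by decide +kernel

def c63_20 : Cert :=
  ⟨[1,20,22,62,43,41],[1,2,4,5,8,10,11,13,16,17,19,20,22,23,25,26,29,31,32,34,37,38,40,41,43,44,46,47,50,52,53,55,58,59,61,62],[],[[],[],[],[],[],[],[],[],[],[],[],[],[],[],[],[],[],[],[],[],[],[],[],[],[],[],[],[],[],[],[],[],[],[],[],[],[],[],[],[],[],[],[],[],[],[],[],[],[],[],[],[],[],[],[],[],[],[],[],[],[],[],[]],[1],[],[],1,[(2,[(1,.one [2])]),(3,[(1,.one [3])]),(4,[(1,.one [4])]),(5,[(1,.one [5])]),(6,[(1,.one [6])]),(7,[(1,.one [7])]),(8,[(1,.one [8])]),(9,[(1,.one [9])]),(10,[(1,.one [10])]),(11,[(1,.one [11])]),(12,[(1,.one [12])]),(13,[(1,.one [13])]),(14,[(1,.one [14])]),(15,[(1,.one [15])]),(16,[(1,.one [16])]),(17,[(1,.one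 [17])]),(18,[(1,.one [18])]),(19,[(1,.one [19])]),(20,[(1,.one [20])]),(21,[(1,.one [21])]),(22,[(1,.one [22])]),(23,[(1,.one [23])]),(24,[(1,.one [24])]),(25,[(1,.one [25])]),(26,[(1,.one [26])]),(27,[(1,.one [27])]),(28,[(1,.one [28])]),(29,[(1,.one [29])]),(30,[(1,.one [30])]),(31,[(1,.one [31])]),(32,[(1,.one [32])]),(33,[(1,.one [33])]),(34,[(1,.one [34])]),(35,[(1,.one [35])]),(36,[(1,.one [36])]),(37,[(1,.one [37])]),(38,[(1,.one [38])]),(39,[(1,.one [39])]),(40,[(1,.one [40])]),(41,[(1,.one [41])]),(42,[(1,.one [42])]),(43,[(1,.one [43])]),(44,[(1,.one [44])]),(45,[(1,.one [45])]),(46,[(1,.one [46])]),(47,[(1,.one [47])]),(48,[(1,.one [48])]),(49,[(1,.one [49])]),(50,[(1,.one [50])]),(51,[(1,.one [51])]),(52,[(1,.one [52])]),(53,[(1,.one [53])]),(54,[(1,.one [54])]),(55,[(1,.one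 [55])]),(56,[(1,.one [56])]),(57,[(1,.one [57])]),(58,[(1,.one [58])]),(59,[(1,.one [59])]),(60,[(1,.one [60])]),(61,[(1,.one [61])]),(62,[(1,.one [62])])]⟩

theorem k63_20 : chk 63 20 c63_20 = true := by decide +kernel

def c63_22 : Cert :=
  ⟨[1,22,43],[1,2,4,5,8,10,11,13,16,17,19,20,22,23,25,26,29,31,32,34,37,38,40,41,43,44,46,47,50,52,53,55,58,59,61,62],[1,2,4,5,7,8],[[],[1,0,0,0,0,0],[0,1,0,0,0,0],[3,0,0,0,0,0],[0,0,1,0,0,0],[0,0,0,1,0,0],[0,3,0,0,0,0],[0,0,0,0,1,0],[0,0,0,0,0,1],[3,-3,3,0,0,0],[-1,1,-1,1,0,1],[1,-1,1,-1,0,-1],[0,0,3,0,0,0],[0,0,0,0,0,-1],[0,0,0,0,-1,0],[0,0,0,3,0,0],[0,0,0,-1,0,0],[0,0,-1,0,0,0],[0,3,-3,0,0,3],[0,-1,0,0,0,0],[-1,0,0,0,0,0],[0,0,0,0,3,0],[1,0,0,0,0,0],[0,1,0,0,0,0],[0,0,0,0,0,3],[0,0,1,0,0,0],[0,0,0,1,0,0],[0,0,-3,3,0,3],[0,0,0,0,1,0],[0,0,0,0,0,1]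,[-3,3,-3,3,0,3],[-1,1,-1,1,0,1],[1,-1,1,-1,0,-1],[3,-3,3,-3,0,-3],[0,0,0,0,0,-1],[0,0,0,0,-1,0],[0,0,3,-3,0,-3],[0,0,0,-1,0,0],[0,0,-1,0,0,0],[0,0,0,0,0,-3],[0,-1,0,0,0,0],[-1,0,0,0,0,0],[0,0,0,0,-3,0],[1,0,0,0,0,0],[0,1,0,0,0,0],[0,-3,3,0,0,-3],[0,0,1,0,0,0],[0,0,0,1,0,0],[0,0,0,-3,0,0],[0,0,0,0,1,0],[0,0,0,0,0,1],[0,0,-3,0,0,0],[-1,1,-1,1,0,1],[1,-1,1,-1,0,-1],[-3,3,-3,0,0,0],[0,0,0,0,0,-1],[0,0,0,0,-1,0],[0,-3,0,0,0,0],[0,0,0,-1,0,0],[0,0,-1,0,0,0],[-3,0,0,0,0,0],[0,-1,0,0,0,0],[-1,0,0,0,0,0]],[],[1,2,4,5,8,10],[[-1,-1,0,0,-1,-1],[0,1,-1,-1,1,2],[0,-2,1,2,0,-1],[-1,1,1,-1,0,0],[-1,1,-1,1,1,-1],[-1,2,0,-1,-1,1]],126,[(20,[(1,.two [1] [20])]),(41,[(1,.two [1] [41])]),(62,[(1,.two [1] [62])]),(22,[(1,.two [22] [20])]),(43,[(1,.two [43] [20])]),(19,[(1,.two [2] [19])]),(40,[(1,.two [2] [40])]),(61,[(1,.two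 [2] [61])]),(23,[(1,.two [23] [19])]),(44,[(1,.two [44] [19])]),(17,[(1,.two [4] [17])]),(38,[(1,.two [4] [38])]),(59,[(1,.two [4] [59])]),(25,[(1,.two [25] [17])]),(46,[(1,.two [46] [17])]),(16,[(1,.two [5] [16])]),(37,[(1,.two [5] [37])]),(58,[(1,.two [5] [58])]),(26,[(1,.two [26] [16])]),(47,[(1,.two [47] [16])]),(14,[(1,.two [7] [14])]),(35,[(1,.two [7] [35])]),(56,[(1,.two [7] [56])]),(28,[(1,.two [28] [14])]),(49,[(1,.two [49] [14])]),(13,[(1,.two [8] [13])]),(34,[(1,.two [8] [34])]),(55,[(1,.two [8] [55])]),(29,[(1,.two [29] [13])]),(50,[(1,.two [50] [13])]),(21,[(1,.two [21] [14,14,35])]),(42,[(1,.two [7,7,49] [42])]),(60,[(1,.two [1,1,61] [1,2,60])]),(3,[(1,.two [3,19,41] [41,41,44])]),(57,[(1,.two [2,2,59] [2,4,57])]),(6,[(1,.two [6,17,40] [40,40,46])]),(51,[(1,.two [4,4,55] [4,8,51])]),(12,[(1,.two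 [12,13,38] [38,38,50])]),(24,[(1,.two [5,24,34] [34,34,58])]),(39,[(1,.two [5,29,29] [29,39,58])]),(15,[(1,.hd 3 5)]),(48,[(1,.hd 3 16)]),(54,[(1,.two [3,3,57] [12,54,60])]),(9,[(1,.two [3,9,51] [6,60,60])]),(45,[(1,.two [6,6,51] [24,45,57])]),(18,[(1,.two [6,18,39] [12,57,57])]),(30,[(1,.two [3,15,45] [30,48,48])]),(33,[(1,.two [15,15,33] [18,48,60])]),(36,[(1,.two [3,30,30] [33,36,57])]),(27,[(1,.two [6,27,30] [33,33,60])]),(10,[(1,.two [1,4,58] [10,13,40])]),(31,[(1,.two [1,4,58] [13,19,31])]),(52,[(1,.two [1,4,58] [13,52,61])]),(53,[(1,.two [2,8,53] [5,17,41])]),(11,[(1,.two [2,11,50] [5,17,41])]),(32,[(1,.two [2,29,32] [5,17,41])])]⟩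

theorem k63_22 : chk 63 22 c63_22 = true := by decide +kernel

def c63_25 : Cert :=
  ⟨[1,25,58],[1,2,4,5,8,10,11,13,16,17,19,20,22,23,25,26,29,31,32,34,37,38,40,41,43,44,46,47,50,52,53,55,58,59,61,62],[1,2,3,4,7,8],[[],[1,0,0,0,0,0],[0,1,0,0,0,0],[0,0,1,0,0,0],[0,0,0,1,0,0],[-1,0,0,0,0,0],[0,0,1,0,0,0],[0,0,0,0,1,0],[0,0,0,0,0,1],[0,0,1,0,0,0],[0,-1,0,0,0,0],[0,0,0,0,0,1],[0,0,1,0,0,0],[0,-1,0,0,0,0],[0,0,0,0,-1,0],[0,0,-1,0,0,0],[-1,0,1,-1,0,0],[1,0,-1,1,0,0],[0,0,1,0,0,0],[0,1,-1,0,0,1],[0,0,0,-1,0,0],[0,0,0,0,3,0],[-1,0,1,-1,0,0],[0,0,0,0,0,1],[0,0,1,0,0,0],[1,0,0,0,0,0],[0,0,0,-1,0,0],[0,0,-1,0,0,0],[0,0,0,0,1,0],[0,-1,1,0,0,-1],[0,0,-1,0,0,0],[0,1,-1,0,0,1],[0,-1,1,0,0,-1],[0,0,1,0,0,0],[0,1,-1,0,0,1],[0,0,0,0,-1,0],[0,0,1,0,0,0],[0,0,0,1,0,0],[-1,0,0,0,0,0],[0,0,-1,0,0,0],[0,0,0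,0,0,-1],[1,0,-1,1,0,0],[0,0,0,0,-3,0],[0,0,0,1,0,0],[0,-1,1,0,0,-1],[0,0,-1,0,0,0],[-1,0,1,-1,0,0],[1,0,-1,1,0,0],[0,0,1,0,0,0],[0,0,0,0,1,0],[0,1,0,0,0,0],[0,0,-1,0,0,0],[0,0,0,0,0,-1],[0,1,0,0,0,0],[0,0,-1,0,0,0],[0,0,0,0,0,-1],[0,0,0,0,-1,0],[0,0,-1,0,0,0],[1,0,0,0,0,0],[0,0,0,-1,0,0],[0,0,-1,0,0,0],[0,-1,0,0,0,0],[-1,0,0,0,0,0]],[],[1,2,4,8,16,19],[[0,0,0,-1,0,-1],[0,0,-1,0,1,0],[0,0,0,0,-1,1],[0,-1,0,0,0,-1],[-1,1,-1,1,-1,-1],[-1,0,0,0,1,0]],126,[(5,[(1,.two [1] [5])]),(38,[(1,.two [1] [38])]),(62,[(1,.two [1] [62])]),(25,[(1,.two [25] [5])]),(58,[(1,.two [58] [5])]),(15,[(1,.two [3] [15])]),(27,[(1,.two [3] [27])]),(30,[(1,.two [3] [30])]),(39,[(1,.two [3] [39])]),(45,[(1,.two [3] [45])]),(51,[(1,.two [3] [51])]),(54,[(1,.two [3] [54])]),(57,[(1,.two [3] [57])]),(60,[(1,.two [3] [60])]),(6,[(1,.two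 [6] [15])]),(9,[(1,.two [9] [15])]),(12,[(1,.two [12] [15])]),(18,[(1,.two [18] [15])]),(24,[(1,.two [24] [15])]),(33,[(1,.two [33] [15])]),(36,[(1,.two [36] [15])]),(48,[(1,.two [48] [15])]),(20,[(1,.two [4] [20])]),(26,[(1,.two [4] [26])]),(59,[(1,.two [4] [59])]),(37,[(1,.two [37] [20])]),(43,[(1,.two [43] [20])]),(14,[(1,.two [7] [14])]),(35,[(1,.two [7] [35])]),(56,[(1,.two [7] [56])]),(28,[(1,.two [28] [14])]),(49,[(1,.two [49] [14])]),(40,[(1,.two [8] [40])]),(52,[(1,.two [8] [52])]),(55,[(1,.two [8] [55])]),(11,[(1,.two [11] [40])]),(23,[(1,.two [23] [40])]),(10,[(1,.two [10] [2])]),(50,[(1,.two [10] [50])]),(53,[(1,.two [10] [53])]),(13,[(1,.two [13] [2])]),(61,[(1,.two [61] [2])]),(21,[(1,.two [21] [14,14,35])]),(42,[(1,.two [7,7,49] [42])]),(22,[(1,.hd 3 1)]),(44,[(1,.hd 3 2)]),(46,[(1,.hd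 3 4)]),(47,[(1,.hd 3 5)]),(29,[(1,.hd 3 8)]),(31,[(1,.hd 3 10)]),(32,[(1,.hd 3 11)]),(34,[(1,.hd 3 13)]),(16,[(1,.hd 3 16)]),(17,[(1,.hd 3 17)]),(19,[(1,.hd 3 19)]),(41,[(1,.hd 3 20)])]⟩

theorem k63_25 : chk 63 25 c63_25 = true := by decide +kernel

def c63_29 : Cert :=
  ⟨[1,29,22,8,43,50],[1,2,4,5,8,10,11,13,16,17,19,20,22,23,25,26,29,31,32,34,37,38,40,41,43,44,46,47,50,52,53,55,58,59,61,62],[1,2,4],[[],[1,0,0],[0,1,0],[3,0,0],[0,0,1],[0,-1,0],[0,3,0],[0,0,0],[1,0,0],[3,-3,3],[0,0,-1],[0,0,1],[0,0,3],[-1,0,0],[0,0,0],[0,-3,0],[0,1,0],[0,0,-1],[3,3,-3],[0,-1,0],[-1,0,0],[0,0,0],[1,0,0],[0,1,0],[3,0,0],[0,0,1],[0,-1,0],[3,-3,-3],[0,0,0],[1,0,0],[0,0,-3],[0,0,-1],[0,0,1],[0,0,3],[-1,0,0],[0,0,0],[-3,3,3],[0,1,0],[0,0,-1],[-3,0,0],[0,-1,0],[-1,0,0],[0,0,0],[1,0,0],[0,1,0],[-3,-3,3],[0,0,1],[0,-1,0],[0,3,0],[0,0,0],[1,0,0],[0,0,-3],[0,0,-1],[0,0,1],[-3,3,-3],[-1,0,0],[0,0,0],[0,-3,0],[0,1,0],[0,0,-1],[-3,0,0],[0,-1,0],[-1,0,0]],[7],[1,2,4],[[-2,1,0],[1,0,-2],[0,-2,1]],126,[(14,[(1,.one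 [14])]),(21,[(1,.one [21])]),(28,[(1,.one [28])]),(35,[(1,.one [35])]),(42,[(1,.one [42])]),(49,[(1,.one [49])]),(56,[(1,.one [56])]),(13,[(1,.two [1] [13])]),(20,[(1,.two [1] [20])]),(34,[(1,.two [1] [34])]),(41,[(1,.two [1] [41])]),(55,[(1,.two [1] [55])]),(62,[(1,.two [1] [62])]),(8,[(1,.two [8] [13])]),(22,[(1,.two [22] [13])]),(29,[(1,.two [29] [13])]),(43,[(1,.two [43] [13])]),(50,[(1,.two [50] [13])]),(5,[(1,.two [2] [5])]),(19,[(1,.two [2] [19])]),(26,[(1,.two [2] [26])]),(40,[(1,.two [2] [40])]),(47,[(1,.two [2] [47])]),(61,[(1,.two [2] [61])]),(16,[(1,.two [16] [5])]),(23,[(1,.two [23] [5])]),(37,[(1,.two [37] [5])]),(44,[(1,.two [44] [5])]),(58,[(1,.two [58] [5])]),(10,[(1,.two [4] [10])]),(17,[(1,.two [4] [17])]),(31,[(1,.two [4] [31])]),(38,[(1,.two [4] [38])]),(52,[(1,.two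 [4] [52])]),(59,[(1,.two [4] [59])]),(11,[(1,.two [11] [10])]),(25,[(1,.two [25] [10])]),(32,[(1,.two [32] [10])]),(46,[(1,.two [46] [10])]),(53,[(1,.two [53] [10])]),(60,[(1,.two [1,1,61] [1,2,60])]),(39,[(1,.two [1,1,61] [1,23,39])]),(3,[(1,.two [3,5,55] [16,55,55])]),(24,[(1,.two [5,24,34] [34,34,58])]),(57,[(1,.two [2,2,59] [2,4,57])]),(15,[(1,.two [2,2,59] [2,15,46])]),(6,[(1,.two [5,6,52] [5,5,53])]),(48,[(1,.two [5,10,48] [5,5,53])]),(51,[(1,.two [4,4,55] [4,8,51])]),(30,[(1,.two [4,4,55] [4,29,30])]),(12,[(1,.two [10,12,41] [10,10,43])]),(33,[(1,.two [10,20,33] [10,10,43])]),(54,[(1,.two [3,3,57] [12,54,60])]),(36,[(1,.two [3,3,57] [30,36,60])]),(9,[(1,.two [3,9,51] [6,60,60])]),(27,[(1,.two [3,27,33] [6,60,60])]),(45,[(1,.two [3,6,54] [3,15,45])]),(18,[(1,.two [6,18,39] [9,15,39])])]⟩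

theorem k63_29 : chk 63 29 c63_29 = true := by decide +kernel

def c63_31 : Cert :=
  ⟨[1,31,16,55,4,61],[1,2,4,5,8,10,11,13,16,17,19,20,22,23,25,26,29,31,32,34,37,38,40,41,43,44,46,47,50,52,53,55,58,59,61,62],[1,5,7],[[],[1,0,0],[-1,0,0],[0,0,0],[1,0,0],[0,1,0],[0,0,0],[0,0,1],[-1,0,0],[0,0,0],[0,-1,0],[1,-1,0],[0,0,0],[-1,1,0],[0,0,-1],[0,0,0],[1,0,0],[0,1,0],[0,0,0],[-1,1,0],[0,1,0],[0,0,3],[-1,1,0],[0,1,0],[0,0,0],[-1,1,0],[1,-1,0],[0,0,0],[0,0,1],[0,1,0],[0,0,0],[1,0,0],[-1,0,0],[0,0,0],[0,-1,0],[0,0,-1],[0,0,0],[-1,1,0],[1,-1,0],[0,0,0],[0,-1,0],[1,-1,0],[0,0,-3],[0,-1,0],[1,-1,0],[0,0,0],[0,-1,0],[-1,0,0],[0,0,0],[0,0,1],[1,-1,0],[0,0,0],[-1,1,0],[0,1,0],[0,0,0],[1,0,0],[0,0,-1],[0,0,0],[0,-1,0],[-1,0,0],[0,0,0],[1,0,0],[-1,0,0]],[3],[1,5,11],[[0,-1,1],[-1,0,-1],[-1,1,1]],126,[(6,[(1,.one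 [6])]),(9,[(1,.one [9])]),(12,[(1,.one [12])]),(15,[(1,.one [15])]),(18,[(1,.one [18])]),(24,[(1,.one [24])]),(27,[(1,.one [27])]),(30,[(1,.one [30])]),(33,[(1,.one [33])]),(36,[(1,.one [36])]),(39,[(1,.one [39])]),(45,[(1,.one [45])]),(48,[(1,.one [48])]),(51,[(1,.one [51])]),(54,[(1,.one [54])]),(57,[(1,.one [57])]),(60,[(1,.one [60])]),(2,[(1,.two [1] [2])]),(8,[(1,.two [1] [8])]),(32,[(1,.two [1] [32])]),(47,[(1,.two [1] [47])]),(59,[(1,.two [1] [59])]),(62,[(1,.two [1] [62])]),(4,[(1,.two [4] [2])]),(16,[(1,.two [16] [2])]),(31,[(1,.two [31] [2])]),(55,[(1,.two [55] [2])]),(61,[(1,.two [61] [2])]),(10,[(1,.two [5] [10])]),(34,[(1,.two [5] [34])]),(40,[(1,.two [5] [40])]),(43,[(1,.two [5] [43])]),(46,[(1,.two [5] [46])]),(58,[(1,.two [5] [58])]),(17,[(1,.two [17] [10])]),(20,[(1,.two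 [20] [10])]),(23,[(1,.two [23] [10])]),(29,[(1,.two [29] [10])]),(53,[(1,.two [53] [10])]),(14,[(1,.two [7] [14])]),(35,[(1,.two [7] [35])]),(56,[(1,.two [7] [56])]),(28,[(1,.two [28] [14])]),(49,[(1,.two [49] [14])]),(21,[(1,.two [21] [14,14,35])]),(42,[(1,.two [7,7,49] [42])]),(52,[(1,.one [1,10,52])]),(19,[(1,.one [1,19,43])]),(22,[(1,.one [1,22,40])]),(44,[(1,.one [2,17,44])]),(41,[(1,.one [2,20,41])]),(38,[(1,.one [2,23,38])]),(13,[(1,.one [4,13,46])]),(25,[(1,.one [4,25,34])]),(50,[(1,.one [5,8,50])]),(11,[(1,.one [5,11,47])]),(26,[(1,.one [5,26,32])]),(37,[(1,.one [10,16,37])])]⟩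

theorem k63_31 : chk 63 31 c63_31 = true := by decide +kernel

def c63_37 : Cert :=
  ⟨[1,37,46],[1,2,4,5,8,10,11,13,16,17,19,20,22,23,25,26,29,31,32,34,37,38,40,41,43,44,46,47,50,52,53,55,58,59,61,62],[1,2,3,4,7,8],[[],[1,0,0,0,0,0],[0,1,0,0,0,0],[0,0,1,0,0,0],[0,0,0,1,0,0],[0,0,0,-1,0,0],[0,0,1,0,0,0],[0,0,0,0,1,0],[0,0,0,0,0,1],[0,0,1,0,0,0],[0,0,0,0,0,-1],[0,1,0,0,0,0],[0,0,1,0,0,0],[0,1,-1,0,0,1],[3,3,-3,3,-1,0],[0,0,-1,0,0,0],[-1,0,1,-1,0,0],[-1,0,0,0,0,0],[0,0,1,0,0,0],[0,0,0,0,0,-1],[1,0,-1,1,0,0],[-6,-3,3,-3,3,3],[0,0,0,1,0,0],[0,-1,1,0,0,-1],[0,0,1,0,0,0],[-1,0,1,-1,0,0],[-1,0,0,0,0,0],[0,0,-1,0,0,0],[-3,0,0,0,1,3],[0,1,0,0,0,0],[0,0,-1,0,0,0],[0,1,-1,0,0,1],[0,-1,1,0,0,-1],[0,0,1,0,0,0],[0,-1,0,0,0,0],[3,0,0,0,-1,-3],[0,0,1,0,0,0],[1,0,0,0,0,0],[1,0,-1,1,0,0],[0,0,-1,0,0,0],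[0,1,-1,0,0,1],[0,0,0,-1,0,0],[6,3,-3,3,-3,-3],[-1,0,1,-1,0,0],[0,0,0,0,0,1],[0,0,-1,0,0,0],[1,0,0,0,0,0],[1,0,-1,1,0,0],[0,0,1,0,0,0],[-3,-3,3,-3,1,0],[0,-1,1,0,0,-1],[0,0,-1,0,0,0],[0,-1,0,0,0,0],[0,0,0,0,0,1],[0,0,-1,0,0,0],[0,0,0,0,0,-1],[0,0,0,0,-1,0],[0,0,-1,0,0,0],[0,0,0,1,0,0],[0,0,0,-1,0,0],[0,0,-1,0,0,0],[0,-1,0,0,0,0],[-1,0,0,0,0,0]],[],[1,2,4,8,13,16],[[2,-3,2,-1,2,2],[0,-1,2,-1,1,1],[-1,1,-2,0,-1,-1],[1,-1,1,0,2,1],[-1,1,-1,1,-1,-1],[-1,1,0,1,-1,-2]],126,[(17,[(1,.two [1] [17])]),(26,[(1,.two [1] [26])]),(62,[(1,.two [1] [62])]),(37,[(1,.two [37] [17])]),(46,[(1,.two [46] [17])]),(34,[(1,.two [2] [34])]),(52,[(1,.two [2] [52])]),(61,[(1,.two [2] [61])]),(11,[(1,.two [11] [34])]),(29,[(1,.two [29] [34])]),(15,[(1,.two [3] [15])]),(27,[(1,.two [3] [27])]),(30,[(1,.two [3] [30])]),(39,[(1,.two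 [3] [39])]),(45,[(1,.two [3] [45])]),(51,[(1,.two [3] [51])]),(54,[(1,.two [3] [54])]),(57,[(1,.two [3] [57])]),(60,[(1,.two [3] [60])]),(6,[(1,.two [6] [15])]),(9,[(1,.two [9] [15])]),(12,[(1,.two [12] [15])]),(18,[(1,.two [18] [15])]),(24,[(1,.two [24] [15])]),(33,[(1,.two [33] [15])]),(36,[(1,.two [36] [15])]),(48,[(1,.two [48] [15])]),(5,[(1,.two [4] [5])]),(41,[(1,.two [4] [41])]),(59,[(1,.two [4] [59])]),(22,[(1,.two [22] [5])]),(58,[(1,.two [58] [5])]),(56,[(1,.two [7] [56])]),(10,[(1,.two [10] [8])]),(44,[(1,.two [10] [44])]),(53,[(1,.two [10] [53])]),(19,[(1,.two [19] [8])]),(55,[(1,.two [55] [8])]),(43,[(1,.hd 3 1)]),(23,[(1,.hd 3 2)]),(25,[(1,.hd 3 4)]),(47,[(1,.hd 3 5)]),(50,[(1,.hd 3 8)]),(31,[(1,.hd 3 10)]),(32,[(1,.hd 3 11)]),(13,[(1,.hd 3 13)]),(16,[(1,.hd 3 16)]),(38,[(1,.hd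 3 17)]),(40,[(1,.hd 3 19)]),(20,[(1,.hd 3 20)]),(28,[(1,.hd 7 1)]),(14,[(1,.hd 7 2)]),(49,[(1,.hd 7 4)]),(35,[(1,.hd 7 5)]),(21,[(1,.hd 3 7)]),(42,[(1,.hd 3 14)])]⟩

theorem k63_37 : chk 63 37 c63_37 = true := by decide +kernel

def c63_40 : Cert :=
  ⟨[1,40,25,55,58,52],[1,2,4,5,8,10,11,13,16,17,19,20,22,23,25,26,29,31,32,34,37,38,40,41,43,44,46,47,50,52,53,55,58,59,61,62],[1,2,7],[[],[1,0,0],[0,1,0],[0,0,0],[-1,1,0],[-1,0,0],[0,0,0],[0,0,1],[-1,0,0],[0,0,0],[0,-1,0],[-1,0,0],[0,0,0],[0,-1,0],[0,0,-1],[0,0,0],[0,-1,0],[0,1,0],[0,0,0],[-1,1,0],[1,-1,0],[0,0,3],[0,-1,0],[-1,0,0],[0,0,0],[1,0,0],[1,-1,0],[0,0,0],[0,0,1],[1,-1,0],[0,0,0],[-1,1,0],[1,-1,0],[0,0,0],[-1,1,0],[0,0,-1],[0,0,0],[-1,1,0],[-1,0,0],[0,0,0],[1,0,0],[0,1,0],[0,0,-3],[-1,1,0],[1,-1,0],[0,0,0],[0,-1,0],[0,1,0],[0,0,0],[0,0,1],[0,1,0],[0,0,0],[1,0,0],[0,1,0],[0,0,0],[1,0,0],[0,0,-1],[0,0,0],[1,0,0],[1,-1,0],[0,0,0],[0,-1,0],[-1,0,0]],[3],[1,2,4],[[1,1,0],[0,-1,-1],[-1,1,-1]],126,[(6,[(1,.one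 [6])]),(9,[(1,.one [9])]),(12,[(1,.one [12])]),(15,[(1,.one [15])]),(18,[(1,.one [18])]),(24,[(1,.one [24])]),(27,[(1,.one [27])]),(30,[(1,.one [30])]),(33,[(1,.one [33])]),(36,[(1,.one [36])]),(39,[(1,.one [39])]),(45,[(1,.one [45])]),(48,[(1,.one [48])]),(51,[(1,.one [51])]),(54,[(1,.one [54])]),(57,[(1,.one [57])]),(60,[(1,.one [60])]),(5,[(1,.two [5] [1])]),(25,[(1,.two [5] [25])]),(40,[(1,.two [5] [40])]),(52,[(1,.two [5] [52])]),(55,[(1,.two [5] [55])]),(58,[(1,.two [5] [58])]),(8,[(1,.two [8] [1])]),(11,[(1,.two [11] [1])]),(23,[(1,.two [23] [1])]),(38,[(1,.two [38] [1])]),(62,[(1,.two [62] [1])]),(14,[(1,.two [7] [14])]),(35,[(1,.two [7] [35])]),(56,[(1,.two [7] [56])]),(28,[(1,.two [28] [14])]),(49,[(1,.two [49] [14])]),(10,[(1,.two [10] [2])]),(17,[(1,.two [10] [17])]),(41,[(1,.two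 [10] [41])]),(47,[(1,.two [10] [47])]),(50,[(1,.two [10] [50])]),(53,[(1,.two [10] [53])]),(13,[(1,.two [13] [2])]),(16,[(1,.two [16] [2])]),(22,[(1,.two [22] [2])]),(46,[(1,.two [46] [2])]),(61,[(1,.two [61] [2])]),(21,[(1,.two [21] [14,14,35])]),(42,[(1,.two [7,7,49] [42])]),(43,[(1,.hd 3 1)]),(44,[(1,.hd 3 2)]),(4,[(1,.hd 3 4)]),(26,[(1,.hd 3 5)]),(29,[(1,.hd 3 8)]),(31,[(1,.hd 3 10)]),(32,[(1,.hd 3 11)]),(34,[(1,.hd 3 13)]),(37,[(1,.hd 3 16)]),(59,[(1,.hd 3 17)]),(19,[(1,.hd 3 19)]),(20,[(1,.hd 3 20)])]⟩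

theorem k63_40 : chk 63 40 c63_40 = true := by decide +kernel

def c63_44 : Cert :=
  ⟨[1,44,46,8,37,53],[1,2,4,5,8,10,11,13,16,17,19,20,22,23,25,26,29,31,32,34,37,38,40,41,43,44,46,47,50,52,53,55,58,59,61,62],[1,2,3],[[],[1,0,0],[0,1,0],[0,0,1],[-1,-1,1],[1,1,-1],[0,0,1],[0,0,0],[1,0,0],[0,0,1],[-1,0,0],[0,1,0],[0,0,1],[1,1,-1],[0,0,0],[0,0,-1],[0,1,0],[-1,0,0],[0,0,1],[-1,0,0],[0,-1,0],[0,0,0],[-1,-1,1],[-1,-1,1],[0,0,1],[0,1,0],[-1,0,0],[0,0,-1],[0,0,0],[0,1,0],[0,0,-1],[1,1,-1],[-1,-1,1],[0,0,1],[0,-1,0],[0,0,0],[0,0,1],[1,0,0],[0,-1,0],[0,0,-1],[1,1,-1],[1,1,-1],[0,0,0],[0,1,0],[1,0,0],[0,0,-1],[1,0,0],[0,-1,0],[0,0,1],[0,0,0],[-1,-1,1],[0,0,-1],[0,-1,0],[1,0,0],[0,0,-1],[-1,0,0],[0,0,0],[0,0,-1],[-1,-1,1],[1,1,-1],[0,0,-1],[0,-1,0],[-1,0,0]],[7],[1,2,4],[[0,-1,1],[-1,0,1],[0,0,-1]],126,[(14,[(1,.one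 [14])]),(21,[(1,.one [21])]),(28,[(1,.one [28])]),(35,[(1,.one [35])]),(42,[(1,.one [42])]),(49,[(1,.one [49])]),(56,[(1,.one [56])]),(10,[(1,.two [1] [10])]),(17,[(1,.two [1] [17])]),(19,[(1,.two [1] [19])]),(26,[(1,.two [1] [26])]),(55,[(1,.two [1] [55])]),(62,[(1,.two [1] [62])]),(8,[(1,.two [8] [10])]),(37,[(1,.two [37] [10])]),(44,[(1,.two [44] [10])]),(46,[(1,.two [46] [10])]),(53,[(1,.two [53] [10])]),(20,[(1,.two [2] [20])]),(34,[(1,.two [2] [34])]),(38,[(1,.two [2] [38])]),(47,[(1,.two [2] [47])]),(52,[(1,.two [2] [52])]),(61,[(1,.two [2] [61])]),(11,[(1,.two [11] [20])]),(16,[(1,.two [16] [20])]),(25,[(1,.two [25] [20])]),(29,[(1,.two [29] [20])]),(43,[(1,.two [43] [20])]),(15,[(1,.two [3] [15])]),(27,[(1,.two [3] [27])]),(30,[(1,.two [3] [30])]),(39,[(1,.two [3] [39])]),(45,[(1,.two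 [3] [45])]),(51,[(1,.two [3] [51])]),(54,[(1,.two [3] [54])]),(57,[(1,.two [3] [57])]),(60,[(1,.two [3] [60])]),(6,[(1,.two [6] [15])]),(9,[(1,.two [9] [15])]),(12,[(1,.two [12] [15])]),(18,[(1,.two [18] [15])]),(24,[(1,.two [24] [15])]),(33,[(1,.two [33] [15])]),(36,[(1,.two [36] [15])]),(48,[(1,.two [48] [15])]),(4,[(1,.two [1] [2,4,57])]),(22,[(1,.two [1] [2,22,39])]),(40,[(1,.two [1] [4,19,40])]),(31,[(1,.two [1] [10,22,31])]),(58,[(1,.two [1] [11,57,58])]),(13,[(1,.two [1] [13,55,58])]),(32,[(1,.two [1] [15,16,32])]),(23,[(1,.two [1] [15,23,25])]),(50,[(1,.two [1] [16,50,60])]),(59,[(1,.two [1] [17,50,59])]),(41,[(1,.two [1] [23,41,62])]),(5,[(1,.two [8] [5,26,32])])]⟩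

theorem k63_44 : chk 63 44 c63_44 = true := by decide +kernel

def c63_47 : Cert :=
  ⟨[1,47,4,62,16,59],[1,2,4,5,8,10,11,13,16,17,19,20,22,23,25,26,29,31,32,34,37,38,40,41,43,44,46,47,50,52,53,55,58,59,61,62],[],[[],[],[],[],[],[],[],[],[],[],[],[],[],[],[],[],[],[],[],[],[],[],[],[],[],[],[],[],[],[],[],[],[],[],[],[],[],[],[],[],[],[],[],[],[],[],[],[],[],[],[],[],[],[],[],[],[],[],[],[],[],[],[]],[1],[],[],1,[(2,[(1,.one [2])]),(3,[(1,.one [3])]),(4,[(1,.one [4])]),(5,[(1,.one [5])]),(6,[(1,.one [6])]),(7,[(1,.one [7])]),(8,[(1,.one [8])]),(9,[(1,.one [9])]),(10,[(1,.one [10])]),(11,[(1,.one [11])]),(12,[(1,.one [12])]),(13,[(1,.one [13])]),(14,[(1,.one [14])]),(15,[(1,.one [15])]),(16,[(1,.one [16])]),(17,[(1,.one [17])]),(18,[(1,.one [18])]),(19,[(1,.one [19])]),(20,[(1,.one [20])]),(21,[(1,.one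 [21])]),(22,[(1,.one [22])]),(23,[(1,.one [23])]),(24,[(1,.one [24])]),(25,[(1,.one [25])]),(26,[(1,.one [26])]),(27,[(1,.one [27])]),(28,[(1,.one [28])]),(29,[(1,.one [29])]),(30,[(1,.one [30])]),(31,[(1,.one [31])]),(32,[(1,.one [32])]),(33,[(1,.one [33])]),(34,[(1,.one [34])]),(35,[(1,.one [35])]),(36,[(1,.one [36])]),(37,[(1,.one [37])]),(38,[(1,.one [38])]),(39,[(1,.one [39])]),(40,[(1,.one [40])]),(41,[(1,.one [41])]),(42,[(1,.one [42])]),(43,[(1,.one [43])]),(44,[(1,.one [44])]),(45,[(1,.one [45])]),(46,[(1,.one [46])]),(47,[(1,.one [47])]),(48,[(1,.one [48])]),(49,[(1,.one [49])]),(50,[(1,.one [50])]),(51,[(1,.one [51])]),(52,[(1,.one [52])]),(53,[(1,.one [53])]),(54,[(1,.one [54])]),(55,[(1,.one [55])]),(56,[(1,.one [56])]),(57,[(1,.one [57])]),(58,[(1,.one [58])]),(59,[(1,.one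 [59])]),(60,[(1,.one [60])]),(61,[(1,.one [61])]),(62,[(1,.one [62])])]⟩

theorem k63_47 : chk 63 47 c63_47 = true := by decide +kernel

def c63_55 : Cert :=
  ⟨[1,55],[1,2,4,5,8,10,11,13,16,17,19,20,22,23,25,26,29,31,32,34,37,38,40,41,43,44,46,47,50,52,53,55,58,59,61,62],[1,2,3,4,5,6,7,10,13],[[],[1,0,0,0,0,0,0,0,0],[0,1,0,0,0,0,0,0,0],[0,0,1,0,0,0,0,0,0],[0,0,0,1,0,0,0,0,0],[0,0,0,0,1,0,0,0,0],[0,0,0,0,0,1,0,0,0],[0,0,0,0,0,0,1,0,0],[-1,0,0,0,0,0,0,0,0],[0,0,0,0,0,0,0,0,0],[0,0,0,0,0,0,0,1,0],[0,0,1,1,0,-1,0,1,0],[0,0,-1,0,0,1,0,0,0],[0,0,0,0,0,0,0,0,1],[2,2,0,2,0,-2,-1,2,2],[0,0,0,0,0,1,0,0,0],[0,-1,0,0,0,0,0,0,0],[0,0,0,0,0,0,0,-1,0],[0,0,0,0,0,0,0,0,0],[0,1,0,0,1,-1,0,0,0],[1,0,-1,0,0,0,0,0,1],[-4,-4,0,-2,-2,4,3,-4,-2],[0,0,0,0,0,0,0,0,1],[0,0,0,0,1,0,0,0,0],[0,0,-1,0,0,0,0,0,0],[0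,0,-1,-1,0,1,0,-1,0],[0,-1,0,0,-1,1,0,0,0],[0,0,0,0,0,0,0,0,0],[-2,-2,0,0,-2,2,1,-2,0],[1,0,-1,0,0,0,0,0,1],[0,0,-1,0,0,1,0,0,0],[0,0,0,1,0,0,0,0,0],[0,0,0,-1,0,0,0,0,0],[0,0,1,0,0,-1,0,0,0],[-1,0,1,0,0,0,0,0,-1],[2,2,0,0,2,-2,-1,2,0],[0,0,0,0,0,0,0,0,0],[0,1,0,0,1,-1,0,0,0],[0,0,1,1,0,-1,0,1,0],[0,0,1,0,0,0,0,0,0],[0,0,0,0,-1,0,0,0,0],[0,0,0,0,0,0,0,0,-1],[4,4,0,2,2,-4,-3,4,2],[-1,0,1,0,0,0,0,0,-1],[0,-1,0,0,-1,1,0,0,0],[0,0,0,0,0,0,0,0,0],[0,0,0,0,0,0,0,1,0],[0,1,0,0,0,0,0,0,0],[0,0,0,0,0,-1,0,0,0],[-2,-2,0,-2,0,2,1,-2,-2],[0,0,0,0,0,0,0,0,-1],[0,0,1,0,0,-1,0,0,0],[0,0,-1,-1,0,1,0,-1,0],[0,0,0,0,0,0,0,-1,0],[0,0,0,0,0,0,0,0,0],[1,0,0,0,0,0,0,0,0],[0,0,0,0,0,0,-1,0,0],[0,0,0,0,0,-1,0,0,0],[0,0,0,0,-1,0,0,0,0],[0,0,0,-1,0,0,0,0,0],[0,0,-1,0,0,0,0,0,0],[0,-1,0,0,0,0,0,0,0],[-1,0,0,0,0,0,0,0,0]],[9],[1,2,4,5,10,11,13,19,20],[[1,-1,1,-2,1,-2,1,1,-2],[1,-2,1,-1,1,-2,2,1,-1],[0,-1,0,0,0,1,0,0,0],[0,-1,1,-1,1,0,1,0,-1],[0,-1,0,0,1,-1,1,1,-1],[-1,2,-1,1,-1,1,-2,-1,2],[-1,1,-1,1,-1,1,-1,-1,1],[1,-2,2,-1,1,-1,1,1,-2],[0,0,1,-1,0,-1,1,1,-1]],126,[(18,[(1,.one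 [18])]),(27,[(1,.one [27])]),(36,[(1,.one [36])]),(45,[(1,.one [45])]),(54,[(1,.one [54])]),(8,[(1,.two [1] [8])]),(62,[(1,.two [1] [62])]),(55,[(1,.two [55] [8])]),(16,[(1,.two [2] [16])]),(61,[(1,.two [2] [61])]),(47,[(1,.two [47] [16])]),(24,[(1,.two [3] [24])]),(60,[(1,.two [3] [60])]),(39,[(1,.two [39] [24])]),(32,[(1,.two [4] [32])]),(59,[(1,.two [4] [59])]),(31,[(1,.two [31] [32])]),(40,[(1,.two [5] [40])]),(58,[(1,.two [5] [58])]),(23,[(1,.two [23] [40])]),(48,[(1,.two [6] [48])]),(57,[(1,.two [6] [57])]),(15,[(1,.two [15] [48])]),(56,[(1,.two [7] [56])]),(17,[(1,.two [10] [17])]),(53,[(1,.two [10] [53])]),(46,[(1,.two [46] [17])]),(41,[(1,.two [13] [41])]),(50,[(1,.two [13] [50])]),(22,[(1,.two [22] [41])]),(12,[(1,.one [3,12,48])]),(33,[(1,.one [6,24,33])]),(51,[(1,.one [15,51,60])]),(30,[(1,.one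 [30,39,57])]),(43,[(1,.hd 3 1)]),(44,[(1,.hd 3 2)]),(25,[(1,.hd 3 4)]),(26,[(1,.hd 3 5)]),(29,[(1,.hd 3 8)]),(52,[(1,.hd 3 10)]),(11,[(1,.hd 3 11)]),(34,[(1,.hd 3 13)]),(37,[(1,.hd 3 16)]),(38,[(1,.hd 3 17)]),(19,[(1,.hd 3 19)]),(20,[(1,.hd 3 20)]),(28,[(1,.hd 7 1)]),(14,[(1,.hd 7 2)]),(49,[(1,.hd 7 4)]),(35,[(1,.hd 7 5)]),(21,[(1,.hd 3 7)]),(42,[(1,.hd 3 14)])]⟩

theorem k63_55 : chk 63 55 c63_55 = true := by decide +kernel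

def c63_62 : Cert :=
  ⟨[1,62],[1,2,4,5,8,10,11,13,16,17,19,20,22,23,25,26,29,31,32,34,37,38,40,41,43,44,46,47,50,52,53,55,58,59,61,62],[],[[],[],[],[],[],[],[],[],[],[],[],[],[],[],[],[],[],[],[],[],[],[],[],[],[],[],[],[],[],[],[],[],[],[],[],[],[],[],[],[],[],[],[],[],[],[],[],[],[],[],[],[],[],[],[],[],[],[],[],[],[],[],[]],[1],[],[],1,[(2,[(1,.one [2])]),(3,[(1,.one [3])]),(4,[(1,.one [4])]),(5,[(1,.one [5])]),(6,[(1,.one [6])]),(7,[(1,.one [7])]),(8,[(1,.one [8])]),(9,[(1,.one [9])]),(10,[(1,.one [10])]),(11,[(1,.one [11])]),(12,[(1,.one [12])]),(13,[(1,.one [13])]),(14,[(1,.one [14])]),(15,[(1,.one [15])]),(16,[(1,.one [16])]),(17,[(1,.one [17])]),(18,[(1,.one [18])]),(19,[(1,.one [19])]),(20,[(1,.one [20])]),(21,[(1,.one [21])]),(22,[(1,.one [22])]),(23,[(1,.one [23])]),(24,[(1,.one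 [24])]),(25,[(1,.one [25])]),(26,[(1,.one [26])]),(27,[(1,.one [27])]),(28,[(1,.one [28])]),(29,[(1,.one [29])]),(30,[(1,.one [30])]),(31,[(1,.one [31])]),(32,[(1,.one [32])]),(33,[(1,.one [33])]),(34,[(1,.one [34])]),(35,[(1,.one [35])]),(36,[(1,.one [36])]),(37,[(1,.one [37])]),(38,[(1,.one [38])]),(39,[(1,.one [39])]),(40,[(1,.one [40])]),(41,[(1,.one [41])]),(42,[(1,.one [42])]),(43,[(1,.one [43])]),(44,[(1,.one [44])]),(45,[(1,.one [45])]),(46,[(1,.one [46])]),(47,[(1,.one [47])]),(48,[(1,.one [48])]),(49,[(1,.one [49])]),(50,[(1,.one [50])]),(51,[(1,.one [51])]),(52,[(1,.one [52])]),(53,[(1,.one [53])]),(54,[(1,.one [54])]),(55,[(1,.one [55])]),(56,[(1,.one [56])]),(57,[(1,.one [57])]),(58,[(1,.one [58])]),(59,[(1,.one [59])]),(60,[(1,.one [60])]),(61,[(1,.one [61])]),(62,[(1,.one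 [62])])]⟩

theorem k63_62 : chk 63 62 c63_62 = true := by decide +kernel

theorem all63 : ∀ x < 63, x.Coprime 63 → Full 63 x := by
  intro x hx hc
  interval_cases x
  · exact absurd hc (by decide)
  · exact full_of_chk k63_1
  · exact full_of_chk k63_2
  · exact absurd hc (by decide)
  · exact full_of_chk k63_4
  · exact full_of_chk k63_5
  · exact absurd hc (by decide)
  · exact absurd hc (by decide)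
  · exact full_of_chk k63_8
  · exact absurd hc (by decide)
  · exact full_of_chk k63_10
  · exact full_of_chk k63_11
  · exact absurd hc (by decide)
  · exact full_of_chk k63_13
  · exact absurd hc (by decide)
  · exact absurd hc (by decide)
  · exact full_same 2 2 k63_4 (by decide) (by decide)
  · exact full_of_chk k63_17
  · exact absurd hc (by decide)
  · exact full_same 5 5 k63_10 (by decide) (by decide)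
  · exact full_of_chk k63_20
  · exact absurd hc (by decide)
  · exact full_of_chk k63_22
  · exact full_same 5 5 k63_11 (by decide) (by decide)
  · exact absurd hc (by decide)
  · exact full_of_chk k63_25
  · exact full_same 5 5 k63_17 (by decide) (by decide)
  · exact absurd hc (by decide)
  · exact absurd hc (by decide)
  · exact full_of_chk k63_29
  · exact absurd hc (by decide)
  · exact full_of_chk k63_31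
  · exact full_same 5 5 k63_2 (by decide) (by decide)
  · exact absurd hc (by decide)
  · exact full_same 5 5 k63_13 (by decide) (by decide)
  · exact absurd hc (by decide)
  · exact absurd hc (by decide)
  · exact full_of_chk k63_37
  · exact full_same 5 5 k63_5 (by decide) (by decide)
  · exact absurd hc (by decide)
  · exact full_of_chk k63_40
  · exact full_same 5 5 k63_20 (by decide) (by decide)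
  · exact absurd hc (by decide)
  · exact full_same 2 2 k63_22 (by decide) (by decide)
  · exact full_of_chk k63_44
  · exact absurd hc (by decide)
  · exact full_same 2 2 k63_37 (by decide) (by decide)
  · exact full_of_chk k63_47
  · exact absurd hc (by decide)
  · exact absurd hc (by decide)
  · exact full_same 5 5 k63_29 (by decide) (by decide)
  · exact absurd hc (by decide)
  · exact full_same 5 5 k63_40 (by decide) (by decide)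
  · exact full_same 5 5 k63_44 (by decide) (by decide)
  · exact absurd hc (by decide)
  · exact full_of_chk k63_55
  · exact absurd hc (by decide)
  · exact absurd hc (by decide)
  · exact full_same 2 2 k63_25 (by decide) (by decide)
  · exact full_same 5 5 k63_47 (by decide) (by decide)
  · exact absurd hc (by decide)
  · exact full_same 5 5 k63_31 (by decide) (by decide)
  · exact full_of_chk k63_62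

end Pool.Agent.N997.TF
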