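import Pool.Agent.N997.TF.Same

/-!
Degree 66: certificates.
-/

set_option maxRecDepth 100000

namespace Pool.Agent.N997.TF

def c66_1 : Cert :=
  ⟨[1],[1,5,7,13,17,19,23,25,29,31,35,37,41,43,47,49,53,59,61,65],[14,2,3,4,5,6,7,8,9,10],[[],[-2,1,2,1,0,-2,1,1,-1,-1],[0,1,0,0,0,0,0,0,0,0],[0,0,1,0,0,0,0,0,0,0],[0,0,0,1,0,0,0,0,0,0],[0,0,0,0,1,0,0,0,0,0],[0,0,0,0,0,1,0,0,0,0],[0,0,0,0,0,0,1,0,0,0],[0,0,0,0,0,0,0,1,0,0],[0,0,0,0,0,0,0,0,1,0],[0,0,0,0,0,0,0,0,0,1],[-2,2,2,0,-2,-4,2,2,0,0],[-2,0,1,1,0,-1,1,1,-1,0],[-2,1,1,0,0,-2,1,1,0,0],[1,0,0,0,0,0,0,0,0,0],[1,0,0,0,0,0,0,-1,1,0],[-1,0,1,0,1,0,0,1,-1,-1],[1,0,-1,-1,1,2,-1,0,0,0],[1,0,-1,0,0,1,0,-1,1,0],[1,0,0,0,-1,0,0,0,0,1],[-1,1,1,0,0,-2,0,1,0,0],[-1,0,0,1,0,0,1,0,-1,0],[-1,1,1,0,-1,-2,1,1,0,0],[1,-1,-1,0,0,2,0,-1,0,1],[-1,0,1,0,0,-1,0,1,0,0],[1,0,-1,0,-1,0,0,0,1,1],[-1,0,0,0,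0,0,1,0,0,0],[2,0,-1,-1,0,2,-1,-1,1,0],[0,0,0,0,1,0,0,0,0,-1],[0,0,0,1,0,0,0,-1,0,0],[0,0,1,0,0,-1,0,0,0,0],[0,1,0,-1,0,0,0,0,0,0],[-2,0,2,1,0,-2,1,1,-1,-1],[0,0,0,0,0,0,0,0,0,0],[2,0,-2,-1,0,2,-1,-1,1,1],[0,-1,0,1,0,0,0,0,0,0],[0,0,-1,0,0,1,0,0,0,0],[0,0,0,-1,0,0,0,1,0,0],[0,0,0,0,-1,0,0,0,0,1],[-2,0,1,1,0,-2,1,1,-1,0],[1,0,0,0,0,0,-1,0,0,0],[-1,0,1,0,1,0,0,0,-1,-1],[1,0,-1,0,0,1,0,-1,0,0],[-1,1,1,0,0,-2,0,1,0,-1],[1,-1,-1,0,1,2,-1,-1,0,0],[1,0,0,-1,0,0,-1,0,1,0],[1,-1,-1,0,0,2,0,-1,0,0],[-1,0,0,0,1,0,0,0,0,-1],[-1,0,1,0,0,-1,0,1,-1,0],[-1,0,1,1,-1,-2,1,0,0,0],[1,0,-1,0,-1,0,0,-1,1,1],[-1,0,0,0,0,0,0,1,-1,0],[-1,0,0,0,0,0,0,0,0,0],[2,-1,-1,0,0,2,-1,-1,0,0],[2,0,-1,-1,0,1,-1,-1,1,0],[2,-2,-2,0,2,4,-2,-2,0,0],[0,0,0,0,0,0,0,0,0,-1],[0,0,0,0,0,0,0,0,-1,0],[0,0,0,0,0,0,0,-1,0,0],[0,0,0,0,0,0,-1,0,0,0],[0,0,0,0,0,-1,0,0,0,0],[0,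0,0,0,-1,0,0,0,0,0],[0,0,0,-1,0,0,0,0,0,0],[0,0,-1,0,0,0,0,0,0,0],[0,-1,0,0,0,0,0,0,0,0],[2,-1,-2,-1,0,2,-1,-1,1,1]],[33],[1,5,7,13,17,19,23,25,29,31],[[1,-1,2,2,2,0,0,0,0,2],[-1,0,-1,-1,0,0,1,0,1,-1],[-1,0,-2,-1,-1,0,0,-1,0,-2],[0,0,-1,0,-1,-1,-1,0,0,0],[0,-1,1,0,-1,1,0,1,-1,0],[1,-1,3,1,1,1,-1,1,-1,3],[-1,1,-1,-1,0,-1,0,0,0,-1],[-1,1,-1,-1,-1,0,1,-1,0,-1],[0,0,1,1,1,0,0,0,1,0],[0,1,0,1,1,0,0,0,0,1]],132,[(64,[(1,.two [2] [64])]),(63,[(1,.two [3] [63])]),(62,[(1,.two [4] [62])]),(61,[(1,.two [5] [61])]),(60,[(1,.two [6] [60])]),(59,[(1,.two [7] [59])]),(58,[(1,.two [8] [58])]),(57,[(1,.two [9] [57])]),(56,[(1,.two [10] [56])]),(52,[(1,.two [14] [52])]),(35,[(1,.dup 2)]),(36,[(1,.dup 3)]),(37,[(1,.dup 4)]),(38,[(1,.dup 5)]),(40,[(1,.dup 7)]),(19,[(1,.dup 19)]),(26,[(1,.dup 26)]),(28,[(1,.dup 28)]),(29,[(1,.dup 29)]),(30,[(1,.dup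 30)]),(31,[(1,.dup 31)]),(24,[(1,.hd 3 8)]),(42,[(1,.hd 3 14)]),(41,[(1,.hd 3 19)]),(20,[(1,.hd 3 20)]),(50,[(1,.two [8,8,50] [29,41,62])]),(25,[(1,.two [8,25,33] [33,41,58])]),(16,[(1,.two [16,25,25] [29,41,62])]),(47,[(1,.two [5,14,47] [10,61,61])]),(23,[(1,.two [5,23,38] [20,56,56])]),(43,[(1,.two [10,23,33] [33,43,56])]),(46,[(1,.two [10,23,33] [43,43,46])]),(53,[(1,.two [7,7,52] [20,53,59])]),(13,[(1,.two [7,13,46] [14,59,59])]),(48,[(1,.two [9,9,48] [33,42,57])]),(18,[(1,.two [9,24,33] [18,57,57])]),(15,[(1,.two [9,15,42] [36,48,48])]),(51,[(1,.two [15,15,36] [24,51,57])]),(1,[(1,.two [1,25,40] [23,47,62])]),(65,[(1,.two [1,25,40] [26,41,65])]),(44,[(1,.two [1,25,40] [26,44,62])]),(22,[(1,.two [4,22,40] [23,47,62])]),(27,[(1,.two [1,27,38] [5,63,64])]),(39,[(1,.two [1,27,38] [28,39,65])]),(34,[(1,.two [1,30,35] [34,36,62])]),(32,[(1,.two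 [4,30,32] [31,36,65])]),(49,[(1,.two [2,5,59] [37,46,49])]),(17,[(1,.two [17,20,29] [7,61,64])]),(45,[(1,.two [2,7,57] [35,45,52])]),(21,[(1,.two [14,21,31] [9,59,64])]),(54,[(1,.two [2,10,54] [32,36,64])]),(12,[(1,.two [2,30,34] [12,56,64])]),(11,[(1,.two [11,22,33] [44,44,44])]),(55,[(1,.two [22,22,22] [33,44,55])])]⟩

theorem k66_1 : chk 66 1 c66_1 = true := by decide +kernel

def c66_5 : Cert :=
  ⟨[1,5,25,59,31,23,49,47,37,53],[1,5,7,13,17,19,23,25,29,31,35,37,41,43,47,49,53,59,61,65],[6],[[],[0],[0],[2],[0],[0],[1],[0],[0],[2],[0],[0],[-1],[0],[0],[2],[0],[0],[1],[0],[0],[-2],[0],[0],[1],[0],[0],[2],[0],[0],[1],[0],[0],[0],[0],[0],[-1],[0],[0],[-2],[0],[0],[-1],[0],[0],[2],[0],[0],[-1],[0],[0],[-2],[0],[0],[1],[0],[0],[-2],[0],[0],[-1],[0],[0],[-2],[0],[0]],[1],[1],[[-1]],132,[(2,[(1,.one [2])]),(4,[(1,.one [4])]),(5,[(1,.one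 [5])]),(7,[(1,.one [7])]),(8,[(1,.one [8])]),(10,[(1,.one [10])]),(11,[(1,.one [11])]),(13,[(1,.one [13])]),(14,[(1,.one [14])]),(16,[(1,.one [16])]),(17,[(1,.one [17])]),(19,[(1,.one [19])]),(20,[(1,.one [20])]),(22,[(1,.one [22])]),(23,[(1,.one [23])]),(25,[(1,.one [25])]),(26,[(1,.one [26])]),(28,[(1,.one [28])]),(29,[(1,.one [29])]),(31,[(1,.one [31])]),(32,[(1,.one [32])]),(33,[(1,.one [33])]),(34,[(1,.one [34])]),(35,[(1,.one [35])]),(37,[(1,.one [37])]),(38,[(1,.one [38])]),(40,[(1,.one [40])]),(41,[(1,.one [41])]),(43,[(1,.one [43])]),(44,[(1,.one [44])]),(46,[(1,.one [46])]),(47,[(1,.one [47])]),(49,[(1,.one [49])]),(50,[(1,.one [50])]),(52,[(1,.one [52])]),(53,[(1,.one [53])]),(55,[(1,.one [55])]),(56,[(1,.one [56])]),(58,[(1,.one [58])]),(59,[(1,.one [59])]),(61,[(1,.one [61])]),(62,[(1,.one [62])]),(64,[(1,.one [64])]),(65,[(1,.one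 [65])]),(12,[(1,.two [6] [12])]),(36,[(1,.two [6] [36])]),(42,[(1,.two [6] [42])]),(48,[(1,.two [6] [48])]),(60,[(1,.two [6] [60])]),(18,[(1,.two [18] [12])]),(24,[(1,.two [24] [12])]),(30,[(1,.two [30] [12])]),(54,[(1,.two [54] [12])]),(3,[(1,.dup 3)]),(39,[(1,.dup 6)]),(9,[(1,.dup 9)]),(45,[(1,.dup 12)]),(15,[(1,.dup 15)]),(51,[(1,.dup 18)]),(21,[(1,.dup 21)]),(57,[(1,.dup 24)]),(27,[(1,.dup 27)]),(63,[(1,.dup 30)])]⟩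

theorem k66_5 : chk 66 5 c66_5 = true := by decide +kernel

def c66_7 : Cert :=
  ⟨[1,7,49,13,25,43,37,61,31,19],[1,5,7,13,17,19,23,25,29,31,35,37,41,43,47,49,53,59,61,65],[2],[[],[2],[1],[0],[-1],[-2],[0],[2],[1],[0],[-1],[10],[0],[2],[1],[0],[-1],[-2],[0],[2],[1],[0],[5],[-2],[0],[2],[1],[0],[-1],[-2],[0],[2],[1],[0],[-1],[-2],[0],[2],[1],[0],[-1],[-2],[0],[2],[-5],[0],[-1],[-2],[0],[2],[1],[0],[-1],[-2],[0],[-10],[1],[0],[-1],[-2],[0],[2],[1],[0],[-1],[-2]],[3],[1],[[-1]],44,[(6,[(1,.one [6])]),(9,[(1,.one [9])]),(12,[(1,.one [12])]),(15,[(1,.one [15])]),(18,[(1,.one [18])]),(21,[(1,.one [21])]),(24,[(1,.one [24])]),(27,[(1,.one [27])]),(30,[(1,.one [30])]),(33,[(1,.one [33])]),(36,[(1,.one [36])]),(39,[(1,.one [39])]),(42,[(1,.one [42])]),(45,[(1,.one [45])]),(48,[(1,.one [48])]),(51,[(1,.one [51])]),(54,[(1,.one [54])]),(57,[(1,.one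 [57])]),(60,[(1,.one [60])]),(63,[(1,.one [63])]),(4,[(1,.two [2] [4])]),(10,[(1,.two [2] [10])]),(16,[(1,.two [2] [16])]),(28,[(1,.two [2] [28])]),(34,[(1,.two [2] [34])]),(40,[(1,.two [2] [40])]),(46,[(1,.two [2] [46])]),(52,[(1,.two [2] [52])]),(58,[(1,.two [2] [58])]),(64,[(1,.two [2] [64])]),(8,[(1,.two [8] [4])]),(14,[(1,.two [14] [4])]),(20,[(1,.two [20] [4])]),(26,[(1,.two [26] [4])]),(32,[(1,.two [32] [4])]),(38,[(1,.two [38] [4])]),(50,[(1,.two [50] [4])]),(56,[(1,.two [56] [4])]),(62,[(1,.two [62] [4])]),(44,[(1,.two [2,2,62] [2,20,44])]),(22,[(1,.two [4,22,40] [4,4,58])]),(11,[(1,.two [11,22,33] [44,44,44])]),(55,[(1,.two [22,22,22] [33,44,55])]),(1,[(1,.dup 1)]),(35,[(1,.dup 2)]),(37,[(1,.dup 4)]),(5,[(1,.dup 5)]),(7,[(1,.dup 7)]),(41,[(1,.dup 8)]),(43,[(1,.dup 10)]),(13,[(1,.dup 13)]),(47,[(1,.dup 14)]),(49,[(1,.dup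 16)]),(17,[(1,.dup 17)]),(19,[(1,.dup 19)]),(53,[(1,.dup 20)]),(23,[(1,.dup 23)]),(25,[(1,.dup 25)]),(59,[(1,.dup 26)]),(61,[(1,.dup 28)]),(29,[(1,.dup 29)]),(31,[(1,.dup 31)]),(65,[(1,.dup 32)])]⟩

theorem k66_7 : chk 66 7 c66_7 = true := by decide +kernel

def c66_17 : Cert :=
  ⟨[1,17,25,29,31,65,49,41,37,35],[1,5,7,13,17,19,23,25,29,31,35,37,41,43,47,49,53,59,61,65],[],[[],[],[],[],[],[],[],[],[],[],[],[],[],[],[],[],[],[],[],[],[],[],[],[],[],[],[],[],[],[],[],[],[],[],[],[],[],[],[],[],[],[],[],[],[],[],[],[],[],[],[],[],[],[],[],[],[],[],[],[],[],[],[],[],[],[]],[1],[],[],1,[(2,[(1,.one [2])]),(3,[(1,.one [3])]),(4,[(1,.one [4])]),(5,[(1,.one [5])]),(6,[(1,.one [6])]),(7,[(1,.one [7])]),(8,[(1,.one [8])]),(9,[(1,.one [9])]),(10,[(1,.one [10])]),(11,[(1,.one [11])]),(12,[(1,.one [12])]),(13,[(1,.one [13])]),(14,[(1,.one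 [14])]),(15,[(1,.one [15])]),(16,[(1,.one [16])]),(17,[(1,.one [17])]),(18,[(1,.one [18])]),(19,[(1,.one [19])]),(20,[(1,.one [20])]),(21,[(1,.one [21])]),(22,[(1,.one [22])]),(23,[(1,.one [23])]),(24,[(1,.one [24])]),(25,[(1,.one [25])]),(26,[(1,.one [26])]),(27,[(1,.one [27])]),(28,[(1,.one [28])]),(29,[(1,.one [29])]),(30,[(1,.one [30])]),(31,[(1,.one [31])]),(32,[(1,.one [32])]),(33,[(1,.one [33])]),(34,[(1,.one [34])]),(35,[(1,.one [35])]),(36,[(1,.one [36])]),(37,[(1,.one [37])]),(38,[(1,.one [38])]),(39,[(1,.one [39])]),(40,[(1,.one [40])]),(41,[(1,.one [41])]),(42,[(1,.one [42])]),(43,[(1,.one [43])]),(44,[(1,.one [44])]),(45,[(1,.one [45])]),(46,[(1,.one [46])]),(47,[(1,.one [47])]),(48,[(1,.one [48])]),(49,[(1,.one [49])]),(50,[(1,.one [50])]),(51,[(1,.one [51])]),(52,[(1,.one [52])]),(53,[(1,.one [53])]),(54,[(1,.one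 [54])]),(55,[(1,.one [55])]),(56,[(1,.one [56])]),(57,[(1,.one [57])]),(58,[(1,.one [58])]),(59,[(1,.one [59])]),(60,[(1,.one [60])]),(61,[(1,.one [61])]),(62,[(1,.one [62])]),(63,[(1,.one [63])]),(64,[(1,.one [64])]),(65,[(1,.one [65])])]⟩

theorem k66_17 : chk 66 17 c66_17 = true := by decide +kernel

def c66_23 : Cert :=
  ⟨[1,23],[1,5,7,13,17,19,23,25,29,31,35,37,41,43,47,49,53,59,61,65],[1,2,6,4,5],[[],[1,0,0,0,0],[0,1,0,0,0],[0,0,2,-2,2],[0,0,0,1,0],[0,0,0,0,1],[0,0,1,0,0],[0,1,0,0,1],[0,-1,0,1,-1],[-2,0,2,0,2],[1,-1,0,0,0],[0,0,0,0,0],[2,-2,-1,2,-2],[0,-1,0,1,0],[0,1,0,-1,1],[-2,2,2,-2,4],[1,-1,0,0,-1],[0,0,0,0,-1],[-2,2,1,0,2],[1,0,0,-1,0],[0,-1,0,0,0],[2,0,-2,2,-2],[0,0,0,0,0],[1,0,0,0,0],[0,-2,1,0,0],[-1,0,0,1,0],[0,0,0,1,0],[-2,2,2,-2,2],[-1,1,0,0,1],[0,1,0,0,1],[0,0,1,-2,2],[0,1,0,-1,0],[1,-1,0,0,0],[0,0,0,0,0],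[-1,1,0,0,0],[0,-1,0,1,0],[0,0,-1,2,-2],[0,-1,0,0,-1],[1,-1,0,0,-1],[2,-2,-2,2,-2],[0,0,0,-1,0],[1,0,0,-1,0],[0,2,-1,0,0],[-1,0,0,0,0],[0,0,0,0,0],[-2,0,2,-2,2],[0,1,0,0,0],[-1,0,0,1,0],[2,-2,-1,0,-2],[0,0,0,0,1],[-1,1,0,0,1],[2,-2,-2,2,-4],[0,-1,0,1,-1],[0,1,0,-1,0],[-2,2,1,-2,2],[0,0,0,0,0],[-1,1,0,0,0],[2,0,-2,0,-2],[0,1,0,-1,1],[0,-1,0,0,-1],[0,0,-1,0,0],[0,0,0,0,-1],[0,0,0,-1,0],[0,0,-2,2,-2],[0,-1,0,0,0],[-1,0,0,0,0]],[11],[1,5,7,13,19],[[0,1,-2,-1,0],[0,-2,1,0,-1],[-1,-1,1,1,1],[0,2,0,-1,-1],[-1,-2,1,2,0]],132,[(22,[(1,.one [22])]),(33,[(1,.one [33])]),(44,[(1,.one [44])]),(55,[(1,.one [55])]),(43,[(1,.two [1] [43])]),(65,[(1,.two [1] [65])]),(23,[(1,.two [23] [43])]),(20,[(1,.two [2] [20])]),(64,[(1,.two [2] [64])]),(46,[(1,.two [46] [20])]),(40,[(1,.two [4] [40])]),(62,[(1,.two [4] [62])]),(26,[(1,.two [26] [40])]),(17,[(1,.two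 [5] [17])]),(61,[(1,.two [5] [61])]),(49,[(1,.two [49] [17])]),(60,[(1,.two [6] [60])]),(25,[(1,.one [1,25,40])]),(59,[(1,.one [2,5,59])]),(19,[(1,.one [4,19,43])]),(7,[(1,.one [7,61,64])]),(29,[(1,.one [17,20,29])]),(47,[(1,.one [23,47,62])]),(50,[(1,.one [23,50,59])]),(41,[(1,.one [26,41,65])]),(38,[(1,.one [29,38,65])]),(37,[(1,.one [37,46,49])]),(28,[(1,.two [11] [1,28,37])]),(16,[(1,.two [11] [7,16,43])]),(34,[(1,.dup 1)]),(35,[(1,.dup 2)]),(8,[(1,.dup 4)]),(10,[(1,.dup 5)]),(14,[(1,.dup 7)]),(13,[(1,.dup 13)]),(32,[(1,.dup 16)]),(52,[(1,.dup 19)]),(53,[(1,.dup 20)]),(56,[(1,.dup 23)]),(58,[(1,.dup 25)]),(31,[(1,.dup 31)]),(24,[(1,.hd 3 2)]),(18,[(1,.hd 3 6)]),(30,[(1,.hd 3 8)]),(54,[(1,.hd 3 10)]),(48,[(1,.hd 3 16)]),(42,[(1,.hd 3 20)]),(12,[(1,.two [1,11,54] [11,12,43])]),(36,[(1,.two [2,10,54] [10,20,36])]),(3,[(1,.two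 [3,30,33] [36,36,60])]),(63,[(1,.two [6,30,30] [33,36,63])]),(57,[(1,.two [3,16,47] [28,47,57])]),(9,[(1,.two [9,16,41] [28,41,63])]),(39,[(1,.two [3,7,56] [37,39,56])]),(27,[(1,.two [7,27,32] [32,37,63])]),(51,[(1,.two [3,13,50] [31,50,51])]),(15,[(1,.two [13,15,38] [31,38,63])]),(45,[(1,.two [4,5,57] [4,17,45])]),(21,[(1,.two [5,21,40] [9,17,40])])]⟩

theorem k66_23 : chk 66 23 c66_23 = true := by decide +kernel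

def c66_25 : Cert :=
  ⟨[1,25,31,49,37],[1,5,7,13,17,19,23,25,29,31,35,37,41,43,47,49,53,59,61,65],[2,6],[[],[2,0],[1,0],[0,2],[-1,0],[-2,0],[0,1],[2,0],[1,0],[0,2],[-1,0],[10,0],[0,-1],[2,0],[1,0],[0,2],[-1,0],[-2,0],[0,1],[2,0],[1,0],[0,-2],[5,0],[-2,0],[0,1],[2,0],[1,0],[0,2],[-1,0],[-2,0],[0,1],[2,0],[1,0],[0,0],[-1,0],[-2,0],[0,-1],[2,0],[1,0],[0,-2],[-1,0],[-2,0],[0,-1],[2,0],[-5,0],[0,2],[-1,0],[-2,0],[0,-1],[2,0],[1,0],[0,-2],[-1,0],[-2,0],[0,1],[-10,0],[1,0],[0,-2],[-1,0],[-2,0],[0,-1],[2,0],[1,0],[0,-2],[-1,0],[-2,0]],[33],[1,5],[[-3,3],[-1,-1]],132,[(4,[(1,.two [2] [4])]),(10,[(1,.two [2] [10])]),(16,[(1,.two [2] [16])]),(28,[(1,.two [2] [28])]),(34,[(1,.two [2] [34])]),(40,[(1,.two [2] [40])]),(46,[(1,.two [2] [46])]),(52,[(1,.two [2] [52])]),(58,[(1,.two [2] [58])]),(64,[(1,.two [2] [64])]),(8,[(1,.two [8] [4])]),(14,[(1,.two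 [14] [4])]),(20,[(1,.two [20] [4])]),(26,[(1,.two [26] [4])]),(32,[(1,.two [32] [4])]),(38,[(1,.two [38] [4])]),(50,[(1,.two [50] [4])]),(56,[(1,.two [56] [4])]),(62,[(1,.two [62] [4])]),(12,[(1,.two [6] [12])]),(36,[(1,.two [6] [36])]),(42,[(1,.two [6] [42])]),(48,[(1,.two [6] [48])]),(60,[(1,.two [6] [60])]),(18,[(1,.two [18] [12])]),(24,[(1,.two [24] [12])]),(30,[(1,.two [30] [12])]),(54,[(1,.two [54] [12])]),(44,[(1,.two [2,2,62] [2,20,44])]),(22,[(1,.two [4,22,40] [4,4,58])]),(11,[(1,.two [11,22,33] [44,44,44])]),(55,[(1,.two [22,22,22] [33,44,55])]),(1,[(1,.dup 1)]),(35,[(1,.dup 2)]),(3,[(1,.dup 3)]),(37,[(1,.dup 4)]),(5,[(1,.dup 5)]),(39,[(1,.dup 6)]),(7,[(1,.dup 7)]),(41,[(1,.dup 8)]),(9,[(1,.dup 9)]),(43,[(1,.dup 10)]),(45,[(1,.dup 12)]),(13,[(1,.dup 13)]),(47,[(1,.dup 14)]),(15,[(1,.dup 15)]),(49,[(1,.dup 16)]),(17,[(1,.dup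 17)]),(51,[(1,.dup 18)]),(19,[(1,.dup 19)]),(53,[(1,.dup 20)]),(21,[(1,.dup 21)]),(23,[(1,.dup 23)]),(57,[(1,.dup 24)]),(25,[(1,.dup 25)]),(59,[(1,.dup 26)]),(27,[(1,.dup 27)]),(61,[(1,.dup 28)]),(29,[(1,.dup 29)]),(63,[(1,.dup 30)]),(31,[(1,.dup 31)]),(65,[(1,.dup 32)])]⟩

theorem k66_25 : chk 66 25 c66_25 = true := by decide +kernel

def c66_43 : Cert :=
  ⟨[1,43],[1,5,7,13,17,19,23,25,29,31,35,37,41,43,47,49,53,59,61,65],[1,2,4,5,7],[[],[1,0,0,0,0],[0,1,0,0,0],[0,0,0,0,0],[0,0,1,0,0],[0,0,0,1,0],[0,0,0,0,0],[0,0,0,0,1],[0,0,1,0,1],[0,0,0,0,0],[-1,1,0,0,0],[0,2,0,-2,2],[0,0,0,0,0],[0,1,-1,0,0],[0,0,1,0,1],[0,0,0,0,0],[1,-1,0,1,0],[0,0,0,1,0],[0,0,0,0,0],[-1,1,1,-1,1],[0,1,0,0,0],[0,0,0,0,0],[0,1,0,-1,1],[-1,0,0,0,0],[0,0,0,0,0],[-1,1,1,-1,1],[0,0,-1,0,0],[0,0,0,0,0],[1,-1,0,1,0],[0,0,0,0,-1],[0,0,0,0,0],[0,1,-1,0,0],[1,-1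,0,0,0],[0,0,0,0,0],[-1,1,0,0,0],[0,-1,1,0,0],[0,0,0,0,0],[0,0,0,0,1],[-1,1,0,-1,0],[0,0,0,0,0],[0,0,1,0,0],[1,-1,-1,1,-1],[0,0,0,0,0],[1,0,0,0,0],[0,-1,0,1,-1],[0,0,0,0,0],[0,-1,0,0,0],[1,-1,-1,1,-1],[0,0,0,0,0],[0,0,0,-1,0],[-1,1,0,-1,0],[0,0,0,0,0],[0,0,-1,0,-1],[0,-1,1,0,0],[0,0,0,0,0],[0,-2,0,2,-2],[1,-1,0,0,0],[0,0,0,0,0],[0,0,-1,0,-1],[0,0,0,0,-1],[0,0,0,0,0],[0,0,0,-1,0],[0,0,-1,0,0],[0,0,0,0,0],[0,-1,0,0,0],[-1,0,0,0,0]],[3],[1,5,7,13,19],[[0,-1,0,-1,0],[-1,1,-1,0,0],[0,0,0,1,-1],[0,-1,1,0,1],[-1,1,0,0,-1]],132,[(6,[(1,.one [6])]),(9,[(1,.one [9])]),(12,[(1,.one [12])]),(15,[(1,.one [15])]),(18,[(1,.one [18])]),(21,[(1,.one [21])]),(24,[(1,.one [24])]),(27,[(1,.one [27])]),(30,[(1,.one [30])]),(33,[(1,.one [33])]),(36,[(1,.one [36])]),(39,[(1,.one [39])]),(42,[(1,.one [42])]),(45,[(1,.one [45])]),(48,[(1,.one [48])]),(51,[(1,.one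 [51])]),(54,[(1,.one [54])]),(57,[(1,.one [57])]),(60,[(1,.one [60])]),(63,[(1,.one [63])]),(23,[(1,.two [1] [23])]),(65,[(1,.two [1] [65])]),(43,[(1,.two [43] [23])]),(46,[(1,.two [2] [46])]),(64,[(1,.two [2] [64])]),(20,[(1,.two [20] [46])]),(26,[(1,.two [4] [26])]),(62,[(1,.two [4] [62])]),(40,[(1,.two [40] [26])]),(49,[(1,.two [5] [49])]),(61,[(1,.two [5] [61])]),(17,[(1,.two [17] [49])]),(29,[(1,.two [7] [29])]),(59,[(1,.two [7] [59])]),(37,[(1,.two [37] [29])]),(34,[(1,.dup 1)]),(35,[(1,.dup 2)]),(8,[(1,.dup 4)]),(14,[(1,.dup 7)]),(10,[(1,.dup 10)]),(13,[(1,.dup 13)]),(50,[(1,.dup 17)]),(53,[(1,.dup 20)]),(56,[(1,.dup 23)]),(52,[(1,.dup 26)]),(28,[(1,.dup 28)]),(58,[(1,.dup 29)]),(31,[(1,.dup 31)]),(32,[(1,.dup 32)]),(38,[(1,.two [1,1,64] [5,23,38])]),(16,[(1,.two [1,16,49] [2,65,65])]),(44,[(1,.two [1,15,50] [7,15,44])]),(22,[(1,.two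 [15,22,29] [5,15,46])]),(47,[(1,.two [8,9,49] [9,10,47])]),(25,[(1,.two [9,25,32] [5,9,52])]),(41,[(1,.two [14,57,61] [34,41,57])]),(19,[(1,.two [15,19,32] [10,15,41])]),(11,[(1,.two [11,22,33] [44,44,44])]),(55,[(1,.two [22,22,22] [33,44,55])])]⟩

theorem k66_43 : chk 66 43 c66_43 = true := by decide +kernel

def c66_65 : Cert :=
  ⟨[1,65],[1,5,7,13,17,19,23,25,29,31,35,37,41,43,47,49,53,59,61,65],[],[[],[],[],[],[],[],[],[],[],[],[],[],[],[],[],[],[],[],[],[],[],[],[],[],[],[],[],[],[],[],[],[],[],[],[],[],[],[],[],[],[],[],[],[],[],[],[],[],[],[],[],[],[],[],[],[],[],[],[],[],[],[],[],[],[],[]],[1],[],[],1,[(2,[(1,.one [2])]),(3,[(1,.one [3])]),(4,[(1,.one [4])]),(5,[(1,.one [5])]),(6,[(1,.one [6])]),(7,[(1,.one [7])]),(8,[(1,.one [8])]),(9,[(1,.one [9])]),(10,[(1,.one [10])]),(11,[(1,.one [11])]),(12,[(1,.one [12])]),(13,[(1,.one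 [13])]),(14,[(1,.one [14])]),(15,[(1,.one [15])]),(16,[(1,.one [16])]),(17,[(1,.one [17])]),(18,[(1,.one [18])]),(19,[(1,.one [19])]),(20,[(1,.one [20])]),(21,[(1,.one [21])]),(22,[(1,.one [22])]),(23,[(1,.one [23])]),(24,[(1,.one [24])]),(25,[(1,.one [25])]),(26,[(1,.one [26])]),(27,[(1,.one [27])]),(28,[(1,.one [28])]),(29,[(1,.one [29])]),(30,[(1,.one [30])]),(31,[(1,.one [31])]),(32,[(1,.one [32])]),(33,[(1,.one [33])]),(34,[(1,.one [34])]),(35,[(1,.one [35])]),(36,[(1,.one [36])]),(37,[(1,.one [37])]),(38,[(1,.one [38])]),(39,[(1,.one [39])]),(40,[(1,.one [40])]),(41,[(1,.one [41])]),(42,[(1,.one [42])]),(43,[(1,.one [43])]),(44,[(1,.one [44])]),(45,[(1,.one [45])]),(46,[(1,.one [46])]),(47,[(1,.one [47])]),(48,[(1,.one [48])]),(49,[(1,.one [49])]),(50,[(1,.one [50])]),(51,[(1,.one [51])]),(52,[(1,.one [52])]),(53,[(1,.one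 [53])]),(54,[(1,.one [54])]),(55,[(1,.one [55])]),(56,[(1,.one [56])]),(57,[(1,.one [57])]),(58,[(1,.one [58])]),(59,[(1,.one [59])]),(60,[(1,.one [60])]),(61,[(1,.one [61])]),(62,[(1,.one [62])]),(63,[(1,.one [63])]),(64,[(1,.one [64])]),(65,[(1,.one [65])])]⟩

theorem k66_65 : chk 66 65 c66_65 = true := by decide +kernel

theorem all66 : ∀ x < 66, x.Coprime 66 → Full 66 x := by
  intro x hx hc
  interval_cases x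
  · exact absurd hc (by decide)
  · exact full_of_chk k66_1
  · exact absurd hc (by decide)
  · exact absurd hc (by decide)
  · exact absurd hc (by decide)
  · exact full_of_chk k66_5
  · exact absurd hc (by decide)
  · exact full_of_chk k66_7
  · exact absurd hc (by decide)
  · exact absurd hc (by decide)
  · exact absurd hc (by decide)
  · exact absurd hc (by decide)
  · exact absurd hc (by decide)
  · exact full_same 3 7 k66_7 (by decide) (by decide)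
  · exact absurd hc (by decide)
  · exact absurd hc (by decide)
  · exact absurd hc (by decide)
  · exact full_of_chk k66_17
  · exact absurd hc (by decide)
  · exact full_same 9 9 k66_7 (by decide) (by decide)
  · exact absurd hc (by decide)
  · exact absurd hc (by decide)
  · exact absurd hc (by decide)
  · exact full_of_chk k66_23
  · exact absurd hc (by decide)
  · exact full_of_chk k66_25
  · exact absurd hc (by decide)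
  · exact absurd hc (by decide)
  · exact absurd hc (by decide)
  · exact full_same 3 7 k66_17 (by decide) (by decide)
  · exact absurd hc (by decide)
  · exact full_same 2 3 k66_25 (by decide) (by decide)
  · exact absurd hc (by decide)
  · exact absurd hc (by decide)
  · exact absurd hc (by decide)
  · exact full_same 9 9 k66_17 (by decide) (by decide)
  · exact absurd hc (by decide)
  · exact full_same 4 4 k66_25 (by decide) (by decide)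
  · exact absurd hc (by decide)
  · exact absurd hc (by decide)
  · exact absurd hc (by decide)
  · exact full_same 7 3 k66_17 (by decide) (by decide)
  · exact absurd hc (by decide)
  · exact full_of_chk k66_43
  · exact absurd hc (by decide)
  · exact absurd hc (by decide)
  · exact absurd hc (by decide)
  · exact full_same 7 3 k66_5 (by decide) (by decide)
  · exact absurd hc (by decide)
  · exact full_same 3 2 k66_25 (by decide) (by decide)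
  · exact absurd hc (by decide)
  · exact absurd hc (by decide)
  · exact absurd hc (by decide)
  · exact full_same 9 9 k66_5 (by decide) (by decide)
  · exact absurd hc (by decide)
  · exact absurd hc (by decide)
  · exact absurd hc (by decide)
  · exact absurd hc (by decide)
  · exact absurd hc (by decide)
  · exact full_same 3 7 k66_5 (by decide) (by decide)
  · exact absurd hc (by decide)
  · exact full_same 7 3 k66_7 (by decide) (by decide)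
  · exact absurd hc (by decide)
  · exact absurd hc (by decide)
  · exact absurd hc (by decide)
  · exact full_of_chk k66_65

end Pool.Agent.N997.TF
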