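import Pool.Agent.N997.TF.Fin
import Pool.Agent.N997.TF.M34
import Pool.Agent.N997.TF.M36
import Pool.Agent.N997.TF.M38
import Pool.Agent.N997.TF.M39
import Pool.Agent.N997.TF.M40
import Pool.Agent.N997.TF.M42
import Pool.Agent.N997.TF.M45
import Pool.Agent.N997.TF.M46
import Pool.Agent.N997.TF.M48
import Pool.Agent.N997.TF.M50
import Pool.Agent.N997.TF.M54
import Pool.Agent.N997.TF.M58
import Pool.Agent.N997.TF.M60
import Pool.Agent.N997.TF.M62
import Pool.Agent.N997.TF.M63
import Pool.Agent.N997.TF.M64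
import Pool.Agent.N997.TF.M66

/-!
Some degrees between 34 and 66 and all characteristics.
-/

namespace Pool.Agent.N997.TF

/-- The degrees between 34 and 66 that are treated by certificates. -/
def degs : Finset ℕ := {34, 36, 38, 39, 40, 42, 45, 46, 48, 50, 54, 58, 60, 62, 63, 64, 66}

theorem full_degs_lt (m x : ℕ) (hm : m ∈ degs) (hx : x < m) (hc : x.Coprime m) : Full m x := by
  simp only [degs, Finset.mem_insert, Finset.mem_singleton] at hm
  rcases hm with rfl | rfl | rfl | rfl | rfl | rfl | rfl | rfl | rfl | rfl | rfl | rfl | rfl | rfl |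
    rfl | rfl | rfl
  · exact all34 x hx hc
  · exact all36 x hx hc
  · exact all38 x hx hc
  · exact all39 x hx hc
  · exact all40 x hx hc
  · exact all42 x hx hc
  · exact all45 x hx hc
  · exact all46 x hx hc
  · exact all48 x hx hc
  · exact all50 x hx hc
  · exact all54 x hx hc
  · exact all58 x hx hc
  · exact all60 x hx hc
  · exact all62 x hx hc
  · exact all63 x hx hc
  · exact all64 x hx hc
  · exact all66 x hx hc

theorem full_degs (m p : ℕ) (hm : m ∈ degs) (hp : p.Coprime m) : Full m p := by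
  have hm0 : 0 < m := by
    rcases Nat.eq_zero_or_pos m with rfl | h
    · exact absurd hm (by decide)
    · exact h
  have hc : (p % m).Coprime m := by
    unfold Nat.Coprime at hp ⊢
    rw [← Nat.gcd_rec, Nat.gcd_comm]
    exact hp
  have h := full_degs_lt m (p % m) hm (Nat.mod_lt _ hm0) hc
  unfold Full at h ⊢
  rwa [ZMod.natCast_mod] at h

/-- An odd prime power. -/
def OddPrimePow (m : ℕ) : Prop := ∃ q k : ℕ, q.Prime ∧ q ≠ 2 ∧ m = q ^ (k + 1)

theorem split_67 (m : ℕ) (h2 : 2 ≤ m) (h : m ≤ 67)
    (hn : m ∉ ({33, 35, 44, 51, 52, 55, 56, 57, 65} : Finset ℕ)) :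
    m ≤ 32 ∨ m ∈ degs ∨ OddPrimePow m := by
  rcases eq_or_ne m 49 with rfl | h49
  · exact Or.inr (Or.inr ⟨7, 1, by norm_num, by norm_num, by norm_num⟩)
  rcases Nat.lt_or_ge 32 m with h32 | h32
  · right
    interval_cases m
    all_goals first
      | exact absurd (by decide) hn
      | exact absurd rfl h49
      | exact Or.inl (by decide)
      | exact Or.inr ⟨_, 0, by norm_num, by norm_num, (pow_one _).symm⟩
  · exact Or.inl h32

end Pool.Agent.N997.TF
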