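import Pool.Agent.N997.TF.Same

/-!
Degree 19: certificates.
-/

set_option maxRecDepth 100000

namespace Pool.Agent.N997.TF

def c19_1 : Cert :=
  ⟨[1],[1,2,3,4,5,6,7,8,9,10,11,12,13,14,15,16,17,18],[1,2,3,4,5,6,7,8,9],[[],[1,0,0,0,0,0,0,0,0],[0,1,0,0,0,0,0,0,0],[0,0,1,0,0,0,0,0,0],[0,0,0,1,0,0,0,0,0],[0,0,0,0,1,0,0,0,0],[0,0,0,0,0,1,0,0,0],[0,0,0,0,0,0,1,0,0],[0,0,0,0,0,0,0,1,0],[0,0,0,0,0,0,0,0,1],[0,0,0,0,0,0,0,0,-1],[0,0,0,0,0,0,0,-1,0],[0,0,0,0,0,0,-1,0,0],[0,0,0,0,0,-1,0,0,0],[0,0,0,0,-1,0,0,0,0],[0,0,0,-1,0,0,0,0,0],[0,0,-1,0,0,0,0,0,0],[0,-1,0,0,0,0,0,0,0],[-1,0,0,0,0,0,0,0,0]],[],[1,2,3,4,5,6,7,8,9],[[0,0,-1,-1,-1,0,-1,0,0],[0,-1,0,0,0,1,1,1,0],[-1,0,0,1,1,0,0,-1,0],[-1,0,1,1,0,-1,0,0,0],[-1,0,1,0,0,0,1,0,-1],[0,1,0,-1,0,0,-1,0,1],[-1,1,0,0,1,-1,0,0,0],[0,1,-1,0,0,0,0,-1,1],[0,0,0,0,-1,1,0,1,-1]],38,[(18,[(1,.two [1] [18])]),(17,[(1,.two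 [2] [17])]),(16,[(1,.two [3] [16])]),(15,[(1,.two [4] [15])]),(14,[(1,.two [5] [14])]),(13,[(1,.two [6] [13])]),(12,[(1,.two [7] [12])]),(11,[(1,.two [8] [11])]),(10,[(1,.two [9] [10])])]⟩

theorem k19_1 : chk 19 1 c19_1 = true := by decide +kernel

def c19_2 : Cert :=
  ⟨[1,2,4,8,16,13,7,14,9,18,17,15,11,3,6,12,5,10],[1,2,3,4,5,6,7,8,9,10,11,12,13,14,15,16,17,18],[],[[],[],[],[],[],[],[],[],[],[],[],[],[],[],[],[],[],[],[]],[1],[],[],1,[(2,[(1,.one [2])]),(3,[(1,.one [3])]),(4,[(1,.one [4])]),(5,[(1,.one [5])]),(6,[(1,.one [6])]),(7,[(1,.one [7])]),(8,[(1,.one [8])]),(9,[(1,.one [9])]),(10,[(1,.one [10])]),(11,[(1,.one [11])]),(12,[(1,.one [12])]),(13,[(1,.one [13])]),(14,[(1,.one [14])]),(15,[(1,.one [15])]),(16,[(1,.one [16])]),(17,[(1,.one [17])]),(18,[(1,.one [18])])]⟩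

theorem k19_2 : chk 19 2 c19_2 = true := by decide +kernel

def c19_4 : Cert :=
  ⟨[1,4,16,7,9,17,11,6,5],[1,2,3,4,5,6,7,8,9,10,11,12,13,14,15,16,17,18],[1],[[],[1],[-1],[-1],[1],[1],[1],[1],[-1],[1],[-1],[1],[-1],[-1],[-1],[-1],[1],[1],[-1]],[],[1],[[-1]],19,[(2,[(1,.two [1] [2])]),(3,[(1,.two [1] [3])]),(8,[(1,.two [1] [8])]),(10,[(1,.two [1] [10])]),(12,[(1,.two [1] [12])]),(13,[(1,.two [1] [13])]),(14,[(1,.two [1] [14])]),(15,[(1,.two [1] [15])]),(18,[(1,.two [1] [18])]),(4,[(1,.two [4] [2])]),(5,[(1,.two [5] [2])]),(6,[(1,.two [6] [2])]),(7,[(1,.two [7] [2])]),(9,[(1,.two [9] [2])]),(11,[(1,.two [11] [2])]),(16,[(1,.two [16] [2])]),(17,[(1,.two [17] [2])])]⟩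

theorem k19_4 : chk 19 4 c19_4 = true := by decide +kernel

def c19_7 : Cert :=
  ⟨[1,7,11],[1,2,3,4,5,6,7,8,9,10,11,12,13,14,15,16,17,18],[1,2,4],[[],[1,0,0],[0,1,0],[0,1,0],[0,0,1],[0,-1,0],[0,0,1],[1,0,0],[-1,0,0],[0,0,1],[0,0,-1],[1,0,0],[-1,0,0],[0,0,-1],[0,1,0],[0,0,-1],[0,-1,0],[0,-1,0],[-1,0,0]],[],[1,2,4],[[-1,0,-1],[0,-1,1],[-1,1,0]],38,[(8,[(1,.two [1] [8])]),(12,[(1,.two [1] [12])]),(18,[(1,.two [1] [18])]),(7,[(1,.two [7] [8])]),(11,[(1,.two [11] [8])]),(5,[(1,.two [2] [5])]),(16,[(1,.two [2] [16])]),(17,[(1,.two [2] [17])]),(3,[(1,.two [3] [5])]),(14,[(1,.two [14] [5])]),(10,[(1,.two [4] [10])]),(13,[(1,.two [4] [13])]),(15,[(1,.two [4] [15])]),(6,[(1,.two [6] [10])]),(9,[(1,.two [9] [10])])]⟩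

theorem k19_7 : chk 19 7 c19_7 = true := by decide +kernel

def c19_8 : Cert :=
  ⟨[1,8,7,18,11,12],[1,2,3,4,5,6,7,8,9,10,11,12,13,14,15,16,17,18],[],[[],[],[],[],[],[],[],[],[],[],[],[],[],[],[],[],[],[],[]],[1],[],[],1,[(2,[(1,.one [2])]),(3,[(1,.one [3])]),(4,[(1,.one [4])]),(5,[(1,.one [5])]),(6,[(1,.one [6])]),(7,[(1,.one [7])]),(8,[(1,.one [8])]),(9,[(1,.one [9])]),(10,[(1,.one [10])]),(11,[(1,.one [11])]),(12,[(1,.one [12])]),(13,[(1,.one [13])]),(14,[(1,.one [14])]),(15,[(1,.one [15])]),(16,[(1,.one [16])]),(17,[(1,.one [17])]),(18,[(1,.one [18])])]⟩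

theorem k19_8 : chk 19 8 c19_8 = true := by decide +kernel

def c19_18 : Cert :=
  ⟨[1,18],[1,2,3,4,5,6,7,8,9,10,11,12,13,14,15,16,17,18],[],[[],[],[],[],[],[],[],[],[],[],[],[],[],[],[],[],[],[],[]],[1],[],[],1,[(2,[(1,.one [2])]),(3,[(1,.one [3])]),(4,[(1,.one [4])]),(5,[(1,.one [5])]),(6,[(1,.one [6])]),(7,[(1,.one [7])]),(8,[(1,.one [8])]),(9,[(1,.one [9])]),(10,[(1,.one [10])]),(11,[(1,.one [11])]),(12,[(1,.one [12])]),(13,[(1,.one [13])]),(14,[(1,.one [14])]),(15,[(1,.one [15])]),(16,[(1,.one [16])]),(17,[(1,.one [17])]),(18,[(1,.one [18])])]⟩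

theorem k19_18 : chk 19 18 c19_18 = true := by decide +kernel

theorem all19 : ∀ x < 19, x.Coprime 19 → Full 19 x := by
  intro x hx hc
  interval_cases x
  · exact absurd hc (by decide)
  · exact full_of_chk k19_1
  · exact full_of_chk k19_2
  · exact full_same 13 7 k19_2 (by decide) (by decide)
  · exact full_of_chk k19_4
  · exact full_same 8 8 k19_4 (by decide) (by decide)
  · exact full_same 7 4 k19_4 (by decide) (by decide)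
  · exact full_of_chk k19_7
  · exact full_of_chk k19_8
  · exact full_same 4 7 k19_4 (by decide) (by decide)
  · exact full_same 17 17 k19_2 (by decide) (by decide)
  · exact full_same 2 2 k19_7 (by decide) (by decide)
  · exact full_same 5 5 k19_8 (by decide) (by decide)
  · exact full_same 5 11 k19_2 (by decide) (by decide)
  · exact full_same 7 13 k19_2 (by decide) (by decide)
  · exact full_same 11 5 k19_2 (by decide) (by decide)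
  · exact full_same 2 5 k19_4 (by decide) (by decide)
  · exact full_same 5 2 k19_4 (by decide) (by decide)
  · exact full_of_chk k19_18

end Pool.Agent.N997.TF
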