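import Pool.Agent.N997.TF.Same

/-!
Degree 2: certificates.
-/

set_option maxRecDepth 100000

namespace Pool.Agent.N997.TF

def c2_1 : Cert :=
  ⟨[1],[1],[],[[],[]],[1],[],[],1,[]⟩

theorem k2_1 : chk 2 1 c2_1 = true := by decide +kernel

theorem all2 : ∀ x < 2, x.Coprime 2 → Full 2 x := by
  intro x hx hc
  interval_cases x
  · exact absurd hc (by decide)
  · exact full_of_chk k2_1

end Pool.Agent.N997.TF
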