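import Pool.Agent.N997.TF.Same

/-!
Degree 64: certificates.
-/

set_option maxRecDepth 100000

namespace Pool.Agent.N997.TF

def c64_1 : Cert :=
  ⟨[1],[1,3,5,7,9,11,13,15,17,19,21,23,25,27,29,31,33,35,37,39,41,43,45,47,49,51,53,55,57,59,61,63],[1,2,3,4,5,6,7,8,9,10,11,12,13,14,15,16],[[],[1,0,0,0,0,0,0,0,0,0,0,0,0,0,0,0],[0,1,0,0,0,0,0,0,0,0,0,0,0,0,0,0],[0,0,1,0,0,0,0,0,0,0,0,0,0,0,0,0],[0,0,0,1,0,0,0,0,0,0,0,0,0,0,0,0],[0,0,0,0,1,0,0,0,0,0,0,0,0,0,0,0],[0,0,0,0,0,1,0,0,0,0,0,0,0,0,0,0],[0,0,0,0,0,0,1,0,0,0,0,0,0,0,0,0],[0,0,0,0,0,0,0,1,0,0,0,0,0,0,0,0],[0,0,0,0,0,0,0,0,1,0,0,0,0,0,0,0],[0,0,0,0,0,0,0,0,0,1,0,0,0,0,0,0],[0,0,0,0,0,0,0,0,0,0,1,0,0,0,0,0],[0,0,0,0,0,0,0,0,0,0,0,1,0,0,0,0],[0,0,0,0,0,0,0,0,0,0,0,0,1,0,0,0],[0,0,0,0,0,0,0,0,0,0,0,0,0,1,0,0],[0,0,0,0,0,0,0,0,0,0,0,0,0,0,1,0],[0,0,0,0,0,0,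0,0,0,0,0,0,0,0,0,1],[0,-1,0,1,0,0,0,0,0,0,0,0,0,0,1,0],[0,0,0,-1,0,0,0,1,0,0,0,0,0,1,0,0],[0,0,0,0,0,-1,0,0,0,0,0,1,1,0,0,0],[0,0,0,0,0,0,0,-1,0,0,0,1,0,0,0,1],[0,0,0,0,0,0,0,-1,0,-1,1,1,0,0,0,1],[0,0,0,0,0,0,0,1,0,1,0,-1,0,0,0,-1],[0,0,0,1,0,0,0,-1,1,0,0,0,0,-1,0,0],[0,0,0,0,0,0,0,1,0,0,0,0,0,0,0,-1],[0,0,0,0,0,0,1,0,0,0,0,0,0,-1,0,0],[0,0,0,0,0,1,0,0,0,0,0,-1,0,0,0,0],[0,0,0,0,1,0,0,0,0,-1,0,0,0,0,0,0],[0,0,0,1,0,0,0,-1,0,0,0,0,0,0,0,0],[0,0,1,0,0,-1,0,0,0,0,0,0,0,0,0,0],[0,1,0,-1,0,0,0,0,0,0,0,0,0,0,0,0],[1,-1,0,0,0,0,0,0,0,0,0,0,0,0,0,0],[0,0,0,0,0,0,0,0,0,0,0,0,0,0,0,0],[-1,1,0,0,0,0,0,0,0,0,0,0,0,0,0,0],[0,-1,0,1,0,0,0,0,0,0,0,0,0,0,0,0],[0,0,-1,0,0,1,0,0,0,0,0,0,0,0,0,0],[0,0,0,-1,0,0,0,1,0,0,0,0,0,0,0,0],[0,0,0,0,-1,0,0,0,0,1,0,0,0,0,0,0],[0,0,0,0,0,-1,0,0,0,0,0,1,0,0,0,0],[0,0,0,0,0,0,-1,0,0,0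,0,0,0,1,0,0],[0,0,0,0,0,0,0,-1,0,0,0,0,0,0,0,1],[0,0,0,-1,0,0,0,1,-1,0,0,0,0,1,0,0],[0,0,0,0,0,0,0,-1,0,-1,0,1,0,0,0,1],[0,0,0,0,0,0,0,1,0,1,-1,-1,0,0,0,-1],[0,0,0,0,0,0,0,1,0,0,0,-1,0,0,0,-1],[0,0,0,0,0,1,0,0,0,0,0,-1,-1,0,0,0],[0,0,0,1,0,0,0,-1,0,0,0,0,0,-1,0,0],[0,1,0,-1,0,0,0,0,0,0,0,0,0,0,-1,0],[0,0,0,0,0,0,0,0,0,0,0,0,0,0,0,-1],[0,0,0,0,0,0,0,0,0,0,0,0,0,0,-1,0],[0,0,0,0,0,0,0,0,0,0,0,0,0,-1,0,0],[0,0,0,0,0,0,0,0,0,0,0,0,-1,0,0,0],[0,0,0,0,0,0,0,0,0,0,0,-1,0,0,0,0],[0,0,0,0,0,0,0,0,0,0,-1,0,0,0,0,0],[0,0,0,0,0,0,0,0,0,-1,0,0,0,0,0,0],[0,0,0,0,0,0,0,0,-1,0,0,0,0,0,0,0],[0,0,0,0,0,0,0,-1,0,0,0,0,0,0,0,0],[0,0,0,0,0,0,-1,0,0,0,0,0,0,0,0,0],[0,0,0,0,0,-1,0,0,0,0,0,0,0,0,0,0],[0,0,0,0,-1,0,0,0,0,0,0,0,0,0,0,0],[0,0,0,-1,0,0,0,0,0,0,0,0,0,0,0,0],[0,0,-1,0,0,0,0,0,0,0,0,0,0,0,0,0],[0,-1,0,0,0,0,0,0,0,0,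0,0,0,0,0,0],[-1,0,0,0,0,0,0,0,0,0,0,0,0,0,0,0]],[32],[1,3,5,7,9,11,13,15,17,19,21,23,25,27,29,31],[[-3,-2,1,-6,-7,-4,-8,-5,-5,-8,-4,-7,-6,1,-2,-3],[4,-3,-7,-9,-2,-6,5,1,1,5,11,15,8,10,-3,4],[-2,-7,-5,-4,1,3,6,8,8,6,3,1,-4,-5,-7,-2],[-6,-4,2,5,3,9,1,7,-10,1,-8,-14,5,2,13,-6],[1,-5,-6,2,8,7,-3,-4,-4,-3,7,8,2,-6,-5,1],[5,-8,4,10,6,1,-15,-3,-3,2,1,-11,-7,4,9,5],[-6,-4,2,5,3,-8,1,7,7,1,-8,3,5,2,-4,-6],[-3,-2,1,11,-7,-4,9,-5,12,-8,-4,10,-6,-16,-2,14],[-7,1,8,3,-5,2,4,-6,-6,4,2,-5,3,8,1,-7],[-7,1,8,3,-5,2,4,-6,11,4,-15,-5,3,-9,1,10],[-4,3,7,-8,2,6,-5,-1,-1,-5,6,2,-8,7,3,-4],[-6,13,2,-12,3,-8,1,7,-10,1,9,3,5,2,-4,-6],[-8,6,-3,1,4,-5,7,-2,-2,7,-5,4,1,-3,6,-8],[-2,10,-5,-4,1,3,6,-9,8,-11,3,1,-4,-5,-7,15],[-5,8,-4,7,-6,-1,-2,3,3,-2,-1,-6,7,-4,8,-5],[-2,10,-5,-4,1,3,-11,8,-9,6,3,1,-4,12,-7,-2]],2176,[(63,[(1,.two [1]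 [63])]),(62,[(1,.two [2] [62])]),(61,[(1,.two [3] [61])]),(60,[(1,.two [4] [60])]),(59,[(1,.two [5] [59])]),(58,[(1,.two [6] [58])]),(57,[(1,.two [7] [57])]),(56,[(1,.two [8] [56])]),(55,[(1,.two [9] [55])]),(54,[(1,.two [10] [54])]),(53,[(1,.two [11] [53])]),(52,[(1,.two [12] [52])]),(51,[(1,.two [13] [51])]),(50,[(1,.two [14] [50])]),(49,[(1,.two [15] [49])]),(48,[(1,.two [16] [48])]),(33,[(1,.dup 1)]),(34,[(1,.dup 2)]),(35,[(1,.dup 3)]),(36,[(1,.dup 4)]),(37,[(1,.dup 5)]),(38,[(1,.dup 6)]),(39,[(1,.dup 7)]),(40,[(1,.dup 8)]),(17,[(1,.dup 17)]),(18,[(1,.dup 18)]),(19,[(1,.dup 19)]),(20,[(1,.dup 20)]),(24,[(1,.dup 24)]),(25,[(1,.dup 25)]),(26,[(1,.dup 26)]),(27,[(1,.dup 27)]),(28,[(1,.dup 28)]),(29,[(1,.dup 29)]),(30,[(1,.dup 30)]),(31,[(1,.dup 31)]),(47,[(1,.two [2,15,47] [4,62,62])]),(46,[(1,.two [4,14,46]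 [8,60,60])]),(45,[(1,.two [6,13,45] [12,58,58])]),(44,[(1,.two [8,12,44] [16,56,56])]),(22,[(1,.two [5,22,37] [20,54,54])]),(21,[(1,.two [10,10,44] [21,53,54])]),(42,[(1,.two [10,10,44] [27,42,59])]),(43,[(1,.two [10,11,43] [20,54,54])]),(41,[(1,.two [9,14,41] [28,50,50])]),(23,[(1,.two [14,14,36] [23,50,55])])]⟩

theorem k64_1 : chk 64 1 c64_1 = true := by decide +kernel

def c64_3 : Cert :=
  ⟨[1,3,9,27,17,51,25,11,33,35,41,59,49,19,57,43],[1,3,5,7,9,11,13,15,17,19,21,23,25,27,29,31,33,35,37,39,41,43,45,47,49,51,53,55,57,59,61,63],[1],[[],[1],[2],[1],[4],[-1],[2],[-1],[8],[1],[-2],[1],[4],[-1],[-2],[-1],[0],[1],[2],[1],[-4],[-1],[2],[-1],[8],[1],[-2],[1],[-4],[-1],[-2],[-1],[0],[1],[2],[1],[4],[-1],[2],[-1],[-8],[1],[-2],[1],[4],[-1],[-2],[-1],[0],[1],[2],[1],[-4],[-1],[2],[-1],[-8],[1],[-2],[1],[-4],[-1],[-2],[-1]],[16],[1],[[-1]],64,[(32,[(1,.one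 [32])]),(48,[(1,.one [48])]),(5,[(1,.two [1] [5])]),(7,[(1,.two [1] [7])]),(13,[(1,.two [1] [13])]),(15,[(1,.two [1] [15])]),(21,[(1,.two [1] [21])]),(23,[(1,.two [1] [23])]),(29,[(1,.two [1] [29])]),(31,[(1,.two [1] [31])]),(37,[(1,.two [1] [37])]),(39,[(1,.two [1] [39])]),(45,[(1,.two [1] [45])]),(47,[(1,.two [1] [47])]),(53,[(1,.two [1] [53])]),(55,[(1,.two [1] [55])]),(61,[(1,.two [1] [61])]),(63,[(1,.two [1] [63])]),(3,[(1,.two [3] [5])]),(9,[(1,.two [9] [5])]),(11,[(1,.two [11] [5])]),(17,[(1,.two [17] [5])]),(19,[(1,.two [19] [5])]),(25,[(1,.two [25] [5])]),(27,[(1,.two [27] [5])]),(33,[(1,.two [33] [5])]),(35,[(1,.two [35] [5])]),(41,[(1,.two [41] [5])]),(43,[(1,.two [43] [5])]),(49,[(1,.two [49] [5])]),(51,[(1,.two [51] [5])]),(57,[(1,.two [57] [5])]),(59,[(1,.two [59] [5])]),(62,[(1,.one [1,1,62])]),(2,[(1,.one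 [2,31,31])]),(58,[(1,.one [3,3,58])]),(4,[(1,.one [4,62,62])]),(54,[(1,.one [5,5,54])]),(6,[(1,.one [6,29,29])]),(50,[(1,.one [7,7,50])]),(46,[(1,.one [9,9,46])]),(10,[(1,.one [10,27,27])]),(42,[(1,.one [11,11,42])]),(12,[(1,.one [12,58,58])]),(38,[(1,.one [13,13,38])]),(14,[(1,.one [14,25,25])]),(34,[(1,.one [15,15,34])]),(30,[(1,.one [17,17,30])]),(18,[(1,.one [18,23,23])]),(26,[(1,.one [19,19,26])]),(20,[(1,.one [20,54,54])]),(22,[(1,.one [21,21,22])]),(28,[(1,.one [28,50,50])]),(60,[(1,.one [34,34,60])]),(36,[(1,.one [36,46,46])]),(52,[(1,.one [38,38,52])]),(44,[(1,.one [42,42,44])]),(56,[(1,.two [16] [4,4,56])]),(8,[(1,.two [16] [8,28,28])]),(40,[(1,.two [16] [12,12,40])]),(24,[(1,.two [16] [20,20,24])])]⟩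

theorem k64_3 : chk 64 3 c64_3 = true := by decide +kernel

def c64_5 : Cert :=
  ⟨[1,5,25,61,49,53,9,45,33,37,57,29,17,21,41,13],[1,3,5,7,9,11,13,15,17,19,21,23,25,27,29,31,33,35,37,39,41,43,45,47,49,51,53,55,57,59,61,63],[1],[[],[1],[2],[-1],[4],[1],[-2],[-1],[8],[1],[2],[-1],[-4],[1],[-2],[-1],[16],[1],[2],[-1],[4],[1],[-2],[-1],[-8],[1],[2],[-1],[-4],[1],[-2],[-1],[0],[1],[2],[-1],[4],[1],[-2],[-1],[8],[1],[2],[-1],[-4],[1],[-2],[-1],[-16],[1],[2],[-1],[4],[1],[-2],[-1],[-8],[1],[2],[-1],[-4],[1],[-2],[-1]],[32],[1],[[-1]],32,[(3,[(1,.two [1] [3])]),(7,[(1,.two [1] [7])]),(11,[(1,.two [1] [11])]),(15,[(1,.two [1] [15])]),(19,[(1,.two [1] [19])]),(23,[(1,.two [1] [23])]),(27,[(1,.two [1] [27])]),(31,[(1,.two [1] [31])]),(35,[(1,.two [1] [35])]),(39,[(1,.two [1] [39])]),(43,[(1,.two [1] [43])]),(47,[(1,.two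 [1] [47])]),(51,[(1,.two [1] [51])]),(55,[(1,.two [1] [55])]),(59,[(1,.two [1] [59])]),(63,[(1,.two [1] [63])]),(5,[(1,.two [5] [3])]),(9,[(1,.two [9] [3])]),(13,[(1,.two [13] [3])]),(17,[(1,.two [17] [3])]),(21,[(1,.two [21] [3])]),(25,[(1,.two [25] [3])]),(29,[(1,.two [29] [3])]),(33,[(1,.two [33] [3])]),(37,[(1,.two [37] [3])]),(41,[(1,.two [41] [3])]),(45,[(1,.two [45] [3])]),(49,[(1,.two [49] [3])]),(53,[(1,.two [53] [3])]),(57,[(1,.two [57] [3])]),(61,[(1,.two [61] [3])]),(62,[(1,.one [1,1,62])]),(2,[(1,.one [2,31,31])]),(58,[(1,.one [3,3,58])]),(4,[(1,.one [4,62,62])]),(54,[(1,.one [5,5,54])]),(6,[(1,.one [6,29,29])]),(50,[(1,.one [7,7,50])]),(46,[(1,.one [9,9,46])]),(10,[(1,.one [10,27,27])]),(42,[(1,.one [11,11,42])]),(12,[(1,.one [12,58,58])]),(38,[(1,.one [13,13,38])]),(14,[(1,.one [14,25,25])]),(34,[(1,.one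 [15,15,34])]),(30,[(1,.one [17,17,30])]),(18,[(1,.one [18,23,23])]),(26,[(1,.one [19,19,26])]),(20,[(1,.one [20,54,54])]),(22,[(1,.one [21,21,22])]),(28,[(1,.one [28,50,50])]),(60,[(1,.one [34,34,60])]),(36,[(1,.one [36,46,46])]),(52,[(1,.one [38,38,52])]),(44,[(1,.one [42,42,44])]),(56,[(1,.two [32] [4,4,56])]),(8,[(1,.two [32] [8,28,28])]),(40,[(1,.two [32] [12,12,40])]),(16,[(1,.two [32] [16,56,56])]),(24,[(1,.two [32] [20,20,24])]),(48,[(1,.two [32] [40,40,48])])]⟩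

theorem k64_5 : chk 64 5 c64_5 = true := by decide +kernel

def c64_7 : Cert :=
  ⟨[1,7,49,23,33,39,17,55],[1,3,5,7,9,11,13,15,17,19,21,23,25,27,29,31,33,35,37,39,41,43,45,47,49,51,53,55,57,59,61,63],[1,3],[[],[1,0],[2,0],[0,1],[4,0],[0,1],[0,2],[1,0],[0,0],[-1,0],[0,2],[0,-1],[0,4],[0,-1],[2,0],[-1,0],[0,0],[1,0],[-2,0],[0,1],[0,4],[0,1],[0,-2],[1,0],[0,0],[-1,0],[0,-2],[0,-1],[4,0],[0,-1],[-2,0],[-1,0],[0,0],[1,0],[2,0],[0,1],[-4,0],[0,1],[0,2],[1,0],[0,0],[-1,0],[0,2],[0,-1],[0,-4],[0,-1],[2,0],[-1,0],[0,0],[1,0],[-2,0],[0,1],[0,-4],[0,1],[0,-2],[1,0],[0,0],[-1,0],[0,-2],[0,-1],[-4,0],[0,-1],[-2,0],[-1,0]],[8],[1,3],[[-1,-1],[-1,1]],128,[(16,[(1,.one [16])]),(24,[(1,.one [24])]),(32,[(1,.one [32])]),(40,[(1,.one [40])]),(48,[(1,.one [48])]),(56,[(1,.one [56])]),(9,[(1,.two [1] [9])]),(15,[(1,.two [1]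 [15])]),(25,[(1,.two [1] [25])]),(31,[(1,.two [1] [31])]),(41,[(1,.two [1] [41])]),(47,[(1,.two [1] [47])]),(57,[(1,.two [1] [57])]),(63,[(1,.two [1] [63])]),(7,[(1,.two [7] [9])]),(17,[(1,.two [17] [9])]),(23,[(1,.two [23] [9])]),(33,[(1,.two [33] [9])]),(39,[(1,.two [39] [9])]),(49,[(1,.two [49] [9])]),(55,[(1,.two [55] [9])]),(11,[(1,.two [3] [11])]),(13,[(1,.two [3] [13])]),(27,[(1,.two [3] [27])]),(29,[(1,.two [3] [29])]),(43,[(1,.two [3] [43])]),(45,[(1,.two [3] [45])]),(59,[(1,.two [3] [59])]),(61,[(1,.two [3] [61])]),(5,[(1,.two [5] [11])]),(19,[(1,.two [19] [11])]),(21,[(1,.two [21] [11])]),(35,[(1,.two [35] [11])]),(37,[(1,.two [37] [11])]),(51,[(1,.two [51] [11])]),(53,[(1,.two [53] [11])]),(62,[(1,.one [1,1,62])]),(2,[(1,.one [2,31,31])]),(58,[(1,.one [3,3,58])]),(4,[(1,.one [4,62,62])]),(54,[(1,.one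 [5,5,54])]),(6,[(1,.one [6,29,29])]),(50,[(1,.one [7,7,50])]),(46,[(1,.one [9,9,46])]),(10,[(1,.one [10,27,27])]),(42,[(1,.one [11,11,42])]),(12,[(1,.one [12,58,58])]),(38,[(1,.one [13,13,38])]),(14,[(1,.one [14,25,25])]),(34,[(1,.one [15,15,34])]),(30,[(1,.one [17,17,30])]),(18,[(1,.one [18,23,23])]),(26,[(1,.one [19,19,26])]),(20,[(1,.one [20,54,54])]),(22,[(1,.one [21,21,22])]),(28,[(1,.one [28,50,50])]),(60,[(1,.one [34,34,60])]),(36,[(1,.one [36,46,46])]),(52,[(1,.one [38,38,52])]),(44,[(1,.one [42,42,44])])]⟩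

theorem k64_7 : chk 64 7 c64_7 = true := by decide +kernel

def c64_9 : Cert :=
  ⟨[1,9,17,25,33,41,49,57],[1,3,5,7,9,11,13,15,17,19,21,23,25,27,29,31,33,35,37,39,41,43,45,47,49,51,53,55,57,59,61,63],[1,3],[[],[1,0],[2,0],[0,1],[4,0],[0,-1],[0,2],[-1,0],[8,0],[1,0],[0,-2],[0,1],[0,4],[0,-1],[-2,0],[-1,0],[8,-8],[1,0],[2,0],[0,1],[0,-4],[0,-1],[0,2],[-1,0],[0,8],[1,0],[0,-2],[0,1],[-4,0],[0,-1],[-2,0],[-1,0],[0,0],[1,0],[2,0],[0,1],[4,0],[0,-1],[0,2],[-1,0],[0,-8],[1,0],[0,-2],[0,1],[0,4],[0,-1],[-2,0],[-1,0],[-8,8],[1,0],[2,0],[0,1],[0,-4],[0,-1],[0,2],[-1,0],[-8,0],[1,0],[0,-2],[0,1],[-4,0],[0,-1],[-2,0],[-1,0]],[32],[1,3],[[-3,1],[1,-3]],128,[(7,[(1,.two [1] [7])]),(15,[(1,.two [1] [15])]),(23,[(1,.two [1] [23])]),(31,[(1,.two [1] [31])]),(39,[(1,.two [1] [39])]),(47,[(1,.two [1] [47])]),(55,[(1,.two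 [1] [55])]),(63,[(1,.two [1] [63])]),(9,[(1,.two [9] [7])]),(17,[(1,.two [17] [7])]),(25,[(1,.two [25] [7])]),(33,[(1,.two [33] [7])]),(41,[(1,.two [41] [7])]),(49,[(1,.two [49] [7])]),(57,[(1,.two [57] [7])]),(5,[(1,.two [3] [5])]),(13,[(1,.two [3] [13])]),(21,[(1,.two [3] [21])]),(29,[(1,.two [3] [29])]),(37,[(1,.two [3] [37])]),(45,[(1,.two [3] [45])]),(53,[(1,.two [3] [53])]),(61,[(1,.two [3] [61])]),(11,[(1,.two [11] [5])]),(19,[(1,.two [19] [5])]),(27,[(1,.two [27] [5])]),(35,[(1,.two [35] [5])]),(43,[(1,.two [43] [5])]),(51,[(1,.two [51] [5])]),(59,[(1,.two [59] [5])]),(62,[(1,.one [1,1,62])]),(2,[(1,.one [2,31,31])]),(58,[(1,.one [3,3,58])]),(4,[(1,.one [4,62,62])]),(54,[(1,.one [5,5,54])]),(6,[(1,.one [6,29,29])]),(50,[(1,.one [7,7,50])]),(46,[(1,.one [9,9,46])]),(10,[(1,.one [10,27,27])]),(42,[(1,.one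 [11,11,42])]),(12,[(1,.one [12,58,58])]),(38,[(1,.one [13,13,38])]),(14,[(1,.one [14,25,25])]),(34,[(1,.one [15,15,34])]),(30,[(1,.one [17,17,30])]),(18,[(1,.one [18,23,23])]),(26,[(1,.one [19,19,26])]),(20,[(1,.one [20,54,54])]),(22,[(1,.one [21,21,22])]),(28,[(1,.one [28,50,50])]),(60,[(1,.one [34,34,60])]),(36,[(1,.one [36,46,46])]),(52,[(1,.one [38,38,52])]),(44,[(1,.one [42,42,44])]),(56,[(1,.two [32] [4,4,56])]),(8,[(1,.two [32] [8,28,28])]),(40,[(1,.two [32] [12,12,40])]),(24,[(1,.two [32] [20,20,24])]),(16,[(1,.dup 8)]),(48,[(1,.dup 24)])]⟩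

theorem k64_9 : chk 64 9 c64_9 = true := by decide +kernel

def c64_15 : Cert :=
  ⟨[1,15,33,47],[1,3,5,7,9,11,13,15,17,19,21,23,25,27,29,31,33,35,37,39,41,43,45,47,49,51,53,55,57,59,61,63],[1,3,5,7],[[],[1,0,0,0],[2,0,0,0],[0,1,0,0],[0,0,0,0],[0,0,1,0],[0,2,0,0],[0,0,0,1],[0,0,0,0],[0,0,0,1],[0,0,2,0],[0,0,1,0],[0,0,0,0],[0,1,0,0],[0,0,0,2],[1,0,0,0],[0,0,0,0],[-1,0,0,0],[0,0,0,2],[0,-1,0,0],[0,0,0,0],[0,0,-1,0],[0,0,2,0],[0,0,0,-1],[0,0,0,0],[0,0,0,-1],[0,2,0,0],[0,0,-1,0],[0,0,0,0],[0,-1,0,0],[2,0,0,0],[-1,0,0,0],[0,0,0,0],[1,0,0,0],[-2,0,0,0],[0,1,0,0],[0,0,0,0],[0,0,1,0],[0,-2,0,0],[0,0,0,1],[0,0,0,0],[0,0,0,1],[0,0,-2,0],[0,0,1,0],[0,0,0,0],[0,1,0,0],[0,0,0,-2],[1,0,0,0],[0,0,0,0],[-1,0,0,0],[0,0,0,-2],[0,-1,0,0],[0,0,0,0],[0,0,-1,0],[0,0,-2,0],[0,0,0,-1],[0,0,0,0],[0,0,0,-1],[0,-2,0,0],[0,0,-1,0],[0,0,0,0],[0,-1,0,0],[-2,0,0,0],[-1,0,0,0]],[4],[1,3,5,7],[[0,0,-1,-1],[0,-1,0,1],[-1,0,1,0],[-1,1,0,0]],128,[(8,[(1,.one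 [8])]),(12,[(1,.one [12])]),(16,[(1,.one [16])]),(20,[(1,.one [20])]),(24,[(1,.one [24])]),(28,[(1,.one [28])]),(32,[(1,.one [32])]),(36,[(1,.one [36])]),(40,[(1,.one [40])]),(44,[(1,.one [44])]),(48,[(1,.one [48])]),(52,[(1,.one [52])]),(56,[(1,.one [56])]),(60,[(1,.one [60])]),(17,[(1,.two [1] [17])]),(31,[(1,.two [1] [31])]),(49,[(1,.two [1] [49])]),(63,[(1,.two [1] [63])]),(15,[(1,.two [15] [17])]),(33,[(1,.two [33] [17])]),(47,[(1,.two [47] [17])]),(19,[(1,.two [3] [19])]),(29,[(1,.two [3] [29])]),(51,[(1,.two [3] [51])]),(61,[(1,.two [3] [61])]),(13,[(1,.two [13] [19])]),(35,[(1,.two [35] [19])]),(45,[(1,.two [45] [19])]),(21,[(1,.two [5] [21])]),(27,[(1,.two [5] [27])]),(53,[(1,.two [5] [53])]),(59,[(1,.two [5] [59])]),(11,[(1,.two [11] [21])]),(37,[(1,.two [37] [21])]),(43,[(1,.two [43] [21])]),(23,[(1,.two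 [7] [23])]),(25,[(1,.two [7] [25])]),(55,[(1,.two [7] [55])]),(57,[(1,.two [7] [57])]),(9,[(1,.two [9] [23])]),(39,[(1,.two [39] [23])]),(41,[(1,.two [41] [23])]),(62,[(1,.one [1,1,62])]),(2,[(1,.one [2,31,31])]),(58,[(1,.one [3,3,58])]),(54,[(1,.one [5,5,54])]),(6,[(1,.one [6,29,29])]),(50,[(1,.one [7,7,50])]),(46,[(1,.one [9,9,46])]),(10,[(1,.one [10,27,27])]),(42,[(1,.one [11,11,42])]),(38,[(1,.one [13,13,38])]),(14,[(1,.one [14,25,25])]),(34,[(1,.one [15,15,34])]),(30,[(1,.one [17,17,30])]),(18,[(1,.one [18,23,23])]),(26,[(1,.one [19,19,26])]),(22,[(1,.one [21,21,22])])]⟩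

theorem k64_15 : chk 64 15 c64_15 = true := by decide +kernel

def c64_17 : Cert :=
  ⟨[1,17,33,49],[1,3,5,7,9,11,13,15,17,19,21,23,25,27,29,31,33,35,37,39,41,43,45,47,49,51,53,55,57,59,61,63],[1,3,5,7],[[],[1,0,0,0],[2,0,0,0],[0,1,0,0],[4,0,0,0],[0,0,1,0],[0,2,0,0],[0,0,0,1],[4,0,0,-4],[0,0,0,-1],[0,0,2,0],[0,0,-1,0],[0,4,0,0],[0,-1,0,0],[0,0,0,2],[-1,0,0,0],[4,-4,4,-4],[1,0,0,0],[0,0,0,-2],[0,1,0,0],[0,0,4,0],[0,0,1,0],[0,0,-2,0],[0,0,0,1],[0,4,-4,0],[0,0,0,-1],[0,-2,0,0],[0,0,-1,0],[0,0,0,4],[0,-1,0,0],[-2,0,0,0],[-1,0,0,0],[0,0,0,0],[1,0,0,0],[2,0,0,0],[0,1,0,0],[0,0,0,-4],[0,0,1,0],[0,2,0,0],[0,0,0,1],[0,-4,4,0],[0,0,0,-1],[0,0,2,0],[0,0,-1,0],[0,0,-4,0],[0,-1,0,0],[0,0,0,2],[-1,0,0,0],[-4,4,-4,4],[1,0,0,0],[0,0,0,-2],[0,1,0,0],[0,-4,0,0],[0,0,1,0],[0,0,-2,0],[0,0,0,1],[-4,0,0,4],[0,0,0,-1],[0,-2,0,0],[0,0,-1,0],[-4,0,0,0],[0,-1,0,0],[-2,0,0,0],[-1,0,0,0]],[32],[1,3,5,7],[[-2,0,-1,1],[0,-1,2,-1],[-1,2,-1,0],[1,-1,0,-2]],128,[(15,[(1,.two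 [1] [15])]),(31,[(1,.two [1] [31])]),(47,[(1,.two [1] [47])]),(63,[(1,.two [1] [63])]),(17,[(1,.two [17] [15])]),(33,[(1,.two [33] [15])]),(49,[(1,.two [49] [15])]),(13,[(1,.two [3] [13])]),(29,[(1,.two [3] [29])]),(45,[(1,.two [3] [45])]),(61,[(1,.two [3] [61])]),(19,[(1,.two [19] [13])]),(35,[(1,.two [35] [13])]),(51,[(1,.two [51] [13])]),(11,[(1,.two [5] [11])]),(27,[(1,.two [5] [27])]),(43,[(1,.two [5] [43])]),(59,[(1,.two [5] [59])]),(21,[(1,.two [21] [11])]),(37,[(1,.two [37] [11])]),(53,[(1,.two [53] [11])]),(9,[(1,.two [7] [9])]),(25,[(1,.two [7] [25])]),(41,[(1,.two [7] [41])]),(57,[(1,.two [7] [57])]),(23,[(1,.two [23] [9])]),(39,[(1,.two [39] [9])]),(55,[(1,.two [55] [9])]),(62,[(1,.one [1,1,62])]),(2,[(1,.one [2,31,31])]),(58,[(1,.one [3,3,58])]),(4,[(1,.one [4,62,62])]),(54,[(1,.one [5,5,54])]),(6,[(1,.one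 [6,29,29])]),(50,[(1,.one [7,7,50])]),(46,[(1,.one [9,9,46])]),(10,[(1,.one [10,27,27])]),(42,[(1,.one [11,11,42])]),(12,[(1,.one [12,58,58])]),(38,[(1,.one [13,13,38])]),(14,[(1,.one [14,25,25])]),(34,[(1,.one [15,15,34])]),(30,[(1,.one [17,17,30])]),(18,[(1,.one [18,23,23])]),(26,[(1,.one [19,19,26])]),(20,[(1,.one [20,54,54])]),(22,[(1,.one [21,21,22])]),(28,[(1,.one [28,50,50])]),(60,[(1,.one [34,34,60])]),(36,[(1,.one [36,46,46])]),(52,[(1,.one [38,38,52])]),(44,[(1,.one [42,42,44])]),(8,[(1,.dup 4)]),(24,[(1,.dup 12)]),(40,[(1,.dup 20)]),(56,[(1,.dup 28)]),(16,[(1,.two [4,24,36] [16,56,56])]),(48,[(1,.two [4,24,36] [40,40,48])])]⟩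

theorem k64_17 : chk 64 17 c64_17 = true := by decide +kernel

def c64_31 : Cert :=
  ⟨[1,31],[1,3,5,7,9,11,13,15,17,19,21,23,25,27,29,31,33,35,37,39,41,43,45,47,49,51,53,55,57,59,61,63],[1,3,5,7,9,11,13,15],[[],[1,0,0,0,0,0,0,0],[0,0,0,0,0,0,0,0],[0,1,0,0,0,0,0,0],[0,0,0,0,0,0,0,0],[0,0,1,0,0,0,0,0],[0,0,0,0,0,0,0,0],[0,0,0,1,0,0,0,0],[0,0,0,0,0,0,0,0],[0,0,0,0,1,0,0,0],[0,0,0,0,0,0,0,0],[0,0,0,0,0,1,0,0],[0,0,0,0,0,0,0,0],[0,0,0,0,0,0,1,0],[0,0,0,0,0,0,0,0],[0,0,0,0,0,0,0,1],[0,0,0,0,0,0,0,0],[0,0,0,0,0,0,0,1],[0,0,0,0,0,0,0,0],[0,0,0,0,0,0,1,0],[0,0,0,0,0,0,0,0],[0,0,0,0,0,1,0,0],[0,0,0,0,0,0,0,0],[0,0,0,0,1,0,0,0],[0,0,0,0,0,0,0,0],[0,0,0,1,0,0,0,0],[0,0,0,0,0,0,0,0],[0,0,1,0,0,0,0,0],[0,0,0,0,0,0,0,0],[0,1,0,0,0,0,0,0],[0,0,0,0,0,0,0,0],[1,0,0,0,0,0,0,0],[0,0,0,0,0,0,0,0],[-1,0,0,0,0,0,0,0],[0,0,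0,0,0,0,0,0],[0,-1,0,0,0,0,0,0],[0,0,0,0,0,0,0,0],[0,0,-1,0,0,0,0,0],[0,0,0,0,0,0,0,0],[0,0,0,-1,0,0,0,0],[0,0,0,0,0,0,0,0],[0,0,0,0,-1,0,0,0],[0,0,0,0,0,0,0,0],[0,0,0,0,0,-1,0,0],[0,0,0,0,0,0,0,0],[0,0,0,0,0,0,-1,0],[0,0,0,0,0,0,0,0],[0,0,0,0,0,0,0,-1],[0,0,0,0,0,0,0,0],[0,0,0,0,0,0,0,-1],[0,0,0,0,0,0,0,0],[0,0,0,0,0,0,-1,0],[0,0,0,0,0,0,0,0],[0,0,0,0,0,-1,0,0],[0,0,0,0,0,0,0,0],[0,0,0,0,-1,0,0,0],[0,0,0,0,0,0,0,0],[0,0,0,-1,0,0,0,0],[0,0,0,0,0,0,0,0],[0,0,-1,0,0,0,0,0],[0,0,0,0,0,0,0,0],[0,-1,0,0,0,0,0,0],[0,0,0,0,0,0,0,0],[-1,0,0,0,0,0,0,0]],[2],[1,3,5,7,9,11,13,15],[[-3,-2,1,-6,-7,-4,-8,-5],[-2,-7,-5,-4,1,3,6,8],[1,-5,-6,2,8,7,-3,-4],[-6,-4,2,5,3,-8,1,7],[-7,1,8,3,-5,2,4,-6],[-4,3,7,-8,2,6,-5,-1],[-8,6,-3,1,4,-5,7,-2],[-5,8,-4,7,-6,-1,-2,3]],2176,[(4,[(1,.one [4])]),(6,[(1,.one [6])]),(8,[(1,.one [8])]),(10,[(1,.one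 [10])]),(12,[(1,.one [12])]),(14,[(1,.one [14])]),(16,[(1,.one [16])]),(18,[(1,.one [18])]),(20,[(1,.one [20])]),(22,[(1,.one [22])]),(24,[(1,.one [24])]),(26,[(1,.one [26])]),(28,[(1,.one [28])]),(30,[(1,.one [30])]),(32,[(1,.one [32])]),(34,[(1,.one [34])]),(36,[(1,.one [36])]),(38,[(1,.one [38])]),(40,[(1,.one [40])]),(42,[(1,.one [42])]),(44,[(1,.one [44])]),(46,[(1,.one [46])]),(48,[(1,.one [48])]),(50,[(1,.one [50])]),(52,[(1,.one [52])]),(54,[(1,.one [54])]),(56,[(1,.one [56])]),(58,[(1,.one [58])]),(60,[(1,.one [60])]),(62,[(1,.one [62])]),(33,[(1,.two [1] [33])]),(63,[(1,.two [1] [63])]),(31,[(1,.two [31] [33])]),(35,[(1,.two [3] [35])]),(61,[(1,.two [3] [61])]),(29,[(1,.two [29] [35])]),(37,[(1,.two [5] [37])]),(59,[(1,.two [5] [59])]),(27,[(1,.two [27] [37])]),(39,[(1,.two [7] [39])]),(57,[(1,.two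 [7] [57])]),(25,[(1,.two [25] [39])]),(41,[(1,.two [9] [41])]),(55,[(1,.two [9] [55])]),(23,[(1,.two [23] [41])]),(43,[(1,.two [11] [43])]),(53,[(1,.two [11] [53])]),(21,[(1,.two [21] [43])]),(45,[(1,.two [13] [45])]),(51,[(1,.two [13] [51])]),(19,[(1,.two [19] [45])]),(47,[(1,.two [15] [47])]),(49,[(1,.two [15] [49])]),(17,[(1,.two [17] [47])])]⟩

theorem k64_31 : chk 64 31 c64_31 = true := by decide +kernel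

def c64_33 : Cert :=
  ⟨[1,33],[1,3,5,7,9,11,13,15,17,19,21,23,25,27,29,31,33,35,37,39,41,43,45,47,49,51,53,55,57,59,61,63],[1,3,9,5,7,15,11,13],[[],[1,0,0,0,0,0,0,0],[2,0,0,0,0,0,0,0],[0,1,0,0,0,0,0,0],[2,0,0,0,0,-2,0,0],[0,0,0,1,0,0,0,0],[0,2,0,0,0,0,0,0],[0,0,0,0,1,0,0,0],[2,0,2,0,-2,-2,0,0],[0,0,1,0,0,0,0,0],[0,0,0,2,0,0,0,0],[0,0,0,0,0,0,1,0],[0,2,0,0,0,0,0,-2],[0,0,0,0,0,0,0,1],[0,0,0,0,2,0,0,0],[0,0,0,0,0,1,0,0],[2,-2,2,2,-2,-2,-2,2],[0,0,0,0,0,-1,0,0],[0,0,2,0,0,0,0,0],[0,0,0,0,0,0,0,-1],[0,0,0,2,0,0,-2,0],[0,0,0,0,0,0,-1,0],[0,0,0,0,0,0,2,0],[0,0,-1,0,0,0,0,0],[0,2,0,-2,0,0,2,-2],[0,0,0,0,-1,0,0,0],[0,0,0,0,0,0,0,2],[0,0,0,-1,0,0,0,0],[0,0,-2,0,2,0,0,0],[0,-1,0,0,0,0,0,0],[0,0,0,0,0,2,0,0],[-1,0,0,0,0,0,0,0],[0,0,0,0,0,0,0,0],[1,0,0,0,0,0,0,0],[0,0,0,0,0,-2,0,0],[0,1,0,0,0,0,0,0],[0,0,2,0,-2,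0,0,0],[0,0,0,1,0,0,0,0],[0,0,0,0,0,0,0,-2],[0,0,0,0,1,0,0,0],[0,-2,0,2,0,0,-2,2],[0,0,1,0,0,0,0,0],[0,0,0,0,0,0,-2,0],[0,0,0,0,0,0,1,0],[0,0,0,-2,0,0,2,0],[0,0,0,0,0,0,0,1],[0,0,-2,0,0,0,0,0],[0,0,0,0,0,1,0,0],[-2,2,-2,-2,2,2,2,-2],[0,0,0,0,0,-1,0,0],[0,0,0,0,-2,0,0,0],[0,0,0,0,0,0,0,-1],[0,-2,0,0,0,0,0,2],[0,0,0,0,0,0,-1,0],[0,0,0,-2,0,0,0,0],[0,0,-1,0,0,0,0,0],[-2,0,-2,0,2,2,0,0],[0,0,0,0,-1,0,0,0],[0,-2,0,0,0,0,0,0],[0,0,0,-1,0,0,0,0],[-2,0,0,0,0,2,0,0],[0,-1,0,0,0,0,0,0],[-2,0,0,0,0,0,0,0],[-1,0,0,0,0,0,0,0]],[32],[1,3,5,7,9,11,13,15],[[-1,0,-1,0,-1,0,0,1],[0,-1,1,0,1,-1,0,0],[-1,1,0,1,-1,0,0,0],[-1,1,0,0,0,1,-1,0],[0,0,0,-1,1,0,1,-1],[1,0,0,-1,0,-1,0,-1],[0,-1,1,0,0,0,1,-1],[0,0,-1,1,0,1,-1,0]],128,[(31,[(1,.two [1] [31])]),(63,[(1,.two [1] [63])]),(33,[(1,.two [33] [31])]),(29,[(1,.two [3] [29])]),(61,[(1,.two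 [3] [61])]),(35,[(1,.two [35] [29])]),(27,[(1,.two [5] [27])]),(59,[(1,.two [5] [59])]),(37,[(1,.two [37] [27])]),(25,[(1,.two [7] [25])]),(57,[(1,.two [7] [57])]),(39,[(1,.two [39] [25])]),(23,[(1,.two [9] [23])]),(55,[(1,.two [9] [55])]),(41,[(1,.two [41] [23])]),(21,[(1,.two [11] [21])]),(53,[(1,.two [11] [53])]),(43,[(1,.two [43] [21])]),(19,[(1,.two [13] [19])]),(51,[(1,.two [13] [51])]),(45,[(1,.two [45] [19])]),(17,[(1,.two [15] [17])]),(49,[(1,.two [15] [49])]),(47,[(1,.two [47] [17])]),(62,[(1,.one [1,1,62])]),(2,[(1,.one [2,31,31])]),(58,[(1,.one [3,3,58])]),(54,[(1,.one [5,5,54])]),(6,[(1,.one [6,29,29])]),(50,[(1,.one [7,7,50])]),(46,[(1,.one [9,9,46])]),(10,[(1,.one [10,27,27])]),(42,[(1,.one [11,11,42])]),(38,[(1,.one [13,13,38])]),(14,[(1,.one [14,25,25])]),(34,[(1,.one [15,15,34])]),(30,[(1,.one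 [17,17,30])]),(18,[(1,.one [18,23,23])]),(26,[(1,.one [19,19,26])]),(22,[(1,.one [21,21,22])]),(4,[(1,.dup 2)]),(12,[(1,.dup 6)]),(20,[(1,.dup 10)]),(28,[(1,.dup 14)]),(36,[(1,.dup 18)]),(44,[(1,.dup 22)]),(52,[(1,.dup 26)]),(60,[(1,.dup 30)]),(8,[(1,.two [2,28,34] [8,60,60])]),(56,[(1,.two [2,28,34] [36,36,56])]),(48,[(1,.two [8,8,48] [20,52,56])]),(40,[(1,.two [8,8,48] [28,40,60])]),(16,[(1,.two [8,12,44] [16,56,56])]),(24,[(1,.two [8,24,32] [16,56,56])])]⟩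

theorem k64_33 : chk 64 33 c64_33 = true := by decide +kernel

def c64_63 : Cert :=
  ⟨[1,63],[1,3,5,7,9,11,13,15,17,19,21,23,25,27,29,31,33,35,37,39,41,43,45,47,49,51,53,55,57,59,61,63],[],[[],[],[],[],[],[],[],[],[],[],[],[],[],[],[],[],[],[],[],[],[],[],[],[],[],[],[],[],[],[],[],[],[],[],[],[],[],[],[],[],[],[],[],[],[],[],[],[],[],[],[],[],[],[],[],[],[],[],[],[],[],[],[],[]],[1],[],[],1,[(2,[(1,.one [2])]),(3,[(1,.one [3])]),(4,[(1,.one [4])]),(5,[(1,.one [5])]),(6,[(1,.one [6])]),(7,[(1,.one [7])]),(8,[(1,.one [8])]),(9,[(1,.one [9])]),(10,[(1,.one [10])]),(11,[(1,.one [11])]),(12,[(1,.one [12])]),(13,[(1,.one [13])]),(14,[(1,.one [14])]),(15,[(1,.one [15])]),(16,[(1,.one [16])]),(17,[(1,.one [17])]),(18,[(1,.one [18])]),(19,[(1,.one [19])]),(20,[(1,.one [20])]),(21,[(1,.one [21])]),(22,[(1,.one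 [22])]),(23,[(1,.one [23])]),(24,[(1,.one [24])]),(25,[(1,.one [25])]),(26,[(1,.one [26])]),(27,[(1,.one [27])]),(28,[(1,.one [28])]),(29,[(1,.one [29])]),(30,[(1,.one [30])]),(31,[(1,.one [31])]),(32,[(1,.one [32])]),(33,[(1,.one [33])]),(34,[(1,.one [34])]),(35,[(1,.one [35])]),(36,[(1,.one [36])]),(37,[(1,.one [37])]),(38,[(1,.one [38])]),(39,[(1,.one [39])]),(40,[(1,.one [40])]),(41,[(1,.one [41])]),(42,[(1,.one [42])]),(43,[(1,.one [43])]),(44,[(1,.one [44])]),(45,[(1,.one [45])]),(46,[(1,.one [46])]),(47,[(1,.one [47])]),(48,[(1,.one [48])]),(49,[(1,.one [49])]),(50,[(1,.one [50])]),(51,[(1,.one [51])]),(52,[(1,.one [52])]),(53,[(1,.one [53])]),(54,[(1,.one [54])]),(55,[(1,.one [55])]),(56,[(1,.one [56])]),(57,[(1,.one [57])]),(58,[(1,.one [58])]),(59,[(1,.one [59])]),(60,[(1,.one [60])]),(61,[(1,.one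 [61])]),(62,[(1,.one [62])]),(63,[(1,.one [63])])]⟩

theorem k64_63 : chk 64 63 c64_63 = true := by decide +kernel

theorem all64 : ∀ x < 64, x.Coprime 64 → Full 64 x := by
  intro x hx hc
  interval_cases x
  · exact absurd hc (by decide)
  · exact full_of_chk k64_1
  · exact absurd hc (by decide)
  · exact full_of_chk k64_3
  · exact absurd hc (by decide)
  · exact full_of_chk k64_5
  · exact absurd hc (by decide)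
  · exact full_of_chk k64_7
  · exact absurd hc (by decide)
  · exact full_of_chk k64_9
  · exact absurd hc (by decide)
  · exact full_same 7 7 k64_3 (by decide) (by decide)
  · exact absurd hc (by decide)
  · exact full_same 15 15 k64_5 (by decide) (by decide)
  · exact absurd hc (by decide)
  · exact full_of_chk k64_15
  · exact absurd hc (by decide)
  · exact full_of_chk k64_17
  · exact absurd hc (by decide)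
  · exact full_same 13 5 k64_3 (by decide) (by decide)
  · exact absurd hc (by decide)
  · exact full_same 13 5 k64_5 (by decide) (by decide)
  · exact absurd hc (by decide)
  · exact full_same 3 3 k64_7 (by decide) (by decide)
  · exact absurd hc (by decide)
  · exact full_same 3 3 k64_9 (by decide) (by decide)
  · exact absurd hc (by decide)
  · exact full_same 3 11 k64_3 (by decide) (by decide)
  · exact absurd hc (by decide)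
  · exact full_same 11 3 k64_5 (by decide) (by decide)
  · exact absurd hc (by decide)
  · exact full_of_chk k64_31
  · exact absurd hc (by decide)
  · exact full_of_chk k64_33
  · exact absurd hc (by decide)
  · exact full_same 9 9 k64_3 (by decide) (by decide)
  · exact absurd hc (by decide)
  · exact full_same 9 9 k64_5 (by decide) (by decide)
  · exact absurd hc (by decide)
  · exact full_same 5 5 k64_7 (by decide) (by decide)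
  · exact absurd hc (by decide)
  · exact full_same 5 5 k64_9 (by decide) (by decide)
  · exact absurd hc (by decide)
  · exact full_same 15 15 k64_3 (by decide) (by decide)
  · exact absurd hc (by decide)
  · exact full_same 7 7 k64_5 (by decide) (by decide)
  · exact absurd hc (by decide)
  · exact full_same 3 3 k64_15 (by decide) (by decide)
  · exact absurd hc (by decide)
  · exact full_same 3 3 k64_17 (by decide) (by decide)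
  · exact absurd hc (by decide)
  · exact full_same 5 13 k64_3 (by decide) (by decide)
  · exact absurd hc (by decide)
  · exact full_same 5 13 k64_5 (by decide) (by decide)
  · exact absurd hc (by decide)
  · exact full_same 7 7 k64_7 (by decide) (by decide)
  · exact absurd hc (by decide)
  · exact full_same 7 7 k64_9 (by decide) (by decide)
  · exact absurd hc (by decide)
  · exact full_same 11 3 k64_3 (by decide) (by decide)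
  · exact absurd hc (by decide)
  · exact full_same 3 11 k64_5 (by decide) (by decide)
  · exact absurd hc (by decide)
  · exact full_of_chk k64_63

end Pool.Agent.N997.TF
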