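import Pool.Agent.N997.TF.Same
import Pool.Agent.H916R2.Full

/-!
Prime powers, first part: expansion in primitive residues; shifts.
-/

set_option linter.unusedSectionVars false

namespace Pool.Agent.N997.TF

open Pool.Agent.H916R2 Finset

section expand

variable {q k : ℕ}

theorem cop_iff {m : ℕ} (hm : m = q ^ (k + 1)) (y : ℕ) :
    Nat.Coprime y m ↔ Nat.Coprime y (q ^ (k + 1)) := by rw [hm]

theorem unit_of_ne (hq : q.Prime) {m : ℕ} [NeZero m] (hm : m = q ^ (k + 1)) {a : ZMod m}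
    (h : ((q ^ k : ℕ) : ZMod m) * a ≠ 0) : IsUnit a := by
  rw [← ZMod.natCast_zmod_val a, ZMod.isUnit_iff_coprime, cop_iff hm]
  apply Nat.Coprime.pow_right
  rw [Nat.coprime_comm, hq.coprime_iff_not_dvd]
  rintro ⟨b, hb⟩
  apply h
  rw [← ZMod.natCast_zmod_val a, hb, ← Nat.cast_mul, ZMod.natCast_eq_zero_iff, hm]
  exact ⟨b, by ring⟩

theorem expand_aux (hq : q.Prime) {m : ℕ} [NeZero m] (hm : m = q ^ (k + 1)) (j : ℕ) (hj : j ≤ k) :
    ∀ a : ZMod m, ((q ^ (k - j) : ℕ) : ZMod m) * a ≠ 0 →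
      ∃ N : (ZMod m)ˣ → ℤ, ∀ (Q : Type) [AddCommGroup Q] (c : ZMod m → Q),
        (∀ b : ZMod m, (q : ZMod m) * b ≠ 0 →
          ∑ i ∈ range q, c (b + ((i * (m / q) : ℕ) : ZMod m)) = c ((q : ZMod m) * b)) →
        c a = ∑ v : (ZMod m)ˣ, N v • c v := by
  classical
  have hunit : ∀ a : ZMod m, IsUnit a → ∃ N : (ZMod m)ˣ → ℤ, ∀ (Q : Type) [AddCommGroup Q]
      (c : ZMod m → Q), (∀ b : ZMod m, (q : ZMod m) * b ≠ 0 →
          ∑ i ∈ range q, c (b + ((i * (m / q) : ℕ) : ZMod m)) = c ((q : ZMod m) * b)) →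
        c a = ∑ v : (ZMod m)ˣ, N v • c v := by
    rintro a ⟨u, rfl⟩
    refine ⟨Pi.single u 1, fun Q _ c _ => ?_⟩
    rw [Finset.sum_eq_single u]
    · simp
    · intro v _ hv
      rw [Pi.single_eq_of_ne hv, zero_smul]
    · intro h; exact absurd (mem_univ u) h
  induction j with
  | zero =>
    intro a ha
    exact hunit a (unit_of_ne hq hm (by simpa using ha))
  | succ j ih =>
    intro a ha
    by_cases hu : IsUnit a
    · exact hunit a hu
    · obtain ⟨b, hb⟩ : ∃ b : ZMod m, a = (q : ZMod m) * b := by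
        have h1 : ¬ (a.val).Coprime m := by
          intro h
          apply hu
          rw [← ZMod.natCast_zmod_val a, ZMod.isUnit_iff_coprime]
          exact h
        rw [cop_iff hm] at h1
        have h2 : ¬ Nat.Coprime a.val q := fun h => h1 (Nat.Coprime.pow_right _ h)
        rw [Nat.coprime_comm, hq.coprime_iff_not_dvd, not_not] at h2
        obtain ⟨b, hb⟩ := h2
        exact ⟨(b : ZMod m), by rw [← Nat.cast_mul, ← hb, ZMod.natCast_zmod_val]⟩
      have hne : a ≠ 0 := by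
        rintro rfl
        simp at ha
      have hmq : m / q = q ^ k := by
        rw [hm, pow_succ, Nat.mul_div_cancel _ hq.pos]
      have hi : ∀ i : ℕ, ((q ^ (k - j) : ℕ) : ZMod m) * (b + ((i * (m / q) : ℕ) : ZMod m)) ≠ 0 := by
        intro i h
        apply ha
        have e1 : k - j = (k - (j + 1)) + 1 := by omega
        have e2 : ((q ^ (k - j) : ℕ) : ZMod m) * ((i * (m / q) : ℕ) : ZMod m) = 0 := by
          rw [← Nat.cast_mul, ZMod.natCast_eq_zero_iff, hmq, e1, hm]
          exact ⟨q ^ (k - (j + 1)) * i, by ring⟩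
        rw [mul_add, e2, add_zero, e1, pow_succ, Nat.cast_mul] at h
        rw [hb, ← mul_assoc]
        exact h
      choose N hN using fun i : ℕ => ih (by omega) (b + ((i * (m / q) : ℕ) : ZMod m)) (hi i)
      refine ⟨fun v => ∑ i ∈ range q, N i v, fun Q _ c hc => ?_⟩
      rw [hb, ← hc b (by rw [← hb]; exact hne)]
      simp only [Finset.sum_smul]
      rw [Finset.sum_comm]
      exact sum_congr rfl fun i _ => hN i Q c hc

theorem expand (hq : q.Prime) {m : ℕ} [NeZero m] (hm : m = q ^ (k + 1)) :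
    ∃ N : ZMod m → (ZMod m)ˣ → ℤ, ∀ (Q : Type) [AddCommGroup Q] (c : ZMod m → Q),
        (∀ b : ZMod m, (q : ZMod m) * b ≠ 0 →
          ∑ i ∈ range q, c (b + ((i * (m / q) : ℕ) : ZMod m)) = c ((q : ZMod m) * b)) →
        ∀ a, a ≠ 0 → c a = ∑ v : (ZMod m)ˣ, N a v • c v := by
  classical
  have h : ∀ a : ZMod m, ∃ N : (ZMod m)ˣ → ℤ, a ≠ 0 → ∀ (Q : Type) [AddCommGroup Q]
      (c : ZMod m → Q), (∀ b : ZMod m, (q : ZMod m) * b ≠ 0 →
          ∑ i ∈ range q, c (b + ((i * (m / q) : ℕ) : ZMod m)) = c ((q : ZMod m) * b)) →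
        c a = ∑ v : (ZMod m)ˣ, N v • c v := by
    intro a
    by_cases ha : a = 0
    · exact ⟨fun _ => 0, fun h => absurd ha h⟩
    · obtain ⟨N, hN⟩ := expand_aux (k := k) hq hm k le_rfl a (by simpa using ha)
      exact ⟨N, fun _ => hN⟩
  choose N hN using h
  exact ⟨N, fun Q _ c hc a ha => hN a ha Q c hc⟩

end expand

section shift

variable {m : ℕ} (X : ZMod m)

theorem shift {M : Type*} [AddCommMonoid M] [IsLeftCancelAdd M] (F : ZMod m → M) (i : ℕ) :
    ∑ j ∈ range (orderOf X), F (X ^ j) = ∑ j ∈ range (orderOf X), F (X ^ i * X ^ j) := by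
  induction i generalizing F with
  | zero => simp
  | succ i ih =>
    have h1 := ih fun z => F (X * z)
    have h2 : ∑ j ∈ range (orderOf X), F (X ^ j) = ∑ j ∈ range (orderOf X), F (X * X ^ j) := by
      have h3 := Finset.sum_range_succ (fun j => F (X ^ j)) (orderOf X)
      have h4 := Finset.sum_range_succ' (fun j => F (X ^ j)) (orderOf X)
      rw [h3] at h4
      simp only [pow_zero, pow_orderOf_eq_one] at h4
      rw [add_comm, add_comm _ (F 1)] at h4
      have h5 := add_left_cancel h4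
      rw [h5]
      exact sum_congr rfl fun j _ => by rw [pow_succ']
    rw [h2, h1]
    exact sum_congr rfl fun j _ => by rw [pow_succ', mul_assoc]

end shift

end Pool.Agent.N997.TF
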