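import Pool.Agent.N997.TF.PP

/-!
Prime powers, second part: character sums.
-/

set_option linter.unusedSectionVars false

namespace Pool.Agent.N997.TF

open Pool.Agent.H916R2 Finset

variable {m : ℕ} [NeZero m]

theorem SS_zero (χ : DirichletCharacter ℂ m) : SS χ 0 = 0 := by
  have h := SS_neg χ 0
  rw [neg_zero] at h
  have : 2 * SS χ 0 = 0 := by linear_combination h
  simpa using this

theorem SS_sum_eq (χ : DirichletCharacter ℂ m) (s : Multiset (ZMod m)) :
    (s.map (SS χ)).sum = ∑ t : (ZMod m)ˣ, χ t *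
      (((s.map fun a => saw ((t : ZMod m) * a)).sum : ℤ) : ℂ) := by
  induction s using Multiset.induction_on with
  | empty => simp
  | cons a s ih =>
    rw [Multiset.map_cons, Multiset.sum_cons, ih]
    unfold SS
    rw [← sum_add_distrib]
    refine sum_congr rfl fun t _ => ?_
    rw [Multiset.map_cons, Multiset.sum_cons]
    push_cast; ring

theorem tate_SS {x : (ZMod m)ˣ} {s : Multiset (ZMod m)} (h0 : (0 : ZMod m) ∉ s)
    (hT : IsTate m (x : ZMod m) s) (χ : DirichletCharacter ℂ m) (hχ : χ x = 1) :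
    (s.map (SS χ)).sum = 0 := by
  have hW : ∀ t : (ZMod m)ˣ, ∑ j ∈ range (orderOf (x : ZMod m)),
      (s.map fun a => saw (((t * x ^ j : (ZMod m)ˣ) : ZMod m) * a)).sum = 0 := by
    intro t
    have h1 := hT (t : ZMod m).val (ZMod.val_coe_unit_coprime t)
    simp only [saw_sum_eq s h0]
    rw [sum_sub_distrib, sum_const, card_range, ← mul_sum, nsmul_eq_mul]
    have h2 : ((2 * (∑ j ∈ Finset.range (orderOf (x : ZMod m)), (s.map fun a =>
        (((t : ZMod m).val : ZMod m) * (x : ZMod m) ^ j * a).val).sum) : ℕ) : ℤ) =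
        ((orderOf (x : ZMod m) * m * Multiset.card s : ℕ) : ℤ) := by rw [h1]
    push_cast at h2
    rw [ZMod.natCast_zmod_val] at h2
    push_cast
    rw [h2]
    ring
  have hpos : 0 < orderOf (x : ZMod m) := by
    rw [orderOf_units]
    exact orderOf_pos x
  have key : (orderOf (x : ZMod m) : ℂ) * (s.map (SS χ)).sum = 0 := by
    have h1 : ∀ j ∈ range (orderOf (x : ZMod m)), (s.map (SS χ)).sum =
        ∑ t : (ZMod m)ˣ, χ t * (((s.map fun a =>
          saw (((t * x ^ j : (ZMod m)ˣ) : ZMod m) * a)).sum : ℤ) : ℂ) := by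
      intro j _
      rw [SS_sum_eq, ← Equiv.sum_comp (Equiv.mulRight (x ^ j))]
      refine sum_congr rfl fun t _ => ?_
      simp only [Equiv.coe_mulRight, Units.val_mul, map_mul, Units.val_pow_eq_pow_val, map_pow, hχ,
        one_pow, mul_one]
    calc (orderOf (x : ZMod m) : ℂ) * (s.map (SS χ)).sum
        = ∑ j ∈ range (orderOf (x : ZMod m)), (s.map (SS χ)).sum := by
          rw [sum_const, card_range, nsmul_eq_mul]
      _ = ∑ j ∈ range (orderOf (x : ZMod m)), ∑ t : (ZMod m)ˣ, χ t * (((s.map fun a =>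
          saw (((t * x ^ j : (ZMod m)ˣ) : ZMod m) * a)).sum : ℤ) : ℂ) := sum_congr rfl h1
      _ = 0 := by
          rw [sum_comm]
          apply sum_eq_zero
          intro t _
          rw [← mul_sum, ← Int.cast_sum, hW t]
          simp
  rcases mul_eq_zero.mp key with h | h
  · exact absurd (by exact_mod_cast h : orderOf (x : ZMod m) = 0) (by omega)
  · exact h

theorem sum_expand {Q : Type*} [AddCommGroup Q] {N : ZMod m → (ZMod m)ˣ → ℤ} {c : ZMod m → Q}
    (hN : ∀ a, a ≠ 0 → c a = ∑ v : (ZMod m)ˣ, N a v • c v) {s : Multiset (ZMod m)}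
    (h0 : (0 : ZMod m) ∉ s) :
    (s.map c).sum = ∑ v : (ZMod m)ˣ, (s.map fun a => N a v).sum • c v := by
  induction s using Multiset.induction_on with
  | empty => simp
  | cons a s ih =>
    have ha : a ≠ 0 := fun h => h0 (by rw [h]; exact Multiset.mem_cons_self _ _)
    rw [Multiset.map_cons, Multiset.sum_cons, ih (fun h => h0 (Multiset.mem_cons_of_mem h)), hN a ha,
      ← sum_add_distrib]
    refine sum_congr rfl fun v _ => ?_
    rw [Multiset.map_cons, Multiset.sum_cons, add_smul]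

theorem char_sum {q k : ℕ} (hq : q.Prime) (hm : m = q ^ (k + 1)) {N : ZMod m → (ZMod m)ˣ → ℤ}
    (hN : ∀ (Q : Type) [AddCommGroup Q] (c : ZMod m → Q),
        (∀ b : ZMod m, (q : ZMod m) * b ≠ 0 →
          ∑ i ∈ range q, c (b + ((i * (m / q) : ℕ) : ZMod m)) = c ((q : ZMod m) * b)) →
        ∀ a, a ≠ 0 → c a = ∑ v : (ZMod m)ˣ, N a v • c v)
    {x : (ZMod m)ˣ} {s : Multiset (ZMod m)} (h0 : (0 : ZMod m) ∉ s)
    (hT : IsTate m (x : ZMod m) s) (χ : DirichletCharacter ℂ m) (hχ : χ x = 1) (hodd : χ.Odd) :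
    ∑ v : (ZMod m)ˣ, (((s.map fun a => N a v).sum : ℤ) : ℂ) * (χ v)⁻¹ = 0 := by
  have hdist : ∀ b : ZMod m, (q : ZMod m) * b ≠ 0 →
      ∑ i ∈ range q, SS χ (b + ((i * (m / q) : ℕ) : ZMod m)) = SS χ ((q : ZMod m) * b) := by
    intro b _
    have hqm : q * (m / q) = m := Nat.mul_div_cancel' (by rw [hm]; exact dvd_pow_self q (by omega))
    rw [← SS_dist χ hqm b]
    refine sum_congr rfl fun i _ => ?_
    push_cast
    rfl
  have hexp := hN ℂ (SS χ) hdist
  have hv : ∀ v : (ZMod m)ˣ, SS χ (v : ZMod m) = (χ v)⁻¹ * SS χ 1 := by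
    intro v
    have := SS_unit χ v 1
    rwa [mul_one] at this
  have h1 : SS χ 1 ≠ 0 := by
    intro h
    obtain ⟨a, ha⟩ := exists_SS_ne_zero χ hodd
    have ha0 : a ≠ 0 := by
      rintro rfl
      exact ha (SS_zero χ)
    apply ha
    rw [hexp a ha0]
    apply sum_eq_zero
    intro v _
    rw [hv, h, mul_zero, smul_zero]
  have h2 := sum_expand hexp h0
  rw [tate_SS h0 hT χ hχ] at h2
  have h3 : (∑ v : (ZMod m)ˣ, (((s.map fun a => N a v).sum : ℤ) : ℂ) * (χ v)⁻¹) * SS χ 1 = 0 := by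
    rw [sum_mul, h2]
    refine sum_congr rfl fun v _ => ?_
    rw [hv, zsmul_eq_mul, mul_assoc]
  exact (mul_eq_zero.mp h3).resolve_right h1

/-- Sum over a coset of the subgroup generated by `x`. -/
noncomputable def cosetSum (x : (ZMod m)ˣ) (n : (ZMod m)ˣ → ℤ)
    (O : (ZMod m)ˣ ⧸ Subgroup.zpowers x) : ℤ := by
  classical
  exact ∑ v : (ZMod m)ˣ, if (QuotientGroup.mk v : (ZMod m)ˣ ⧸ Subgroup.zpowers x) = O then n v else 0

theorem char_inv (χ : DirichletCharacter ℂ m) (v : (ZMod m)ˣ) :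
    χ ((v⁻¹ : (ZMod m)ˣ) : ZMod m) = (χ v)⁻¹ := by
  have h1 : (χ v) * χ ((v⁻¹ : (ZMod m)ˣ) : ZMod m) = 1 := by
    rw [← map_mul]; simp
  exact (inv_eq_of_mul_eq_one_right h1).symm

theorem fourier (F : (ZMod m)ˣ → ℂ)
    (h : ∀ χ : DirichletCharacter ℂ m, ∑ v : (ZMod m)ˣ, F v * (χ v)⁻¹ = 0) : ∀ u, F u = 0 := by
  classical
  intro u
  have h1 : ∑ χ : DirichletCharacter ℂ m, χ u * ∑ v : (ZMod m)ˣ, F v * (χ v)⁻¹ = 0 :=
    sum_eq_zero fun χ _ => by rw [h χ, mul_zero]
  simp only [mul_sum] at h1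
  rw [sum_comm] at h1
  have h2 : ∀ v : (ZMod m)ˣ, ∑ χ : DirichletCharacter ℂ m, χ u * (F v * (χ v)⁻¹) =
      if v = u then F v * (m.totient : ℂ) else 0 := by
    intro v
    have h3 := DirichletCharacter.sum_char_inv_mul_char_eq ℂ (a := (v : ZMod m)) v.isUnit
      (u : ZMod m)
    have h4 : ∑ χ : DirichletCharacter ℂ m, χ u * (F v * (χ v)⁻¹) =
        F v * ∑ χ : DirichletCharacter ℂ m, χ (v : ZMod m)⁻¹ * χ u := by
      rw [mul_sum]
      refine sum_congr rfl fun χ _ => ?_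
      rw [ZMod.inv_coe_unit, char_inv]
      ring
    rw [h4, h3]
    by_cases hvu : v = u
    · subst hvu; simp
    · rw [if_neg (fun h => hvu (Units.ext h)), if_neg hvu, mul_zero]
  rw [sum_congr rfl fun v _ => h2 v, sum_ite_eq' univ u] at h1
  simp only [mem_univ, if_true] at h1
  rcases mul_eq_zero.mp h1 with h5 | h5
  · exact h5
  · exfalso
    have : m.totient = 0 := by exact_mod_cast h5
    rw [Nat.totient_eq_zero] at this
    exact NeZero.ne m this

end Pool.Agent.N997.TF
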