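import Pool.Agent.N997.TF.PP2

/-!
Prime powers, third part: coset sums.
-/

set_option linter.unusedSectionVars false

namespace Pool.Agent.N997.TF

open Pool.Agent.H916R2 Finset

variable {m : ℕ} [NeZero m]

theorem mk_eq_iff {x u v : (ZMod m)ˣ} :
    (QuotientGroup.mk u : (ZMod m)ˣ ⧸ Subgroup.zpowers x) = QuotientGroup.mk v ↔
      ∃ j : ℕ, v = u * x ^ j := by
  rw [QuotientGroup.eq, ← mem_powers_iff_mem_zpowers]
  constructor
  · rintro ⟨j, hj⟩
    refine ⟨j, ?_⟩
    have : x ^ j = u⁻¹ * v := hj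
    rw [this]; group
  · rintro ⟨j, rfl⟩
    exact ⟨j, by group⟩

theorem coset_symm {x : (ZMod m)ˣ} {n : (ZMod m)ˣ → ℤ}
    (h : ∀ χ : DirichletCharacter ℂ m, χ x = 1 → χ.Odd →
      ∑ v : (ZMod m)ˣ, (n v : ℂ) * (χ v)⁻¹ = 0) (u : (ZMod m)ˣ) :
    cosetSum x n (QuotientGroup.mk u) = cosetSum x n (QuotientGroup.mk (-u)) := by
  classical
  set cs : (ZMod m)ˣ → ℂ := fun u => (cosetSum x n (QuotientGroup.mk u) : ℂ) with hcs
  have hinv : ∀ u, cs (x * u) = cs u := by
    intro u
    simp only [hcs]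
    congr 2
    rw [mk_eq_iff]
    exact ⟨orderOf x - 1, by
      rw [mul_comm x u, mul_assoc, ← pow_succ', Nat.sub_add_cancel (orderOf_pos x),
        pow_orderOf_eq_one, mul_one]⟩
  have key : ∀ χ : DirichletCharacter ℂ m, ∑ v : (ZMod m)ˣ, (cs v - cs (-v)) * (χ v)⁻¹ = 0 := by
    intro χ
    by_cases hx : χ x = 1
    · rcases χ.even_or_odd with he | ho
      · have h1 : ∑ v : (ZMod m)ˣ, (cs v - cs (-v)) * (χ v)⁻¹ =
            ∑ v : (ZMod m)ˣ, (cs (-v) - cs (- -v)) * (χ ((-v : (ZMod m)ˣ) : ZMod m))⁻¹ :=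
          (Equiv.sum_comp (Equiv.neg (ZMod m)ˣ) fun v => (cs v - cs (-v)) * (χ v)⁻¹).symm
        have h2 : ∀ v : (ZMod m)ˣ, χ ((-v : (ZMod m)ˣ) : ZMod m) = χ v := by
          intro v
          rw [Units.val_neg]
          exact DirichletCharacter.Even.eval_neg χ (v : ZMod m) he
        have h3 : ∑ v : (ZMod m)ˣ, (cs v - cs (-v)) * (χ v)⁻¹ =
            - ∑ v : (ZMod m)ˣ, (cs v - cs (-v)) * (χ v)⁻¹ := by
          conv_lhs => rw [h1]
          rw [← sum_neg_distrib]
          refine sum_congr rfl fun v _ => ?_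
          rw [h2, neg_neg]
          ring
        have h4 : (2 : ℂ) * ∑ v : (ZMod m)ˣ, (cs v - cs (-v)) * (χ v)⁻¹ = 0 := by
          linear_combination h3
        simpa using h4
      · have h2 : ∀ v : (ZMod m)ˣ, χ ((-v : (ZMod m)ˣ) : ZMod m) = - χ v := by
          intro v
          rw [Units.val_neg]
          exact DirichletCharacter.Odd.eval_neg χ (v : ZMod m) ho
        have h1 : ∑ v : (ZMod m)ˣ, cs (-v) * (χ v)⁻¹ = - ∑ v : (ZMod m)ˣ, cs v * (χ v)⁻¹ := by
          have h3 : ∑ v : (ZMod m)ˣ, cs (-v) * (χ v)⁻¹ =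
              ∑ v : (ZMod m)ˣ, cs (- -v) * (χ ((-v : (ZMod m)ˣ) : ZMod m))⁻¹ :=
            (Equiv.sum_comp (Equiv.neg (ZMod m)ˣ) fun v => cs (-v) * (χ v)⁻¹).symm
          rw [h3, ← sum_neg_distrib]
          refine sum_congr rfl fun v _ => ?_
          rw [h2, neg_neg, inv_neg, mul_neg]
        have hc : ∀ w : (ZMod m)ˣ, ∑ v : (ZMod m)ˣ,
            (if (QuotientGroup.mk w : (ZMod m)ˣ ⧸ Subgroup.zpowers x) = QuotientGroup.mk v
              then (1 : ℂ) else 0) = ∑ v : (ZMod m)ˣ,
            (if (QuotientGroup.mk 1 : (ZMod m)ˣ ⧸ Subgroup.zpowers x) = QuotientGroup.mk v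
              then (1 : ℂ) else 0) := by
          intro w
          rw [← Equiv.sum_comp (Equiv.mulLeft w)]
          refine sum_congr rfl fun v _ => ?_
          refine if_congr ?_ rfl rfl
          simp only [Equiv.coe_mulLeft, mk_eq_iff, one_mul, mul_right_inj]
        have h4 : ∑ v : (ZMod m)ˣ, cs v * (χ v)⁻¹ = 0 := by
          have h5 : ∑ v : (ZMod m)ˣ, cs v * (χ v)⁻¹ = ∑ w : (ZMod m)ˣ, ((n w : ℂ) * (χ w)⁻¹) *
              ∑ v : (ZMod m)ˣ,
              (if (QuotientGroup.mk 1 : (ZMod m)ˣ ⧸ Subgroup.zpowers x) = QuotientGroup.mk v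
              then (1 : ℂ) else 0) := by
            calc ∑ v : (ZMod m)ˣ, cs v * (χ v)⁻¹
                = ∑ v : (ZMod m)ˣ, ∑ w : (ZMod m)ˣ,
                  (if (QuotientGroup.mk w : (ZMod m)ˣ ⧸ Subgroup.zpowers x) = QuotientGroup.mk v
                    then (n w : ℂ) * (χ w)⁻¹ else 0) := by
                  refine sum_congr rfl fun v _ => ?_
                  simp only [hcs, cosetSum, Int.cast_sum, sum_mul]
                  refine sum_congr rfl fun w _ => ?_
                  by_cases hwv : (QuotientGroup.mk w : (ZMod m)ˣ ⧸ Subgroup.zpowers x) =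
                      QuotientGroup.mk v
                  · rw [if_pos hwv, if_pos hwv]
                    obtain ⟨j, hj⟩ := mk_eq_iff.mp hwv
                    rw [hj]
                    simp only [Units.val_mul, Units.val_pow_eq_pow_val, map_mul, map_pow, hx,
                      one_pow, mul_one]
                  · rw [if_neg hwv, if_neg hwv]
                    simp
              _ = ∑ w : (ZMod m)ˣ, ∑ v : (ZMod m)ˣ,
                  (if (QuotientGroup.mk w : (ZMod m)ˣ ⧸ Subgroup.zpowers x) = QuotientGroup.mk v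
                    then (n w : ℂ) * (χ w)⁻¹ else 0) := sum_comm
              _ = _ := by
                  refine sum_congr rfl fun w _ => ?_
                  rw [← hc w, mul_sum]
                  refine sum_congr rfl fun v _ => ?_
                  split_ifs <;> simp
          rw [h5, ← sum_mul, h χ hx ho, zero_mul]
        simp only [sub_mul]
        rw [sum_sub_distrib, h1, h4]
        simp
    · have h1 : ∑ v : (ZMod m)ˣ, (cs v - cs (-v)) * (χ v)⁻¹ =
          (χ x)⁻¹ * ∑ v : (ZMod m)ˣ, (cs v - cs (-v)) * (χ v)⁻¹ := by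
        conv_lhs => rw [← Equiv.sum_comp (Equiv.mulLeft x)]
        rw [mul_sum]
        refine sum_congr rfl fun v _ => ?_
        simp only [Equiv.coe_mulLeft]
        rw [hinv, show -(x * v) = x * (-v) by rw [mul_neg], hinv, Units.val_mul, map_mul, mul_inv]
        ring
      have h2 : (1 - (χ x)⁻¹) * ∑ v : (ZMod m)ˣ, (cs v - cs (-v)) * (χ v)⁻¹ = 0 := by
        linear_combination h1
      rcases mul_eq_zero.mp h2 with h3 | h3
      · exfalso
        apply hx
        have h4 : (χ x)⁻¹ = 1 := by linear_combination -h3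
        exact inv_eq_one.mp h4
      · exact h3
  have h5 := fourier _ key u
  have h6 : cs u = cs (-u) := sub_eq_zero.mp h5
  simp only [hcs] at h6
  exact_mod_cast h6

end Pool.Agent.N997.TF
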