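import Pool.Agent.N997.TF.Sound3

/-!
Only the subgroup generated by the characteristic matters.
-/

namespace Pool.Agent.N997.TF

/-- All Tate classes of degree `m` and characteristic `x` are relations. -/
def Full (m x : ℕ) : Prop :=
  ∀ s : Multiset (ZMod m), (0 : ZMod m) ∉ s → Even (Multiset.card s) →
    IsTate m (x : ZMod m) s → cls s ∈ Relations m (x : ZMod m)

theorem full_of_chk {m x : ℕ} {c : Cert} (h : chk m x c = true) : Full m x :=
  fun _ h0 he hT => main_of_chk h h0 he hT

theorem image_pow_sub {m : ℕ} {X Y : ZMod m} {k : ℕ} (hX : X = Y ^ k) (hY : 0 < orderOf Y) :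
    (Finset.range (orderOf X)).image (X ^ ·) ⊆ (Finset.range (orderOf Y)).image (Y ^ ·) := by
  intro z hz
  rw [Finset.mem_image] at hz ⊢
  obtain ⟨j, _, rfl⟩ := hz
  refine ⟨(k * j) % orderOf Y, Finset.mem_range.mpr (Nat.mod_lt _ hY), ?_⟩
  show Y ^ ((k * j) % orderOf Y) = X ^ j
  rw [pow_mod_orderOf, hX, pow_mul]

theorem sum_pow_image {m : ℕ} (X : ZMod m) (F : ZMod m → ℕ) :
    ∑ j ∈ Finset.range (orderOf X), F (X ^ j) =
      ∑ z ∈ (Finset.range (orderOf X)).image (X ^ ·), F z := by
  rw [Finset.sum_image]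
  intro i hi j hj h
  exact pow_injOn_Iio_orderOf (Finset.mem_range.mp hi) (Finset.mem_range.mp hj) h

theorem isTate_same {m : ℕ} {X Y : ZMod m} {k l : ℕ} (hX : X = Y ^ k) (hY : Y = X ^ l)
    (h1 : 0 < orderOf X) (h2 : 0 < orderOf Y) (s : Multiset (ZMod m)) :
    IsTate m X s ↔ IsTate m Y s := by
  have him : (Finset.range (orderOf X)).image (X ^ ·) = (Finset.range (orderOf Y)).image (Y ^ ·) :=
    Finset.Subset.antisymm (image_pow_sub hX h2) (image_pow_sub hY h1)
  have ho : orderOf X = orderOf Y := by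
    have e : ∀ Z : ZMod m, ((Finset.range (orderOf Z)).image (Z ^ ·)).card = orderOf Z := by
      intro Z
      rw [Finset.card_image_of_injOn, Finset.card_range]
      intro i hi j hj h
      have hi' : i ∈ Finset.range (orderOf Z) := hi
      have hj' : j ∈ Finset.range (orderOf Z) := hj
      exact pow_injOn_Iio_orderOf (Finset.mem_range.mp hi') (Finset.mem_range.mp hj') h
    rw [← e X, ← e Y, him]
  unfold IsTate
  refine forall_congr' fun t => forall_congr' fun _ => ?_
  rw [sum_pow_image X (fun z => (s.map fun a => ((t : ZMod m) * z * a).val).sum),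
    sum_pow_image Y (fun z => (s.map fun a => ((t : ZMod m) * z * a).val).sum), him, ho]

theorem full_same {m x y : ℕ} {c : Cert} (k l : ℕ) (h : chk m y c = true)
    (hx : x % m = y ^ k % m) (hy : y % m = x ^ l % m) : Full m x := by
  have g := good_of_chk h
  have hY : 0 < orderOf (y : ZMod m) := by
    have h1 := order_eq g.two g.ord
    rw [h1.1]
    have h2 := g.ord
    simp only [chkOrd, Bool.and_eq_true, decide_eq_true_eq] at h2
    exact h2.1
  have ex : (x : ZMod m) = (y : ZMod m) ^ k := by
    rw [← Nat.cast_pow]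
    exact (ZMod.natCast_eq_natCast_iff' _ _ _).mpr hx
  have ey : (y : ZMod m) = (x : ZMod m) ^ l := by
    rw [← Nat.cast_pow]
    exact (ZMod.natCast_eq_natCast_iff' _ _ _).mpr hy
  have hX : 0 < orderOf (x : ZMod m) := by
    rw [ex, orderOf_pos_iff]
    exact (orderOf_pos_iff.mp hY).pow
  have hbase : Base m (x : ZMod m) = Base m (y : ZMod m) := by
    unfold Base
    simp only [isTate_same ex ey hX hY]
  intro s h0 he hT
  unfold Relations
  rw [hbase]
  exact main_of_good g h0 he ((isTate_same ex ey hX hY s).mp hT)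

end Pool.Agent.N997.TF
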