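import Pool.Agent.N997.TF.Check

/-!
Soundness of the checker.
-/

set_option linter.unusedSectionVars false

namespace Pool.Agent.N997.TF

/-- The weight of a residue. -/
noncomputable def Wz {m : ℕ} (X : ZMod m) (t : ℕ) (a : ZMod m) : ℤ :=
  2 * (∑ j ∈ Finset.range (orderOf X), (((t : ZMod m) * X ^ j * a).val : ℤ)) -
    (orderOf X : ℤ) * m

theorem sum_Wz {m : ℕ} (X : ZMod m) (t : ℕ) (s : Multiset (ZMod m)) :
    (s.map (Wz X t)).sum =
      ((2 * (∑ j ∈ Finset.range (orderOf X),
        (s.map fun a => ((t : ZMod m) * X ^ j * a).val).sum) : ℕ) : ℤ) -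
      ((orderOf X * m * Multiset.card s : ℕ) : ℤ) := by
  induction s using Multiset.induction_on with
  | empty => simp
  | cons a s ih =>
    rw [Multiset.map_cons, Multiset.sum_cons, ih, Wz]
    simp only [Multiset.map_cons, Multiset.sum_cons, Multiset.card_cons, Finset.sum_add_distrib]
    push_cast
    ring

theorem isTate_iff {m : ℕ} (X : ZMod m) (s : Multiset (ZMod m)) :
    IsTate m X s ↔ ∀ t : ℕ, t.Coprime m → (s.map (Wz X t)).sum = 0 := by
  unfold IsTate
  constructor
  · intro h t ht
    rw [sum_Wz, h t ht, sub_self]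
  · intro h t ht
    have := h t ht
    rw [sum_Wz, sub_eq_zero] at this
    exact_mod_cast this

theorem list_sum_range (n : ℕ) (g : ℕ → ℕ) :
    ((List.range n).map g).sum = ∑ i ∈ Finset.range n, g i := by
  induction n with
  | zero => simp
  | succ n ih => rw [List.range_succ, List.map_append, List.sum_append, ih, Finset.sum_range_succ]; simp

section

variable {m x : ℕ} {c : Cert}

theorem order_eq {hs : List ℕ} (hm : 2 ≤ m) (h : chkOrd m x hs = true) :
    orderOf (x : ZMod m) = hs.length ∧ hs = (List.range hs.length).map fun j => x ^ j % m := by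
  simp only [chkOrd, Bool.and_eq_true, decide_eq_true_eq, beq_iff_eq, List.all_eq_true,
    Bool.or_eq_true, Bool.not_eq_true', List.mem_range, beq_eq_false_iff_ne] at h
  obtain ⟨h1, h2, h3, h4⟩ := h
  refine ⟨?_, h2⟩
  have key : ∀ j : ℕ, ((x : ZMod m) ^ j = 1 ↔ x ^ j % m = 1) := by
    intro j
    have h1m : 1 % m = 1 := Nat.mod_eq_of_lt (by omega)
    have e1 : ((x : ZMod m) ^ j = 1) ↔ ((x ^ j : ℕ) : ZMod m) = ((1 : ℕ) : ZMod m) := by
      push_cast; rfl
    rw [e1, ZMod.natCast_eq_natCast_iff', h1m]
  rw [orderOf_eq_iff h1]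
  refine ⟨(key _).mpr h3, fun j hj hj0 hj1 => ?_⟩
  rcases h4 j hj with h5 | h5
  · omega
  · exact h5 ((key j).mp hj1)

theorem w_eq {hs : List ℕ} (hm : 2 ≤ m) (h : chkOrd m x hs = true) (t a : ℕ) :
    w m hs.length hs (t % m) a = Wz (x : ZMod m) t (a : ZMod m) := by
  obtain ⟨h1, h2⟩ := order_eq hm h
  unfold w Wz
  rw [h1]
  have e1 : (hs.map fun h => t % m * h * a % m).sum =
      ∑ j ∈ Finset.range hs.length, ((t : ZMod m) * (x : ZMod m) ^ j * (a : ZMod m)).val := by
    conv_lhs => rw [h2]
    rw [List.map_map, list_sum_range]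
    refine Finset.sum_congr rfl fun j _ => ?_
    have e2 : (t : ZMod m) * (x : ZMod m) ^ j * (a : ZMod m) = ((t * x ^ j * a : ℕ) : ZMod m) := by
      push_cast; ring
    rw [e2, ZMod.val_natCast]
    show t % m * (x ^ j % m) * a % m = t * x ^ j * a % m
    exact Nat.ModEq.mul_right a (Nat.ModEq.mul (Nat.mod_modEq t m) (Nat.mod_modEq _ m))
  rw [e1]
  push_cast
  ring

/-- The content of a successful check. -/
structure Good (m x : ℕ) (c : Cert) : Prop where
  two : 2 ≤ m
  ord : chkOrd m x c.hs = true
  us : ∀ t < m, t.Coprime m → t ∈ c.us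
  c1 : ∀ t ∈ c.us, ∀ a < m, a ≠ 0 → w m c.hs.length c.hs t a =
    li (getL c.C a) (c.B.map fun b => w m c.hs.length c.hs t b)
  c2 : ∀ a < m, a ≠ 0 → c.Ms.map (fun row => li row (c.T.map fun t => w m c.hs.length c.hs t a)) =
        (getL c.C a).map (fun y => c.D * y)
  d : c.D ≠ 0
  T : ∀ t ∈ c.T, t.Coprime m
  Tlt : ∀ t ∈ c.T, t % m = t
  B : chkB c.C 0 c.B = true
  Bm : ∀ b ∈ c.B, 0 < b ∧ b < m
  om : c.om = [] ∨ (piece m c.om = true ∧ allZero (tot c.C (c.om.map fun a => (1, a))) = true)
  chain : chkChain m c.C c.om (c.B ++ (if c.om.length = 1 then c.om else [])) c.chain = true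

theorem good_of_chk (h : chk m x c = true) : Good m x c := by
  simp only [chk, Bool.and_eq_true, decide_eq_true_eq, List.all_eq_true, List.mem_range,
    Bool.or_eq_true, Bool.not_eq_true', beq_iff_eq, beq_eq_false_iff_ne, List.contains_iff_mem,
    List.isEmpty_iff] at h
  obtain ⟨h1, h2, h3, h4, h5, h6, h7, h8, h9, h10, h11⟩ := h
  refine ⟨h1, h2, fun t ht hc => ?_, fun t ht a ha h0 => ?_, fun a ha h0 => ?_, h6,
    fun t ht => (h7 t ht).1, fun t ht => Nat.mod_eq_of_lt (h7 t ht).2, h8, h9, h10, h11⟩
  · rcases h3 t ht with h | h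
    · exact absurd hc h
    · exact h
  · rcases h4 t ht a ha with h | h
    · exact absurd h h0
    · exact h
  · rcases h5 a ha with h | h
    · exact absurd h h0
    · exact h

variable (g : Good m x c)
include g

theorem C1 {t : ℕ} (ht : t.Coprime m) {a : ℕ} (h0 : 0 < a) (ha : a < m) :
    Wz (x : ZMod m) t (a : ZMod m) =
      lc (getL c.C a) (c.B.map fun b : ℕ => Wz (x : ZMod m) t ((b : ℕ) : ZMod m)) := by
  have hm := g.two
  have ht' : (t % m).Coprime m := by
    unfold Nat.Coprime at ht ⊢
    rw [← Nat.gcd_rec, Nat.gcd_comm]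
    exact ht
  have h1 := g.c1 (t % m) (g.us _ (Nat.mod_lt _ (by omega)) ht') a ha (by omega)
  rw [w_eq hm g.ord] at h1
  rw [h1, lc_eq_li]
  congr 1
  refine List.map_congr_left fun b _ => ?_
  rw [w_eq hm g.ord]

theorem lc_tot {M : Type*} [AddCommGroup M] (C : List (List ℤ)) (L : List (ℤ × ℕ)) (vs : List M) :
    lc (tot C L) vs = (L.map fun p => p.1 • lc (getL C p.2) vs).sum := by
  clear g
  induction L with
  | nil => simp [tot, lc_nil]
  | cons p L ih =>
    obtain ⟨k, y⟩ := p
    simp only [tot, lc_addm, ih, List.map_cons, List.sum_cons]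
    abel

theorem tate_of_tot {y : List ℕ} (hy : ∀ a ∈ y, 0 < a ∧ a < m)
    (h : allZero (tot c.C (y.map fun a => ((1 : ℤ), a))) = true) {t : ℕ} (ht : t.Coprime m) :
    (y.map fun a => Wz (x : ZMod m) t ((a : ℕ) : ZMod m)).sum = 0 := by
  have h1 := lc_allZero h (c.B.map fun b : ℕ => Wz (x : ZMod m) t ((b : ℕ) : ZMod m))
  rw [lc_tot g, List.map_map] at h1
  rw [← h1]
  congr 1
  refine List.map_congr_left fun a ha => ?_
  simp only [Function.comp, one_smul]
  exact C1 g ht (hy a ha).1 (hy a ha).2


omit g in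
theorem coord_zero {M : Type*} [AddCommGroup M] (s : Multiset (ZMod m)) (G : ZMod m → List ℤ)
    (h : ∀ i, (s.map fun a => (G a).getD i 0).sum = 0) (vs : List M) :
    (s.map fun a => lc (G a) vs).sum = 0 := by
  induction vs generalizing G with
  | nil => simp [lc_nil']
  | cons v vs ih =>
    have e1 : ∀ a, lc (G a) (v :: vs) = (G a).getD 0 0 • v + lc (G a).tail vs := by
      intro a
      cases G a with
      | nil => simp [lc_nil]
      | cons b l => simp [lc]
    simp only [e1]
    rw [Multiset.sum_map_add, ih (fun a => (G a).tail), add_zero]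
    · have e2 : ∀ s : Multiset (ZMod m), (s.map fun a => (G a).getD 0 0 • v).sum =
          (s.map fun a => (G a).getD 0 0).sum • v := by
        intro s
        induction s using Multiset.induction_on with
        | empty => simp
        | cons a s ih => rw [Multiset.map_cons, Multiset.sum_cons, ih, Multiset.map_cons,
            Multiset.sum_cons, add_smul]
      rw [e2, h 0, zero_smul]
    · intro i
      have e2 : ∀ a ∈ s, (G a).tail.getD i 0 = (G a).getD (i + 1) 0 := by
        intro a _
        generalize G a = l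
        cases l <;> simp
      rw [Multiset.map_congr rfl e2]
      exact h (i + 1)

omit g in
theorem li_sum (s : Multiset (ZMod m)) (row : List ℤ) (T : List ℕ) (F : ℕ → ZMod m → ℤ) :
    (s.map fun a => li row (T.map fun t => F t a)).sum =
      li row (T.map fun t => (s.map (F t)).sum) := by
  induction row generalizing T with
  | nil => simp [li]
  | cons c row ih =>
    cases T with
    | nil => simp [li]
    | cons t T =>
      simp only [List.map_cons, li]
      rw [Multiset.sum_map_add, ih, Multiset.sum_map_mul_left]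

omit g in
theorem li_zero (row : List ℤ) (T : List ℕ) : li row (T.map fun _ => (0 : ℤ)) = 0 := by
  induction row generalizing T with
  | nil => simp [li]
  | cons c row ih =>
    cases T with
    | nil => simp [li]
    | cons t T =>
      simp only [List.map_cons, li, mul_zero, zero_add]
      exact ih T

theorem coords {s : Multiset (ZMod m)} (h0 : (0 : ZMod m) ∉ s) (hT : IsTate m (x : ZMod m) s)
    (i : ℕ) : (s.map fun a => (getL c.C a.val).getD i 0).sum = 0 := by
  have hm := g.two
  haveI : NeZero m := ⟨by omega⟩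
  rw [isTate_iff] at hT
  have e1 : ∀ a ∈ s, c.D * (getL c.C a.val).getD i 0 =
      li (c.Ms.getD i []) (c.T.map fun t => Wz (x : ZMod m) t a) := by
    intro a ha
    have ha0 : a.val ≠ 0 := fun h => h0 (by rwa [← (ZMod.val_eq_zero a).mp h])
    have h2 := congrArg (fun l => List.getD l i 0) (g.c2 a.val (ZMod.val_lt a) ha0)
    have e2 : (List.map (fun y => c.D * y) (getL c.C a.val)).getD i 0 =
        c.D * (getL c.C a.val).getD i 0 := by
      have := List.getD_map (l := getL c.C a.val) (n := i) (d := (0 : ℤ)) (fun y => c.D * y)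
      rw [mul_zero] at this
      exact this
    have e3 : (List.map (fun row => li row (c.T.map fun t => w m c.hs.length c.hs t a.val))
        c.Ms).getD i 0 = li (c.Ms.getD i []) (c.T.map fun t => w m c.hs.length c.hs t a.val) := by
      have := List.getD_map (l := c.Ms) (n := i) (d := ([] : List ℤ))
        (fun row => li row (c.T.map fun t => w m c.hs.length c.hs t a.val))
      simp only [li] at this
      exact this
    rw [e2, e3] at h2
    rw [← h2]
    congr 1
    refine List.map_congr_left fun t ht => ?_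
    have h3 := w_eq hm g.ord t a.val
    rw [g.Tlt t ht, ZMod.natCast_zmod_val] at h3
    exact h3
  have h4 : c.D * (s.map fun a => (getL c.C a.val).getD i 0).sum = 0 := by
    rw [← Multiset.sum_map_mul_left, Multiset.map_congr rfl e1, li_sum]
    have : (c.T.map fun t => (s.map (Wz (x : ZMod m) t)).sum) = c.T.map fun _ => (0 : ℤ) :=
      List.map_congr_left fun t ht => hT t (g.T t ht)
    rw [this, li_zero]
  exact (mul_eq_zero.mp h4).resolve_left g.d

end

end Pool.Agent.N997.TF
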