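import Pool.Agent.N997.TF.Sound

/-!
Soundness of the checker, second part.
-/

set_option linter.unusedSectionVars false

namespace Pool.Agent.N997.TF

/-- The quotient by the relations. -/
def Quo (m : ℕ) (X : ZMod m) : Type := (ZMod m → ℤ) ⧸ Relations m X

noncomputable instance (m : ℕ) (X : ZMod m) : AddCommGroup (Quo m X) :=
  inferInstanceAs (AddCommGroup ((ZMod m → ℤ) ⧸ Relations m X))

/-- The projection. -/
noncomputable def pr (m : ℕ) (X : ZMod m) : (ZMod m → ℤ) →+ Quo m X :=
  QuotientAddGroup.mk' (Relations m X)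

theorem pr_eq_zero {m : ℕ} {X : ZMod m} {f : ZMod m → ℤ} : pr m X f = 0 ↔ f ∈ Relations m X :=
  QuotientAddGroup.eq_zero_iff f

theorem pr_base {m : ℕ} {X : ZMod m} {f : ZMod m → ℤ} (h : f ∈ Base m X) : pr m X f = 0 :=
  pr_eq_zero.mpr (AddSubgroup.subset_closure h)

/-- The class of a residue. -/
noncomputable def el (m : ℕ) (X : ZMod m) (a : ℕ) : Quo m X :=
  pr m X (Pi.single (a : ZMod m) 1)

theorem cls_cons {m : ℕ} (a : ZMod m) (s : Multiset (ZMod m)) :
    cls (a ::ₘ s) = Pi.single a 1 + cls s := by
  funext b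
  by_cases h : b = a
  · subst h
    simp [cls, add_comm]
  · simp [cls, h]

theorem cls_zero {m : ℕ} : cls (0 : Multiset (ZMod m)) = 0 := by
  funext b
  simp [cls]

theorem pr_cls {m : ℕ} (X : ZMod m) (s : Multiset (ZMod m)) :
    pr m X (cls s) = (s.map fun a => pr m X (Pi.single a 1)).sum := by
  induction s using Multiset.induction_on with
  | empty => simp [cls_zero]
  | cons a s ih => rw [cls_cons, map_add, ih, Multiset.map_cons, Multiset.sum_cons]

/-- The multiset of residues of a list. -/
def ms (m : ℕ) (x : List ℕ) : Multiset (ZMod m) := ((x.map fun a : ℕ => (a : ZMod m)) : List (ZMod m))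

theorem pr_ms {m : ℕ} (X : ZMod m) (x : List ℕ) :
    pr m X (cls (ms m x)) = (x.map (el m X)).sum := by
  rw [pr_cls, ms, Multiset.map_coe, Multiset.sum_coe, List.map_map]
  rfl

theorem ms_append {m : ℕ} (x y : List ℕ) : ms m (x ++ y) = ms m x + ms m y := by
  simp [ms]

theorem cast_ne_zero {m a : ℕ} (h0 : 0 < a) (ha : a < m) : (a : ZMod m) ≠ 0 := by
  intro h
  rw [ZMod.natCast_eq_zero_iff] at h
  exact absurd (Nat.le_of_dvd h0 h) (by omega)

theorem piece_lt {m : ℕ} {x : List ℕ} (h : piece m x = true) : ∀ a ∈ x, 0 < a ∧ a < m := by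
  simp only [piece, Bool.and_eq_true, List.all_eq_true, decide_eq_true_eq] at h
  exact h.1

theorem piece_odd {m : ℕ} {x : List ℕ} (h : piece m x = true) : x.length = 1 ∨ x.length = 3 := by
  simp only [piece, Bool.and_eq_true, Bool.or_eq_true, beq_iff_eq] at h
  rcases h.2 with h | h
  · exact Or.inl h
  · exact Or.inr h.1

theorem piece_curve {m : ℕ} {x : List ℕ} (h : piece m x = true) : CurvePiece m (ms m x) := by
  refine ⟨?_, ?_⟩
  · intro h0
    rw [ms, Multiset.mem_coe, List.mem_map] at h0
    obtain ⟨a, ha, h1⟩ := h0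
    exact cast_ne_zero (piece_lt h a ha).1 (piece_lt h a ha).2 h1
  · simp only [piece, Bool.and_eq_true, Bool.or_eq_true, beq_iff_eq] at h
    rcases h.2 with h | h
    · left
      simp [ms, h]
    · right
      refine ⟨by simp [ms, h.1], ?_⟩
      rw [ms, Multiset.sum_coe]
      have : (x.map fun a : ℕ => (a : ZMod m)).sum = ((x.sum : ℕ) : ZMod m) := by
        rw [Nat.cast_list_sum]
      rw [this, ZMod.natCast_eq_zero_iff]
      exact Nat.dvd_of_mod_eq_zero h.2

section

variable {m x : ℕ} {c : Cert} (g : Good m x c)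
include g

theorem isTate_ms {y : List ℕ} (hy : ∀ a ∈ y, 0 < a ∧ a < m)
    (h : allZero (tot c.C (y.map fun a => ((1 : ℤ), a))) = true) :
    IsTate m (x : ZMod m) (ms m y) := by
  rw [isTate_iff]
  intro t ht
  rw [ms, Multiset.map_coe, Multiset.sum_coe, List.map_map]
  exact tate_of_tot g hy h ht

theorem om2 : (2 : ℤ) • (c.om.map (el m (x : ZMod m))).sum = 0 := by
  rcases g.om with h | ⟨h1, h2⟩
  · simp [h]
  · have hT := isTate_ms g (piece_lt h1) h2
    rw [← pr_ms, two_zsmul, ← map_add]
    have e1 : cls (ms m c.om) + cls (ms m c.om) = cls (ms m c.om + ms m c.om) := by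
      funext a
      simp [cls]
    rw [e1]
    refine pr_base (Or.inl ⟨_, _, piece_curve h1, piece_curve h1, ?_, rfl⟩)
    rw [isTate_iff] at hT ⊢
    intro t ht
    rw [Multiset.map_add, Multiset.sum_add, hT t ht, add_zero]

theorem even_om {k : ℤ} (hk : Even k) : k • (c.om.map (el m (x : ZMod m))).sum = 0 := by
  obtain ⟨j, rfl⟩ := hk
  rw [← two_mul, mul_comm, mul_smul, om2 g, smul_zero]

end

/-- The sign of the extra term. -/
def ext : Rel → ℤ
  | .one _ => 1
  | _ => 0

section

variable {m x : ℕ} {c : Cert} (g : Good m x c)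
include g

theorem el_mod (a : ℕ) : el m (x : ZMod m) (a % m) = el m (x : ZMod m) a := by
  unfold el
  rw [ZMod.natCast_mod]

theorem rel_el {r : Rel} (hv : valid m c.om r = true)
    (ht : allZero (tot c.C (terms m r)) = true) :
    ((terms m r).map fun p => p.1 • el m (x : ZMod m) p.2).sum +
      ext r • (c.om.map (el m (x : ZMod m))).sum = 0 := by
  cases r with
  | two y z =>
    simp only [valid, Bool.and_eq_true] at hv
    simp only [terms, List.map_map, Function.comp_def, one_smul, ext, zero_smul, add_zero] at ht ⊢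
    have hyz : ∀ a ∈ y ++ z, 0 < a ∧ a < m := by
      intro a ha
      rcases List.mem_append.mp ha with h | h
      · exact piece_lt hv.1 a h
      · exact piece_lt hv.2 a h
    have hT := isTate_ms g hyz ht
    show ((y ++ z).map (el m (x : ZMod m))).sum = 0
    rw [← pr_ms]
    rw [ms_append] at hT ⊢
    exact pr_base (Or.inl ⟨_, _, piece_curve hv.1, piece_curve hv.2, hT, rfl⟩)
  | one y =>
    simp only [valid, Bool.and_eq_true, Bool.not_eq_true', List.isEmpty_eq_false_iff] at hv
    simp only [terms, List.map_map, Function.comp_def, one_smul, ext] at ht ⊢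
    rcases g.om with h | ⟨h1, h2⟩
    · exact absurd h hv.2
    · have hT := isTate_ms g (piece_lt hv.1) ht
      have hT2 := isTate_ms g (piece_lt h1) h2
      show (y.map (el m (x : ZMod m))).sum + (c.om.map (el m (x : ZMod m))).sum = 0
      rw [← pr_ms, ← pr_ms, ← map_add]
      have e1 : cls (ms m y) + cls (ms m c.om) = cls (ms m y + ms m c.om) := by
        funext a
        simp [cls]
      rw [e1]
      refine pr_base (Or.inl ⟨_, _, piece_curve hv.1, piece_curve h1, ?_, rfl⟩)
      rw [isTate_iff] at hT hT2 ⊢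
      intro t ht
      rw [Multiset.map_add, Multiset.sum_add, hT t ht, hT2 t ht, add_zero]
  | hd q a =>
    simp only [valid, Bool.and_eq_true, Bool.not_eq_true', beq_iff_eq, beq_eq_false_iff_ne,
      List.contains_iff_mem] at hv
    obtain ⟨⟨hq, hqm⟩, hqa⟩ := hv
    have hqp : q.Prime ∧ q ≠ 2 := by
      simp only [List.mem_cons, List.not_mem_nil, or_false] at hq
      rcases hq with h | h | h | h | h | h | h | h | h | h | h | h | h | h <;> subst h <;> norm_num
    simp only [terms, ext, zero_smul, add_zero, List.map_append, List.map_map, Function.comp_def,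
      List.sum_append, one_smul, List.map_cons, List.map_nil, List.sum_cons, List.sum_nil, neg_smul]
    have h1 : pr m (x : ZMod m) (cls ((Multiset.range q).map fun i =>
        (a : ZMod m) + ((i * (m / q) : ℕ) : ZMod m)) - cls {(q : ZMod m) * (a : ZMod m)}) = 0 := by
      refine pr_base (Or.inr (Or.inl ⟨q, a, hqp.1, hqp.2, Nat.dvd_of_mod_eq_zero hqm, ?_, rfl⟩))
      intro h
      apply hqa
      have h2 : ((q * a : ℕ) : ZMod m) = 0 := by push_cast; exact h
      rw [ZMod.natCast_eq_zero_iff] at h2
      exact Nat.mod_eq_zero_of_dvd h2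
    rw [map_sub, pr_cls, pr_cls, Multiset.map_singleton, Multiset.sum_singleton,
      Multiset.map_map] at h1
    rw [← sub_eq_add_neg]
    refine Eq.trans ?_ h1
    congr 1
    · show ((List.range q).map fun i => el m (x : ZMod m) ((a + i * (m / q)) % m)).sum =
        (Multiset.map _ ((List.range q : List ℕ) : Multiset ℕ)).sum
      rw [Multiset.map_coe, Multiset.sum_coe]
      congr 1
      refine List.map_congr_left fun i _ => ?_
      rw [el_mod g, el]
      simp
    · rw [el_mod g, el]
      simp
  | dup a =>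
    simp only [valid, Bool.and_eq_true, Bool.not_eq_true', beq_iff_eq, beq_eq_false_iff_ne] at hv
    simp only [terms, ext, zero_smul, add_zero, List.map_cons, List.map_nil, List.sum_cons,
      List.sum_nil, neg_smul, one_smul]
    have h1 : pr m (x : ZMod m) (cls {(a : ZMod m), (a : ZMod m) + ((m / 2 : ℕ) : ZMod m)} -
        cls {2 * (a : ZMod m), ((m / 2 : ℕ) : ZMod m)}) = 0 := by
      refine pr_base (Or.inr (Or.inr ⟨a, Nat.dvd_of_mod_eq_zero hv.1, ?_, rfl⟩))
      intro h
      apply hv.2
      have h2 : ((2 * a : ℕ) : ZMod m) = 0 := by push_cast; exact h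
      rw [ZMod.natCast_eq_zero_iff] at h2
      exact Nat.mod_eq_zero_of_dvd h2
    rw [map_sub, pr_cls, pr_cls] at h1
    simp only [Multiset.insert_eq_cons, Multiset.map_cons, Multiset.map_singleton,
      Multiset.sum_cons, Multiset.sum_singleton] at h1
    rw [el_mod g, el_mod g]
    unfold el
    push_cast
    rw [← h1]
    abel

end

end Pool.Agent.N997.TF
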