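import Pool.Agent.N997.TF.Sound2

/-!
Soundness of the checker, third part.
-/

set_option linter.unusedSectionVars false

namespace Pool.Agent.N997.TF

/-- The normal form of a residue. -/
noncomputable def nf (m x : ℕ) (c : Cert) (a : ℕ) : Quo m (x : ZMod m) :=
  lc (getL c.C a) (c.B.map (el m (x : ZMod m))) +
    (1 + lc (getL c.C a) (c.B.map fun _ => (1 : ℤ))) • (c.om.map (el m (x : ZMod m))).sum

theorem even_terms {m : ℕ} {om : List ℕ} {r : Rel} (hv : valid m om r = true) :
    Even (((terms m r).map Prod.fst).sum + ext r) := by
  have hone : ∀ l : List ℕ, ((l.map fun a => ((1 : ℤ), a)).map Prod.fst).sum = (l.length : ℤ) := by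
    intro l
    induction l with
    | nil => simp
    | cons a l ih =>
      simp only [List.map_cons, List.sum_cons, List.length_cons] at ih ⊢
      rw [ih]; push_cast; ring
  cases r with
  | two y z =>
    simp only [valid, Bool.and_eq_true] at hv
    have h1 := piece_odd hv.1
    have h2 := piece_odd hv.2
    have e0 : ext (.two y z) = 0 := rfl
    rw [terms, hone, List.length_append, e0, add_zero]
    rcases h1 with h1 | h1 <;> rcases h2 with h2 | h2 <;> rw [h1, h2] <;> decide
  | one y =>
    simp only [valid, Bool.and_eq_true] at hv
    have h1 := piece_odd hv.1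
    have e0 : ext (.one y) = 1 := rfl
    rw [terms, hone, e0]
    rcases h1 with h1 | h1 <;> rw [h1] <;> decide
  | hd q a =>
    simp only [valid, Bool.and_eq_true, List.contains_iff_mem] at hv
    have hq := hv.1.1
    have h1 : ((terms m (.hd q a)).map Prod.fst).sum + ext (.hd q a) = (q : ℤ) - 1 := by
      simp only [terms, ext, List.map_append, List.map_map, List.sum_append, List.map_cons,
        List.map_nil, List.sum_cons, List.sum_nil]
      have : (List.map (Prod.fst ∘ fun i => ((1 : ℤ), (a + i * (m / q)) % m)) (List.range q)).sum
          = (q : ℤ) := by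
        have e : (Prod.fst ∘ fun i => ((1 : ℤ), (a + i * (m / q)) % m)) = fun _ : ℕ => (1 : ℤ) := rfl
        rw [e]
        simp
      rw [this]; ring
    rw [h1]
    simp only [List.mem_cons, List.not_mem_nil, or_false] at hq
    rcases hq with h | h | h | h | h | h | h | h | h | h | h | h | h | h <;> subst h <;> decide
  | dup a =>
    simp [terms, ext]

section

variable {m x : ℕ} {c : Cert} (g : Good m x c)
include g

theorem rel_nf {r : Rel} (hv : valid m c.om r = true)
    (ht : allZero (tot c.C (terms m r)) = true) :
    ((terms m r).map fun p => p.1 • nf m x c p.2).sum +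
      ext r • (c.om.map (el m (x : ZMod m))).sum = 0 := by
  have key : ∀ L : List (ℤ × ℕ), (L.map fun p => p.1 • nf m x c p.2).sum =
      (L.map fun p => p.1 • lc (getL c.C p.2) (c.B.map (el m (x : ZMod m)))).sum +
        ((L.map Prod.fst).sum +
          (L.map fun p => p.1 • lc (getL c.C p.2) (c.B.map fun _ => (1 : ℤ))).sum) •
            (c.om.map (el m (x : ZMod m))).sum := by
    intro L
    induction L with
    | nil => simp
    | cons p L ih =>
      simp only [List.map_cons, List.sum_cons, ih]
      simp only [nf, smul_add, add_smul, one_smul, smul_eq_mul, mul_smul]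
      abel
  rw [key, ← lc_tot g, ← lc_tot g, lc_allZero ht, lc_allZero ht, add_zero, zero_add, ← add_smul]
  exact even_om g (even_terms hv)

theorem el_nf_B : ∀ b ∈ c.B, el m (x : ZMod m) b = nf m x c b := by
  have key : ∀ (l pre : List ℕ), c.B = pre ++ l → chkB c.C pre.length l = true →
      ∀ b ∈ l, el m (x : ZMod m) b = nf m x c b := by
    intro l
    induction l with
    | nil => intro pre _ _ b hb; simp at hb
    | cons b l ih =>
      intro pre hB hc b' hb'
      simp only [chkB, Bool.and_eq_true, beq_iff_eq] at hc
      rcases List.mem_cons.mp hb' with h | h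
      · subst h
        have e1 : ∀ {M : Type} [AddCommGroup M] (F : ℕ → M), lc (getL c.C b') (c.B.map F) = F b' := by
          intro M _ F
          rw [hc.1, hB, List.map_append, List.map_cons]
          have := lc_unit (pre.map F) (l.map F) (F b')
          rwa [List.length_map, List.length_map] at this
        rw [nf, e1, e1 (fun _ => (1 : ℤ)), even_om g (by decide), add_zero]
      · refine ih (pre ++ [b]) (by rw [hB]; simp) ?_ b' h
        rw [List.length_append]
        exact hc.2
  exact key c.B [] rfl g.B

theorem el_nf_om : ∀ b ∈ (if c.om.length = 1 then c.om else []),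
    el m (x : ZMod m) b = nf m x c b := by
  intro b hb
  split_ifs at hb with h
  · obtain ⟨a, ha⟩ := List.length_eq_one_iff.mp h
    rw [ha, List.mem_singleton] at hb
    subst hb
    rcases g.om with h1 | ⟨_, h2⟩
    · rw [ha] at h1
      simp at h1
    · rw [ha] at h2
      have e1 : ∀ {M : Type} [AddCommGroup M] (vs : List M), lc (getL c.C b) vs = 0 := by
        intro M _ vs
        have := lc_allZero h2 vs
        rw [lc_tot g] at this
        simpa using this
      rw [nf, e1, e1, ha]
      simp
  · simp at hb

theorem group_sum {M : Type} [AddCommGroup M] (d : ℕ → M) (L : List (ℤ × ℕ)) (S : Finset ℕ)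
    (hS : ∀ y ∈ L, y.2 ∈ S) :
    (L.map fun q => q.1 • d q.2).sum = ∑ y ∈ S, coefSum y L • d y := by
  clear g
  induction L with
  | nil => simp [coefSum]
  | cons q L ih =>
    obtain ⟨k, z⟩ := q
    have h1 := ih fun y hy => hS y (List.mem_cons_of_mem _ hy)
    have hz : z ∈ S := hS (k, z) List.mem_cons_self
    rw [List.map_cons, List.sum_cons, h1]
    simp only [coefSum, add_smul]
    rw [Finset.sum_add_distrib]
    congr 1
    rw [Finset.sum_eq_single z]
    · simp
    · intro y _ hy
      rw [if_neg (fun h => hy h.symm), zero_smul]
    · intro h; exact absurd hz h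

theorem comb_zero {M : Type} [AddCommGroup M] (d : ℕ → M) (rs : List (ℤ × Rel))
    (h : ∀ q ∈ rs, ((terms m q.2).map fun p => p.1 • d p.2).sum = 0) :
    ((comb m rs).map fun p => p.1 • d p.2).sum = 0 := by
  clear g
  induction rs with
  | nil => simp [comb]
  | cons q rs ih =>
    obtain ⟨n, r⟩ := q
    have h1 := ih fun y hy => h y (List.mem_cons_of_mem _ hy)
    have h2 := h (n, r) List.mem_cons_self
    rw [comb, List.map_append, List.sum_append, h1, add_zero, List.map_map]
    have e : ((fun p : ℤ × ℕ => p.1 • d p.2) ∘ fun q : ℤ × ℕ => (n * q.1, q.2)) =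
        fun p => n • (p.1 • d p.2) := by
      funext p
      simp [mul_smul]
    rw [e]
    have e2 : ∀ L : List (ℤ × ℕ), (L.map fun p => n • (p.1 • d p.2)).sum =
        n • (L.map fun p => p.1 • d p.2).sum := by
      intro L
      induction L with
      | nil => simp
      | cons p L ih => simp only [List.map_cons, List.sum_cons, ih, smul_add]
    rw [e2]
    show n • ((terms m r).map fun p => p.1 • d p.2).sum = 0
    rw [h2, smul_zero]

theorem chain_ok : ∀ (l : List (ℕ × List (ℤ × Rel))) (known : List ℕ),
    (∀ a ∈ known, el m (x : ZMod m) a = nf m x c a) →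
    chkChain m c.C c.om known l = true → ∀ a, 0 < a → a < m →
      el m (x : ZMod m) a = nf m x c a := by
  intro l
  induction l with
  | nil =>
    intro known hk h a h0 ha
    simp only [chkChain, List.all_eq_true, List.mem_range, Bool.or_eq_true, beq_iff_eq,
      List.contains_iff_mem] at h
    rcases h a ha with h1 | h1
    · omega
    · exact hk a h1
  | cons pr' l ih =>
    obtain ⟨p, rs⟩ := pr'
    intro known hk h
    simp only [chkChain, Bool.and_eq_true, List.all_eq_true, Bool.or_eq_true, beq_iff_eq,
      List.contains_iff_mem] at h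
    obtain ⟨hv, hkn, hc, hl⟩ := h
    refine ih (p :: known) ?_ hl
    have h0 : ((comb m rs).map fun q => q.1 • (el m (x : ZMod m) q.2 - nf m x c q.2)).sum = 0 := by
      refine comb_zero g (fun a => el m (x : ZMod m) a - nf m x c a) rs fun q hq => ?_
      have h1 := rel_el g (hv q hq).1 (hv q hq).2
      have h2 := rel_nf g (hv q hq).1 (hv q hq).2
      have h3 := h1.trans h2.symm
      rw [add_left_inj] at h3
      have e : ∀ L : List (ℤ × ℕ), (L.map fun p => p.1 • (el m (x : ZMod m) p.2 - nf m x c p.2)).sum =
          (L.map fun p => p.1 • el m (x : ZMod m) p.2).sum -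
            (L.map fun p => p.1 • nf m x c p.2).sum := by
        intro L
        induction L with
        | nil => simp
        | cons p L ih =>
          rw [List.map_cons, List.sum_cons, List.map_cons, List.sum_cons, List.map_cons,
            List.sum_cons, ih, smul_sub]
          abel
      show ((terms m q.2).map fun p => p.1 • (el m (x : ZMod m) p.2 - nf m x c p.2)).sum = 0
      rw [e, h3, sub_self]
    rw [group_sum g (fun a => el m (x : ZMod m) a - nf m x c a) (comb m rs)
      (insert p ((comb m rs).map Prod.snd).toFinset)
      (fun y hy => Finset.mem_insert_of_mem (List.mem_toFinset.mpr (List.mem_map_of_mem hy)))] at h0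
    rw [Finset.sum_eq_single_of_mem p (Finset.mem_insert_self _ _)] at h0
    · have h5 : el m (x : ZMod m) p = nf m x c p := by
        rcases hc with hc | hc
        · rw [hc, one_smul] at h0
          exact sub_eq_zero.mp h0
        · rw [hc, neg_smul, one_smul] at h0
          exact sub_eq_zero.mp (neg_eq_zero.mp h0)
      intro a ha
      rcases List.mem_cons.mp ha with h6 | h6
      · rw [h6]; exact h5
      · exact hk a h6
    · intro y hy hyp
      rcases Finset.mem_insert.mp hy with h6 | h6
      · exact absurd h6 hyp
      · rw [List.mem_toFinset, List.mem_map] at h6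
        obtain ⟨q, hq, rfl⟩ := h6
        rcases hkn q hq with h7 | h7 | h7
        · exact absurd h7 hyp
        · rw [hk _ h7, sub_self, smul_zero]
        · rw [h7, zero_smul]

theorem main_of_good {s : Multiset (ZMod m)} (h0 : (0 : ZMod m) ∉ s)
    (he : Even (Multiset.card s)) (hT : IsTate m (x : ZMod m) s) :
    cls s ∈ Relations m (x : ZMod m) := by
  have hm := g.two
  have : NeZero m := ⟨by omega⟩
  have hall := chain_ok g c.chain _ (fun a ha => by
    rcases List.mem_append.mp ha with h | h
    · exact el_nf_B g a h
    · exact el_nf_om g a h) g.chain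
  rw [← pr_eq_zero, pr_cls]
  have e1 : ∀ a ∈ s, pr m (x : ZMod m) (Pi.single a 1) = nf m x c a.val := by
    intro a ha
    have h1 := hall a.val (Nat.pos_of_ne_zero fun h => h0 (by
      rwa [← (ZMod.val_eq_zero a).mp h])) (ZMod.val_lt a)
    rw [← h1, el, ZMod.natCast_zmod_val]
  rw [Multiset.map_congr rfl e1]
  have hco := coords g h0 hT
  have z1 := coord_zero s (fun a => getL c.C a.val) hco (c.B.map (el m (x : ZMod m)))
  have z2 := coord_zero s (fun a => getL c.C a.val) hco (c.B.map fun _ => (1 : ℤ))
  have e2 : ∀ s : Multiset (ZMod m), (s.map fun a => nf m x c a.val).sum =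
      (s.map fun a => lc (getL c.C a.val) (c.B.map (el m (x : ZMod m)))).sum +
        ((Multiset.card s : ℤ) +
          (s.map fun a => lc (getL c.C a.val) (c.B.map fun _ => (1 : ℤ))).sum) •
            (c.om.map (el m (x : ZMod m))).sum := by
    intro s
    induction s using Multiset.induction_on with
    | empty => simp
    | cons a s ih =>
      simp only [Multiset.map_cons, Multiset.sum_cons, Multiset.card_cons]
      rw [ih, nf]
      push_cast
      simp only [add_smul, one_smul]
      abel
  rw [e2, z1, z2, zero_add, add_zero]
  exact even_om g (by exact_mod_cast he)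

end

theorem main_of_chk {m x : ℕ} {c : Cert} (h : chk m x c = true) {s : Multiset (ZMod m)}
    (h0 : (0 : ZMod m) ∉ s) (he : Even (Multiset.card s)) (hT : IsTate m (x : ZMod m) s) :
    cls s ∈ Relations m (x : ZMod m) :=
  main_of_good (good_of_chk h) h0 he hT

end Pool.Agent.N997.TF
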